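import Pool.Agent.Kin.Defs

/-! KIN RES: resolvents of real symmetric matrices. -/

open Matrix Finset

noncomputable section

namespace Pool.Agent.Kin

variable {ι : Type} [Fintype ι] [DecidableEq ι]

/-- The self-adjoint part. -/
def opH (H0 : Matrix ι ι ℂ) (h : ι → ℝ) : Matrix ι ι ℂ :=
  H0 + Matrix.diagonal (fun x => ((h x : ℝ) : ℂ))

lemma opH_herm {H0 : Matrix ι ι ℂ} (hH : RealSym H0) (h : ι → ℝ) :
    (opH H0 h).IsHermitian := by
  ext x y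
  simp only [opH, Matrix.conjTranspose_apply, Matrix.add_apply, Matrix.diagonal_apply]
  have h1 : star (H0 y x) = H0 x y := by
    apply Complex.ext
    · simp [hH.symm y x]
    · simp [hH.real y x, hH.real x y]
  by_cases hxy : x = y
  · subst hxy
    simp [h1]
  · have hyx : y ≠ x := fun e => hxy e.symm
    simp [h1, hxy, hyx]

lemma opH_symm {H0 : Matrix ι ι ℂ} (hH : RealSym H0) (h : ι → ℝ) :
    (opH H0 h)ᵀ = opH H0 h := by
  ext x y
  simp only [opH, Matrix.transpose_apply, Matrix.add_apply, Matrix.diagonal_apply]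
  by_cases hxy : x = y
  · subst hxy
    simp
  · have hyx : y ≠ x := fun e => hxy e.symm
    simp [hH.symm y x, hxy, hyx]

lemma quad_im {H0 : Matrix ι ι ℂ} (hH : RealSym H0) (w : ℂ) (h : ι → ℝ) (v : ι → ℂ) :
    (star v ⬝ᵥ ((opH H0 h - w • (1 : Matrix ι ι ℂ)) *ᵥ v)).im = -w.im * ∑ x, ‖v x‖ ^ 2 := by
  rw [Matrix.sub_mulVec, Matrix.smul_mulVec, Matrix.one_mulVec, dotProduct_sub,
    dotProduct_smul, Complex.sub_im]
  have h1 : (star v ⬝ᵥ (opH H0 h *ᵥ v)).im = 0 :=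
    (opH_herm hH h).im_star_dotProduct_mulVec_self v
  have h2 : star v ⬝ᵥ v = ((∑ x, ‖v x‖ ^ 2 : ℝ) : ℂ) := by
    rw [dotProduct, Complex.ofReal_sum]
    refine Finset.sum_congr rfl fun x _ => ?_
    rw [Pi.star_apply]
    have := Complex.conj_mul' (v x)
    rw [Complex.ofReal_pow]
    exact this
  rw [h1, h2, smul_eq_mul, Complex.im_mul_ofReal]
  ring

lemma sum_sq_eq_zero {v : ι → ℂ} (h : ∑ x, ‖v x‖ ^ 2 = 0) : v = 0 := by
  funext x
  have h1 := (Finset.sum_eq_zero_iff_of_nonneg (fun x _ => by positivity)).1 h x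
    (Finset.mem_univ x)
  have h2 : ‖v x‖ = 0 := by
    by_contra hne
    exact absurd h1 (pow_ne_zero 2 hne)
  simpa using h2

lemma isUnit_op {H0 : Matrix ι ι ℂ} (hH : RealSym H0) {w : ℂ} (hw : 0 < w.im) (h : ι → ℝ) :
    IsUnit (opH H0 h - w • (1 : Matrix ι ι ℂ)).det := by
  rw [isUnit_iff_ne_zero]
  intro hdet
  obtain ⟨v, hv, hAv⟩ := Matrix.exists_mulVec_eq_zero_iff.2 hdet
  apply hv
  apply sum_sq_eq_zero
  have := quad_im hH w h v
  rw [hAv, dotProduct_zero, Complex.zero_im] at this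
  rcases mul_eq_zero.1 this.symm with h1 | h1
  · linarith
  · exact h1

lemma res_def (H0 : Matrix ι ι ℂ) (w : ℂ) (h : ι → ℝ) :
    res H0 w h = (opH H0 h - w • (1 : Matrix ι ι ℂ))⁻¹ := rfl

/-- `(H0 + diag h - w) res = 1`. -/
lemma mul_res {H0 : Matrix ι ι ℂ} (hH : RealSym H0) {w : ℂ} (hw : 0 < w.im) (h : ι → ℝ) :
    (H0 + Matrix.diagonal (fun x => ((h x : ℝ) : ℂ)) - w • (1 : Matrix ι ι ℂ)) * res H0 w h = 1 :=
  Matrix.mul_nonsing_inv _ (isUnit_op hH hw h)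

lemma res_mul {H0 : Matrix ι ι ℂ} (hH : RealSym H0) {w : ℂ} (hw : 0 < w.im) (h : ι → ℝ) :
    res H0 w h * (H0 + Matrix.diagonal (fun x => ((h x : ℝ) : ℂ)) - w • (1 : Matrix ι ι ℂ)) = 1 :=
  Matrix.nonsing_inv_mul _ (isUnit_op hH hw h)

lemma res_transpose {H0 : Matrix ι ι ℂ} (hH : RealSym H0) (w : ℂ) (h : ι → ℝ) :
    (res H0 w h)ᵀ = res H0 w h := by
  rw [res_def, Matrix.transpose_nonsing_inv, Matrix.transpose_sub, opH_symm hH,
    Matrix.transpose_smul, Matrix.transpose_one]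

lemma res_symm {H0 : Matrix ι ι ℂ} (hH : RealSym H0) {w : ℂ} (hw : 0 < w.im) (h : ι → ℝ)
    (x y : ι) : res H0 w h x y = res H0 w h y x := by
  have := congrFun (congrFun (res_transpose hH w h) x) y
  rw [Matrix.transpose_apply] at this
  exact this.symm

lemma res_ct_apply {H0 : Matrix ι ι ℂ} (hH : RealSym H0) {w : ℂ} (hw : 0 < w.im) (h : ι → ℝ)
    (x y : ι) : (res H0 w h)ᴴ x y = star (res H0 w h x y) := by
  rw [Matrix.conjTranspose_apply, res_symm hH hw h y x]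

lemma ward_mat {H0 : Matrix ι ι ℂ} (hH : RealSym H0) {w : ℂ} (hw : 0 < w.im) (h : ι → ℝ) :
    res H0 w h - (res H0 w h)ᴴ = (w - star w) • (res H0 w h * (res H0 w h)ᴴ) := by
  set G := res H0 w h with hG
  set A := opH H0 h - w • (1 : Matrix ι ι ℂ) with hA
  have h1 : G * A = 1 := res_mul hH hw h
  have h2 : Aᴴ * Gᴴ = 1 := by
    rw [← Matrix.conjTranspose_mul, h1, Matrix.conjTranspose_one]
  have h3 : Aᴴ - A = (w - star w) • (1 : Matrix ι ι ℂ) := by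
    rw [hA, Matrix.conjTranspose_sub, (opH_herm hH h).eq, Matrix.conjTranspose_smul,
      Matrix.conjTranspose_one, sub_smul]
    abel
  calc G - Gᴴ = G * (Aᴴ * Gᴴ) - (G * A) * Gᴴ := by rw [h1, h2, Matrix.mul_one, Matrix.one_mul]
    _ = G * (Aᴴ - A) * Gᴴ := by
        rw [← Matrix.mul_assoc, ← Matrix.sub_mul, ← Matrix.mul_sub]
    _ = (w - star w) • (G * Gᴴ) := by
        rw [h3, Matrix.mul_smul, Matrix.mul_one, Matrix.smul_mul]

/-- Ward identity: `G G* = Im G / Im w`. -/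
lemma ward {H0 : Matrix ι ι ℂ} (hH : RealSym H0) {w : ℂ} (hw : 0 < w.im) (h : ι → ℝ) (x y : ι) :
    ∑ u, res H0 w h x u * star (res H0 w h y u) = (((res H0 w h x y).im / w.im : ℝ) : ℂ) := by
  have h1 := congrFun (congrFun (ward_mat hH hw h) x) y
  rw [Matrix.sub_apply, res_ct_apply hH hw, Matrix.smul_apply, Matrix.mul_apply, smul_eq_mul] at h1
  have h2 : ∑ u, res H0 w h x u * (res H0 w h)ᴴ u y = ∑ u, res H0 w h x u * star (res H0 w h y u) :=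
    Finset.sum_congr rfl fun u _ => by rw [Matrix.conjTranspose_apply]
  rw [h2] at h1
  set S := ∑ u, res H0 w h x u * star (res H0 w h y u)
  have h3 : ∀ c : ℂ, c - star c = 2 * (c.im : ℂ) * Complex.I := by
    intro c
    apply Complex.ext <;> simp
    ring
  rw [h3, h3] at h1
  have hw' : (w.im : ℂ) ≠ 0 := by exact_mod_cast hw.ne'
  have h4 : (2 : ℂ) * Complex.I ≠ 0 := mul_ne_zero two_ne_zero Complex.I_ne_zero
  have h5 : ((res H0 w h x y).im : ℂ) = (w.im : ℂ) * S := by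
    apply mul_left_cancel₀ h4
    linear_combination h1
  rw [Complex.ofReal_div, h5]
  field_simp

lemma ward_row {H0 : Matrix ι ι ℂ} (hH : RealSym H0) {w : ℂ} (hw : 0 < w.im) (h : ι → ℝ) (x : ι) :
    ∑ y, ‖res H0 w h x y‖ ^ 2 = (res H0 w h x x).im / w.im := by
  have h1 := ward hH hw h x x
  have h2 : ∑ u, res H0 w h x u * star (res H0 w h x u) =
      ((∑ y, ‖res H0 w h x y‖ ^ 2 : ℝ) : ℂ) := by
    rw [Complex.ofReal_sum]
    refine Finset.sum_congr rfl fun u _ => ?_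
    have := Complex.mul_conj' (res H0 w h x u)
    rw [Complex.ofReal_pow]
    exact this
  rw [h2] at h1
  exact_mod_cast h1

lemma res_norm {H0 : Matrix ι ι ℂ} (hH : RealSym H0) {w : ℂ} (hw : 0 < w.im) (h : ι → ℝ)
    (u : ι → ℂ) : ∑ x, ‖(res H0 w h *ᵥ u) x‖ ^ 2 ≤ (1 / w.im) ^ 2 * ∑ x, ‖u x‖ ^ 2 := by
  set v := res H0 w h *ᵥ u with hv
  have h1 : (opH H0 h - w • (1 : Matrix ι ι ℂ)) *ᵥ v = u := by
    rw [hv, Matrix.mulVec_mulVec]
    have := mul_res hH hw h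
    rw [show (opH H0 h - w • (1 : Matrix ι ι ℂ)) * res H0 w h = 1 from this, Matrix.one_mulVec]
  have h2 := quad_im hH w h v
  rw [h1] at h2
  -- `w.im * ‖v‖² ≤ |⟨v,u⟩| ≤ ∑ ‖v‖ ‖u‖`
  have h3 : w.im * ∑ x, ‖v x‖ ^ 2 ≤ ∑ x, ‖v x‖ * ‖u x‖ := by
    have h4 : w.im * ∑ x, ‖v x‖ ^ 2 = -(star v ⬝ᵥ u).im := by rw [h2]; ring
    rw [h4]
    calc -(star v ⬝ᵥ u).im ≤ |(star v ⬝ᵥ u).im| := neg_le_abs _
      _ ≤ ‖star v ⬝ᵥ u‖ := Complex.abs_im_le_norm _
      _ ≤ ∑ x, ‖star v x * u x‖ := norm_sum_le _ _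
      _ = ∑ x, ‖v x‖ * ‖u x‖ := by
          refine Finset.sum_congr rfl fun x _ => ?_
          rw [norm_mul, Pi.star_apply, norm_star]
  have h5 : (∑ x, ‖v x‖ * ‖u x‖) ^ 2 ≤ (∑ x, ‖v x‖ ^ 2) * ∑ x, ‖u x‖ ^ 2 :=
    Finset.sum_mul_sq_le_sq_mul_sq _ _ _
  set V := ∑ x, ‖v x‖ ^ 2 with hV
  set U := ∑ x, ‖u x‖ ^ 2 with hU
  have hV0 : 0 ≤ V := Finset.sum_nonneg fun x _ => by positivity
  have hU0 : 0 ≤ U := Finset.sum_nonneg fun x _ => by positivity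
  rcases hV0.eq_or_lt with h0 | h0
  · rw [← h0]
    positivity
  · have h6 : (w.im * V) ^ 2 ≤ V * U :=
      (pow_le_pow_left₀ (by positivity) h3 2).trans h5
    have h7 : w.im ^ 2 * V ≤ U := by
      have : V * (w.im ^ 2 * V) ≤ V * U := by nlinarith
      exact le_of_mul_le_mul_left this h0
    rw [one_div, inv_pow, ← div_eq_inv_mul, le_div_iff₀ (by positivity)]
    linarith

lemma resH_norm {H0 : Matrix ι ι ℂ} (hH : RealSym H0) {w : ℂ} (hw : 0 < w.im) (h : ι → ℝ)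
    (u : ι → ℂ) : ∑ x, ‖((res H0 w h)ᴴ *ᵥ u) x‖ ^ 2 ≤ (1 / w.im) ^ 2 * ∑ x, ‖u x‖ ^ 2 := by
  have h1 : ∀ x, ((res H0 w h)ᴴ *ᵥ u) x = star ((res H0 w h *ᵥ (star u)) x) := by
    intro x
    rw [Matrix.mulVec, dotProduct, Matrix.mulVec, dotProduct, star_sum]
    refine Finset.sum_congr rfl fun y _ => ?_
    rw [res_ct_apply hH hw, Pi.star_apply, star_mul', star_star]
  have h2 := res_norm hH hw h (star u)
  have h3 : ∑ x, ‖((res H0 w h)ᴴ *ᵥ u) x‖ ^ 2 = ∑ x, ‖(res H0 w h *ᵥ (star u)) x‖ ^ 2 :=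
    Finset.sum_congr rfl fun x _ => by rw [h1, norm_star]
  have h4 : ∑ x, ‖(star u) x‖ ^ 2 = ∑ x, ‖u x‖ ^ 2 :=
    Finset.sum_congr rfl fun x _ => by rw [Pi.star_apply, norm_star]
  rw [h3, ← h4]
  exact h2

end Pool.Agent.Kin
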