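import Pool.Agent.Kin.Char
import Pool.Agent.Kin.Res

/-! KIN HDIAG: the free operator on the torus and its resolvent. -/

open Matrix Finset

noncomputable section

namespace Pool.Agent.Kin

variable {d L : ℕ} [NeZero L]

lemma H0T_realSym : RealSym (H0T d L) := by
  constructor
  · intro x y
    unfold H0T
    congr 1
    · by_cases h : x = y
      · simp [h]
      · simp [h, Ne.symm h]
    · refine Finset.sum_congr rfl fun j _ => ?_
      rw [add_comm]
      congr 1
      · have : (y = x - Pi.single j 1) ↔ (x = y + Pi.single j 1) := by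
          constructor
          · rintro rfl
            simp
          · rintro rfl
            simp
        simp only [this]
      · have : (y = x + Pi.single j 1) ↔ (x = y - Pi.single j 1) := by
          constructor
          · rintro rfl
            simp
          · rintro rfl
            simp
        simp only [this]
  · intro x y
    unfold H0T
    rw [Complex.sub_im, Complex.im_sum]
    have h1 : ((if x = y then 2 * (d : ℂ) else 0) : ℂ).im = 0 := by
      split_ifs <;> simp
    rw [h1, zero_sub, neg_eq_zero]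
    refine Finset.sum_eq_zero fun j _ => ?_
    rw [Complex.add_im]
    split_ifs <;> simp

lemma hdiag_ch1_two (a : ZMod L) : ch1 a + star (ch1 a) = ((2 * Real.cos (ang a) : ℝ) : ℂ) := by
  rw [ch1_eq]
  apply Complex.ext
  · simp
    ring
  · simp

lemma hdiag_ch_single (k : Tor d L) (j : Fin d) : ch k (Pi.single j 1) = ch1 (k j) := by
  unfold ch
  rw [Finset.prod_eq_single j]
  · rw [Pi.single_eq_same, mul_one]
  · intro i _ hi
    rw [Pi.single_eq_of_ne hi, mul_zero, ch1_zero]
  · intro h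
    exact absurd (Finset.mem_univ j) h

lemma hdiag_symbol (k u : Tor d L) :
    2 * (d : ℂ) * ch k u - ∑ j, (ch k (u + Pi.single j 1) + ch k (u - Pi.single j 1)) =
      (en k : ℂ) * ch k u := by
  have h1 : ∀ j : Fin d, ch k (u + Pi.single j 1) + ch k (u - Pi.single j 1) =
      ch k u * ((2 * Real.cos (ang (k j)) : ℝ) : ℂ) := by
    intro j
    rw [sub_eq_add_neg, ch_add_right, ch_add_right, ch_neg_right, hdiag_ch_single,
      ← hdiag_ch1_two]
    ring
  simp only [h1]
  rw [← Finset.mul_sum]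
  have h2 : (en k : ℂ) = 2 * (d : ℂ) - ∑ j, ((2 * Real.cos (ang (k j)) : ℝ) : ℂ) := by
    unfold en
    rw [Finset.sum_sub_distrib, Finset.sum_const, Finset.card_univ, Fintype.card_fin,
      nsmul_eq_mul]
    push_cast
    ring
  rw [h2]
  ring

lemma hdiag_apply (g : Tor d L → ℂ) (x : Tor d L) :
    ∑ z, H0T d L x z * g z =
      2 * (d : ℂ) * g x - ∑ j, (g (x + Pi.single j 1) + g (x - Pi.single j 1)) := by
  unfold H0T
  simp only [sub_mul, Finset.sum_sub_distrib, ite_mul, zero_mul, Finset.sum_ite_eq,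
    Finset.mem_univ, if_true]
  congr 1
  simp only [Finset.sum_mul]
  rw [Finset.sum_comm]
  refine Finset.sum_congr rfl fun j _ => ?_
  simp only [add_mul, Finset.sum_add_distrib, ite_mul, one_mul, zero_mul, Finset.sum_ite_eq',
    Finset.mem_univ, if_true]

lemma hdiag_ne (ζ : ℂ) (hζ : 0 < ζ.im) (k : Tor d L) : (en k : ℂ) - ζ ≠ 0 := by
  intro h
  have h1 := congrArg Complex.im h
  rw [Complex.sub_im, Complex.ofReal_im, zero_sub, Complex.zero_im, neg_eq_zero] at h1
  exact hζ.ne' h1

lemma hdiag_mul (ζ : ℂ) (hζ : 0 < ζ.im) (u : Tor d L) :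
    2 * (d : ℂ) * Mx ζ u - ∑ j, (Mx ζ (u + Pi.single j 1) + Mx ζ (u - Pi.single j 1)) -
      ζ * Mx ζ u = if u = 0 then 1 else 0 := by
  have hL : ((L : ℂ) ^ d) ≠ 0 := pow_ne_zero _ (Nat.cast_ne_zero.2 (NeZero.ne L))
  have h1 : 2 * (d : ℂ) * Mx ζ u - ∑ j, (Mx ζ (u + Pi.single j 1) + Mx ζ (u - Pi.single j 1)) -
      ζ * Mx ζ u = (1 / (L : ℂ) ^ d) * ∑ k : Tor d L,
        ((2 * (d : ℂ) * ch k u - ∑ j, (ch k (u + Pi.single j 1) + ch k (u - Pi.single j 1)))
          / ((en k : ℂ) - ζ) - ζ * (ch k u / ((en k : ℂ) - ζ))) := by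
    unfold Mx
    rw [Finset.sum_sub_distrib, mul_sub]
    congr 1
    · simp only [sub_div, Finset.sum_sub_distrib, mul_sub]
      congr 1
      · rw [mul_left_comm, Finset.mul_sum]
        congr 1
        refine Finset.sum_congr rfl fun k _ => ?_
        ring
      · simp only [← mul_add, ← Finset.sum_add_distrib, ← add_div]
        rw [← Finset.mul_sum, Finset.sum_comm]
        congr 1
        refine Finset.sum_congr rfl fun k _ => ?_
        rw [Finset.sum_div]
    · rw [mul_left_comm, Finset.mul_sum]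
  rw [h1]
  have h2 : ∀ k : Tor d L,
      ((2 * (d : ℂ) * ch k u - ∑ j, (ch k (u + Pi.single j 1) + ch k (u - Pi.single j 1)))
          / ((en k : ℂ) - ζ) - ζ * (ch k u / ((en k : ℂ) - ζ))) = ch k u := by
    intro k
    rw [hdiag_symbol]
    have := hdiag_ne ζ hζ k
    field_simp
  simp only [h2]
  rw [sum_ch]
  split_ifs
  · field_simp
  · simp

/-- the free resolvent is the convolution with `Mx` -/
lemma res_H0T (ζ : ℂ) (hζ : 0 < ζ.im) (x y : Tor d L) :
    res (H0T d L) ζ (fun _ => 0) x y = Mx ζ (x - y) := by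
  have h : res (H0T d L) ζ (fun _ => 0) = Matrix.of fun x y => Mx ζ (x - y) := by
    unfold res
    apply Matrix.inv_eq_right_inv
    ext x y
    rw [Matrix.mul_apply]
    have h1 : ∀ z, (H0T d L + Matrix.diagonal (fun _ : Tor d L => (((0 : ℝ)) : ℂ)) -
        ζ • (1 : Matrix (Tor d L) (Tor d L) ℂ)) x z * (Matrix.of fun x y => Mx ζ (x - y)) z y =
        H0T d L x z * Mx ζ (z - y) - (if x = z then ζ * Mx ζ (z - y) else 0) := by
      intro z
      rw [Matrix.sub_apply, Matrix.add_apply, Matrix.smul_apply, Matrix.of_apply,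
        Matrix.diagonal_apply, Matrix.one_apply]
      split_ifs <;> simp [sub_mul]
    simp only [h1]
    rw [Finset.sum_sub_distrib, Finset.sum_ite_eq, if_pos (Finset.mem_univ x),
      hdiag_apply (fun z => Mx ζ (z - y)) x]
    have h2 : ∀ j : Fin d, (x + Pi.single j 1 - y : Tor d L) = (x - y) + Pi.single j 1 := by
      intro j
      abel
    have h3 : ∀ j : Fin d, (x - Pi.single j 1 - y : Tor d L) = (x - y) - Pi.single j 1 := by
      intro j
      abel
    simp only [h2, h3]
    rw [hdiag_mul ζ hζ (x - y), Matrix.one_apply]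
    simp only [sub_eq_zero]
  rw [h, Matrix.of_apply]

lemma Mx_neg (ζ : ℂ) (x : Tor d L) : Mx ζ (-x) = Mx ζ x := by
  unfold Mx
  congr 1
  rw [← Equiv.sum_comp (Equiv.neg (Tor d L))]
  refine Finset.sum_congr rfl fun k _ => ?_
  rw [Equiv.neg_apply, en_neg, ch_neg_right, ch_neg_left, star_star]

lemma Mx_ward (ζ : ℂ) (hζ : 0 < ζ.im) :
    ∑ x : Tor d L, ‖Mx ζ x‖ ^ 2 = (Mx ζ (0 : Tor d L)).im / ζ.im := by
  have h := ward_row (H0T_realSym (d := d) (L := L)) hζ (fun _ => 0) 0
  simp only [res_H0T ζ hζ, zero_sub, Mx_neg, neg_zero, sub_self] at h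
  exact h

/-- `|M(x)| ≤ L^{-d} ∑ 1/|en k - ζ|` -/
lemma Mx_le (ζ : ℂ) (x : Tor d L) :
    ‖Mx ζ x‖ ≤ (1 / (L : ℝ) ^ d) * ∑ k : Tor d L, 1 / ‖(en k : ℂ) - ζ‖ := by
  unfold Mx
  rw [norm_mul]
  have h1 : ‖(1 / (L : ℂ) ^ d)‖ = 1 / (L : ℝ) ^ d := by
    rw [norm_div, norm_one, norm_pow, Complex.norm_natCast]
  rw [h1]
  refine mul_le_mul_of_nonneg_left ?_ (by positivity)
  refine (norm_sum_le _ _).trans (le_of_eq ?_)
  refine Finset.sum_congr rfl fun k _ => ?_
  rw [norm_div, ch_norm]

end Pool.Agent.Kin
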