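import Pool.Agent.Kin.Defs

/-!
# KIN: definitions for the torus (Part B of /team-store/kin_proof.md)
-/

open Matrix Finset

noncomputable section

namespace Pool.Agent.Kin

/-- The discrete torus `(ℤ/L)^d`; it is also the set of momenta. -/
abbrev Tor (d L : ℕ) : Type := Fin d → ZMod L

/-- the angle `2π a/L` of `a : ZMod L` -/
def ang {L : ℕ} (a : ZMod L) : ℝ := 2 * Real.pi * (a.val : ℝ) / L

/-- `exp(i ang a)` -/
def ch1 {L : ℕ} (a : ZMod L) : ℂ := Complex.exp ((ang a : ℝ) * Complex.I)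

variable {d L : ℕ}

/-- the character `x ↦ exp(2π i k·x/L)` -/
def ch (k x : Tor d L) : ℂ := ∏ j, ch1 (k j * x j)

/-- the symbol of the free operator -/
def en (k : Tor d L) : ℝ := ∑ j, (2 - 2 * Real.cos (ang (k j)))

/-- `varrho(k) = max_j |sin(π k_j/L)|` -/
def rh (k : Tor d L) : ℝ := ⨆ j, |Real.sin (ang (k j) / 2)|

/-- the free operator on the torus -/
def H0T (d L : ℕ) : Matrix (Tor d L) (Tor d L) ℂ := fun x y =>
  (if x = y then 2 * (d : ℂ) else 0) -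
    ∑ j, ((if y = x + Pi.single j 1 then 1 else 0) + (if y = x - Pi.single j 1 then 1 else 0))

/-- the free Green function -/
def Mx [NeZero L] (ζ : ℂ) (x : Tor d L) : ℂ :=
  (1 / (L : ℂ) ^ d) * ∑ k : Tor d L, ch k x / ((en k : ℂ) - ζ)

/-- `S(q)` -/
def ST [NeZero L] (ζ : ℂ) (q : Tor d L) : ℝ := ∑ x : Tor d L, ‖Mx ζ x‖ ^ 2 * (ch q x).re

/-- the ball of radius `R` -/
def ballT [NeZero L] (d : ℕ) (R : ℕ) : Finset (Tor d L) :=
  univ.filter fun y => ∀ j, |(y j).valMinAbs| ≤ (R : ℤ)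

/-- Fejer coefficient: `(1/(nL)) |∑_{0 ≤ a < n} exp(-2π i q a/L)|²` -/
def fej1 (n : ℕ) {L : ℕ} (q : ZMod L) : ℝ :=
  (1 / ((n : ℝ) * L)) * ‖∑ a ∈ range n, ch1 (-(q * (a : ZMod L)))‖ ^ 2

/-- coefficients of the bump function -/
def fej (n : ℕ) (q : Tor d L) : ℝ := ∏ j, fej1 n (q j)

/-- `Im G` on the ball of radius `R`, for the Hamiltonian `H0T + diag h` at `E + i η` -/
def JT (d L : ℕ) [NeZero L] (R : ℕ) (E η : ℝ) (h : Tor d L → ℝ) :
    Matrix (Tor d L) (Tor d L) ℝ :=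
  fun x y => if x ∈ ballT d R ∧ y ∈ ballT d R then
    (res (H0T d L) ((E : ℂ) + (η : ℂ) * Complex.I) h x y).im else 0

/-- the lattice point of `ℤ^d` represented by `w` -/
def rep {d L : ℕ} (w : Tor d L) : Fin d → ℤ := fun j => (w j).valMinAbs

/-- the data of the flow on the torus -/
def torusDat (d L : ℕ) [NeZero L] (E lam kap sg bd C1 C0 Ck : ℝ) (q m R : ℕ) :
    Dat (Tor d L) (Tor d L) where
  H0 := H0T d L
  z := (E : ℂ) + ((lam ^ (2 + kap) : ℝ) : ℂ) * Complex.I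
  g0 := Mx ((E : ℂ) + ((lam ^ 2 : ℝ) : ℂ) * Complex.I) (0 : Tor d L)
  lam := lam
  sg := sg
  bd := bd
  b := fun p x => ch p x
  S := fun p => ST ((E : ℂ) + ((lam ^ (2 + kap) : ℝ) : ℂ) * Complex.I +
    ((lam ^ 2 * sg : ℝ) : ℂ) * Mx ((E : ℂ) + ((lam ^ 2 : ℝ) : ℂ) * Complex.I) (0 : Tor d L)) p
  be := fun p => (((2 : ℝ) ^ d * fej (2 * R + 1) p : ℝ) : ℂ)
  B := ballT d R
  q := q
  m := m
  tau := lam ^ (1 / 16 : ℝ)
  KA := lam ^ (kap / 16) / lam ^ (2 + kap)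
  C1 := C1
  Lam := lam ^ (-(1 / 8) : ℝ)
  a4 := C0 * lam ^ (-(3 / 2) : ℝ)
  dbar := C0 * lam
  kbar := Ck * lam ^ (kap / 4) / lam ^ (2 + kap)

end Pool.Agent.Kin
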