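import Pool.Agent.Kin.POne
import Pool.Agent.Kin.Hdiag

/-! KIN MDIAG: the diagonal entry of the free Green function. -/

open Matrix Finset MeasureTheory

noncomputable section

namespace Pool.Agent.Kin

private lemma re_neg (e : ℝ) (ζ : ℂ) (hζ : 0 < ζ.im) : (Complex.I * (ζ - e)).re < 0 := by
  simp [Complex.mul_re, Complex.sub_re, Complex.sub_im]
  exact hζ

/-- `1/(e - ζ) = i ∫_0^∞ exp(i (ζ - e) t) dt` -/
lemma inv_eq_integral (e : ℝ) (ζ : ℂ) (hζ : 0 < ζ.im) :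
    1 / ((e : ℂ) - ζ) = Complex.I * ∫ t in Set.Ioi (0 : ℝ),
      Complex.exp (Complex.I * (ζ - e) * t) := by
  have h := re_neg e ζ hζ
  rw [integral_exp_mul_complex_Ioi h 0]
  have h1 : (e : ℂ) - ζ ≠ 0 := by
    intro h0
    have : ((e : ℂ) - ζ).im = 0 := by rw [h0]; rfl
    simp at this
    linarith
  have h2 : ζ - (e : ℂ) ≠ 0 := by
    intro h0
    apply h1
    rw [← neg_sub, h0, neg_zero]
  simp only [Complex.ofReal_zero, mul_zero, Complex.exp_zero]
  rw [← neg_sub ζ (e : ℂ)]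
  field_simp

private lemma integrable_one (e : ℝ) (ζ : ℂ) (hζ : 0 < ζ.im) :
    IntegrableOn (fun t : ℝ => Complex.exp (Complex.I * (ζ - e) * t)) (Set.Ioi 0) :=
  integrableOn_exp_mul_complex_Ioi (re_neg e ζ hζ) 0

private def FF {d L : ℕ} [NeZero L] (ζ : ℂ) (t : ℝ) : ℂ :=
  Complex.exp (Complex.I * ζ * t) * PT t 0 (0 : Tor d L)

private lemma FF_eq {d L : ℕ} [NeZero L] (ζ : ℂ) (t : ℝ) :
    FF (d := d) (L := L) ζ t =
      (1 / (L : ℂ) ^ d) * ∑ k : Tor d L, Complex.exp (Complex.I * (ζ - (en k : ℝ)) * t) := by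
  unfold FF PT
  rw [mul_left_comm, Finset.mul_sum]
  congr 1
  apply Finset.sum_congr rfl
  intro k _
  rw [← Complex.exp_add]
  congr 1
  push_cast
  ring

private lemma integrable_FF {d L : ℕ} [NeZero L] (ζ : ℂ) (hζ : 0 < ζ.im) :
    IntegrableOn (fun t : ℝ => FF (d := d) (L := L) ζ t) (Set.Ioi 0) := by
  simp_rw [FF_eq]
  apply Integrable.const_mul
  apply integrable_finsetSum
  intro k _
  exact integrable_one (en k) ζ hζ

private lemma Mx_eq {d L : ℕ} [NeZero L] (ζ : ℂ) (hζ : 0 < ζ.im) :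
    Mx ζ (0 : Tor d L) = Complex.I * ∫ t in Set.Ioi (0 : ℝ), FF (d := d) (L := L) ζ t := by
  simp_rw [FF_eq]
  rw [integral_const_mul, integral_finsetSum]
  · unfold Mx
    rw [mul_left_comm]
    congr 1
    rw [Finset.mul_sum]
    apply Finset.sum_congr rfl
    intro k _
    rw [← inv_eq_integral (en k) ζ hζ, ch_comm, ch_zero_left]
  · intro k _
    exact integrable_one (en k) ζ hζ

private lemma exp_diff_le {a b : ℂ} {c : ℝ} (ha : a.re ≤ c) (hb : b.re ≤ c) :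
    ‖Complex.exp a - Complex.exp b‖ ≤ Real.exp c * ‖a - b‖ := by
  have h := Convex.norm_image_sub_le_of_norm_deriv_le (𝕜 := ℂ) (f := Complex.exp)
    (C := Real.exp c) (s := {z : ℂ | z.re ≤ c}) (x := b) (y := a)
    (fun z _ => Complex.differentiableAt_exp)
    (fun z hz => by
      rw [Complex.deriv_exp, Complex.norm_exp]
      exact Real.exp_le_exp.2 hz)
    (convex_halfSpace_re_le c) hb ha
  exact h

private lemma key (d : ℕ) (hd : 3 ≤ d) : ∃ C : ℝ, 0 < C ∧ ∀ (L : ℕ) [NeZero L] (γ : ℝ), 0 < γ →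
    γ ≤ 1 → 8 / γ ^ 3 ≤ L → ∀ t : ℝ, 0 < t →
    Real.exp (-(γ / 2 * t)) * ‖PT t 0 (0 : Tor d L)‖ ≤ C / ((1 + t) * √(1 + t)) := by
  obtain ⟨C, hC, h⟩ := PT_one d hd
  refine ⟨max C 105, lt_max_of_lt_left hC, ?_⟩
  intro L _ γ hγ hγ1 hL t ht
  have hs : 0 < (1 + t) * √(1 + t) := by
    have : 0 < √(1 + t) := Real.sqrt_pos.2 (by linarith)
    positivity
  by_cases hc : (2 * t) ^ 3 ≤ (L : ℝ) ^ 2
  · have h1 := h L t ht.le hc
    have h2 : Real.exp (-(γ / 2 * t)) ≤ 1 := by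
      rw [Real.exp_le_one_iff]
      have : 0 < γ / 2 * t := by positivity
      linarith
    calc Real.exp (-(γ / 2 * t)) * ‖PT t 0 (0 : Tor d L)‖
        ≤ 1 * ‖PT t 0 (0 : Tor d L)‖ := by gcongr
      _ = ‖PT t 0 (0 : Tor d L)‖ := one_mul _
      _ ≤ C / ((1 + t) * √(1 + t)) := h1
      _ ≤ max C 105 / ((1 + t) * √(1 + t)) := by
          gcongr
          exact le_max_left _ _
  · push Not at hc
    have h1 : (8 / γ ^ 3) ^ 2 ≤ (L : ℝ) ^ 2 := by gcongr
    have h2 : (8 / γ ^ 3) ^ 2 < (2 * t) ^ 3 := lt_of_le_of_lt h1 hc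
    have h3 : 2 < t * γ ^ 2 := by
      by_contra hcon
      push Not at hcon
      have h4 : (t * γ ^ 2) ^ 3 ≤ 2 ^ 3 := by gcongr
      have h5 : (8 / γ ^ 3) ^ 2 * γ ^ 6 = 64 := by
        field_simp
        norm_num
      have h6 : (2 * t) ^ 3 * γ ^ 6 = 8 * (t * γ ^ 2) ^ 3 := by ring
      have h7 : (8 / γ ^ 3) ^ 2 * γ ^ 6 < (2 * t) ^ 3 * γ ^ 6 :=
        mul_lt_mul_of_pos_right h2 (by positivity)
      rw [h5, h6] at h7
      linarith
    set y := γ / 2 * t with hy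
    have hy0 : 0 < y := by positivity
    have hy2 : t ≤ 2 * y ^ 2 := by
      have : 2 * y ^ 2 = t * (t * γ ^ 2) / 2 := by
        rw [hy]; ring
      rw [this]
      nlinarith
    have hb1 : 1 ≤ Real.exp y := Real.one_le_exp hy0.le
    have hb2 : y ^ 2 / 2 ≤ Real.exp y := by
      have := Real.pow_div_factorial_le_exp y hy0.le 2
      simpa [Nat.factorial] using this
    have hb4 : y ^ 4 / 24 ≤ Real.exp y := by
      have := Real.pow_div_factorial_le_exp y hy0.le 4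
      simpa [Nat.factorial] using this
    have hb : (1 + t) * √(1 + t) ≤ 105 * Real.exp y := by
      have h4 : √(1 + t) ≤ 1 + t := by
        rw [Real.sqrt_le_left (by linarith)]
        nlinarith
      have h5 : (1 + t) * √(1 + t) ≤ (1 + 2 * y ^ 2) * (1 + 2 * y ^ 2) := by
        apply mul_le_mul (by linarith) (by linarith) (Real.sqrt_nonneg _) (by positivity)
      nlinarith
    have hP : ‖PT t 0 (0 : Tor d L)‖ ≤ 1 := PT_le_one _ _ _
    rw [le_div_iff₀ hs]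
    calc Real.exp (-y) * ‖PT t 0 (0 : Tor d L)‖ * ((1 + t) * √(1 + t))
        ≤ Real.exp (-y) * 1 * (105 * Real.exp y) := by gcongr
      _ = 105 * (Real.exp (-y) * Real.exp y) := by ring
      _ = 105 := by rw [← Real.exp_add]; simp
      _ ≤ max C 105 := le_max_right _ _

private lemma integrable_g :
    IntegrableOn (fun t : ℝ => 1 / ((1 + t) * √(1 + t))) (Set.Ioi 0) := by
  have h : IntegrableOn (fun t : ℝ => t ^ (-(3 / 2) : ℝ)) (Set.Ioi 1) :=
    integrableOn_Ioi_rpow_of_lt (by norm_num) one_pos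
  have h2 : IntegrableOn (fun t : ℝ => (1 + t) ^ (-(3 / 2) : ℝ)) (Set.Ioi 0) := by
    have h3 := (MeasurePreserving.integrableOn_comp_preimage
      (measurePreserving_add_left volume (1 : ℝ)) (measurableEmbedding_addLeft 1)
      (f := fun t : ℝ => t ^ (-(3 / 2) : ℝ)) (s := Set.Ioi 1)).2 h
    have e : (fun x : ℝ => 1 + x) ⁻¹' Set.Ioi 1 = Set.Ioi 0 := by
      ext x
      simp
    rw [e] at h3
    exact h3
  apply h2.congr_fun _ measurableSet_Ioi
  intro t ht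
  have ht' : (0 : ℝ) < 1 + t := by
    have : (0 : ℝ) < t := ht
    linarith
  simp only
  rw [Real.rpow_neg ht'.le, show (3 / 2 : ℝ) = 1 + 1 / 2 by norm_num, Real.rpow_add ht',
    Real.rpow_one, ← Real.sqrt_eq_rpow, one_div]

theorem mdiag (d : ℕ) (hd : 3 ≤ d) : ∃ C : ℝ, 0 < C ∧ ∀ (L : ℕ) [NeZero L] (γ : ℝ), 0 < γ →
    γ ≤ 1 → 8 / γ ^ 3 ≤ L → ∀ ζ ζ' : ℂ, γ ≤ ζ.im → γ ≤ ζ'.im →
    ‖Mx ζ (0 : Tor d L)‖ ≤ C ∧
    ‖Mx ζ (0 : Tor d L) - Mx ζ' (0 : Tor d L)‖ ≤ C * ‖ζ - ζ'‖ / √γ := by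
  obtain ⟨C, hC, hkey⟩ := key d hd
  set I1 : ℝ := ∫ t in Set.Ioi (0 : ℝ), 1 / ((1 + t) * √(1 + t)) with hI1
  have hI1n : 0 ≤ I1 := by
    apply setIntegral_nonneg measurableSet_Ioi
    intro t ht
    have : (0 : ℝ) < t := ht
    positivity
  have hpi : 0 < Real.Gamma (1 / 2) := Real.Gamma_pos_of_pos (by norm_num)
  refine ⟨C * I1 + C * (√2 * Real.Gamma (1 / 2)), by positivity, ?_⟩
  intro L _ γ hγ hγ1 hL ζ ζ' hζ hζ'
  have hp : 0 < ζ.im := hγ.trans_le hζ
  have hp' : 0 < ζ'.im := hγ.trans_le hζ'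
  have hre : ∀ (w : ℂ) (t : ℝ), 0 < t → γ ≤ w.im → (Complex.I * w * t).re ≤ -(γ * t) := by
    intro w t ht hw
    have : (Complex.I * w * t).re = -(w.im * t) := by
      simp [Complex.mul_re, Complex.mul_im]
    rw [this]
    nlinarith
  constructor
  · rw [Mx_eq ζ hp, norm_mul, Complex.norm_I, one_mul]
    have hb : ‖∫ t in Set.Ioi (0 : ℝ), FF (d := d) (L := L) ζ t‖ ≤
        ∫ t in Set.Ioi (0 : ℝ), C * (1 / ((1 + t) * √(1 + t))) := by
      apply norm_integral_le_of_norm_le (integrable_g.const_mul C)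
      filter_upwards [ae_restrict_mem measurableSet_Ioi] with t ht
      have ht' : (0 : ℝ) < t := ht
      unfold FF
      rw [norm_mul, Complex.norm_exp]
      have h1 : Real.exp (Complex.I * ζ * t).re ≤ Real.exp (-(γ / 2 * t)) := by
        apply Real.exp_le_exp.2
        have h2 := hre ζ t ht' hζ
        have h3 : 0 < γ * t := by positivity
        linarith
      calc Real.exp (Complex.I * ζ * t).re * ‖PT t 0 (0 : Tor d L)‖
          ≤ Real.exp (-(γ / 2 * t)) * ‖PT t 0 (0 : Tor d L)‖ := by gcongr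
        _ ≤ C / ((1 + t) * √(1 + t)) := hkey L γ hγ hγ1 hL t ht'
        _ = C * (1 / ((1 + t) * √(1 + t))) := by ring
    rw [integral_const_mul, ← hI1] at hb
    have h4 : 0 ≤ C * (√2 * Real.Gamma (1 / 2)) := by positivity
    linarith
  · rw [Mx_eq ζ hp, Mx_eq ζ' hp', ← mul_sub, norm_mul, Complex.norm_I, one_mul,
      ← integral_sub (integrable_FF ζ hp) (integrable_FF ζ' hp')]
    set g : ℝ → ℝ := fun t => C * ‖ζ - ζ'‖ * (t ^ ((1 / 2 : ℝ) - 1) * Real.exp (-(γ / 2 * t)))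
      with hg
    have hgi : IntegrableOn g (Set.Ioi 0) := by
      apply Integrable.const_mul
      have h := integrableOn_rpow_mul_exp_neg_mul_rpow (s := (1 / 2 : ℝ) - 1) (p := 1)
        (b := γ / 2) (by norm_num) one_pos (by positivity)
      have h' : IntegrableOn (fun t : ℝ => t ^ ((1 / 2 : ℝ) - 1) * Real.exp (-(γ / 2 * t)))
          (Set.Ioi 0) := by
        simpa using h
      exact h'
    have hb : ‖∫ t in Set.Ioi (0 : ℝ), (FF (d := d) (L := L) ζ t - FF (d := d) (L := L) ζ' t)‖ ≤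
        ∫ t in Set.Ioi (0 : ℝ), g t := by
      apply norm_integral_le_of_norm_le hgi
      filter_upwards [ae_restrict_mem measurableSet_Ioi] with t ht
      have ht' : (0 : ℝ) < t := ht
      unfold FF
      rw [← sub_mul, norm_mul]
      have h1 := exp_diff_le (hre ζ t ht' hζ) (hre ζ' t ht' hζ')
      have h2 : ‖Complex.I * ζ * t - Complex.I * ζ' * t‖ = ‖ζ - ζ'‖ * t := by
        rw [show Complex.I * ζ * t - Complex.I * ζ' * t = Complex.I * (ζ - ζ') * t by ring,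
          norm_mul, norm_mul, Complex.norm_I, one_mul, Complex.norm_real, Real.norm_eq_abs,
          abs_of_pos ht']
      rw [h2] at h1
      have h3 : Real.exp (-(γ * t)) = Real.exp (-(γ / 2 * t)) * Real.exp (-(γ / 2 * t)) := by
        rw [← Real.exp_add]
        congr 1
        ring
      have h4 := hkey L γ hγ hγ1 hL t ht'
      have hst : 0 < √(1 + t) := Real.sqrt_pos.2 (by linarith)
      have h5 : t / ((1 + t) * √(1 + t)) ≤ t ^ ((1 / 2 : ℝ) - 1) := by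
        have h6 : t ^ ((1 / 2 : ℝ) - 1) = √t / t := by
          rw [Real.rpow_sub ht', Real.rpow_one, ← Real.sqrt_eq_rpow]
        have hst' : 0 < √t := Real.sqrt_pos.2 ht'
        have h7 : √t / t = 1 / √t := by
          rw [div_eq_div_iff ht'.ne' hst'.ne', one_mul, Real.mul_self_sqrt ht'.le]
        rw [h6, h7, div_le_div_iff₀ (by positivity) hst', one_mul]
        apply mul_le_mul (by linarith) (Real.sqrt_le_sqrt (by linarith)) hst'.le (by linarith)
      calc ‖Complex.exp (Complex.I * ζ * t) - Complex.exp (Complex.I * ζ' * t)‖ *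
            ‖PT t 0 (0 : Tor d L)‖
          ≤ Real.exp (-(γ * t)) * (‖ζ - ζ'‖ * t) * ‖PT t 0 (0 : Tor d L)‖ := by gcongr
        _ = ‖ζ - ζ'‖ * t * Real.exp (-(γ / 2 * t)) *
            (Real.exp (-(γ / 2 * t)) * ‖PT t 0 (0 : Tor d L)‖) := by
            rw [h3]; ring
        _ ≤ ‖ζ - ζ'‖ * t * Real.exp (-(γ / 2 * t)) * (C / ((1 + t) * √(1 + t))) := by gcongr
        _ = C * ‖ζ - ζ'‖ * (t / ((1 + t) * √(1 + t)) * Real.exp (-(γ / 2 * t))) := by ring
        _ ≤ C * ‖ζ - ζ'‖ * (t ^ ((1 / 2 : ℝ) - 1) * Real.exp (-(γ / 2 * t))) := by gcongr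
        _ = g t := rfl
    have hgv : ∫ t in Set.Ioi (0 : ℝ), g t =
        C * ‖ζ - ζ'‖ * ((1 / (γ / 2)) ^ (1 / 2 : ℝ) * Real.Gamma (1 / 2)) := by
      rw [hg, integral_const_mul,
        Real.integral_rpow_mul_exp_neg_mul_Ioi (by norm_num) (by positivity)]
    rw [hgv] at hb
    have h8 : (1 / (γ / 2)) ^ (1 / 2 : ℝ) = √2 / √γ := by
      rw [← Real.sqrt_eq_rpow, one_div_div, Real.sqrt_div (by norm_num)]
    rw [h8] at hb
    have hsγ : 0 < √γ := Real.sqrt_pos.2 hγ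
    calc ‖∫ t in Set.Ioi (0 : ℝ), (FF (d := d) (L := L) ζ t - FF (d := d) (L := L) ζ' t)‖
        ≤ C * ‖ζ - ζ'‖ * (√2 / √γ * Real.Gamma (1 / 2)) := hb
      _ = (C * (√2 * Real.Gamma (1 / 2))) * ‖ζ - ζ'‖ / √γ := by ring
      _ ≤ (C * I1 + C * (√2 * Real.Gamma (1 / 2))) * ‖ζ - ζ'‖ / √γ := by
          gcongr
          have : 0 ≤ C * I1 := by positivity
          linarith

end Pool.Agent.Kin
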