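import Pool.Agent.Kin.SBd

/-! KIN GAP: lower bound for `S(0) - S(q)` (section B6). -/

open Matrix Finset

noncomputable section

namespace Pool.Agent.Kin

/-- `|sin (nθ)|` depends only on `|sin θ|` and is at least half of the linear value. -/
lemma gap_abs_sin {θ : ℝ} {n : ℕ} (h : (n : ℝ) * |Real.sin θ| ≤ 1) :
    1 / 2 * ((n : ℝ) * |Real.sin θ|) ≤ |Real.sin (n * θ)| := by
  set ρ : ℝ := |Real.sin θ| with hρ
  have hρ0 : 0 ≤ ρ := abs_nonneg _
  have hρ1 : ρ ≤ 1 := Real.abs_sin_le_one θ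
  set φ : ℝ := Real.arcsin ρ with hφ
  have hsin : Real.sin φ = ρ := Real.sin_arcsin (by linarith) hρ1
  have hφ0 : 0 ≤ φ := Real.arcsin_nonneg.2 hρ0
  have hφ1 : φ ≤ Real.pi / 2 := Real.arcsin_le_pi_div_two ρ
  have hpi := Real.pi_pos
  have hpi4 := Real.pi_le_four
  have hn0 : (0 : ℝ) ≤ n := Nat.cast_nonneg n
  have hcos : Real.cos (2 * θ) = Real.cos (2 * φ) := by
    have e1 := Real.cos_two_mul θ
    have e2 := Real.cos_two_mul φ
    have e3 := Real.sin_sq_add_cos_sq θ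
    have e4 := Real.sin_sq_add_cos_sq φ
    have e5 : Real.sin θ ^ 2 = ρ ^ 2 := (sq_abs _).symm
    rw [hsin] at e4
    linarith
  have hcosn : Real.cos (n * (2 * θ)) = Real.cos (n * (2 * φ)) := by
    have e1 := Polynomial.Chebyshev.T_real_cos (2 * θ) (n : ℤ)
    have e2 := Polynomial.Chebyshev.T_real_cos (2 * φ) (n : ℤ)
    rw [hcos] at e1
    rw [e1] at e2
    push_cast at e2
    exact e2
  have hsq : Real.sin (n * θ) ^ 2 = Real.sin (n * φ) ^ 2 := by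
    have e1 := Real.cos_two_mul (n * θ)
    have e2 := Real.cos_two_mul (n * φ)
    have e3 := Real.sin_sq_add_cos_sq (n * θ)
    have e4 := Real.sin_sq_add_cos_sq (n * φ)
    have e5 : 2 * ((n : ℝ) * θ) = n * (2 * θ) := by ring
    have e6 : 2 * ((n : ℝ) * φ) = n * (2 * φ) := by ring
    rw [e5, hcosn] at e1
    rw [e6] at e2
    linarith
  have habs : |Real.sin (n * θ)| = |Real.sin (n * φ)| := (sq_eq_sq_iff_abs_eq_abs _ _).1 hsq
  have hφρ : 2 / Real.pi * φ ≤ ρ := by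
    rw [← hsin]
    exact Real.mul_le_sin hφ0 hφ1
  have hρφ : ρ ≤ φ := by
    rw [← hsin]
    exact Real.sin_le hφ0
  have hφρ' : φ ≤ Real.pi / 2 * ρ := by
    have e1 : Real.pi / 2 * (2 / Real.pi * φ) = φ := by field_simp
    rw [← e1]
    exact mul_le_mul_of_nonneg_left hφρ (by positivity)
  have hnφ0 : 0 ≤ (n : ℝ) * φ := mul_nonneg hn0 hφ0
  have hnφ1 : (n : ℝ) * φ ≤ Real.pi / 2 := by
    calc (n : ℝ) * φ ≤ n * (Real.pi / 2 * ρ) := mul_le_mul_of_nonneg_left hφρ' hn0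
      _ = Real.pi / 2 * (n * ρ) := by ring
      _ ≤ Real.pi / 2 * 1 := mul_le_mul_of_nonneg_left h (by positivity)
      _ = Real.pi / 2 := mul_one _
  have hfin := Real.mul_le_sin hnφ0 hnφ1
  have h2pi : 1 / 2 ≤ 2 / Real.pi := by
    rw [div_le_div_iff₀ (by norm_num) hpi]
    linarith
  rw [habs]
  calc 1 / 2 * ((n : ℝ) * ρ) ≤ 2 / Real.pi * (n * φ) := by
        apply mul_le_mul h2pi (mul_le_mul_of_nonneg_left hρφ hn0) (mul_nonneg hn0 hρ0)
          (by positivity)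
    _ ≤ Real.sin (n * φ) := hfin
    _ ≤ |Real.sin (n * φ)| := le_abs_self _

lemma gap_ch1_nsmul {L : ℕ} [NeZero L] (n : ℕ) (a : ZMod L) : ch1 (n • a) = ch1 a ^ n := by
  induction n with
  | zero => rw [zero_smul, pow_zero, ch1_zero]
  | succ n ih => rw [succ_nsmul, ch1_add, ih, pow_succ]

lemma gap_cos_nsmul {L : ℕ} [NeZero L] (n : ℕ) (a : ZMod L) :
    Real.cos (ang (n • a)) = Real.cos (n * ang a) := by
  have h1 := congrArg Complex.re (gap_ch1_nsmul n a)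
  unfold ch1 at h1
  rw [← Complex.exp_nat_mul, Complex.exp_ofReal_mul_I_re] at h1
  have h2 : ((n : ℂ) * (((ang a : ℝ) : ℂ) * Complex.I)) =
      (((n : ℝ) * ang a : ℝ) : ℂ) * Complex.I := by
    push_cast
    ring
  rw [h2, Complex.exp_ofReal_mul_I_re] at h1
  exact h1

lemma gap_sin_nsmul {L : ℕ} [NeZero L] (n : ℕ) (a : ZMod L) :
    |Real.sin (ang (n • a) / 2)| = |Real.sin (n * (ang a / 2))| := by
  apply (sq_eq_sq_iff_abs_eq_abs _ _).1
  have e1 := Real.cos_two_mul (ang (n • a) / 2)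
  have e2 := Real.cos_two_mul (n * (ang a / 2))
  have e3 := Real.sin_sq_add_cos_sq (ang (n • a) / 2)
  have e4 := Real.sin_sq_add_cos_sq (n * (ang a / 2))
  have e5 : 2 * (ang (n • a) / 2) = ang (n • a) := by ring
  have e6 : 2 * ((n : ℝ) * (ang a / 2)) = n * ang a := by ring
  rw [e5, gap_cos_nsmul] at e1
  rw [e6] at e2
  linarith

/-- `varrho(nq) ≥ n varrho(q) / 2` as long as `n varrho(q) ≤ 1`. -/
lemma gap_rh_nsmul {d L : ℕ} [NeZero L] (hd : 0 < d) (n : ℕ) (q : Tor d L)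
    (h : (n : ℝ) * rh q ≤ 1) : 1 / 2 * ((n : ℝ) * rh q) ≤ rh (n • q) := by
  have : Nonempty (Fin d) := ⟨⟨0, hd⟩⟩
  obtain ⟨j, hj⟩ := exists_eq_ciSup_of_finite (f := fun j => |Real.sin (ang (q j) / 2)|)
  have hj' : rh q = |Real.sin (ang (q j) / 2)| := hj.symm
  rw [hj'] at h ⊢
  refine (gap_abs_sin h).trans ?_
  rw [← gap_sin_nsmul]
  have h1 := le_ciSup (Set.finite_range (fun j => |Real.sin (ang ((n • q) j) / 2)|)).bddAbove j
  exact h1

theorem ST_gap (d : ℕ) (hd : 3 ≤ d) (e c0 : ℝ) (he : 0 < e) (he1 : e < 1) (hc0 : 0 < c0) :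
    ∃ c γ0 : ℝ, 0 < c ∧ 0 < γ0 ∧ ∀ (L : ℕ) [NeZero L] (ζ : ℂ),
    0 < ζ.im → ζ.im ≤ γ0 → 8 / ζ.im ^ 3 ≤ L → c0 ≤ (Mx ζ (0 : Tor d L)).im → ∀ q : Tor d L,
    c * ST ζ (0 : Tor d L) * min 1 ((rh q / ζ.im ^ (1 - e)) ^ 2) ≤
      ST ζ (0 : Tor d L) - ST ζ q := by
  obtain ⟨C, hC, hbd⟩ := ST_bound d hd
  -- choice of `γ0`
  have t1 : Filter.Tendsto (fun γ : ℝ => 4 * C * ((1 + Real.log (1 / γ)) * γ ^ (e / 2)))
      (nhdsWithin 0 (Set.Ioi 0)) (nhds 0) := by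
    have a1 := tendsto_log_mul_rpow_nhdsGT_zero (r := e / 2) (by positivity)
    have a2 : Filter.Tendsto (fun γ : ℝ => γ ^ (e / 2)) (nhdsWithin 0 (Set.Ioi 0)) (nhds 0) := by
      have a3 := (Real.continuousAt_rpow_const 0 (e / 2) (Or.inr (by positivity))).tendsto
      rw [Real.zero_rpow (by positivity)] at a3
      exact a3.mono_left nhdsWithin_le_nhds
    have a4 := (a2.sub a1).const_mul (4 * C)
    rw [sub_zero, mul_zero] at a4
    refine a4.congr fun γ => ?_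
    rw [one_div, Real.log_inv]
    ring
  have t2 : Filter.Tendsto (fun γ : ℝ => γ ^ (1 - e)) (nhdsWithin 0 (Set.Ioi 0)) (nhds 0) := by
    have a3 := (Real.continuousAt_rpow_const 0 (1 - e) (Or.inr (by linarith))).tendsto
    rw [Real.zero_rpow (by linarith)] at a3
    exact a3.mono_left nhdsWithin_le_nhds
  have ev1 := t1.eventually (ge_mem_nhds hc0)
  have ev2 := t2.eventually (ge_mem_nhds (show (0 : ℝ) < 1 / 2 by norm_num))
  have ev3 : ∀ᶠ γ : ℝ in nhdsWithin 0 (Set.Ioi 0), γ ≤ 1 :=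
    (ge_mem_nhds (show (0 : ℝ) < 1 by norm_num)).filter_mono nhdsWithin_le_nhds
  obtain ⟨γ0, hγ0, hsub⟩ := mem_nhdsGT_iff_exists_Ioc_subset.1 ((ev1.and ev2).and ev3)
  refine ⟨1 / 8, γ0, by norm_num, hγ0, ?_⟩
  intro L _ ζ hζ hζ0 hL hM q
  obtain ⟨⟨k1, k2⟩, k3⟩ := hsub ⟨hζ, hζ0⟩
  set γ : ℝ := ζ.im with hγ
  set r0 : ℝ := γ ^ (1 - e) with hr0
  set A : ℝ := γ ^ (e / 2) with hA
  have hr0p : 0 < r0 := Real.rpow_pos_of_pos hζ _
  have hAp : 0 < A := Real.rpow_pos_of_pos hζ _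
  have hrA : r0 * A ^ 2 = γ := by
    rw [hr0, hA, sq, ← Real.rpow_add hζ, ← Real.rpow_add hζ,
      show 1 - e + (e / 2 + e / 2) = 1 by ring, Real.rpow_one]
  have hlog : 0 ≤ 1 + Real.log (1 / γ) := by
    have : 0 ≤ Real.log (1 / γ) := Real.log_nonneg (by rw [le_div_iff₀ hζ]; linarith)
    linarith
  have hS0 : c0 / γ ≤ ST ζ (0 : Tor d L) := by
    rw [ST_zero ζ hζ]
    exact div_le_div_of_nonneg_right hM hζ.le
  have hS0p : 0 < ST ζ (0 : Tor d L) := lt_of_lt_of_le (by positivity) hS0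
  -- the case of large `varrho`
  have big : ∀ p : Tor d L, r0 / 2 ≤ rh p → ST ζ (0 : Tor d L) / 2 ≤
      ST ζ (0 : Tor d L) - ST ζ p := by
    intro p hp
    have hpp : 0 < rh p := lt_of_lt_of_le (by positivity) hp
    have h1 := hbd L ζ hζ k3 hL p hpp
    have h2 : γ / (2 * A) ≤ √(rh p * γ) := by
      apply Real.le_sqrt_of_sq_le
      have h3 : (γ / (2 * A)) ^ 2 = γ * r0 / 4 := by
        rw [div_pow, div_eq_div_iff (by positivity) (by norm_num)]
        calc γ ^ 2 * 4 = γ * (r0 * A ^ 2) * 4 := by rw [hrA]; ring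
          _ = γ * r0 * (2 * A) ^ 2 := by ring
      rw [h3]
      have h4 : r0 / 2 * γ ≤ rh p * γ := mul_le_mul_of_nonneg_right hp hζ.le
      have h5 : 0 < r0 * γ := by positivity
      linarith
    have h3 : C * (1 + Real.log (1 / γ)) / √(rh p * γ) ≤ c0 / γ / 2 := by
      calc C * (1 + Real.log (1 / γ)) / √(rh p * γ)
          ≤ C * (1 + Real.log (1 / γ)) / (γ / (2 * A)) :=
            div_le_div_of_nonneg_left (mul_nonneg hC.le hlog) (by positivity) h2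
        _ = 4 * C * ((1 + Real.log (1 / γ)) * A) / γ / 2 := by
            field_simp
            ring
        _ ≤ c0 / γ / 2 := by
            apply div_le_div_of_nonneg_right _ (by norm_num)
            exact div_le_div_of_nonneg_right k1 hζ.le
    have h4 := le_abs_self (ST ζ p)
    linarith
  set ρ : ℝ := rh q with hρ
  have hρ0 : 0 ≤ ρ := rh_nonneg q
  have hdiff : 0 ≤ ST ζ (0 : Tor d L) - ST ζ q := by
    have h1 := abs_ST_le (d := d) (L := L) ζ q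
    have h2 := le_abs_self (ST ζ q)
    linarith
  rcases le_or_gt (r0 / 2) ρ with hbig | hsmall
  · have h1 := big q hbig
    have h2 : min 1 ((ρ / r0) ^ 2) ≤ 1 := min_le_left _ _
    have h3 : 1 / 8 * ST ζ (0 : Tor d L) * min 1 ((ρ / r0) ^ 2) ≤
        1 / 8 * ST ζ (0 : Tor d L) * 1 :=
      mul_le_mul_of_nonneg_left h2 (by positivity)
    linarith
  rcases hρ0.eq_or_lt with h0 | hpos
  · have h1 : min 1 ((ρ / r0) ^ 2) = 0 := by
      rw [← h0]
      simp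
    rw [h1, mul_zero]
    exact hdiff
  · -- small `varrho`: multiply `q`
    set n : ℕ := ⌈r0 / ρ⌉₊ with hn
    have hn1 : r0 / ρ ≤ n := Nat.le_ceil _
    have hn2 : (n : ℝ) < r0 / ρ + 1 := Nat.ceil_lt_add_one (by positivity)
    have hn3 : r0 ≤ n * ρ := by
      rwa [div_le_iff₀ hpos] at hn1
    have hn4 : (n : ℝ) * ρ ≤ r0 + ρ := by
      have h1 := mul_le_mul_of_nonneg_right hn2.le hρ0
      rw [add_mul, div_mul_cancel₀ _ hpos.ne', one_mul] at h1
      exact h1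
    have hn5 : (n : ℝ) * ρ ≤ 1 := by linarith
    have h1 := gap_rh_nsmul (by omega) n q hn5
    have h2 := big (n • q) (by linarith)
    have h3 := ST_mul (d := d) (L := L) ζ n q
    have h4 : ST ζ (0 : Tor d L) / 2 ≤
        (n : ℝ) ^ 2 * (ST ζ (0 : Tor d L) - ST ζ q) := h2.trans h3
    have h5 : min 1 ((ρ / r0) ^ 2) ≤ (ρ / r0) ^ 2 := min_le_right _ _
    have h6 : 1 / 8 * ST ζ (0 : Tor d L) * min 1 ((ρ / r0) ^ 2) ≤
        1 / 8 * ST ζ (0 : Tor d L) * (ρ / r0) ^ 2 :=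
      mul_le_mul_of_nonneg_left h5 (by positivity)
    refine h6.trans ?_
    -- `(nρ)² ≤ 4 r0²`
    have h7 : ((n : ℝ) * ρ) ^ 2 ≤ (2 * r0) ^ 2 :=
      pow_le_pow_left₀ (by positivity) (by linarith) 2
    have h8 : ST ζ (0 : Tor d L) / 2 * ρ ^ 2 ≤
        (2 * r0) ^ 2 * (ST ζ (0 : Tor d L) - ST ζ q) := by
      calc ST ζ (0 : Tor d L) / 2 * ρ ^ 2
          ≤ (n : ℝ) ^ 2 * (ST ζ (0 : Tor d L) - ST ζ q) * ρ ^ 2 :=
            mul_le_mul_of_nonneg_right h4 (by positivity)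
        _ = ((n : ℝ) * ρ) ^ 2 * (ST ζ (0 : Tor d L) - ST ζ q) := by ring
        _ ≤ _ := mul_le_mul_of_nonneg_right h7 hdiff
    have h9 : 1 / 8 * ST ζ (0 : Tor d L) * (ρ / r0) ^ 2 =
        (ST ζ (0 : Tor d L) / 2 * ρ ^ 2) / (2 * r0) ^ 2 := by
      field_simp
      ring
    rw [h9, div_le_iff₀ (by positivity)]
    linarith

end Pool.Agent.Kin
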