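import Pool.Agent.Kin.Char

/-! KIN LOWC: lower bound for the number of momenta in an energy window, and for `Im g0`. -/

open Matrix Finset

noncomputable section

namespace Pool.Agent.Kin

/-- number of integers in an interval -/
private lemma card_interval {L : ℕ} [NeZero L] {x l : ℝ} (hx : 0 ≤ x) (hxl : x + l < L) :
    ⌊l⌋₊ ≤ ((univ : Finset (ZMod L)).filter fun a => x ≤ (a.val : ℝ) ∧ (a.val : ℝ) ≤ x + l).card := by
  have hval : ∀ i ∈ range ⌊l⌋₊, (((⌈x⌉₊ + i : ℕ) : ZMod L).val) = ⌈x⌉₊ + i ∧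
      ((⌈x⌉₊ + i : ℕ) : ℝ) ≤ x + l := by
    intro i hi
    rw [mem_range] at hi
    have h0 : 0 < ⌊l⌋₊ := lt_of_le_of_lt (Nat.zero_le _) hi
    have hl : (⌊l⌋₊ : ℝ) ≤ l := by
      apply Nat.floor_le
      by_contra h
      rw [Nat.floor_of_nonpos (le_of_lt (not_le.1 h))] at h0
      exact lt_irrefl _ h0
    have h1 : (⌈x⌉₊ : ℝ) < x + 1 := Nat.ceil_lt_add_one hx
    have h2 : (i : ℝ) + 1 ≤ (⌊l⌋₊ : ℝ) := by exact_mod_cast hi
    have h3 : ((⌈x⌉₊ + i : ℕ) : ℝ) ≤ x + l := by
      push_cast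
      linarith
    refine ⟨ZMod.val_cast_of_lt ?_, h3⟩
    have h4 : ((⌈x⌉₊ + i : ℕ) : ℝ) < (L : ℝ) := lt_of_le_of_lt h3 hxl
    exact_mod_cast h4
  have hinj : Set.InjOn (fun i : ℕ => ((⌈x⌉₊ + i : ℕ) : ZMod L)) (range ⌊l⌋₊ : Set ℕ) := by
    intro i hi j hj hij
    have e1 := (hval i (by simpa using hi)).1
    have e2 := (hval j (by simpa using hj)).1
    have e3 : ((⌈x⌉₊ + i : ℕ) : ZMod L) = ((⌈x⌉₊ + j : ℕ) : ZMod L) := hij
    rw [e3, e2] at e1
    omega
  calc ⌊l⌋₊ = (range ⌊l⌋₊).card := (card_range _).symm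
    _ = ((range ⌊l⌋₊).image fun i : ℕ => ((⌈x⌉₊ + i : ℕ) : ZMod L)).card :=
        (card_image_of_injOn hinj).symm
    _ ≤ _ := by
        apply card_le_card
        intro a ha
        rw [mem_image] at ha
        obtain ⟨i, hi, rfl⟩ := ha
        rw [mem_filter]
        refine ⟨mem_univ _, ?_, ?_⟩
        · rw [(hval i hi).1]
          push_cast
          have := Nat.le_ceil x
          have h5 : (0 : ℝ) ≤ (i : ℝ) := Nat.cast_nonneg _
          linarith
        · rw [(hval i hi).1]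
          exact (hval i hi).2

/-- number of angles in an interval -/
private lemma card_ang {L : ℕ} [NeZero L] {θ s : ℝ} (hθ : 0 ≤ θ) (hs : θ + s < 2 * Real.pi)
    (hL : 4 * Real.pi ≤ s * L) :
    s * L / (4 * Real.pi) ≤ (⌊s * L / (2 * Real.pi)⌋₊ : ℝ) ∧ ⌊s * L / (2 * Real.pi)⌋₊ ≤
      ((univ : Finset (ZMod L)).filter fun a => θ ≤ ang a ∧ ang a ≤ θ + s).card := by
  have hpi := Real.pi_pos
  have hL0 : (0 : ℝ) < L := Nat.cast_pos.2 (Nat.pos_of_ne_zero (NeZero.ne L))
  constructor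
  · have h1 : s * L / (2 * Real.pi) < (⌊s * L / (2 * Real.pi)⌋₊ : ℝ) + 1 := Nat.lt_floor_add_one _
    have h2 : 1 ≤ s * L / (4 * Real.pi) := by
      rw [le_div_iff₀ (by positivity)]
      linarith
    have h3 : s * L / (2 * Real.pi) = 2 * (s * L / (4 * Real.pi)) := by
      field_simp
      ring
    linarith
  · have h1 : θ * L / (2 * Real.pi) + s * L / (2 * Real.pi) < L := by
      rw [← add_div, div_lt_iff₀ (by positivity)]
      nlinarith
    refine (card_interval (L := L) (by positivity) h1).trans ?_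
    apply card_le_card
    intro a ha
    rw [mem_filter] at ha ⊢
    refine ⟨mem_univ _, ?_, ?_⟩
    · have h2 := ha.2.1
      rw [div_le_iff₀ (by positivity)] at h2
      unfold ang
      rw [le_div_iff₀ hL0]
      linarith
    · have h2 := ha.2.2
      rw [← add_div, le_div_iff₀ (by positivity)] at h2
      unfold ang
      rw [div_le_iff₀ hL0]
      linarith

private lemma exists_angle {y : ℝ} (h0 : 0 ≤ y) (h4 : y ≤ 4) :
    ∃ θ, 0 ≤ θ ∧ θ ≤ Real.pi ∧ 2 - 2 * Real.cos θ = y := by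
  refine ⟨Real.arccos (1 - y / 2), Real.arccos_nonneg _, Real.arccos_le_pi _, ?_⟩
  rw [Real.cos_arccos (by linarith) (by linarith)]
  ring

private def tl {n L : ℕ} (k : Tor (n + 1) L) : Fin n → ZMod L := fun j => k j.succ

private lemma tl_cons {n L : ℕ} (a : ZMod L) (k' : Fin n → ZMod L) :
    tl (Fin.cons a k' : Tor (n + 1) L) = k' := by
  funext j
  simp [tl]

theorem count_lower (d : ℕ) (hd : 1 ≤ d) (δ : ℝ) (hδ : 0 < δ) : ∃ c t0 C : ℝ, 0 < c ∧ 0 < t0 ∧
    0 < C ∧ ∀ (L : ℕ) [NeZero L] (E t : ℝ), δ ≤ E → E ≤ 4 * d - δ → 0 < t → t ≤ t0 →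
      C ≤ t * L → c * t * (L : ℝ) ^ d ≤
        (((univ : Finset (Tor d L)).filter fun k => |en k - E| ≤ t).card : ℝ) := by
  obtain ⟨n, rfl⟩ : ∃ n, d = n + 1 := ⟨d - 1, by omega⟩
  have hpi := Real.pi_pos
  have hpi3 := Real.pi_gt_three
  set D : ℝ := ((n + 1 : ℕ) : ℝ) with hD
  have hD1 : 1 ≤ D := by
    rw [hD]
    exact_mod_cast hd
  have hDn : D = n + 1 := by
    rw [hD]
    push_cast
    ring
  set ρ : ℝ := min 1 (δ / (2 * D ^ 2)) with hρ
  have hρ0 : 0 < ρ := lt_min one_pos (by positivity)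
  have hρ1 : ρ ≤ 1 := min_le_left _ _
  have hρδ : 2 * D * ρ ≤ δ / D := by
    calc 2 * D * ρ ≤ 2 * D * (δ / (2 * D ^ 2)) := by
          apply mul_le_mul_of_nonneg_left (min_le_right _ _) (by positivity)
      _ = δ / D := by
          field_simp
  refine ⟨(ρ / (4 * Real.pi)) ^ n / (8 * Real.pi), ρ, 8 * Real.pi, by positivity, hρ0,
    by positivity, ?_⟩
  intro L _ E t hE1 hE2 ht0 htρ hC
  have hL0 : (0 : ℝ) < L := Nat.cast_pos.2 (Nat.pos_of_ne_zero (NeZero.ne L))
  have hED1 : δ / D ≤ E / D := div_le_div_of_nonneg_right hE1 (by positivity)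
  have hED2 : E / D ≤ 4 - δ / D := by
    rw [div_le_iff₀ (by positivity), sub_mul, div_mul_cancel₀ _ (by positivity)]
    exact hE2
  have hδD : 0 < δ / D := by positivity
  obtain ⟨θ0, h00, h0pi, h0e⟩ := exists_angle (y := E / D) (by linarith) (by linarith)
  have hA := card_ang (L := L) (θ := θ0) (s := ρ) h00 (by linarith) (by nlinarith)
  set A : Finset (ZMod L) := univ.filter fun a => θ0 ≤ ang a ∧ ang a ≤ θ0 + ρ with hAdef
  set G : Finset (Fin n → ZMod L) := Fintype.piFinset fun _ => A with hG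
  have hGc : G.card = A.card ^ n := by
    rw [hG, Fintype.card_piFinset]
    simp
  set S : Finset (Tor (n + 1) L) := univ.filter fun k => |en k - E| ≤ t with hS
  have hfib : ∀ k' ∈ G, ⌊t / 2 * L / (2 * Real.pi)⌋₊ ≤
      ((S.filter fun k => tl k ∈ G).filter fun k => tl k = k').card := by
    intro k' hk'
    have hk : ∀ j, |(2 - 2 * Real.cos (ang (k' j))) - E / D| ≤ 2 * ρ := by
      intro j
      have h1 : k' j ∈ A := (Fintype.mem_piFinset.1 hk') j
      rw [hAdef, mem_filter] at h1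
      have h2 := Real.abs_cos_sub_cos_le θ0 (ang (k' j))
      have h3 : |θ0 - ang (k' j)| ≤ ρ := by
        rw [abs_le]
        constructor <;> linarith [h1.2.1, h1.2.2]
      have h4 : (2 - 2 * Real.cos (ang (k' j))) - E / D =
          2 * (Real.cos θ0 - Real.cos (ang (k' j))) := by
        rw [← h0e]
        ring
      rw [h4, abs_mul, abs_two]
      linarith
    have hsum : |∑ j, (2 - 2 * Real.cos (ang (k' j))) - n * (E / D)| ≤ n * (2 * ρ) := by
      have e1 : ∑ j, (2 - 2 * Real.cos (ang (k' j))) - n * (E / D) =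
          ∑ j, ((2 - 2 * Real.cos (ang (k' j))) - E / D) := by
        rw [sum_sub_distrib]
        simp
      rw [e1]
      refine (abs_sum_le_sum_abs _ _).trans ((sum_le_sum fun j _ => hk j).trans (le_of_eq ?_))
      simp
    set E' : ℝ := E - ∑ j, (2 - 2 * Real.cos (ang (k' j))) with hE'
    have hEE : E = n * (E / D) + E / D := by
      have : (n + 1 : ℝ) * (E / D) = E := by
        rw [← hDn]
        field_simp
      linarith
    have hn2 : (n : ℝ) * (2 * ρ) ≤ 2 * D * ρ := by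
      rw [hDn]
      nlinarith
    have hE'0 : 0 ≤ E' := by
      have := (abs_le.1 hsum).2
      linarith
    have hE'4 : E' ≤ 4 := by
      have := (abs_le.1 hsum).1
      linarith
    obtain ⟨θ, hθ0, hθpi, hθe⟩ := exists_angle hE'0 hE'4
    refine (card_ang (L := L) (θ := θ) (s := t / 2) hθ0 (by linarith) (by linarith)).2.trans ?_
    set B : Finset (ZMod L) := univ.filter fun a => θ ≤ ang a ∧ ang a ≤ θ + t / 2 with hB
    have hinj : Function.Injective (fun a : ZMod L => (Fin.cons a k' : Tor (n + 1) L)) := by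
      intro a b hab
      exact (Fin.cons_injective2 hab).1
    rw [← card_image_of_injective B hinj]
    apply card_le_card
    intro k hk2
    rw [mem_image] at hk2
    obtain ⟨a, ha, rfl⟩ := hk2
    rw [hB, mem_filter] at ha
    rw [mem_filter, mem_filter, tl_cons]
    refine ⟨⟨?_, hk'⟩, rfl⟩
    rw [hS, mem_filter]
    refine ⟨mem_univ _, ?_⟩
    have h5 : en (Fin.cons a k' : Tor (n + 1) L) - E = 2 * (Real.cos θ - Real.cos (ang a)) := by
      unfold en
      rw [Fin.sum_univ_succ]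
      simp only [Fin.cons_zero, Fin.cons_succ]
      have : E' = 2 - 2 * Real.cos θ := hθe.symm
      linarith
    rw [h5, abs_mul, abs_two]
    have h6 := Real.abs_cos_sub_cos_le θ (ang a)
    have h7 : |θ - ang a| ≤ t / 2 := by
      rw [abs_le]
      constructor <;> linarith [ha.2.1, ha.2.2]
    linarith
  have hmain := Finset.mul_card_image_le_card_of_maps_to
    (s := S.filter fun k => tl k ∈ G) (t := G) (f := fun k => tl k)
    (fun k hk => (mem_filter.1 hk).2) _ hfib
  have hle : (S.filter fun k => tl k ∈ G).card ≤ S.card := card_le_card (filter_subset _ _)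
  have hfin : ((⌊t / 2 * L / (2 * Real.pi)⌋₊ : ℕ) : ℝ) * (A.card : ℝ) ^ n ≤ S.card := by
    rw [hGc] at hmain
    exact_mod_cast hmain.trans hle
  refine le_trans ?_ hfin
  have h8 : t / 2 * L / (4 * Real.pi) ≤ ((⌊t / 2 * L / (2 * Real.pi)⌋₊ : ℕ) : ℝ) :=
    (card_ang (L := L) (θ := 0) (s := t / 2) le_rfl (by linarith) (by linarith)).1
  have h9 : ρ * L / (4 * Real.pi) ≤ (A.card : ℝ) := by
    refine hA.1.trans ?_
    exact_mod_cast hA.2
  have h10 : (ρ * L / (4 * Real.pi)) ^ n ≤ (A.card : ℝ) ^ n :=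
    pow_le_pow_left₀ (by positivity) h9 n
  refine le_trans (le_of_eq ?_) (mul_le_mul h8 h10 (by positivity) (by positivity))
  rw [mul_div_right_comm ρ, mul_pow, pow_succ]
  field_simp
  ring

theorem im_lower (d : ℕ) (hd : 1 ≤ d) (δ : ℝ) (hδ : 0 < δ) : ∃ c t0 C : ℝ, 0 < c ∧ 0 < t0 ∧
    0 < C ∧ ∀ (L : ℕ) [NeZero L] (E t : ℝ), δ ≤ E → E ≤ 4 * d - δ → 0 < t → t ≤ t0 →
      C ≤ t * L → c ≤ (Mx ((E : ℂ) + (t : ℂ) * Complex.I) (0 : Tor d L)).im := by
  obtain ⟨c, t0, C, hc, ht0, hC, h⟩ := count_lower d hd δ hδ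
  refine ⟨c / 2, t0, C, by positivity, ht0, hC, ?_⟩
  intro L _ E t hE1 hE2 ht htt hCt
  have hL0 : (0 : ℝ) < L := Nat.cast_pos.2 (Nat.pos_of_ne_zero (NeZero.ne L))
  have hcount := h L E t hE1 hE2 ht htt hCt
  set S : Finset (Tor d L) := univ.filter fun k => |en k - E| ≤ t with hS
  have hch : ∀ k : Tor d L, ch k 0 = 1 := by
    intro k
    unfold ch ch1 ang
    simp
  have hterm : ∀ k : Tor d L, (ch k 0 / ((en k : ℂ) - ((E : ℂ) + (t : ℂ) * Complex.I))).im =
      t / ((en k - E) ^ 2 + t ^ 2) := by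
    intro k
    rw [hch k, one_div, Complex.inv_im, Complex.normSq_apply]
    simp only [Complex.sub_im, Complex.sub_re, Complex.add_im, Complex.add_re, Complex.mul_im,
      Complex.mul_re, Complex.ofReal_re, Complex.ofReal_im, Complex.I_re, Complex.I_im]
    congr 1 <;> ring
  have hcast : (1 / (L : ℂ) ^ d) = ((1 / (L : ℝ) ^ d : ℝ) : ℂ) := by
    push_cast
    ring
  unfold Mx
  rw [hcast, Complex.im_ofReal_mul, Complex.im_sum]
  simp only [hterm]
  have hsum : c * t * (L : ℝ) ^ d * (1 / (2 * t)) ≤ ∑ k : Tor d L, t / ((en k - E) ^ 2 + t ^ 2) := by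
    calc c * t * (L : ℝ) ^ d * (1 / (2 * t)) ≤ (S.card : ℝ) * (1 / (2 * t)) :=
          mul_le_mul_of_nonneg_right hcount (by positivity)
      _ = ∑ _k ∈ S, (1 / (2 * t)) := by rw [sum_const, nsmul_eq_mul]
      _ ≤ ∑ k ∈ S, t / ((en k - E) ^ 2 + t ^ 2) := by
          apply sum_le_sum
          intro k hk
          rw [hS, mem_filter] at hk
          have h1 : (en k - E) ^ 2 ≤ t ^ 2 := by
            rw [← sq_abs]
            exact pow_le_pow_left₀ (abs_nonneg _) hk.2 2
          rw [div_le_div_iff₀ (by positivity) (by positivity)]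
          nlinarith
      _ ≤ _ := by
          apply sum_le_sum_of_subset_of_nonneg (subset_univ _)
          intro k _ _
          positivity
  calc c / 2 = 1 / (L : ℝ) ^ d * (c * t * (L : ℝ) ^ d * (1 / (2 * t))) := by
        field_simp
    _ ≤ _ := mul_le_mul_of_nonneg_left hsum (by positivity)

end Pool.Agent.Kin
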