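import Pool.Agent.Kin.Char

/-! KIN CNTQ: number of small momenta. -/

open Matrix Finset

noncomputable section

namespace Pool.Agent.Kin

lemma cntq_sin (L : ℕ) [NeZero L] (a : ZMod L) (p : ℝ)
    (h : |Real.sin (ang a / 2)| ≤ p) : ((a.valMinAbs.natAbs : ℕ) : ℝ) ≤ p * L / 2 := by
  have hL : (0 : ℝ) < L := by exact_mod_cast Nat.pos_of_ne_zero (NeZero.ne L)
  have hval : a.val < L := ZMod.val_lt a
  have hval' : (a.val : ℝ) ≤ L := by exact_mod_cast hval.le
  have hv0 : (0 : ℝ) ≤ a.val := Nat.cast_nonneg _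
  have hang : ang a / 2 = Real.pi * ((a.val : ℝ) / L) := by
    unfold ang; ring
  set x : ℝ := (a.val : ℝ) / L with hx
  have hx0 : 0 ≤ x := by positivity
  have hx1 : x ≤ 1 := by rw [hx, div_le_one hL]; exact hval'
  have hpi := Real.pi_pos
  have key : 2 * min x (1 - x) ≤ |Real.sin (ang a / 2)| := by
    rw [hang]
    by_cases hxh : x ≤ 1 / 2
    · have h1 := Real.mul_le_sin (x := Real.pi * x) (by positivity) (by nlinarith)
      have h2 : 2 / Real.pi * (Real.pi * x) = 2 * x := by field_simp
      rw [h2] at h1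
      calc 2 * min x (1 - x) ≤ 2 * x := by
            have := min_le_left x (1 - x); linarith
        _ ≤ _ := h1.trans (le_abs_self _)
    · push Not at hxh
      have h1 := Real.mul_le_sin (x := Real.pi * (1 - x)) (by
        have : 0 ≤ 1 - x := by linarith
        positivity) (by nlinarith)
      have h2 : 2 / Real.pi * (Real.pi * (1 - x)) = 2 * (1 - x) := by field_simp
      rw [h2] at h1
      have h3 : Real.sin (Real.pi * (1 - x)) = Real.sin (Real.pi * x) := by
        rw [show Real.pi * (1 - x) = Real.pi - Real.pi * x by ring, Real.sin_pi_sub]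
      rw [h3] at h1
      calc 2 * min x (1 - x) ≤ 2 * (1 - x) := by
            have := min_le_right x (1 - x); linarith
        _ ≤ _ := h1.trans (le_abs_self _)
  have hmin : ((a.valMinAbs.natAbs : ℕ) : ℝ) = L * min x (1 - x) := by
    rw [ZMod.valMinAbs_natAbs_eq_min]
    rw [mul_min_of_nonneg _ _ hL.le]
    push_cast
    rw [Nat.cast_sub hval.le]
    congr 1
    · rw [hx]; field_simp
    · rw [hx]; field_simp
  rw [hmin]
  nlinarith

lemma cntq_one (L : ℕ) [NeZero L] (p : ℝ) (hp : 0 ≤ p) :
    (((univ : Finset (ZMod L)).filter fun a => |Real.sin (ang a / 2)| ≤ p).card : ℝ) ≤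
      1 + p * L := by
  classical
  have hL : (0 : ℝ) < L := by exact_mod_cast Nat.pos_of_ne_zero (NeZero.ne L)
  set m : ℕ := ⌊p * L / 2⌋₊ with hm
  have hcard : ((univ : Finset (ZMod L)).filter fun a => |Real.sin (ang a / 2)| ≤ p).card ≤
      (Finset.Icc (-(m : ℤ)) (m : ℤ)).card := by
    apply Finset.card_le_card_of_injOn (fun a => a.valMinAbs)
    · intro a ha
      have ha' := (Finset.mem_filter.mp ha).2
      have h1 := cntq_sin L a p ha'
      have h2 : a.valMinAbs.natAbs ≤ m := Nat.le_floor h1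
      simp only [Finset.coe_Icc, Set.mem_Icc]
      omega
    · intro a _ b _ hab
      exact ZMod.injective_valMinAbs hab
  have h2 : (Finset.Icc (-(m : ℤ)) (m : ℤ)).card = 2 * m + 1 := by
    rw [Int.card_Icc]; omega
  rw [h2] at hcard
  have h3 : (m : ℝ) ≤ p * L / 2 := Nat.floor_le (by positivity)
  have h4 : (((univ : Finset (ZMod L)).filter fun a => |Real.sin (ang a / 2)| ≤ p).card : ℝ) ≤
      2 * m + 1 := by exact_mod_cast hcard
  linarith

theorem count_rh (d L : ℕ) [NeZero L] (p : ℝ) (hp : 0 ≤ p) :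
    (((univ : Finset (Tor d L)).filter fun q => rh q ≤ p).card : ℝ) ≤ (1 + p * L) ^ d := by
  classical
  have hsub : ((univ : Finset (Tor d L)).filter fun q => rh q ≤ p) ⊆
      Fintype.piFinset (fun _ : Fin d =>
        (univ : Finset (ZMod L)).filter fun a => |Real.sin (ang a / 2)| ≤ p) := by
    intro q hq
    have hq' := (Finset.mem_filter.mp hq).2
    rw [Fintype.mem_piFinset]
    intro j
    rw [Finset.mem_filter]
    refine ⟨Finset.mem_univ _, le_trans ?_ hq'⟩
    exact le_ciSup (f := fun j => |Real.sin (ang (q j) / 2)|) (Set.finite_range _).bddAbove j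
  have hcard := Finset.card_le_card hsub
  rw [Fintype.card_piFinset] at hcard
  simp only [Finset.prod_const, Finset.card_univ, Fintype.card_fin] at hcard
  have h1 : (((univ : Finset (Tor d L)).filter fun q => rh q ≤ p).card : ℝ) ≤
      (((univ : Finset (ZMod L)).filter fun a => |Real.sin (ang a / 2)| ≤ p).card : ℝ) ^ d := by
    exact_mod_cast hcard
  exact h1.trans (pow_le_pow_left₀ (Nat.cast_nonneg _) (cntq_one L p hp) d)

end Pool.Agent.Kin
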