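import Pool.Agent.Kin.Cnt
import Pool.Agent.Kin.Hdiag
import Pool.Agent.Helper2.AM.Diag

/-! KIN LOGAV: `L^{-d} ∑ 1/|en k - ζ| ≤ C (1 + log(1/Im ζ))` (compare
Pool/Agent/Helper2/AM/Diag.lean). -/

open Matrix Finset

noncomputable section

namespace Pool.Agent.Kin

theorem log_average (d : ℕ) (hd : 3 ≤ d) : ∃ C : ℝ, 0 < C ∧ ∀ (L : ℕ) [NeZero L] (ζ : ℂ),
    0 < ζ.im → ζ.im ≤ 1 → 1 ≤ ζ.im * L →
    (1 / (L : ℝ) ^ d) * ∑ k : Tor d L, 1 / ‖(en k : ℂ) - ζ‖ ≤ C * (1 + Real.log (1 / ζ.im)) := by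
  classical
  obtain ⟨C0, hC0, hcw⟩ := count_window d hd
  refine ⟨4 * C0 + 1 + 4 * C0, by positivity, ?_⟩
  intro L _ ζ h0 h1 hL1
  have hL : (0 : ℝ) < L := by exact_mod_cast Nat.pos_of_ne_zero (NeZero.ne L)
  have hLd : (0 : ℝ) < (L : ℝ) ^ d := by positivity
  set ε : ℝ := ζ.im with hε
  have hlog0 : 0 ≤ Real.log (1 / ε) := Real.log_nonneg (by rw [le_div_iff₀ h0]; linarith)
  have hlog2 : 0 < Real.log 2 := Real.log_pos (by norm_num)
  have hlog2' : 1 / 2 ≤ Real.log 2 := by linarith [Real.log_two_gt_d9]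
  obtain ⟨I, hI⟩ : ∃ I : ℕ, I = ⌈Real.log (1 / ε) / Real.log 2⌉₊ := ⟨_, rfl⟩
  have hI1 : 1 ≤ 2 ^ I * ε := by
    have h1 : Real.log (1 / ε) / Real.log 2 ≤ I := by rw [hI]; exact Nat.le_ceil _
    rw [div_le_iff₀ hlog2] at h1
    have h2 : 1 / ε ≤ 2 ^ I := by
      have h3 : Real.log (1 / ε) ≤ Real.log ((2 : ℝ) ^ I) := by rw [Real.log_pow]; exact h1
      exact (Real.log_le_log_iff (by positivity) (by positivity)).1 h3
    rw [div_le_iff₀ h0] at h2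
    exact h2
  have hI2 : (I : ℝ) ≤ Real.log (1 / ε) / Real.log 2 + 1 := by
    rw [hI]
    exact (Nat.ceil_lt_add_one (div_nonneg hlog0 hlog2.le)).le
  have hterm : ∀ k : Tor d L, 1 / ‖(en k : ℂ) - ζ‖ = Helper2.AM.wt (en k) ζ.re ε := by
    intro k
    unfold Helper2.AM.wt
    congr 1
    rw [Complex.norm_def, Complex.normSq_apply]
    congr 1
    simp only [Complex.sub_re, Complex.ofReal_re, Complex.sub_im, Complex.ofReal_im]
    rw [hε]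
    ring
  have hsum := Helper2.AM.sum_wt_le (fun k : Tor d L => en k) ζ.re ε h0 C0 ((L : ℝ) ^ d)
    (by simp [ZMod.card]) (fun η hη => hcw L ζ.re η (by nlinarith)) I hI1
  simp_rw [hterm]
  have h3 : Real.log (1 / ε) / Real.log 2 ≤ 2 * Real.log (1 / ε) := by
    rw [div_le_iff₀ hlog2]
    nlinarith
  have h5 : 2 * C0 * ((I : ℝ) + 1) + 1 ≤ (4 * C0 + 1 + 4 * C0) * (1 + Real.log (1 / ε)) := by
    have h6 : (I : ℝ) + 1 ≤ 2 * Real.log (1 / ε) + 2 := by linarith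
    have h7 := mul_le_mul_of_nonneg_left h6 (show 0 ≤ 2 * C0 by positivity)
    nlinarith [mul_nonneg hC0.le hlog0]
  rw [one_div_mul_eq_div, div_le_iff₀ hLd]
  refine hsum.trans ?_
  exact mul_le_mul_of_nonneg_right h5 hLd.le

end Pool.Agent.Kin
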