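import Pool.Agent.Kin.SBd
import Pool.Agent.Kin.CntQ
import Pool.Agent.Kin.LogAv

/-! KIN AFOUR: `∑ |M(x)|⁴ ≤ C γ^(-3/4)` (section B5). -/

open Matrix Finset

noncomputable section

namespace Pool.Agent.Kin

private lemma afour_log {γ : ℝ} (h0 : 0 < γ) (h1 : γ ≤ 1) :
    1 + Real.log (1 / γ) ≤ 85 * γ ^ (-(1 / 84) : ℝ) := by
  have hg : 1 ≤ 1 / γ := by rw [le_div_iff₀ h0]; linarith
  have h2 := Real.log_le_rpow_div (x := 1 / γ) (by positivity) (ε := 1 / 84) (by norm_num)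
  have h3 : (1 / γ) ^ (1 / 84 : ℝ) = γ ^ (-(1 / 84) : ℝ) := by
    rw [one_div, Real.inv_rpow h0.le, Real.rpow_neg h0.le]
  have h4 : 1 ≤ (1 / γ) ^ (1 / 84 : ℝ) := Real.one_le_rpow hg (by norm_num)
  rw [← h3]
  have h5 : (1 / γ) ^ (1 / 84 : ℝ) / (1 / 84) = 84 * (1 / γ) ^ (1 / 84 : ℝ) := by ring
  linarith

private lemma afour_cube {γ : ℝ} (h0 : 0 < γ) (h1 : γ ≤ 1) :
    (1 + Real.log (1 / γ)) ^ 3 * γ ^ (-(5 / 7) : ℝ) ≤ 85 ^ 3 * γ ^ (-(3 / 4) : ℝ) := by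
  have hg : 1 ≤ 1 / γ := by rw [le_div_iff₀ h0]; linarith
  have hl : 0 ≤ Real.log (1 / γ) := Real.log_nonneg hg
  have h2 : (1 + Real.log (1 / γ)) ^ 3 ≤ (85 * γ ^ (-(1 / 84) : ℝ)) ^ 3 :=
    pow_le_pow_left₀ (by linarith) (afour_log h0 h1) 3
  have h3 : (γ ^ (-(1 / 84) : ℝ)) ^ 3 * γ ^ (-(5 / 7) : ℝ) = γ ^ (-(3 / 4) : ℝ) := by
    rw [← Real.rpow_natCast, ← Real.rpow_mul h0.le, ← Real.rpow_add h0]
    norm_num
  have h4 : 0 < γ ^ (-(5 / 7) : ℝ) := Real.rpow_pos_of_pos h0 _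
  calc (1 + Real.log (1 / γ)) ^ 3 * γ ^ (-(5 / 7) : ℝ)
      ≤ (85 * γ ^ (-(1 / 84) : ℝ)) ^ 3 * γ ^ (-(5 / 7) : ℝ) :=
        mul_le_mul_of_nonneg_right h2 h4.le
    _ = 85 ^ 3 * ((γ ^ (-(1 / 84) : ℝ)) ^ 3 * γ ^ (-(5 / 7) : ℝ)) := by ring
    _ = 85 ^ 3 * γ ^ (-(3 / 4) : ℝ) := by rw [h3]

theorem a_four (d : ℕ) (hd : 3 ≤ d) : ∃ C : ℝ, 0 < C ∧ ∀ (L : ℕ) [NeZero L] (ζ : ℂ),
    0 < ζ.im → ζ.im ≤ 1 → 8 / ζ.im ^ 3 ≤ L →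
    ∑ x : Tor d L, ‖Mx ζ x‖ ^ 4 ≤ C * ζ.im ^ (-(3 / 4) : ℝ) := by
  obtain ⟨C1, hC1, hlog⟩ := log_average d hd
  obtain ⟨C2, hC2, hS⟩ := ST_bound d hd
  refine ⟨(2 ^ d * C1 ^ 2 + C2 * C1 ^ 2) * 85 ^ 3, by positivity, ?_⟩
  intro L _ ζ hζ hζ1 hL
  set γ := ζ.im with hγ
  have hLpos : 0 < (L : ℝ) := by exact_mod_cast Nat.pos_of_ne_zero (NeZero.ne L)
  have hg : 1 ≤ 1 / γ := by rw [le_div_iff₀ hζ]; linarith
  have hl0 : 0 ≤ Real.log (1 / γ) := Real.log_nonneg hg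
  set ℓ := 1 + Real.log (1 / γ) with hℓ
  have hℓ1 : 1 ≤ ℓ := by rw [hℓ]; linarith
  have hγL : 1 ≤ γ * L := by
    have h1 : γ * (8 / γ ^ 3) ≤ γ * L := mul_le_mul_of_nonneg_left hL hζ.le
    have h2 : (1 : ℝ) ≤ γ * (8 / γ ^ 3) := by
      rw [mul_div_assoc', le_div_iff₀ (by positivity)]
      nlinarith [sq_nonneg γ]
    linarith
  have hav := hlog L ζ hζ hζ1 hγL
  -- the small momenta
  set r1 : ℝ := γ ^ (3 / 7 : ℝ) with hr1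
  have hr1p : 0 < r1 := Real.rpow_pos_of_pos hζ _
  have hr1l : r1 ≤ 1 := Real.rpow_le_one hζ.le hζ1 (by norm_num)
  have hγr1 : γ ≤ r1 := by
    have := Real.rpow_le_rpow_of_exponent_ge hζ hζ1 (show (3 / 7 : ℝ) ≤ 1 by norm_num)
    rwa [Real.rpow_one] at this
  have hr1L : 1 ≤ r1 * L := hγL.trans (mul_le_mul_of_nonneg_right hγr1 hLpos.le)
  have hcard := count_rh d L r1 hr1p.le
  have hcard2 : (1 / (L : ℝ) ^ d) *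
      (((univ : Finset (Tor d L)).filter fun q => rh q ≤ r1).card : ℝ) ≤ 2 ^ d * r1 ^ 3 := by
    have h1 : (1 + r1 * L) ^ d ≤ (2 * (r1 * L)) ^ d :=
      pow_le_pow_left₀ (by positivity) (by linarith) d
    have h2 : r1 ^ d ≤ r1 ^ 3 := pow_le_pow_of_le_one hr1p.le hr1l hd
    calc (1 / (L : ℝ) ^ d) *
      (((univ : Finset (Tor d L)).filter fun q => rh q ≤ r1).card : ℝ)
        ≤ (1 / (L : ℝ) ^ d) * (2 * (r1 * L)) ^ d :=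
          mul_le_mul_of_nonneg_left (hcard.trans h1) (by positivity)
      _ = 2 ^ d * r1 ^ d := by
          rw [mul_pow, mul_pow]
          field_simp
      _ ≤ 2 ^ d * r1 ^ 3 := mul_le_mul_of_nonneg_left h2 (by positivity)
  -- S(0)
  have hS0 : ST ζ (0 : Tor d L) ≤ C1 * ℓ / γ := by
    rw [ST_zero ζ hζ]
    refine div_le_div_of_nonneg_right ?_ hζ.le
    exact ((Complex.im_le_norm _).trans (Mx_le ζ 0)).trans hav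
  have hS00 : 0 ≤ ST ζ (0 : Tor d L) := (abs_nonneg _).trans (abs_ST_le ζ (0 : Tor d L))
  have hsq : ∀ q : Tor d L, ST ζ q ^ 2 ≤ (C1 * ℓ / γ) ^ 2 := by
    intro q
    rw [← sq_abs]
    exact pow_le_pow_left₀ (abs_nonneg _) ((abs_ST_le ζ q).trans hS0) 2
  -- the other momenta
  have hrg : √(r1 * γ) = γ ^ (5 / 7 : ℝ) := by
    have h1 : r1 * γ = (γ ^ (5 / 7 : ℝ)) ^ 2 := by
      rw [hr1, ← Real.rpow_natCast, ← Real.rpow_mul hζ.le]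
      nth_rw 2 [← Real.rpow_one γ]
      rw [← Real.rpow_add hζ]
      norm_num
    rw [h1, Real.sqrt_sq (Real.rpow_nonneg hζ.le _)]
  have hg57 : 0 < γ ^ (5 / 7 : ℝ) := Real.rpow_pos_of_pos hζ _
  have hbig : ∀ q : Tor d L, ¬ rh q ≤ r1 → ST ζ q ^ 2 ≤ C2 * ℓ / γ ^ (5 / 7 : ℝ) * |ST ζ q| := by
    intro q hq
    have hq' : r1 < rh q := not_le.1 hq
    have h1 := hS L ζ hζ hζ1 hL q (hr1p.trans hq')
    have h2 : γ ^ (5 / 7 : ℝ) ≤ √(rh q * γ) := by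
      rw [← hrg]
      exact Real.sqrt_le_sqrt (mul_le_mul_of_nonneg_right hq'.le hζ.le)
    have h3 : C2 * ℓ / √(rh q * γ) ≤ C2 * ℓ / γ ^ (5 / 7 : ℝ) :=
      div_le_div_of_nonneg_left (by positivity) hg57 h2
    rw [← sq_abs, sq]
    exact mul_le_mul_of_nonneg_right (h1.trans h3) (abs_nonneg _)
  -- the sum
  have hpars := ST_parseval (d := d) (L := L) ζ
  have hsum : ∑ x : Tor d L, ‖Mx ζ x‖ ^ 4 = (1 / (L : ℝ) ^ d) * ∑ q : Tor d L, ST ζ q ^ 2 := by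
    rw [hpars]
    field_simp
  have hsplit : ∑ q : Tor d L, ST ζ q ^ 2 ≤
      (((univ : Finset (Tor d L)).filter fun q => rh q ≤ r1).card : ℝ) * (C1 * ℓ / γ) ^ 2 +
      C2 * ℓ / γ ^ (5 / 7 : ℝ) * ∑ q : Tor d L, |ST ζ q| := by
    rw [← Finset.sum_filter_add_sum_filter_not univ (fun q : Tor d L => rh q ≤ r1)]
    refine add_le_add ?_ ?_
    · rw [← nsmul_eq_mul]
      exact Finset.sum_le_card_nsmul _ _ _ fun q _ => hsq q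
    · calc ∑ q ∈ univ.filter (fun q : Tor d L => ¬ rh q ≤ r1), ST ζ q ^ 2
          ≤ ∑ q ∈ univ.filter (fun q : Tor d L => ¬ rh q ≤ r1),
            C2 * ℓ / γ ^ (5 / 7 : ℝ) * |ST ζ q| :=
            Finset.sum_le_sum fun q hq => hbig q (Finset.mem_filter.1 hq).2
        _ = C2 * ℓ / γ ^ (5 / 7 : ℝ) *
            ∑ q ∈ univ.filter (fun q : Tor d L => ¬ rh q ≤ r1), |ST ζ q| := by
            rw [Finset.mul_sum]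
        _ ≤ C2 * ℓ / γ ^ (5 / 7 : ℝ) * ∑ q : Tor d L, |ST ζ q| := by
            refine mul_le_mul_of_nonneg_left ?_ (by positivity)
            exact Finset.sum_le_sum_of_subset_of_nonneg (Finset.filter_subset _ _)
              fun _ _ _ => abs_nonneg _
  have hl1 := ST_l1 (d := d) (L := L) ζ hζ
  have hav0 : 0 ≤ (1 / (L : ℝ) ^ d) * ∑ k : Tor d L, 1 / ‖(en k : ℂ) - ζ‖ :=
    mul_nonneg (by positivity) (Finset.sum_nonneg fun _ _ => by positivity)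
  have hl1' : (1 / (L : ℝ) ^ d) * ∑ q : Tor d L, |ST ζ q| ≤ (C1 * ℓ) ^ 2 :=
    hl1.trans (pow_le_pow_left₀ hav0 hav 2)
  have hr3 : r1 ^ 3 / γ ^ 2 = γ ^ (-(5 / 7) : ℝ) := by
    rw [hr1, ← Real.rpow_natCast, ← Real.rpow_mul hζ.le, ← Real.rpow_natCast γ 2,
      ← Real.rpow_sub hζ]
    norm_num
  have hinv : 1 / γ ^ (5 / 7 : ℝ) = γ ^ (-(5 / 7) : ℝ) := by
    rw [Real.rpow_neg hζ.le, one_div]
  have hγ5 : 0 < γ ^ (-(5 / 7) : ℝ) := Real.rpow_pos_of_pos hζ _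
  calc ∑ x : Tor d L, ‖Mx ζ x‖ ^ 4 = (1 / (L : ℝ) ^ d) * ∑ q : Tor d L, ST ζ q ^ 2 := hsum
    _ ≤ (1 / (L : ℝ) ^ d) *
        ((((univ : Finset (Tor d L)).filter fun q => rh q ≤ r1).card : ℝ) * (C1 * ℓ / γ) ^ 2 +
        C2 * ℓ / γ ^ (5 / 7 : ℝ) * ∑ q : Tor d L, |ST ζ q|) :=
        mul_le_mul_of_nonneg_left hsplit (by positivity)
    _ = ((1 / (L : ℝ) ^ d) *
        (((univ : Finset (Tor d L)).filter fun q => rh q ≤ r1).card : ℝ)) * (C1 * ℓ / γ) ^ 2 +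
        C2 * ℓ / γ ^ (5 / 7 : ℝ) * ((1 / (L : ℝ) ^ d) * ∑ q : Tor d L, |ST ζ q|) := by ring
    _ ≤ (2 ^ d * r1 ^ 3) * (C1 * ℓ / γ) ^ 2 + C2 * ℓ / γ ^ (5 / 7 : ℝ) * (C1 * ℓ) ^ 2 :=
        add_le_add (mul_le_mul_of_nonneg_right hcard2 (by positivity))
          (mul_le_mul_of_nonneg_left hl1' (by positivity))
    _ = 2 ^ d * C1 ^ 2 * ℓ ^ 2 * (r1 ^ 3 / γ ^ 2) + C2 * C1 ^ 2 * ℓ ^ 3 * (1 / γ ^ (5 / 7 : ℝ)) := by
        ring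
    _ = (2 ^ d * C1 ^ 2 * ℓ ^ 2 + C2 * C1 ^ 2 * ℓ ^ 3) * γ ^ (-(5 / 7) : ℝ) := by
        rw [hr3, hinv]
        ring
    _ ≤ (2 ^ d * C1 ^ 2 * ℓ ^ 3 + C2 * C1 ^ 2 * ℓ ^ 3) * γ ^ (-(5 / 7) : ℝ) := by
        refine mul_le_mul_of_nonneg_right ?_ hγ5.le
        have : ℓ ^ 2 ≤ ℓ ^ 3 := pow_le_pow_right₀ hℓ1 (by norm_num)
        have h9 : 0 ≤ 2 ^ d * C1 ^ 2 := by positivity
        linarith [mul_le_mul_of_nonneg_left this h9]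
    _ = (2 ^ d * C1 ^ 2 + C2 * C1 ^ 2) * (ℓ ^ 3 * γ ^ (-(5 / 7) : ℝ)) := by ring
    _ ≤ (2 ^ d * C1 ^ 2 + C2 * C1 ^ 2) * (85 ^ 3 * γ ^ (-(3 / 4) : ℝ)) :=
        mul_le_mul_of_nonneg_left (afour_cube hζ hζ1) (by positivity)
    _ = (2 ^ d * C1 ^ 2 + C2 * C1 ^ 2) * 85 ^ 3 * γ ^ (-(3 / 4) : ℝ) := by ring

end Pool.Agent.Kin
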