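import Pool.Agent.Kin.Hdiag

/-! KIN SHAT: the function `S(q)` (section B4, B6). -/

open Matrix Finset

noncomputable section

namespace Pool.Agent.Kin

variable {d L : ℕ} [NeZero L]

private lemma shat_ch_neg_right (q x : Tor d L) : (ch q (-x)) = star (ch q x) := ch_neg_right q x

private lemma shat_sum_im (ζ : ℂ) (q : Tor d L) :
    ∑ x : Tor d L, ‖Mx ζ x‖ ^ 2 * (ch q x).im = 0 := by
  have h : ∑ x : Tor d L, ‖Mx ζ x‖ ^ 2 * (ch q x).im =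
      ∑ x : Tor d L, -(‖Mx ζ x‖ ^ 2 * (ch q x).im) := by
    rw [← Equiv.sum_comp (Equiv.neg (Tor d L))]
    refine Finset.sum_congr rfl fun x _ => ?_
    rw [Equiv.neg_apply, Mx_neg, ch_neg_right]
    simp
  rw [Finset.sum_neg_distrib] at h
  linarith

/-- `S(q) = ∑ |M(x)|² ch q x` is real -/
lemma ST_eq_sum (ζ : ℂ) (q : Tor d L) :
    (ST ζ q : ℂ) = ∑ x : Tor d L, ((‖Mx ζ x‖ ^ 2 : ℝ) : ℂ) * ch q x := by
  have h1 : ∀ x : Tor d L, ((‖Mx ζ x‖ ^ 2 : ℝ) : ℂ) * ch q x =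
      ((‖Mx ζ x‖ ^ 2 * (ch q x).re : ℝ) : ℂ) +
        ((‖Mx ζ x‖ ^ 2 * (ch q x).im : ℝ) : ℂ) * Complex.I := by
    intro x
    apply Complex.ext <;> simp [Complex.mul_re, Complex.mul_im] <;> ring
  simp only [h1]
  rw [Finset.sum_add_distrib, ← Finset.sum_mul, ← Complex.ofReal_sum, ← Complex.ofReal_sum,
    shat_sum_im]
  simp [ST]

private lemma shat_ne (ζ : ℂ) (hζ : 0 < ζ.im) (r : ℝ) : (r : ℂ) - ζ ≠ 0 := by
  intro h
  have := congrArg Complex.im h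
  simp at this
  exact hζ.ne' this

private lemma shat_ne' (ζ : ℂ) (hζ : 0 < ζ.im) (r : ℝ) : (r : ℂ) - star ζ ≠ 0 := by
  intro h
  have := congrArg Complex.im h
  simp at this
  exact hζ.ne' this

private lemma shat_L : ((L : ℂ)) ≠ 0 := by exact_mod_cast NeZero.ne L

private lemma shat_star_Mx (ζ : ℂ) (x : Tor d L) :
    star (Mx ζ x) = (1 / (L : ℂ) ^ d) * ∑ l : Tor d L, ch (-l) x / ((en l : ℂ) - star ζ) := by
  unfold Mx
  rw [star_mul', star_sum]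
  congr 1
  · simp
  · refine Finset.sum_congr rfl fun l _ => ?_
    rw [ch_neg_left, star_div₀]
    congr 1
    simp

lemma ST_eq (ζ : ℂ) (hζ : 0 < ζ.im) (q : Tor d L) :
    (ST ζ q : ℂ) = (1 / (L : ℂ) ^ d) * ∑ k : Tor d L,
      1 / (((en k : ℂ) - ζ) * ((en (k + q) : ℂ) - star ζ)) := by
  rw [ST_eq_sum]
  have h1 : ∀ x : Tor d L, ((‖Mx ζ x‖ ^ 2 : ℝ) : ℂ) * ch q x =
      (1 / (L : ℂ) ^ d) ^ 2 * ∑ k : Tor d L, ∑ l : Tor d L,
        (1 / (((en k : ℂ) - ζ) * ((en l : ℂ) - star ζ))) * ch (k - l + q) x := by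
    intro x
    have h2 : ((‖Mx ζ x‖ ^ 2 : ℝ) : ℂ) = Mx ζ x * star (Mx ζ x) := by
      rw [Complex.ofReal_pow]
      exact (Complex.mul_conj' (Mx ζ x)).symm
    rw [h2, shat_star_Mx]
    unfold Mx
    rw [show (1 / (L : ℂ) ^ d * ∑ k : Tor d L, ch k x / ((en k : ℂ) - ζ)) *
      (1 / (L : ℂ) ^ d * ∑ l : Tor d L, ch (-l) x / ((en l : ℂ) - star ζ)) * ch q x =
      (1 / (L : ℂ) ^ d) ^ 2 * (((∑ k : Tor d L, ch k x / ((en k : ℂ) - ζ)) *
      ∑ l : Tor d L, ch (-l) x / ((en l : ℂ) - star ζ)) * ch q x) by ring]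
    congr 1
    rw [Finset.sum_mul_sum, Finset.sum_mul]
    refine Finset.sum_congr rfl fun k _ => ?_
    rw [Finset.sum_mul]
    refine Finset.sum_congr rfl fun l _ => ?_
    rw [show k - l + q = k + -l + q by rw [sub_eq_add_neg], ch_add_left, ch_add_left]
    field_simp
  simp only [h1]
  rw [← Finset.mul_sum, Finset.sum_comm]
  have h3 : ∀ k : Tor d L, ∑ x : Tor d L, ∑ l : Tor d L,
      (1 / (((en k : ℂ) - ζ) * ((en l : ℂ) - star ζ))) * ch (k - l + q) x =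
      (1 / (((en k : ℂ) - ζ) * ((en (k + q) : ℂ) - star ζ))) * (L : ℂ) ^ d := by
    intro k
    rw [Finset.sum_comm]
    simp only [← Finset.mul_sum]
    have h4 : ∀ l : Tor d L, ∑ x : Tor d L, ch (k - l + q) x =
        if l = k + q then (L : ℂ) ^ d else 0 := by
      intro l
      simp only [ch_comm (k - l + q)]
      have : ∑ x : Tor d L, ch x (k - l + q) = _ := sum_ch (k - l + q)
      rw [this]
      by_cases h : l = k + q
      · rw [if_pos h, if_pos (by rw [h]; abel)]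
      · rw [if_neg h, if_neg]
        intro h5
        apply h
        have : k + q - l = 0 := by rw [← h5]; abel
        exact (sub_eq_zero.1 this).symm
    simp only [h4]
    simp
  simp only [h3]
  rw [← Finset.sum_mul]
  have hL : (L : ℂ) ^ d ≠ 0 := pow_ne_zero _ shat_L
  field_simp

lemma ST_zero (ζ : ℂ) (hζ : 0 < ζ.im) : ST ζ (0 : Tor d L) = (Mx ζ (0 : Tor d L)).im / ζ.im := by
  rw [← Mx_ward ζ hζ]
  unfold ST
  refine Finset.sum_congr rfl fun x _ => ?_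
  rw [ch_zero_left]
  simp

private lemma shat_zero (ζ : ℂ) : ST ζ (0 : Tor d L) = ∑ x : Tor d L, ‖Mx ζ x‖ ^ 2 := by
  unfold ST
  refine Finset.sum_congr rfl fun x _ => ?_
  rw [ch_zero_left]
  simp

lemma abs_ST_le (ζ : ℂ) (q : Tor d L) : |ST ζ q| ≤ ST ζ (0 : Tor d L) := by
  rw [shat_zero]
  unfold ST
  refine (Finset.abs_sum_le_sum_abs _ _).trans (Finset.sum_le_sum fun x _ => ?_)
  rw [abs_mul, abs_of_nonneg (by positivity : 0 ≤ ‖Mx ζ x‖ ^ 2)]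
  have h1 : |(ch q x).re| ≤ 1 := (Complex.abs_re_le_norm _).trans (le_of_eq (ch_norm q x))
  nlinarith [sq_nonneg ‖Mx ζ x‖]

lemma ST_diff (ζ : ℂ) (q : Tor d L) :
    ST ζ (0 : Tor d L) - ST ζ q = ∑ x : Tor d L, ‖Mx ζ x‖ ^ 2 * (1 - (ch q x).re) := by
  rw [shat_zero]
  unfold ST
  rw [← Finset.sum_sub_distrib]
  refine Finset.sum_congr rfl fun x _ => ?_
  ring

/-- `(M diag(ch q) M*)_xx = S(q) ch q x` for `M x y = Mx ζ (x - y)` -/
lemma ST_diag (ζ : ℂ) (M : Matrix (Tor d L) (Tor d L) ℂ) (hM : ∀ x y, M x y = Mx ζ (x - y))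
    (q x : Tor d L) : (M * Matrix.diagonal (fun y => ch q y) * Mᴴ) x x = (ST ζ q : ℂ) * ch q x := by
  rw [Matrix.mul_apply]
  have h1 : ∀ y, (M * Matrix.diagonal (fun y => ch q y)) x y * Mᴴ y x =
      ((‖Mx ζ (x - y)‖ ^ 2 : ℝ) : ℂ) * ch q y := by
    intro y
    rw [Matrix.mul_diagonal, Matrix.conjTranspose_apply, hM]
    have h2 : ((‖Mx ζ (x - y)‖ ^ 2 : ℝ) : ℂ) = Mx ζ (x - y) * star (Mx ζ (x - y)) := by
      rw [Complex.ofReal_pow]
      exact (Complex.mul_conj' _).symm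
    rw [h2]
    ring
  simp only [h1]
  rw [← Equiv.sum_comp (Equiv.subLeft x)]
  have h3 : ∀ z : Tor d L, ((‖Mx ζ (x - (Equiv.subLeft x) z)‖ ^ 2 : ℝ) : ℂ) *
      ch q ((Equiv.subLeft x) z) = (((‖Mx ζ z‖ ^ 2 : ℝ) : ℂ) * ch q (-z)) * ch q x := by
    intro z
    have h4 : (Equiv.subLeft x) z = -z + x := by
      rw [Equiv.subLeft_apply]
      abel
    rw [h4, ch_add_right]
    have h5 : x - (-z + x) = z := by abel
    rw [h5]
    ring
  simp only [h3]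
  rw [← Finset.sum_mul]
  congr 1
  rw [ST_eq_sum, ← Equiv.sum_comp (Equiv.neg (Tor d L))]
  refine Finset.sum_congr rfl fun z _ => ?_
  rw [Equiv.neg_apply, Mx_neg, neg_neg]

/-- Parseval for `S` -/
lemma ST_parseval (ζ : ℂ) :
    ∑ q : Tor d L, ST ζ q ^ 2 = (L : ℝ) ^ d * ∑ x : Tor d L, ‖Mx ζ x‖ ^ 4 := by
  have h := parseval (fun x : Tor d L => ((‖Mx ζ x‖ ^ 2 : ℝ) : ℂ))
  have h1 : ∀ q : Tor d L, ‖∑ x : Tor d L, ((‖Mx ζ x‖ ^ 2 : ℝ) : ℂ) * ch q x‖ ^ 2 =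
      ST ζ q ^ 2 := by
    intro q
    rw [← ST_eq_sum, Complex.norm_real, Real.norm_eq_abs, sq_abs]
  have h2 : ∀ x : Tor d L, ‖((‖Mx ζ x‖ ^ 2 : ℝ) : ℂ)‖ ^ 2 = ‖Mx ζ x‖ ^ 4 := by
    intro x
    rw [Complex.norm_real, Real.norm_eq_abs, abs_of_nonneg (by positivity)]
    ring
  simp only [h1, h2] at h
  exact h

/-- `L^{-d} ∑ |S(q)| ≤ (L^{-d} ∑ 1/|en k - ζ|)²` -/
lemma ST_l1 (ζ : ℂ) (hζ : 0 < ζ.im) :
    (1 / (L : ℝ) ^ d) * ∑ q : Tor d L, |ST ζ q| ≤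
      ((1 / (L : ℝ) ^ d) * ∑ k : Tor d L, 1 / ‖(en k : ℂ) - ζ‖) ^ 2 := by
  have hL : 0 < (L : ℝ) := by exact_mod_cast Nat.pos_of_ne_zero (NeZero.ne L)
  have hn : ∀ r : ℝ, ‖(r : ℂ) - star ζ‖ = ‖(r : ℂ) - ζ‖ := by
    intro r
    rw [← norm_star ((r : ℂ) - ζ), star_sub]
    congr 2
    simp
  have h1 : ∀ q : Tor d L, |ST ζ q| ≤ (1 / (L : ℝ) ^ d) * ∑ k : Tor d L,
      (1 / ‖(en k : ℂ) - ζ‖) * (1 / ‖(en (k + q) : ℂ) - ζ‖) := by
    intro q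
    rw [← Real.norm_eq_abs, ← Complex.norm_real, ST_eq ζ hζ, norm_mul]
    have e1 : ‖(1 : ℂ) / (L : ℂ) ^ d‖ = 1 / (L : ℝ) ^ d := by
      simp
    rw [e1]
    refine mul_le_mul_of_nonneg_left ?_ (by positivity)
    refine (norm_sum_le _ _).trans (Finset.sum_le_sum fun k _ => ?_)
    rw [norm_div, norm_mul, hn, norm_one]
    rw [one_div_mul_one_div_rev, mul_comm]
  calc (1 / (L : ℝ) ^ d) * ∑ q : Tor d L, |ST ζ q|
      ≤ (1 / (L : ℝ) ^ d) * ∑ q : Tor d L, ((1 / (L : ℝ) ^ d) * ∑ k : Tor d L,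
      (1 / ‖(en k : ℂ) - ζ‖) * (1 / ‖(en (k + q) : ℂ) - ζ‖)) :=
        mul_le_mul_of_nonneg_left (Finset.sum_le_sum fun q _ => h1 q) (by positivity)
    _ = ((1 / (L : ℝ) ^ d) * ∑ k : Tor d L, 1 / ‖(en k : ℂ) - ζ‖) ^ 2 := by
        rw [← Finset.mul_sum, Finset.sum_comm]
        have h2 : ∀ k : Tor d L, ∑ q : Tor d L, (1 / ‖(en k : ℂ) - ζ‖) *
            (1 / ‖(en (k + q) : ℂ) - ζ‖) = (1 / ‖(en k : ℂ) - ζ‖) *
            ∑ l : Tor d L, 1 / ‖(en l : ℂ) - ζ‖ := by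
          intro k
          rw [← Finset.mul_sum]
          congr 1
          exact Equiv.sum_comp (Equiv.addLeft k) fun l : Tor d L => 1 / ‖(en l : ℂ) - ζ‖
        simp only [h2]
        rw [← Finset.sum_mul]
        ring

private lemma shat_pow {z : ℂ} (hz : ‖z‖ = 1) (n : ℕ) :
    1 - (z ^ n).re ≤ (n : ℝ) ^ 2 * (1 - z.re) := by
  have key : ∀ w : ℂ, ‖w‖ = 1 → ‖1 - w‖ ^ 2 = 2 * (1 - w.re) := by
    intro w hw
    have h1 : ‖1 - w‖ ^ 2 = Complex.normSq (1 - w) := by rw [Complex.normSq_eq_norm_sq]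
    have h2 : Complex.normSq w = 1 := by rw [Complex.normSq_eq_norm_sq, hw]; norm_num
    rw [h1, Complex.normSq_apply]
    rw [Complex.normSq_apply] at h2
    simp only [Complex.sub_re, Complex.sub_im, Complex.one_re, Complex.one_im]
    nlinarith
  have hle : ∀ n : ℕ, ‖1 - z ^ n‖ ≤ n * ‖1 - z‖ := by
    intro n
    induction n with
    | zero => simp
    | succ n ih =>
      have e : 1 - z ^ (n + 1) = (1 - z ^ n) + z ^ n * (1 - z) := by ring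
      rw [e]
      refine (norm_add_le _ _).trans ?_
      rw [norm_mul, norm_pow, hz, one_pow, one_mul]
      push_cast
      linarith
  have h1 := key z hz
  have h2 := key (z ^ n) (by rw [norm_pow, hz, one_pow])
  have h3 := hle n
  have h4 : ‖1 - z ^ n‖ ^ 2 ≤ (n * ‖1 - z‖) ^ 2 := pow_le_pow_left₀ (norm_nonneg _) h3 2
  rw [h2, mul_pow, h1] at h4
  linarith

private lemma shat_ch_nsmul (n : ℕ) (q x : Tor d L) : ch (n • q) x = ch q x ^ n := by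
  induction n with
  | zero => rw [zero_smul, ch_zero_left, pow_zero]
  | succ n ih => rw [succ_nsmul, ch_add_left, ih, pow_succ]

/-- `S(0) - S(nq) ≤ n² (S(0) - S(q))` -/
lemma ST_mul (ζ : ℂ) (n : ℕ) (q : Tor d L) :
    ST ζ (0 : Tor d L) - ST ζ (n • q) ≤ (n : ℝ) ^ 2 * (ST ζ (0 : Tor d L) - ST ζ q) := by
  rw [ST_diff, ST_diff, Finset.mul_sum]
  refine Finset.sum_le_sum fun x _ => ?_
  rw [shat_ch_nsmul]
  have h := shat_pow (ch_norm q x) n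
  have h2 : 0 ≤ ‖Mx ζ x‖ ^ 2 := by positivity
  nlinarith [mul_le_mul_of_nonneg_left h h2]

end Pool.Agent.Kin
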