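import Pool.Agent.Kin.ZDefs

/-! KIN LAW: the law of the potential on the torus around `x`. -/

open Finset MeasureTheory ProbabilityTheory

noncomputable section

namespace Pool.Agent.Kin

lemma rep_injective (d L : ℕ) [NeZero L] : Function.Injective (rep : Tor d L → Fin d → ℤ) := by
  intro a b h
  funext j
  exact ZMod.injective_valMinAbs (congrFun h j)

theorem law_torus {d : ℕ} {Ω : Type} [MeasurableSpace Ω] (P : Measure Ω) [IsProbabilityMeasure P]
    (ω : (Fin d → ℤ) → Ω → ℝ) (hi : iIndepFun ω P) (hid : ∀ x, IdentDistrib (ω x) (ω 0) P P)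
    (L : ℕ) [NeZero L] (x : Fin d → ℤ) (c : ℝ) :
    AEMeasurable (fun s => fun w : Tor d L => ω (x + rep w) s - c) P ∧
    P.map (fun s => fun w : Tor d L => ω (x + rep w) s - c) =
      Measure.pi fun _ : Tor d L => P.map fun s => ω 0 s - c := by
  have hm : ∀ w : Tor d L, AEMeasurable (fun s => ω (x + rep w) s - c) P := fun w =>
    ((hid (x + rep w)).aemeasurable_fst).sub_const c
  refine ⟨aemeasurable_pi_lambda _ hm, ?_⟩
  have hinj : Function.Injective (fun w : Tor d L => x + rep w) := fun a b h =>
    rep_injective d L (add_left_cancel h)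
  have h1 : iIndepFun (fun w : Tor d L => ω (x + rep w)) P := hi.precomp hinj
  have h2 : iIndepFun (fun (w : Tor d L) (s : Ω) => ω (x + rep w) s - c) P :=
    h1.comp (fun _ y => y - c) (fun _ => measurable_id.sub_const c)
  rw [(iIndepFun_iff_map_fun_eq_pi_map hm).1 h2]
  congr 1
  funext w
  exact ((hid (x + rep w)).comp (measurable_id.sub_const c)).map_eq

end Pool.Agent.Kin
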