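import Pool.Agent.Kin.TDefs

/-! KIN CHAR: characters of the torus. -/

open Matrix Finset

noncomputable section

namespace Pool.Agent.Kin

variable {d L : ℕ} [NeZero L]

private lemma ch1_eq_std (a : ZMod L) : ch1 a = ZMod.stdAddChar a := by
  have h : (((a.val : ℤ) : ZMod L)) = a := by
    rw [Int.cast_natCast, ZMod.natCast_zmod_val]
  conv_rhs => rw [← h]
  rw [ZMod.stdAddChar_coe, ch1, ang]
  congr 1
  push_cast
  ring

lemma ch1_eq (a : ZMod L) : ch1 a = (Real.cos (ang a) : ℂ) + (Real.sin (ang a) : ℂ) * Complex.I := by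
  rw [ch1, Complex.exp_mul_I, ← Complex.ofReal_cos, ← Complex.ofReal_sin]

lemma ch1_zero : ch1 (0 : ZMod L) = 1 := by
  rw [ch1_eq_std, AddChar.map_zero_eq_one]

lemma ch1_add (a b : ZMod L) : ch1 (a + b) = ch1 a * ch1 b := by
  rw [ch1_eq_std, ch1_eq_std, ch1_eq_std, AddChar.map_add_eq_mul]

lemma ch1_norm (a : ZMod L) : ‖ch1 a‖ = 1 := by
  rw [ch1, Complex.norm_exp_ofReal_mul_I]

lemma ch1_neg (a : ZMod L) : ch1 (-a) = star (ch1 a) := by
  have h1 : ch1 (-a) * ch1 a = 1 := by
    rw [← ch1_add, neg_add_cancel, ch1_zero]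
  have h2 : star (ch1 a) * ch1 a = 1 := by
    rw [Complex.star_def, ← Complex.normSq_eq_conj_mul_self, Complex.normSq_eq_norm_sq, ch1_norm]
    norm_num
  have h3 : ch1 a ≠ 0 := by
    intro h
    rw [h, mul_zero] at h1
    exact zero_ne_one h1
  exact mul_right_cancel₀ h3 (h1.trans h2.symm)

lemma cos_ang_neg (a : ZMod L) : Real.cos (ang (-a)) = Real.cos (ang a) := by
  have hr : ∀ b : ZMod L, (ch1 b).re = Real.cos (ang b) := by
    intro b
    rw [ch1, Complex.exp_ofReal_mul_I_re]
  rw [← hr, ← hr, ch1_neg, Complex.star_def, Complex.conj_re]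

lemma sum_ch1 (a : ZMod L) : ∑ k : ZMod L, ch1 (k * a) = if a = 0 then (L : ℂ) else 0 := by
  have h := AddChar.sum_mulShift a (ZMod.isPrimitive_stdAddChar L)
  simp only [ZMod.card] at h
  rw [← Nat.cast_zero (R := ℂ), ← Nat.cast_ite]
  rw [← h]
  exact Finset.sum_congr rfl fun k _ => ch1_eq_std _

lemma ch_comm (k x : Tor d L) : ch k x = ch x k := by
  simp only [ch]
  exact Finset.prod_congr rfl fun j _ => by rw [mul_comm]

lemma ch_add_left (k l x : Tor d L) : ch (k + l) x = ch k x * ch l x := by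
  simp only [ch, ← Finset.prod_mul_distrib, Pi.add_apply, add_mul, ch1_add]

lemma ch_add_right (k x y : Tor d L) : ch k (x + y) = ch k x * ch k y := by
  rw [ch_comm k (x + y), ch_add_left, ch_comm x k, ch_comm y k]

lemma ch_zero_left (x : Tor d L) : ch 0 x = 1 := by
  simp [ch, ch1_zero]

lemma ch_neg_left (k x : Tor d L) : ch (-k) x = star (ch k x) := by
  simp only [ch, Pi.neg_apply, neg_mul, ch1_neg, star_prod]

lemma ch_neg_right (k x : Tor d L) : ch k (-x) = star (ch k x) := by
  rw [ch_comm k (-x), ch_neg_left, ch_comm x k]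

lemma ch_norm (k x : Tor d L) : ‖ch k x‖ = 1 := by
  rw [ch, norm_prod]
  simp [ch1_norm]

lemma sum_ch (x : Tor d L) : ∑ k : Tor d L, ch k x = if x = 0 then (L : ℂ) ^ d else 0 := by
  have h1 : ∑ k : Tor d L, ch k x = ∏ j, ∑ a : ZMod L, ch1 (a * x j) := by
    rw [Finset.prod_univ_sum (t := fun _ : Fin d => (Finset.univ : Finset (ZMod L)))
      (f := fun j a => ch1 (a * x j)), Fintype.piFinset_univ]
    rfl
  rw [h1]
  simp only [sum_ch1]
  by_cases hx : x = 0
  · rw [if_pos hx, hx]
    simp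
  · rw [if_neg hx]
    obtain ⟨j, hj⟩ := Function.ne_iff.1 hx
    exact Finset.prod_eq_zero (Finset.mem_univ j) (if_neg hj)

/-- Parseval -/
lemma parseval (f : Tor d L → ℂ) :
    ∑ q : Tor d L, ‖∑ x, f x * ch q x‖ ^ 2 = (L : ℝ) ^ d * ∑ x, ‖f x‖ ^ 2 := by
  have hc : ∀ z : ℂ, ((‖z‖ ^ 2 : ℝ) : ℂ) = z * star z := by
    intro z
    rw [Complex.star_def, Complex.mul_conj, Complex.normSq_eq_norm_sq]
  have key : ((∑ q : Tor d L, ‖∑ x, f x * ch q x‖ ^ 2 : ℝ) : ℂ) =
      (((L : ℝ) ^ d * ∑ x, ‖f x‖ ^ 2 : ℝ) : ℂ) := by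
    rw [Complex.ofReal_sum, Complex.ofReal_mul, Complex.ofReal_sum, Complex.ofReal_pow,
      Complex.ofReal_natCast]
    simp only [hc]
    calc ∑ q : Tor d L, (∑ x, f x * ch q x) * star (∑ x, f x * ch q x)
        = ∑ q : Tor d L, ∑ x, ∑ y, f x * star (f y) * ch q (x - y) := by
          refine Finset.sum_congr rfl fun q _ => ?_
          rw [star_sum, Finset.sum_mul_sum]
          refine Finset.sum_congr rfl fun x _ => Finset.sum_congr rfl fun y _ => ?_
          rw [sub_eq_add_neg, ch_add_right, ch_neg_right, star_mul']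
          ring
      _ = ∑ x, ∑ y, f x * star (f y) * ∑ q : Tor d L, ch q (x - y) := by
          rw [Finset.sum_comm]
          refine Finset.sum_congr rfl fun x _ => ?_
          rw [Finset.sum_comm]
          refine Finset.sum_congr rfl fun y _ => ?_
          rw [Finset.mul_sum]
      _ = ∑ x, (L : ℂ) ^ d * (f x * star (f x)) := by
          refine Finset.sum_congr rfl fun x _ => ?_
          simp only [sum_ch, sub_eq_zero]
          rw [Finset.sum_eq_single x]
          · rw [if_pos rfl]; ring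
          · intro y _ hy
            rw [if_neg (Ne.symm hy), mul_zero]
          · intro h
            exact absurd (Finset.mem_univ x) h
      _ = (L : ℂ) ^ d * ∑ x, f x * star (f x) := by rw [Finset.mul_sum]
  exact_mod_cast key

lemma en_nonneg (k : Tor d L) : 0 ≤ en k := by
  refine Finset.sum_nonneg fun j _ => ?_
  linarith [Real.cos_le_one (ang (k j))]

lemma en_neg (k : Tor d L) : en (-k) = en k := by
  simp only [en, Pi.neg_apply, cos_ang_neg]

lemma rh_nonneg (k : Tor d L) : 0 ≤ rh k := by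
  exact Real.iSup_nonneg fun j => abs_nonneg _

lemma rh_le_one (k : Tor d L) : rh k ≤ 1 := by
  exact Real.iSup_le (fun j => Real.abs_sin_le_one _) zero_le_one

end Pool.Agent.Kin
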