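import Pool.Agent.Kin.Defs

/-! KIN INTP: interpolation between `l²` and `l^∞` (section A7 (i)). -/

open Matrix Finset

noncomputable section

namespace Pool.Agent.Kin

/-- a power as an integral of indicator functions -/
theorem intp_pow (n : ℕ) {t S : ℝ} (ht : 0 ≤ t) (hS : t ≤ S) :
    ∫ s in (0 : ℝ)..S, Set.indicator {s : ℝ | s ≤ t} (fun s => ((n : ℝ) + 1) * s ^ n) s
      = t ^ (n + 1) := by
  rw [intervalIntegral.integral_indicator (⟨ht, hS⟩ : t ∈ Set.Icc 0 S)]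
  rw [intervalIntegral.integral_const_mul, integral_pow]
  have : ((n : ℝ) + 1) ≠ 0 := by positivity
  field_simp
  simp

theorem intp_int (n : ℕ) {t S : ℝ} : IntervalIntegrable
    (fun s => Set.indicator {s : ℝ | s ≤ t} (fun s => ((n : ℝ) + 1) * s ^ n) s)
    MeasureTheory.volume 0 S := by
  have h : IntervalIntegrable (fun s : ℝ => ((n : ℝ) + 1) * s ^ n) MeasureTheory.volume 0 S :=
    Continuous.intervalIntegrable (by fun_prop) _ _
  rw [intervalIntegrable_iff] at h ⊢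
  exact h.indicator measurableSet_Iic

/-- comparison of two sums from the comparison of the distribution functions -/
theorem intp_layer {ι κ : Type} [Fintype ι] [Fintype κ] (n : ℕ) (al t : κ → ℝ) (be u : ι → ℝ)
    (ht : ∀ k, 0 ≤ t k) (hu : ∀ i, 0 ≤ u i)
    (h : ∀ s : ℝ, 0 ≤ s → ∑ k, (if s ≤ t k then al k else 0) ≤ ∑ i, (if s ≤ u i then be i else 0)) :
    ∑ k, al k * t k ^ (n + 1) ≤ ∑ i, be i * u i ^ (n + 1) := by
  set S : ℝ := ∑ k, t k + ∑ i, u i with hS
  have hS1 : ∀ k, t k ≤ S := fun k =>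
    (Finset.single_le_sum (fun j _ => ht j) (Finset.mem_univ k)).trans
      (le_add_of_nonneg_right (Finset.sum_nonneg fun i _ => hu i))
  have hS2 : ∀ i, u i ≤ S := fun i =>
    (Finset.single_le_sum (fun j _ => hu j) (Finset.mem_univ i)).trans
      (le_add_of_nonneg_left (Finset.sum_nonneg fun k _ => ht k))
  have hS0 : 0 ≤ S := add_nonneg (Finset.sum_nonneg fun k _ => ht k)
    (Finset.sum_nonneg fun i _ => hu i)
  have e1 : ∑ k, al k * t k ^ (n + 1) = ∫ s in (0 : ℝ)..S, ∑ k, al k *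
      Set.indicator {s : ℝ | s ≤ t k} (fun s => ((n : ℝ) + 1) * s ^ n) s := by
    rw [intervalIntegral.integral_finsetSum fun k _ => (intp_int n).const_mul _]
    refine Finset.sum_congr rfl fun k _ => ?_
    rw [intervalIntegral.integral_const_mul, intp_pow n (ht k) (hS1 k)]
  have e2 : ∑ i, be i * u i ^ (n + 1) = ∫ s in (0 : ℝ)..S, ∑ i, be i *
      Set.indicator {s : ℝ | s ≤ u i} (fun s => ((n : ℝ) + 1) * s ^ n) s := by
    rw [intervalIntegral.integral_finsetSum fun k _ => (intp_int n).const_mul _]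
    refine Finset.sum_congr rfl fun k _ => ?_
    rw [intervalIntegral.integral_const_mul, intp_pow n (hu k) (hS2 k)]
  rw [e1, e2]
  refine intervalIntegral.integral_mono_on hS0 ?_ ?_ fun s hs => ?_
  · have := IntervalIntegrable.sum (univ : Finset κ) fun k _ =>
      (intp_int n (t := t k) (S := S)).const_mul (al k)
    rwa [Finset.sum_fn] at this
  · have := IntervalIntegrable.sum (univ : Finset ι) fun i _ =>
      (intp_int n (t := u i) (S := S)).const_mul (be i)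
    rwa [Finset.sum_fn] at this
  · have h1 := h s hs.1
    have h2 : 0 ≤ ((n : ℝ) + 1) * s ^ n := by have := hs.1; positivity
    have c1 : ∑ k, al k * Set.indicator {s : ℝ | s ≤ t k} (fun s => ((n : ℝ) + 1) * s ^ n) s
        = (∑ k, (if s ≤ t k then al k else 0)) * (((n : ℝ) + 1) * s ^ n) := by
      rw [Finset.sum_mul]
      refine Finset.sum_congr rfl fun k _ => ?_
      by_cases hk : s ≤ t k
      · rw [Set.indicator_of_mem (by exact hk), if_pos hk]
      · rw [Set.indicator_of_notMem (by exact hk), if_neg hk]; ring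
    have c2 : ∑ i, be i * Set.indicator {s : ℝ | s ≤ u i} (fun s => ((n : ℝ) + 1) * s ^ n) s
        = (∑ i, (if s ≤ u i then be i else 0)) * (((n : ℝ) + 1) * s ^ n) := by
      rw [Finset.sum_mul]
      refine Finset.sum_congr rfl fun k _ => ?_
      by_cases hk : s ≤ u k
      · rw [Set.indicator_of_mem (by exact hk), if_pos hk]
      · rw [Set.indicator_of_notMem (by exact hk), if_neg hk]; ring
    rw [c1, c2]
    exact mul_le_mul_of_nonneg_right h1 h2

theorem interp {ι κ : Type} [Fintype ι] [Fintype κ] (T : (ι → ℂ) →ₗ[ℂ] (κ → ℂ)) (A2 Ai : ℝ)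
    (hA2 : 0 ≤ A2) (hAi : 0 < Ai)
    (h2 : ∀ x : ι → ℂ, ∑ k, ‖T x k‖ ^ 2 ≤ A2 * ∑ i, ‖x i‖ ^ 2)
    (hi : ∀ (x : ι → ℂ) (c : ℝ), (∀ i, ‖x i‖ ≤ c) → ∀ k, ‖T x k‖ ≤ Ai * c)
    (q : ℕ) (hq : 2 ≤ q) (x : ι → ℂ) :
    ∑ k, ‖T x k‖ ^ (2 * q) ≤ 4 ^ q * Ai ^ (2 * q - 2) * A2 * ∑ i, ‖x i‖ ^ (2 * q) := by
  obtain ⟨n, hn⟩ : ∃ n, 2 * q - 2 = n + 1 := ⟨2 * q - 3, by omega⟩
  have hlay := intp_layer n (fun k => ‖T x k‖ ^ 2 / 4) (fun k => ‖T x k‖ / (2 * Ai))
    (fun i => A2 * ‖x i‖ ^ 2) (fun i => ‖x i‖) (fun k => by positivity) (fun i => norm_nonneg _) ?_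
  · have e1 : ∀ k, ‖T x k‖ ^ (2 * q)
        = 4 ^ q * Ai ^ (2 * q - 2) * (‖T x k‖ ^ 2 / 4 * (‖T x k‖ / (2 * Ai)) ^ (n + 1)) := by
      intro k
      rw [← hn, div_pow, mul_pow]
      have h4 : (4 : ℝ) ^ q = 4 * 2 ^ (2 * q - 2) := by
        have : (4 : ℝ) ^ q = 2 ^ (2 * q) := by rw [pow_mul]; norm_num
        rw [this]
        obtain ⟨j, rfl⟩ : ∃ j, q = j + 1 := ⟨q - 1, by omega⟩
        rw [show 2 * (j + 1) - 2 = 2 * j by omega, show 2 * (j + 1) = 2 * j + 2 by ring, pow_add]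
        ring
      have h5 : ‖T x k‖ ^ (2 * q) = ‖T x k‖ ^ 2 * ‖T x k‖ ^ (2 * q - 2) := by
        rw [← pow_add]; congr 1; omega
      rw [h4, h5]
      have : Ai ^ (2 * q - 2) ≠ 0 := by positivity
      field_simp
    have e2 : ∀ i, ‖x i‖ ^ (2 * q) = ‖x i‖ ^ 2 * ‖x i‖ ^ (n + 1) := by
      intro i
      rw [← pow_add, ← hn]; congr 1; omega
    simp_rw [e1, e2]
    rw [← Finset.mul_sum]
    calc 4 ^ q * Ai ^ (2 * q - 2) *
          ∑ k, (‖T x k‖ ^ 2 / 4 * (‖T x k‖ / (2 * Ai)) ^ (n + 1))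
        ≤ 4 ^ q * Ai ^ (2 * q - 2) * ∑ i, A2 * ‖x i‖ ^ 2 * ‖x i‖ ^ (n + 1) :=
          mul_le_mul_of_nonneg_left hlay (by positivity)
      _ = _ := by
        rw [mul_assoc _ A2, Finset.mul_sum (s := univ) (a := A2)]
        congr 1
        exact Finset.sum_congr rfl fun i _ => by ring
  · intro s hs
    classical
    set y : ι → ℂ := fun i => if s ≤ ‖x i‖ then x i else 0 with hy
    have h3 := h2 y
    have h4 : A2 * ∑ i, ‖y i‖ ^ 2 = ∑ i, (if s ≤ ‖x i‖ then A2 * ‖x i‖ ^ 2 else 0) := by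
      rw [Finset.mul_sum]
      refine Finset.sum_congr rfl fun i _ => ?_
      simp only [hy]
      split_ifs <;> simp
    rw [← h4]
    refine le_trans (Finset.sum_le_sum fun k _ => ?_) h3
    split_ifs with hk
    · have h5 : ‖T (x - y) k‖ ≤ Ai * s := by
        refine hi _ s (fun i => ?_) k
        simp only [hy, Pi.sub_apply]
        split_ifs with h
        · simpa using hs
        · rw [sub_zero]; exact (not_le.1 h).le
      have h6 : ‖T x k‖ ≤ ‖T (x - y) k‖ + ‖T y k‖ := by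
        rw [map_sub]
        have : T x k = (T x - T y) k + T y k := by simp
        calc ‖T x k‖ = ‖(T x - T y) k + T y k‖ := by rw [← this]
          _ ≤ _ := norm_add_le _ _
      rw [le_div_iff₀ (by positivity)] at hk
      have h7 : ‖T x k‖ / 2 ≤ ‖T y k‖ := by nlinarith
      have h8 : (‖T x k‖ / 2) ^ 2 ≤ ‖T y k‖ ^ 2 := pow_le_pow_left₀ (by positivity) h7 2
      calc ‖T x k‖ ^ 2 / 4 = (‖T x k‖ / 2) ^ 2 := by ring
        _ ≤ _ := h8
    · positivity

end Pool.Agent.Kin
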