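import Pool.Agent.Kin.Res

/-! KIN DERR: derivative of `X` along the path `r ↦ (r, λ r v)`. -/

open Matrix Finset

noncomputable section

namespace Pool.Agent.Kin

section Inv

/-- Derivative of the inverse of a quadratic path in a Banach algebra. -/
lemma derr_abs {R : Type*} [NormedRing R] [NormedAlgebra ℝ R] [CompleteSpace R] (C0 C1 C2 : R)
    (u : Rˣ) (r : ℝ) (hu : (u : R) = C0 + r • C1 + (r ^ 2) • C2) (φ : R →L[ℝ] ℂ) :
    HasDerivAt (fun t : ℝ => φ (Ring.inverse (C0 + t • C1 + (t ^ 2) • C2)))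
      (-(φ ((↑u⁻¹ : R) * (C1 + (2 * r) • C2) * (↑u⁻¹ : R)))) r := by
  have hA : HasDerivAt (fun t : ℝ => C0 + t • C1 + (t ^ 2) • C2) (C1 + (2 * r) • C2) r := by
    have e1 : HasDerivAt (fun t : ℝ => t • C1) ((1 : ℝ) • C1) r := (hasDerivAt_id r).smul_const C1
    have e2 : HasDerivAt (fun t : ℝ => (t ^ 2) • C2) ((2 * r) • C2) r := by
      have := (hasDerivAt_pow 2 r).smul_const C2
      simpa using this
    have e3 := (e1.const_add C0).add e2
    rw [one_smul] at e3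
    exact e3
  have hI := hasFDerivAt_ringInverse (𝕜 := ℝ) u
  rw [hu] at hI
  have hc := HasFDerivAt.comp_hasDerivAt r (l := Ring.inverse) (f := fun t : ℝ =>
    C0 + t • C1 + (t ^ 2) • C2) hI hA
  have h3 := φ.hasFDerivAt.comp_hasDerivAt r hc
  have h5 : φ ((-((ContinuousLinearMap.mulLeftRight ℝ R) (↑u⁻¹ : R)) (↑u⁻¹ : R))
      (C1 + (2 * r) • C2)) = -(φ ((↑u⁻¹ : R) * (C1 + (2 * r) • C2) * (↑u⁻¹ : R))) := by
    rw [_root_.neg_apply, ContinuousLinearMap.mulLeftRight_apply, map_neg]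
  rw [← h5]
  exact h3

variable {ι : Type} [Fintype ι] [DecidableEq ι]

attribute [local instance] Matrix.linftyOpNormedRing Matrix.linftyOpNormedAlgebra

/-- Derivative of the inverse of a quadratic matrix path. -/
lemma derr_inv (C0 C1 C2 G : Matrix ι ι ℂ) (r : ℝ)
    (h1 : (C0 + r • C1 + (r ^ 2) • C2) * G = 1) (h2 : G * (C0 + r • C1 + (r ^ 2) • C2) = 1)
    (x y : ι) :
    HasDerivAt (fun t : ℝ => (C0 + t • C1 + (t ^ 2) • C2)⁻¹ x y)
      (-((G * (C1 + (2 * r) • C2) * G) x y)) r := by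
  have h := derr_abs (R := Matrix ι ι ℂ) C0 C1 C2 ⟨C0 + r • C1 + (r ^ 2) • C2, G, h1, h2⟩ r rfl
    (LinearMap.toContinuousLinearMap (Matrix.entryLinearMap ℝ ℂ x y))
  simp only [← Matrix.nonsing_inv_eq_ringInverse] at h
  exact h

end Inv

variable {ι P : Type} [Fintype ι] [DecidableEq ι] [Fintype P]

namespace Dat

variable (D : Dat ι P)

omit [Fintype ι] [DecidableEq ι] [Fintype P] in
lemma hasDerivAt_et (r : ℝ) : HasDerivAt D.et (-(2 * r * D.s * D.g0.im)) r := by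
  have h1 : HasDerivAt (fun r : ℝ => D.eta + D.s * (1 - r ^ 2) * D.g0.im)
      (D.s * (-(2 * r)) * D.g0.im) r := by
    have h2 : HasDerivAt (fun r : ℝ => 1 - r ^ 2) (-(2 * r)) r := by
      have := (hasDerivAt_pow 2 r).const_sub 1
      simpa using this
    exact ((h2.const_mul D.s).mul_const D.g0.im).const_add D.eta
  have h3 : D.et = fun r : ℝ => D.eta + D.s * (1 - r ^ 2) * D.g0.im := rfl
  rw [h3]
  convert h1 using 1
  ring

omit [Fintype ι] [DecidableEq ι] [Fintype P] in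
lemma derR_zr_im (r : ℝ) : (D.zr r).im = D.et r := by
  have h : ((D.s * (1 - r ^ 2) : ℝ) : ℂ) * D.g0 = (D.s * (1 - r ^ 2)) • D.g0 :=
    (Complex.real_smul).symm
  rw [zr, et, eta, Complex.add_im, h, Complex.smul_im, smul_eq_mul]

omit [Fintype ι] [Fintype P] in
/-- The matrix of the path. -/
lemma path_mat (v : ι → ℝ) (t : ℝ) :
    D.H0 + Matrix.diagonal (fun x => ((D.hv t v x : ℝ) : ℂ)) -
      D.zr t • (1 : Matrix ι ι ℂ) =
    (D.H0 - (D.z + (D.s : ℂ) * D.g0) • (1 : Matrix ι ι ℂ)) +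
      t • Matrix.diagonal (fun x => ((D.lam * v x : ℝ) : ℂ)) +
      (t ^ 2) • (((D.s : ℂ) * D.g0) • (1 : Matrix ι ι ℂ)) := by
  ext x y
  by_cases hxy : x = y
  · subst hxy
    simp [hv, zr]
    ring
  · simp [hxy]

omit [Fintype P] in
/-- `d/dr G_r(λ r v) = -2 r s g0 G² - ∑ λ v_w G_xw G_wy`. -/
lemma path_G (hH : RealSym D.H0) {r : ℝ} (hr : 0 < D.et r) (v : ι → ℝ) (x y : ι) :
    HasDerivAt (fun r : ℝ => D.G r (D.hv r v) x y)
      (D.rX r (D.hv r v) x y +
        ∑ w, ((D.lam * v w : ℝ) : ℂ) * (-(D.G r (D.hv r v) x w * D.G r (D.hv r v) w y))) r := by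
  have hz : 0 < (D.zr r).im := by rw [derR_zr_im]; exact hr
  have h1 := mul_res hH hz (D.hv r v)
  have h2 := res_mul hH hz (D.hv r v)
  rw [path_mat] at h1 h2
  have h3 := derr_inv _ _ _ _ r h1 h2 x y
  have h4 : (fun r : ℝ => D.G r (D.hv r v) x y) = fun t : ℝ =>
      ((D.H0 - (D.z + (D.s : ℂ) * D.g0) • (1 : Matrix ι ι ℂ)) +
      t • Matrix.diagonal (fun x => ((D.lam * v x : ℝ) : ℂ)) +
      (t ^ 2) • (((D.s : ℂ) * D.g0) • (1 : Matrix ι ι ℂ)))⁻¹ x y := by
    funext t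
    rw [← path_mat]
    rfl
  rw [h4]
  convert h3 using 1
  rw [← G]
  set G := D.G r (D.hv r v) with hG
  rw [mul_add, add_mul, Matrix.add_apply, neg_add, add_comm]
  congr 1
  · rw [Matrix.mul_apply, ← Finset.sum_neg_distrib]
    refine Finset.sum_congr rfl fun w _ => ?_
    rw [Matrix.mul_diagonal]
    ring
  · simp only [rX, ← hG, Matrix.smul_apply, smul_eq_mul, mul_smul_comm, smul_mul_assoc, mul_one,
      Complex.real_smul]
    push_cast
    ring

lemma path_X (hH : RealSym D.H0) {r : ℝ} (hr : 0 < D.et r) (v : ι → ℝ) (x y : ι) :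
    HasDerivAt (fun r : ℝ => D.X r (D.hv r v) x y)
      (D.rX r (D.hv r v) x y + ∑ w, ((D.lam * v w : ℝ) : ℂ) * D.dX w r (D.hv r v) x y) r := by
  have h := (D.path_G hH hr v x y).sub_const (D.M x y)
  exact h

end Dat

end Pool.Agent.Kin
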