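import Pool.Agent.Kin.Res

/-! KIN GAMCONT: joint continuity of all functionals. -/

open Matrix Finset

noncomputable section

set_option linter.unusedSectionVars false

namespace Pool.Agent.Kin

variable {ι P : Type} [Fintype ι] [DecidableEq ι] [Fintype P]

/-! ### generic continuity lemmas (for functions on a topological space) -/

section generic

variable {α : Type*} [TopologicalSpace α]

omit [Fintype ι] in
lemma gc_wt {et : α → ℝ} (he : Continuous et) (h0 : ∀ a, et a ≠ 0) (x y : ι) :
    Continuous fun a => wt (et a) x y := by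
  unfold wt
  by_cases h : x = y
  · simp only [h, if_true]
    exact continuous_const.add (continuous_const.div he h0)
  · simp only [h, if_false]
    exact continuous_const

omit [Fintype ι] [DecidableEq ι] in
lemma gc_entries {f : α → Matrix ι ι ℂ} (hf : ∀ x y, Continuous fun a => f a x y) :
    Continuous f := continuous_pi fun x => continuous_pi fun y => hf x y

omit [Fintype ι] [DecidableEq ι] in
lemma gc_entriesR {f : α → Matrix ι ι ℝ} (hf : ∀ x y, Continuous fun a => f a x y) :
    Continuous f := continuous_pi fun x => continuous_pi fun y => hf x y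

lemma gc_NN (q : ℕ) {et : α → ℝ} (he : Continuous et) (h0 : ∀ a, et a ≠ 0)
    {f : α → Matrix ι ι ℂ} (hf : Continuous f) : Continuous fun a => NN q (et a) (f a) := by
  unfold NN
  refine continuous_finsetSum _ fun x _ => continuous_finsetSum _ fun y _ => ?_
  exact (gc_wt he h0 x y).mul ((hf.matrix_elem x y).norm.pow _)

lemma gc_re {f g : α → Matrix ι ι ℂ} (hf : Continuous f) (hg : Continuous g) (x y : ι) :
    Continuous fun a => (star (f a x y) * g a x y).re :=
  Complex.continuous_re.comp ((hf.matrix_elem x y).star.mul (hg.matrix_elem x y))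

lemma gc_DD (q : ℕ) {et : α → ℝ} (he : Continuous et) (h0 : ∀ a, et a ≠ 0)
    {f g : α → Matrix ι ι ℂ} (hf : Continuous f) (hg : Continuous g) :
    Continuous fun a => DD q (et a) (f a) (g a) := by
  unfold DD
  refine continuous_finsetSum _ fun x _ => continuous_finsetSum _ fun y _ => ?_
  exact (gc_wt he h0 x y).mul ((continuous_const.mul ((hf.matrix_elem x y).norm.pow _)).mul
    (gc_re hf hg x y))

lemma gc_QV (q : ℕ) {et : α → ℝ} (he : Continuous et) (h0 : ∀ a, et a ≠ 0)
    {f g : α → Matrix ι ι ℂ} (hf : Continuous f) (hg : Continuous g) :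
    Continuous fun a => QV q (et a) (f a) (g a) := by
  unfold QV
  refine continuous_finsetSum _ fun x _ => continuous_finsetSum _ fun y _ => ?_
  refine (gc_wt he h0 x y).mul (Continuous.add ?_ ?_)
  · exact (continuous_const.mul ((hf.matrix_elem x y).norm.pow _)).mul
      ((hg.matrix_elem x y).norm.pow _)
  · exact (continuous_const.mul ((hf.matrix_elem x y).norm.pow _)).mul ((gc_re hf hg x y).pow _)

lemma gc_bil {W : α → Matrix ι ι ℝ} {u v : α → ι → ℂ} (hW : Continuous W) (hu : Continuous u)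
    (hv : Continuous v) : Continuous fun a => bil (W a) (u a) (v a) := by
  unfold bil
  refine continuous_finsetSum _ fun x _ => continuous_finsetSum _ fun y _ => ?_
  exact (((continuous_apply x).comp hu).mul
    (Complex.continuous_ofReal.comp (hW.matrix_elem x y))).mul ((continuous_apply y).comp hv)

lemma gc_imr {c : ℂ} {v : α → ι → ℂ} (hv : Continuous v) : Continuous fun a => imr c (v a) := by
  refine gc_entriesR fun x y => ?_
  unfold imr
  exact Complex.continuous_im.comp
    ((continuous_const.mul ((continuous_apply x).comp hv)).mul ((continuous_apply y).comp hv))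

end generic

namespace Dat

variable (D : Dat ι P)

/-- the parameters for which everything is smooth -/
def dom : Set ℝ := {r | 0 < D.et r ∧ ∀ p, 1 - D.s * r ^ 2 * D.S p ≠ 0}

lemma gc_continuous_et : Continuous D.et := by
  unfold et
  fun_prop

lemma isOpen_dom : IsOpen D.dom := by
  have h1 : IsOpen {r : ℝ | 0 < D.et r} := isOpen_lt continuous_const D.gc_continuous_et
  have h2 : IsOpen (⋂ p : P, {r : ℝ | 1 - D.s * r ^ 2 * D.S p ≠ 0}) := by
    refine isOpen_iInter_of_finite fun p => ?_
    exact isOpen_ne_fun (by fun_prop) continuous_const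
  have h3 : D.dom = {r : ℝ | 0 < D.et r} ∩ ⋂ p : P, {r : ℝ | 1 - D.s * r ^ 2 * D.S p ≠ 0} := by
    ext r
    simp [dom]
  rw [h3]
  exact h1.inter h2

lemma Icc_subset_dom (hD : D.Hyp) : Set.Icc 0 1 ⊆ D.dom := by
  intro r hr
  refine ⟨?_, fun p => (hD.Spos p r hr.1 hr.2).ne'⟩
  have hs : 0 ≤ D.s := mul_nonneg (sq_nonneg _) hD.sg0.le
  have h1 : 0 ≤ 1 - r ^ 2 := by nlinarith [hr.1, hr.2]
  have h2 : 0 ≤ D.s * (1 - r ^ 2) * D.g0.im := mul_nonneg (mul_nonneg hs h1) hD.g0im.le
  have h3 := hD.eta0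
  unfold et
  linarith

lemma gc_zr_im (r : ℝ) : (D.zr r).im = D.et r := by
  unfold zr et eta
  rw [Complex.add_im, Complex.im_ofReal_mul]

section param

variable {α : Type*} [TopologicalSpace α] {R : α → ℝ} {H : α → ι → ℝ}

lemma pc_zr (hR : Continuous R) : Continuous fun a => D.zr (R a) := by
  unfold zr
  fun_prop

lemma pc_et (hR : Continuous R) : Continuous fun a => D.et (R a) := D.gc_continuous_et.comp hR

lemma pc_G (hH : RealSym D.H0) (hR : Continuous R) (hHc : Continuous H)
    (hd : ∀ a, R a ∈ D.dom) : Continuous fun a => D.G (R a) (H a) := by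
  have hA : Continuous fun a => (D.H0 + Matrix.diagonal (fun x => ((H a x : ℝ) : ℂ)) -
      D.zr (R a) • (1 : Matrix ι ι ℂ)) := by
    refine (continuous_const.add ?_).sub ((D.pc_zr hR).smul continuous_const)
    exact Continuous.matrix_diagonal (by fun_prop)
  have hdet : ∀ a, (D.H0 + Matrix.diagonal (fun x => ((H a x : ℝ) : ℂ)) -
      D.zr (R a) • (1 : Matrix ι ι ℂ)).det ≠ 0 := by
    intro a h0
    have h1 := mul_res hH (w := D.zr (R a)) (by rw [gc_zr_im]; exact (hd a).1) (H a)
    have h2 := congrArg Matrix.det h1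
    rw [Matrix.det_mul, h0, zero_mul, Matrix.det_one] at h2
    exact zero_ne_one h2
  unfold G res
  simp only [Matrix.inv_def, Ring.inverse_eq_inv']
  exact (hA.matrix_det.inv₀ hdet).smul hA.matrix_adjugate

lemma pc_X (hH : RealSym D.H0) (hR : Continuous R) (hHc : Continuous H)
    (hd : ∀ a, R a ∈ D.dom) : Continuous fun a => D.X (R a) (H a) :=
  (D.pc_G hH hR hHc hd).sub continuous_const

lemma pc_F (hH : RealSym D.H0) (hR : Continuous R) (hHc : Continuous H)
    (hd : ∀ a, R a ∈ D.dom) (p : P) : Continuous fun a => D.F p (R a) (H a) := by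
  unfold F
  exact ((D.pc_G hH hR hHc hd).matrix_mul continuous_const).matrix_mul
    (D.pc_G hH hR hHc hd).matrix_conjTranspose

lemma pc_inv (hR : Continuous R) (hd : ∀ a, R a ∈ D.dom) (p : P) :
    Continuous fun a => (1 - D.s * R a ^ 2 * D.S p)⁻¹ :=
  Continuous.inv₀ (by fun_prop) fun a => (hd a).2 p

lemma pc_Fb (hR : Continuous R) (hd : ∀ a, R a ∈ D.dom) (p : P) :
    Continuous fun a => D.Fb p (R a) := by
  unfold Fb
  exact (Complex.continuous_ofReal.comp (D.pc_inv hR hd p)).smul continuous_const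

lemma pc_Fh (hR : Continuous R) (hd : ∀ a, R a ∈ D.dom) (p : P) :
    Continuous fun a => D.Fh p (R a) := by
  unfold Fh
  simp only [div_eq_mul_inv]
  exact continuous_const.mul (D.pc_inv hR hd p)

lemma pc_Z (hH : RealSym D.H0) (hR : Continuous R) (hHc : Continuous H)
    (hd : ∀ a, R a ∈ D.dom) (p : P) : Continuous fun a => D.Z p (R a) (H a) := by
  unfold Z
  exact (continuous_const (y := (D.eta : ℂ))).smul
    ((D.pc_F hH hR hHc hd p).sub (D.pc_Fb hR hd p))

lemma pc_J (hH : RealSym D.H0) (hR : Continuous R) (hHc : Continuous H)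
    (hd : ∀ a, R a ∈ D.dom) : Continuous fun a => D.J (R a) (H a) := by
  refine gc_entriesR fun x y => ?_
  unfold J
  by_cases h : x ∈ D.B ∧ y ∈ D.B
  · simp only [h, and_self, if_true]
    exact Complex.continuous_im.comp ((D.pc_G hH hR hHc hd).matrix_elem x y)
  · simp only [h, if_false]
    exact continuous_const

lemma pc_av (hH : RealSym D.H0) (hR : Continuous R) (hHc : Continuous H)
    (hd : ∀ a, R a ∈ D.dom) (w : ι) : Continuous fun a => D.av (R a) (H a) w := by
  refine continuous_pi fun x => ?_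
  unfold av
  by_cases h : x ∈ D.B
  · simp only [h, if_true]
    exact (D.pc_G hH hR hHc hd).matrix_elem x w
  · simp only [h, if_false]
    exact continuous_const

lemma pc_rX (hH : RealSym D.H0) (hR : Continuous R) (hHc : Continuous H)
    (hd : ∀ a, R a ∈ D.dom) : Continuous fun a => D.rX (R a) (H a) := by
  have hc : Continuous fun a => (-(2 * (R a : ℂ) * (D.s : ℂ) * D.g0)) := by fun_prop
  unfold rX
  exact hc.smul ((D.pc_G hH hR hHc hd).matrix_mul (D.pc_G hH hR hHc hd))

lemma pc_rZ (hH : RealSym D.H0) (hR : Continuous R) (hHc : Continuous H)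
    (hd : ∀ a, R a ∈ D.dom) (p : P) : Continuous fun a => D.rZ p (R a) (H a) := by
  have hG := D.pc_G hH hR hHc hd
  have hF := D.pc_F hH hR hHc hd p
  have hc : Continuous fun a => (-(2 * (R a : ℂ) * (D.s : ℂ))) := by fun_prop
  have hFh := D.pc_Fh hR hd p
  have hc2 : Continuous fun a => ((2 * R a * D.s * D.Fh p (R a) : ℝ) : ℂ) :=
    Complex.continuous_ofReal.comp (by fun_prop)
  have h1 : Continuous fun a => D.g0 • (D.G (R a) (H a) * D.F p (R a) (H a)) :=
    (continuous_const (y := D.g0)).smul (hG.matrix_mul hF)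
  have h2 : Continuous fun a => star D.g0 • (D.F p (R a) (H a) * (D.G (R a) (H a))ᴴ) :=
    (continuous_const (y := star D.g0)).smul (hF.matrix_mul hG.matrix_conjTranspose)
  unfold rZ
  exact (continuous_const (y := (D.eta : ℂ))).smul ((hc.smul (h1.add h2)).sub
    (hc2.smul (D.pc_Fb hR hd p)))

lemma pc_rW (hR : Continuous R) (hd : ∀ a, R a ∈ D.dom) {f : α → Matrix ι ι ℂ}
    (hf : Continuous f) : Continuous fun a => D.rW (R a) (f a) := by
  have hc : Continuous fun a => 2 * R a * D.s * D.g0.im := by fun_prop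
  unfold rW
  exact (hc.div ((D.pc_et hR).pow 2) fun a => pow_ne_zero _ (hd a).1.ne').mul
    (continuous_finsetSum _ fun x _ => (hf.matrix_elem x x).norm.pow _)

lemma pc_rJ (hH : RealSym D.H0) (hR : Continuous R) (hHc : Continuous H)
    (hd : ∀ a, R a ∈ D.dom) : Continuous fun a => D.rJ (R a) (H a) := by
  refine gc_entriesR fun x y => ?_
  unfold rJ
  by_cases h : x ∈ D.B ∧ y ∈ D.B
  · simp only [h, and_self, if_true]
    exact Complex.continuous_im.comp ((D.pc_rX hH hR hHc hd).matrix_elem x y)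
  · simp only [h, if_false]
    exact continuous_const

lemma pc_dX (hH : RealSym D.H0) (hR : Continuous R) (hHc : Continuous H)
    (hd : ∀ a, R a ∈ D.dom) (w : ι) : Continuous fun a => D.dX w (R a) (H a) := by
  have hG := D.pc_G hH hR hHc hd
  refine gc_entries fun x y => ?_
  unfold dX
  exact ((hG.matrix_elem x w).mul (hG.matrix_elem w y)).neg

lemma pc_ddX (hH : RealSym D.H0) (hR : Continuous R) (hHc : Continuous H)
    (hd : ∀ a, R a ∈ D.dom) (w : ι) : Continuous fun a => D.ddX w (R a) (H a) := by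
  have hG := D.pc_G hH hR hHc hd
  refine gc_entries fun x y => ?_
  unfold ddX
  exact continuous_const.mul
    (((hG.matrix_elem x w).mul (hG.matrix_elem w w)).mul (hG.matrix_elem w y))

lemma pc_dZ (hH : RealSym D.H0) (hR : Continuous R) (hHc : Continuous H)
    (hd : ∀ a, R a ∈ D.dom) (p : P) (w : ι) : Continuous fun a => D.dZ p w (R a) (H a) := by
  have hG := D.pc_G hH hR hHc hd
  have hF := D.pc_F hH hR hHc hd p
  refine gc_entries fun x y => ?_
  unfold dZ
  exact (continuous_const.mul (((hG.matrix_elem x w).mul (hF.matrix_elem w y)).add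
    ((hF.matrix_elem x w).mul (hG.matrix_elem y w).star))).neg

lemma pc_ddZ (hH : RealSym D.H0) (hR : Continuous R) (hHc : Continuous H)
    (hd : ∀ a, R a ∈ D.dom) (p : P) (w : ι) : Continuous fun a => D.ddZ p w (R a) (H a) := by
  have hG := D.pc_G hH hR hHc hd
  have hF := D.pc_F hH hR hHc hd p
  refine gc_entries fun x y => ?_
  unfold ddZ
  exact continuous_const.mul (((((hG.matrix_elem x w).mul (hG.matrix_elem w w)).mul
    (hF.matrix_elem w y)).add (((hG.matrix_elem x w).mul (hF.matrix_elem w w)).mul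
    (hG.matrix_elem y w).star)).add (((hF.matrix_elem x w).mul (hG.matrix_elem w w).star).mul
    (hG.matrix_elem y w).star))

lemma pc_bil (hH : RealSym D.H0) (hR : Continuous R) (hHc : Continuous H)
    (hd : ∀ a, R a ∈ D.dom) (w : ι) (k : ℕ) :
    Continuous fun a => bil (D.J (R a) (H a) ^ k) (D.av (R a) (H a) w) (D.av (R a) (H a) w) :=
  gc_bil ((D.pc_J hH hR hHc hd).pow k) (D.pc_av hH hR hHc hd w) (D.pc_av hH hR hHc hd w)

lemma pc_Gam (hH : RealSym D.H0) (hR : Continuous R) (hHc : Continuous H)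
    (hd : ∀ a, R a ∈ D.dom) : Continuous fun a => D.Gam (R a) (H a) := by
  have he := D.pc_et hR
  have h0 : ∀ a, D.et (R a) ≠ 0 := fun a => (hd a).1.ne'
  unfold Gam Gam1 Phi2
  refine Continuous.add (Continuous.add (continuous_const.mul
    (gc_NN _ he h0 (D.pc_X hH hR hHc hd))) ?_) (continuous_const.mul
    ((D.pc_J hH hR hHc hd).pow _).matrix_trace)
  exact continuous_finsetSum _ fun p _ => gc_NN _ he h0 (D.pc_Z hH hR hHc hd p)

lemma pc_Gar (hH : RealSym D.H0) (hR : Continuous R) (hHc : Continuous H)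
    (hd : ∀ a, R a ∈ D.dom) : Continuous fun a => D.Gar (R a) (H a) := by
  have he := D.pc_et hR
  have h0 : ∀ a, D.et (R a) ≠ 0 := fun a => (hd a).1.ne'
  have hX := D.pc_X hH hR hHc hd
  unfold Gar
  refine Continuous.add (Continuous.add (continuous_const.mul
    ((gc_DD _ he h0 hX (D.pc_rX hH hR hHc hd)).add (D.pc_rW hR hd hX))) ?_)
    (continuous_const.mul (continuous_const.mul ?_))
  · exact continuous_finsetSum _ fun p _ =>
      (gc_DD _ he h0 (D.pc_Z hH hR hHc hd p) (D.pc_rZ hH hR hHc hd p)).add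
        (D.pc_rW hR hd (D.pc_Z hH hR hHc hd p))
  · exact (((D.pc_J hH hR hHc hd).pow _).matrix_mul (D.pc_rJ hH hR hHc hd)).matrix_trace

lemma pc_Ga1 (hH : RealSym D.H0) (hR : Continuous R) (hHc : Continuous H)
    (hd : ∀ a, R a ∈ D.dom) (w : ι) : Continuous fun a => D.Ga1 w (R a) (H a) := by
  have he := D.pc_et hR
  have h0 : ∀ a, D.et (R a) ≠ 0 := fun a => (hd a).1.ne'
  unfold Ga1
  refine Continuous.add (Continuous.add (continuous_const.mul
    (gc_DD _ he h0 (D.pc_X hH hR hHc hd) (D.pc_dX hH hR hHc hd w))) ?_)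
    (continuous_const.mul (continuous_const.mul ?_).neg)
  · exact continuous_finsetSum _ fun p _ =>
      gc_DD _ he h0 (D.pc_Z hH hR hHc hd p) (D.pc_dZ hH hR hHc hd p w)
  · exact Complex.continuous_im.comp (D.pc_bil hH hR hHc hd w _)

lemma pc_Ga2 (hH : RealSym D.H0) (hR : Continuous R) (hHc : Continuous H)
    (hd : ∀ a, R a ∈ D.dom) (w : ι) : Continuous fun a => D.Ga2 w (R a) (H a) := by
  have he := D.pc_et hR
  have h0 : ∀ a, D.et (R a) ≠ 0 := fun a => (hd a).1.ne'
  have hX := D.pc_X hH hR hHc hd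
  have hJ := D.pc_J hH hR hHc hd
  have hI : Continuous fun a => imr 1 (D.av (R a) (H a) w) := gc_imr (D.pc_av hH hR hHc hd w)
  unfold Ga2
  refine Continuous.add (Continuous.add (continuous_const.mul
    ((gc_DD _ he h0 hX (D.pc_ddX hH hR hHc hd w)).add
      (gc_QV _ he h0 hX (D.pc_dX hH hR hHc hd w)))) ?_) (continuous_const.mul ?_)
  · exact continuous_finsetSum _ fun p _ =>
      (gc_DD _ he h0 (D.pc_Z hH hR hHc hd p) (D.pc_ddZ hH hR hHc hd p w)).add
        (gc_QV _ he h0 (D.pc_Z hH hR hHc hd p) (D.pc_dZ hH hR hHc hd p w))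
  · unfold D2 QV2
    refine Continuous.add (continuous_const.mul ?_) (continuous_const.mul ?_)
    · exact Complex.continuous_im.comp (((D.pc_G hH hR hHc hd).matrix_elem w w).mul
        (D.pc_bil hH hR hHc hd w _))
    · exact continuous_finsetSum _ fun i _ =>
        (((hJ.pow i).matrix_mul hI).matrix_mul ((hJ.pow _).matrix_mul hI)).matrix_trace

end param

lemma gc_dom_fst (a : ↥(D.dom ×ˢ (Set.univ : Set (ι → ℝ)))) : a.1.1 ∈ D.dom := a.2.1

lemma cont_G (hH : RealSym D.H0) (x y : ι) :
    ContinuousOn (fun p : ℝ × (ι → ℝ) => D.G p.1 p.2 x y) (D.dom ×ˢ Set.univ) := by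
  rw [continuousOn_iff_continuous_domRestrict]
  exact (D.pc_G hH (R := fun a : ↥(D.dom ×ˢ (Set.univ : Set (ι → ℝ))) => a.1.1)
    (H := fun a => a.1.2) (by fun_prop) (by fun_prop) D.gc_dom_fst).matrix_elem x y

lemma cont_Gam (hH : RealSym D.H0) :
    ContinuousOn (fun p : ℝ × (ι → ℝ) => D.Gam p.1 p.2) (D.dom ×ˢ Set.univ) := by
  rw [continuousOn_iff_continuous_domRestrict]
  exact D.pc_Gam hH (R := fun a : ↥(D.dom ×ˢ (Set.univ : Set (ι → ℝ))) => a.1.1)
    (H := fun a => a.1.2) (by fun_prop) (by fun_prop) D.gc_dom_fst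

lemma cont_Gar (hH : RealSym D.H0) :
    ContinuousOn (fun p : ℝ × (ι → ℝ) => D.Gar p.1 p.2) (D.dom ×ˢ Set.univ) := by
  rw [continuousOn_iff_continuous_domRestrict]
  exact D.pc_Gar hH (R := fun a : ↥(D.dom ×ˢ (Set.univ : Set (ι → ℝ))) => a.1.1)
    (H := fun a => a.1.2) (by fun_prop) (by fun_prop) D.gc_dom_fst

lemma cont_Ga1 (hH : RealSym D.H0) (w : ι) :
    ContinuousOn (fun p : ℝ × (ι → ℝ) => D.Ga1 w p.1 p.2) (D.dom ×ˢ Set.univ) := by
  rw [continuousOn_iff_continuous_domRestrict]
  exact D.pc_Ga1 hH (R := fun a : ↥(D.dom ×ˢ (Set.univ : Set (ι → ℝ))) => a.1.1)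
    (H := fun a => a.1.2) (by fun_prop) (by fun_prop) D.gc_dom_fst w

lemma cont_Ga2 (hH : RealSym D.H0) (w : ι) :
    ContinuousOn (fun p : ℝ × (ι → ℝ) => D.Ga2 w p.1 p.2) (D.dom ×ˢ Set.univ) := by
  rw [continuousOn_iff_continuous_domRestrict]
  exact D.pc_Ga2 hH (R := fun a : ↥(D.dom ×ˢ (Set.univ : Set (ι → ℝ))) => a.1.1)
    (H := fun a => a.1.2) (by fun_prop) (by fun_prop) D.gc_dom_fst w

end Dat

end Pool.Agent.Kin
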