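import Pool.Agent.Kin.Hdiag
import Pool.Agent.Kin.Res

/-! KIN TNORM: `‖1_B G ρ‖² ≤ (A/η) ‖ρ‖²` if `1_B Im G 1_B ≤ A`. -/

open Matrix Finset

noncomputable section

namespace Pool.Agent.Kin

private lemma tn_im_nonneg {ι : Type} [Fintype ι] [DecidableEq ι] {H0 : Matrix ι ι ℂ}
    (hH : RealSym H0) {z : ℂ} (hz : 0 < z.im) (h : ι → ℝ) (x : ι) :
    0 ≤ (res H0 z h x x).im := by
  have h1 := ward_row hH hz h x
  have h2 : 0 ≤ ∑ y, ‖res H0 z h x y‖ ^ 2 := Finset.sum_nonneg fun _ _ => by positivity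
  rw [h1] at h2
  by_contra hc
  push Not at hc
  have := div_neg_of_neg_of_pos hc hz
  linarith

private lemma tn_A_nonneg {ι : Type} [Fintype ι] [DecidableEq ι] {H0 : Matrix ι ι ℂ}
    (hH : RealSym H0) {z : ℂ} (hz : 0 < z.im) (h : ι → ℝ) (B : Finset ι) (A : ℝ)
    (hA : ∀ u : ι → ℝ, u ⬝ᵥ ((fun x y => if x ∈ B ∧ y ∈ B then (res H0 z h x y).im else 0 :
      Matrix ι ι ℝ) *ᵥ u) ≤ A * ∑ x, u x ^ 2) (x : ι) : 0 ≤ A := by
  have h1 := hA (fun y => if y = x then 1 else 0)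
  have h2 : ∑ y, (if y = x then (1 : ℝ) else 0) ^ 2 = 1 := by
    simp
  rw [h2, mul_one] at h1
  refine le_trans ?_ h1
  simp only [dotProduct, Matrix.mulVec, ite_mul, one_mul, zero_mul, mul_ite, mul_one, mul_zero,
    Finset.sum_ite_eq', Finset.mem_univ, if_true]
  refine Finset.sum_nonneg fun y _ => ?_
  split_ifs with h3 h4
  · rw [h4]
    exact tn_im_nonneg hH hz h x
  · exact le_rfl
  · exact le_rfl

/-- `‖G* v‖² = ⟨v, Im G v⟩/η` -/
private lemma tn_norm_adj {ι : Type} [Fintype ι] [DecidableEq ι] {H0 : Matrix ι ι ℂ}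
    (hH : RealSym H0) {z : ℂ} (hz : 0 < z.im) (h : ι → ℝ) (v : ι → ℂ) :
    ∑ u, ‖∑ x, star (res H0 z h x u) * v x‖ ^ 2 =
      (∑ x, ∑ y, (res H0 z h x y).im * ((v x).re * (v y).re + (v x).im * (v y).im)) / z.im := by
  have h1 : ∀ u, ((‖∑ x, star (res H0 z h x u) * v x‖ ^ 2 : ℝ) : ℂ) =
      ∑ x, ∑ y, (star (v x) * v y) * (res H0 z h x u * star (res H0 z h y u)) := by
    intro u
    rw [Complex.ofReal_pow, ← Complex.conj_mul', map_sum, Finset.sum_mul_sum]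
    refine Finset.sum_congr rfl fun x _ => Finset.sum_congr rfl fun y _ => ?_
    rw [map_mul]
    have : (starRingEnd ℂ) (star (res H0 z h x u)) = res H0 z h x u := star_star _
    rw [this]
    have h2 : (starRingEnd ℂ) (v x) = star (v x) := rfl
    rw [h2]
    ring
  have h2 : ((∑ u, ‖∑ x, star (res H0 z h x u) * v x‖ ^ 2 : ℝ) : ℂ) =
      ∑ x, ∑ y, (star (v x) * v y) * (((res H0 z h x y).im / z.im : ℝ) : ℂ) := by
    rw [Complex.ofReal_sum]
    simp only [h1]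
    rw [Finset.sum_comm]
    refine Finset.sum_congr rfl fun x _ => ?_
    rw [Finset.sum_comm]
    refine Finset.sum_congr rfl fun y _ => ?_
    rw [← Finset.mul_sum, ward hH hz h x y]
  have h3 := congrArg Complex.re h2
  rw [Complex.ofReal_re, Complex.re_sum] at h3
  rw [h3, Finset.sum_div]
  refine Finset.sum_congr rfl fun x _ => ?_
  rw [Complex.re_sum, Finset.sum_div]
  refine Finset.sum_congr rfl fun y _ => ?_
  rw [Complex.re_mul_ofReal]
  have h4 : (star (v x) * v y).re = (v x).re * (v y).re + (v x).im * (v y).im := by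
    have : star (v x) = (starRingEnd ℂ) (v x) := rfl
    rw [this, Complex.mul_re, Complex.conj_re, Complex.conj_im]
    ring
  rw [h4]
  ring

theorem tnorm {ι : Type} [Fintype ι] [DecidableEq ι] (H0 : Matrix ι ι ℂ) (hH : RealSym H0) (z : ℂ)
    (hz : 0 < z.im) (h : ι → ℝ) (B : Finset ι) (A : ℝ)
    (hA : ∀ u : ι → ℝ, u ⬝ᵥ ((fun x y => if x ∈ B ∧ y ∈ B then (res H0 z h x y).im else 0 :
      Matrix ι ι ℝ) *ᵥ u) ≤ A * ∑ x, u x ^ 2) (ρ : ι → ℂ) :
    ∑ x ∈ B, ‖(res H0 z h *ᵥ ρ) x‖ ^ 2 ≤ A / z.im * ∑ x, ‖ρ x‖ ^ 2 := by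
  classical
  rcases isEmpty_or_nonempty ι with hemp | ⟨⟨x0⟩⟩
  · have hB : B = ∅ := by
      ext x
      exact (hemp.false x).elim
    subst hB
    simp
  have hA0 : 0 ≤ A := tn_A_nonneg hH hz h B A hA x0
  set G := res H0 z h with hG
  set v : ι → ℂ := fun x => if x ∈ B then (G *ᵥ ρ) x else 0 with hv
  set V := ∑ x, ‖v x‖ ^ 2 with hV
  have hV0 : 0 ≤ V := Finset.sum_nonneg fun _ _ => by positivity
  have hVB : ∑ x ∈ B, ‖(G *ᵥ ρ) x‖ ^ 2 = V := by
    rw [hV, ← Finset.sum_filter_add_sum_filter_not univ (fun x => x ∈ B)]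
    have h1 : ∑ x ∈ univ.filter (fun x => ¬ x ∈ B), ‖v x‖ ^ 2 = 0 := by
      refine Finset.sum_eq_zero fun x hx => ?_
      rw [Finset.mem_filter] at hx
      simp [hv, hx.2]
    rw [h1, add_zero]
    have h2 : univ.filter (fun x => x ∈ B) = B := by
      ext x
      simp
    rw [h2]
    refine Finset.sum_congr rfl fun x hx => ?_
    simp [hv, hx]
  -- `V = ⟨G* v, ρ⟩`
  have h1 : (V : ℂ) = ∑ u, star (∑ x, star (G x u) * v x) * ρ u := by
    rw [hV, Complex.ofReal_sum]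
    have h2 : ∀ x, ((‖v x‖ ^ 2 : ℝ) : ℂ) = ∑ u, star (v x) * (G x u * ρ u) := by
      intro x
      rw [← Finset.mul_sum, Complex.ofReal_pow, ← Complex.conj_mul']
      have h3 : (starRingEnd ℂ) (v x) = star (v x) := rfl
      rw [h3]
      by_cases hx : x ∈ B
      · have : v x = ∑ u, G x u * ρ u := by
          simp only [hv, if_pos hx]
          rfl
        rw [this]
      · simp [hv, hx]
    simp only [h2]
    rw [Finset.sum_comm]
    refine Finset.sum_congr rfl fun u _ => ?_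
    rw [star_sum, Finset.sum_mul]
    refine Finset.sum_congr rfl fun x _ => ?_
    rw [star_mul', star_star]
    ring
  have h2 : V ≤ ∑ u, ‖∑ x, star (G x u) * v x‖ * ‖ρ u‖ := by
    have h3 : V = ‖(V : ℂ)‖ := by
      rw [Complex.norm_real, Real.norm_eq_abs, abs_of_nonneg hV0]
    rw [h3, h1]
    refine (norm_sum_le _ _).trans (le_of_eq ?_)
    refine Finset.sum_congr rfl fun u _ => ?_
    rw [norm_mul, norm_star]
  have h3 : ∑ u, ‖∑ x, star (G x u) * v x‖ ^ 2 ≤ A / z.im * V := by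
    rw [tn_norm_adj hH hz h v, div_mul_eq_mul_div]
    refine div_le_div_of_nonneg_right ?_ hz.le
    have h4 : ∀ x, v x ≠ 0 → x ∈ B := by
      intro x hx
      by_contra hc
      exact hx (by simp [hv, hc])
    have h5 : ∑ x, ∑ y, (res H0 z h x y).im * ((v x).re * (v y).re + (v x).im * (v y).im) =
        (fun x => (v x).re) ⬝ᵥ ((fun x y => if x ∈ B ∧ y ∈ B then (res H0 z h x y).im else 0 :
          Matrix ι ι ℝ) *ᵥ (fun x => (v x).re)) +
        (fun x => (v x).im) ⬝ᵥ ((fun x y => if x ∈ B ∧ y ∈ B then (res H0 z h x y).im else 0 :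
          Matrix ι ι ℝ) *ᵥ (fun x => (v x).im)) := by
      simp only [dotProduct, Matrix.mulVec, Finset.mul_sum]
      rw [← Finset.sum_add_distrib]
      refine Finset.sum_congr rfl fun x _ => ?_
      rw [← Finset.sum_add_distrib]
      refine Finset.sum_congr rfl fun y _ => ?_
      by_cases hx : x ∈ B
      · by_cases hy : y ∈ B
        · rw [if_pos ⟨hx, hy⟩]
          ring
        · have : v y = 0 := by simp [hv, hy]
          simp [this]
      · have : v x = 0 := by simp [hv, hx]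
        simp [this]
    rw [h5]
    have h6 := hA (fun x => (v x).re)
    have h7 := hA (fun x => (v x).im)
    have h8 : V = ∑ x, (v x).re ^ 2 + ∑ x, (v x).im ^ 2 := by
      rw [hV, ← Finset.sum_add_distrib]
      refine Finset.sum_congr rfl fun x _ => ?_
      rw [← Complex.normSq_eq_norm_sq, Complex.normSq_apply]
      ring
    rw [h8, mul_add]
    exact add_le_add h6 h7
  have h4 : (∑ u, ‖∑ x, star (G x u) * v x‖ * ‖ρ u‖) ^ 2 ≤
      (∑ u, ‖∑ x, star (G x u) * v x‖ ^ 2) * ∑ u, ‖ρ u‖ ^ 2 :=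
    Finset.sum_mul_sq_le_sq_mul_sq _ _ _
  rw [hVB]
  have hr0 : 0 ≤ ∑ u, ‖ρ u‖ ^ 2 := Finset.sum_nonneg fun _ _ => by positivity
  rcases hV0.eq_or_lt with h0 | h0
  · rw [← h0]
    positivity
  · have h5 : V ^ 2 ≤ (A / z.im * V) * ∑ u, ‖ρ u‖ ^ 2 :=
      ((pow_le_pow_left₀ hV0 h2 2).trans h4).trans (mul_le_mul_of_nonneg_right h3 hr0)
    have h6 : V * V ≤ V * (A / z.im * ∑ u, ‖ρ u‖ ^ 2) := by nlinarith
    exact le_of_mul_le_mul_left h6 h0

/-- the identity `φ = G (H - z) φ` in the form needed -/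
theorem tnorm' {ι : Type} [Fintype ι] [DecidableEq ι] (H0 : Matrix ι ι ℂ) (hH : RealSym H0)
    (E η : ℝ) (hη : 0 < η) (h : ι → ℝ) (B : Finset ι) (A : ℝ) (hA0 : 0 ≤ A)
    (hA : ∀ u : ι → ℝ, u ⬝ᵥ ((fun x y => if x ∈ B ∧ y ∈ B then
      (res H0 ((E : ℂ) + (η : ℂ) * Complex.I) h x y).im else 0 :
      Matrix ι ι ℝ) *ᵥ u) ≤ A * ∑ x, u x ^ 2) (φ : ι → ℂ) :
    ∑ x ∈ B, ‖φ x‖ ^ 2 ≤ A / η * (2 * ∑ x, ‖(H0 *ᵥ φ) x + ((h x : ℝ) : ℂ) * φ x -
      (E : ℂ) * φ x‖ ^ 2 + 2 * η ^ 2 * ∑ x, ‖φ x‖ ^ 2) := by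
  set z : ℂ := (E : ℂ) + (η : ℂ) * Complex.I with hz
  have hzim : z.im = η := by simp [hz]
  have hz0 : 0 < z.im := by rw [hzim]; exact hη
  set ρ : ι → ℂ := (H0 + Matrix.diagonal (fun x => ((h x : ℝ) : ℂ)) - z • (1 : Matrix ι ι ℂ)) *ᵥ φ
    with hρ
  have h1 : res H0 z h *ᵥ ρ = φ := by
    rw [hρ, Matrix.mulVec_mulVec, res_mul hH hz0 h, Matrix.one_mulVec]
  have h2 := tnorm H0 hH z hz0 h B A hA ρ
  rw [h1, hzim] at h2
  refine h2.trans (mul_le_mul_of_nonneg_left ?_ (div_nonneg hA0 hη.le))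
  have h3 : ∀ x, ρ x = ((H0 *ᵥ φ) x + ((h x : ℝ) : ℂ) * φ x - (E : ℂ) * φ x) -
      ((η : ℂ) * Complex.I) * φ x := by
    intro x
    rw [hρ, Matrix.sub_mulVec, Matrix.add_mulVec, Matrix.smul_mulVec, Matrix.one_mulVec,
      Pi.sub_apply, Pi.add_apply, Pi.smul_apply, Matrix.mulVec_diagonal, smul_eq_mul, hz]
    ring
  rw [Finset.mul_sum, Finset.mul_sum, ← Finset.sum_add_distrib]
  refine Finset.sum_le_sum fun x _ => ?_
  rw [h3]
  set a := (H0 *ᵥ φ) x + ((h x : ℝ) : ℂ) * φ x - (E : ℂ) * φ x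
  have h4 : ‖((η : ℂ) * Complex.I) * φ x‖ = η * ‖φ x‖ := by
    rw [norm_mul, norm_mul, Complex.norm_I, mul_one, Complex.norm_real, Real.norm_eq_abs,
      abs_of_pos hη]
  have h5 : ‖a - ((η : ℂ) * Complex.I) * φ x‖ ≤ ‖a‖ + η * ‖φ x‖ := by
    rw [← h4]
    exact norm_sub_le _ _
  have h6 : ‖a - ((η : ℂ) * Complex.I) * φ x‖ ^ 2 ≤ (‖a‖ + η * ‖φ x‖) ^ 2 :=
    pow_le_pow_left₀ (norm_nonneg _) h5 2
  nlinarith [sq_nonneg (‖a‖ - η * ‖φ x‖)]

end Pool.Agent.Kin
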