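import Pool.Agent.Kin.Cut
import Pool.Agent.Kin.TNorm

/-! KIN TRANSFER: from the torus to `ℤ^d` (section C1). -/

open Matrix Finset

noncomputable section

namespace Pool.Agent.Kin

theorem transfer (d : ℕ) : ∃ C : ℝ, 0 < C ∧ ∀ (L : ℕ) [NeZero L] (R : ℕ)
    (lam E η A : ℝ) (v : (Fin d → ℤ) → ℝ) (x : Fin d → ℤ) (ψ : (Fin d → ℤ) → ℂ),
    8 * (R + 1) ≤ L → 0 < η → 0 ≤ A →
    (∀ u : Tor d L → ℝ, u ⬝ᵥ (JT d L R E η (fun w => lam * v (x + rep w)) *ᵥ u) ≤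
      A * ∑ y, u y ^ 2) →
    massZ x R ψ ≤ C * (A / η) * (massZ x L (fun y => hamZ lam v ψ y - (E : ℂ) * ψ y) +
      (1 / (L : ℝ) ^ 2 + η ^ 2) * massZ x L ψ) := by
  obtain ⟨Cc, hCc, hcut⟩ := ham_phiT d
  refine ⟨8 * Cc + 8, by positivity, ?_⟩
  intro L _ R lam E η A v x ψ hL hη hA hform
  have h1 := mass_le_phiT L R hL x ψ
  have h2 := tnorm' (H0T d L) H0T_realSym E η hη (fun w => lam * v (x + rep w)) (ballT d R) A hA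
    hform (phiT L x ψ)
  have h3 := hcut L lam E v x ψ (by omega)
  have h4 := sum_phiT_le L x ψ
  set m1 := massZ x L (fun y => hamZ lam v ψ y - (E : ℂ) * ψ y) with hm1
  set m2 := massZ x L ψ with hm2
  have hm1' : 0 ≤ m1 := by rw [hm1]; unfold massZ; positivity
  have hm2' : 0 ≤ m2 := by rw [hm2]; unfold massZ; positivity
  have hAη : 0 ≤ A / η := by positivity
  have h5 : 2 * ∑ w : Tor d L, ‖(H0T d L *ᵥ phiT L x ψ) w +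
      ((lam * v (x + rep w) : ℝ) : ℂ) * phiT L x ψ w - (E : ℂ) * phiT L x ψ w‖ ^ 2 +
      2 * η ^ 2 * ∑ w : Tor d L, ‖phiT L x ψ w‖ ^ 2 ≤
      2 * (Cc * (m1 + m2 / (L : ℝ) ^ 2)) + 2 * η ^ 2 * m2 := by
    have : 0 ≤ 2 * η ^ 2 := by positivity
    exact add_le_add (by linarith) (mul_le_mul_of_nonneg_left h4 this)
  have h6 : 2 * (Cc * (m1 + m2 / (L : ℝ) ^ 2)) + 2 * η ^ 2 * m2 ≤
      (2 * Cc + 2) * (m1 + (1 / (L : ℝ) ^ 2 + η ^ 2) * m2) := by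
    have e : (2 * Cc + 2) * (m1 + (1 / (L : ℝ) ^ 2 + η ^ 2) * m2) -
        (2 * (Cc * (m1 + m2 / (L : ℝ) ^ 2)) + 2 * η ^ 2 * m2) =
        2 * m1 + 2 * (m2 / (L : ℝ) ^ 2) + 2 * Cc * (η ^ 2 * m2) := by ring
    have : 0 ≤ 2 * m1 + 2 * (m2 / (L : ℝ) ^ 2) + 2 * Cc * (η ^ 2 * m2) := by positivity
    linarith
  calc massZ x R ψ ≤ 4 * ∑ w ∈ ballT d R, ‖phiT L x ψ w‖ ^ 2 := h1
    _ ≤ 4 * (A / η * ((2 * Cc + 2) * (m1 + (1 / (L : ℝ) ^ 2 + η ^ 2) * m2))) := by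
        refine mul_le_mul_of_nonneg_left (h2.trans ?_) (by norm_num)
        exact mul_le_mul_of_nonneg_left (h5.trans h6) hAη
    _ = (8 * Cc + 8) * (A / η) * (m1 + (1 / (L : ℝ) ^ 2 + η ^ 2) * m2) := by ring

end Pool.Agent.Kin
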