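import Pool.Agent.Kin.TProb
import Pool.Agent.Kin.Transfer
import Pool.Agent.Kin.Law
import Pool.Agent.Helper2.AM.Union

/-! KIN FINALK: the theorem on `ℤ^d` (section C2). -/

open Finset Matrix MeasureTheory ProbabilityTheory
open scoped ENNReal

noncomputable section

namespace Pool.Agent.Kin

/-- the bad event for one centre and one energy -/
def badK {Ω : Type} {d : ℕ} (ω : (Fin d → ℤ) → Ω → ℝ) (c : ℝ) (L : ℕ) [NeZero L] (R : ℕ)
    (E η lam A C1 : ℝ) (x : Fin d → ℤ) : Set Ω :=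
  {s | ¬ ((∀ u : Tor d L → ℝ,
    u ⬝ᵥ (JT d L R E η (fun w => lam * (ω (x + rep w) s - c)) *ᵥ u) ≤ A * ∑ y, u y ^ 2) ∧
    ∀ y, ‖res (H0T d L) ((E : ℂ) + (η : ℂ) * Complex.I)
      (fun w => lam * (ω (x + rep w) s - c)) y y‖ ≤ C1)}

lemma badK_prob {Ω : Type} [MeasurableSpace Ω] {P : Measure Ω} [IsProbabilityMeasure P] {d : ℕ}
    {ω : (Fin d → ℤ) → Ω → ℝ} (hi : iIndepFun ω P) (hid : ∀ x, IdentDistrib (ω x) (ω 0) P P)
    (c : ℝ) (L : ℕ) [NeZero L] (R : ℕ) (E η lam A C1 : ℝ) (x : Fin d → ℤ) (p : ℝ≥0∞)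
    (hp : (Measure.pi fun _ : Tor d L => P.map fun s => ω 0 s - c) {h | ¬ ((∀ u : Tor d L → ℝ,
        u ⬝ᵥ (JT d L R E η (fun w => lam * h w) *ᵥ u) ≤ A * ∑ x, u x ^ 2) ∧
        ∀ y, ‖res (H0T d L) ((E : ℂ) + (η : ℂ) * Complex.I) (fun w => lam * h w) y y‖ ≤ C1)}
        ≤ p) :
    P (badK ω c L R E η lam A C1 x) ≤ p := by
  obtain ⟨h1, h2⟩ := law_torus P ω hi hid L x c
  refine le_trans ?_ hp
  rw [← h2]
  exact Measure.le_map_apply h1 _

lemma law_bdd {Ω : Type} [MeasurableSpace Ω] {P : Measure Ω} [IsProbabilityMeasure P]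
    {X : Ω → ℝ} (hX : AEMeasurable X P) {M : ℝ} (hM : ∀ᵐ s ∂P, |X s| ≤ M) :
    |∫ s, X s ∂P| ≤ M ∧ (∀ᵐ x ∂(P.map fun s => X s - ∫ s', X s' ∂P), |x| ≤ 2 * M) ∧
    ∫ x, x ∂(P.map fun s => X s - ∫ s', X s' ∂P) = 0 ∧
    ∫ x, x ^ 2 ∂(P.map fun s => X s - ∫ s', X s' ∂P) =
      ∫ s, (X s - ∫ s', X s' ∂P) ^ 2 ∂P := by
  have hint : Integrable X P := Integrable.of_bound hX.aestronglyMeasurable M
    (by filter_upwards [hM] with s hs; simpa using hs)
  have h1 : |∫ s, X s ∂P| ≤ M := by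
    have := norm_integral_le_of_norm_le_const (μ := P) (f := X) (C := M)
      (by filter_upwards [hM] with s hs; simpa using hs)
    simpa using this
  have hm : AEMeasurable (fun s => X s - ∫ s', X s' ∂P) P := hX.sub_const _
  refine ⟨h1, ?_, ?_, ?_⟩
  · refine (ae_map_iff hm (measurableSet_le (f := fun x : ℝ => |x|) measurable_id.abs
      measurable_const)).2 ?_
    filter_upwards [hM] with s hs
    calc |X s - ∫ s', X s' ∂P| ≤ |X s| + |∫ s', X s' ∂P| := abs_sub _ _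
      _ ≤ 2 * M := by linarith
  · rw [integral_map hm (f := fun x : ℝ => x) measurable_id.aestronglyMeasurable]
    rw [integral_sub hint (integrable_const _)]
    simp
  · rw [integral_map hm (by fun_prop)]

/-- the form bound for the ball of radius `0` -/
lemma form_zero (d L : ℕ) [NeZero L] (E η C1 : ℝ) (h : Tor d L → ℝ)
    (hC : ∀ y, ‖res (H0T d L) ((E : ℂ) + (η : ℂ) * Complex.I) h y y‖ ≤ C1)
    (u : Tor d L → ℝ) : u ⬝ᵥ (JT d L 0 E η h *ᵥ u) ≤ C1 * ∑ y, u y ^ 2 := by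
  have hb : ∀ x : Tor d L, x ∈ ballT d 0 ↔ x = 0 := by
    intro x
    simp only [ballT, Finset.mem_filter, Finset.mem_univ, true_and, Nat.cast_zero, abs_nonpos_iff,
      ZMod.valMinAbs_eq_zero]
    exact ⟨fun h => funext h, fun h j => by rw [h]; rfl⟩
  have h1 : u ⬝ᵥ (JT d L 0 E η h *ᵥ u) =
      (res (H0T d L) ((E : ℂ) + (η : ℂ) * Complex.I) h 0 0).im * u 0 ^ 2 := by
    simp only [JT, hb, dotProduct, Matrix.mulVec]
    rw [Finset.sum_eq_single 0]
    · rw [Finset.sum_eq_single 0]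
      · simp only [and_self, if_true]
        ring
      · intro y _ hy
        simp [hy]
      · simp
    · intro x _ hx
      simp [hx]
    · simp
  rw [h1]
  have h2 : (res (H0T d L) ((E : ℂ) + (η : ℂ) * Complex.I) h 0 0).im ≤ C1 :=
    (le_abs_self _).trans ((Complex.abs_im_le_norm _).trans (hC 0))
  have h3 : 0 ≤ C1 := (norm_nonneg _).trans (hC 0)
  have h4 : u 0 ^ 2 ≤ ∑ y, u y ^ 2 :=
    Finset.single_le_sum (f := fun y => u y ^ 2) (fun y _ => sq_nonneg (u y)) (Finset.mem_univ 0)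
  calc (res (H0T d L) ((E : ℂ) + (η : ℂ) * Complex.I) h 0 0).im * u 0 ^ 2 ≤ C1 * u 0 ^ 2 :=
        mul_le_mul_of_nonneg_right h2 (sq_nonneg _)
    _ ≤ C1 * ∑ y, u y ^ 2 := mul_le_mul_of_nonneg_left h4 h3

lemma massZ_zero {d : ℕ} (x : Fin d → ℤ) (ψ : (Fin d → ℤ) → ℂ) : massZ x 0 ψ = ‖ψ x‖ ^ 2 := by
  unfold massZ
  have : (Fintype.piFinset fun j => Finset.Icc (x j - ((0 : ℕ) : ℤ)) (x j + ((0 : ℕ) : ℤ))) =
      {x} := by
    ext y
    simp only [Fintype.mem_piFinset, Nat.cast_zero, sub_zero, add_zero, Finset.Icc_self,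
      Finset.mem_singleton]
    exact ⟨fun h => funext h, fun h j => by rw [h]⟩
  rw [this, Finset.sum_singleton]

lemma hamZ_shift {d : ℕ} (lam c : ℝ) (V : (Fin d → ℤ) → ℝ) (ψ : (Fin d → ℤ) → ℂ)
    (x : Fin d → ℤ) :
    hamZ lam (fun z => V z - c) ψ x = hamZ lam V ψ x - ((lam * c : ℝ) : ℂ) * ψ x := by
  unfold hamZ
  push_cast
  ring

lemma massZ_nonneg' {d : ℕ} (x : Fin d → ℤ) (r : ℕ) (ψ : (Fin d → ℤ) → ℂ) : 0 ≤ massZ x r ψ :=
  Finset.sum_nonneg fun _ _ => by positivity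

/-- change of the potential by a constant and of the energy -/
lemma massZ_shift {d : ℕ} (x : Fin d → ℤ) (r : ℕ) (lam c E En : ℝ) (V : (Fin d → ℤ) → ℝ)
    (ψ : (Fin d → ℤ) → ℂ) :
    massZ x r (fun y => hamZ lam (fun z => V z - c) ψ y - (En : ℂ) * ψ y) ≤
      2 * massZ x r (fun y => hamZ lam V ψ y - (E : ℂ) * ψ y) +
        2 * (E - lam * c - En) ^ 2 * massZ x r ψ := by
  unfold massZ
  rw [Finset.mul_sum, Finset.mul_sum, ← Finset.sum_add_distrib]
  refine Finset.sum_le_sum fun y _ => ?_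
  beta_reduce
  have h1 : hamZ lam (fun z => V z - c) ψ y - (En : ℂ) * ψ y =
      (hamZ lam V ψ y - (E : ℂ) * ψ y) + (((E - lam * c - En : ℝ) : ℂ)) * ψ y := by
    rw [hamZ_shift]
    push_cast
    ring
  rw [h1]
  have h2 := norm_add_le (hamZ lam V ψ y - (E : ℂ) * ψ y) (((E - lam * c - En : ℝ) : ℂ) * ψ y)
  have h3 : ‖(((E - lam * c - En : ℝ) : ℂ)) * ψ y‖ ^ 2 = (E - lam * c - En) ^ 2 * ‖ψ y‖ ^ 2 := by
    rw [norm_mul, mul_pow, Complex.norm_real, Real.norm_eq_abs, sq_abs]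
  calc ‖(hamZ lam V ψ y - (E : ℂ) * ψ y) + (((E - lam * c - En : ℝ) : ℂ)) * ψ y‖ ^ 2
      ≤ (‖hamZ lam V ψ y - (E : ℂ) * ψ y‖ + ‖(((E - lam * c - En : ℝ) : ℂ)) * ψ y‖) ^ 2 :=
        pow_le_pow_left₀ (norm_nonneg _) h2 2
    _ ≤ 2 * ‖hamZ lam V ψ y - (E : ℂ) * ψ y‖ ^ 2 +
        2 * ‖(((E - lam * c - En : ℝ) : ℂ)) * ψ y‖ ^ 2 := by
        nlinarith [sq_nonneg (‖hamZ lam V ψ y - (E : ℂ) * ψ y‖ -
          ‖(((E - lam * c - En : ℝ) : ℂ)) * ψ y‖)]
    _ = _ := by rw [h3]; ring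

/-- numbers -/
lemma finalK_num {kap lam : ℝ} (hk : 0 < kap) (hk1 : kap ≤ 1 / 8) (h0 : 0 < lam)
    (h1 : lam ≤ 1 / 2) :
    8 * (⌊(1 / lam) ^ (2 + kap / 32)⌋₊ + 1) ≤ ⌈(1 / lam) ^ 10⌉₊ ∧
    lam ^ (-10 : ℝ) ≤ ⌈(1 / lam) ^ 10⌉₊ ∧ (⌈(1 / lam) ^ 10⌉₊ : ℝ) ≤ 2 * lam ^ (-10 : ℝ) ∧
    ((⌊(1 / lam) ^ (2 + kap / 32)⌋₊ : ℕ) : ℝ) ≤ 2 * lam ^ (-(2 + kap / 8)) := by
  have hl1 : 1 ≤ 1 / lam := by rw [le_div_iff₀ h0]; linarith
  have hl2 : 2 ≤ 1 / lam := by rw [le_div_iff₀ h0]; linarith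
  have e10 : lam ^ (-10 : ℝ) = (1 / lam) ^ 10 := by
    rw [Real.rpow_neg h0.le]
    norm_num
  have h10 : (1 : ℝ) ≤ (1 / lam) ^ 10 := one_le_pow₀ hl1
  have hfl : ((⌊(1 / lam) ^ (2 + kap / 32)⌋₊ : ℕ) : ℝ) ≤ (1 / lam) ^ (2 + kap / 32) :=
    Nat.floor_le (by positivity)
  have hp3 : (1 / lam) ^ (2 + kap / 32) ≤ (1 / lam) ^ 3 := by
    rw [← Real.rpow_natCast (1 / lam) 3]
    exact Real.rpow_le_rpow_of_exponent_le hl1 (by push_cast; linarith)
  refine ⟨?_, ?_, ?_, ?_⟩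
  · have h3 : (8 * (⌊(1 / lam) ^ (2 + kap / 32)⌋₊ + 1 : ℝ)) ≤ (⌈(1 / lam) ^ 10⌉₊ : ℝ) := by
      have h4 : (1 : ℝ) ≤ (1 / lam) ^ 3 := one_le_pow₀ hl1
      have h5 : 16 * (1 / lam) ^ 3 ≤ (1 / lam) ^ 10 := by
        have h6 : (16 : ℝ) ≤ (1 / lam) ^ 7 := by
          calc (16 : ℝ) ≤ 2 ^ 7 := by norm_num
            _ ≤ (1 / lam) ^ 7 := pow_le_pow_left₀ (by norm_num) hl2 7
        calc 16 * (1 / lam) ^ 3 ≤ (1 / lam) ^ 7 * (1 / lam) ^ 3 :=
              mul_le_mul_of_nonneg_right h6 (by positivity)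
          _ = (1 / lam) ^ 10 := by ring
      calc (8 * (⌊(1 / lam) ^ (2 + kap / 32)⌋₊ + 1 : ℝ)) ≤ 16 * (1 / lam) ^ 3 := by linarith
        _ ≤ (1 / lam) ^ 10 := h5
        _ ≤ _ := Nat.le_ceil _
    exact_mod_cast h3
  · rw [e10]; exact Nat.le_ceil _
  · rw [e10]
    have := (Nat.ceil_lt_add_one (a := (1 / lam) ^ 10) (by positivity)).le
    linarith
  · have h3 : (1 / lam) ^ (2 + kap / 32) ≤ lam ^ (-(2 + kap / 8)) := by
      rw [Real.rpow_neg h0.le, ← Real.inv_rpow h0.le, ← one_div]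
      exact Real.rpow_le_rpow_of_exponent_le hl1 (by linarith)
    have h4 : (0 : ℝ) ≤ lam ^ (-(2 + kap / 8)) := by positivity
    linarith

theorem finalK (d : ℕ) (hd : 3 ≤ d) (δ M v : ℝ) (hδ : 0 < δ) (hv : 0 < v) (K : ℕ) :
    ∃ κ lam0 : ℝ, 0 < κ ∧ 0 < lam0 ∧ ∀ (Ω : Type) [MeasurableSpace Ω] (P : Measure Ω)
      [IsProbabilityMeasure P] (ω : (Fin d → ℤ) → Ω → ℝ), iIndepFun ω P →
      (∀ x, IdentDistrib (ω x) (ω 0) P P) → (∀ x, ∀ᵐ s ∂P, |ω x s| ≤ M) →
      v ≤ ∫ s, (ω 0 s - ∫ s', ω 0 s' ∂P) ^ 2 ∂P →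
      ∀ lam : ℝ, 0 < lam → lam ≤ lam0 →
      ∃ G : Set Ω, MeasurableSet G ∧ P Gᶜ ≤ ENNReal.ofReal (lam ^ K) ∧
      ∀ s ∈ G, ∀ x : Fin d → ℤ, (∀ j, (|x j| : ℝ) ≤ (1 / lam) ^ K) →
        ∀ E : ℝ, δ ≤ E → E ≤ 4 * d - δ → ∀ ψ : (Fin d → ℤ) → ℂ,
        massZ x ⌊(1 / lam) ^ (2 + κ)⌋₊ ψ ≤ lam ^ κ *
          (massZ x ⌈(1 / lam) ^ 10⌉₊ ψ + (1 / lam) ^ 6 * massZ x ⌈(1 / lam) ^ 10⌉₊
            (fun y => hamZ lam (fun z => ω z s) ψ y - (E : ℂ) * ψ y)) ∧
        ‖ψ x‖ ^ 2 ≤ lam ^ (2 + κ) *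
          (massZ x ⌈(1 / lam) ^ 10⌉₊ ψ + (1 / lam) ^ 6 * massZ x ⌈(1 / lam) ^ 10⌉₊
            (fun y => hamZ lam (fun z => ω z s) ψ y - (E : ℂ) * ψ y)) := by
  obtain ⟨C, hC, htr⟩ := transfer d
  obtain ⟨kap, lam1, C1, hk0, hk1, hlam1, hC1, hprob⟩ := torus_prob d hd (δ / 2) (2 * |M| + 1) v
    (by positivity) (by positivity) hv (K + K * d + 11)
  set lam0 : ℝ := min (min lam1 (1 / 2)) (min (min (δ / (4 * (|M| + 1))) (δ / 4))
    (min (min (1 / (3 ^ d * (4 * d + 3))) ((1 / (4 * (C * C1))) ^ (32 / kap)))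
      ((1 / (8 * C)) ^ (32 / kap)))) with hlam0
  have hd0 : (0 : ℝ) < d := by
    have : 0 < d := by omega
    exact_mod_cast this
  refine ⟨kap / 32, lam0, by positivity, by positivity, ?_⟩
  intro Ω _ P _ ω hi hid hM hvar lam h0 hle
  have hl1 : lam ≤ lam1 := hle.trans ((min_le_left _ _).trans (min_le_left _ _))
  have hl2 : lam ≤ 1 / 2 := hle.trans ((min_le_left _ _).trans (min_le_right _ _))
  have hl3 : lam ≤ δ / (4 * (|M| + 1)) :=
    hle.trans ((min_le_right _ _).trans ((min_le_left _ _).trans (min_le_left _ _)))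
  have hl4 : lam ≤ δ / 4 :=
    hle.trans ((min_le_right _ _).trans ((min_le_left _ _).trans (min_le_right _ _)))
  have hl5 : lam ≤ 1 / (3 ^ d * (4 * d + 3)) :=
    hle.trans ((min_le_right _ _).trans ((min_le_right _ _).trans ((min_le_left _ _).trans
      (min_le_left _ _))))
  have hl7 : lam ≤ (1 / (4 * (C * C1))) ^ (32 / kap) :=
    hle.trans ((min_le_right _ _).trans ((min_le_right _ _).trans ((min_le_left _ _).trans
      (min_le_right _ _))))
  have hl6 : lam ≤ (1 / (8 * C)) ^ (32 / kap) :=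
    hle.trans ((min_le_right _ _).trans ((min_le_right _ _).trans (min_le_right _ _)))
  obtain ⟨n1, n2, n3, n4⟩ := finalK_num hk0 hk1 h0 hl2
  set R : ℕ := ⌊(1 / lam) ^ (2 + kap / 32)⌋₊ with hR
  set L : ℕ := ⌈(1 / lam) ^ 10⌉₊ with hL
  have hLne : NeZero L := ⟨by omega⟩
  set c : ℝ := ∫ s', ω 0 s' ∂P with hc
  set η : ℝ := lam ^ (2 + kap) with hη
  have hη0 : 0 < η := by positivity
  set A : ℝ := 2 * lam ^ (kap / 16) / lam ^ (2 + kap) with hA
  have hA0 : 0 ≤ A := by positivity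
  obtain ⟨b1, b2, b3, b4⟩ := law_bdd ((hid 0).aemeasurable_fst) (hM 0)
  rw [← hc] at b1 b2 b3 b4
  have hcM : |c| ≤ |M| := b1.trans (le_abs_self M)
  set μ : Measure ℝ := P.map fun s => ω 0 s - c with hμ
  have hμp : IsProbabilityMeasure μ :=
    Measure.isProbabilityMeasure_map (((hid 0).aemeasurable_fst).sub_const c)
  have hμb : ∀ᵐ x ∂μ, |x| ≤ 2 * |M| + 1 := by
    filter_upwards [b2] with x hx
    have := le_abs_self M
    linarith
  have hvar' : v ≤ ∫ x, x ^ 2 ∂μ := by rw [b4]; exact hvar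
  set Es : Finset ℝ := (Helper2.AM.net 0 (lam ^ 10) ⌊(4 * d + 2 * 0) / lam ^ 10⌋₊).filter
    (fun E => δ / 2 ≤ E ∧ E ≤ 4 * d - δ / 2) with hEs
  set Ctr : Finset (Fin d → ℤ) := Helper2.AM.centres d ((1 / lam) ^ K) with hCtr
  set B : Set Ω := ⋃ x0 ∈ Ctr, ⋃ E0 ∈ Es, badK ω c L R E0 η lam A C1 x0 with hB
  have hPB : P B ≤ ENNReal.ofReal (lam ^ K) := by
    set q : ℝ := lam ^ (K + K * d + 11) with hq
    have hq0 : 0 ≤ q := by positivity
    have e0 : P B ≤ ENNReal.ofReal (Ctr.card * Es.card * q) := by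
      calc P B ≤ ∑ x0 ∈ Ctr, P (⋃ E0 ∈ Es, badK ω c L R E0 η lam A C1 x0) :=
            measure_biUnion_finset_le _ _
        _ ≤ ∑ x0 ∈ Ctr, ∑ E0 ∈ Es, P (badK ω c L R E0 η lam A C1 x0) :=
            Finset.sum_le_sum fun x0 _ => measure_biUnion_finset_le _ _
        _ ≤ ∑ _x0 ∈ Ctr, ∑ _E0 ∈ Es, ENNReal.ofReal q := by
            refine Finset.sum_le_sum fun x0 _ => Finset.sum_le_sum fun E0 hE0 => ?_
            obtain ⟨-, hE1, hE2⟩ := Finset.mem_filter.1 hE0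
            exact badK_prob hi hid c L R E0 η lam A C1 x0 _
              (hprob L E0 lam R μ h0 hl1 n2 n3 hE1 hE2 n4 hμb b3 hvar')
        _ = ENNReal.ofReal (Ctr.card * Es.card * q) := by
            have e1 : ENNReal.ofReal ((Ctr.card : ℝ) * Es.card * q) =
                ENNReal.ofReal (Ctr.card : ℝ) * ENNReal.ofReal (Es.card : ℝ) *
                  ENNReal.ofReal q := by
              rw [ENNReal.ofReal_mul (by positivity), ENNReal.ofReal_mul (by positivity)]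
            rw [e1, Finset.sum_const, Finset.sum_const, nsmul_eq_mul, nsmul_eq_mul,
              ENNReal.ofReal_natCast, ENNReal.ofReal_natCast, mul_assoc]
    refine e0.trans (ENNReal.ofReal_le_ofReal ?_)
    have hinv1 : 1 ≤ 1 / lam := by rw [le_div_iff₀ h0]; linarith
    have c1 : (Ctr.card : ℝ) ≤ (3 * (1 / lam) ^ K) ^ d :=
      Helper2.AM.centres_card _ (one_le_pow₀ hinv1)
    have c2 : (Es.card : ℝ) ≤ (4 * d + 1) * (1 / lam) ^ 10 := by
      have h2 : (Es.card : ℝ) ≤ (⌊(4 * d + 2 * 0) / lam ^ 10⌋₊ : ℕ) + 1 := by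
        have h6 : Es.card ≤ ⌊((4 : ℝ) * d + 2 * 0) / lam ^ 10⌋₊ + 1 := by
          rw [hEs]
          exact (card_le_card (Finset.filter_subset _ _)).trans
            (Helper2.AM.net_card 0 (lam ^ 10) ⌊((4 : ℝ) * d + 2 * 0) / lam ^ 10⌋₊)
        exact_mod_cast h6
      have h3 : ((⌊(4 * d + 2 * 0) / lam ^ 10⌋₊ : ℕ) : ℝ) ≤ (4 * d + 2 * 0) / lam ^ 10 :=
        Nat.floor_le (by positivity)
      have h4 : (4 * (d : ℝ) + 2 * 0) / lam ^ 10 = 4 * d * (1 / lam) ^ 10 := by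
        rw [one_div, inv_pow]
        ring
      have h5 : (1 : ℝ) ≤ (1 / lam) ^ 10 := one_le_pow₀ hinv1
      linarith
    calc (Ctr.card : ℝ) * Es.card * q
        ≤ ((3 * (1 / lam) ^ K) ^ d * ((4 * d + 1) * (1 / lam) ^ 10)) * q := by gcongr
      _ = 3 ^ d * (4 * d + 1) * lam * lam ^ K * ((1 / lam) ^ (K * d) * lam ^ (K * d)) *
          ((1 / lam) ^ 10 * lam ^ 10) := by
          rw [hq, mul_pow, ← pow_mul, pow_add, pow_add]
          ring
      _ = 3 ^ d * (4 * d + 1) * lam * lam ^ K := by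
          rw [← mul_pow, ← mul_pow, one_div, inv_mul_cancel₀ h0.ne', one_pow, one_pow]
          ring
      _ ≤ 1 * lam ^ K := by
          apply mul_le_mul_of_nonneg_right _ (by positivity)
          rw [le_div_iff₀ (by positivity)] at hl5
          have : (0 : ℝ) < 3 ^ d := by positivity
          nlinarith
      _ = lam ^ K := one_mul _
  refine ⟨(toMeasurable P B)ᶜ, (measurableSet_toMeasurable P B).compl, ?_, ?_⟩
  · rw [compl_compl, measure_toMeasurable]
    exact hPB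
  · intro s hs x hx E hE1 hE2 ψ
    have hsB : s ∉ B := fun h => hs (subset_toMeasurable P B h)
    have hlc : |lam * c| ≤ δ / 4 := by
      rw [abs_mul, abs_of_pos h0]
      rw [le_div_iff₀ (by positivity)] at hl3
      have : 0 ≤ |M| := abs_nonneg M
      nlinarith
    have hlc' := abs_le.1 hlc
    have hl10 : lam ^ 10 ≤ lam := by
      calc lam ^ 10 ≤ lam ^ 1 := pow_le_pow_of_le_one h0.le (by linarith) (by norm_num)
        _ = lam := pow_one _
    obtain ⟨En, hEn, hEn'⟩ := Helper2.AM.exists_net d 0 (lam ^ 10) (E - lam * c) (by positivity)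
      (by linarith) (by linarith)
    have hEn'' := abs_le.1 hEn'
    have hEnE : En ∈ Es := by
      rw [hEs, Finset.mem_filter]
      exact ⟨hEn, by linarith, by linarith⟩
    have hxC : x ∈ Ctr := Helper2.AM.mem_centres _ x (by simpa using hx)
    have hform : (∀ u : Tor d L → ℝ,
        u ⬝ᵥ (JT d L R En η (fun w => lam * (ω (x + rep w) s - c)) *ᵥ u) ≤
          A * ∑ y, u y ^ 2) ∧
        ∀ y, ‖res (H0T d L) ((En : ℂ) + (η : ℂ) * Complex.I)
          (fun w => lam * (ω (x + rep w) s - c)) y y‖ ≤ C1 := by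
      by_contra hcon
      apply hsB
      rw [hB]
      simp only [Set.mem_iUnion]
      exact ⟨x, hxC, En, hEnE, hcon⟩
    have ht := htr L R lam En η A (fun z => ω z s - c) x ψ n1 hη0 hA0 hform.1
    have ht' := htr L 0 lam En η C1 (fun z => ω z s - c) x ψ (by omega) hη0 hC1.le
      (form_zero d L En η C1 _ hform.2)
    rw [massZ_zero] at ht'
    have hs2 := massZ_shift x L lam c E En (fun z => ω z s) ψ
    set m1 := massZ x L (fun y => hamZ lam (fun z => ω z s) ψ y - (E : ℂ) * ψ y) with hm1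
    set m2 := massZ x L ψ with hm2
    have hm1' : 0 ≤ m1 := massZ_nonneg' _ _ _
    have hm2' : 0 ≤ m2 := massZ_nonneg' _ _ _
    have hP0 : 0 < lam ^ (kap / 16) := by positivity
    have hη5 : lam ^ 6 ≤ η ^ 2 := by
      rw [hη, ← Real.rpow_natCast (lam ^ (2 + kap)) 2, ← Real.rpow_mul h0.le,
        ← Real.rpow_natCast lam 6]
      exact Real.rpow_le_rpow_of_exponent_ge h0 (by linarith) (by push_cast; linarith)
    have hAη : A / η = 2 * lam ^ (kap / 16) / η ^ 2 := by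
      rw [hA, ← hη]
      field_simp
    have hAη0 : 0 ≤ A / η := by positivity
    have k1 : A / η ≤ 2 * lam ^ (kap / 16) * (1 / lam) ^ 6 := by
      rw [hAη, one_div, inv_pow, ← div_eq_mul_inv]
      exact div_le_div_of_nonneg_left (by positivity) (by positivity) hη5
    have k2 : A / η * η ^ 2 = 2 * lam ^ (kap / 16) := by
      rw [hAη]
      field_simp
    have k3 : A / η * lam ^ 20 ≤ 2 * lam ^ (kap / 16) := by
      calc A / η * lam ^ 20 ≤ 2 * lam ^ (kap / 16) * (1 / lam) ^ 6 * lam ^ 20 :=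
            mul_le_mul_of_nonneg_right k1 (by positivity)
        _ = 2 * lam ^ (kap / 16) * lam ^ 14 := by
            field_simp
        _ ≤ 2 * lam ^ (kap / 16) * 1 :=
            mul_le_mul_of_nonneg_left (pow_le_one₀ h0.le (by linarith)) (by positivity)
        _ = _ := mul_one _
    have k4 : 1 / (L : ℝ) ^ 2 ≤ lam ^ 20 := by
      have h5 : (1 / lam) ^ 10 ≤ (L : ℝ) := Nat.le_ceil _
      calc 1 / (L : ℝ) ^ 2 ≤ 1 / ((1 / lam) ^ 10) ^ 2 := by
            apply one_div_le_one_div_of_le (by positivity)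
            exact pow_le_pow_left₀ (by positivity) h5 2
        _ = lam ^ 20 := by
            rw [one_div, one_div, inv_pow, inv_pow, inv_inv, ← pow_mul]
    have k5 : (E - lam * c - En) ^ 2 ≤ lam ^ 20 := by
      have : lam ^ 20 = (lam ^ 10) ^ 2 := by rw [← pow_mul]
      rw [this]
      exact sq_le_sq' (by linarith) (by linarith)
    have k6 : 8 * C * lam ^ (kap / 16) ≤ lam ^ (kap / 32) := by
      have h5 : lam ^ (kap / 32) ≤ 1 / (8 * C) := by
        calc lam ^ (kap / 32) ≤ ((1 / (8 * C)) ^ (32 / kap)) ^ (kap / 32) :=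
              Real.rpow_le_rpow h0.le hl6 (by positivity)
          _ = 1 / (8 * C) := by
              rw [← Real.rpow_mul (by positivity)]
              have : 32 / kap * (kap / 32) = 1 := by field_simp
              rw [this, Real.rpow_one]
      have h6 : lam ^ (kap / 16) = lam ^ (kap / 32) * lam ^ (kap / 32) := by
        rw [← Real.rpow_add h0]
        congr 1
        ring
      rw [h6]
      have h7 : 8 * C * lam ^ (kap / 32) ≤ 1 := by
        rw [le_div_iff₀ (by positivity)] at h5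
        linarith
      have h8 : 0 < lam ^ (kap / 32) := by positivity
      nlinarith
    refine ⟨?_, ?_⟩
    rotate_left
    · have hη5' : lam ^ 20 ≤ η ^ 2 := by
        refine le_trans ?_ hη5
        exact pow_le_pow_of_le_one h0.le (by linarith) (by norm_num)
      have j1 : (massZ x L (fun y => hamZ lam (fun z => ω z s - c) ψ y - (En : ℂ) * ψ y) +
          (1 / (L : ℝ) ^ 2 + η ^ 2) * m2) ≤ 2 * m1 + 4 * η ^ 2 * m2 := by
        have h5 : 2 * (E - lam * c - En) ^ 2 * m2 ≤ 2 * η ^ 2 * m2 :=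
          mul_le_mul_of_nonneg_right (by linarith) hm2'
        have h6 : (1 / (L : ℝ) ^ 2 + η ^ 2) * m2 ≤ (2 * η ^ 2) * m2 :=
          mul_le_mul_of_nonneg_right (by linarith) hm2'
        linarith
      have j2 : 4 * (C * C1) * lam ^ (kap / 32) ≤ 1 := by
        have h5 : lam ^ (kap / 32) ≤ 1 / (4 * (C * C1)) := by
          calc lam ^ (kap / 32) ≤ ((1 / (4 * (C * C1))) ^ (32 / kap)) ^ (kap / 32) :=
                Real.rpow_le_rpow h0.le hl7 (by positivity)
            _ = 1 / (4 * (C * C1)) := by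
                rw [← Real.rpow_mul (by positivity)]
                have : 32 / kap * (kap / 32) = 1 := by field_simp
                rw [this, Real.rpow_one]
        rw [le_div_iff₀ (by positivity)] at h5
        linarith
      have hT : 0 < lam ^ (2 + kap / 32) := by positivity
      have ht0 : 0 < lam ^ (kap / 32) := by positivity
      have j3 : η ≤ lam ^ (kap / 32) * lam ^ (2 + kap / 32) := by
        rw [hη, ← Real.rpow_add h0]
        exact Real.rpow_le_rpow_of_exponent_ge h0 (by linarith) (by linarith)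
      have j4 : 1 ≤ lam ^ (kap / 32) * (η * (lam ^ (2 + kap / 32) * (1 / lam) ^ 6)) := by
        have e6 : (1 / lam) ^ 6 = lam ^ (-6 : ℝ) := by
          rw [Real.rpow_neg h0.le]
          norm_num
        rw [e6, hη, ← Real.rpow_add h0, ← Real.rpow_add h0, ← Real.rpow_add h0]
        exact Real.one_le_rpow_of_pos_of_le_one_of_nonpos h0 (by linarith) (by linarith)
      have hCC : 0 < C * C1 := by positivity
      calc ‖ψ x‖ ^ 2 ≤ C * (C1 / η) * (massZ x L (fun y => hamZ lam (fun z => ω z s - c) ψ y -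
            (En : ℂ) * ψ y) + (1 / (L : ℝ) ^ 2 + η ^ 2) * m2) := ht'
        _ ≤ C * (C1 / η) * (2 * m1 + 4 * η ^ 2 * m2) :=
            mul_le_mul_of_nonneg_left j1 (by positivity)
        _ = 4 * (C * C1) * η * m2 + 2 * (C * C1) * m1 / η := by
            field_simp
            ring
        _ ≤ lam ^ (2 + kap / 32) * m2 + lam ^ (2 + kap / 32) * (1 / lam) ^ 6 * m1 := by
            apply add_le_add
            · apply mul_le_mul_of_nonneg_right _ hm2'
              calc 4 * (C * C1) * η ≤ 4 * (C * C1) * (lam ^ (kap / 32) * lam ^ (2 + kap / 32)) :=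
                    mul_le_mul_of_nonneg_left j3 (by positivity)
                _ = (4 * (C * C1) * lam ^ (kap / 32)) * lam ^ (2 + kap / 32) := by ring
                _ ≤ 1 * lam ^ (2 + kap / 32) := mul_le_mul_of_nonneg_right j2 hT.le
                _ = _ := one_mul _
            · rw [div_le_iff₀ hη0]
              have h5 : 2 * (C * C1) ≤ η * (lam ^ (2 + kap / 32) * (1 / lam) ^ 6) := by
                have h6 : 2 * (C * C1) * lam ^ (kap / 32) ≤ 1 := by
                  have : 0 < C * C1 * lam ^ (kap / 32) := by positivity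
                  linarith
                have h7 : 0 < η * (lam ^ (2 + kap / 32) * (1 / lam) ^ 6) := by positivity
                calc 2 * (C * C1) = 2 * (C * C1) * 1 := (mul_one _).symm
                  _ ≤ 2 * (C * C1) *
                      (lam ^ (kap / 32) * (η * (lam ^ (2 + kap / 32) * (1 / lam) ^ 6))) :=
                      mul_le_mul_of_nonneg_left j4 (by positivity)
                  _ = (2 * (C * C1) * lam ^ (kap / 32)) *
                      (η * (lam ^ (2 + kap / 32) * (1 / lam) ^ 6)) := by ring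
                  _ ≤ 1 * (η * (lam ^ (2 + kap / 32) * (1 / lam) ^ 6)) :=
                      mul_le_mul_of_nonneg_right h6 h7.le
                  _ = _ := one_mul _
              calc 2 * (C * C1) * m1 ≤ η * (lam ^ (2 + kap / 32) * (1 / lam) ^ 6) * m1 :=
                    mul_le_mul_of_nonneg_right h5 hm1'
                _ = _ := by ring
        _ = _ := by ring
    calc massZ x R ψ ≤ C * (A / η) * (massZ x L (fun y => hamZ lam (fun z => ω z s - c) ψ y -
          (En : ℂ) * ψ y) + (1 / (L : ℝ) ^ 2 + η ^ 2) * m2) := ht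
      _ ≤ C * (A / η) * ((2 * m1 + 2 * lam ^ 20 * m2) + (lam ^ 20 + η ^ 2) * m2) := by
          apply mul_le_mul_of_nonneg_left _ (by positivity)
          have h5 : 2 * (E - lam * c - En) ^ 2 * m2 ≤ 2 * lam ^ 20 * m2 :=
            mul_le_mul_of_nonneg_right (by linarith) hm2'
          have h6 : (1 / (L : ℝ) ^ 2 + η ^ 2) * m2 ≤ (lam ^ 20 + η ^ 2) * m2 :=
            mul_le_mul_of_nonneg_right (by linarith) hm2'
          linarith
      _ = C * (2 * (A / η) * m1 + (3 * (A / η * lam ^ 20) + A / η * η ^ 2) * m2) := by ring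
      _ ≤ C * (2 * (2 * lam ^ (kap / 16) * (1 / lam) ^ 6) * m1 +
          (3 * (2 * lam ^ (kap / 16)) + 2 * lam ^ (kap / 16)) * m2) := by
          apply mul_le_mul_of_nonneg_left _ hC.le
          rw [k2]
          have h5 : 2 * (A / η) * m1 ≤ 2 * (2 * lam ^ (kap / 16) * (1 / lam) ^ 6) * m1 :=
            mul_le_mul_of_nonneg_right (by linarith) hm1'
          have h6 : (3 * (A / η * lam ^ 20) + 2 * lam ^ (kap / 16)) * m2 ≤
              (3 * (2 * lam ^ (kap / 16)) + 2 * lam ^ (kap / 16)) * m2 :=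
            mul_le_mul_of_nonneg_right (by linarith) hm2'
          linarith
      _ ≤ 8 * C * lam ^ (kap / 16) * (m2 + (1 / lam) ^ 6 * m1) := by
          have h5 : 0 ≤ C * lam ^ (kap / 16) * ((1 / lam) ^ 6 * m1) := by positivity
          have h6 : 8 * C * lam ^ (kap / 16) * (m2 + (1 / lam) ^ 6 * m1) -
              C * (2 * (2 * lam ^ (kap / 16) * (1 / lam) ^ 6) * m1 +
                (3 * (2 * lam ^ (kap / 16)) + 2 * lam ^ (kap / 16)) * m2) =
              4 * (C * lam ^ (kap / 16) * ((1 / lam) ^ 6 * m1)) := by ring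
          linarith
      _ ≤ lam ^ (kap / 32) * (m2 + (1 / lam) ^ 6 * m1) :=
          mul_le_mul_of_nonneg_right k6 (by positivity)

end Pool.Agent.Kin
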