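import Pool.Agent.Kin.Defs

/-! KIN IBP: one variable: `E V f(V) ≤ σ² sup f'` for a centred bounded variable. -/

open MeasureTheory

noncomputable section

namespace Pool.Agent.Kin

/-- a continuous function is integrable against a probability measure with bounded support -/
lemma integrable_of_bdd_supp (μ : Measure ℝ) [IsProbabilityMeasure μ] (b : ℝ)
    (hb : ∀ᵐ x ∂μ, |x| ≤ b) (f : ℝ → ℝ) (hf : Continuous f) : Integrable f μ := by
  obtain ⟨C, hC⟩ := (isCompact_Icc (a := -b) (b := b)).exists_bound_of_continuousOn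
    hf.continuousOn
  refine Integrable.of_bound hf.aestronglyMeasurable C ?_
  filter_upwards [hb] with x hx
  exact hC x (abs_le.mp hx)

theorem ibp (μ : Measure ℝ) [IsProbabilityMeasure μ] (b sg : ℝ) (hb : ∀ᵐ x ∂μ, |x| ≤ b)
    (hm : ∫ x, x ∂μ = 0) (hv : ∫ x, x ^ 2 ∂μ = sg) (f f' : ℝ → ℝ)
    (hf : ∀ x, HasDerivAt f (f' x) x) (hc : Continuous f') (A : ℝ)
    (hA : ∀ x, |x| ≤ b → f' x ≤ A) : ∫ x, x * f x ∂μ ≤ sg * A := by
  have hfc : Continuous f := continuous_iff_continuousAt.mpr fun x => (hf x).continuousAt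
  have key : ∀ x, |x| ≤ b → x * (f x - f 0) ≤ x ^ 2 * A := by
    intro x hx
    rcases lt_trichotomy x 0 with h | h | h
    · obtain ⟨c, hc1, hc2⟩ := exists_hasDerivAt_eq_slope f f' h hfc.continuousOn
        (fun y _ => hf y)
      have hcb : |c| ≤ b := by
        rw [abs_of_neg hc1.2]
        rw [abs_of_neg h] at hx
        linarith [hc1.1]
      have h1 : f x - f 0 = f' c * x := by
        rw [hc2]
        have : (0 : ℝ) - x ≠ 0 := by linarith
        field_simp
        ring
      rw [h1]
      nlinarith [hA c hcb, sq_nonneg x]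
    · subst h; simp
    · obtain ⟨c, hc1, hc2⟩ := exists_hasDerivAt_eq_slope f f' h hfc.continuousOn
        (fun y _ => hf y)
      have hcb : |c| ≤ b := by
        rw [abs_of_pos hc1.1]
        rw [abs_of_pos h] at hx
        linarith [hc1.2]
      have h1 : f x - f 0 = f' c * x := by
        rw [hc2]
        have : x - (0 : ℝ) ≠ 0 := by linarith
        field_simp
        ring
      rw [h1]
      nlinarith [hA c hcb, sq_nonneg x]
  have hi1 : Integrable (fun x => x * f x) μ :=
    integrable_of_bdd_supp μ b hb _ (continuous_id.mul hfc)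
  have hi2 : Integrable (fun x : ℝ => x * f 0) μ :=
    integrable_of_bdd_supp μ b hb _ (continuous_id.mul continuous_const)
  have hi3 : Integrable (fun x : ℝ => x ^ 2 * A) μ :=
    integrable_of_bdd_supp μ b hb _ ((continuous_pow 2).mul continuous_const)
  have h2 : ∫ x, x * f x ∂μ = ∫ x, x * (f x - f 0) ∂μ := by
    have h3 : ∫ x, x * (f x - f 0) ∂μ = ∫ x, x * f x ∂μ - ∫ x, x * f 0 ∂μ := by
      rw [← integral_sub hi1 hi2]
      congr 1
      ext x
      ring
    rw [h3, integral_mul_const, hm]
    ring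
  rw [h2, ← hv, ← integral_mul_const]
  refine integral_mono_ae ?_ hi3 ?_
  · exact integrable_of_bdd_supp μ b hb _ (continuous_id.mul (hfc.sub continuous_const))
  · filter_upwards [hb] with x hx
    exact key x hx

end Pool.Agent.Kin
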