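import Pool.Agent.Kin.Defs

/-! KIN THFUN: the cutoff function. -/

noncomputable section

namespace Pool.Agent.Kin

/-- derivative of a power of the positive part -/
lemma hasDerivAt_max_pow (n : ℕ) (u : ℝ) :
    HasDerivAt (fun u : ℝ => max u 0 ^ (n + 2)) ((n + 2 : ℕ) * max u 0 ^ (n + 1)) u := by
  rcases lt_trichotomy u 0 with h | h | h
  · rw [max_eq_right h.le]
    simp only [ne_eq, Nat.add_eq_zero_iff, one_ne_zero, and_false, not_false_eq_true, zero_pow,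
      mul_zero]
    refine (hasDerivAt_const u (0 : ℝ)).congr_of_eventuallyEq ?_
    filter_upwards [gt_mem_nhds h] with y hy
    rw [max_eq_right hy.le]
    simp
  · subst h
    have h1 : HasDerivWithinAt (fun u : ℝ => max u 0 ^ (n + 2)) 0 (Set.Ici 0) 0 := by
      have h2 : HasDerivWithinAt (fun u : ℝ => u ^ (n + 2)) 0 (Set.Ici 0) 0 := by
        have := (hasDerivAt_pow (n + 2) (0 : ℝ)).hasDerivWithinAt (s := Set.Ici 0)
        simpa using this
      refine h2.congr (fun y hy => ?_) ?_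
      · rw [max_eq_left hy]
      · simp
    have h3 : HasDerivWithinAt (fun u : ℝ => max u 0 ^ (n + 2)) 0 (Set.Iic 0) 0 := by
      refine (hasDerivWithinAt_const (0 : ℝ) (Set.Iic 0) (0 : ℝ)).congr (fun y hy => ?_) ?_
      · rw [max_eq_right hy]; simp
      · simp
    have h4 := h1.union h3
    rw [Set.Ici_union_Iic, hasDerivWithinAt_univ] at h4
    simpa using h4
  · rw [max_eq_left h.le]
    refine (hasDerivAt_pow (n + 2) u).congr_of_eventuallyEq ?_
    filter_upwards [lt_mem_nhds h] with y hy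
    rw [max_eq_left hy.le]

lemma hasDerivAt_inner (s0 : ℝ) (t : ℝ) :
    HasDerivAt (fun t : ℝ => 1 - t / (3 * s0)) (-(1 / (3 * s0))) t := by
  have h := ((hasDerivAt_id t).div_const (3 * s0)).const_sub 1
  simpa using h

lemma hasDerivAt_th (s0 : ℝ) (hs : 0 < s0) (t : ℝ) : HasDerivAt (th s0) (th1 s0 t) t := by
  have h1 := (hasDerivAt_max_pow 1 (1 - t / (3 * s0))).comp t (hasDerivAt_inner s0 t)
  have h2 := (h1.const_sub 1).const_mul s0
  refine h2.congr_deriv ?_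
  simp only [th1]
  push_cast
  field_simp

lemma hasDerivAt_th1 (s0 : ℝ) (hs : 0 < s0) (t : ℝ) : HasDerivAt (th1 s0) (th2 s0 t) t := by
  have h1 := (hasDerivAt_max_pow 0 (1 - t / (3 * s0))).comp t (hasDerivAt_inner s0 t)
  refine h1.congr_deriv ?_
  simp only [th2]
  push_cast
  field_simp

lemma cont_th (s0 : ℝ) : Continuous (th s0) := by
  unfold th
  fun_prop

lemma cont_th1 (s0 : ℝ) : Continuous (th1 s0) := by
  unfold th1
  fun_prop

lemma cont_th2 (s0 : ℝ) : Continuous (th2 s0) := by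
  unfold th2
  fun_prop

lemma th2_nonpos (s0 : ℝ) (hs : 0 < s0) (t : ℝ) : th2 s0 t ≤ 0 := by
  unfold th2
  have h1 : 0 ≤ max (1 - t / (3 * s0)) 0 := le_max_right _ _
  have h2 : 0 ≤ 2 / (3 * s0) := by positivity
  nlinarith [mul_nonneg h2 h1]

/-- the positive part lies in `[0,1]` -/
lemma pp_mem (s0 : ℝ) (hs : 0 < s0) (t : ℝ) (ht : 0 ≤ t) :
    0 ≤ max (1 - t / (3 * s0)) 0 ∧ max (1 - t / (3 * s0)) 0 ≤ 1 := by
  refine ⟨le_max_right _ _, max_le ?_ zero_le_one⟩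
  have : 0 ≤ t / (3 * s0) := by positivity
  linarith

lemma th1_mem (s0 : ℝ) (hs : 0 < s0) (t : ℝ) (ht : 0 ≤ t) : 0 ≤ th1 s0 t ∧ th1 s0 t ≤ 1 := by
  obtain ⟨h1, h2⟩ := pp_mem s0 hs t ht
  unfold th1
  exact ⟨by positivity, pow_le_one₀ h1 h2⟩

/-- the positive part vanishes for `3 s0 ≤ t` -/
lemma pp_zero (s0 : ℝ) (hs : 0 < s0) (t : ℝ) (ht : 3 * s0 ≤ t) :
    max (1 - t / (3 * s0)) 0 = 0 := by
  apply max_eq_right
  have : 1 ≤ t / (3 * s0) := by
    rw [le_div_iff₀ (by positivity)]; linarith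
  linarith

lemma th1_zero (s0 : ℝ) (hs : 0 < s0) (t : ℝ) (ht : 3 * s0 ≤ t) : th1 s0 t = 0 := by
  unfold th1
  rw [pp_zero s0 hs t ht]
  simp

lemma th1_lip (s0 : ℝ) (hs : 0 < s0) (a b : ℝ) (ha : 0 ≤ a) (hb : 0 ≤ b) :
    |th1 s0 a - th1 s0 b| ≤ 2 / (3 * s0) * |a - b| := by
  obtain ⟨h1, h2⟩ := pp_mem s0 hs a ha
  obtain ⟨h3, h4⟩ := pp_mem s0 hs b hb
  have h5 : |max (1 - a / (3 * s0)) 0 - max (1 - b / (3 * s0)) 0| ≤ |a - b| / (3 * s0) := by
    refine (abs_max_sub_max_le_abs _ _ _).trans ?_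
    have h6 : (1 - a / (3 * s0)) - (1 - b / (3 * s0)) = -((a - b) / (3 * s0)) := by ring
    rw [h6, abs_neg, abs_div, abs_of_pos (show (0 : ℝ) < 3 * s0 by positivity)]
  unfold th1
  set p := max (1 - a / (3 * s0)) 0
  set r := max (1 - b / (3 * s0)) 0
  have h7 : p ^ 2 - r ^ 2 = (p + r) * (p - r) := by ring
  rw [h7, abs_mul, abs_of_nonneg (by positivity)]
  have h8 : 2 / (3 * s0) * |a - b| = 2 * (|a - b| / (3 * s0)) := by ring
  rw [h8]
  have h9 : 0 ≤ |p - r| := abs_nonneg _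
  nlinarith

lemma th_nonneg (s0 : ℝ) (hs : 0 < s0) (t : ℝ) (ht : 0 ≤ t) : 0 ≤ th s0 t := by
  obtain ⟨h1, h2⟩ := pp_mem s0 hs t ht
  unfold th
  have h3 : max (1 - t / (3 * s0)) 0 ^ 3 ≤ 1 := pow_le_one₀ h1 h2
  have h4 : 0 ≤ 1 - max (1 - t / (3 * s0)) 0 ^ 3 := by linarith
  positivity

lemma th_le (s0 : ℝ) (hs : 0 < s0) (t : ℝ) (ht : 0 ≤ t) : th s0 t ≤ t := by
  unfold th
  have h1 : t = s0 * (3 * (t / (3 * s0))) := by field_simp
  set y := t / (3 * s0) with hy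
  have hy0 : 0 ≤ y := by positivity
  rw [h1]
  apply mul_le_mul_of_nonneg_left _ hs.le
  rcases le_total 1 y with h | h
  · rw [max_eq_right (by linarith)]
    norm_num
    linarith
  · rw [max_eq_left (by linarith)]
    nlinarith [mul_nonneg hy0 hy0, mul_nonneg (mul_nonneg hy0 hy0) (sub_nonneg.mpr h)]

lemma le_four_th (s0 : ℝ) (hs : 0 < s0) (t : ℝ) (ht : 0 ≤ t) (h4 : t ≤ 4 * s0) :
    t ≤ 4 * th s0 t := by
  unfold th
  have h1 : t = s0 * (3 * (t / (3 * s0))) := by field_simp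
  have h5 : t / (3 * s0) ≤ 4 / 3 := by
    rw [div_le_iff₀ (by positivity)]; linarith
  set y := t / (3 * s0) with hy
  have hy0 : 0 ≤ y := by positivity
  have h6 : 3 * y ≤ 4 * (1 - max (1 - y) 0 ^ 3) := by
    rcases le_total 1 y with h | h
    · rw [max_eq_right (by linarith)]
      norm_num
      linarith
    · rw [max_eq_left (by linarith)]
      nlinarith [mul_nonneg hy0 hy0, mul_nonneg (mul_nonneg hy0 hy0) (sub_nonneg.mpr h),
        mul_nonneg hy0 (sub_nonneg.mpr h), sq_nonneg (1 - y), sq_nonneg (y - 3)]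
  calc t = s0 * (3 * y) := h1
    _ ≤ s0 * (4 * (1 - max (1 - y) 0 ^ 3)) := mul_le_mul_of_nonneg_left h6 hs.le
    _ = 4 * (s0 * (1 - max (1 - y) 0 ^ 3)) := by ring

lemma th_big (s0 : ℝ) (hs : 0 < s0) (t : ℝ) (ht : 3 * s0 ≤ t) : th s0 t = s0 := by
  unfold th
  rw [pp_zero s0 hs t ht]
  simp

end Pool.Agent.Kin
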