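import Pool.Agent.Kin.Resamp
import Pool.Agent.Kin.Ibp
import Pool.Agent.Kin.ThFun

/-! KIN PROBFLOW: the probabilistic lemma (section A8), abstract form. -/

open MeasureTheory Finset

noncomputable section

namespace Pool.Agent.Kin

variable {ι : Type} [Fintype ι] [DecidableEq ι]

private lemma pf_slice {I : Set ℝ} {Φ : ℝ → (ι → ℝ) → ℝ}
    (c : ContinuousOn (fun p : ℝ × (ι → ℝ) => Φ p.1 p.2) (I ×ˢ Set.univ)) {r : ℝ} (hr : r ∈ I) :
    Continuous fun h => Φ r h := by
  have h1 : Continuous fun h : ι → ℝ => ((r, h) : ℝ × (ι → ℝ)) := by fun_prop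
  exact c.comp_continuous h1 fun h => ⟨hr, Set.mem_univ _⟩

private lemma pf_path {I : Set ℝ} {Φ : ℝ → (ι → ℝ) → ℝ} (lam : ℝ)
    (c : ContinuousOn (fun p : ℝ × (ι → ℝ) => Φ p.1 p.2) (I ×ˢ Set.univ)) :
    ContinuousOn (fun p : ℝ × (ι → ℝ) => Φ p.1 (fun w => lam * p.1 * p.2 w))
      (I ×ˢ Set.univ) := by
  have h1 : Continuous fun p : ℝ × (ι → ℝ) =>
      ((p.1, fun w => lam * p.1 * p.2 w) : ℝ × (ι → ℝ)) := by fun_prop
  exact c.comp h1.continuousOn fun p hp => ⟨hp.1, Set.mem_univ _⟩

private lemma pf_upd (lam r : ℝ) (v : ι → ℝ) (w : ι) (x : ℝ) :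
    (fun w' => lam * r * Function.update v w x w') =
      Function.update (fun w' => lam * r * v w') w (lam * r * x) := by
  funext w'
  by_cases h : w' = w
  · subst h; simp
  · simp [Function.update_of_ne h]

/-- The derivative of `u(r) = E θ(Γ(r, λ r v))`, and the bound for it at one `r`. -/
theorem prob_deriv (μ : Measure ℝ) [IsProbabilityMeasure μ] (bd sg lam : ℝ) (hbd : 0 < bd)
    (hb : ∀ᵐ x ∂μ, |x| ≤ bd) (hm : ∫ x, x ∂μ = 0) (hv : ∫ x, x ^ 2 ∂μ = sg) (hlam : 0 < lam)
    (s0 : ℝ) (hs0 : 0 < s0) (I : Set ℝ) (hI : IsOpen I)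
    (Gam Gar : ℝ → (ι → ℝ) → ℝ) (Ga1 Ga2 : ι → ℝ → (ι → ℝ) → ℝ)
    (c0 : ContinuousOn (fun p : ℝ × (ι → ℝ) => Gam p.1 p.2) (I ×ˢ Set.univ))
    (c1 : ContinuousOn (fun p : ℝ × (ι → ℝ) => Gar p.1 p.2) (I ×ˢ Set.univ))
    (c2 : ∀ w, ContinuousOn (fun p : ℝ × (ι → ℝ) => Ga1 w p.1 p.2) (I ×ˢ Set.univ))
    (c3 : ∀ w, ContinuousOn (fun p : ℝ × (ι → ℝ) => Ga2 w p.1 p.2) (I ×ˢ Set.univ))
    (d1 : ∀ r ∈ I, ∀ h w t, HasDerivAt (fun t : ℝ => Gam r (Function.update h w t))
      (Ga1 w r (Function.update h w t)) t)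
    (d2 : ∀ r ∈ I, ∀ h w t, HasDerivAt (fun t : ℝ => Ga1 w r (Function.update h w t))
      (Ga2 w r (Function.update h w t)) t)
    (dr : ∀ r ∈ I, ∀ v : ι → ℝ, HasDerivAt (fun r : ℝ => Gam r (fun w => lam * r * v w))
      (Gar r (fun w => lam * r * v w) +
        ∑ w, lam * v w * Ga1 w r (fun w => lam * r * v w)) r) :
    ∀ r ∈ I, ∃ u' : ℝ,
      HasDerivAt (fun r => ∫ v, th s0 (Gam r (fun w => lam * r * v w))
        ∂(Measure.pi fun _ : ι => μ)) u' r ∧
      ∀ (ϕ bb : ℝ), 0 ≤ r →
        (∀ v : ι → ℝ, (∀ w, |v w| ≤ bd) → ∃ c : ι → ℝ,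
          (∀ w t, |t| ≤ lam * r * bd →
            th1 s0 (Gam r (Function.update (fun w => lam * r * v w) w t)) *
              Ga2 w r (Function.update (fun w => lam * r * v w) w t) ≤ c w) ∧
          th1 s0 (Gam r (fun w => lam * r * v w)) * Gar r (fun w => lam * r * v w) +
            lam ^ 2 * sg * r * ∑ w, c w ≤
              ϕ * (4 * th s0 (Gam r (fun w => lam * r * v w)) + bb)) →
        u' ≤ ϕ * (4 * (∫ v, th s0 (Gam r (fun w => lam * r * v w))
          ∂(Measure.pi fun _ : ι => μ)) + bb) := by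
  intro r hr
  set π : Measure (ι → ℝ) := Measure.pi fun _ : ι => μ with hπ
  -- the integrand and its derivative
  set F : ℝ → (ι → ℝ) → ℝ := fun r v => th s0 (Gam r (fun w => lam * r * v w)) with hF
  set F' : ℝ → (ι → ℝ) → ℝ := fun r v => th1 s0 (Gam r (fun w => lam * r * v w)) *
    (Gar r (fun w => lam * r * v w) + ∑ w, lam * v w * Ga1 w r (fun w => lam * r * v w)) with hF'
  have hFc : ∀ r ∈ I, Continuous (F r) := by
    intro r hr
    have h1 := pf_slice (Φ := fun r v => Gam r (fun w => lam * r * v w)) (pf_path lam c0) hr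
    exact (cont_th s0).comp h1
  have hF'c : ContinuousOn (fun p : ℝ × (ι → ℝ) => F' p.1 p.2) (I ×ˢ Set.univ) := by
    have h0 := pf_path lam c0
    have h1 := pf_path lam c1
    have h2 : ∀ w, ContinuousOn (fun p : ℝ × (ι → ℝ) => lam * p.2 w *
        Ga1 w p.1 (fun w => lam * p.1 * p.2 w)) (I ×ˢ Set.univ) := by
      intro w
      have h3 : Continuous fun p : ℝ × (ι → ℝ) => lam * p.2 w := by fun_prop
      exact h3.continuousOn.mul (pf_path lam (c2 w))
    have h4 := (cont_th1 s0).comp_continuousOn h0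
    exact h4.mul (h1.add (continuousOn_finsetSum _ fun w _ => h2 w))
  obtain ⟨ε, hε, hεI⟩ := Metric.nhds_basis_closedBall.mem_iff.mp (hI.mem_nhds hr)
  -- the bound
  have hK : IsCompact (Metric.closedBall r ε ×ˢ Set.pi Set.univ fun _ : ι => Set.Icc (-bd) bd) :=
    (isCompact_closedBall r ε).prod (isCompact_univ_pi fun _ => isCompact_Icc)
  obtain ⟨C, hC⟩ := hK.exists_bound_of_continuousOn (f := fun p : ℝ × (ι → ℝ) => F' p.1 p.2)
    (hF'c.mono (Set.prod_mono hεI (Set.subset_univ _)))
  have hae := ae_bdd (ι := ι) μ bd hb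
  have hint : ∀ r ∈ I, Integrable (F r) π := fun r hr => cont_integrable μ bd hb _ (hFc r hr)
  have hder := hasDerivAt_integral_of_dominated_loc_of_deriv_le (μ := π) (F := F) (F' := F')
    (x₀ := r) (s := Metric.closedBall r ε) (bound := fun _ => C)
    (Metric.closedBall_mem_nhds r hε)
    (Filter.eventually_of_mem (hI.mem_nhds hr) fun x hx => (hFc x hx).aestronglyMeasurable)
    (hint r hr)
    (pf_slice (Φ := F') hF'c hr).aestronglyMeasurable
    (by
      filter_upwards [hae] with v hv x hx
      refine hC (x, v) ⟨hx, ?_⟩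
      intro i _
      exact abs_le.1 (hv i))
    (integrable_const C)
    (Filter.Eventually.of_forall fun v x hx => by
      have h1 := dr x (hεI hx) v
      have h2 := hasDerivAt_th s0 hs0 (Gam x (fun w => lam * x * v w))
      exact HasDerivAt.comp (h₂ := th s0) (h := fun r => Gam r (fun w => lam * r * v w)) x h2 h1)
  refine ⟨_, hder.2, ?_⟩
  intro ϕ bb hr0 hyp
  -- the functions of the parts
  have hgc : ∀ w, Continuous fun v : ι → ℝ => th1 s0 (Gam r (fun w => lam * r * v w)) *
      Ga1 w r (fun w => lam * r * v w) := by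
    intro w
    have h1 := pf_slice (Φ := fun r v => Gam r (fun w => lam * r * v w)) (pf_path lam c0) hr
    have h2 := pf_slice (Φ := fun r v => Ga1 w r (fun w => lam * r * v w))
      (pf_path lam (c2 w)) hr
    exact ((cont_th1 s0).comp h1).mul h2
  have hgar : Continuous fun v : ι → ℝ => th1 s0 (Gam r (fun w => lam * r * v w)) *
      Gar r (fun w => lam * r * v w) := by
    have h1 := pf_slice (Φ := fun r v => Gam r (fun w => lam * r * v w)) (pf_path lam c0) hr
    have h2 := pf_slice (Φ := fun r v => Gar r (fun w => lam * r * v w)) (pf_path lam c1) hr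
    exact ((cont_th1 s0).comp h1).mul h2
  set g : ι → (ι → ℝ) → ℝ := fun w v => th1 s0 (Gam r (fun w => lam * r * v w)) *
      Ga1 w r (fun w => lam * r * v w) with hg
  have hinner : ∀ w, Continuous fun v : ι → ℝ => ∫ x, x * g w (Function.update v w x) ∂μ :=
    fun w => cont_inner μ bd hb (g w) (hgc w) w
  -- split the derivative
  have e1 : ∫ v, F' r v ∂π = ∫ v, (th1 s0 (Gam r (fun w => lam * r * v w)) *
      Gar r (fun w => lam * r * v w) +
        ∑ w, lam * ∫ x, x * g w (Function.update v w x) ∂μ) ∂π := by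
    rw [integral_add (cont_integrable μ bd hb _ hgar)
      (integrable_finsetSum _ fun w _ =>
        (cont_integrable μ bd hb _ (hinner w)).const_mul lam),
      integral_finsetSum _ fun w _ => (cont_integrable μ bd hb _ (hinner w)).const_mul lam]
    have e2 : ∀ w, ∫ v, lam * ∫ x, x * g w (Function.update v w x) ∂μ ∂π =
        ∫ v, lam * (v w * g w v) ∂π := by
      intro w
      rw [integral_const_mul, integral_const_mul]
      congr 1
      exact resample_mul μ bd hb (g w) (hgc w) w
    rw [sum_congr rfl fun w _ => e2 w]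
    have hvg : ∀ w, Continuous fun v : ι → ℝ => v w * g w v := fun w =>
      (continuous_apply w).mul (hgc w)
    rw [← integral_finsetSum _ fun w _ => (cont_integrable μ bd hb _ (hvg w)).const_mul lam,
      ← integral_add (cont_integrable μ bd hb _ hgar)
        (integrable_finsetSum _ fun w _ => (cont_integrable μ bd hb _ (hvg w)).const_mul lam)]
    refine integral_congr_ae (Filter.Eventually.of_forall fun v => ?_)
    simp only [hF', hg]
    rw [mul_add, mul_sum]
    congr 1
    refine sum_congr rfl fun w _ => ?_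
    ring
  rw [e1]
  have hsumc : Continuous fun v : ι → ℝ => th1 s0 (Gam r (fun w => lam * r * v w)) *
      Gar r (fun w => lam * r * v w) +
        ∑ w, lam * ∫ x, x * g w (Function.update v w x) ∂μ :=
    hgar.add (continuous_finsetSum _ fun w _ => (hinner w).const_mul lam)
  have e3 : ϕ * (4 * (∫ v, th s0 (Gam r (fun w => lam * r * v w)) ∂π) + bb) =
      ∫ v, ϕ * (4 * th s0 (Gam r (fun w => lam * r * v w)) + bb) ∂π := by
    rw [integral_const_mul, integral_add ((hint r hr).const_mul 4) (integrable_const bb),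
      integral_const_mul]
    simp only [integral_const, probReal_univ, smul_eq_mul, one_mul]
    rfl
  rw [e3]
  refine integral_mono_ae (cont_integrable μ bd hb _ hsumc)
    ((((hint r hr).const_mul 4).add (integrable_const bb)).const_mul ϕ) ?_
  filter_upwards [hae] with v hv'
  obtain ⟨c, hc1, hc2⟩ := hyp v hv'
  refine le_trans ?_ hc2
  rw [mul_sum]
  refine add_le_add le_rfl (sum_le_sum fun w _ => ?_)
  -- one variable
  have hGc : Continuous fun h => Gam r h := pf_slice c0 hr
  have hG1c : Continuous fun h => Ga1 w r h := pf_slice (c2 w) hr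
  have hG2c : Continuous fun h => Ga2 w r h := pf_slice (c3 w) hr
  set h0 : ι → ℝ := fun w' => lam * r * v w' with hh0
  have hupd : Continuous fun x : ℝ => Function.update h0 w (lam * r * x) :=
    continuous_const.update w (by fun_prop)
  have hfd : ∀ x, HasDerivAt (fun x => g w (Function.update v w x))
      (lam * r * (th2 s0 (Gam r (Function.update h0 w (lam * r * x))) *
        Ga1 w r (Function.update h0 w (lam * r * x)) ^ 2 +
        th1 s0 (Gam r (Function.update h0 w (lam * r * x))) *
          Ga2 w r (Function.update h0 w (lam * r * x)))) x := by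
    intro x
    have hlin : HasDerivAt (fun x : ℝ => lam * r * x) (lam * r) x := by
      simpa using (hasDerivAt_id x).const_mul (lam * r)
    have h1 : HasDerivAt (fun x : ℝ => Gam r (Function.update h0 w (lam * r * x)))
        (Ga1 w r (Function.update h0 w (lam * r * x)) * (lam * r)) x :=
      (d1 r hr h0 w (lam * r * x)).comp x hlin
    have h2 : HasDerivAt (fun x : ℝ => Ga1 w r (Function.update h0 w (lam * r * x)))
        (Ga2 w r (Function.update h0 w (lam * r * x)) * (lam * r)) x :=
      (d2 r hr h0 w (lam * r * x)).comp x hlin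
    have h3 : HasDerivAt (fun x : ℝ => th1 s0 (Gam r (Function.update h0 w (lam * r * x))))
        (th2 s0 (Gam r (Function.update h0 w (lam * r * x))) *
          (Ga1 w r (Function.update h0 w (lam * r * x)) * (lam * r))) x :=
      (hasDerivAt_th1 s0 hs0 _).comp x h1
    have h4 := h3.mul h2
    have e : (fun x => g w (Function.update v w x)) =
        (fun x : ℝ => th1 s0 (Gam r (Function.update h0 w (lam * r * x)))) *
          (fun x : ℝ => Ga1 w r (Function.update h0 w (lam * r * x))) := by
      funext y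
      simp only [hg, Pi.mul_apply, pf_upd]
      rfl
    rw [e]
    refine HasDerivAt.congr_deriv h4 ?_
    ring
  have hfc : Continuous fun x => lam * r * (th2 s0 (Gam r (Function.update h0 w (lam * r * x))) *
        Ga1 w r (Function.update h0 w (lam * r * x)) ^ 2 +
        th1 s0 (Gam r (Function.update h0 w (lam * r * x))) *
          Ga2 w r (Function.update h0 w (lam * r * x))) := by
    have a1 := (cont_th2 s0).comp (hGc.comp hupd)
    have a2 := (cont_th1 s0).comp (hGc.comp hupd)
    have a3 := hG1c.comp hupd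
    have a4 := hG2c.comp hupd
    exact continuous_const.mul ((a1.mul (a3.pow 2)).add (a2.mul a4))
  have hA : ∀ x, |x| ≤ bd → lam * r * (th2 s0 (Gam r (Function.update h0 w (lam * r * x))) *
        Ga1 w r (Function.update h0 w (lam * r * x)) ^ 2 +
        th1 s0 (Gam r (Function.update h0 w (lam * r * x))) *
          Ga2 w r (Function.update h0 w (lam * r * x))) ≤ lam * r * c w := by
    intro x hx
    have hlr : 0 ≤ lam * r := by positivity
    refine mul_le_mul_of_nonneg_left ?_ hlr
    have b1 : th2 s0 (Gam r (Function.update h0 w (lam * r * x))) *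
        Ga1 w r (Function.update h0 w (lam * r * x)) ^ 2 ≤ 0 :=
      mul_nonpos_of_nonpos_of_nonneg (th2_nonpos s0 hs0 _) (sq_nonneg _)
    have b2 := hc1 w (lam * r * x) (by
      rw [abs_mul, abs_of_nonneg hlr]
      exact mul_le_mul_of_nonneg_left hx hlr)
    linarith
  have hfin := ibp μ bd sg hb hm hv (fun x => g w (Function.update v w x)) _ hfd hfc _ hA
  calc lam * ∫ x, x * g w (Function.update v w x) ∂μ ≤ lam * (sg * (lam * r * c w)) :=
        mul_le_mul_of_nonneg_left hfin hlam.le
    _ = lam ^ 2 * sg * r * c w := by ring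

end Pool.Agent.Kin
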