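import Pool.Agent.Kin.SHat
import Pool.Agent.Kin.MDiag

/-! KIN SBD: `|S(q)| ≤ C (1 + log(1/γ)) / (varrho γ)^(1/2)` (section B4). -/

open Matrix Finset MeasureTheory

noncomputable section

namespace Pool.Agent.Kin

lemma sbd_int_a (e : ℝ) (ζ : ℂ) (hζ : 0 < ζ.im) :
    IntegrableOn (fun t : ℝ => Complex.exp (Complex.I * (ζ - e) * t)) (Set.Ioi (0 : ℝ)) := by
  apply integrableOn_exp_mul_complex_Ioi
  simp
  exact hζ

lemma sbd_int_b (e : ℝ) (ζ : ℂ) (hζ : 0 < ζ.im) :
    IntegrableOn (fun t : ℝ => Complex.exp (-(Complex.I * (star ζ - e) * t)))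
      (Set.Ioi (0 : ℝ)) := by
  have h := integrableOn_exp_mul_complex_Ioi (a := -(Complex.I * (star ζ - e)))
    (by simp; exact hζ) 0
  refine h.congr_fun (fun t _ => ?_) measurableSet_Ioi
  ring_nf

lemma sbd_inv_star (e : ℝ) (ζ : ℂ) (hζ : 0 < ζ.im) :
    1 / ((e : ℂ) - star ζ) = -Complex.I * ∫ t in Set.Ioi (0 : ℝ),
      Complex.exp (-(Complex.I * (star ζ - e) * t)) := by
  have h := inv_eq_integral e ζ hζ
  have h2 := congrArg (starRingEnd ℂ) h
  rw [map_mul, Complex.conj_I, ← integral_conj] at h2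
  have h3 : (starRingEnd ℂ) (1 / ((e : ℂ) - ζ)) = 1 / ((e : ℂ) - star ζ) := by
    simp
  rw [h3] at h2
  rw [h2]
  congr 1
  apply integral_congr_ae
  filter_upwards with t
  rw [← Complex.exp_conj]
  congr 1
  simp

/-- iterated integral representation -/
lemma sbd_rep {d L : ℕ} [NeZero L] (ζ : ℂ) (hζ : 0 < ζ.im) (q : Tor d L) :
    (ST ζ q : ℂ) = ∫ t in Set.Ioi (0 : ℝ), ∫ u in Set.Ioi (0 : ℝ),
      Complex.exp (Complex.I * ζ * t) * Complex.exp (-(Complex.I * star ζ * u)) * PT t u q := by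
  have hF : ∀ t u : ℝ, Complex.exp (Complex.I * ζ * t) *
      Complex.exp (-(Complex.I * star ζ * u)) * PT t u q =
      ∑ k : Tor d L, (1 / (L : ℂ) ^ d) * Complex.exp (Complex.I * (ζ - en k) * t) *
        Complex.exp (-(Complex.I * (star ζ - en (k + q)) * u)) := by
    intro t u
    unfold PT
    rw [Finset.mul_sum, Finset.mul_sum]
    refine Finset.sum_congr rfl fun k _ => ?_
    have h1 : Complex.exp (Complex.I * (ζ - en k) * t) *
        Complex.exp (-(Complex.I * (star ζ - en (k + q)) * u)) =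
        Complex.exp (Complex.I * ζ * t) * Complex.exp (-(Complex.I * star ζ * u)) *
        Complex.exp (((-t * en k + u * en (k + q) : ℝ) : ℂ) * Complex.I) := by
      rw [← Complex.exp_add, ← Complex.exp_add, ← Complex.exp_add]
      congr 1
      push_cast
      ring
    rw [mul_assoc (1 / (L : ℂ) ^ d), h1]
    ring
  have hin : ∀ t : ℝ, ∫ u in Set.Ioi (0 : ℝ),
      Complex.exp (Complex.I * ζ * t) * Complex.exp (-(Complex.I * star ζ * u)) * PT t u q =
      ∑ k : Tor d L, (1 / (L : ℂ) ^ d) * Complex.exp (Complex.I * (ζ - en k) * t) *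
        ∫ u in Set.Ioi (0 : ℝ), Complex.exp (-(Complex.I * (star ζ - en (k + q)) * u)) := by
    intro t
    simp_rw [hF t]
    rw [integral_finsetSum]
    · refine Finset.sum_congr rfl fun k _ => ?_
      rw [integral_const_mul]
    · intro k _
      exact (sbd_int_b (en (k + q)) ζ hζ).integrable.const_mul _
  simp_rw [hin]
  rw [integral_finsetSum]
  · rw [ST_eq ζ hζ q, Finset.mul_sum]
    refine Finset.sum_congr rfl fun k _ => ?_
    rw [integral_mul_const, integral_const_mul]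
    rw [one_div ((((en k : ℂ) - ζ) * ((en (k + q) : ℂ) - star ζ))), mul_inv,
      ← one_div, ← one_div ((en (k + q) : ℂ) - star ζ), inv_eq_integral (en k) ζ hζ,
      sbd_inv_star (en (k + q)) ζ hζ]
    have hI := Complex.I_mul_I
    linear_combination (-(1 / (L : ℂ) ^ d) *
      (∫ t in Set.Ioi (0 : ℝ), Complex.exp (Complex.I * (ζ - en k) * t)) *
      (∫ u in Set.Ioi (0 : ℝ), Complex.exp (-(Complex.I * (star ζ - en (k + q)) * u)))) * hI
  · intro k _
    exact ((sbd_int_a (en k) ζ hζ).integrable.const_mul _).mul_const _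

lemma sbd_norm {d L : ℕ} [NeZero L] (ζ : ℂ) (q : Tor d L) (t u : ℝ) :
    ‖Complex.exp (Complex.I * ζ * t) * Complex.exp (-(Complex.I * star ζ * u)) * PT t u q‖ =
      Real.exp (-ζ.im * t) * Real.exp (-ζ.im * u) * ‖PT t u q‖ := by
  rw [norm_mul, norm_mul, Complex.norm_exp, Complex.norm_exp]
  simp

/-- `∫_0^T 1/(1+|t-u|) du ≤ 2 log (1+T)` -/
lemma sbd_log (t T : ℝ) (ht : 0 < t) (htT : t ≤ T) :
    ∫ u in (0 : ℝ)..T, 1 / (1 + |t - u|) ≤ 2 * Real.log (1 + T) := by
  have hcont : Continuous fun u : ℝ => 1 / (1 + |t - u|) := by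
    apply Continuous.div continuous_const (by fun_prop)
    intro u
    positivity
  have hsplit := intervalIntegral.integral_add_adjacent_intervals
    (hcont.intervalIntegrable (μ := volume) 0 t) (hcont.intervalIntegrable (μ := volume) t T)
  rw [← hsplit]
  have h1 : ∫ u in (0 : ℝ)..t, 1 / (1 + |t - u|) = Real.log (1 + t) := by
    have h : ∀ u ∈ Set.uIcc (0 : ℝ) t, HasDerivAt (fun u => -Real.log (1 + t - u))
        (1 / (1 + |t - u|)) u := by
      intro u hu
      rw [Set.uIcc_of_le ht.le] at hu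
      have hpos : (0 : ℝ) < 1 + t - u := by linarith [hu.2]
      have hd : HasDerivAt (fun u : ℝ => 1 + t - u) (-1) u := by
        simpa using (hasDerivAt_id u).const_sub (1 + t)
      have h5 := (hd.log hpos.ne').neg
      have hval : 1 / (1 + |t - u|) = -(-1 / (1 + t - u)) := by
        rw [abs_of_nonneg (by linarith [hu.2]), neg_div, neg_neg]
        congr 1
        ring
      rw [hval]
      exact h5
    rw [intervalIntegral.integral_eq_sub_of_hasDerivAt h
      (hcont.intervalIntegrable (μ := volume) 0 t)]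
    simp
  have h2 : ∫ u in t..T, 1 / (1 + |t - u|) = Real.log (1 + T - t) := by
    have h : ∀ u ∈ Set.uIcc t T, HasDerivAt (fun u => Real.log (1 + u - t))
        (1 / (1 + |t - u|)) u := by
      intro u hu
      rw [Set.uIcc_of_le htT] at hu
      have hpos : (0 : ℝ) < 1 + u - t := by linarith [hu.1]
      have hd : HasDerivAt (fun u : ℝ => 1 + u - t) 1 u := by
        simpa using ((hasDerivAt_id u).const_add 1).sub_const t
      have h5 := hd.log hpos.ne'
      have hval : 1 / (1 + |t - u|) = 1 / (1 + u - t) := by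
        rw [abs_of_nonpos (by linarith [hu.1])]
        congr 1
        ring
      rw [hval]
      exact h5
    rw [intervalIntegral.integral_eq_sub_of_hasDerivAt h
      (hcont.intervalIntegrable (μ := volume) t T)]
    simp
  rw [h1, h2]
  have h3 : Real.log (1 + t) ≤ Real.log (1 + T) := Real.log_le_log (by linarith) (by linarith)
  have h4 : Real.log (1 + T - t) ≤ Real.log (1 + T) :=
    Real.log_le_log (by linarith) (by linarith)
  linarith

/-- the weight bound -/
lemma sbd_w (t u T : ℝ) (ht : 0 < t) (hu : 0 < u) (huT : u ≤ T) :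
    1 / ((1 + |t - u|) * √(√(t * u))) ≤
      (Set.Ioc (0 : ℝ) t).indicator (fun u => 2 * t⁻¹ * u ^ (-(1 / 2) : ℝ)) u +
      (Set.Ioc (0 : ℝ) T).indicator
        (fun u => 2 * t ^ (-(1 / 2) : ℝ) * (1 / (1 + |t - u|))) u := by
  have hind2 : (Set.Ioc (0 : ℝ) T).indicator
        (fun u => 2 * t ^ (-(1 / 2) : ℝ) * (1 / (1 + |t - u|))) u =
      2 * t ^ (-(1 / 2) : ℝ) * (1 / (1 + |t - u|)) := by
    rw [Set.indicator_of_mem]; exact ⟨hu, huT⟩
  have hrt : t ^ (-(1 / 2) : ℝ) = 1 / √t := by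
    rw [Real.rpow_neg ht.le, ← Real.sqrt_eq_rpow, one_div]
  have hru : u ^ (-(1 / 2) : ℝ) = 1 / √u := by
    rw [Real.rpow_neg hu.le, ← Real.sqrt_eq_rpow, one_div]
  have hst : 0 < √t := Real.sqrt_pos.2 ht
  have hsu : 0 < √u := Real.sqrt_pos.2 hu
  have hA : 0 < 1 + |t - u| := by positivity
  have hss : 0 < √(√(t * u)) := Real.sqrt_pos.2 (Real.sqrt_pos.2 (by positivity))
  rw [hind2]
  by_cases h : t / 2 ≤ u
  · have hnn : 0 ≤ (Set.Ioc (0 : ℝ) t).indicator
        (fun u => 2 * t⁻¹ * u ^ (-(1 / 2) : ℝ)) u := by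
      apply Set.indicator_nonneg
      intro v hv
      have := hv.1
      positivity
    have h1 : √t / 2 ≤ √(√(t * u)) := by
      apply Real.le_sqrt_of_sq_le
      rw [div_pow, Real.sq_sqrt ht.le]
      apply Real.le_sqrt_of_sq_le
      nlinarith
    have h2 : 1 / ((1 + |t - u|) * √(√(t * u))) ≤ 1 / ((1 + |t - u|) * (√t / 2)) := by
      apply one_div_le_one_div_of_le (by positivity)
      exact mul_le_mul_of_nonneg_left h1 hA.le
    have h3 : 1 / ((1 + |t - u|) * (√t / 2)) =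
        2 * t ^ (-(1 / 2) : ℝ) * (1 / (1 + |t - u|)) := by
      rw [hrt]; field_simp
    linarith
  · push Not at h
    have hnn : 0 ≤ 2 * t ^ (-(1 / 2) : ℝ) * (1 / (1 + |t - u|)) := by positivity
    have hind1 : (Set.Ioc (0 : ℝ) t).indicator
        (fun u => 2 * t⁻¹ * u ^ (-(1 / 2) : ℝ)) u = 2 * t⁻¹ * u ^ (-(1 / 2) : ℝ) := by
      rw [Set.indicator_of_mem]; exact ⟨hu, by linarith⟩
    rw [hind1, hru]
    have h1 : √u ≤ √(√(t * u)) := by
      apply Real.sqrt_le_sqrt
      apply Real.le_sqrt_of_sq_le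
      nlinarith
    have h2 : t / 2 ≤ 1 + |t - u| := by
      have := le_abs_self (t - u)
      linarith
    have h3 : 1 / ((1 + |t - u|) * √(√(t * u))) ≤ 1 / ((t / 2) * √u) := by
      apply one_div_le_one_div_of_le (by positivity)
      exact mul_le_mul h2 h1 hsu.le hA.le
    have h4 : 1 / ((t / 2) * √u) = 2 * t⁻¹ * (1 / √u) := by
      field_simp
    linarith

lemma sbd_W_int (t T : ℝ) (ht : 0 < t) (htT : t ≤ T) :
    IntegrableOn (fun u : ℝ => (Set.Ioc (0 : ℝ) t).indicator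
      (fun u => 2 * t⁻¹ * u ^ (-(1 / 2) : ℝ)) u +
      (Set.Ioc (0 : ℝ) T).indicator
        (fun u => 2 * t ^ (-(1 / 2) : ℝ) * (1 / (1 + |t - u|))) u) (Set.Ioi 0) ∧
    ∫ u in Set.Ioi (0 : ℝ), ((Set.Ioc (0 : ℝ) t).indicator
      (fun u => 2 * t⁻¹ * u ^ (-(1 / 2) : ℝ)) u +
      (Set.Ioc (0 : ℝ) T).indicator
        (fun u => 2 * t ^ (-(1 / 2) : ℝ) * (1 / (1 + |t - u|))) u) ≤
      4 * (1 + Real.log (1 + T)) * t ^ (-(1 / 2) : ℝ) := by
  have hT : 0 < T := lt_of_lt_of_le ht htT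
  have hcont : Continuous fun u : ℝ => 1 / (1 + |t - u|) := by
    apply Continuous.div continuous_const (by fun_prop)
    intro u
    positivity
  have i1 : IntervalIntegrable (fun u : ℝ => 2 * t⁻¹ * u ^ (-(1 / 2) : ℝ)) volume 0 t :=
    (intervalIntegral.intervalIntegrable_rpow' (by norm_num)).const_mul _
  have i2 : IntervalIntegrable (fun u : ℝ => 2 * t ^ (-(1 / 2) : ℝ) * (1 / (1 + |t - u|)))
      volume 0 T := (hcont.intervalIntegrable 0 T).const_mul _
  have j1 : IntegrableOn (fun u : ℝ => 2 * t⁻¹ * u ^ (-(1 / 2) : ℝ)) (Set.Ioc 0 t) := by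
    have := i1.1
    simpa using this
  have j2 : IntegrableOn (fun u : ℝ => 2 * t ^ (-(1 / 2) : ℝ) * (1 / (1 + |t - u|)))
      (Set.Ioc 0 T) := by
    have := i2.1
    simpa using this
  have k1 : IntegrableOn (fun u : ℝ => (Set.Ioc (0 : ℝ) t).indicator
      (fun u => 2 * t⁻¹ * u ^ (-(1 / 2) : ℝ)) u) (Set.Ioi 0) :=
    ((integrable_indicator_iff measurableSet_Ioc).2 j1).integrableOn
  have k2 : IntegrableOn (fun u : ℝ => (Set.Ioc (0 : ℝ) T).indicator
        (fun u => 2 * t ^ (-(1 / 2) : ℝ) * (1 / (1 + |t - u|))) u) (Set.Ioi 0) :=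
    ((integrable_indicator_iff measurableSet_Ioc).2 j2).integrableOn
  refine ⟨k1.add k2, ?_⟩
  rw [integral_add k1 k2, setIntegral_indicator measurableSet_Ioc,
    setIntegral_indicator measurableSet_Ioc]
  have s1 : Set.Ioi (0 : ℝ) ∩ Set.Ioc 0 t = Set.Ioc 0 t :=
    Set.inter_eq_right.2 (fun x hx => hx.1)
  have s2 : Set.Ioi (0 : ℝ) ∩ Set.Ioc 0 T = Set.Ioc 0 T :=
    Set.inter_eq_right.2 (fun x hx => hx.1)
  rw [s1, s2, ← intervalIntegral.integral_of_le ht.le, ← intervalIntegral.integral_of_le hT.le]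
  rw [intervalIntegral.integral_const_mul, intervalIntegral.integral_const_mul]
  rw [integral_rpow (Or.inl (by norm_num))]
  have h0 : (0 : ℝ) ^ (-(1 / 2) + 1 : ℝ) = 0 := Real.zero_rpow (by norm_num)
  rw [h0]
  have hlog := sbd_log t T ht htT
  have hr : t ^ (-(1 / 2) + 1 : ℝ) = t * t ^ (-(1 / 2) : ℝ) := by
    rw [Real.rpow_add ht, Real.rpow_one]; ring
  rw [hr]
  have hpos : 0 < t ^ (-(1 / 2) : ℝ) := Real.rpow_pos_of_pos ht _
  have e1 : 2 * t⁻¹ * ((t * t ^ (-(1 / 2) : ℝ) - 0) / (-(1 / 2) + 1)) =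
      4 * t ^ (-(1 / 2) : ℝ) := by
    field_simp
    ring
  rw [e1]
  nlinarith

/-- inner integral, crude -/
lemma sbd_inner_crude {d L : ℕ} [NeZero L] (ζ : ℂ) (hζ : 0 < ζ.im) (q : Tor d L) (t : ℝ) :
    ‖∫ u in Set.Ioi (0 : ℝ), Complex.exp (Complex.I * ζ * t) *
      Complex.exp (-(Complex.I * star ζ * u)) * PT t u q‖ ≤
      Real.exp (-ζ.im * t) * (1 / ζ.im) := by
  have hi : IntegrableOn (fun u : ℝ => Real.exp (-ζ.im * t) * Real.exp (-ζ.im * u))
      (Set.Ioi 0) := (exp_neg_integrableOn_Ioi 0 hζ).const_mul _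
  have h1 := norm_integral_le_of_norm_le hi (f := fun u : ℝ => Complex.exp (Complex.I * ζ * t) *
      Complex.exp (-(Complex.I * star ζ * u)) * PT t u q) (by
    filter_upwards with u
    rw [sbd_norm]
    have := PT_le_one t u q
    have hp : 0 ≤ Real.exp (-ζ.im * t) * Real.exp (-ζ.im * u) := by positivity
    nlinarith)
  refine h1.trans (le_of_eq ?_)
  rw [integral_const_mul]
  congr 1
  have := integral_exp_mul_Ioi (a := -ζ.im) (by linarith) 0
  rw [this]
  simp

/-- inner integral, fine -/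
lemma sbd_inner_fine {d L : ℕ} [NeZero L] (ζ : ℂ) (hζ : 0 < ζ.im) (hζ1 : ζ.im ≤ 1)
    (q : Tor d L) (K : ℝ) (hK : 0 ≤ K)
    (T : ℝ) (hP : ∀ t u : ℝ, 0 < t → 0 < u → t ≤ T → u ≤ T →
      ‖PT t u q‖ ≤ K * (1 / ((1 + |t - u|) * √(√(t * u)))))
    (t : ℝ) (ht : 0 < t) (htT : t ≤ T) :
    ‖∫ u in Set.Ioi (0 : ℝ), Complex.exp (Complex.I * ζ * t) *
      Complex.exp (-(Complex.I * star ζ * u)) * PT t u q‖ ≤
      Real.exp (-ζ.im * t) * (Real.exp (-ζ.im * T) / ζ.im +
        K * (4 * (1 + Real.log (1 + T)) * t ^ (-(1 / 2) : ℝ))) := by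
  have hT : 0 < T := lt_of_lt_of_le ht htT
  obtain ⟨w1, w2⟩ := sbd_W_int t T ht htT
  set W : ℝ → ℝ := fun u : ℝ => (Set.Ioc (0 : ℝ) t).indicator
      (fun u => 2 * t⁻¹ * u ^ (-(1 / 2) : ℝ)) u +
      (Set.Ioc (0 : ℝ) T).indicator
        (fun u => 2 * t ^ (-(1 / 2) : ℝ) * (1 / (1 + |t - u|))) u with hW
  have hWnn : ∀ u, 0 ≤ W u := by
    intro u
    rw [hW]
    apply add_nonneg
    · apply Set.indicator_nonneg
      intro v hv
      have := hv.1
      positivity
    · apply Set.indicator_nonneg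
      intro v hv
      positivity
  have hexpi : IntegrableOn (fun u : ℝ => Real.exp (-ζ.im * u)) (Set.Ioi T) :=
    exp_neg_integrableOn_Ioi T hζ
  have hi1 : IntegrableOn (fun u : ℝ => (Set.Ioi T).indicator
      (fun u => Real.exp (-ζ.im * u)) u) (Set.Ioi 0) :=
    ((integrable_indicator_iff measurableSet_Ioi).2 hexpi).integrableOn
  have hi : IntegrableOn (fun u : ℝ => Real.exp (-ζ.im * t) * ((Set.Ioi T).indicator
      (fun u => Real.exp (-ζ.im * u)) u + K * W u)) (Set.Ioi 0) :=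
    (hi1.add (w1.const_mul K)).const_mul _
  have h1 := norm_integral_le_of_norm_le hi (f := fun u : ℝ => Complex.exp (Complex.I * ζ * t) *
      Complex.exp (-(Complex.I * star ζ * u)) * PT t u q) (by
    rw [ae_restrict_iff' measurableSet_Ioi]
    filter_upwards with u hu
    have hu0 : 0 < u := hu
    rw [sbd_norm, mul_assoc]
    apply mul_le_mul_of_nonneg_left _ (Real.exp_pos _).le
    by_cases huT : u ≤ T
    · have hind : (Set.Ioi T).indicator (fun u => Real.exp (-ζ.im * u)) u = 0 := by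
        apply Set.indicator_of_notMem
        simpa using huT
      rw [hind, zero_add]
      have h2 := hP t u ht hu0 htT huT
      have h3 := sbd_w t u T ht hu0 huT
      have h4 : Real.exp (-ζ.im * u) ≤ 1 := by
        rw [Real.exp_le_one_iff]
        nlinarith
      calc Real.exp (-ζ.im * u) * ‖PT t u q‖ ≤ 1 * ‖PT t u q‖ :=
            mul_le_mul_of_nonneg_right h4 (norm_nonneg _)
        _ = ‖PT t u q‖ := one_mul _
        _ ≤ _ := h2
        _ ≤ _ := mul_le_mul_of_nonneg_left h3 hK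
    · push Not at huT
      have hind : (Set.Ioi T).indicator (fun u => Real.exp (-ζ.im * u)) u =
          Real.exp (-ζ.im * u) := Set.indicator_of_mem huT _
      rw [hind]
      have h2 := PT_le_one t u q
      have h3 := mul_nonneg hK (hWnn u)
      have h4 := Real.exp_pos (-ζ.im * u)
      nlinarith)
  refine h1.trans ?_
  rw [integral_const_mul]
  apply mul_le_mul_of_nonneg_left _ (Real.exp_pos _).le
  rw [integral_add hi1 (w1.const_mul K), integral_const_mul]
  apply add_le_add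
  · rw [setIntegral_indicator measurableSet_Ioi]
    have s1 : Set.Ioi (0 : ℝ) ∩ Set.Ioi T = Set.Ioi T := by
      ext x; simp; intro h; linarith
    rw [s1, integral_exp_mul_Ioi (a := -ζ.im) (by linarith) T]
    rw [neg_div_neg_eq]
  · exact mul_le_mul_of_nonneg_left w2 hK

theorem ST_bound (d : ℕ) (hd : 3 ≤ d) : ∃ C : ℝ, 0 < C ∧ ∀ (L : ℕ) [NeZero L] (ζ : ℂ),
    0 < ζ.im → ζ.im ≤ 1 → 8 / ζ.im ^ 3 ≤ L → ∀ q : Tor d L, 0 < rh q →
    |ST ζ q| ≤ C * (1 + Real.log (1 / ζ.im)) / √(rh q * ζ.im) := by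
  obtain ⟨C0, hC0, hP2⟩ := PT_two d hd
  refine ⟨4 + 16 * C0, by positivity, ?_⟩
  intro L _ ζ hζ hζ1 hL q hq
  set γ : ℝ := ζ.im with hγ
  set T : ℝ := 1 / γ ^ 2 with hT
  have hTpos : 0 < T := by positivity
  have hT1 : 1 ≤ T := by
    rw [hT, le_div_iff₀ (by positivity)]
    nlinarith
  have hsr : 0 < √(rh q) := Real.sqrt_pos.2 hq
  set K : ℝ := C0 / √(rh q) with hK
  have hKpos : 0 < K := by positivity
  have hP : ∀ t u : ℝ, 0 < t → 0 < u → t ≤ T → u ≤ T →
      ‖PT t u q‖ ≤ K * (1 / ((1 + |t - u|) * √(√(t * u)))) := by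
    intro t u ht hu htT huT
    have hcube : (2 * (t + u)) ^ 3 ≤ (L : ℝ) ^ 2 := by
      have h1 : 2 * (t + u) ≤ 4 * T := by linarith
      have h2 : (2 * (t + u)) ^ 3 ≤ (4 * T) ^ 3 := pow_le_pow_left₀ (by positivity) h1 3
      have h3 : (4 * T) ^ 3 = (8 / γ ^ 3) ^ 2 := by
        rw [hT]; field_simp; norm_num
      have h4 : (8 / γ ^ 3) ^ 2 ≤ (L : ℝ) ^ 2 := pow_le_pow_left₀ (by positivity) hL 2
      linarith
    have h := hP2 L t u q ht hu hq hcube
    refine h.trans (le_of_eq ?_)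
    rw [hK, Real.sqrt_mul (Real.sqrt_nonneg _)]
    have hss : 0 < √(√(t * u)) := Real.sqrt_pos.2 (Real.sqrt_pos.2 (by positivity))
    have hA : 0 < 1 + |t - u| := by positivity
    field_simp
  have hrep := sbd_rep ζ hζ q
  -- the majorant
  have g1 : IntegrableOn (fun t : ℝ => Real.exp (-γ * t)) (Set.Ioi 0) :=
    exp_neg_integrableOn_Ioi 0 hζ
  have hgam : ∫ t in Set.Ioi (0 : ℝ), t ^ ((1 / 2 : ℝ) - 1) * Real.exp (-(γ * t)) =
      (1 / γ) ^ (1 / 2 : ℝ) * Real.Gamma (1 / 2) :=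
    Real.integral_rpow_mul_exp_neg_mul_Ioi (by norm_num) hζ
  have hgam' : ∫ t in Set.Ioi (0 : ℝ), t ^ (-(1 / 2) : ℝ) * Real.exp (-γ * t) =
      √(1 / γ) * √Real.pi := by
    rw [← Real.Gamma_one_half_eq, Real.sqrt_eq_rpow, ← hgam]
    apply integral_congr_ae
    filter_upwards with t
    norm_num
  have g2 : IntegrableOn (fun t : ℝ => t ^ (-(1 / 2) : ℝ) * Real.exp (-γ * t)) (Set.Ioi 0) := by
    by_contra hcon
    have h0 := integral_undef (μ := volume.restrict (Set.Ioi (0 : ℝ))) hcon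
    rw [hgam'] at h0
    have : 0 < √(1 / γ) * √Real.pi := by positivity
    linarith
  have g3 : IntegrableOn (fun t : ℝ => (Set.Ioi T).indicator
      (fun t => Real.exp (-γ * t)) t) (Set.Ioi 0) :=
    ((integrable_indicator_iff measurableSet_Ioi).2
      (exp_neg_integrableOn_Ioi T hζ)).integrableOn
  set c1 : ℝ := Real.exp (-γ * T) / γ with hc1
  set c2 : ℝ := K * (4 * (1 + Real.log (1 + T))) with hc2
  have hlogT : 0 ≤ Real.log (1 + T) := Real.log_nonneg (by linarith)
  have hc1pos : 0 < c1 := by positivity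
  have hc2pos : 0 < c2 := by positivity
  have hmaj : IntegrableOn (fun t : ℝ => c1 * Real.exp (-γ * t) +
      c2 * (t ^ (-(1 / 2) : ℝ) * Real.exp (-γ * t)) + (1 / γ) * (Set.Ioi T).indicator
      (fun t => Real.exp (-γ * t)) t) (Set.Ioi 0) :=
    ((g1.const_mul c1).add (g2.const_mul c2)).add (g3.const_mul (1 / γ))
  have hmain := norm_integral_le_of_norm_le hmaj (f := fun t : ℝ => ∫ u in Set.Ioi (0 : ℝ),
      Complex.exp (Complex.I * ζ * t) *
      Complex.exp (-(Complex.I * star ζ * u)) * PT t u q) (by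
    rw [ae_restrict_iff' measurableSet_Ioi]
    filter_upwards with t ht0
    have ht : 0 < t := ht0
    by_cases htT : t ≤ T
    · have h := sbd_inner_fine ζ hζ hζ1 q K hKpos.le T hP t ht htT
      have hind : (Set.Ioi T).indicator (fun t => Real.exp (-γ * t)) t = 0 := by
        apply Set.indicator_of_notMem
        simpa using htT
      rw [hind]
      refine h.trans (le_of_eq ?_)
      rw [hc1, hc2, ← hγ]
      ring
    · push Not at htT
      have h := sbd_inner_crude ζ hζ q t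
      have hind : (Set.Ioi T).indicator (fun t => Real.exp (-γ * t)) t =
          Real.exp (-γ * t) := Set.indicator_of_mem htT _
      rw [hind]
      have h2 : 0 < Real.exp (-γ * t) := Real.exp_pos _
      have h3 : 0 < t ^ (-(1 / 2) : ℝ) := Real.rpow_pos_of_pos ht _
      have h4 : 0 < c1 * Real.exp (-γ * t) := by positivity
      have h5 : 0 < c2 * (t ^ (-(1 / 2) : ℝ) * Real.exp (-γ * t)) := by positivity
      rw [← hγ] at h
      linarith)
  rw [← hrep] at hmain
  have hint : ∫ t in Set.Ioi (0 : ℝ), (c1 * Real.exp (-γ * t) +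
      c2 * (t ^ (-(1 / 2) : ℝ) * Real.exp (-γ * t)) + (1 / γ) * (Set.Ioi T).indicator
      (fun t => Real.exp (-γ * t)) t) =
      c1 * (1 / γ) + c2 * (√(1 / γ) * √Real.pi) + (1 / γ) * c1 := by
    have g12 : Integrable (fun t : ℝ => c1 * Real.exp (-γ * t) +
        c2 * (t ^ (-(1 / 2) : ℝ) * Real.exp (-γ * t))) (volume.restrict (Set.Ioi 0)) :=
      (g1.const_mul c1).add (g2.const_mul c2)
    rw [integral_add g12 (g3.const_mul (1 / γ)),
      integral_add (g1.const_mul c1) (g2.const_mul c2), integral_const_mul, integral_const_mul,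
      integral_const_mul, hgam', setIntegral_indicator measurableSet_Ioi]
    have s1 : Set.Ioi (0 : ℝ) ∩ Set.Ioi T = Set.Ioi T := by
      ext x; simp; intro h; linarith
    rw [s1, integral_exp_mul_Ioi (a := -γ) (by linarith) T,
      integral_exp_mul_Ioi (a := -γ) (by linarith) 0]
    rw [hc1]
    simp
  rw [hint] at hmain
  have hST : |ST ζ q| = ‖(ST ζ q : ℂ)‖ := by
    rw [Complex.norm_real, Real.norm_eq_abs]
  rw [hST]
  refine hmain.trans ?_
  -- numerical estimates
  have hsg : 0 < √γ := Real.sqrt_pos.2 hζ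
  have hexp : c1 * (1 / γ) ≤ 2 := by
    have hgT : -γ * T = -(1 / γ) := by
      rw [hT]; field_simp
    rw [hc1, hgT, Real.exp_neg]
    have h1 := Real.quadratic_le_exp_of_nonneg (x := 1 / γ) (by positivity)
    have h2 : (1 / γ) ^ 2 / 2 ≤ Real.exp (1 / γ) := by
      have : 0 < 1 / γ := by positivity
      linarith
    have h3 : 0 < Real.exp (1 / γ) := Real.exp_pos _
    have h4 : (Real.exp (1 / γ))⁻¹ / γ * (1 / γ) = (1 / γ) ^ 2 / Real.exp (1 / γ) := by
      field_simp
    rw [h4, div_le_iff₀ h3]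
    linarith
  have hlog0 : 0 ≤ Real.log (1 / γ) := by
    apply Real.log_nonneg
    rw [le_div_iff₀ hζ]
    linarith
  have hlog : Real.log (1 + T) ≤ 1 + 2 * Real.log (1 / γ) := by
    have h1 : 1 + T ≤ 2 * T := by linarith
    have h2 : Real.log (1 + T) ≤ Real.log (2 * T) := Real.log_le_log (by positivity) h1
    have h3 : Real.log (2 * T) = Real.log 2 + 2 * Real.log (1 / γ) := by
      rw [Real.log_mul (by norm_num) hTpos.ne', hT,
        show (1 : ℝ) / γ ^ 2 = (1 / γ) ^ 2 by rw [div_pow, one_pow], Real.log_pow]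
      norm_num
    have h4 : Real.log 2 ≤ 1 := by
      have := Real.log_two_lt_d9
      linarith
    linarith
  have hpi : √Real.pi ≤ 2 := by
    rw [Real.sqrt_le_left (by norm_num)]
    have := Real.pi_le_four
    linarith
  set ℓ : ℝ := 1 + Real.log (1 / γ) with hℓ
  have hℓ1 : 1 ≤ ℓ := by rw [hℓ]; linarith
  have hc2b : c2 ≤ K * (8 * ℓ) := by
    rw [hc2]
    apply mul_le_mul_of_nonneg_left _ hKpos.le
    rw [hℓ]; linarith
  have hsqrt : √(rh q * γ) = √(rh q) * √γ := Real.sqrt_mul hq.le _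
  have hrh1 : √(rh q) ≤ 1 := by
    rw [Real.sqrt_le_one]
    exact rh_le_one q
  have hsg1 : √γ ≤ 1 := by
    rw [Real.sqrt_le_one]
    exact hζ1
  have hs1 : √(1 / γ) = 1 / √γ := by
    rw [Real.sqrt_div zero_le_one, Real.sqrt_one]
  have hb2 : c2 * (√(1 / γ) * √Real.pi) ≤ 16 * C0 * ℓ / (√(rh q) * √γ) := by
    rw [hs1]
    calc c2 * (1 / √γ * √Real.pi) ≤ (K * (8 * ℓ)) * (1 / √γ * 2) := by
          apply mul_le_mul hc2b _ (by positivity) (by positivity)
          exact mul_le_mul_of_nonneg_left hpi (by positivity)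
      _ = _ := by rw [hK]; field_simp; ring
  have hb1 : (4 : ℝ) ≤ 4 * ℓ / (√(rh q) * √γ) := by
    rw [le_div_iff₀ (by positivity)]
    have h1 : √(rh q) * √γ ≤ 1 := by
      calc √(rh q) * √γ ≤ 1 * 1 := mul_le_mul hrh1 hsg1 hsg.le zero_le_one
        _ = 1 := one_mul _
    nlinarith
  have hfin : (4 + 16 * C0) * ℓ / √(rh q * γ) = 4 * ℓ / (√(rh q) * √γ) +
      16 * C0 * ℓ / (√(rh q) * √γ) := by
    rw [hsqrt]; ring
  rw [hfin]
  have hsym : 1 / γ * c1 ≤ 2 := by rw [mul_comm]; exact hexp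
  linarith

end Pool.Agent.Kin
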