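import Pool.Agent.Kin.Defs

/-! KIN RESAMP: resampling one coordinate of a product measure. -/

open MeasureTheory Finset

noncomputable section

namespace Pool.Agent.Kin

variable {ι : Type} [Fintype ι] [DecidableEq ι]

lemma ae_bdd (μ : Measure ℝ) [IsProbabilityMeasure μ] (b : ℝ) (hb : ∀ᵐ x ∂μ, |x| ≤ b) :
    ∀ᵐ v ∂(Measure.pi fun _ : ι => μ), ∀ i, |v i| ≤ b := by
  rw [ae_all_iff]
  intro i
  exact (Measure.tendsto_eval_ae_ae (μ := fun _ : ι => μ) (i := i)).eventually hb

lemma cont_integrable (μ : Measure ℝ) [IsProbabilityMeasure μ] (b : ℝ) (hb : ∀ᵐ x ∂μ, |x| ≤ b)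
    (g : (ι → ℝ) → ℝ) (hg : Continuous g) : Integrable g (Measure.pi fun _ : ι => μ) := by
  obtain ⟨C, hC⟩ := (isCompact_univ_pi (fun _ : ι => isCompact_Icc (a := -b)
    (b := b))).exists_bound_of_continuousOn hg.continuousOn
  refine Integrable.of_bound hg.aestronglyMeasurable C ?_
  filter_upwards [ae_bdd μ b hb] with v hv
  exact hC v (fun i _ => abs_le.mp (hv i))

/-- replacing one coordinate by an independent copy preserves the measure -/
lemma mp_update (μ : Measure ℝ) [IsProbabilityMeasure μ] (i : ι) :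
    MeasurePreserving (fun p : (ι → ℝ) × ℝ => Function.update p.1 i p.2)
      ((Measure.pi fun _ : ι => μ).prod μ) (Measure.pi fun _ : ι => μ) := by
  have hm : Measurable (fun p : (ι → ℝ) × ℝ => Function.update p.1 i p.2) := by
    refine measurable_pi_iff.mpr fun j => ?_
    by_cases h : j = i
    · subst h
      simpa using measurable_snd
    · have : (fun p : (ι → ℝ) × ℝ => Function.update p.1 i p.2 j) = fun p => p.1 j := by
        ext p
        simp [Function.update_of_ne h]
      rw [this]
      exact (measurable_pi_apply j).comp measurable_fst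
  refine ⟨hm, ?_⟩
  symm
  refine Measure.pi_eq fun s hs => ?_
  rw [Measure.map_apply hm (MeasurableSet.univ_pi hs)]
  have h1 : (fun p : (ι → ℝ) × ℝ => Function.update p.1 i p.2) ⁻¹' (Set.univ.pi s) =
      (Set.univ.pi (Function.update s i Set.univ)) ×ˢ (s i) := by
    ext p
    simp only [Set.mem_preimage, Set.mem_pi, Set.mem_univ, forall_true_left, Set.mem_prod]
    constructor
    · intro h
      refine ⟨fun j => ?_, ?_⟩
      · by_cases hj : j = i
        · subst hj; simp
        · have := h j
          rw [Function.update_of_ne hj] at this ⊢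
          exact this
      · simpa using h i
    · rintro ⟨h1, h2⟩ j
      by_cases hj : j = i
      · subst hj; simpa using h2
      · have := h1 j
        rw [Function.update_of_ne hj] at this ⊢
        exact this
  rw [h1, Measure.prod_prod, Measure.pi_pi]
  rw [← Finset.mul_prod_erase univ (fun j => μ (s j)) (mem_univ i),
    ← Finset.mul_prod_erase univ (fun j => μ (Function.update s i Set.univ j)) (mem_univ i)]
  have h2 : ∏ j ∈ univ.erase i, μ (Function.update s i Set.univ j) =
      ∏ j ∈ univ.erase i, μ (s j) := by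
    refine Finset.prod_congr rfl fun j hj => ?_
    rw [Function.update_of_ne (Finset.ne_of_mem_erase hj)]
  rw [h2]
  simp only [Function.update_self, measure_univ, one_mul]
  rw [mul_comm]

lemma cont_upd (i : ι) : Continuous (fun p : (ι → ℝ) × ℝ => Function.update p.1 i p.2) :=
  continuous_fst.update i continuous_snd

/-- a continuous function of `(v, x)` is integrable -/
lemma cont_integrable_prod (μ : Measure ℝ) [IsProbabilityMeasure μ] (b : ℝ)
    (hb : ∀ᵐ x ∂μ, |x| ≤ b) (g : (ι → ℝ) × ℝ → ℝ) (hg : Continuous g) :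
    Integrable g ((Measure.pi fun _ : ι => μ).prod μ) := by
  obtain ⟨C, hC⟩ := ((isCompact_univ_pi (fun _ : ι => isCompact_Icc (a := -b)
    (b := b))).prod (isCompact_Icc (a := -b) (b := b))).exists_bound_of_continuousOn
    hg.continuousOn
  refine Integrable.of_bound hg.aestronglyMeasurable C ?_
  have h1 : ∀ᵐ p ∂((Measure.pi fun _ : ι => μ).prod μ), ∀ i, |p.1 i| ≤ b :=
    Measure.quasiMeasurePreserving_fst.ae (ae_bdd μ b hb)
  have h2 : ∀ᵐ p ∂((Measure.pi fun _ : ι => μ).prod μ), |p.2| ≤ b :=
    Measure.quasiMeasurePreserving_snd.ae hb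
  filter_upwards [h1, h2] with p hp1 hp2
  exact hC p ⟨fun i _ => abs_le.mp (hp1 i), abs_le.mp hp2⟩

/-- `g` continuous, `μ` supported in `[-b, b]`. -/
theorem resample (μ : Measure ℝ) [IsProbabilityMeasure μ] (b : ℝ) (hb : ∀ᵐ x ∂μ, |x| ≤ b)
    (g : (ι → ℝ) → ℝ) (hg : Continuous g) (i : ι) :
    ∫ v, (∫ x, g (Function.update v i x) ∂μ) ∂(Measure.pi fun _ : ι => μ) =
      ∫ v, g v ∂(Measure.pi fun _ : ι => μ) := by
  have h1 := integral_prod (μ := Measure.pi fun _ : ι => μ) (ν := μ)
    (fun p : (ι → ℝ) × ℝ => g (Function.update p.1 i p.2))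
    (cont_integrable_prod μ b hb _ (hg.comp (cont_upd i)))
  rw [← h1]
  have h2 := (mp_update μ i).map_eq
  conv_rhs => rw [← h2]
  rw [integral_map (cont_upd i).measurable.aemeasurable hg.aestronglyMeasurable]

/-- the same with the factor `v i` -/
theorem resample_mul (μ : Measure ℝ) [IsProbabilityMeasure μ] (b : ℝ) (hb : ∀ᵐ x ∂μ, |x| ≤ b)
    (g : (ι → ℝ) → ℝ) (hg : Continuous g) (i : ι) :
    ∫ v, (∫ x, x * g (Function.update v i x) ∂μ) ∂(Measure.pi fun _ : ι => μ) =
      ∫ v, v i * g v ∂(Measure.pi fun _ : ι => μ) := by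
  have h := resample μ b hb (fun v => v i * g v) ((continuous_apply i).mul hg) i
  simpa using h

/-- the inner integral is continuous -/
lemma cont_inner (μ : Measure ℝ) [IsProbabilityMeasure μ] (b : ℝ) (hb : ∀ᵐ x ∂μ, |x| ≤ b)
    (g : (ι → ℝ) → ℝ) (hg : Continuous g) (i : ι) :
    Continuous fun v : ι → ℝ => ∫ x, x * g (Function.update v i x) ∂μ := by
  have hr : μ.restrict (Set.Icc (-b) b) = μ := by
    refine Measure.restrict_eq_self_of_ae_mem ?_
    filter_upwards [hb] with x hx
    exact abs_le.mp hx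
  have h := continuous_parametric_integral_of_continuous (μ := μ)
    (f := fun (v : ι → ℝ) (x : ℝ) => x * g (Function.update v i x))
    (by
      have h1 : Continuous fun p : (ι → ℝ) × ℝ => p.2 * g (Function.update p.1 i p.2) :=
        continuous_snd.mul (hg.comp (cont_upd i))
      exact h1)
    (isCompact_Icc (a := -b) (b := b))
  rwa [hr] at h

end Pool.Agent.Kin
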