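import Pool.Agent.Kin.Res

/-! KIN REP1: rank one perturbation of one diagonal entry. -/

open Matrix Finset

noncomputable section

namespace Pool.Agent.Kin

variable {ι : Type} [Fintype ι] [DecidableEq ι]

private lemma rep1_im_pos {H0 : Matrix ι ι ℂ} (hH : RealSym H0) {w : ℂ} (hw : 0 < w.im)
    (h : ι → ℝ) (i : ι) : 0 < (res H0 w h i i).im := by
  have h1 := ward_row hH hw h i
  have h2 : 0 ≤ ∑ y, ‖res H0 w h i y‖ ^ 2 := Finset.sum_nonneg fun y _ => by positivity
  rcases h2.eq_or_lt with h3 | h3
  · exfalso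
    have h4 := (Finset.sum_eq_zero_iff_of_nonneg (fun y _ => by positivity)).1 h3.symm
    have h5 : ∀ y, res H0 w h i y = 0 := by
      intro y
      have := h4 y (Finset.mem_univ y)
      simpa using this
    have h6 := congrFun (congrFun (res_mul hH hw h) i) i
    rw [Matrix.mul_apply] at h6
    simp [h5] at h6
  · rw [h1] at h3
    have := mul_pos h3 hw
    rwa [div_mul_cancel₀ _ hw.ne'] at this

lemma one_add_ne {H0 : Matrix ι ι ℂ} (hH : RealSym H0) {w : ℂ} (hw : 0 < w.im) (h : ι → ℝ)
    (i : ι) (δ : ℝ) : 1 + (δ : ℂ) * res H0 w h i i ≠ 0 := by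
  intro h0
  have h1 := congrArg Complex.im h0
  simp only [Complex.add_im, Complex.one_im, Complex.mul_im, Complex.ofReal_re,
    Complex.ofReal_im, zero_mul, add_zero, zero_add, Complex.zero_im] at h1
  rcases mul_eq_zero.1 h1 with h2 | h2
  · rw [h2] at h0
    simp at h0
  · exact (rep1_im_pos hH hw h i).ne' h2

/-- Changing `h i` to `t`. -/
lemma res_update {H0 : Matrix ι ι ℂ} (hH : RealSym H0) {w : ℂ} (hw : 0 < w.im) (h : ι → ℝ)
    (i : ι) (t : ℝ) (x y : ι) :
    res H0 w (Function.update h i t) x y = res H0 w h x y -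
      ((t - h i : ℝ) : ℂ) / (1 + ((t - h i : ℝ) : ℂ) * res H0 w h i i) *
        (res H0 w h x i * res H0 w h i y) := by
  set δ : ℂ := ((t - h i : ℝ) : ℂ) with hδ
  set G := res H0 w h with hG
  set c : ℂ := δ / (1 + δ * G i i) with hc
  have hne : 1 + δ * G i i ≠ 0 := one_add_ne hH hw h i (t - h i)
  set M := H0 + Matrix.diagonal (fun x => ((h x : ℝ) : ℂ)) - w • (1 : Matrix ι ι ℂ) with hM
  set M' := H0 + Matrix.diagonal (fun x => ((Function.update h i t x : ℝ) : ℂ)) -
    w • (1 : Matrix ι ι ℂ) with hM'
  have hMM : M' = M + Matrix.diagonal (Pi.single i δ) := by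
    rw [hM', hM]
    have : Matrix.diagonal (fun x => ((Function.update h i t x : ℝ) : ℂ)) =
        Matrix.diagonal (fun x => ((h x : ℝ) : ℂ)) + Matrix.diagonal (Pi.single i δ) := by
      rw [Matrix.diagonal_add]
      congr 1
      funext z
      by_cases hz : z = i
      · subst hz
        simp [hδ]
      · simp [hz]
    rw [this]
    abel
  have hGM : G * M = 1 := res_mul hH hw h
  have hM'G : M' * res H0 w (Function.update h i t) = 1 := mul_res hH hw _
  set R : Matrix ι ι ℂ := G - c • Matrix.vecMulVec (fun x => G x i) (fun y => G i y) with hR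
  have hv : (fun y => G i y) ᵥ* M = Pi.single i 1 := by
    funext z
    have := congrFun (congrFun hGM i) z
    rw [Matrix.mul_apply] at this
    rw [Matrix.vecMul, dotProduct, this, Matrix.one_apply, Pi.single_apply]
    simp [eq_comm]
  have hRM : R * M' = 1 := by
    rw [hR, hMM, sub_mul, mul_add, mul_add, hGM, smul_mul_assoc, smul_mul_assoc,
      Matrix.vecMulVec_mul, hv, Matrix.vecMulVec_mul]
    have h1 : G * Matrix.diagonal (Pi.single i δ) =
        δ • Matrix.vecMulVec (fun x => G x i) (Pi.single i 1) := by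
      ext a b
      rw [Matrix.mul_diagonal, Matrix.smul_apply, Matrix.vecMulVec_apply]
      by_cases hb : b = i
      · subst hb
        simp [mul_comm]
      · simp [hb]
    have h2 : (fun y => G i y) ᵥ* Matrix.diagonal (Pi.single i δ) =
        (δ * G i i) • (Pi.single i 1 : ι → ℂ) := by
      funext b
      rw [Matrix.vecMul_diagonal, Pi.smul_apply]
      by_cases hb : b = i
      · subst hb
        simp [mul_comm]
      · simp [hb]
    rw [h1, h2, Matrix.vecMulVec_smul]
    have h3 : c * (1 + δ * G i i) = δ := div_mul_cancel₀ _ hne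
    have h4 : (c • Matrix.vecMulVec (fun x => G x i) (Pi.single i 1 : ι → ℂ) +
        c • (δ * G i i) • Matrix.vecMulVec (fun x => G x i) (Pi.single i 1 : ι → ℂ)) =
        δ • Matrix.vecMulVec (fun x => G x i) (Pi.single i 1 : ι → ℂ) := by
      rw [smul_smul, ← add_smul]
      congr 1
      linear_combination h3
    rw [h4]
    abel
  have hfin : res H0 w (Function.update h i t) = R := by
    calc _ = (R * M') * res H0 w (Function.update h i t) := by rw [hRM, one_mul]
      _ = R := by rw [mul_assoc, hM'G, mul_one]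
  rw [hfin, hR, Matrix.sub_apply, Matrix.smul_apply, Matrix.vecMulVec_apply, smul_eq_mul]

end Pool.Agent.Kin
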