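import Pool.Agent.Kin.Char
import Pool.Agent.Helper2.AM.Count

/-! KIN CNT: upper bound for the number of momenta in an energy window, `d ≥ 3`
(comparison with Pool/Agent/Helper2/AM/Count.lean, which does it for the shifted momenta
`2π(k+1/4)/L`; the shift changes the energy by at most `d π / L ≤ d π t`). -/

open Matrix Finset

noncomputable section

namespace Pool.Agent.Kin

lemma cnt_cos_le (x y : ℝ) : |Real.cos x - Real.cos y| ≤ |x - y| := by
  rw [Real.cos_sub_cos, abs_mul, abs_mul]
  have h1 : |Real.sin ((x + y) / 2)| ≤ 1 := Real.abs_sin_le_one _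
  have h2 : |Real.sin ((x - y) / 2)| ≤ |(x - y) / 2| := Real.abs_sin_le_abs
  have h3 : |(-2 : ℝ)| = 2 := by norm_num
  rw [h3]
  have h4 : |(x - y) / 2| = |x - y| / 2 := by rw [abs_div]; norm_num
  rw [h4] at h2
  have h5 : 0 ≤ |Real.sin ((x - y) / 2)| := abs_nonneg _
  nlinarith [abs_nonneg (Real.sin ((x + y) / 2))]

theorem count_window (d : ℕ) (hd : 3 ≤ d) : ∃ C : ℝ, 0 < C ∧ ∀ (L : ℕ) [NeZero L] (E t : ℝ),
    1 ≤ t * L → (((univ : Finset (Tor d L)).filter fun k => |en k - E| ≤ t).card : ℝ) ≤
      C * t * (L : ℝ) ^ d := by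
  classical
  obtain ⟨m, rfl⟩ : ∃ m, d = m + 3 := ⟨d - 3, by omega⟩
  refine ⟨(m + 3) * (12 ^ (m + 2) + 2) * (1 + (m + 3) * Real.pi), by positivity, ?_⟩
  intro L _ E t ht
  have hL : (0 : ℝ) < L := by exact_mod_cast Nat.pos_of_ne_zero (NeZero.ne L)
  have ht0 : 0 < t := by
    by_contra h
    push Not at h
    nlinarith
  have hpi := Real.pi_pos
  have hinv : 1 / (L : ℝ) ≤ t := by
    rw [div_le_iff₀ hL]; exact ht
  set η : ℝ := t * (1 + (m + 3) * Real.pi) with hη
  have hη0 : 0 ≤ η := by positivity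
  have hηt : t ≤ η := by
    rw [hη]
    have : 0 ≤ (m + 3 : ℝ) * Real.pi := by positivity
    nlinarith
  have hηL : 1 ≤ η * L := by nlinarith
  let φ : Tor (m + 3) L → (Fin (m + 3) → Fin L) := fun k j => ⟨(k j).val, ZMod.val_lt _⟩
  have hφ : Function.Injective φ := by
    intro a b hab
    funext j
    have := congrFun hab j
    simp only [φ, Fin.mk.injEq] at this
    exact ZMod.val_injective L this
  have hdiff : ∀ k : Tor (m + 3) L, |en k - Helper2.AM.en L (φ k)| ≤ (m + 3) * Real.pi * t := by
    intro k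
    unfold en Helper2.AM.en
    rw [← Finset.sum_sub_distrib]
    refine (Finset.abs_sum_le_sum_abs _ _).trans ?_
    have hterm : ∀ j ∈ (univ : Finset (Fin (m + 3))), |2 - 2 * Real.cos (ang (k j)) -
        (2 - 2 * Real.cos (Helper2.AM.th L (φ k j)))| ≤ Real.pi * t := by
      intro j _
      have e1 : 2 - 2 * Real.cos (ang (k j)) - (2 - 2 * Real.cos (Helper2.AM.th L (φ k j))) =
          2 * (Real.cos (Helper2.AM.th L (φ k j)) - Real.cos (ang (k j))) := by ring
      rw [e1, abs_mul]
      have h1 := cnt_cos_le (Helper2.AM.th L (φ k j)) (ang (k j))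
      have e2 : Helper2.AM.th L (φ k j) - ang (k j) = Real.pi / 2 * (1 / L) := by
        unfold Helper2.AM.th ang
        simp only [φ]
        field_simp
        ring
      have e3 : |Real.pi / 2 * (1 / (L : ℝ))| = Real.pi / 2 * (1 / (L : ℝ)) :=
        abs_of_nonneg (by positivity)
      rw [e2, e3] at h1
      have h2 : |(2 : ℝ)| = 2 := by norm_num
      rw [h2]
      nlinarith
    refine (Finset.sum_le_sum hterm).trans (le_of_eq ?_)
    rw [Finset.sum_const, Finset.card_univ, Fintype.card_fin, nsmul_eq_mul]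
    push_cast
    ring
  have hcard : ((univ : Finset (Tor (m + 3) L)).filter fun k => |en k - E| ≤ t).card ≤
      (univ.filter fun k : Fin (m + 3) → Fin L => |Helper2.AM.en L k - E| ≤ η).card := by
    apply Finset.card_le_card_of_injOn φ
    · intro k hk
      have hk' := (Finset.mem_filter.mp hk).2
      simp only [Finset.coe_filter, Finset.mem_univ, true_and, Set.mem_ofPred_eq]
      have h1 := hdiff k
      have h2 : Helper2.AM.en L (φ k) - E = (en k - E) - (en k - Helper2.AM.en L (φ k)) := by ring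
      rw [h2]
      refine (abs_sub _ _).trans ?_
      rw [hη]
      nlinarith
    · exact hφ.injOn
  have hmain := Helper2.AM.count_window m L E η hη0 hηL
  calc (((univ : Finset (Tor (m + 3) L)).filter fun k => |en k - E| ≤ t).card : ℝ)
      ≤ ((univ.filter fun k : Fin (m + 3) → Fin L => |Helper2.AM.en L k - E| ≤ η).card : ℝ) := by
        exact_mod_cast hcard
    _ ≤ _ := hmain
    _ = _ := by rw [hη]; ring

end Pool.Agent.Kin
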