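import Pool.Agent.Kin.ZDefs

/-! KIN CUT: the cutoff function and the Hamiltonian of the torus (section C1). -/

open Matrix Finset

noncomputable section

namespace Pool.Agent.Kin

variable {d : ℕ}

private lemma ct_rep_bd (L : ℕ) [NeZero L] (w : Tor d L) (j : Fin d) :
    -(L : ℤ) < rep w j * 2 ∧ rep w j * 2 ≤ L :=
  ZMod.valMinAbs_mem_Ioc (w j)

private lemma ct_chi_nonneg (L : ℕ) (y : Fin d → ℤ) : 0 ≤ chi L y := le_max_left _ _

private lemma ct_chi_le_one (L : ℕ) (y : Fin d → ℤ) : chi L y ≤ 1 := by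
  refine max_le zero_le_one ?_
  have : 0 ≤ 4 * ‖y‖ / (L : ℝ) := by positivity
  linarith

/-- sums over the torus of shifted functions -/
private lemma ct_sum_shift (L : ℕ) [NeZero L] (x s : Fin d → ℤ) (hs : ∀ j, |s j| * 2 ≤ L)
    (f : (Fin d → ℤ) → ℂ) : ∑ w : Tor d L, ‖f (x + rep w + s)‖ ^ 2 ≤ massZ x L f := by
  classical
  have hinj : Function.Injective (fun w : Tor d L => x + rep w + s) := by
    intro a b h
    have h1 : rep a = rep b := by
      have h2 : x + rep a + s = x + rep b + s := h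
      exact add_left_cancel (add_right_cancel h2)
    funext j
    exact ZMod.injective_valMinAbs (congrFun h1 j)
  rw [← Finset.sum_image (s := (univ : Finset (Tor d L))) (g := fun w : Tor d L => x + rep w + s)
    (f := fun y => ‖f y‖ ^ 2) (fun a _ b _ h => hinj h)]
  refine Finset.sum_le_sum_of_subset_of_nonneg ?_ (fun _ _ _ => by positivity)
  intro y hy
  rw [Finset.mem_image] at hy
  obtain ⟨w, -, rfl⟩ := hy
  rw [Fintype.mem_piFinset]
  intro j
  rw [Finset.mem_Icc]
  have h1 := ct_rep_bd L w j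
  have h2 := hs j
  have h3 := abs_le.1 (le_refl |s j|)
  simp only [Pi.add_apply]
  constructor <;> omega

/-- mass on the torus is at most the mass in the box -/
lemma sum_phiT_le (L : ℕ) [NeZero L] (x : Fin d → ℤ) (ψ : (Fin d → ℤ) → ℂ) :
    ∑ w : Tor d L, ‖phiT L x ψ w‖ ^ 2 ≤ massZ x L ψ := by
  refine le_trans (Finset.sum_le_sum fun w _ => ?_)
    (ct_sum_shift L x 0 (fun j => by simp) ψ)
  rw [phiT, norm_mul, Complex.norm_real, Real.norm_eq_abs, abs_of_nonneg (ct_chi_nonneg L _),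
    add_zero]
  refine pow_le_pow_left₀ (mul_nonneg (ct_chi_nonneg L _) (norm_nonneg _)) ?_ 2
  exact mul_le_of_le_one_left (norm_nonneg _) (ct_chi_le_one L _)

/-- in the ball of radius `R ≤ L/8` the cutoff is at least `1/2` -/
lemma mass_le_phiT (L : ℕ) [NeZero L] (R : ℕ) (hR : 8 * (R + 1) ≤ L) (x : Fin d → ℤ)
    (ψ : (Fin d → ℤ) → ℂ) :
    massZ x R ψ ≤ 4 * ∑ w ∈ ballT d R, ‖phiT L x ψ w‖ ^ 2 := by
  classical
  have hL0 : (0 : ℝ) < L := by
    have : 0 < L := by omega
    exact_mod_cast this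
  rw [massZ, Finset.mul_sum]
  have hrep : ∀ y ∈ Fintype.piFinset (fun j => Finset.Icc (x j - (R : ℤ)) (x j + R)),
      rep (fun j => ((y j - x j : ℤ) : ZMod L)) = y - x := by
    intro y hy
    rw [Fintype.mem_piFinset] at hy
    funext j
    have h1 := Finset.mem_Icc.1 (hy j)
    refine (ZMod.valMinAbs_spec _ _).2 ⟨rfl, ?_, ?_⟩
    · simp only [Pi.sub_apply]
      omega
    · simp only [Pi.sub_apply]
      omega
  set g : (Fin d → ℤ) → Tor d L := fun y => (fun j => ((y j - x j : ℤ) : ZMod L)) with hg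
  set box := Fintype.piFinset (fun j => Finset.Icc (x j - (R : ℤ)) (x j + R)) with hbox
  have hginj : Set.InjOn g box := by
    intro a ha b hb hab
    have h1 := hrep a ha
    have h2 := hrep b hb
    have h3 : rep (g a) = a - x := h1
    have h4 : rep (g b) = b - x := h2
    rw [hab, h4] at h3
    exact (sub_left_inj.1 h3).symm
  calc ∑ y ∈ box, ‖ψ y‖ ^ 2 ≤ ∑ y ∈ box, 4 * ‖phiT L x ψ (g y)‖ ^ 2 := by
        refine Finset.sum_le_sum fun y hy => ?_
        have h1 : rep (g y) = y - x := hrep y hy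
        rw [phiT, norm_mul, Complex.norm_real, Real.norm_eq_abs,
          abs_of_nonneg (ct_chi_nonneg L _), h1, add_sub_cancel, mul_pow]
        have h2 : (1 / 2 : ℝ) ≤ chi L (y - x) := by
          refine le_trans ?_ (le_max_right _ _)
          have h3 : ‖y - x‖ ≤ R := by
            rw [pi_norm_le_iff_of_nonneg (Nat.cast_nonneg R)]
            intro j
            rw [Fintype.mem_piFinset] at hy
            have h4 := Finset.mem_Icc.1 (hy j)
            rw [Pi.sub_apply, Int.norm_eq_abs, abs_le]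
            constructor
            · have : (-(R : ℤ) : ℤ) ≤ y j - x j := by omega
              exact_mod_cast this
            · have : y j - x j ≤ (R : ℤ) := by omega
              exact_mod_cast this
          have h4 : (8 * (R : ℝ)) ≤ L := by
            have : 8 * R ≤ L := by omega
            exact_mod_cast this
          have h5 : 4 * ‖y - x‖ / (L : ℝ) ≤ 1 / 2 := by
            rw [div_le_iff₀ hL0]
            linarith
          linarith
        have h3 : (1 / 4 : ℝ) ≤ chi L (y - x) ^ 2 := by nlinarith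
        nlinarith [sq_nonneg ‖ψ y‖]
    _ = ∑ w ∈ box.image g, 4 * ‖phiT L x ψ w‖ ^ 2 :=
        (Finset.sum_image (f := fun w => 4 * ‖phiT L x ψ w‖ ^ 2) hginj).symm
    _ ≤ ∑ w ∈ ballT d R, 4 * ‖phiT L x ψ w‖ ^ 2 := by
        refine Finset.sum_le_sum_of_subset_of_nonneg ?_ (fun _ _ _ => by positivity)
        intro w hw
        rw [Finset.mem_image] at hw
        obtain ⟨y, hy, rfl⟩ := hw
        rw [ballT, Finset.mem_filter]
        refine ⟨Finset.mem_univ _, fun j => ?_⟩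
        have h1 := congrFun (hrep y hy) j
        have h2 : (g y j).valMinAbs = y j - x j := h1
        rw [h2, abs_le]
        rw [Fintype.mem_piFinset] at hy
        have h4 := Finset.mem_Icc.1 (hy j)
        constructor <;> omega

/-- the cutoff is Lipschitz with constant `4/L` -/
private lemma ct_chi_lip (L : ℕ) (hL : 0 < L) (y s : Fin d → ℤ) (hs : ‖s‖ ≤ 1) :
    |chi L y - chi L (y + s)| ≤ 4 / L := by
  have hL0 : (0 : ℝ) < L := by exact_mod_cast hL
  have h1 : |chi L y - chi L (y + s)| ≤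
      |(1 - 4 * ‖y‖ / (L : ℝ)) - (1 - 4 * ‖y + s‖ / (L : ℝ))| := by
    rw [chi, chi]
    refine (abs_max_sub_max_le_max _ _ _ _).trans ?_
    rw [sub_self, abs_zero]
    exact max_le (abs_nonneg _) le_rfl
  refine h1.trans ?_
  have h2 : (1 - 4 * ‖y‖ / (L : ℝ)) - (1 - 4 * ‖y + s‖ / (L : ℝ)) =
      4 / L * (‖y + s‖ - ‖y‖) := by
    field_simp
    ring
  rw [h2, abs_mul, abs_of_nonneg (by positivity : (0 : ℝ) ≤ 4 / L)]
  have h3 : |‖y + s‖ - ‖y‖| ≤ 1 := by
    refine (abs_norm_sub_norm_le _ _).trans ?_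
    rw [add_sub_cancel_left]
    exact hs
  calc 4 / (L : ℝ) * |‖y + s‖ - ‖y‖| ≤ 4 / (L : ℝ) * 1 :=
        mul_le_mul_of_nonneg_left h3 (by positivity)
    _ = 4 / L := mul_one _

private lemma ct_chi_zero (L : ℕ) (hL : 0 < L) (y : Fin d → ℤ) (j : Fin d)
    (h : (L : ℤ) ≤ 4 * |y j|) : chi L y = 0 := by
  have hL0 : (0 : ℝ) < L := by exact_mod_cast hL
  rw [chi, max_eq_left]
  have h1 : ‖y j‖ ≤ ‖y‖ := norm_le_pi_norm y j
  rw [Int.norm_eq_abs] at h1
  have h2 : (L : ℝ) ≤ 4 * |(y j : ℝ)| := by exact_mod_cast h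
  have h3 : 1 ≤ 4 * ‖y‖ / (L : ℝ) := by
    rw [le_div_iff₀ hL0]
    linarith
  linarith

/-- transport of shifts: `s = ± e_j` -/
private lemma ct_phi_shift (L : ℕ) [NeZero L] (hL : 8 ≤ L) (x : Fin d → ℤ) (ψ : (Fin d → ℤ) → ℂ)
    (w : Tor d L) (j : Fin d) (e : ℤ) (he : |e| ≤ 1) :
    phiT L x ψ (w + Pi.single j (e : ZMod L)) =
      ((chi L (rep w + Pi.single j e) : ℝ) : ℂ) * ψ (x + rep w + Pi.single j e) := by
  by_cases hc : -(L : ℤ) < (rep w j + e) * 2 ∧ (rep w j + e) * 2 ≤ L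
  · have h1 : rep (w + Pi.single j (e : ZMod L)) = rep w + Pi.single j e := by
      funext i
      by_cases hi : i = j
      · subst hi
        simp only [rep, Pi.add_apply, Pi.single_eq_same]
        refine (ZMod.valMinAbs_spec _ _).2 ⟨?_, hc.1, hc.2⟩
        rw [Int.cast_add, ZMod.coe_valMinAbs]
      · simp [rep, Pi.single_eq_of_ne hi]
    rw [phiT, h1, add_assoc]
  · have h1 := ct_rep_bd L w j
    have h2 := abs_le.1 he
    have h3 : chi L (rep w + Pi.single j e) = 0 := by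
      refine ct_chi_zero L (by omega) _ j ?_
      simp only [Pi.add_apply, Pi.single_eq_same]
      rcases abs_cases (rep w j + e) with ⟨h4, _⟩ | ⟨h4, _⟩ <;> rw [h4] <;> omega
    have h4 : chi L (rep (w + Pi.single j (e : ZMod L))) = 0 := by
      refine ct_chi_zero L (by omega) _ j ?_
      -- `rep (w + e) j ≡ rep w j + e mod L` and it is not small
      have h5 : ((rep (w + Pi.single j (e : ZMod L)) j - (rep w j + e) : ℤ) : ZMod L) = 0 := by
        simp only [rep, Pi.add_apply, Pi.single_eq_same]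
        push_cast
        simp
      rw [ZMod.intCast_zmod_eq_zero_iff_dvd] at h5
      obtain ⟨m, hm⟩ := h5
      have h6 := ct_rep_bd L (w + Pi.single j (e : ZMod L)) j
      set r := rep (w + Pi.single j (e : ZMod L)) j
      have h7 : m ≠ 0 := by
        rintro rfl
        apply hc
        have : r = rep w j + e := by linarith
        rw [← this]
        exact h6
      have h8 : (L : ℤ) ≤ |(L : ℤ) * m| := by
        rw [abs_mul, abs_of_nonneg (by positivity : (0 : ℤ) ≤ (L : ℤ))]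
        have : 1 ≤ |m| := Int.one_le_abs h7
        nlinarith
      rw [← hm] at h8
      rcases abs_cases r with ⟨h9, _⟩ | ⟨h9, _⟩ <;> rw [h9] <;>
        rcases abs_cases (r - (rep w j + e)) with ⟨h10, _⟩ | ⟨h10, _⟩ <;> rw [h10] at h8 <;> omega
    rw [phiT, h4, h3]
    simp

private lemma ct_H0T_apply (L : ℕ) [NeZero L] (φ : Tor d L → ℂ) (w : Tor d L) :
    (H0T d L *ᵥ φ) w = 2 * (d : ℂ) * φ w -
      ∑ j, (φ (w + Pi.single j 1) + φ (w - Pi.single j 1)) := by
  classical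
  rw [Matrix.mulVec, dotProduct]
  simp only [H0T, sub_mul, Finset.sum_mul, add_mul, ite_mul, one_mul, zero_mul,
    Finset.sum_sub_distrib]
  congr 1
  · simp
  · rw [Finset.sum_comm]
    refine Finset.sum_congr rfl fun j _ => ?_
    rw [Finset.sum_add_distrib]
    simp

private lemma ct_sq_sum {κ : Type} (s : Finset κ) (a : κ → ℂ) (b : ℂ) :
    ‖b + ∑ j ∈ s, a j‖ ^ 2 ≤ (s.card + 1) * (‖b‖ ^ 2 + ∑ j ∈ s, ‖a j‖ ^ 2) := by
  have h1 : ‖b + ∑ j ∈ s, a j‖ ≤ ‖b‖ + ∑ j ∈ s, ‖a j‖ :=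
    (norm_add_le _ _).trans (by gcongr; exact norm_sum_le _ _)
  have h2 : ‖b + ∑ j ∈ s, a j‖ ^ 2 ≤ (‖b‖ + ∑ j ∈ s, ‖a j‖) ^ 2 :=
    pow_le_pow_left₀ (norm_nonneg _) h1 2
  have h3 : (∑ j ∈ s, ‖a j‖) ^ 2 ≤ s.card * ∑ j ∈ s, ‖a j‖ ^ 2 := sq_sum_le_card_mul_sum_sq
  have h0 : (0 : ℝ) ≤ s.card := Nat.cast_nonneg _
  have hT0 : 0 ≤ ∑ j ∈ s, ‖a j‖ ^ 2 := Finset.sum_nonneg fun _ _ => by positivity
  set S := ∑ j ∈ s, ‖a j‖
  set T := ∑ j ∈ s, ‖a j‖ ^ 2
  set n : ℝ := (s.card : ℝ)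
  rcases h0.eq_or_lt with hn | hn
  · rw [← hn] at h3 ⊢
    have hS : S = 0 := by nlinarith [sq_nonneg S]
    rw [hS] at h2
    nlinarith
  · -- `2 b S ≤ n b² + S²/n`
    have h4 : 2 * ‖b‖ * S ≤ n * ‖b‖ ^ 2 + T := by
      have h5 : (n * ‖b‖ - S) ^ 2 ≥ 0 := sq_nonneg _
      have h6 : n * (2 * ‖b‖ * S) ≤ n * (n * ‖b‖ ^ 2 + T) := by nlinarith
      exact le_of_mul_le_mul_left h6 hn
    nlinarith [sq_nonneg ‖b‖]

/-- `(H_T - E) φ` for `φ = χ ψ`; `h w = lam * v (x + rep w)`. -/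
theorem ham_phiT (d : ℕ) : ∃ C : ℝ, 0 < C ∧ ∀ (L : ℕ) [NeZero L] (lam E : ℝ)
    (v : (Fin d → ℤ) → ℝ) (x : Fin d → ℤ) (ψ : (Fin d → ℤ) → ℂ), 8 ≤ L →
    ∑ w : Tor d L, ‖(H0T d L *ᵥ phiT L x ψ) w +
      ((lam * v (x + rep w) : ℝ) : ℂ) * phiT L x ψ w - (E : ℂ) * phiT L x ψ w‖ ^ 2 ≤
      C * (massZ x L (fun y => hamZ lam v ψ y - (E : ℂ) * ψ y) + massZ x L ψ / (L : ℝ) ^ 2) := by
  refine ⟨(2 * d + 1) * (32 * d + 1), by positivity, ?_⟩
  intro L _ lam E v x ψ hL
  have hL0 : (0 : ℝ) < L := by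
    have : 0 < L := by omega
    exact_mod_cast this
  -- the pointwise formula
  set a : Tor d L → Fin d × Bool → ℂ := fun w p =>
    ((chi L (rep w) - chi L (rep w + Pi.single p.1 (if p.2 then 1 else -1)) : ℝ) : ℂ) *
      ψ (x + rep w + Pi.single p.1 (if p.2 then 1 else -1)) with ha
  set b : Tor d L → ℂ := fun w => ((chi L (rep w) : ℝ) : ℂ) *
    (hamZ lam v ψ (x + rep w) - (E : ℂ) * ψ (x + rep w)) with hb
  have hpt : ∀ w : Tor d L, (H0T d L *ᵥ phiT L x ψ) w +
      ((lam * v (x + rep w) : ℝ) : ℂ) * phiT L x ψ w - (E : ℂ) * phiT L x ψ w =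
      b w + ∑ p : Fin d × Bool, a w p := by
    intro w
    rw [ct_H0T_apply]
    have h1 : ∀ j, phiT L x ψ (w + Pi.single j 1) =
        ((chi L (rep w + Pi.single j 1) : ℝ) : ℂ) * ψ (x + rep w + Pi.single j 1) := by
      intro j
      have := ct_phi_shift L hL x ψ w j 1 (by norm_num)
      simpa using this
    have h2 : ∀ j, phiT L x ψ (w - Pi.single j 1) =
        ((chi L (rep w + Pi.single j (-1)) : ℝ) : ℂ) * ψ (x + rep w + Pi.single j (-1)) := by
      intro j
      have := ct_phi_shift L hL x ψ w j (-1) (by norm_num)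
      have h3 : w - Pi.single j (1 : ZMod L) = w + Pi.single j (((-1 : ℤ)) : ZMod L) := by
        rw [sub_eq_add_neg, ← Pi.single_neg]
        simp
      rw [h3]
      exact this
    have h3 : ∀ j, x + rep w - Pi.single j (1 : ℤ) = x + rep w + Pi.single j (-1) := by
      intro j
      rw [sub_eq_add_neg, ← Pi.single_neg]
    simp only [h1, h2, hb, ha, hamZ, h3]
    rw [Fintype.sum_prod_type]
    simp only [Fintype.sum_bool, if_true, Bool.false_eq_true, if_false]
    rw [phiT]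
    have h4 : ∑ j : Fin d, (2 * ψ (x + rep w) - ψ (x + rep w + Pi.single j 1) -
        ψ (x + rep w + Pi.single j (-1))) = 2 * (d : ℂ) * ψ (x + rep w) -
        ∑ j : Fin d, ψ (x + rep w + Pi.single j 1) -
        ∑ j : Fin d, ψ (x + rep w + Pi.single j (-1)) := by
      rw [Finset.sum_sub_distrib, Finset.sum_sub_distrib]
      simp
      ring
    rw [h4]
    simp only [Complex.ofReal_sub, sub_mul, Finset.sum_add_distrib, Finset.sum_sub_distrib,
      ← Finset.mul_sum]
    ring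
  have hbb : ∑ w : Tor d L, ‖b w‖ ^ 2 ≤
      massZ x L (fun y => hamZ lam v ψ y - (E : ℂ) * ψ y) := by
    refine le_trans (Finset.sum_le_sum fun w _ => ?_)
      (ct_sum_shift L x 0 (fun j => by simp) (fun y => hamZ lam v ψ y - (E : ℂ) * ψ y))
    rw [hb]
    simp only [add_zero]
    rw [norm_mul, Complex.norm_real, Real.norm_eq_abs, abs_of_nonneg (ct_chi_nonneg L _)]
    refine pow_le_pow_left₀ (mul_nonneg (ct_chi_nonneg L _) (norm_nonneg _)) ?_ 2
    exact mul_le_of_le_one_left (norm_nonneg _) (ct_chi_le_one L _)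
  have haa : ∀ p : Fin d × Bool, ∑ w : Tor d L, ‖a w p‖ ^ 2 ≤
      16 / (L : ℝ) ^ 2 * massZ x L ψ := by
    intro p
    have hs : ∀ i, |(Pi.single p.1 (if p.2 then 1 else -1) : Fin d → ℤ) i| * 2 ≤ L := by
      intro i
      by_cases hi : i = p.1
      · rw [hi, Pi.single_eq_same]
        cases p.2 <;> simp <;> omega
      · rw [Pi.single_eq_of_ne hi]
        simp
    have hn : ‖(Pi.single p.1 (if p.2 then 1 else -1) : Fin d → ℤ)‖ ≤ 1 := by
      rw [pi_norm_le_iff_of_nonneg zero_le_one]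
      intro i
      by_cases hi : i = p.1
      · rw [hi, Pi.single_eq_same]
        cases p.2 <;> simp
      · rw [Pi.single_eq_of_ne hi]
        simp
    calc ∑ w : Tor d L, ‖a w p‖ ^ 2 ≤ ∑ w : Tor d L, 16 / (L : ℝ) ^ 2 *
          ‖ψ (x + rep w + Pi.single p.1 (if p.2 then 1 else -1))‖ ^ 2 := by
          refine Finset.sum_le_sum fun w _ => ?_
          rw [ha]
          simp only
          rw [norm_mul, mul_pow, Complex.norm_real, Real.norm_eq_abs]
          refine mul_le_mul_of_nonneg_right ?_ (by positivity)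
          have h1 := ct_chi_lip L (by omega) (rep w) _ hn
          have h2 := pow_le_pow_left₀ (abs_nonneg _) h1 2
          refine h2.trans (le_of_eq ?_)
          rw [div_pow]
          norm_num
      _ ≤ 16 / (L : ℝ) ^ 2 * massZ x L ψ := by
          rw [← Finset.mul_sum]
          exact mul_le_mul_of_nonneg_left (ct_sum_shift L x _ hs ψ) (by positivity)
  have hcard : ((univ : Finset (Fin d × Bool)).card : ℝ) = 2 * d := by
    rw [Finset.card_univ, Fintype.card_prod, Fintype.card_fin, Fintype.card_bool]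
    push_cast
    ring
  have hm0 : 0 ≤ massZ x L (fun y => hamZ lam v ψ y - (E : ℂ) * ψ y) :=
    Finset.sum_nonneg fun _ _ => by positivity
  have hm1 : 0 ≤ massZ x L ψ / (L : ℝ) ^ 2 :=
    div_nonneg (Finset.sum_nonneg fun _ _ => by positivity) (by positivity)
  calc ∑ w : Tor d L, ‖(H0T d L *ᵥ phiT L x ψ) w +
      ((lam * v (x + rep w) : ℝ) : ℂ) * phiT L x ψ w - (E : ℂ) * phiT L x ψ w‖ ^ 2
      ≤ ∑ w : Tor d L, (2 * d + 1) * (‖b w‖ ^ 2 + ∑ p : Fin d × Bool, ‖a w p‖ ^ 2) := by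
        refine Finset.sum_le_sum fun w _ => ?_
        rw [hpt w]
        have := ct_sq_sum (univ : Finset (Fin d × Bool)) (a w) (b w)
        rw [hcard] at this
        exact this
    _ = (2 * d + 1) * (∑ w : Tor d L, ‖b w‖ ^ 2 +
        ∑ p : Fin d × Bool, ∑ w : Tor d L, ‖a w p‖ ^ 2) := by
        rw [← Finset.mul_sum, Finset.sum_add_distrib, Finset.sum_comm (s := (univ : Finset (Tor d L)))]
    _ ≤ (2 * d + 1) * (massZ x L (fun y => hamZ lam v ψ y - (E : ℂ) * ψ y) +
        ∑ p : Fin d × Bool, 16 / (L : ℝ) ^ 2 * massZ x L ψ) := by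
        refine mul_le_mul_of_nonneg_left ?_ (by positivity)
        exact add_le_add hbb (Finset.sum_le_sum fun p _ => haa p)
    _ = (2 * d + 1) * (massZ x L (fun y => hamZ lam v ψ y - (E : ℂ) * ψ y) +
        32 * d * (massZ x L ψ / (L : ℝ) ^ 2)) := by
        rw [Finset.sum_const, nsmul_eq_mul, hcard]
        ring
    _ ≤ (2 * d + 1) * (32 * d + 1) * (massZ x L (fun y => hamZ lam v ψ y - (E : ℂ) * ψ y) +
        massZ x L ψ / (L : ℝ) ^ 2) := by
        have hd : (0 : ℝ) ≤ d := Nat.cast_nonneg d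
        set u := massZ x L (fun y => hamZ lam v ψ y - (E : ℂ) * ψ y)
        set t := massZ x L ψ / (L : ℝ) ^ 2
        have h1 : u + 32 * d * t ≤ (32 * d + 1) * (u + t) := by
          nlinarith [mul_nonneg hd hm0, mul_nonneg hd hm1]
        calc (2 * (d : ℝ) + 1) * (u + 32 * d * t) ≤ (2 * d + 1) * ((32 * d + 1) * (u + t)) :=
              mul_le_mul_of_nonneg_left h1 (by positivity)
          _ = (2 * d + 1) * (32 * d + 1) * (u + t) := by ring

end Pool.Agent.Kin
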