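import Mathlib

/-!
# KIN: definitions of the flow (Part A of /team-store/kin_proof.md)
-/

open Matrix Finset

noncomputable section

namespace Pool.Agent.Kin

variable {ι P : Type} [Fintype ι] [DecidableEq ι] [Fintype P]

/-- `H0` is a real symmetric matrix (with complex entries). -/
structure RealSym (H0 : Matrix ι ι ℂ) : Prop where
  symm : ∀ x y, H0 x y = H0 y x
  real : ∀ x y, (H0 x y).im = 0

/-- The resolvent `(H0 + diag h - w)⁻¹`. -/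
def res (H0 : Matrix ι ι ℂ) (w : ℂ) (h : ι → ℝ) : Matrix ι ι ℂ :=
  (H0 + Matrix.diagonal (fun x => ((h x : ℝ) : ℂ)) - w • (1 : Matrix ι ι ℂ))⁻¹

/-- The weight `1 + 1[x = y]/et`. -/
def wt (et : ℝ) (x y : ι) : ℝ := 1 + if x = y then 1 / et else 0

/-- `N(f)`. -/
def NN (q : ℕ) (et : ℝ) (f : Matrix ι ι ℂ) : ℝ := ∑ x, ∑ y, wt et x y * ‖f x y‖ ^ (2 * q)

/-- `Q(f,d)`. -/
def QQ (q : ℕ) (et : ℝ) (f : Matrix ι ι ℂ) (d : Matrix ι ι ℝ) : ℝ :=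
  ∑ x, ∑ y, wt et x y * ‖f x y‖ ^ (2 * q - 2) * d x y ^ 2

/-- `L(f,d)`. -/
def LL (q : ℕ) (et : ℝ) (f : Matrix ι ι ℂ) (d : Matrix ι ι ℝ) : ℝ :=
  ∑ x, ∑ y, wt et x y * ‖f x y‖ ^ (2 * q - 1) * d x y

/-- `T(d)`. -/
def TT (q : ℕ) (et lam : ℝ) (d : Matrix ι ι ℝ) : ℝ :=
  lam ^ (2 * q - 2) * ∑ x, ∑ y, wt et x y * d x y ^ (2 * q)

/-- `D(f,g) = ∑ w 2q |f|^(2q-2) Re(conj f g)`: the first derivative of `N` at `f` in the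
direction `g`, and the drift part of the second derivative. -/
def DD (q : ℕ) (et : ℝ) (f g : Matrix ι ι ℂ) : ℝ :=
  ∑ x, ∑ y, wt et x y * (2 * q * ‖f x y‖ ^ (2 * q - 2) * (star (f x y) * g x y).re)

/-- The quadratic variation part of the second derivative of `N`. -/
def QV (q : ℕ) (et : ℝ) (f g : Matrix ι ι ℂ) : ℝ :=
  ∑ x, ∑ y, wt et x y * (2 * q * ‖f x y‖ ^ (2 * q - 2) * ‖g x y‖ ^ 2 +
    4 * q * (q - 1) * ‖f x y‖ ^ (2 * q - 4) * (star (f x y) * g x y).re ^ 2)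

/-- `⟨a, J^k a⟩` for a real matrix `J` and a complex vector `a`. -/
def phi (J : Matrix ι ι ℝ) (a : ι → ℂ) (k : ℕ) : ℝ :=
  (fun x => (a x).re) ⬝ᵥ (J ^ k *ᵥ fun x => (a x).re) +
    (fun x => (a x).im) ⬝ᵥ (J ^ k *ᵥ fun x => (a x).im)

/-- `uᵀ W v` for complex vectors `u, v` and a real matrix `W`. -/
def bil (W : Matrix ι ι ℝ) (u v : ι → ℂ) : ℂ := ∑ x, ∑ y, u x * ((W x y : ℝ) : ℂ) * v y

/-- The real symmetric matrix `Im (c a aᵀ)`. -/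
def imr (c : ℂ) (a : ι → ℂ) : Matrix ι ι ℝ := fun x y => (c * a x * a y).im

/-- The cutoff function `θ`. -/
def th (s0 t : ℝ) : ℝ := s0 * (1 - max (1 - t / (3 * s0)) 0 ^ 3)

/-- The derivative of `θ`. -/
def th1 (s0 t : ℝ) : ℝ := max (1 - t / (3 * s0)) 0 ^ 2

/-- The second derivative of `θ`. -/
def th2 (s0 t : ℝ) : ℝ := -(2 / (3 * s0)) * max (1 - t / (3 * s0)) 0

/-- All data of the flow. -/
structure Dat (ι P : Type) where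
  /-- free operator -/
  H0 : Matrix ι ι ℂ
  /-- spectral parameter, `Im z = η` -/
  z : ℂ
  /-- the number `g0` -/
  g0 : ℂ
  /-- disorder strength `λ` -/
  lam : ℝ
  /-- variance `σ²` of the potential -/
  sg : ℝ
  /-- bound for the potential -/
  bd : ℝ
  /-- characters -/
  b : P → ι → ℂ
  /-- the numbers `S_p` -/
  S : P → ℝ
  /-- the coefficients of the bump function (complex, phases included) -/
  be : P → ℂ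
  /-- the ball -/
  B : Finset ι
  /-- exponent of the power functionals -/
  q : ℕ
  /-- exponent of the trace functional -/
  m : ℕ
  /-- `τ` -/
  tau : ℝ
  /-- `K_A` -/
  KA : ℝ
  /-- bound `C1` for diagonal entries -/
  C1 : ℝ
  /-- bound for all entries -/
  Lam : ℝ
  /-- bound for `∑ |M|^4` -/
  a4 : ℝ
  /-- bound for `|M_xx - g0|` -/
  dbar : ℝ
  /-- bound for `k_B` -/
  kbar : ℝ

namespace Dat

variable (D : Dat ι P)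

/-- `s = λ² σ²` -/
def s : ℝ := D.lam ^ 2 * D.sg

/-- `η = Im z` -/
def eta : ℝ := D.z.im

/-- `η_r` -/
def et (r : ℝ) : ℝ := D.eta + D.s * (1 - r ^ 2) * D.g0.im

/-- `z_r` -/
def zr (r : ℝ) : ℂ := D.z + ((D.s * (1 - r ^ 2) : ℝ) : ℂ) * D.g0

/-- `G_r(h)` -/
def G (r : ℝ) (h : ι → ℝ) : Matrix ι ι ℂ := res D.H0 (D.zr r) h

/-- `M = G_0(0)` -/
def M : Matrix ι ι ℂ := D.G 0 0

/-- `X = G - M` -/
def X (r : ℝ) (h : ι → ℝ) : Matrix ι ι ℂ := D.G r h - D.M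

/-- `F^p = G b_p G*` -/
def F (p : P) (r : ℝ) (h : ι → ℝ) : Matrix ι ι ℂ :=
  D.G r h * Matrix.diagonal (D.b p) * (D.G r h)ᴴ

/-- `Fhat_r(p)` -/
def Fh (p : P) (r : ℝ) : ℝ := D.S p / (1 - D.s * r ^ 2 * D.S p)

/-- `Fbar^p_r` -/
def Fb (p : P) (r : ℝ) : Matrix ι ι ℂ :=
  (((1 - D.s * r ^ 2 * D.S p)⁻¹ : ℝ) : ℂ) • (D.M * Matrix.diagonal (D.b p) * D.Mᴴ)

/-- `Z^p = η (F^p - Fbar^p)` -/
def Z (p : P) (r : ℝ) (h : ι → ℝ) : Matrix ι ι ℂ := (D.eta : ℂ) • (D.F p r h - D.Fb p r)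

/-- `s0 = τ^(2q)/4` -/
def s0 : ℝ := D.tau ^ (2 * D.q) / 4

/-- `ε = s0/K_A^m` -/
def eps : ℝ := D.s0 / D.KA ^ D.m

/-- `J = Im G` on `B × B`. -/
def J (r : ℝ) (h : ι → ℝ) : Matrix ι ι ℝ :=
  fun x y => if x ∈ D.B ∧ y ∈ D.B then (D.G r h x y).im else 0

/-- `a_w`: the column `w` of `G` restricted to `B`. -/
def av (r : ℝ) (h : ι → ℝ) (w : ι) : ι → ℂ := fun x => if x ∈ D.B then D.G r h x w else 0

/-- `Γ₁` -/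
def Gam1 (r : ℝ) (h : ι → ℝ) : ℝ :=
  (Fintype.card P : ℝ) * NN D.q (D.et r) (D.X r h) + ∑ p, NN D.q (D.et r) (D.Z p r h)

/-- `Tr J^m` -/
def Phi2 (r : ℝ) (h : ι → ℝ) : ℝ := (D.J r h ^ D.m).trace

/-- `Γ` -/
def Gam (r : ℝ) (h : ι → ℝ) : ℝ := D.Gam1 r h + D.eps * D.Phi2 r h

/-! ### first and second derivatives in `h_w` -/

/-- `∂_w X` -/
def dX (w : ι) (r : ℝ) (h : ι → ℝ) : Matrix ι ι ℂ := fun x y => -(D.G r h x w * D.G r h w y)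

/-- `∂_w² X` -/
def ddX (w : ι) (r : ℝ) (h : ι → ℝ) : Matrix ι ι ℂ :=
  fun x y => 2 * (D.G r h x w * D.G r h w w * D.G r h w y)

/-- size of the derivatives of `X` -/
def sX (w : ι) (r : ℝ) (h : ι → ℝ) : Matrix ι ι ℝ := fun x y => ‖D.G r h x w‖ * ‖D.G r h w y‖

/-- `∂_w Z` -/
def dZ (p : P) (w : ι) (r : ℝ) (h : ι → ℝ) : Matrix ι ι ℂ := fun x y =>
  -((D.eta : ℂ) * (D.G r h x w * D.F p r h w y + D.F p r h x w * star (D.G r h y w)))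

/-- `∂_w² Z` -/
def ddZ (p : P) (w : ι) (r : ℝ) (h : ι → ℝ) : Matrix ι ι ℂ := fun x y =>
  2 * (D.eta : ℂ) * (D.G r h x w * D.G r h w w * D.F p r h w y +
    D.G r h x w * D.F p r h w w * star (D.G r h y w) +
    D.F p r h x w * star (D.G r h w w) * star (D.G r h y w))

/-- size of the derivatives of `Z` -/
def sZ (p : P) (w : ι) (r : ℝ) (h : ι → ℝ) : Matrix ι ι ℝ := fun x y =>
  D.eta * (‖D.G r h x w‖ * ‖D.F p r h w y‖) + D.eta * (‖D.F p r h x w‖ * ‖D.G r h y w‖) +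
    ‖D.G r h x w‖ * ‖D.G r h y w‖

/-- `Q₂ = φ₀ φ_{m-2}` -/
def Q2 (w : ι) (r : ℝ) (h : ι → ℝ) : ℝ :=
  phi (D.J r h) (D.av r h w) 0 * phi (D.J r h) (D.av r h w) (D.m - 2)

/-- `L₂ = φ_{m-1}` -/
def L2 (w : ι) (r : ℝ) (h : ι → ℝ) : ℝ := phi (D.J r h) (D.av r h w) (D.m - 1)

/-- `T₂ = φ₀² (λ φ₀)^(m-2)` -/
def T2 (w : ι) (r : ℝ) (h : ι → ℝ) : ℝ :=
  phi (D.J r h) (D.av r h w) 0 ^ 2 * (D.lam * phi (D.J r h) (D.av r h w) 0) ^ (D.m - 2)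

/-- drift part of `∂_w² Tr J^m` -/
def D2 (w : ι) (r : ℝ) (h : ι → ℝ) : ℝ :=
  2 * D.m * (D.G r h w w * bil (D.J r h ^ (D.m - 1)) (D.av r h w) (D.av r h w)).im

/-- quadratic variation part of `∂_w² Tr J^m` -/
def QV2 (w : ι) (r : ℝ) (h : ι → ℝ) : ℝ :=
  D.m * ∑ i ∈ range (D.m - 1), (D.J r h ^ i * imr 1 (D.av r h w) *
    (D.J r h ^ (D.m - 2 - i) * imr 1 (D.av r h w))).trace

/-- `∂_w Γ` -/
def Ga1 (w : ι) (r : ℝ) (h : ι → ℝ) : ℝ :=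
  (Fintype.card P : ℝ) * DD D.q (D.et r) (D.X r h) (D.dX w r h) +
    ∑ p, DD D.q (D.et r) (D.Z p r h) (D.dZ p w r h) +
    D.eps * (-(D.m * (bil (D.J r h ^ (D.m - 1)) (D.av r h w) (D.av r h w)).im))

/-- `∂_w² Γ` -/
def Ga2 (w : ι) (r : ℝ) (h : ι → ℝ) : ℝ :=
  (Fintype.card P : ℝ) * (DD D.q (D.et r) (D.X r h) (D.ddX w r h) +
      QV D.q (D.et r) (D.X r h) (D.dX w r h)) +
    ∑ p, (DD D.q (D.et r) (D.Z p r h) (D.ddZ p w r h) +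
      QV D.q (D.et r) (D.Z p r h) (D.dZ p w r h)) +
    D.eps * (D.D2 w r h + D.QV2 w r h)

/-- drift part of `∂_w² Γ` -/
def Dtot (w : ι) (r : ℝ) (h : ι → ℝ) : ℝ :=
  (Fintype.card P : ℝ) * DD D.q (D.et r) (D.X r h) (D.ddX w r h) +
    ∑ p, DD D.q (D.et r) (D.Z p r h) (D.ddZ p w r h) + D.eps * D.D2 w r h

/-- `L` summed over the components of `Γ₁` -/
def L1 (w : ι) (r : ℝ) (h : ι → ℝ) : ℝ :=
  (Fintype.card P : ℝ) * LL D.q (D.et r) (D.X r h) (D.sX w r h) +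
    ∑ p, LL D.q (D.et r) (D.Z p r h) (D.sZ p w r h)

/-- `Q` summed over the components of `Γ₁` -/
def Q1 (w : ι) (r : ℝ) (h : ι → ℝ) : ℝ :=
  (Fintype.card P : ℝ) * QQ D.q (D.et r) (D.X r h) (D.sX w r h) +
    ∑ p, QQ D.q (D.et r) (D.Z p r h) (D.sZ p w r h)

/-- `T` summed over the components of `Γ₁` -/
def T1 (w : ι) (r : ℝ) (h : ι → ℝ) : ℝ :=
  (Fintype.card P : ℝ) * TT D.q (D.et r) D.lam (D.sX w r h) +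
    ∑ p, TT D.q (D.et r) D.lam (D.sZ p w r h)

/-- the error functional of `Γ₁` at one site -/
def Qa (w : ι) (r : ℝ) (h : ι → ℝ) : ℝ := D.Q1 w r h + D.lam * D.L1 w r h + D.T1 w r h

/-- the error functional of `Tr J^m` at one site -/
def Qb (w : ι) (r : ℝ) (h : ι → ℝ) : ℝ := D.Q2 w r h + D.lam * D.L2 w r h + D.T2 w r h

/-- bound for `T₁` -/
def tb1 : ℝ := 2 * (Fintype.card P : ℝ) * ((Fintype.card ι : ℝ) ^ 2 + Fintype.card ι / D.eta) *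
  (D.lam ^ (2 * D.q - 2) * (3 * D.C1 * D.Lam ^ 2) ^ (2 * D.q))

/-- bound for `T₂` -/
def tb2 : ℝ := D.kbar ^ 2 * (D.lam * D.kbar) ^ (D.m - 2)

/-- `cv = (γ a4)^(1/2)` -/
def cv : ℝ := √(D.et 0 * D.a4)

/-- `N² + N/η` -/
def NB : ℝ := (Fintype.card ι : ℝ) ^ 2 + Fintype.card ι / D.eta

/-- the point `λ r v` -/
def hv (r : ℝ) (v : ι → ℝ) : ι → ℝ := fun w => D.lam * r * v w

/-! ### derivative in `r` at fixed `h` -/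

/-- `∂_r X` at fixed `h` -/
def rX (r : ℝ) (h : ι → ℝ) : Matrix ι ι ℂ :=
  (-(2 * (r : ℂ) * (D.s : ℂ) * D.g0)) • (D.G r h * D.G r h)

/-- `∂_r Z` at fixed `h` -/
def rZ (p : P) (r : ℝ) (h : ι → ℝ) : Matrix ι ι ℂ :=
  (D.eta : ℂ) • ((-(2 * (r : ℂ) * (D.s : ℂ))) • (D.g0 • (D.G r h * D.F p r h) +
    star D.g0 • (D.F p r h * (D.G r h)ᴴ)) -
    ((2 * r * D.s * D.Fh p r : ℝ) : ℂ) • D.Fb p r)

/-- derivative of the weight part of `N` -/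
def rW (r : ℝ) (f : Matrix ι ι ℂ) : ℝ :=
  2 * r * D.s * D.g0.im / D.et r ^ 2 * ∑ x, ‖f x x‖ ^ (2 * D.q)

/-- `∂_r J` at fixed `h` -/
def rJ (r : ℝ) (h : ι → ℝ) : Matrix ι ι ℝ :=
  fun x y => if x ∈ D.B ∧ y ∈ D.B then (D.rX r h x y).im else 0

/-- `∂_r Γ` at fixed `h` -/
def Gar (r : ℝ) (h : ι → ℝ) : ℝ :=
  (Fintype.card P : ℝ) * (DD D.q (D.et r) (D.X r h) (D.rX r h) + D.rW r (D.X r h)) +
    ∑ p, (DD D.q (D.et r) (D.Z p r h) (D.rZ p r h) + D.rW r (D.Z p r h)) +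
    D.eps * (D.m * (D.J r h ^ (D.m - 1) * D.rJ r h).trace)

/-- The assumptions of Part A. -/
structure Hyp : Prop where
  sym : RealSym D.H0
  q2 : 2 ≤ D.q
  m3 : 3 ≤ D.m
  lam0 : 0 < D.lam
  lam1 : D.lam ≤ 1
  sg0 : 0 < D.sg
  sgb : D.sg ≤ D.bd ^ 2
  bd0 : 0 < D.bd
  eta0 : 0 < D.eta
  g0im : 0 < D.g0.im
  C10 : 1 ≤ D.C1
  g0C : ‖D.g0‖ ≤ D.C1
  Mdiag : ∀ x, ‖D.M x x‖ + 1 ≤ D.C1
  Mg : ∀ x, ‖D.M x x - D.g0‖ ≤ D.dbar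
  dbar1 : D.dbar ≤ 1
  small : 4 * D.bd * D.lam * D.C1 ≤ 1
  ha4 : ∀ x, ∑ y, ‖D.M x y‖ ^ 4 ≤ D.a4
  ga4 : D.et 0 * D.a4 ≤ 1
  hLam : ∀ x y, ‖D.M x y‖ + 1 ≤ D.Lam
  cardP : 0 < Fintype.card P
  uni : ∀ p x, ‖D.b p x‖ = 1
  Sdiag : ∀ p x, (D.M * Matrix.diagonal (D.b p) * D.Mᴴ) x x = (D.S p : ℂ) * D.b p x
  Spos : ∀ p (r : ℝ), 0 ≤ r → r ≤ 1 → 0 < 1 - D.s * r ^ 2 * D.S p
  Fhb : ∀ p (r : ℝ), 0 ≤ r → r ≤ 1 → |D.Fh p r| ≤ 2 * D.C1 / D.et r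
  bump0 : ∀ y, 0 ≤ (∑ p, D.be p * D.b p y).re
  bumpB : ∀ y ∈ D.B, 1 ≤ (∑ p, D.be p * D.b p y).re
  kbar0 : ∀ r : ℝ, 0 ≤ r → r ≤ 1 → ∑ p, ‖D.be p‖ * (|D.Fh p r| + D.tau / D.eta) ≤ D.kbar
  tau0 : 0 < D.tau
  tau1 : D.tau ≤ 1
  KA0 : 0 < D.KA
  kbKA : D.kbar ≤ D.KA

/-- Consequences of `Γ ≤ 4 s0` used in Part A. -/
structure Good (r : ℝ) (h : ι → ℝ) : Prop where
  X : ∀ x y, ‖D.X r h x y‖ ≤ D.tau
  Z : ∀ p x y, ‖D.Z p r h x y‖ ≤ D.tau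
  Gd : ∀ x, ‖D.G r h x x‖ ≤ D.C1
  Gb : ∀ x y, ‖D.G r h x y‖ ≤ D.Lam
  row : ∀ x, ∑ y, ‖D.G r h x y‖ ^ 2 ≤ D.C1 / D.et r
  Xrow : ∀ x, ∑ y, ‖D.X r h x y‖ ^ 2 ≤ 4 * D.C1 / D.et r
  G4 : ∀ x, ∑ y, ‖D.G r h x y‖ ^ 4 ≤ (8 + 32 * D.C1) / D.et r
  F : ∀ p x y, ‖D.F p r h x y‖ ≤ D.C1 / D.et r
  Frow : ∀ p x, ∑ y, (D.eta * ‖D.F p r h x y‖) ^ 2 ≤ D.C1 / D.et r
  Fcol : ∀ p y, ∑ x, (D.eta * ‖D.F p r h x y‖) ^ 2 ≤ D.C1 / D.et r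
  kB : ∀ w, phi (D.J r h) (D.av r h w) 0 ≤ D.kbar
  tr : D.Phi2 r h ≤ 4 * D.KA ^ D.m

end Dat

/-- `f', g', k'` are the values of an observable and of its first two derivatives after the
replacement of one variable, `d` is its size. -/
structure Rep (C lam : ℝ) (f f' g g' k k' : Matrix ι ι ℂ) (d : Matrix ι ι ℝ) : Prop where
  nn : ∀ x y, 0 ≤ d x y
  df : ∀ x y, ‖f' x y - f x y‖ ≤ C * lam * d x y
  g1 : ∀ x y, ‖g x y‖ ≤ C * d x y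
  g2 : ∀ x y, ‖g' x y‖ ≤ C * d x y
  k1 : ∀ x y, ‖k x y‖ ≤ C * d x y
  k2 : ∀ x y, ‖k' x y‖ ≤ C * d x y
  dk : ∀ x y, ‖k' x y - k x y‖ ≤ C * lam * d x y

/-- operator norm at most `1/et`, rows and columns with square norm at most `C1/et` -/
structure Nice (et C1 : ℝ) (A : Matrix ι ι ℂ) : Prop where
  op : ∀ u : ι → ℂ, ∑ x, ‖(A *ᵥ u) x‖ ^ 2 ≤ (1 / et) ^ 2 * ∑ x, ‖u x‖ ^ 2
  opH : ∀ u : ι → ℂ, ∑ x, ‖(Aᴴ *ᵥ u) x‖ ^ 2 ≤ (1 / et) ^ 2 * ∑ x, ‖u x‖ ^ 2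
  row : ∀ x, ∑ y, ‖A x y‖ ^ 2 ≤ C1 / et
  col : ∀ y, ∑ x, ‖A x y‖ ^ 2 ≤ C1 / et

end Pool.Agent.Kin
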