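import Pool.Agent.Kin.Rep1

/-! KIN DERH: derivative of the resolvent in one diagonal entry; first and second derivatives
of `X`. -/

open Matrix Finset

noncomputable section

namespace Pool.Agent.Kin

variable {ι P : Type} [Fintype ι] [DecidableEq ι] [Fintype P]

private lemma derH_aux (c : ℂ) (s : ℝ) :
    HasDerivAt (fun t : ℝ => ((t - s : ℝ) : ℂ) / (1 + ((t - s : ℝ) : ℂ) * c)) 1 s := by
  have h1 : HasDerivAt (fun t : ℝ => ((t - s : ℝ) : ℂ)) 1 s := by
    have := ((hasDerivAt_id s).sub_const s).ofReal_comp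
    simpa using this
  have h2 : HasDerivAt (fun t : ℝ => 1 + ((t - s : ℝ) : ℂ) * c) (1 * c) s :=
    (h1.mul_const c).const_add 1
  exact (h1.div h2 (by simp)).congr_deriv (by simp)

lemma hasDerivAt_res {H0 : Matrix ι ι ℂ} (hH : RealSym H0) {w : ℂ} (hw : 0 < w.im) (h : ι → ℝ)
    (i : ι) (t : ℝ) (x y : ι) :
    HasDerivAt (fun t : ℝ => res H0 w (Function.update h i t) x y)
      (-(res H0 w (Function.update h i t) x i * res H0 w (Function.update h i t) i y)) t := by
  set h' := Function.update h i t with hh'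
  have key : ∀ t' : ℝ, res H0 w (Function.update h i t') x y = res H0 w h' x y -
      ((t' - t : ℝ) : ℂ) / (1 + ((t' - t : ℝ) : ℂ) * res H0 w h' i i) *
        (res H0 w h' x i * res H0 w h' i y) := by
    intro t'
    have := res_update hH hw h' i t' x y
    rw [hh', Function.update_idem, Function.update_self] at this
    rw [hh']
    exact this
  have h1 := ((derH_aux (res H0 w h' i i) t).mul_const
    (res H0 w h' x i * res H0 w h' i y)).const_sub (res H0 w h' x y)
  have h2 : (fun t : ℝ => res H0 w (Function.update h i t) x y) = fun t' : ℝ =>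
      res H0 w h' x y - ((t' - t : ℝ) : ℂ) / (1 + ((t' - t : ℝ) : ℂ) * res H0 w h' i i) *
        (res H0 w h' x i * res H0 w h' i y) := funext key
  rw [h2]
  exact h1.congr_deriv (by ring)

namespace Dat

variable (D : Dat ι P)

private lemma derH_zr_im {r : ℝ} (hr : 0 < D.et r) : 0 < (D.zr r).im := by
  have : (D.zr r).im = D.et r := by
    rw [Dat.zr, Complex.add_im, Complex.im_ofReal_mul]
    rfl
  rw [this]; exact hr

private lemma derH_G (hH : RealSym D.H0) {r : ℝ} (hr : 0 < D.et r) (h : ι → ℝ) (w : ι) (t : ℝ)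
    (x y : ι) : HasDerivAt (fun t : ℝ => D.G r (Function.update h w t) x y)
      (-(D.G r (Function.update h w t) x w * D.G r (Function.update h w t) w y)) t :=
  hasDerivAt_res hH (derH_zr_im D hr) h w t x y

lemma hasDerivAt_X (hH : RealSym D.H0) {r : ℝ} (hr : 0 < D.et r) (h : ι → ℝ) (w : ι) (t : ℝ)
    (x y : ι) : HasDerivAt (fun t : ℝ => D.X r (Function.update h w t) x y)
      (D.dX w r (Function.update h w t) x y) t := by
  exact (derH_G D hH hr h w t x y).sub_const (D.M x y)

lemma hasDerivAt_dX (hH : RealSym D.H0) {r : ℝ} (hr : 0 < D.et r) (h : ι → ℝ) (w : ι) (t : ℝ)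
    (x y : ι) : HasDerivAt (fun t : ℝ => D.dX w r (Function.update h w t) x y)
      (D.ddX w r (Function.update h w t) x y) t := by
  exact ((derH_G D hH hr h w t x w).mul (derH_G D hH hr h w t w y)).neg.congr_deriv
    (by simp only [Dat.ddX]; ring)

end Dat

end Pool.Agent.Kin
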