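import Pool.Agent.Kin.Good

/-! KIN NICEG: `G`, `G*` and `η F` are nice at a good configuration. -/

open Matrix Finset

noncomputable section

namespace Pool.Agent.Kin

variable {ι P : Type} [Fintype ι] [DecidableEq ι] [Fintype P]

namespace Dat

variable (D : Dat ι P)

lemma nice_G (hD : D.Hyp) {r : ℝ} (h0 : 0 ≤ r) (h1 : r ≤ 1) (h : ι → ℝ) (hg : D.Good r h) :
    Nice (D.et r) D.C1 (D.G r h) := by
  have hr := D.good_et_pos hD h0 h1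
  refine ⟨D.good_op hD hr h, D.good_opH hD hr h, hg.row, fun y => ?_⟩
  refine le_trans (le_of_eq ?_) (hg.row y)
  exact sum_congr rfl fun x _ => by rw [D.good_symm hD hr h x y]

lemma nice_GH (hD : D.Hyp) {r : ℝ} (h0 : 0 ≤ r) (h1 : r ≤ 1) (h : ι → ℝ) (hg : D.Good r h) :
    Nice (D.et r) D.C1 (D.G r h)ᴴ := by
  have hG := D.nice_G hD h0 h1 h hg
  refine ⟨hG.opH, ?_, fun x => ?_, fun y => ?_⟩
  · rw [conjTranspose_conjTranspose]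
    exact hG.op
  · refine le_trans (le_of_eq ?_) (hG.col x)
    exact sum_congr rfl fun y _ => by rw [conjTranspose_apply, norm_star]
  · refine le_trans (le_of_eq ?_) (hG.row y)
    exact sum_congr rfl fun x _ => by rw [conjTranspose_apply, norm_star]

/-- `u ↦ η G b G* u` -/
lemma niceg_FOp (hD : D.Hyp) {r : ℝ} (h0 : 0 ≤ r) (h1 : r ≤ 1) (h : ι → ℝ) (b : ι → ℂ)
    (hb : ∀ x, ‖b x‖ = 1) (u : ι → ℂ) :
    ∑ x, ‖(((D.eta : ℂ) • (D.G r h * Matrix.diagonal b * (D.G r h)ᴴ)) *ᵥ u) x‖ ^ 2 ≤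
      (1 / D.et r) ^ 2 * ∑ x, ‖u x‖ ^ 2 := by
  have hr := D.good_et_pos hD h0 h1
  have he := (D.et_pos hD h0 h1).1
  have h2 : ((D.eta : ℂ) • (D.G r h * Matrix.diagonal b * (D.G r h)ᴴ)) *ᵥ u =
      (D.eta : ℂ) • (D.G r h *ᵥ (Matrix.diagonal b *ᵥ ((D.G r h)ᴴ *ᵥ u))) := by
    rw [smul_mulVec, mulVec_mulVec, mulVec_mulVec, Matrix.mul_assoc]
  rw [h2]
  have h3 : ∀ x, ‖((D.eta : ℂ) • (D.G r h *ᵥ (Matrix.diagonal b *ᵥ ((D.G r h)ᴴ *ᵥ u)))) x‖ ^ 2 =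
      D.eta ^ 2 * ‖(D.G r h *ᵥ (Matrix.diagonal b *ᵥ ((D.G r h)ᴴ *ᵥ u))) x‖ ^ 2 := by
    intro x
    rw [Pi.smul_apply, smul_eq_mul, norm_mul, Complex.norm_real, Real.norm_eq_abs, mul_pow,
      sq_abs]
  simp_rw [h3]
  rw [← mul_sum]
  have h4 := D.good_op hD hr h (Matrix.diagonal b *ᵥ ((D.G r h)ᴴ *ᵥ u))
  have h5 : ∑ x, ‖(Matrix.diagonal b *ᵥ ((D.G r h)ᴴ *ᵥ u)) x‖ ^ 2 =
      ∑ x, ‖((D.G r h)ᴴ *ᵥ u) x‖ ^ 2 :=
    sum_congr rfl fun x _ => by rw [mulVec_diagonal, norm_mul, hb, one_mul]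
  have h6 := D.good_opH hD hr h u
  rw [h5] at h4
  have hU : 0 ≤ ∑ x, ‖u x‖ ^ 2 := sum_nonneg fun x _ => by positivity
  have h7 : D.eta ^ 2 * (1 / D.et r) ^ 2 ≤ 1 := by
    rw [← mul_pow]
    apply pow_le_one₀ (mul_nonneg hD.eta0.le (by positivity))
    rw [mul_one_div, div_le_one hr]
    exact he
  calc D.eta ^ 2 * ∑ x, ‖(D.G r h *ᵥ (Matrix.diagonal b *ᵥ ((D.G r h)ᴴ *ᵥ u))) x‖ ^ 2 ≤
      D.eta ^ 2 * ((1 / D.et r) ^ 2 * ((1 / D.et r) ^ 2 * ∑ x, ‖u x‖ ^ 2)) := by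
        refine mul_le_mul_of_nonneg_left (h4.trans ?_) (by positivity)
        exact mul_le_mul_of_nonneg_left h6 (by positivity)
    _ = (D.eta ^ 2 * (1 / D.et r) ^ 2) * ((1 / D.et r) ^ 2 * ∑ x, ‖u x‖ ^ 2) := by ring
    _ ≤ 1 * ((1 / D.et r) ^ 2 * ∑ x, ‖u x‖ ^ 2) :=
        mul_le_mul_of_nonneg_right h7 (by positivity)
    _ = _ := one_mul _

lemma nice_F (hD : D.Hyp) {r : ℝ} (h0 : 0 ≤ r) (h1 : r ≤ 1) (h : ι → ℝ) (hg : D.Good r h)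
    (p : P) : Nice (D.et r) D.C1 ((D.eta : ℂ) • D.F p r h) := by
  have hn : ∀ x y, ‖((D.eta : ℂ) • D.F p r h) x y‖ = D.eta * ‖D.F p r h x y‖ := by
    intro x y
    rw [Matrix.smul_apply, smul_eq_mul, norm_mul, Complex.norm_real, Real.norm_eq_abs,
      abs_of_pos hD.eta0]
  refine ⟨fun u => ?_, fun u => ?_, fun x => ?_, fun y => ?_⟩
  · exact D.niceg_FOp hD h0 h1 h (D.b p) (hD.uni p) u
  · have h2 : ((D.eta : ℂ) • D.F p r h)ᴴ =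
        (D.eta : ℂ) • (D.G r h * Matrix.diagonal (star (D.b p)) * (D.G r h)ᴴ) := by
      unfold F
      rw [conjTranspose_smul, conjTranspose_mul, conjTranspose_mul, conjTranspose_conjTranspose,
        diagonal_conjTranspose, Matrix.mul_assoc, Complex.star_def, Complex.conj_ofReal]
    rw [h2]
    exact D.niceg_FOp hD h0 h1 h (star (D.b p))
      (fun x => by rw [Pi.star_apply, norm_star]; exact hD.uni p x) u
  · simp_rw [hn]
    exact hg.Frow p x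
  · simp_rw [hn]
    exact hg.Fcol p y

end Dat

end Pool.Agent.Kin
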