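import Pool.Agent.Kin.Defs

/-! KIN POWD: derivatives of the power functional `NN`. -/

open Matrix Finset

noncomputable section

set_option linter.unusedVariables false

namespace Pool.Agent.Kin

variable {ι : Type} [Fintype ι] [DecidableEq ι]

/-- derivative of `‖f‖ ^ (2 n)` -/
private lemma hasDerivAt_normPow (n : ℕ) (f : ℝ → ℂ) (g : ℂ) (t : ℝ) (hf : HasDerivAt f g t) :
    HasDerivAt (fun t => ‖f t‖ ^ (2 * n)) (2 * n * ‖f t‖ ^ (2 * n - 2) * (star (f t) * g).re) t := by
  have hre : HasDerivAt (fun t => (f t).re) g.re t := by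
    exact (Complex.reCLM.hasFDerivAt (x := f t)).comp_hasDerivAt t hf
  have him : HasDerivAt (fun t => (f t).im) g.im t := by
    exact (Complex.imCLM.hasFDerivAt (x := f t)).comp_hasDerivAt t hf
  have h2 : ∀ z : ℂ, ‖z‖ ^ 2 = z.re * z.re + z.im * z.im := fun z => by
    rw [← Complex.normSq_eq_norm_sq, Complex.normSq_apply]
  have h3 : (fun t => ‖f t‖ ^ (2 * n)) =
      fun t => ((f t).re * (f t).re + (f t).im * (f t).im) ^ n := by
    funext t; rw [pow_mul, h2]
  rw [h3]
  have h4 := ((hre.fun_mul hre).fun_add (him.fun_mul him)).fun_pow n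
  refine h4.congr_deriv ?_
  rcases Nat.eq_zero_or_pos n with hn | hn
  · subst hn; simp
  · have h5 : ‖f t‖ ^ (2 * n - 2) = ((f t).re * (f t).re + (f t).im * (f t).im) ^ (n - 1) := by
      rw [← h2, ← pow_mul]
      congr 1
      omega
    have h6 : (star (f t) * g).re = (f t).re * g.re + (f t).im * g.im := by
      have : star (f t) = (starRingEnd ℂ) (f t) := rfl
      rw [this, Complex.mul_re, Complex.conj_re, Complex.conj_im]
      ring
    rw [h5, h6]
    ring

/-- first derivative of `NN` -/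
lemma hasDerivAt_NN (q : ℕ) (hq : 2 ≤ q) (et : ℝ) (f : ℝ → Matrix ι ι ℂ) (g : Matrix ι ι ℂ)
    (t : ℝ) (hf : ∀ x y, HasDerivAt (fun t => f t x y) (g x y) t) :
    HasDerivAt (fun t => NN q et (f t)) (DD q et (f t) g) t := by
  unfold NN DD
  apply HasDerivAt.fun_sum
  intro x _
  apply HasDerivAt.fun_sum
  intro y _
  exact (hasDerivAt_normPow q (fun t => f t x y) (g x y) t (hf x y)).const_mul (wt et x y)

/-- first derivative of `NN` with a varying weight -/
lemma hasDerivAt_NN' (q : ℕ) (hq : 2 ≤ q) (e : ℝ → ℝ) (e' : ℝ) (f : ℝ → Matrix ι ι ℂ)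
    (g : Matrix ι ι ℂ) (t : ℝ) (he : HasDerivAt e e' t) (he0 : 0 < e t)
    (hf : ∀ x y, HasDerivAt (fun t => f t x y) (g x y) t) :
    HasDerivAt (fun t => NN q (e t) (f t))
      (DD q (e t) (f t) g + -e' / e t ^ 2 * ∑ x, ‖f t x x‖ ^ (2 * q)) t := by
  have hwt : ∀ x y : ι, HasDerivAt (fun t => wt (e t) x y) (if x = y then -e' / e t ^ 2 else 0) t := by
    intro x y
    unfold wt
    by_cases hxy : x = y
    · simp only [hxy, if_true]
      have := (he.fun_inv he0.ne').const_add 1
      simpa [one_div] using this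
    · simp only [hxy, if_false]
      exact hasDerivAt_const t _
  have h1 : HasDerivAt (fun t => NN q (e t) (f t)) (∑ x, ∑ y,
      ((if x = y then -e' / e t ^ 2 else 0) * ‖f t x y‖ ^ (2 * q) + wt (e t) x y *
        (2 * q * ‖f t x y‖ ^ (2 * q - 2) * (star (f t x y) * g x y).re))) t := by
    unfold NN
    apply HasDerivAt.fun_sum
    intro x _
    apply HasDerivAt.fun_sum
    intro y _
    exact (hwt x y).fun_mul (hasDerivAt_normPow q (fun t => f t x y) (g x y) t (hf x y))
  refine h1.congr_deriv ?_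
  simp only [Finset.sum_add_distrib]
  rw [add_comm]
  congr 1
  rw [Finset.mul_sum]
  refine Finset.sum_congr rfl fun x _ => ?_
  rw [Finset.sum_eq_single x]
  · rw [if_pos rfl]
  · intro y _ hy
    rw [if_neg (Ne.symm hy), zero_mul]
  · intro h
    exact absurd (Finset.mem_univ x) h

/-- derivative of `DD q et f g` when `g` is the derivative of `f` -/
lemma hasDerivAt_DD (q : ℕ) (hq : 2 ≤ q) (et : ℝ) (f g : ℝ → Matrix ι ι ℂ) (k : Matrix ι ι ℂ)
    (t : ℝ) (hf : ∀ x y, HasDerivAt (fun t => f t x y) (g t x y) t)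
    (hg : ∀ x y, HasDerivAt (fun t => g t x y) (k x y) t) :
    HasDerivAt (fun t => DD q et (f t) (g t)) (DD q et (f t) k + QV q et (f t) (g t)) t := by
  have h1 : HasDerivAt (fun t => DD q et (f t) (g t)) (∑ x, ∑ y, wt et x y *
      (2 * q * (2 * ((q - 1 : ℕ) : ℝ) * ‖f t x y‖ ^ (2 * (q - 1) - 2) *
        (star (f t x y) * g t x y).re) * (star (f t x y) * g t x y).re +
      2 * q * ‖f t x y‖ ^ (2 * (q - 1)) *
        (star (g t x y) * g t x y + star (f t x y) * k x y).re)) t := by
    unfold DD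
    apply HasDerivAt.fun_sum
    intro x _
    apply HasDerivAt.fun_sum
    intro y _
    apply HasDerivAt.const_mul
    have h2 := (hasDerivAt_normPow (q - 1) (fun t => f t x y) (g t x y) t (hf x y)).const_mul
      (2 * (q : ℝ))
    have h3 : HasDerivAt (fun t => (star (f t x y) * g t x y).re)
        (star (g t x y) * g t x y + star (f t x y) * k x y).re t := by
      have h4 := (hf x y).star.fun_mul (hg x y)
      exact (Complex.reCLM.hasFDerivAt (x := star (f t x y) * g t x y)).comp_hasDerivAt t h4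
    have h5 := h2.fun_mul h3
    have h6 : (fun t => 2 * (q : ℝ) * ‖f t x y‖ ^ (2 * q - 2) * (star (f t x y) * g t x y).re) =
        fun t => 2 * (q : ℝ) * ‖f t x y‖ ^ (2 * (q - 1)) * (star (f t x y) * g t x y).re := by
      funext t
      have : 2 * q - 2 = 2 * (q - 1) := by omega
      rw [this]
    rw [h6]
    exact h5
  refine h1.congr_deriv ?_
  unfold DD QV
  rw [← Finset.sum_add_distrib]
  refine Finset.sum_congr rfl fun x _ => ?_
  rw [← Finset.sum_add_distrib]
  refine Finset.sum_congr rfl fun y _ => ?_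
  have h7 : (star (g t x y) * g t x y).re = ‖g t x y‖ ^ 2 := by
    have : star (g t x y) = (starRingEnd ℂ) (g t x y) := rfl
    rw [this, mul_comm, Complex.mul_conj, Complex.normSq_eq_norm_sq]
    exact Complex.ofReal_re _
  have h8 : 2 * (q - 1) = 2 * q - 2 := by omega
  have h9 : 2 * (q - 1) - 2 = 2 * q - 4 := by omega
  have h10 : ((q - 1 : ℕ) : ℝ) = (q : ℝ) - 1 := by
    rw [Nat.cast_sub (by omega)]; simp
  rw [Complex.add_re, h7, h9, h8, h10]
  ring

/-- `DD` is additive and real homogeneous in the second argument. -/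
lemma DD_add (q : ℕ) (et : ℝ) (f g k : Matrix ι ι ℂ) :
    DD q et f (g + k) = DD q et f g + DD q et f k := by
  unfold DD
  rw [← Finset.sum_add_distrib]
  refine Finset.sum_congr rfl fun x _ => ?_
  rw [← Finset.sum_add_distrib]
  refine Finset.sum_congr rfl fun y _ => ?_
  rw [Matrix.add_apply, mul_add, Complex.add_re]
  ring

lemma DD_smul (q : ℕ) (et : ℝ) (f g : Matrix ι ι ℂ) (c : ℝ) :
    DD q et f ((c : ℂ) • g) = c * DD q et f g := by
  unfold DD
  rw [Finset.mul_sum]
  refine Finset.sum_congr rfl fun x _ => ?_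
  rw [Finset.mul_sum]
  refine Finset.sum_congr rfl fun y _ => ?_
  have : (star (f x y) * ((c : ℂ) • g) x y).re = c * (star (f x y) * g x y).re := by
    rw [Matrix.smul_apply, smul_eq_mul, mul_left_comm, Complex.re_ofReal_mul]
  rw [this]
  ring

lemma DD_sum {κ : Type} (s : Finset κ) (q : ℕ) (et : ℝ) (f : Matrix ι ι ℂ)
    (g : κ → Matrix ι ι ℂ) : DD q et f (∑ i ∈ s, g i) = ∑ i ∈ s, DD q et f (g i) := by
  classical
  induction s using Finset.induction_on with
  | empty =>
    have := DD_smul q et f 0 0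
    simpa using this
  | insert a s ha ih =>
    rw [Finset.sum_insert ha, Finset.sum_insert ha, DD_add, ih]

end Pool.Agent.Kin
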