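import Pool.Agent.Kin.NiceP
import Pool.Agent.Kin.NiceG
import Pool.Agent.Kin.PowD

/-! KIN DRX: the combined drift of `N(X)` (sections A2, A7 (iii)). -/

open Matrix Finset

noncomputable section

namespace Pool.Agent.Kin

/-- Young -/
lemma drx_young (n : ℕ) (hn : 1 ≤ n) (a b : ℝ) (ha : 0 ≤ a) (hb : 0 ≤ b) :
    a ^ (n - 1) * b ≤ a ^ n + b ^ n := by
  obtain ⟨m, rfl⟩ : ∃ m, n = m + 1 := ⟨n - 1, by omega⟩
  rw [Nat.add_sub_cancel]
  rcases le_total b a with h | h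
  · have h1 : a ^ m * b ≤ a ^ m * a := mul_le_mul_of_nonneg_left h (by positivity)
    have h2 : 0 ≤ b ^ (m + 1) := by positivity
    rw [pow_succ a]
    linarith
  · have h1 : a ^ m * b ≤ b ^ m * b :=
      mul_le_mul_of_nonneg_right (pow_le_pow_left₀ ha h m) hb
    have h2 : 0 ≤ a ^ (m + 1) := by positivity
    rw [pow_succ b]
    linarith

lemma drx_wt {ι : Type} [DecidableEq ι] {et : ℝ} (het : 0 < et) (x y : ι) : 0 ≤ wt et x y := by
  unfold wt
  split_ifs <;> positivity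

/-- general drift bound: Young's inequality -/
lemma DD_le {ι : Type} [Fintype ι] [DecidableEq ι] (q : ℕ) (hq : 2 ≤ q) (et : ℝ) (het : 0 < et)
    (f g : Matrix ι ι ℂ) : et * DD q et f g ≤
      2 * q * (NN q et f + ∑ x, ∑ y, wt et x y * (et * ‖g x y‖) ^ (2 * q)) := by
  unfold DD NN
  rw [← Finset.sum_add_distrib, Finset.mul_sum, Finset.mul_sum]
  refine Finset.sum_le_sum fun x _ => ?_
  rw [← Finset.sum_add_distrib, Finset.mul_sum, Finset.mul_sum]
  refine Finset.sum_le_sum fun y _ => ?_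
  have hw := drx_wt het x y
  have h1 : (star (f x y) * g x y).re ≤ ‖f x y‖ * ‖g x y‖ := by
    refine (Complex.re_le_norm _).trans (le_of_eq ?_)
    rw [norm_mul, norm_star]
  have h2 := drx_young (2 * q) (by omega) ‖f x y‖ (et * ‖g x y‖) (norm_nonneg _) (by positivity)
  have h3 : ‖f x y‖ ^ (2 * q - 1) = ‖f x y‖ ^ (2 * q - 2) * ‖f x y‖ := by
    rw [← pow_succ]
    congr 1
    omega
  rw [h3] at h2
  have h4 : et * (wt et x y * (2 * q * ‖f x y‖ ^ (2 * q - 2) * (star (f x y) * g x y).re)) ≤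
      et * (wt et x y * (2 * q * ‖f x y‖ ^ (2 * q - 2) * (‖f x y‖ * ‖g x y‖))) := by
    gcongr
  refine h4.trans ?_
  have h5 : 0 ≤ 2 * (q : ℝ) * wt et x y := by positivity
  have h6 := mul_le_mul_of_nonneg_left h2 h5
  refine (le_of_eq ?_).trans (h6.trans (le_of_eq ?_)) <;> ring

/-- combined drift of `X`: `rX + s r ∑ ddX = 2 r s G x G` -/
lemma drift_X_eq {ι P : Type} [Fintype ι] [DecidableEq ι] [Fintype P] (D : Dat ι P)
    (r : ℝ) (h : ι → ℝ) :
    D.rX r h + ((D.s * r : ℝ) : ℂ) • ∑ w, D.ddX w r h =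
      ((2 * r * D.s : ℝ) : ℂ) •
        (D.G r h * Matrix.diagonal (fun w => D.G r h w w - D.g0) * D.G r h) := by
  ext x y
  rw [Matrix.add_apply, Matrix.smul_apply, Matrix.smul_apply, nice_entry, Matrix.sum_apply]
  unfold Dat.rX Dat.ddX
  rw [Matrix.smul_apply, Matrix.mul_apply]
  simp only [smul_eq_mul, Finset.mul_sum]
  rw [← Finset.sum_add_distrib]
  refine Finset.sum_congr rfl fun w _ => ?_
  push_cast
  ring

lemma drx_et {ι P : Type} [Fintype ι] [DecidableEq ι] [Fintype P] (D : Dat ι P) (hD : D.Hyp)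
    {r : ℝ} (h0 : 0 ≤ r) (h1 : r ≤ 1) : D.eta ≤ D.et r := by
  unfold Dat.et
  have hs : 0 ≤ D.s := by
    unfold Dat.s
    have := hD.sg0
    positivity
  have h2 : 0 ≤ 1 - r ^ 2 := by nlinarith
  have h3 := mul_nonneg (mul_nonneg hs h2) hD.g0im.le
  linarith

lemma drx_diag {ι : Type} [Fintype ι] [DecidableEq ι] (q : ℕ) {et : ℝ} (het : 0 < et)
    (f : Matrix ι ι ℂ) : 1 / et * ∑ x, ‖f x x‖ ^ (2 * q) ≤ NN q et f := by
  unfold NN
  rw [Finset.mul_sum]
  refine Finset.sum_le_sum fun x _ => ?_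
  have h1 : wt et x x * ‖f x x‖ ^ (2 * q) ≤ ∑ y, wt et x y * ‖f x y‖ ^ (2 * q) :=
    Finset.single_le_sum (f := fun y => wt et x y * ‖f x y‖ ^ (2 * q))
      (fun y _ => mul_nonneg (drx_wt het x y) (by positivity)) (Finset.mem_univ x)
  refine le_trans ?_ h1
  refine mul_le_mul_of_nonneg_right ?_ (by positivity)
  unfold wt
  rw [if_pos rfl]
  linarith

lemma drx_NN_nonneg {ι : Type} [Fintype ι] [DecidableEq ι] (q : ℕ) {et : ℝ} (het : 0 < et)
    (f : Matrix ι ι ℂ) : 0 ≤ NN q et f :=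
  Finset.sum_nonneg fun x _ => Finset.sum_nonneg fun y _ =>
    mul_nonneg (drx_wt het x y) (by positivity)

lemma drx_pow (q : ℕ) (a b : ℝ) (ha : 0 ≤ a) (hb : 0 ≤ b) :
    (a + b) ^ (2 * q) ≤ 4 ^ q * (a ^ (2 * q) + b ^ (2 * q)) := by
  have h4 : (4 : ℝ) ^ q = 2 ^ (2 * q) := by
    rw [pow_mul]
    norm_num
  have ha' : 0 ≤ a ^ (2 * q) := by positivity
  have hb' : 0 ≤ b ^ (2 * q) := by positivity
  rw [h4]
  rcases le_total a b with h | h
  · have h1 : (a + b) ^ (2 * q) ≤ (2 * b) ^ (2 * q) :=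
      pow_le_pow_left₀ (by positivity) (by linarith) _
    rw [mul_pow] at h1
    refine h1.trans ?_
    gcongr
    linarith
  · have h1 : (a + b) ^ (2 * q) ≤ (2 * a) ^ (2 * q) :=
      pow_le_pow_left₀ (by positivity) (by linarith) _
    rw [mul_pow] at h1
    refine h1.trans ?_
    gcongr
    linarith

/-- the source of the drift -/
lemma drx_src {ι P : Type} [Fintype ι] [DecidableEq ι] [Fintype P] (D : Dat ι P) (hD : D.Hyp)
    {r : ℝ} (h0 : 0 ≤ r) (h1 : r ≤ 1) (h : ι → ℝ) :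
    (1 / D.et r) * ∑ w, ‖D.G r h w w - D.g0‖ ^ (2 * D.q) ≤
      4 ^ D.q * (NN D.q (D.et r) (D.X r h) + D.NB * D.dbar ^ (2 * D.q)) := by
  have hee := drx_et D hD h0 h1
  have het : 0 < D.et r := hD.eta0.trans_le hee
  have hdb : 0 ≤ D.dbar ^ (2 * D.q) := by
    rw [pow_mul]
    positivity
  have h2 : ∀ w, ‖D.G r h w w - D.g0‖ ^ (2 * D.q) ≤
      4 ^ D.q * (‖D.X r h w w‖ ^ (2 * D.q) + D.dbar ^ (2 * D.q)) := by
    intro w
    have h3 : ‖D.G r h w w - D.g0‖ ≤ ‖D.X r h w w‖ + ‖D.M w w - D.g0‖ := by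
      have : D.G r h w w - D.g0 = D.X r h w w + (D.M w w - D.g0) := by
        unfold Dat.X
        rw [Matrix.sub_apply]
        ring
      rw [this]
      exact norm_add_le _ _
    refine (pow_le_pow_left₀ (norm_nonneg _) h3 _).trans
      ((drx_pow _ _ _ (norm_nonneg _) (norm_nonneg _)).trans ?_)
    refine mul_le_mul_of_nonneg_left ?_ (by positivity)
    have := pow_le_pow_left₀ (norm_nonneg _) (hD.Mg w) (2 * D.q)
    linarith
  have h3 : (1 / D.et r) * ∑ w, ‖D.G r h w w - D.g0‖ ^ (2 * D.q) ≤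
      (1 / D.et r) * ∑ w, 4 ^ D.q * (‖D.X r h w w‖ ^ (2 * D.q) + D.dbar ^ (2 * D.q)) :=
    mul_le_mul_of_nonneg_left (Finset.sum_le_sum fun w _ => h2 w) (by positivity)
  refine h3.trans ?_
  rw [← Finset.mul_sum, Finset.sum_add_distrib, Finset.sum_const, Finset.card_univ,
    nsmul_eq_mul]
  have h4 := drx_diag D.q het (D.X r h)
  have h5 : (1 / D.et r) * ((Fintype.card ι : ℝ) * D.dbar ^ (2 * D.q)) ≤
      D.NB * D.dbar ^ (2 * D.q) := by
    unfold Dat.NB
    have h6 : (Fintype.card ι : ℝ) / D.et r ≤ Fintype.card ι / D.eta :=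
      div_le_div_of_nonneg_left (by positivity) hD.eta0 hee
    have h7 : 0 ≤ (Fintype.card ι : ℝ) ^ 2 := by positivity
    calc (1 / D.et r) * ((Fintype.card ι : ℝ) * D.dbar ^ (2 * D.q))
        = (Fintype.card ι : ℝ) / D.et r * D.dbar ^ (2 * D.q) := by ring
      _ ≤ _ := mul_le_mul_of_nonneg_right (by linarith) hdb
  calc 1 / D.et r * (4 ^ D.q * (∑ w, ‖D.X r h w w‖ ^ (2 * D.q) +
        (Fintype.card ι : ℝ) * D.dbar ^ (2 * D.q)))
      = 4 ^ D.q * (1 / D.et r * ∑ w, ‖D.X r h w w‖ ^ (2 * D.q) +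
        1 / D.et r * ((Fintype.card ι : ℝ) * D.dbar ^ (2 * D.q))) := by ring
    _ ≤ _ := mul_le_mul_of_nonneg_left (add_le_add h4 h5) (by positivity)

/-- the weight part -/
lemma drx_rW {ι P : Type} [Fintype ι] [DecidableEq ι] [Fintype P] (D : Dat ι P) (hD : D.Hyp)
    {r : ℝ} (h0 : 0 ≤ r) (h1 : r ≤ 1) (f : Matrix ι ι ℂ) :
    D.rW r f ≤ 2 * r * (D.s / D.et r) * (D.C1 * NN D.q (D.et r) f) := by
  have hee := drx_et D hD h0 h1
  have het : 0 < D.et r := hD.eta0.trans_le hee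
  have hs : 0 ≤ D.s := by
    unfold Dat.s
    have := hD.sg0
    positivity
  have h2 := drx_diag D.q het f
  have h3 : D.g0.im ≤ D.C1 := (Complex.im_le_norm _).trans hD.g0C
  have h4 : D.rW r f = 2 * r * (D.s / D.et r) * (D.g0.im * (1 / D.et r *
      ∑ x, ‖f x x‖ ^ (2 * D.q))) := by
    unfold Dat.rW
    field_simp
  rw [h4]
  refine mul_le_mul_of_nonneg_left ?_ (by positivity)
  have h5 : 0 ≤ 1 / D.et r * ∑ x, ‖f x x‖ ^ (2 * D.q) :=
    mul_nonneg (by positivity) (Finset.sum_nonneg fun x _ => by positivity)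
  exact mul_le_mul h3 h2 h5 (by linarith [hD.C10])

theorem driftX (q : ℕ) (hq : 2 ≤ q) (C1 : ℝ) (hC1 : 1 ≤ C1) : ∃ C : ℝ, 0 < C ∧
    ∀ (ι P : Type) [Fintype ι] [DecidableEq ι] [Fintype P] (D : Dat ι P), D.Hyp → D.q = q →
      D.C1 = C1 → ∀ r : ℝ, 0 ≤ r → r ≤ 1 → ∀ h : ι → ℝ, D.Good r h →
      DD q (D.et r) (D.X r h) (D.rX r h) + D.rW r (D.X r h) +
        D.s * r * ∑ w, DD q (D.et r) (D.X r h) (D.ddX w r h) ≤
      2 * r * (D.s / D.et r) * (C * (NN q (D.et r) (D.X r h) + D.NB * D.dbar ^ (2 * q))) := by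
  refine ⟨2 * q * (1 + 2 * 4 ^ q * C1 ^ (2 * q) * 4 ^ q) + C1, by positivity, ?_⟩
  intro ι P _ _ _ D hD hDq hDC r hr0 hr1 h hg
  have hee := drx_et D hD hr0 hr1
  have het : 0 < D.et r := hD.eta0.trans_le hee
  have hs : 0 ≤ D.s := by
    unfold Dat.s
    have := hD.sg0
    positivity
  have hN := drx_NN_nonneg q het (D.X r h)
  have hdb : 0 ≤ D.NB * D.dbar ^ (2 * q) := by
    rw [pow_mul]
    have : 0 ≤ D.NB := by
      unfold Dat.NB
      have := hD.eta0
      positivity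
    positivity
  -- the combined drift
  have e1 : DD q (D.et r) (D.X r h) (D.rX r h) +
      D.s * r * ∑ w, DD q (D.et r) (D.X r h) (D.ddX w r h) =
      2 * r * D.s * DD q (D.et r) (D.X r h)
        (D.G r h * Matrix.diagonal (fun w => D.G r h w w - D.g0) * D.G r h) := by
    rw [← DD_smul, ← drift_X_eq, DD_add, DD_smul, DD_sum]
  -- Young and the bound for `G x G`
  have e2 := DD_le q hq (D.et r) het (D.X r h)
    (D.G r h * Matrix.diagonal (fun w => D.G r h w w - D.g0) * D.G r h)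
  have e3 := nice_power het (hDC ▸ hC1 : 1 ≤ D.C1) (D.nice_G hD hr0 hr1 h hg)
    (D.nice_G hD hr0 hr1 h hg) q hq (fun w => D.G r h w w - D.g0)
  have e4 := drx_src D hD hr0 hr1 h
  have e5 := drx_rW D hD hr0 hr1 (D.X r h)
  rw [hDq] at e4 e5
  rw [hDC] at e3 e5
  set N := NN q (D.et r) (D.X r h) with hNdef
  set T := D.NB * D.dbar ^ (2 * q) with hT
  set GG := DD q (D.et r) (D.X r h)
        (D.G r h * Matrix.diagonal (fun w => D.G r h w w - D.g0) * D.G r h) with hGG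
  have e6 : D.et r * GG ≤ 2 * q * (N + 2 * 4 ^ q * C1 ^ (2 * q) * (4 ^ q * (N + T))) := by
    refine e2.trans ?_
    have := mul_le_mul_of_nonneg_left e4 (by positivity : 0 ≤ 2 * 4 ^ q * C1 ^ (2 * q))
    gcongr
    linarith
  have e7 : 2 * r * D.s * GG = 2 * r * (D.s / D.et r) * (D.et r * GG) := by
    field_simp
  have e8 : 0 ≤ 2 * r * (D.s / D.et r) := by positivity
  have e9 := mul_le_mul_of_nonneg_left e6 e8
  calc DD q (D.et r) (D.X r h) (D.rX r h) + D.rW r (D.X r h) +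
        D.s * r * ∑ w, DD q (D.et r) (D.X r h) (D.ddX w r h)
      = 2 * r * D.s * GG + D.rW r (D.X r h) := by rw [← e1]; ring
    _ ≤ 2 * r * (D.s / D.et r) * (2 * q * (N + 2 * 4 ^ q * C1 ^ (2 * q) * (4 ^ q * (N + T)))) +
        2 * r * (D.s / D.et r) * (C1 * N) := by
        rw [e7]
        exact add_le_add e9 e5
    _ = 2 * r * (D.s / D.et r) * (2 * q * (N + 2 * 4 ^ q * C1 ^ (2 * q) * (4 ^ q * (N + T))) +
        C1 * N) := by ring
    _ ≤ _ := by
        refine mul_le_mul_of_nonneg_left ?_ e8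
        have f1 : 0 ≤ (2 * (q : ℝ)) * T := by positivity
        have f2 : 0 ≤ C1 * T := by positivity
        linarith

end Pool.Agent.Kin
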