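import Pool.Agent.Kin.DrX

/-! KIN DRZ: the combined drift of `N(Z^p)` (sections A2, A7 (iii)). -/

open Matrix Finset

noncomputable section

namespace Pool.Agent.Kin

private lemma drz_mul_diag_mul {ι : Type} [Fintype ι] [DecidableEq ι] (A B : Matrix ι ι ℂ)
    (d : ι → ℂ) (x y : ι) :
    (A * Matrix.diagonal d * B) x y = ∑ w, A x w * d w * B w y := by
  rw [Matrix.mul_apply]
  refine Finset.sum_congr rfl fun w _ => ?_
  rw [Matrix.mul_diagonal]

private lemma drz_F_apply {ι P : Type} [Fintype ι] [DecidableEq ι] [Fintype P] (D : Dat ι P)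
    (p : P) (r : ℝ) (h : ι → ℝ) (x y : ι) :
    D.F p r h x y = ∑ w, D.G r h x w * D.b p w * star (D.G r h y w) := by
  unfold Dat.F
  rw [drz_mul_diag_mul]
  rfl

private lemma drz_Fb_diag {ι P : Type} [Fintype ι] [DecidableEq ι] [Fintype P] (D : Dat ι P)
    (hD : D.Hyp) (p : P) (r : ℝ) (w : ι) :
    D.Fb p r w w = (D.Fh p r : ℂ) * D.b p w := by
  unfold Dat.Fb Dat.Fh
  rw [Matrix.smul_apply, hD.Sdiag, smul_eq_mul]
  push_cast
  ring

/-- combined drift of `Z` -/
lemma drift_Z_eq {ι P : Type} [Fintype ι] [DecidableEq ι] [Fintype P] (D : Dat ι P) (hD : D.Hyp)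
    (p : P) (r : ℝ) (h0 : 0 ≤ r) (h1 : r ≤ 1) (h : ι → ℝ) :
    D.rZ p r h + ((D.s * r : ℝ) : ℂ) • ∑ w, D.ddZ p w r h =
      ((2 * r * D.s : ℝ) : ℂ) •
        (D.G r h * Matrix.diagonal (fun w => D.G r h w w - D.g0) * ((D.eta : ℂ) • D.F p r h) +
          ((D.eta : ℂ) • D.F p r h) * Matrix.diagonal (fun w => star (D.G r h w w - D.g0)) *
            (D.G r h)ᴴ +
          ((D.Fh p r : ℝ) : ℂ) • D.Z p r h +
          D.G r h * Matrix.diagonal (fun w => D.Z p r h w w) * (D.G r h)ᴴ) := by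
  ext x y
  -- the basic sums
  set S1 := ∑ w, D.G r h x w * D.G r h w w * D.F p r h w y with hS1
  set S2 := ∑ w, D.G r h x w * D.F p r h w w * star (D.G r h y w) with hS2
  set S3 := ∑ w, D.F p r h x w * star (D.G r h w w) * star (D.G r h y w) with hS3
  set S4 := ∑ w, D.G r h x w * D.F p r h w y with hS4
  set S5 := ∑ w, D.F p r h x w * star (D.G r h y w) with hS5
  have e1 : D.rZ p r h x y = (D.eta : ℂ) * (-(2 * (r : ℂ) * (D.s : ℂ)) *
      (D.g0 * S4 + star D.g0 * S5) - ((2 * r * D.s * D.Fh p r : ℝ) : ℂ) * D.Fb p r x y) := by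
    unfold Dat.rZ
    simp only [Matrix.smul_apply, Matrix.sub_apply, Matrix.add_apply, smul_eq_mul]
    rw [Matrix.mul_apply, Matrix.mul_apply]
    rfl
  have e2 : (∑ w, D.ddZ p w r h) x y = 2 * (D.eta : ℂ) * (S1 + S2 + S3) := by
    rw [Matrix.sum_apply, hS1, hS2, hS3, ← Finset.sum_add_distrib, ← Finset.sum_add_distrib,
      Finset.mul_sum]
    rfl
  have e3 : (D.G r h * Matrix.diagonal (fun w => D.G r h w w - D.g0) *
      ((D.eta : ℂ) • D.F p r h)) x y = (D.eta : ℂ) * (S1 - D.g0 * S4) := by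
    rw [drz_mul_diag_mul, hS1, hS4, Finset.mul_sum, ← Finset.sum_sub_distrib, Finset.mul_sum]
    refine Finset.sum_congr rfl fun w _ => ?_
    rw [Matrix.smul_apply, smul_eq_mul]
    ring
  have e4 : (((D.eta : ℂ) • D.F p r h) * Matrix.diagonal (fun w => star (D.G r h w w - D.g0)) *
      (D.G r h)ᴴ) x y = (D.eta : ℂ) * (S3 - star D.g0 * S5) := by
    rw [drz_mul_diag_mul, hS3, hS5, Finset.mul_sum, ← Finset.sum_sub_distrib, Finset.mul_sum]
    refine Finset.sum_congr rfl fun w _ => ?_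
    rw [Matrix.smul_apply, smul_eq_mul, star_sub, Matrix.conjTranspose_apply]
    ring
  have e5 : (D.G r h * Matrix.diagonal (fun w => D.Z p r h w w) * (D.G r h)ᴴ) x y =
      (D.eta : ℂ) * (S2 - (D.Fh p r : ℂ) * D.F p r h x y) := by
    rw [drz_mul_diag_mul, hS2, drz_F_apply D p r h x y, Finset.mul_sum, ← Finset.sum_sub_distrib,
      Finset.mul_sum]
    refine Finset.sum_congr rfl fun w _ => ?_
    have : D.Z p r h w w = (D.eta : ℂ) * (D.F p r h w w - (D.Fh p r : ℂ) * D.b p w) := by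
      unfold Dat.Z
      rw [Matrix.smul_apply, Matrix.sub_apply, smul_eq_mul, drz_Fb_diag D hD]
    rw [this, Matrix.conjTranspose_apply]
    ring
  have e6 : D.Z p r h x y = (D.eta : ℂ) * (D.F p r h x y - D.Fb p r x y) := by
    unfold Dat.Z
    rw [Matrix.smul_apply, Matrix.sub_apply, smul_eq_mul]
  rw [Matrix.add_apply, Matrix.smul_apply, Matrix.smul_apply, Matrix.add_apply, Matrix.add_apply,
    Matrix.add_apply, Matrix.smul_apply, e1, e2, e3, e4, e5, e6]
  simp only [smul_eq_mul]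
  push_cast
  ring

private lemma drz_diag_le {ι : Type} [Fintype ι] [DecidableEq ι] (q : ℕ) {et : ℝ} (het : 0 < et)
    (f : Matrix ι ι ℂ) : (1 / et) * ∑ w, ‖f w w‖ ^ (2 * q) ≤ NN q et f := by
  unfold NN
  rw [Finset.mul_sum]
  refine Finset.sum_le_sum fun x _ => ?_
  have h1 : wt et x x * ‖f x x‖ ^ (2 * q) ≤ ∑ y, wt et x y * ‖f x y‖ ^ (2 * q) := by
    refine Finset.single_le_sum (f := fun y => wt et x y * ‖f x y‖ ^ (2 * q)) (fun y _ => ?_)
      (Finset.mem_univ x)
    unfold wt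
    split_ifs <;> positivity
  refine le_trans ?_ h1
  refine mul_le_mul_of_nonneg_right ?_ (by positivity)
  unfold wt
  rw [if_pos rfl]
  linarith

private lemma drz_NN_nonneg {ι : Type} [Fintype ι] [DecidableEq ι] (q : ℕ) {et : ℝ} (het : 0 < et)
    (f : Matrix ι ι ℂ) : 0 ≤ NN q et f := by
  unfold NN
  refine Finset.sum_nonneg fun x _ => Finset.sum_nonneg fun y _ => ?_
  unfold wt
  split_ifs <;> positivity

private lemma drz_add_pow {a b : ℝ} (ha : 0 ≤ a) (hb : 0 ≤ b) (q : ℕ) :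
    (a + b) ^ (2 * q) ≤ 4 ^ q * (a ^ (2 * q) + b ^ (2 * q)) := by
  have h1 : a + b ≤ 2 * max a b := by
    have := le_max_left a b
    have := le_max_right a b
    linarith
  calc (a + b) ^ (2 * q) ≤ (2 * max a b) ^ (2 * q) := by gcongr
    _ = 4 ^ q * (max a b) ^ (2 * q) := by
      rw [mul_pow, pow_mul]
      norm_num
    _ ≤ 4 ^ q * (a ^ (2 * q) + b ^ (2 * q)) := by
      gcongr
      rcases max_cases a b with ⟨h, _⟩ | ⟨h, _⟩ <;> rw [h]
      · have : 0 ≤ b ^ (2 * q) := by positivity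
        linarith
      · have : 0 ≤ a ^ (2 * q) := by positivity
        linarith

theorem driftZ (q : ℕ) (hq : 2 ≤ q) (C1 : ℝ) (hC1 : 1 ≤ C1) : ∃ C : ℝ, 0 < C ∧
    ∀ (ι P : Type) [Fintype ι] [DecidableEq ι] [Fintype P] (D : Dat ι P), D.Hyp → D.q = q →
      D.C1 = C1 → ∀ (p : P) (r : ℝ), 0 ≤ r → r ≤ 1 → ∀ h : ι → ℝ, D.Good r h →
      DD q (D.et r) (D.Z p r h) (D.rZ p r h) + D.rW r (D.Z p r h) +
        D.s * r * ∑ w, DD q (D.et r) (D.Z p r h) (D.ddZ p w r h) ≤
      2 * r * (D.s / D.et r) * (C * (NN q (D.et r) (D.Z p r h) + NN q (D.et r) (D.X r h) +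
        D.NB * D.dbar ^ (2 * q))) := by
  set κ : ℝ := 2 * 4 ^ q * C1 ^ (2 * q) with hκ
  have hκ0 : 0 ≤ κ := by positivity
  refine ⟨8 * q + 2 * q * (2 * κ * 4 ^ q + (2 * C1) ^ (2 * q) + κ) + C1, by positivity, ?_⟩
  intro ι P _ _ _ D hD hDq hDC p r h0 h1 h hg
  have het : 0 < D.et r := lt_of_lt_of_le hD.eta0 (D.et_pos hD h0 h1).1
  have heta : 0 < D.eta := hD.eta0
  have hs : 0 < D.s := by
    unfold Dat.s
    have := hD.lam0
    have := hD.sg0
    positivity
  set et := D.et r with hetdef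
  set Z := D.Z p r h with hZ
  set X := D.X r h with hX
  have hNZ := drz_NN_nonneg q het Z
  have hNX := drz_NN_nonneg q het X
  have hdb : 0 ≤ D.NB * D.dbar ^ (2 * q) := by
    unfold Dat.NB
    have : 0 ≤ D.dbar ^ (2 * q) := by
      rw [pow_mul]
      positivity
    positivity
  -- the parts of the drift
  set K1 := D.G r h * Matrix.diagonal (fun w => D.G r h w w - D.g0) * ((D.eta : ℂ) • D.F p r h)
    with hK1
  set K2 := ((D.eta : ℂ) • D.F p r h) * Matrix.diagonal (fun w => star (D.G r h w w - D.g0)) *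
    (D.G r h)ᴴ with hK2
  set K3 := ((D.Fh p r : ℝ) : ℂ) • Z with hK3
  set K4 := D.G r h * Matrix.diagonal (fun w => Z w w) * (D.G r h)ᴴ with hK4
  have hsum : DD q et Z (D.rZ p r h) + D.s * r * ∑ w, DD q et Z (D.ddZ p w r h) =
      2 * r * D.s * (DD q et Z K1 + DD q et Z K2 + DD q et Z K3 + DD q et Z K4) := by
    rw [← DD_sum, ← DD_smul, ← DD_add, drift_Z_eq D hD p r h0 h1 h, DD_smul, DD_add, DD_add,
      DD_add]
  -- nice matrices
  have nG : Nice et C1 (D.G r h) := by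
    have := D.nice_G hD h0 h1 h hg
    rwa [hDC] at this
  have nGH : Nice et C1 (D.G r h)ᴴ := by
    have := D.nice_GH hD h0 h1 h hg
    rwa [hDC] at this
  have nF : Nice et C1 ((D.eta : ℂ) • D.F p r h) := by
    have := D.nice_F hD h0 h1 h hg p
    rwa [hDC] at this
  -- the diagonal of `G`
  have hx : (1 / et) * ∑ w, ‖D.G r h w w - D.g0‖ ^ (2 * q) ≤
      4 ^ q * (NN q et X + D.NB * D.dbar ^ (2 * q)) := by
    have e1 : ∀ w, ‖D.G r h w w - D.g0‖ ^ (2 * q) ≤
        4 ^ q * (‖X w w‖ ^ (2 * q) + D.dbar ^ (2 * q)) := by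
      intro w
      have e2 : ‖D.G r h w w - D.g0‖ ≤ ‖X w w‖ + D.dbar := by
        have e3 : D.G r h w w - D.g0 = X w w + (D.M w w - D.g0) := by
          rw [hX]
          unfold Dat.X
          rw [Matrix.sub_apply]
          ring
        rw [e3]
        exact (norm_add_le _ _).trans (by linarith [hD.Mg w])
      have e4 : 0 ≤ D.dbar := (norm_nonneg _).trans (hD.Mg w)
      calc ‖D.G r h w w - D.g0‖ ^ (2 * q) ≤ (‖X w w‖ + D.dbar) ^ (2 * q) := by gcongr
        _ ≤ _ := drz_add_pow (norm_nonneg _) e4 q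
    calc (1 / et) * ∑ w, ‖D.G r h w w - D.g0‖ ^ (2 * q)
        ≤ (1 / et) * ∑ w, 4 ^ q * (‖X w w‖ ^ (2 * q) + D.dbar ^ (2 * q)) := by
          gcongr with w
          exact e1 w
      _ = 4 ^ q * ((1 / et) * ∑ w, ‖X w w‖ ^ (2 * q) +
          (Fintype.card ι / et) * D.dbar ^ (2 * q)) := by
          rw [← Finset.mul_sum, Finset.sum_add_distrib, Finset.sum_const, Finset.card_univ,
            nsmul_eq_mul]
          ring
      _ ≤ 4 ^ q * (NN q et X + D.NB * D.dbar ^ (2 * q)) := by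
          have f1 := drz_diag_le q het X
          have f2 : (Fintype.card ι : ℝ) / et ≤ D.NB := by
            unfold Dat.NB
            have f3 : (Fintype.card ι : ℝ) / et ≤ Fintype.card ι / D.eta := by
              gcongr
              exact (D.et_pos hD h0 h1).1
            have f4 : (0 : ℝ) ≤ (Fintype.card ι : ℝ) ^ 2 := by positivity
            linarith
          have f5 : 0 ≤ D.dbar ^ (2 * q) := by
            rw [pow_mul]
            positivity
          gcongr
  have p1 : ∑ i, ∑ j, wt et i j * (et * ‖K1 i j‖) ^ (2 * q) ≤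
      κ * (4 ^ q * (NN q et X + D.NB * D.dbar ^ (2 * q))) := by
    refine (nice_power het hC1 nG nF q hq _).trans ?_
    exact mul_le_mul_of_nonneg_left hx hκ0
  have p2 : ∑ i, ∑ j, wt et i j * (et * ‖K2 i j‖) ^ (2 * q) ≤
      κ * (4 ^ q * (NN q et X + D.NB * D.dbar ^ (2 * q))) := by
    refine (nice_power het hC1 nF nGH q hq _).trans ?_
    refine mul_le_mul_of_nonneg_left ?_ hκ0
    simp only [norm_star]
    exact hx
  have p3 : ∑ i, ∑ j, wt et i j * (et * ‖K3 i j‖) ^ (2 * q) ≤ (2 * C1) ^ (2 * q) * NN q et Z := by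
    unfold NN
    rw [Finset.mul_sum]
    refine Finset.sum_le_sum fun i _ => ?_
    rw [Finset.mul_sum]
    refine Finset.sum_le_sum fun j _ => ?_
    have e1 : et * ‖K3 i j‖ ≤ 2 * C1 * ‖Z i j‖ := by
      rw [hK3, Matrix.smul_apply, smul_eq_mul, norm_mul, Complex.norm_real, Real.norm_eq_abs,
        ← mul_assoc]
      refine mul_le_mul_of_nonneg_right ?_ (norm_nonneg _)
      have e2 := hD.Fhb p r h0 h1
      rw [hDC] at e2
      calc et * |D.Fh p r| ≤ et * (2 * C1 / et) := by gcongr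
        _ = 2 * C1 := by field_simp
    have e3 : 0 ≤ wt et i j := by
      unfold wt
      split_ifs <;> positivity
    calc wt et i j * (et * ‖K3 i j‖) ^ (2 * q) ≤ wt et i j * (2 * C1 * ‖Z i j‖) ^ (2 * q) := by
          gcongr
      _ = (2 * C1) ^ (2 * q) * (wt et i j * ‖Z i j‖ ^ (2 * q)) := by
          rw [mul_pow]
          ring
  have p4 : ∑ i, ∑ j, wt et i j * (et * ‖K4 i j‖) ^ (2 * q) ≤ κ * NN q et Z := by
    refine (nice_power het hC1 nG nGH q hq _).trans ?_
    exact mul_le_mul_of_nonneg_left (drz_diag_le q het Z) hκ0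
  have d1 := DD_le q hq et het Z K1
  have d2 := DD_le q hq et het Z K2
  have d3 := DD_le q hq et het Z K3
  have d4 := DD_le q hq et het Z K4
  -- the weight part
  have hW : D.rW r Z ≤ 2 * r * (D.s / et) * (C1 * NN q et Z) := by
    unfold Dat.rW
    rw [hDq, ← hetdef]
    have e1 := drz_diag_le q het Z
    have e2 : D.g0.im ≤ C1 := by
      have := hD.g0C
      rw [hDC] at this
      exact (Complex.im_le_norm _).trans this
    have e3 := hD.g0im
    calc 2 * r * D.s * D.g0.im / et ^ 2 * ∑ x, ‖Z x x‖ ^ (2 * q)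
        = 2 * r * (D.s / et) * (D.g0.im * ((1 / et) * ∑ x, ‖Z x x‖ ^ (2 * q))) := by
          field_simp
      _ ≤ 2 * r * (D.s / et) * (C1 * NN q et Z) := by
          gcongr
  -- conclusion
  have hDD : DD q et Z K1 + DD q et Z K2 + DD q et Z K3 + DD q et Z K4 ≤
      1 / et * (8 * q * NN q et Z + 2 * q * (2 * (κ * (4 ^ q * (NN q et X +
        D.NB * D.dbar ^ (2 * q)))) + (2 * C1) ^ (2 * q) * NN q et Z + κ * NN q et Z)) := by
    rw [one_div, inv_mul_eq_div, le_div_iff₀ het]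
    have hq0 : (0 : ℝ) ≤ 2 * q := by positivity
    have m1 := mul_le_mul_of_nonneg_left p1 hq0
    have m2 := mul_le_mul_of_nonneg_left p2 hq0
    have m3 := mul_le_mul_of_nonneg_left p3 hq0
    have m4 := mul_le_mul_of_nonneg_left p4 hq0
    linarith
  have hrs : 0 ≤ 2 * r * D.s := by positivity
  have hfin := mul_le_mul_of_nonneg_left hDD hrs
  calc DD q et Z (D.rZ p r h) + D.rW r Z + D.s * r * ∑ w, DD q et Z (D.ddZ p w r h)
      = 2 * r * D.s * (DD q et Z K1 + DD q et Z K2 + DD q et Z K3 + DD q et Z K4) +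
        D.rW r Z := by
        rw [← hsum]
        ring
    _ ≤ 2 * r * D.s * (1 / et * (8 * q * NN q et Z + 2 * q * (2 * (κ * (4 ^ q * (NN q et X +
        D.NB * D.dbar ^ (2 * q)))) + (2 * C1) ^ (2 * q) * NN q et Z + κ * NN q et Z))) +
        2 * r * (D.s / et) * (C1 * NN q et Z) := add_le_add hfin hW
    _ = 2 * r * (D.s / et) * (8 * q * NN q et Z + 2 * q * (2 * (κ * (4 ^ q * (NN q et X +
        D.NB * D.dbar ^ (2 * q)))) + (2 * C1) ^ (2 * q) * NN q et Z + κ * NN q et Z) +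
        C1 * NN q et Z) := by
        field_simp
    _ ≤ _ := by
        refine mul_le_mul_of_nonneg_left ?_ (by positivity)
        have hq0 : (0 : ℝ) ≤ q := by positivity
        have g1 : 0 ≤ (8 * q + 2 * q * ((2 * C1) ^ (2 * q) + κ) + C1) * (NN q et X +
            D.NB * D.dbar ^ (2 * q)) := by positivity
        have g2 : 0 ≤ 2 * q * (2 * κ * 4 ^ q) * NN q et Z := by positivity
        nlinarith [g1, g2]

end Pool.Agent.Kin
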