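import Mathlib

/-! KIN FHAT: the algebra of `Fhat_r = S/(1 - s r² S)` (section B7). `S0 = A/γ`,
`γ = η + s g`, `|A - g| ≤ dbar`, `s dbar ≤ η/2`. -/

noncomputable section

namespace Pool.Agent.Kin

theorem fhat_bounds (η s g A dbar S r : ℝ) (hη : 0 < η) (hs : 0 < s) (hg : 0 < g) (hA : 0 < A)
    (hAg : |A - g| ≤ dbar) (hd : s * dbar ≤ η / 2) (hS : |S| ≤ A / (η + s * g)) (h0 : 0 ≤ r)
    (h1 : r ≤ 1) :
    0 < 1 - s * r ^ 2 * S ∧
    |S / (1 - s * r ^ 2 * S)| ≤ 2 * A / (η + s * (1 - r ^ 2) * g) ∧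
    ∀ κ : ℝ, 0 < κ → κ ≤ 1 → κ * (A / (η + s * g)) ≤ A / (η + s * g) - S →
      |S / (1 - s * r ^ 2 * S)| ≤ (2 + 2 * A / g) / (s * κ) := by
  have hγ : 0 < η + s * g := by positivity
  set γ := η + s * g with hγd
  have hr2 : 0 ≤ r ^ 2 := by positivity
  have hr1 : r ^ 2 ≤ 1 := by nlinarith
  have hηr : 0 < η + s * (1 - r ^ 2) * g := by
    have : 0 ≤ s * (1 - r ^ 2) * g := mul_nonneg (mul_nonneg hs.le (by linarith)) hg.le
    linarith
  have hAg' : A ≤ g + dbar := by
    have := (abs_le.1 hAg).2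
    linarith
  have hsA : s * A ≤ s * g + η / 2 := by
    have := mul_le_mul_of_nonneg_left hAg' hs.le
    linarith
  -- lower bound of the denominator
  have hlow : (η + s * (1 - r ^ 2) * g) / (2 * γ) ≤ 1 - s * r ^ 2 * (A / γ) := by
    rw [div_le_iff₀ (by positivity)]
    have h2 : (1 - s * r ^ 2 * (A / γ)) * (2 * γ) = 2 * γ - 2 * r ^ 2 * (s * A) := by
      field_simp
    rw [h2]
    have h3 : r ^ 2 * (s * A) ≤ r ^ 2 * (s * g + η / 2) := mul_le_mul_of_nonneg_left hsA hr2
    have h4 : 0 ≤ s * (1 - r ^ 2) * g := mul_nonneg (mul_nonneg hs.le (by linarith)) hg.le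
    have h5 : r ^ 2 * η ≤ η := by nlinarith
    rw [hγd]
    nlinarith
  have hSle : s * r ^ 2 * S ≤ s * r ^ 2 * (A / γ) :=
    mul_le_mul_of_nonneg_left ((le_abs_self S).trans hS) (by positivity)
  have hlow2 : (η + s * (1 - r ^ 2) * g) / (2 * γ) ≤ 1 - s * r ^ 2 * S := by linarith
  have hpos : 0 < 1 - s * r ^ 2 * S := lt_of_lt_of_le (by positivity) hlow2
  refine ⟨hpos, ?_, ?_⟩
  · rw [abs_div, abs_of_pos hpos, div_le_div_iff₀ hpos hηr]
    have h3 : A / γ * (η + s * (1 - r ^ 2) * g) ≤ 2 * A * (1 - s * r ^ 2 * S) := by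
      have h4 := mul_le_mul_of_nonneg_left hlow2 (by positivity : 0 ≤ 2 * A)
      calc A / γ * (η + s * (1 - r ^ 2) * g) =
          2 * A * ((η + s * (1 - r ^ 2) * g) / (2 * γ)) := by field_simp
        _ ≤ _ := h4
    exact (mul_le_mul_of_nonneg_right hS hηr.le).trans h3
  · intro κ hκ hκ1 hκS
    rw [abs_div, abs_of_pos hpos]
    have hAγ : 0 < A / γ := by positivity
    rcases le_total 0 S with hS0 | hS0
    · have h2 : s * κ * (A / γ) ≤ 1 - s * r ^ 2 * S := by
        have h3 : s * r ^ 2 * S ≤ s * S := by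
          have : 0 ≤ s * S := by positivity
          nlinarith
        have h4 : s * (κ * (A / γ)) ≤ s * (A / γ - S) := mul_le_mul_of_nonneg_left hκS hs.le
        have h5 : s * (A / γ) ≤ 1 := by
          have : s * (A / γ) = s * A / γ := by ring
          rw [this, div_le_one hγ, hγd]
          linarith
        nlinarith
      have h3 : |S| / (1 - s * r ^ 2 * S) ≤ (A / γ) / (s * κ * (A / γ)) := by
        apply div_le_div₀ hAγ.le hS (by positivity) h2
      have h4 : (A / γ) / (s * κ * (A / γ)) = 1 / (s * κ) := by field_simp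
      rw [h4] at h3
      refine h3.trans ?_
      apply div_le_div_of_nonneg_right _ (by positivity)
      have : 0 ≤ 2 * A / g := by positivity
      linarith
    · have h2 : 1 ≤ 1 - s * r ^ 2 * S := by
        have : s * r ^ 2 * S ≤ 0 := mul_nonpos_of_nonneg_of_nonpos (by positivity) hS0
        linarith
      have h3 : |S| / (1 - s * r ^ 2 * S) ≤ |S| := div_le_self (abs_nonneg S) h2
      have h4 : A / γ ≤ A / (s * g) := by
        apply div_le_div_of_nonneg_left hA.le (by positivity)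
        rw [hγd]; linarith
      have h5 : A / (s * g) ≤ (2 + 2 * A / g) / (s * κ) := by
        rw [le_div_iff₀ (by positivity)]
        have h6 : A / (s * g) * (s * κ) = κ * (A / g) := by field_simp
        rw [h6]
        have h7 : 0 < A / g := by positivity
        have h8 : 2 * A / g = 2 * (A / g) := by ring
        rw [h8]
        nlinarith
      exact h3.trans (hS.trans (h4.trans h5))

end Pool.Agent.Kin
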