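import Pool.Agent.Kin.Char

/-! KIN FEJER: the bump function (section B8). -/

open Matrix Finset

noncomputable section

namespace Pool.Agent.Kin

variable {d L : ℕ} [NeZero L]

lemma fej1_nonneg (n : ℕ) (q : ZMod L) : 0 ≤ fej1 n q := by
  unfold fej1
  positivity

lemma fej1_le (n : ℕ) (q : ZMod L) : fej1 n q ≤ (n : ℝ) / L := by
  unfold fej1
  have hL : (0 : ℝ) < L := by exact_mod_cast Nat.pos_of_ne_zero (NeZero.ne L)
  have h1 : ‖∑ a ∈ range n, ch1 (-(q * (a : ZMod L)))‖ ≤ n := by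
    refine (norm_sum_le _ _).trans ?_
    simp [ch1_norm]
  rcases Nat.eq_zero_or_pos n with h0 | h0
  · subst h0
    simp
  · have hn : (0 : ℝ) < n := by exact_mod_cast h0
    have h2 : ‖∑ a ∈ range n, ch1 (-(q * (a : ZMod L)))‖ ^ 2 ≤ (n : ℝ) ^ 2 :=
      pow_le_pow_left₀ (norm_nonneg _) h1 2
    calc 1 / ((n : ℝ) * L) * ‖∑ a ∈ range n, ch1 (-(q * (a : ZMod L)))‖ ^ 2
        ≤ 1 / ((n : ℝ) * L) * (n : ℝ) ^ 2 := by gcongr
      _ = (n : ℝ) / L := by field_simp

/-- the number of pairs with difference `y` -/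
def fejN (n : ℕ) (y : ZMod L) : ℝ :=
  ∑ a ∈ range n, ∑ b ∈ range n, if y - (a : ZMod L) + (b : ZMod L) = 0 then (1 : ℝ) else 0

lemma fejN_nonneg (n : ℕ) (y : ZMod L) : 0 ≤ fejN n y :=
  sum_nonneg fun a _ => sum_nonneg fun b _ => by split_ifs <;> norm_num

lemma fej1_sum (n : ℕ) (hn : 1 ≤ n) (y : ZMod L) :
    ∑ q : ZMod L, ((fej1 n q : ℝ) : ℂ) * ch1 (q * y) = ((fejN n y / n : ℝ) : ℂ) := by
  have hL : (L : ℂ) ≠ 0 := by exact_mod_cast NeZero.ne L
  have hn' : (n : ℂ) ≠ 0 := by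
    have : n ≠ 0 := by omega
    exact_mod_cast this
  have h1 : ∀ q : ZMod L, ((fej1 n q : ℝ) : ℂ) * ch1 (q * y) =
      (1 / ((n : ℂ) * L)) * ∑ a ∈ range n, ∑ b ∈ range n,
        ch1 (q * (y - (a : ZMod L) + (b : ZMod L))) := by
    intro q
    have h2 : ((fej1 n q : ℝ) : ℂ) = (1 / ((n : ℂ) * L)) *
        ((∑ a ∈ range n, ch1 (-(q * (a : ZMod L)))) *
          star (∑ a ∈ range n, ch1 (-(q * (a : ZMod L))))) := by
      unfold fej1
      push_cast
      congr 1
      rw [← Complex.mul_conj']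
      rfl
    rw [h2, star_sum, sum_mul_sum, mul_assoc, sum_mul]
    congr 1
    refine sum_congr rfl fun a _ => ?_
    rw [sum_mul]
    refine sum_congr rfl fun b _ => ?_
    rw [← ch1_neg, neg_neg, ← ch1_add, ← ch1_add]
    congr 1
    ring
  simp only [h1]
  rw [← mul_sum, sum_comm]
  have h3 : ∀ a ∈ range n, ∑ q : ZMod L, ∑ b ∈ range n,
      ch1 (q * (y - (a : ZMod L) + (b : ZMod L))) =
      ∑ b ∈ range n, if y - (a : ZMod L) + (b : ZMod L) = 0 then (L : ℂ) else 0 := by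
    intro a _
    rw [sum_comm]
    exact sum_congr rfl fun b _ => sum_ch1 _
  rw [sum_congr rfl h3]
  have h4 : (∑ a ∈ range n, ∑ b ∈ range n,
      if y - (a : ZMod L) + (b : ZMod L) = 0 then (L : ℂ) else 0) = (L : ℂ) * (fejN n y : ℂ) := by
    unfold fejN
    push_cast
    rw [mul_sum]
    refine sum_congr rfl fun a _ => ?_
    rw [mul_sum]
    refine sum_congr rfl fun b _ => ?_
    split_ifs <;> simp
  rw [h4]
  push_cast
  field_simp

lemma fejN_zero (n : ℕ) (hL : n ≤ L) : fejN n (0 : ZMod L) = n := by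
  unfold fejN
  have h : ∀ a ∈ range n, ∑ b ∈ range n,
      (if (0 : ZMod L) - (a : ZMod L) + (b : ZMod L) = 0 then (1 : ℝ) else 0) = 1 := by
    intro a ha
    rw [sum_eq_single a]
    · simp
    · intro b hb hab
      rw [if_neg]
      intro h
      apply hab
      have h1 : (b : ZMod L) = (a : ZMod L) := by
        have : (b : ZMod L) - (a : ZMod L) = 0 := by rw [← h]; ring
        exact sub_eq_zero.1 this
      rw [ZMod.natCast_eq_natCast_iff] at h1
      exact Nat.ModEq.eq_of_lt_of_lt h1 ((mem_range.1 hb).trans_le hL)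
        ((mem_range.1 ha).trans_le hL)
    · intro h
      exact absurd ha h
  rw [sum_congr rfl h]
  simp

lemma fejN_ge (R : ℕ) (y : ZMod L) (hy : |y.valMinAbs| ≤ (R : ℤ)) :
    (R : ℝ) + 1 ≤ fejN (2 * R + 1) y := by
  set v := y.valMinAbs with hv
  have hyv : ((v : ℤ) : ZMod L) = y := ZMod.coe_valMinAbs y
  have habs := abs_le.1 hy
  have hnn : ∀ a b : ℕ, 0 ≤ (if y - (a : ZMod L) + (b : ZMod L) = 0 then (1 : ℝ) else 0) := by
    intro a b; split_ifs <;> norm_num
  unfold fejN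
  rcases le_total 0 v with h0 | h0
  · -- a = b + v
    obtain ⟨k, hk⟩ := Int.eq_ofNat_of_zero_le h0
    have hkR : k ≤ R := by
      have := habs.2
      rw [hk] at this
      exact_mod_cast this
    rw [sum_comm]
    calc (R : ℝ) + 1 = ∑ b ∈ range (R + 1), (1 : ℝ) := by simp
      _ ≤ ∑ b ∈ range (R + 1), ∑ a ∈ range (2 * R + 1),
          (if y - (a : ZMod L) + (b : ZMod L) = 0 then (1 : ℝ) else 0) := by
          refine sum_le_sum fun b hb => ?_
          have hb' := mem_range.1 hb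
          refine le_trans ?_ (single_le_sum (f := fun a : ℕ =>
            (if y - (a : ZMod L) + (b : ZMod L) = 0 then (1 : ℝ) else 0))
            (fun a _ => hnn a b) (mem_range.2 (by omega : b + k < 2 * R + 1)))
          rw [if_pos]
          rw [← hyv, hk]
          push_cast
          ring
      _ ≤ _ := by
          refine sum_le_sum_of_subset_of_nonneg ?_ fun b _ _ => sum_nonneg fun a _ => hnn a b
          intro b hb
          rw [mem_range] at hb ⊢
          omega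
  · obtain ⟨k, hk⟩ := Int.eq_ofNat_of_zero_le (neg_nonneg.2 h0)
    have hkR : k ≤ R := by
      have := habs.1
      have h2 : (k : ℤ) ≤ R := by omega
      exact_mod_cast h2
    calc (R : ℝ) + 1 = ∑ a ∈ range (R + 1), (1 : ℝ) := by simp
      _ ≤ ∑ a ∈ range (R + 1), ∑ b ∈ range (2 * R + 1),
          (if y - (a : ZMod L) + (b : ZMod L) = 0 then (1 : ℝ) else 0) := by
          refine sum_le_sum fun a ha => ?_
          have ha' := mem_range.1 ha
          refine le_trans ?_ (single_le_sum (f := fun b : ℕ =>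
            (if y - (a : ZMod L) + (b : ZMod L) = 0 then (1 : ℝ) else 0))
            (fun b _ => hnn a b) (mem_range.2 (by omega : a + k < 2 * R + 1)))
          rw [if_pos]
          have hvk : v = -(k : ℤ) := by omega
          rw [← hyv, hvk]
          push_cast
          ring
      _ ≤ _ := by
          refine sum_le_sum_of_subset_of_nonneg ?_ fun a _ _ => sum_nonneg fun b _ => hnn a b
          intro a ha
          rw [mem_range] at ha ⊢
          omega

lemma fej_bump (n : ℕ) (hn : 1 ≤ n) (y : Tor d L) :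
    ∑ q : Tor d L, ((fej n q : ℝ) : ℂ) * ch q y = ((∏ j, (fejN n (y j) / n) : ℝ) : ℂ) := by
  have h := Finset.prod_univ_sum (fun _ : Fin d => (Finset.univ : Finset (ZMod L)))
    (fun (j : Fin d) (q : ZMod L) => ((fej1 n q : ℝ) : ℂ) * ch1 (q * y j))
  rw [Fintype.piFinset_univ] at h
  push_cast
  have h1 : ∀ j : Fin d, ∑ q : ZMod L, ((fej1 n q : ℝ) : ℂ) * ch1 (q * y j) =
      ((fejN n (y j) : ℝ) : ℂ) / (n : ℂ) := by
    intro j
    rw [fej1_sum n hn]
    push_cast
    rfl
  simp only [h1] at h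
  rw [h]
  refine sum_congr rfl fun q _ => ?_
  unfold fej ch
  push_cast
  rw [prod_mul_distrib]

lemma fej_nonneg (n : ℕ) (q : Tor d L) : 0 ≤ fej n q :=
  prod_nonneg fun j _ => fej1_nonneg n (q j)

lemma fej_le (n : ℕ) (q : Tor d L) : fej n q ≤ ((n : ℝ) / L) ^ d := by
  unfold fej
  calc ∏ j, fej1 n (q j) ≤ ∏ _j : Fin d, ((n : ℝ) / L) :=
        prod_le_prod (fun j _ => fej1_nonneg n (q j)) fun j _ => fej1_le n (q j)
    _ = _ := by rw [prod_const, card_univ, Fintype.card_fin]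

lemma sum_fej (n : ℕ) (hn : 1 ≤ n) (hL : n ≤ L) : ∑ q : Tor d L, fej n q = 1 := by
  have h := fej_bump (d := d) (L := L) n hn 0
  have h1 : ∀ q : Tor d L, ch q 0 = 1 := by
    intro q
    rw [ch_comm, ch_zero_left]
  have hn' : (n : ℝ) ≠ 0 := by
    have : n ≠ 0 := by omega
    exact_mod_cast this
  simp only [h1, mul_one, Pi.zero_apply, fejN_zero n hL, div_self hn', prod_const_one] at h
  exact_mod_cast h

lemma bump_nonneg (n : ℕ) (y : Tor d L) : 0 ≤ (∑ q : Tor d L, ((fej n q : ℝ) : ℂ) * ch q y).re := by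
  rcases Nat.eq_zero_or_pos n with h0 | h0
  · subst h0
    rcases Nat.eq_zero_or_pos d with hd | hd
    · subst hd
      simp [fej, ch]
    · have h1 : ∀ q : Tor d L, fej 0 q = 0 := by
        intro q
        unfold fej
        exact prod_eq_zero (mem_univ ⟨0, hd⟩) (by simp [fej1])
      simp [h1]
  · rw [fej_bump n h0, Complex.ofReal_re]
    exact prod_nonneg fun j _ => div_nonneg (fejN_nonneg _ _) (Nat.cast_nonneg _)

lemma bump_ge (R : ℕ) (hL : 2 * (2 * R + 1) ≤ L) (y : Tor d L) (hy : y ∈ ballT d R) :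
    1 ≤ (∑ q : Tor d L, (((2 : ℝ) ^ d * fej (2 * R + 1) q : ℝ) : ℂ) * ch q y).re := by
  have hy' : ∀ j, |(y j).valMinAbs| ≤ (R : ℤ) := by
    unfold ballT at hy
    exact (mem_filter.1 hy).2
  have h1 : (∑ q : Tor d L, (((2 : ℝ) ^ d * fej (2 * R + 1) q : ℝ) : ℂ) * ch q y) =
      (((2 : ℝ) ^ d * ∏ j, (fejN (2 * R + 1) (y j) / ((2 * R + 1 : ℕ) : ℝ)) : ℝ) : ℂ) := by
    rw [Complex.ofReal_mul, ← fej_bump (2 * R + 1) (by omega) y, mul_sum]
    refine sum_congr rfl fun q _ => ?_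
    push_cast
    ring
  rw [h1, Complex.ofReal_re]
  have h2 : ∏ _j : Fin d, (1 / 2 : ℝ) ≤
      ∏ j, (fejN (2 * R + 1) (y j) / ((2 * R + 1 : ℕ) : ℝ)) := by
    refine prod_le_prod (fun _ _ => by norm_num) fun j _ => ?_
    have h3 := fejN_ge R (y j) (hy' j)
    rw [le_div_iff₀ (by positivity)]
    push_cast
    linarith
  rw [prod_const, card_univ, Fintype.card_fin] at h2
  calc (1 : ℝ) = 2 ^ d * (1 / 2) ^ d := by rw [← mul_pow]; norm_num
    _ ≤ _ := mul_le_mul_of_nonneg_left h2 (by positivity)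

end Pool.Agent.Kin
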