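import Pool.Agent.Kin.JMom

/-! KIN JDER: derivatives of `Tr J^m`. -/

open Matrix Finset

noncomputable section

namespace Pool.Agent.Kin

variable {ι : Type} [Fintype ι] [DecidableEq ι]

/-- Entrywise derivative of a matrix valued function. -/
def JMDer (J : ℝ → Matrix ι ι ℝ) (J' : Matrix ι ι ℝ) (t : ℝ) : Prop :=
  ∀ x y, HasDerivAt (fun t => J t x y) (J' x y) t

lemma JMDer.mul {J K : ℝ → Matrix ι ι ℝ} {J' K' : Matrix ι ι ℝ} {t : ℝ} (hJ : JMDer J J' t)
    (hK : JMDer K K' t) : JMDer (fun t => J t * K t) (J' * K t + J t * K') t := by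
  intro x y
  have h := HasDerivAt.fun_sum (u := Finset.univ) (A := fun z t => J t x z * K t z y)
    (A' := fun z => J' x z * K t z y + J t x z * K' z y) (x := t)
    fun z _ => (hJ x z).mul (hK z y)
  simp only [Matrix.mul_apply, Matrix.add_apply]
  rw [← Finset.sum_add_distrib]
  exact h

lemma JMDer.pow {J : ℝ → Matrix ι ι ℝ} {J' : Matrix ι ι ℝ} {t : ℝ} (hJ : JMDer J J' t) (n : ℕ) :
    JMDer (fun t => J t ^ n) (∑ i ∈ range n, J t ^ i * J' * J t ^ (n - 1 - i)) t := by
  induction n with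
  | zero =>
    intro x y
    simp only [pow_zero, Finset.range_zero, Finset.sum_empty, Matrix.zero_apply]
    exact hasDerivAt_const _ _
  | succ n ih =>
    have h := ih.mul hJ
    have e : (∑ i ∈ range n, J t ^ i * J' * J t ^ (n - 1 - i)) * J t + J t ^ n * J' =
        ∑ i ∈ range (n + 1), J t ^ i * J' * J t ^ (n + 1 - 1 - i) := by
      rw [Finset.sum_range_succ, Finset.sum_mul]
      congr 1
      · refine Finset.sum_congr rfl fun i hi => ?_
        have hi' := Finset.mem_range.1 hi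
        rw [Matrix.mul_assoc (J t ^ i * J'), ← pow_succ]
        congr 2
        omega
      · rw [Nat.add_sub_cancel, Nat.sub_self, pow_zero, Matrix.mul_one]
    rw [← e]
    intro x y
    have h2 := h x y
    simp only [pow_succ]
    exact h2

lemma JMDer.trace {J : ℝ → Matrix ι ι ℝ} {J' : Matrix ι ι ℝ} {t : ℝ} (hJ : JMDer J J' t) :
    HasDerivAt (fun t => (J t).trace) J'.trace t := by
  unfold Matrix.trace
  exact HasDerivAt.fun_sum (u := Finset.univ) (A := fun z t => (J t).diag z)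
    (A' := fun z => J'.diag z) (x := t) fun z _ => hJ z z

lemma hasDerivAt_trace_pow (m : ℕ) (hm : 1 ≤ m) (J : ℝ → Matrix ι ι ℝ) (J' : Matrix ι ι ℝ) (t : ℝ)
    (hJ : ∀ x y, HasDerivAt (fun t => J t x y) (J' x y) t) :
    HasDerivAt (fun t => (J t ^ m).trace) (m * (J t ^ (m - 1) * J').trace) t := by
  have h := (JMDer.pow (J := J) hJ m).trace
  rw [Matrix.trace_sum] at h
  have e : ∀ i ∈ range m, (J t ^ i * J' * J t ^ (m - 1 - i)).trace =
      (J t ^ (m - 1) * J').trace := by
    intro i hi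
    have hi' := Finset.mem_range.1 hi
    rw [Matrix.trace_mul_comm, ← Matrix.mul_assoc, ← pow_add]
    congr 3
    omega
  rw [Finset.sum_congr rfl e, Finset.sum_const, Finset.card_range, nsmul_eq_mul] at h
  exact h

lemma hasDerivAt_trace_pow_mul (m : ℕ) (hm : 2 ≤ m) (J K : ℝ → Matrix ι ι ℝ)
    (J' K' : Matrix ι ι ℝ) (t : ℝ) (hJ : ∀ x y, HasDerivAt (fun t => J t x y) (J' x y) t)
    (hK : ∀ x y, HasDerivAt (fun t => K t x y) (K' x y) t) :
    HasDerivAt (fun t => (J t ^ (m - 1) * K t).trace)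
      (∑ i ∈ range (m - 1), (J t ^ i * J' * (J t ^ (m - 2 - i) * K t)).trace +
        (J t ^ (m - 1) * K').trace) t := by
  have h := ((JMDer.pow (J := J) hJ (m - 1)).mul (K := K) hK).trace
  rw [Matrix.trace_add, Finset.sum_mul, Matrix.trace_sum] at h
  have e : ∀ i ∈ range (m - 1), (J t ^ i * J' * J t ^ (m - 1 - 1 - i) * K t).trace =
      (J t ^ i * J' * (J t ^ (m - 2 - i) * K t)).trace := by
    intro i hi
    rw [Matrix.mul_assoc (J t ^ i * J')]
    congr 5
  rw [Finset.sum_congr rfl e] at h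
  exact h

end Pool.Agent.Kin
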