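import Pool.Agent.Kin.Defs

/-! KIN JMOM: moments `φ_k = ⟨a, J^k a⟩` of a positive semidefinite real matrix (section A5). -/

open Matrix Finset

noncomputable section

namespace Pool.Agent.Kin

variable {ι : Type} [Fintype ι] [DecidableEq ι]

namespace JMom

/-- Spectral data of a positive semidefinite real matrix. -/
lemma spec {J : Matrix ι ι ℝ} (hJ : J.PosSemidef) :
    ∃ (U : Matrix ι ι ℝ) (lam : ι → ℝ), (∀ i, 0 ≤ lam i) ∧ U * Uᵀ = 1 ∧ Uᵀ * U = 1 ∧
      ∀ k : ℕ, J ^ k = U * diagonal (fun i => lam i ^ k) * Uᵀ := by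
  obtain ⟨U, lam, h0, h2, h1, h3⟩ : ∃ (U : Matrix ι ι ℝ) (lam : ι → ℝ), (∀ i, 0 ≤ lam i) ∧
      U * Uᵀ = 1 ∧ Uᵀ * U = 1 ∧ J = U * diagonal (fun i => lam i) * Uᵀ := by
    have hH := hJ.isHermitian
    have e : (star (hH.eigenvectorUnitary : Matrix ι ι ℝ)) =
        (hH.eigenvectorUnitary : Matrix ι ι ℝ)ᵀ := by
      rw [star_eq_conjTranspose, conjTranspose_eq_transpose_of_trivial]
    refine ⟨hH.eigenvectorUnitary, hH.eigenvalues, fun i => hJ.eigenvalues_nonneg i, ?_, ?_, ?_⟩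
    · rw [← e]; exact Unitary.coe_mul_star_self _
    · rw [← e]; exact Unitary.coe_star_mul_self _
    · rw [← e]
      conv_lhs => rw [hH.spectral_theorem, Unitary.conjStarAlgAut_apply]
      rfl
  refine ⟨U, lam, h0, h2, h1, ?_⟩
  intro q
  induction q with
  | zero =>
    simp only [pow_zero]
    rw [show (diagonal fun _ : ι => (1 : ℝ)) = 1 from diagonal_one, mul_one, h2]
  | succ q ih =>
    rw [pow_succ, ih]
    conv_lhs => rw [h3]
    rw [show ∀ A B C D : Matrix ι ι ℝ, A * B * Uᵀ * (U * C * D) =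
      A * (B * (Uᵀ * U) * C) * D from fun A B C D => by noncomm_ring]
    rw [h1, mul_one, diagonal_mul_diagonal]
    congr 3

lemma entry (U : Matrix ι ι ℝ) (d : ι → ℝ) (x y : ι) :
    (U * diagonal d * Uᵀ) x y = ∑ i, U x i * d i * U y i := by
  rw [Matrix.mul_apply]
  refine Finset.sum_congr rfl fun i _ => ?_
  rw [Matrix.mul_diagonal, Matrix.transpose_apply]

lemma form (U : Matrix ι ι ℝ) (d : ι → ℝ) (v : ι → ℝ) :
    v ⬝ᵥ ((U * diagonal d * Uᵀ) *ᵥ v) = ∑ i, d i * (∑ x, v x * U x i) ^ 2 := by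
  have h1 : v ⬝ᵥ ((U * diagonal d * Uᵀ) *ᵥ v) =
      ∑ x, ∑ y, ∑ i, v x * (U x i * d i * U y i * v y) := by
    simp only [dotProduct, mulVec]
    refine Finset.sum_congr rfl fun x _ => ?_
    rw [Finset.mul_sum]
    refine Finset.sum_congr rfl fun y _ => ?_
    rw [entry, Finset.sum_mul, Finset.mul_sum]
  rw [h1]
  have h2 : ∀ x, ∑ y, ∑ i, v x * (U x i * d i * U y i * v y) =
      ∑ i, ∑ y, v x * (U x i * d i * U y i * v y) := fun x => Finset.sum_comm
  rw [Finset.sum_congr rfl fun x _ => h2 x, Finset.sum_comm]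
  refine Finset.sum_congr rfl fun i _ => ?_
  rw [sq, Finset.sum_mul_sum, Finset.mul_sum]
  refine Finset.sum_congr rfl fun x _ => ?_
  rw [Finset.mul_sum]
  refine Finset.sum_congr rfl fun y _ => ?_
  ring

lemma bilform (U : Matrix ι ι ℝ) (d : ι → ℝ) (u v : ι → ℂ) :
    bil (U * diagonal d * Uᵀ) u v =
      ∑ i, ((d i : ℝ) : ℂ) * ((∑ x, u x * ((U x i : ℝ) : ℂ)) * (∑ y, v y * ((U y i : ℝ) : ℂ))) := by
  unfold bil
  have h1 : ∀ x y, u x * (((U * diagonal d * Uᵀ) x y : ℝ) : ℂ) * v y =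
      ∑ i, u x * ((U x i : ℝ) : ℂ) * ((d i : ℝ) : ℂ) * ((U y i : ℝ) : ℂ) * v y := by
    intro x y
    rw [entry, Complex.ofReal_sum, Finset.mul_sum, Finset.sum_mul]
    refine Finset.sum_congr rfl fun i _ => ?_
    push_cast
    ring
  rw [Finset.sum_congr rfl fun x _ => Finset.sum_congr rfl fun y _ => h1 x y]
  rw [Finset.sum_congr rfl fun x _ => Finset.sum_comm, Finset.sum_comm]
  refine Finset.sum_congr rfl fun i _ => ?_
  rw [Finset.sum_mul_sum, Finset.mul_sum]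
  refine Finset.sum_congr rfl fun x _ => ?_
  rw [Finset.mul_sum]
  refine Finset.sum_congr rfl fun y _ => ?_
  ring

/-- weights of the spectral measure -/
def ww (U : Matrix ι ι ℝ) (a : ι → ℂ) (i : ι) : ℝ := ‖∑ x, a x * ((U x i : ℝ) : ℂ)‖ ^ 2

lemma ww_nonneg (U : Matrix ι ι ℝ) (a : ι → ℂ) (i : ι) : 0 ≤ ww U a i := by
  unfold ww; positivity

lemma phi_eq {J : Matrix ι ι ℝ} {U : Matrix ι ι ℝ} {lam : ι → ℝ} {k : ℕ}
    (h : J ^ k = U * diagonal (fun i => lam i ^ k) * Uᵀ) (a : ι → ℂ) :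
    phi J a k = ∑ i, lam i ^ k * ww U a i := by
  unfold phi ww
  rw [h, form, form, ← Finset.sum_add_distrib]
  refine Finset.sum_congr rfl fun i _ => ?_
  rw [← mul_add]
  congr 1
  rw [Complex.sq_norm, Complex.normSq_apply, Complex.re_sum, Complex.im_sum]
  simp only [Complex.mul_re, Complex.mul_im, Complex.ofReal_re, Complex.ofReal_im, mul_zero,
    sub_zero, zero_add]
  ring

lemma trace_eq {J : Matrix ι ι ℝ} {U : Matrix ι ι ℝ} {lam : ι → ℝ} {k : ℕ}
    (hU : Uᵀ * U = 1)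
    (h : J ^ k = U * diagonal (fun i => lam i ^ k) * Uᵀ) :
    (J ^ k).trace = ∑ i, lam i ^ k := by
  rw [h, Matrix.trace_mul_comm, ← Matrix.mul_assoc, hU, Matrix.one_mul, Matrix.trace_diagonal]

/-- weighted arithmetic-geometric mean for powers -/
lemma young (a b : ℝ) (ha : 0 ≤ a) (hb : 0 ≤ b) (n k : ℕ) (hn : 1 ≤ n) (hk : k ≤ n) :
    (n : ℝ) * (a ^ k * b ^ (n - k)) ≤ k * a ^ n + (n - k : ℕ) * b ^ n := by
  have hn0 : (0 : ℝ) < n := by exact_mod_cast hn
  have h1 := Real.geom_mean_le_arith_mean2_weighted (w₁ := (k : ℝ) / n)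
    (w₂ := ((n - k : ℕ) : ℝ) / n) (p₁ := a ^ n) (p₂ := b ^ n) (by positivity) (by positivity)
    (by positivity) (by positivity)
    (by rw [← add_div, div_eq_one_iff_eq hn0.ne', Nat.cast_sub hk]; ring)
  have e1 : (a ^ n) ^ ((k : ℝ) / n) = a ^ k := by
    rw [← Real.rpow_natCast, ← Real.rpow_mul ha, ← Real.rpow_natCast]
    congr 1
    field_simp
  have e2 : (b ^ n) ^ (((n - k : ℕ) : ℝ) / n) = b ^ (n - k) := by
    rw [← Real.rpow_natCast, ← Real.rpow_mul hb, ← Real.rpow_natCast]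
    congr 1
    field_simp
  rw [e1, e2] at h1
  calc (n : ℝ) * (a ^ k * b ^ (n - k)) ≤
        n * ((k : ℝ) / n * a ^ n + ((n - k : ℕ) : ℝ) / n * b ^ n) :=
          mul_le_mul_of_nonneg_left h1 hn0.le
    _ = _ := by field_simp

/-- all eigenvalues are at most `c` if `Tr J^m ≤ c^m` -/
lemma lam_le {lam : ι → ℝ} (h0 : ∀ i, 0 ≤ lam i) (m : ℕ) (hm : 1 ≤ m) (c : ℝ) (hc : 0 ≤ c)
    (h : ∑ i, lam i ^ m ≤ c ^ m) (i : ι) : lam i ≤ c := by
  have h1 : lam i ^ m ≤ c ^ m :=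
    (Finset.single_le_sum (f := fun i => lam i ^ m) (fun j _ => pow_nonneg (h0 j) m)
      (Finset.mem_univ i)).trans h
  exact le_of_pow_le_pow_left₀ (by omega) hc h1

end JMom

open JMom

/-- `⟨a, J^k a⟩ ≥ 0`. -/
lemma phi_nonneg {J : Matrix ι ι ℝ} (hJ : J.PosSemidef) (a : ι → ℂ) (k : ℕ) : 0 ≤ phi J a k := by
  obtain ⟨U, lam, h0, -, -, h⟩ := spec hJ
  rw [phi_eq (h k)]
  exact Finset.sum_nonneg fun i _ => mul_nonneg (pow_nonneg (h0 i) k) (ww_nonneg U a i)

lemma phi_smul (J : Matrix ι ι ℝ) (hJ : J.IsSymm) (a : ι → ℂ) (c : ℂ) (k : ℕ) :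
    phi J (fun x => c * a x) k = ‖c‖ ^ 2 * phi J a k := by
  unfold phi
  have e1 : (fun x => (c * a x).re) = c.re • (fun x => (a x).re) - c.im • (fun x => (a x).im) := by
    funext x
    simp [Complex.mul_re]
  have e2 : (fun x => (c * a x).im) = c.re • (fun x => (a x).im) + c.im • (fun x => (a x).re) := by
    funext x
    simp [Complex.mul_im]
  rw [e1, e2, Complex.sq_norm, Complex.normSq_apply]
  simp only [mulVec_sub, mulVec_add, mulVec_smul, sub_dotProduct, add_dotProduct, dotProduct_sub,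
    dotProduct_add, smul_dotProduct, dotProduct_smul, smul_eq_mul]
  ring

lemma phi_zero (J : Matrix ι ι ℝ) (a : ι → ℂ) : phi J a 0 = ∑ x, ‖a x‖ ^ 2 := by
  unfold phi
  simp only [pow_zero, one_mulVec, dotProduct, ← Finset.sum_add_distrib]
  refine Finset.sum_congr rfl fun x _ => ?_
  rw [Complex.sq_norm, Complex.normSq_apply]

lemma phi_star (J : Matrix ι ι ℝ) (a : ι → ℂ) (k : ℕ) :
    phi J (fun x => star (a x)) k = phi J a k := by
  unfold phi
  have e1 : (fun x => (star (a x)).re) = (fun x => (a x).re) := by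
    funext x
    simp
  have e2 : (fun x => (star (a x)).im) = -(fun x => (a x).im) := by
    funext x
    simp
  rw [e1, e2]
  simp only [mulVec_neg, neg_dotProduct, dotProduct_neg, neg_neg]

/-- `|uᵀ J^k v| ≤ φ_k` for `u, v ∈ {a, conj a}`. -/
lemma bil_le {J : Matrix ι ι ℝ} (hJ : J.PosSemidef) (a : ι → ℂ) (k : ℕ) (u v : ι → ℂ)
    (hu : u = a ∨ u = fun x => star (a x)) (hv : v = a ∨ v = fun x => star (a x)) :
    ‖bil (J ^ k) u v‖ ≤ phi J a k := by
  obtain ⟨U, lam, h0, -, -, h⟩ := spec hJ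
  rw [phi_eq (h k), h k, bilform]
  refine (norm_sum_le _ _).trans (Finset.sum_le_sum fun i _ => ?_)
  have key : ∀ u : ι → ℂ, (u = a ∨ u = fun x => star (a x)) →
      ‖∑ x, u x * ((U x i : ℝ) : ℂ)‖ = ‖∑ x, a x * ((U x i : ℝ) : ℂ)‖ := by
    intro u hu
    rcases hu with rfl | rfl
    · rfl
    · have : (∑ x, (fun x => star (a x)) x * ((U x i : ℝ) : ℂ)) =
          star (∑ x, a x * ((U x i : ℝ) : ℂ)) := by
        rw [star_sum]
        refine Finset.sum_congr rfl fun x _ => ?_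
        simp
      rw [this, norm_star]
  rw [norm_mul, norm_mul, key u hu, key v hv, ← sq, Complex.norm_real, Real.norm_eq_abs,
    abs_of_nonneg (pow_nonneg (h0 i) k)]
  exact le_rfl

/-- Jensen. -/
lemma exists_mom {J : Matrix ι ι ℝ} (hJ : J.PosSemidef) (a : ι → ℂ) (n : ℕ) (hn : 1 ≤ n) :
    ∃ x : ℝ, 0 ≤ x ∧ phi J a n = phi J a 0 * x ^ n ∧ ∀ k ≤ n, phi J a k ≤ phi J a 0 * x ^ k := by
  obtain ⟨U, lam, h0, -, -, h⟩ := spec hJ
  have hn0 : (0 : ℝ) < n := by exact_mod_cast hn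
  have hw := ww_nonneg U a
  have hphi : ∀ k, phi J a k = ∑ i, lam i ^ k * ww U a i := fun k => phi_eq (h k) a
  have hnn : ∀ k, 0 ≤ phi J a k := fun k => phi_nonneg hJ a k
  rcases eq_or_lt_of_le (hnn 0) with h00 | h00
  · -- all weights vanish
    have hwz : ∀ i, ww U a i = 0 := by
      intro i
      have h1 : ∑ i, ww U a i = 0 := by
        have := hphi 0
        simp only [pow_zero, one_mul] at this
        rw [← this, ← h00]
      exact (Finset.sum_eq_zero_iff_of_nonneg fun i _ => hw i).1 h1 i (Finset.mem_univ i)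
    have hz : ∀ k, phi J a k = 0 := by
      intro k
      rw [hphi k]
      exact Finset.sum_eq_zero fun i _ => by rw [hwz i, mul_zero]
    refine ⟨0, le_rfl, ?_, ?_⟩
    · rw [hz, hz, zero_mul]
    · intro k _
      rw [hz, hz, zero_mul]
  · set x : ℝ := (phi J a n / phi J a 0) ^ (1 / (n : ℝ)) with hx
    have hx0 : 0 ≤ x := by rw [hx]; exact Real.rpow_nonneg (div_nonneg (hnn n) h00.le) _
    have hxn : x ^ n = phi J a n / phi J a 0 := by
      rw [hx, ← Real.rpow_natCast, ← Real.rpow_mul (div_nonneg (hnn n) h00.le)]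
      rw [one_div, inv_mul_cancel₀ hn0.ne', Real.rpow_one]
    have hn1 : phi J a n = phi J a 0 * x ^ n := by
      rw [hxn]; field_simp
    refine ⟨x, hx0, hn1, ?_⟩
    intro k hk
    rcases eq_or_lt_of_le hx0 with hxz | hxp
    · -- x = 0
      rcases Nat.eq_zero_or_pos k with rfl | hk0
      · rw [pow_zero, mul_one]
      · have h1 : ∑ i, lam i ^ n * ww U a i = 0 := by
          rw [← hphi n, hn1, ← hxz, zero_pow (by omega), mul_zero]
        have h2 : ∀ i, lam i ^ n * ww U a i = 0 := fun i =>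
          (Finset.sum_eq_zero_iff_of_nonneg fun i _ =>
            mul_nonneg (pow_nonneg (h0 i) n) (hw i)).1 h1 i (Finset.mem_univ i)
        have h3 : phi J a k = 0 := by
          rw [hphi k]
          refine Finset.sum_eq_zero fun i _ => ?_
          rcases mul_eq_zero.1 (h2 i) with h4 | h4
          · have h5 : lam i = 0 := eq_zero_of_pow_eq_zero h4
            rw [h5, zero_pow (by omega), zero_mul]
          · rw [h4, mul_zero]
        rw [h3, ← hxz, zero_pow (by omega), mul_zero]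
    · -- Young
      have h1 : (n : ℝ) * (phi J a k * x ^ (n - k)) ≤ n * (phi J a 0 * x ^ n) := by
        calc (n : ℝ) * (phi J a k * x ^ (n - k))
            = ∑ i, (n : ℝ) * (lam i ^ k * x ^ (n - k)) * ww U a i := by
              rw [hphi k, Finset.sum_mul, Finset.mul_sum]
              refine Finset.sum_congr rfl fun i _ => ?_
              ring
          _ ≤ ∑ i, (k * lam i ^ n + (n - k : ℕ) * x ^ n) * ww U a i :=
              Finset.sum_le_sum fun i _ => mul_le_mul_of_nonneg_right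
                (young (lam i) x (h0 i) hx0 n k hn hk) (hw i)
          _ = k * phi J a n + (n - k : ℕ) * x ^ n * phi J a 0 := by
              rw [hphi n, hphi 0, Finset.mul_sum, Finset.mul_sum, ← Finset.sum_add_distrib]
              refine Finset.sum_congr rfl fun i _ => ?_
              rw [pow_zero]
              ring
          _ = n * (phi J a 0 * x ^ n) := by
              rw [hn1, Nat.cast_sub hk]
              ring
      have h2 : phi J a k * x ^ (n - k) ≤ phi J a 0 * x ^ n := le_of_mul_le_mul_left h1 hn0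
      have h3 : x ^ n = x ^ k * x ^ (n - k) := by rw [← pow_add]; congr 1; omega
      rw [h3, ← mul_assoc] at h2
      exact le_of_mul_le_mul_right h2 (pow_pos hxp _)

/-- `φ_{m-1}² ≤ Tr(J^m) φ_0 φ_{m-2}`. -/
lemma phi_sq_le {J : Matrix ι ι ℝ} (hJ : J.PosSemidef) (a : ι → ℂ) (m : ℕ) (hm : 3 ≤ m) :
    phi J a (m - 1) ^ 2 ≤ (J ^ m).trace * (phi J a 0 * phi J a (m - 2)) := by
  obtain ⟨U, lam, h0, -, hU, h⟩ := spec hJ
  have hw := ww_nonneg U a
  have hphi : ∀ k, phi J a k = ∑ i, lam i ^ k * ww U a i := fun k => phi_eq (h k) a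
  have h1 : phi J a (m - 1) ^ 2 ≤ phi J a m * phi J a (m - 2) := by
    rw [hphi, hphi, hphi]
    refine Finset.sum_sq_le_sum_mul_sum_of_sq_eq_mul _
      (fun i _ => mul_nonneg (pow_nonneg (h0 i) _) (hw i))
      (fun i _ => mul_nonneg (pow_nonneg (h0 i) _) (hw i)) fun i _ => ?_
    obtain ⟨l, rfl⟩ : ∃ l, m = l + 2 := ⟨m - 2, by omega⟩
    rw [show l + 2 - 1 = l + 1 from rfl, show l + 2 - 2 = l from rfl]
    ring
  have h2 : phi J a m ≤ (J ^ m).trace * phi J a 0 := by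
    rw [hphi, hphi, trace_eq hU (h m), Finset.mul_sum]
    refine Finset.sum_le_sum fun i _ => ?_
    rw [pow_zero, one_mul]
    refine mul_le_mul_of_nonneg_right ?_ (hw i)
    exact Finset.single_le_sum (f := fun i => lam i ^ m) (fun j _ => pow_nonneg (h0 j) m)
      (Finset.mem_univ i)
  calc phi J a (m - 1) ^ 2 ≤ phi J a m * phi J a (m - 2) := h1
    _ ≤ (J ^ m).trace * phi J a 0 * phi J a (m - 2) :=
        mul_le_mul_of_nonneg_right h2 (phi_nonneg hJ a _)
    _ = _ := by ring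

/-- `φ_k ≤ φ_0 (Tr J^m)^(k/m)` in the form needed: if `Tr J^m ≤ c^m` then `φ_k ≤ φ_0 c^k`. -/
lemma phi_le_of_trace {J : Matrix ι ι ℝ} (hJ : J.PosSemidef) (a : ι → ℂ) (m : ℕ) (hm : 1 ≤ m)
    (c : ℝ) (hc : 0 ≤ c) (h : (J ^ m).trace ≤ c ^ m) (k : ℕ) : phi J a k ≤ phi J a 0 * c ^ k := by
  obtain ⟨U, lam, h0, -, hU, hs⟩ := spec hJ
  have hphi : ∀ k, phi J a k = ∑ i, lam i ^ k * ww U a i := fun k => phi_eq (hs k) a
  rw [trace_eq hU (hs m)] at h
  rw [hphi, hphi, Finset.sum_mul]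
  refine Finset.sum_le_sum fun i _ => ?_
  rw [pow_zero, one_mul, mul_comm]
  exact mul_le_mul_of_nonneg_left (pow_le_pow_left₀ (h0 i) (lam_le h0 m hm c hc h i) k)
    (ww_nonneg U a i)

lemma trace_pow_nonneg {J : Matrix ι ι ℝ} (hJ : J.PosSemidef) (m : ℕ) : 0 ≤ (J ^ m).trace := by
  obtain ⟨U, lam, h0, -, hU, hs⟩ := spec hJ
  rw [trace_eq hU (hs m)]
  exact Finset.sum_nonneg fun i _ => pow_nonneg (h0 i) m

/-- `Tr (W Im(c a aᵀ)) = Im (c aᵀ W a)`. -/
lemma trace_imr (W : Matrix ι ι ℝ) (c : ℂ) (a : ι → ℂ) :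
    (W * imr c a).trace = (c * bil W a a).im := by
  unfold bil
  rw [Finset.mul_sum, Complex.im_sum, Matrix.trace]
  refine Finset.sum_congr rfl fun x _ => ?_
  rw [Matrix.diag_apply, Matrix.mul_apply, Finset.mul_sum, Complex.im_sum]
  refine Finset.sum_congr rfl fun y _ => ?_
  unfold imr
  rw [show c * (a x * ((W x y : ℝ) : ℂ) * a y) = ((W x y : ℝ) : ℂ) * (c * a y * a x) by ring,
    Complex.im_ofReal_mul]

/-- Power means for the trace (`N = card ι` eigenvalues):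
`Tr J^(m-1) ≤ N^(1/m) (Tr J^m)^((m-1)/m)`, in the form needed. -/
lemma trace_interp {J : Matrix ι ι ℝ} (hJ : J.PosSemidef) (m : ℕ) (hm : 2 ≤ m) (K : ℝ)
    (hK : 0 < K) : K * (J ^ (m - 1)).trace ≤
      (Fintype.card ι : ℝ) ^ (1 / (m : ℝ)) * ((J ^ m).trace + K ^ m) := by
  obtain ⟨U, lam, h0, -, hU, hs⟩ := spec hJ
  have hm0 : (0 : ℝ) < m := by exact_mod_cast (by omega : 0 < m)
  rw [trace_eq hU (hs m), trace_eq hU (hs (m - 1))]
  rcases isEmpty_or_nonempty ι with he | hne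
  · rw [Finset.univ_eq_empty, Finset.sum_empty, Finset.sum_empty, mul_zero]
    positivity
  set N : ℝ := (Fintype.card ι : ℝ) with hN
  have hN0 : 0 < N := by rw [hN]; exact_mod_cast Fintype.card_pos
  set R : ℝ := N ^ (1 / (m : ℝ)) with hR
  have hR0 : 0 < R := Real.rpow_pos_of_pos hN0 _
  have hRm : R ^ m = N := by
    rw [hR, ← Real.rpow_natCast, ← Real.rpow_mul hN0.le, one_div, inv_mul_cancel₀ hm0.ne',
      Real.rpow_one]
  set b : ℝ := K / R with hb
  have hb0 : 0 < b := by positivity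
  have hbm : N * b ^ m = K ^ m := by
    rw [hb, div_pow, hRm]; field_simp
  have hT : 0 ≤ ∑ i, lam i ^ m := Finset.sum_nonneg fun i _ => pow_nonneg (h0 i) m
  have h1 : (m : ℝ) * (b * ∑ i, lam i ^ (m - 1)) ≤ m * (∑ i, lam i ^ m + K ^ m) := by
    calc (m : ℝ) * (b * ∑ i, lam i ^ (m - 1))
        = ∑ i, (m : ℝ) * (lam i ^ (m - 1) * b ^ (m - (m - 1))) := by
          rw [Finset.mul_sum, Finset.mul_sum]
          refine Finset.sum_congr rfl fun i _ => ?_
          rw [show m - (m - 1) = 1 by omega, pow_one]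
          ring
      _ ≤ ∑ i, (((m - 1 : ℕ) : ℝ) * lam i ^ m + ((m - (m - 1) : ℕ) : ℝ) * b ^ m) :=
          Finset.sum_le_sum fun i _ => young (lam i) b (h0 i) hb0.le m (m - 1) (by omega) (by omega)
      _ = ((m - 1 : ℕ) : ℝ) * ∑ i, lam i ^ m + K ^ m := by
          rw [Finset.sum_add_distrib, ← Finset.mul_sum, Finset.sum_const, Finset.card_univ,
            nsmul_eq_mul, ← hN, show m - (m - 1) = 1 by omega, Nat.cast_one, one_mul, hbm]
      _ ≤ m * (∑ i, lam i ^ m + K ^ m) := by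
          have e1 : ((m - 1 : ℕ) : ℝ) ≤ m := by exact_mod_cast Nat.sub_le m 1
          have e2 : (1 : ℝ) ≤ m := by exact_mod_cast (by omega : 1 ≤ m)
          have e3 : 0 < K ^ m := pow_pos hK m
          nlinarith
  have h2 : b * ∑ i, lam i ^ (m - 1) ≤ ∑ i, lam i ^ m + K ^ m := le_of_mul_le_mul_left h1 hm0
  calc K * ∑ i, lam i ^ (m - 1) = R * (b * ∑ i, lam i ^ (m - 1)) := by
        rw [hb]; field_simp
    _ ≤ R * (∑ i, lam i ^ m + K ^ m) := mul_le_mul_of_nonneg_left h2 hR0.le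

/-- If `uᵀ J u ≤ c |u|²` for all `u` then `Tr J^m ≤ N c^m`. -/
lemma trace_le_of_form {J : Matrix ι ι ℝ} (hJ : J.PosSemidef) (m : ℕ) (c : ℝ) (hc : 0 ≤ c)
    (h : ∀ u : ι → ℝ, u ⬝ᵥ (J *ᵥ u) ≤ c * ∑ x, u x ^ 2) :
    (J ^ m).trace ≤ Fintype.card ι * c ^ m := by
  obtain ⟨U, lam, h0, -, hU, hs⟩ := spec hJ
  have hle : ∀ i, lam i ≤ c := by
    intro i
    have h1 := h (fun x => U x i)
    have e1 := hs 1
    simp only [pow_one] at e1
    have orth : ∀ j, ∑ x, U x i * U x j = if i = j then 1 else 0 := by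
      intro j
      have := congrFun (congrFun hU i) j
      rw [Matrix.mul_apply, Matrix.one_apply] at this
      simpa [Matrix.transpose_apply] using this
    rw [e1, form] at h1
    have e2 : ∑ j, lam j * (∑ x, U x i * U x j) ^ 2 = lam i := by
      rw [Finset.sum_eq_single i]
      · rw [orth, if_pos rfl]; ring
      · intro j _ hj
        rw [orth, if_neg (Ne.symm hj)]; ring
      · intro hi; exact absurd (Finset.mem_univ i) hi
    have e3 : ∑ x, U x i ^ 2 = 1 := by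
      have := orth i
      rw [if_pos rfl] at this
      rw [← this]
      exact Finset.sum_congr rfl fun x _ => by ring
    rw [e2, e3, mul_one] at h1
    exact h1
  rw [trace_eq hU (hs m)]
  calc ∑ i, lam i ^ m ≤ ∑ _i : ι, c ^ m :=
        Finset.sum_le_sum fun i _ => pow_le_pow_left₀ (h0 i) (hle i) m
    _ = _ := by rw [Finset.sum_const, Finset.card_univ, nsmul_eq_mul]

/-- quadratic form bound: if `Tr J^m ≤ c^m` then `uᵀ J u ≤ c |u|²`. -/
lemma form_le_of_trace {J : Matrix ι ι ℝ} (hJ : J.PosSemidef) (m : ℕ) (hm : 1 ≤ m)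
    (c : ℝ) (hc : 0 ≤ c) (h : (J ^ m).trace ≤ c ^ m) (u : ι → ℝ) :
    u ⬝ᵥ (J *ᵥ u) ≤ c * ∑ x, u x ^ 2 := by
  obtain ⟨U, lam, h0, hU2, hU, hs⟩ := spec hJ
  rw [trace_eq hU (hs m)] at h
  have hle := lam_le h0 m hm c hc h
  have e1 := hs 1
  simp only [pow_one] at e1
  have e0 : ∑ x, u x ^ 2 = ∑ i, (∑ x, u x * U x i) ^ 2 := by
    have h1 := form U (fun _ => (1 : ℝ)) u
    rw [show (diagonal fun _ : ι => (1 : ℝ)) = 1 from diagonal_one, mul_one, hU2, one_mulVec] at h1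
    simp only [one_mul] at h1
    rw [← h1, dotProduct]
    exact Finset.sum_congr rfl fun x _ => by ring
  rw [e1, form, e0, Finset.mul_sum]
  exact Finset.sum_le_sum fun i _ => mul_le_mul_of_nonneg_right (hle i) (sq_nonneg _)

end Pool.Agent.Kin
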