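import Pool.Agent.Kin.Res
import Pool.Agent.Kin.Rep1
import Pool.Agent.Kin.JMom

/-! KIN JPSD: the matrix `J = Im G` on `B × B`. -/

open Matrix Finset

noncomputable section

namespace Pool.Agent.Kin

variable {ι P : Type} [Fintype ι] [DecidableEq ι] [Fintype P]

namespace Dat

variable (D : Dat ι P)

lemma jpsd_zr_im (r : ℝ) : (D.zr r).im = D.et r := by
  unfold zr et eta
  rw [Complex.add_im, Complex.im_ofReal_mul]

/-- `J = η_r ∑_w (Re a_w Re a_wᵀ + Im a_w Im a_wᵀ)` -/
lemma J_eq (hH : RealSym D.H0) {r : ℝ} (hr : 0 < D.et r) (h : ι → ℝ) :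
    D.J r h = D.et r • ∑ w, (vecMulVec (fun x => (D.av r h w x).re) (fun x => (D.av r h w x).re) +
      vecMulVec (fun x => (D.av r h w x).im) (fun x => (D.av r h w x).im)) := by
  have hz : 0 < (D.zr r).im := by rw [jpsd_zr_im]; exact hr
  ext x y
  rw [Matrix.smul_apply, Matrix.sum_apply, smul_eq_mul]
  simp only [Matrix.add_apply, vecMulVec_apply]
  unfold J av
  by_cases hx : x ∈ D.B
  · by_cases hy : y ∈ D.B
    · simp only [hx, hy, and_self, if_true]
      have h1 := congrArg Complex.re (ward hH hz h x y)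
      rw [Complex.re_sum, Complex.ofReal_re, jpsd_zr_im] at h1
      have h2 : ∀ u, (res D.H0 (D.zr r) h x u * star (res D.H0 (D.zr r) h y u)).re =
          (D.G r h x u).re * (D.G r h y u).re + (D.G r h x u).im * (D.G r h y u).im := by
        intro u
        unfold G
        simp [Complex.mul_re]
      rw [Finset.sum_congr rfl fun u _ => h2 u] at h1
      rw [h1]
      unfold G
      field_simp
    · simp [hx, hy]
  · simp [hx]

lemma J_psd (hH : RealSym D.H0) {r : ℝ} (hr : 0 < D.et r) (h : ι → ℝ) :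
    (D.J r h).PosSemidef := by
  rw [J_eq D hH hr h]
  refine Matrix.PosSemidef.smul ?_ hr.le
  refine Matrix.posSemidef_sum _ fun w _ => ?_
  refine Matrix.PosSemidef.add ?_ ?_
  · exact Matrix.posSemidef_vecMulVec_self_star (fun x => (D.av r h w x).re)
  · exact Matrix.posSemidef_vecMulVec_self_star (fun x => (D.av r h w x).im)

/-- `∑_w φ_k(w) = Tr J^(k+1)/η_r` -/
lemma sum_phi (hH : RealSym D.H0) {r : ℝ} (hr : 0 < D.et r) (h : ι → ℝ) (k : ℕ) :
    ∑ w, phi (D.J r h) (D.av r h w) k = (D.J r h ^ (k + 1)).trace / D.et r := by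
  have h1 : (D.J r h ^ (k + 1)).trace = D.et r * ∑ w, phi (D.J r h) (D.av r h w) k := by
    have h2 : D.J r h ^ (k + 1) = D.J r h ^ k * (D.et r • ∑ w,
        (vecMulVec (fun x => (D.av r h w x).re) (fun x => (D.av r h w x).re) +
        vecMulVec (fun x => (D.av r h w x).im) (fun x => (D.av r h w x).im))) := by
      rw [← J_eq D hH hr h, pow_succ]
    rw [h2, Matrix.mul_smul, Matrix.trace_smul, Matrix.mul_sum, Matrix.trace_sum, smul_eq_mul]
    congr 1
    refine Finset.sum_congr rfl fun w _ => ?_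
    rw [Matrix.mul_add, Matrix.trace_add, Matrix.mul_vecMulVec, Matrix.mul_vecMulVec,
      Matrix.trace_vecMulVec, Matrix.trace_vecMulVec]
    unfold phi
    rw [dotProduct_comm, dotProduct_comm (D.J r h ^ k *ᵥ fun x => (D.av r h w x).im)]
  rw [h1]
  field_simp

/-- the replacement of `h w` by `t` -/
lemma J_update (hH : RealSym D.H0) {r : ℝ} (hr : 0 < D.et r) (h : ι → ℝ) (w : ι) (t : ℝ) :
    D.J r (Function.update h w t) = D.J r h -
      imr (((t - h w : ℝ) : ℂ) / (1 + ((t - h w : ℝ) : ℂ) * D.G r h w w)) (D.av r h w) := by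
  have hz : 0 < (D.zr r).im := by rw [jpsd_zr_im]; exact hr
  ext x y
  rw [Matrix.sub_apply]
  unfold J imr av
  by_cases hx : x ∈ D.B
  · by_cases hy : y ∈ D.B
    · simp only [hx, hy, and_self, if_true]
      unfold G
      rw [res_update hH hz h w t x y, Complex.sub_im, res_symm hH hz h w y]
      congr 2
      ring
    · simp [hx, hy]
  · simp [hx]

lemma jpsd_col (hH : RealSym D.H0) {r : ℝ} (hr : 0 < D.et r) (h : ι → ℝ) (w : ι) (t : ℝ)
    (x : ι) : D.G r (Function.update h w t) x w =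
      (1 + ((t - h w : ℝ) : ℂ) * D.G r h w w)⁻¹ * D.G r h x w := by
  have hz : 0 < (D.zr r).im := by rw [jpsd_zr_im]; exact hr
  have h1 := one_add_ne hH hz h w (t - h w)
  unfold G
  rw [res_update hH hz h w t x w]
  field_simp
  ring

lemma av_update (hH : RealSym D.H0) {r : ℝ} (hr : 0 < D.et r) (h : ι → ℝ) (w : ι) (t : ℝ)
    (x : ι) : D.av r (Function.update h w t) w x =
      (1 + ((t - h w : ℝ) : ℂ) * D.G r h w w)⁻¹ * D.av r h w x := by
  unfold av
  by_cases hx : x ∈ D.B
  · simp only [hx, if_true]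
    exact jpsd_col D hH hr h w t x
  · simp [hx]

lemma Gww_update (hH : RealSym D.H0) {r : ℝ} (hr : 0 < D.et r) (h : ι → ℝ) (w : ι) (t : ℝ) :
    D.G r (Function.update h w t) w w =
      (1 + ((t - h w : ℝ) : ℂ) * D.G r h w w)⁻¹ * D.G r h w w :=
  jpsd_col D hH hr h w t w

end Dat

end Pool.Agent.Kin
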