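import Pool.Agent.Kin.ZDer
import Pool.Agent.Kin.PowD
import Pool.Agent.Kin.JDer
import Pool.Agent.Kin.JPsd

/-! KIN GAMDER: derivatives of `Γ`. -/

open Matrix Finset

noncomputable section

namespace Pool.Agent.Kin

variable {ι P : Type} [Fintype ι] [DecidableEq ι] [Fintype P]

namespace Dat

variable (D : Dat ι P)

lemma gd_G_symm (hD : D.Hyp) {r : ℝ} (hr : 0 < D.et r) (h : ι → ℝ) (x y : ι) :
    D.G r h x y = D.G r h y x := by
  have hw : 0 < (D.zr r).im := by
    have : (D.zr r).im = D.et r := by
      unfold zr et eta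
      rw [Complex.add_im, Complex.im_ofReal_mul]
    rw [this]; exact hr
  exact res_symm hD.sym hw h x y

omit [DecidableEq ι] in
lemma gd_im_hasDerivAt {f : ℝ → ℂ} {f' : ℂ} {t : ℝ} (hf : HasDerivAt f f' t) :
    HasDerivAt (fun t => (f t).im) f'.im t := by
  exact Complex.imCLM.hasFDerivAt.comp_hasDerivAt t hf

/-- the entries of `J` differentiated along a curve. -/
lemma gd_J_curve (G : ℝ → Matrix ι ι ℂ) (G' : Matrix ι ι ℂ) (t : ℝ)
    (hG : ∀ x y, HasDerivAt (fun t => G t x y) (G' x y) t) (B : Finset ι) (x y : ι) :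
    HasDerivAt (fun t => (if x ∈ B ∧ y ∈ B then (G t x y).im else 0 : ℝ))
      (if x ∈ B ∧ y ∈ B then (G' x y).im else 0) t := by
  by_cases hxy : x ∈ B ∧ y ∈ B
  · simp only [if_pos hxy]
    exact gd_im_hasDerivAt (hG x y)
  · simp only [if_neg hxy]
    exact hasDerivAt_const t 0

lemma gd_dJ (hD : D.Hyp) {r : ℝ} (hr : 0 < D.et r) (h : ι → ℝ) (w : ι) (t : ℝ) (x y : ι) :
    HasDerivAt (fun t : ℝ => D.J r (Function.update h w t) x y)
      (imr (-1) (D.av r (Function.update h w t) w) x y) t := by
  have h1 := gd_J_curve (fun t => D.X r (Function.update h w t))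
    (D.dX w r (Function.update h w t)) t (fun x y => D.hasDerivAt_X hD.sym hr h w t x y) D.B x y
  have h2 : ∀ t : ℝ, D.J r (Function.update h w t) x y =
      (if x ∈ D.B ∧ y ∈ D.B then (D.X r (Function.update h w t) x y).im else 0) +
      (if x ∈ D.B ∧ y ∈ D.B then (D.M x y).im else 0) := by
    intro t
    unfold J X
    by_cases hxy : x ∈ D.B ∧ y ∈ D.B
    · simp [hxy]
    · simp [hxy]
  have h3 := h1.add_const (if x ∈ D.B ∧ y ∈ D.B then (D.M x y).im else 0)
  have h4 : (if x ∈ D.B ∧ y ∈ D.B then (D.dX w r (Function.update h w t) x y).im else 0) =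
      imr (-1) (D.av r (Function.update h w t) w) x y := by
    unfold imr av dX
    by_cases hx : x ∈ D.B
    · by_cases hy : y ∈ D.B
      · simp only [hx, hy, and_self, if_true]
        rw [D.gd_G_symm hD hr _ w y]
        ring_nf
      · simp [hx, hy]
    · simp [hx]
  rw [← h4, show (fun t : ℝ => D.J r (Function.update h w t) x y) = _ from funext h2]
  exact h3

lemma gd_av (hD : D.Hyp) {r : ℝ} (hr : 0 < D.et r) (h : ι → ℝ) (w : ι) (t : ℝ) (x : ι) :
    HasDerivAt (fun t : ℝ => D.av r (Function.update h w t) w x)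
      (-(D.av r (Function.update h w t) w x * D.G r (Function.update h w t) w w)) t := by
  by_cases hx : x ∈ D.B
  · have h1 := D.hasDerivAt_X hD.sym hr h w t x w
    have h3 := h1.add_const (D.M x w)
    have h2 : ∀ t : ℝ, D.av r (Function.update h w t) w x =
        D.X r (Function.update h w t) x w + D.M x w := by
      intro t; simp [av, X, hx]
    have h4 : D.dX w r (Function.update h w t) x w =
        -(D.av r (Function.update h w t) w x * D.G r (Function.update h w t) w w) := by
      simp [dX, av, hx]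
    rw [← h4, show (fun t : ℝ => D.av r (Function.update h w t) w x) = _ from funext h2]
    exact h3
  · have h2 : (fun t : ℝ => D.av r (Function.update h w t) w x) = fun _ => 0 := by
      funext t; simp [av, hx]
    rw [h2]
    have : -(D.av r (Function.update h w t) w x * D.G r (Function.update h w t) w w) = 0 := by
      simp [av, hx]
    rw [this]
    exact hasDerivAt_const t 0

lemma gd_dK (hD : D.Hyp) {r : ℝ} (hr : 0 < D.et r) (h : ι → ℝ) (w : ι) (t : ℝ) (x y : ι) :
    HasDerivAt (fun t : ℝ => imr (-1) (D.av r (Function.update h w t) w) x y)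
      (imr (2 * D.G r (Function.update h w t) w w) (D.av r (Function.update h w t) w) x y) t := by
  have hx := D.gd_av hD hr h w t x
  have hy := D.gd_av hD hr h w t y
  have h1 := ((hx.const_mul (-1 : ℂ)).mul hy)
  have h2 := gd_im_hasDerivAt h1
  unfold imr
  refine h2.congr_deriv ?_
  congr 1
  ring

lemma gd_tr_neg (W : Matrix ι ι ℝ) (a : ι → ℂ) :
    (W * imr (-1) a).trace = -(bil W a a).im := by
  rw [trace_imr]; simp

lemma gd_imr_neg (a : ι → ℂ) : imr (-1) a = -(imr 1 a) := by
  funext x y
  simp [imr]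

lemma hasDerivAt_Gam (hD : D.Hyp) {r : ℝ} (hr : 0 < D.et r) (h : ι → ℝ) (w : ι) (t : ℝ) :
    HasDerivAt (fun t : ℝ => D.Gam r (Function.update h w t))
      (D.Ga1 w r (Function.update h w t)) t := by
  unfold Gam Gam1 Ga1 Phi2
  have hm : 1 ≤ D.m := le_trans (by norm_num) hD.m3
  refine HasDerivAt.add (HasDerivAt.add (HasDerivAt.const_mul _ ?_) ?_) (HasDerivAt.const_mul _ ?_)
  · exact hasDerivAt_NN D.q hD.q2 (D.et r) (fun t => D.X r (Function.update h w t)) _ t
      (fun x y => D.hasDerivAt_X hD.sym hr h w t x y)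
  · have := HasDerivAt.fun_sum (u := (univ : Finset P))
      (A := fun p (t : ℝ) => NN D.q (D.et r) (D.Z p r (Function.update h w t)))
      (A' := fun p => DD D.q (D.et r) (D.Z p r (Function.update h w t))
        (D.dZ p w r (Function.update h w t))) (x := t)
      (fun p _ => hasDerivAt_NN D.q hD.q2 (D.et r) (fun t => D.Z p r (Function.update h w t)) _ t
      (fun x y => D.hasDerivAt_Z hD.sym hr p h w t x y))
    exact this
  · have h1 := hasDerivAt_trace_pow D.m hm (fun t => D.J r (Function.update h w t))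
      (imr (-1) (D.av r (Function.update h w t) w)) t (fun x y => D.gd_dJ hD hr h w t x y)
    rw [gd_tr_neg] at h1
    refine h1.congr_deriv ?_
    ring

lemma hasDerivAt_Ga1 (hD : D.Hyp) {r : ℝ} (hr : 0 < D.et r) (h : ι → ℝ) (w : ι) (t : ℝ) :
    HasDerivAt (fun t : ℝ => D.Ga1 w r (Function.update h w t))
      (D.Ga2 w r (Function.update h w t)) t := by
  unfold Ga1 Ga2
  have hm : 2 ≤ D.m := le_trans (by norm_num) hD.m3
  refine HasDerivAt.add (HasDerivAt.add (HasDerivAt.const_mul _ ?_) ?_) (HasDerivAt.const_mul _ ?_)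
  · exact hasDerivAt_DD D.q hD.q2 (D.et r) (fun t => D.X r (Function.update h w t))
      (fun t => D.dX w r (Function.update h w t)) _ t
      (fun x y => D.hasDerivAt_X hD.sym hr h w t x y)
      (fun x y => D.hasDerivAt_dX hD.sym hr h w t x y)
  · have := HasDerivAt.fun_sum (u := (univ : Finset P))
      (A := fun p (t : ℝ) => DD D.q (D.et r) (D.Z p r (Function.update h w t))
        (D.dZ p w r (Function.update h w t)))
      (A' := fun p => DD D.q (D.et r) (D.Z p r (Function.update h w t))
        (D.ddZ p w r (Function.update h w t)) + QV D.q (D.et r)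
        (D.Z p r (Function.update h w t)) (D.dZ p w r (Function.update h w t))) (x := t)
      (fun p _ => hasDerivAt_DD D.q hD.q2 (D.et r) (fun t => D.Z p r (Function.update h w t))
      (fun t => D.dZ p w r (Function.update h w t)) _ t
      (fun x y => D.hasDerivAt_Z hD.sym hr p h w t x y)
      (fun x y => D.hasDerivAt_dZ hD.sym hr p h w t x y))
    exact this
  · have h1 := hasDerivAt_trace_pow_mul D.m hm (fun t => D.J r (Function.update h w t))
      (fun t => imr (-1) (D.av r (Function.update h w t) w))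
      (imr (-1) (D.av r (Function.update h w t) w))
      (imr (2 * D.G r (Function.update h w t) w w) (D.av r (Function.update h w t) w)) t
      (fun x y => D.gd_dJ hD hr h w t x y) (fun x y => D.gd_dK hD hr h w t x y)
    have h2 := h1.const_mul (D.m : ℝ)
    have e0 : (fun t : ℝ => -(D.m * (bil (D.J r (Function.update h w t) ^ (D.m - 1))
        (D.av r (Function.update h w t) w) (D.av r (Function.update h w t) w)).im)) =
        fun t : ℝ => (D.m : ℝ) * (D.J r (Function.update h w t) ^ (D.m - 1) *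
          imr (-1) (D.av r (Function.update h w t) w)).trace := by
      funext t
      rw [gd_tr_neg]; ring
    rw [e0]
    refine h2.congr_deriv ?_
    · unfold D2 QV2
      rw [trace_imr]
      have e1 : (2 * D.G r (Function.update h w t) w w *
          bil (D.J r (Function.update h w t) ^ (D.m - 1)) (D.av r (Function.update h w t) w)
            (D.av r (Function.update h w t) w)).im =
          2 * (D.G r (Function.update h w t) w w *
          bil (D.J r (Function.update h w t) ^ (D.m - 1)) (D.av r (Function.update h w t) w)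
            (D.av r (Function.update h w t) w)).im := by
        rw [mul_assoc, Complex.mul_im]
        simp
      rw [e1]
      have e2 : ∀ i : ℕ, (D.J r (Function.update h w t) ^ i *
          imr (-1) (D.av r (Function.update h w t) w) *
          (D.J r (Function.update h w t) ^ (D.m - 2 - i) *
            imr (-1) (D.av r (Function.update h w t) w))).trace =
          (D.J r (Function.update h w t) ^ i *
          imr 1 (D.av r (Function.update h w t) w) *
          (D.J r (Function.update h w t) ^ (D.m - 2 - i) *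
            imr 1 (D.av r (Function.update h w t) w))).trace := by
        intro i
        rw [gd_imr_neg]
        simp
      simp only [e2]
      ring

lemma path_Gam (hD : D.Hyp) {r : ℝ} (hr : 0 < D.et r)
    (hS : ∀ p, 1 - D.s * r ^ 2 * D.S p ≠ 0) (v : ι → ℝ) :
    HasDerivAt (fun r : ℝ => D.Gam r (D.hv r v))
      (D.Gar r (D.hv r v) + ∑ w, D.lam * v w * D.Ga1 w r (D.hv r v)) r := by
  have hm : 1 ≤ D.m := le_trans (by norm_num) hD.m3
  -- X part
  have hX := hasDerivAt_NN' D.q hD.q2 D.et (-(2 * r * D.s * D.g0.im))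
    (fun r => D.X r (D.hv r v))
    (D.rX r (D.hv r v) + ∑ w, ((D.lam * v w : ℝ) : ℂ) • D.dX w r (D.hv r v)) r
    (D.hasDerivAt_et r) hr (fun x y => by
      have := D.path_X hD.sym hr v x y
      convert this using 1
      simp [Matrix.sum_apply])
  have hZ : ∀ p, HasDerivAt (fun r : ℝ => NN D.q (D.et r) (D.Z p r (D.hv r v)))
      (DD D.q (D.et r) (D.Z p r (D.hv r v))
        (D.rZ p r (D.hv r v) + ∑ w, ((D.lam * v w : ℝ) : ℂ) • D.dZ p w r (D.hv r v)) +
        -(-(2 * r * D.s * D.g0.im)) / D.et r ^ 2 * ∑ x, ‖D.Z p r (D.hv r v) x x‖ ^ (2 * D.q)) r :=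
    fun p => hasDerivAt_NN' D.q hD.q2 D.et (-(2 * r * D.s * D.g0.im))
      (fun r => D.Z p r (D.hv r v)) _ r (D.hasDerivAt_et r) hr (fun x y => by
      have := D.path_Z hD.sym hr p (hS p) v x y
      convert this using 1
      simp [Matrix.sum_apply])
  -- J part
  have hJe : ∀ x y, HasDerivAt (fun r : ℝ => D.J r (D.hv r v) x y)
      ((D.rJ r (D.hv r v) + ∑ w, (D.lam * v w) • imr (-1) (D.av r (D.hv r v) w)) x y) r := by
    intro x y
    have h1 := gd_J_curve (fun r => D.X r (D.hv r v))
      (fun x y => D.rX r (D.hv r v) x y +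
        ∑ w, ((D.lam * v w : ℝ) : ℂ) * D.dX w r (D.hv r v) x y) r
      (fun x y => D.path_X hD.sym hr v x y) D.B x y
    have h2 : ∀ r : ℝ, D.J r (D.hv r v) x y =
        (if x ∈ D.B ∧ y ∈ D.B then (D.X r (D.hv r v) x y).im else 0) +
        (if x ∈ D.B ∧ y ∈ D.B then (D.M x y).im else 0) := by
      intro t
      unfold J X
      by_cases hxy : x ∈ D.B ∧ y ∈ D.B
      · simp [hxy]
      · simp [hxy]
    have h3 := h1.add_const (if x ∈ D.B ∧ y ∈ D.B then (D.M x y).im else 0)
    have h4 : (if x ∈ D.B ∧ y ∈ D.B then (D.rX r (D.hv r v) x y +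
        ∑ w, ((D.lam * v w : ℝ) : ℂ) * D.dX w r (D.hv r v) x y).im else 0) =
        (D.rJ r (D.hv r v) + ∑ w, (D.lam * v w) • imr (-1) (D.av r (D.hv r v) w)) x y := by
      have e5 : ∀ w, imr (-1) (D.av r (D.hv r v) w) x y =
          if x ∈ D.B ∧ y ∈ D.B then (D.dX w r (D.hv r v) x y).im else 0 := by
        intro w
        unfold imr av dX
        by_cases hx : x ∈ D.B
        · by_cases hy : y ∈ D.B
          · simp only [hx, hy, and_self, if_true]
            rw [D.gd_G_symm hD hr _ w y]
            ring_nf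
          · simp [hx, hy]
        · simp [hx]
      rw [Matrix.add_apply, Matrix.sum_apply]
      simp only [Matrix.smul_apply, e5, rJ, smul_eq_mul]
      by_cases hxy : x ∈ D.B ∧ y ∈ D.B
      · simp only [if_pos hxy]
        rw [Complex.add_im, Complex.im_sum]
        congr 1
        refine Finset.sum_congr rfl fun w _ => ?_
        rw [Complex.im_ofReal_mul]
      · simp [if_neg hxy]
    rw [← h4, show (fun r : ℝ => D.J r (D.hv r v) x y) = _ from funext h2]
    exact h3
  have hT := hasDerivAt_trace_pow D.m hm (fun r => D.J r (D.hv r v)) _ r hJe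
  have hsum := HasDerivAt.fun_sum (u := (univ : Finset P)) (x := r) (fun p _ => hZ p)
  have hall := ((hX.const_mul (Fintype.card P : ℝ)).add hsum).add (hT.const_mul D.eps)
  unfold Gam Gam1 Phi2
  refine hall.congr_deriv ?_
  have d1 : ∀ (f g : Matrix ι ι ℂ) (k : ι → Matrix ι ι ℂ),
      DD D.q (D.et r) f (g + ∑ w, ((D.lam * v w : ℝ) : ℂ) • k w) =
      DD D.q (D.et r) f g + ∑ w, D.lam * v w * DD D.q (D.et r) f (k w) := by
    intro f g k
    rw [DD_add, DD_sum]
    congr 1
    refine Finset.sum_congr rfl fun w _ => ?_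
    rw [DD_smul]
  have d2 : (D.J r (D.hv r v) ^ (D.m - 1) *
      (D.rJ r (D.hv r v) + ∑ w, (D.lam * v w) • imr (-1) (D.av r (D.hv r v) w))).trace =
      (D.J r (D.hv r v) ^ (D.m - 1) * D.rJ r (D.hv r v)).trace +
      ∑ w, D.lam * v w * (-(bil (D.J r (D.hv r v) ^ (D.m - 1)) (D.av r (D.hv r v) w)
        (D.av r (D.hv r v) w)).im) := by
    rw [Matrix.mul_add, Matrix.trace_add, Matrix.mul_sum, Matrix.trace_sum]
    congr 1
    refine Finset.sum_congr rfl fun w _ => ?_
    rw [Matrix.mul_smul, Matrix.trace_smul, gd_tr_neg, smul_eq_mul]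
  have d3 : ∀ f : Matrix ι ι ℂ, -(-(2 * r * D.s * D.g0.im)) / D.et r ^ 2 *
      ∑ x, ‖f x x‖ ^ (2 * D.q) = D.rW r f := by
    intro f; unfold rW; ring
  simp only [d1, d2, d3]
  unfold Gar Ga1
  simp only [mul_add, Finset.sum_add_distrib, Finset.mul_sum]
  have d4 : ∑ p : P, ∑ w, D.lam * v w * DD D.q (D.et r) (D.Z p r (D.hv r v))
      (D.dZ p w r (D.hv r v)) = ∑ w, ∑ p : P, D.lam * v w * DD D.q (D.et r) (D.Z p r (D.hv r v))
      (D.dZ p w r (D.hv r v)) := Finset.sum_comm
  rw [d4]
  have d5 : ∀ w, (Fintype.card P : ℝ) * (D.lam * v w * DD D.q (D.et r) (D.X r (D.hv r v))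
      (D.dX w r (D.hv r v))) = D.lam * v w * ((Fintype.card P : ℝ) *
      DD D.q (D.et r) (D.X r (D.hv r v)) (D.dX w r (D.hv r v))) := fun w => by ring
  have d6 : ∀ w, D.eps * (D.m * (D.lam * v w * (-(bil (D.J r (D.hv r v) ^ (D.m - 1))
      (D.av r (D.hv r v) w) (D.av r (D.hv r v) w)).im))) = D.lam * v w * (D.eps *
      (-(D.m * (bil (D.J r (D.hv r v) ^ (D.m - 1))
      (D.av r (D.hv r v) w) (D.av r (D.hv r v) w)).im))) := fun w => by ring
  simp only [d5, d6]
  ring

end Dat

end Pool.Agent.Kin
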