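import Pool.Agent.Kin.Defs

/-! KIN GRONW: Gronwall with the coefficient `2 r s R/η_r`. -/

noncomputable section

namespace Pool.Agent.Kin

/-- `e r = η + s (1 - r²) g`. -/
theorem gronw (η s g R bb : ℝ) (hη : 0 < η) (hs : 0 < s) (hg : 0 < g) (hR : 0 < R) (hbb : 0 ≤ bb)
    (u u' : ℝ → ℝ) (hu : ∀ r ∈ Set.Icc (0 : ℝ) 1, HasDerivAt u (u' r) r)
    (h : ∀ r ∈ Set.Icc (0 : ℝ) 1,
      u' r ≤ 2 * r * (s / (η + s * (1 - r ^ 2) * g)) * R * (4 * u r + bb))
    (hu0 : 0 ≤ u 0) :
    u 1 ≤ (u 0 + bb) * ((η + s * g) / η) ^ (4 * R / g) := by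
  set c : ℝ := 4 * R / g with hc
  have hcpos : 0 < c := by positivity
  set e : ℝ → ℝ := fun r => η + s * (1 - r ^ 2) * g with he
  have hepos : ∀ r ∈ Set.Icc (0 : ℝ) 1, 0 < e r := by
    intro r hr
    have h1 : 0 ≤ 1 - r ^ 2 := by nlinarith [hr.1, hr.2]
    have h2 : 0 ≤ s * (1 - r ^ 2) * g := by positivity
    simp only [he]; linarith
  have hed : ∀ r, HasDerivAt e (-(2 * r * s * g)) r := by
    intro r
    have h1 : HasDerivAt (fun r : ℝ => r ^ 2) (2 * r) r := by
      simpa using hasDerivAt_pow 2 r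
    have h2 := (((h1.const_sub 1).const_mul s).mul_const g).const_add η
    refine h2.congr_deriv ?_
    ring
  set φ : ℝ → ℝ := fun r => (u r + bb / 4) * e r ^ c with hφ
  have hφd : ∀ r ∈ Set.Icc (0 : ℝ) 1, HasDerivAt φ
      (u' r * e r ^ c + (u r + bb / 4) * (-(2 * r * s * g) * c * e r ^ (c - 1))) r := by
    intro r hr
    have h1 := (hu r hr).add_const (bb / 4)
    have h2 := (hed r).rpow_const (p := c) (Or.inl (hepos r hr).ne')
    exact h1.mul h2
  have hanti : AntitoneOn φ (Set.Icc 0 1) := by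
    refine antitoneOn_of_deriv_nonpos (convex_Icc 0 1) ?_ ?_ ?_
    · intro r hr
      exact (hφd r hr).continuousAt.continuousWithinAt
    · intro r hr
      rw [interior_Icc] at hr
      exact (hφd r (Set.Ioo_subset_Icc_self hr)).differentiableAt.differentiableWithinAt
    · intro r hr
      rw [interior_Icc] at hr
      have hr' := Set.Ioo_subset_Icc_self hr
      rw [(hφd r hr').deriv]
      have hp := hepos r hr'
      have h1 : e r ^ (c - 1) = e r ^ c / e r := by
        rw [Real.rpow_sub hp, Real.rpow_one]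
      rw [h1]
      have h2 := h r hr'
      have h3 : 0 < e r ^ c := Real.rpow_pos_of_pos hp c
      have h4 : u' r * e r ^ c + (u r + bb / 4) * (-(2 * r * s * g) * c * (e r ^ c / e r)) =
          e r ^ c * (u' r - 2 * r * (s / e r) * R * (4 * u r + bb)) := by
        rw [hc]
        field_simp
        ring
      rw [h4]
      have h5 : u' r - 2 * r * (s / e r) * R * (4 * u r + bb) ≤ 0 := by
        simp only [he]; linarith
      exact mul_nonpos_of_nonneg_of_nonpos h3.le h5
  have h01 := hanti (Set.left_mem_Icc.mpr zero_le_one) (Set.right_mem_Icc.mpr zero_le_one)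
    zero_le_one
  have he0 : e 0 = η + s * g := by simp [he]
  have he1 : e 1 = η := by simp [he]
  simp only [hφ, he0, he1] at h01
  have hηc : 0 < η ^ c := Real.rpow_pos_of_pos hη c
  rw [Real.div_rpow (by positivity) hη.le]
  have h6 : u 1 + bb / 4 ≤ (u 0 + bb / 4) * ((η + s * g) ^ c / η ^ c) := by
    rw [← mul_div_assoc, le_div_iff₀ hηc]
    exact h01
  have h7 : 0 ≤ (η + s * g) ^ c / η ^ c := by positivity
  have h8 : (u 0 + bb / 4) * ((η + s * g) ^ c / η ^ c) ≤
      (u 0 + bb) * ((η + s * g) ^ c / η ^ c) := by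
    apply mul_le_mul_of_nonneg_right _ h7
    linarith
  linarith

end Pool.Agent.Kin
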