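import Pool.Agent.Kin.Good

/-! KIN JSUM: the sums over `w` for the trace functional (section A7 (vii)). -/

open Matrix Finset

noncomputable section

namespace Pool.Agent.Kin

variable {ι P : Type} [Fintype ι] [DecidableEq ι] [Fintype P]

namespace Dat

variable (D : Dat ι P)

lemma jsum_et_pos (hD : D.Hyp) {r : ℝ} (h0 : 0 ≤ r) (h1 : r ≤ 1) : 0 < D.et r :=
  lt_of_lt_of_le hD.eta0 (D.et_pos hD h0 h1).1

lemma sum_L2 (hD : D.Hyp) {r : ℝ} (h0 : 0 ≤ r) (h1 : r ≤ 1) (h : ι → ℝ) :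
    ∑ w, D.L2 w r h = D.Phi2 r h / D.et r := by
  have hr := D.jsum_et_pos hD h0 h1
  have h3 := D.sum_phi hD.sym hr h (D.m - 1)
  have hm : D.m - 1 + 1 = D.m := by have := hD.m3; omega
  rw [hm] at h3
  exact h3

lemma jsum_kbar_nonneg (hD : D.Hyp) : 0 ≤ D.kbar := by
  refine le_trans ?_ (hD.kbar0 0 le_rfl zero_le_one)
  refine Finset.sum_nonneg fun p _ => mul_nonneg (norm_nonneg _) ?_
  have := div_nonneg hD.tau0.le hD.eta0.le
  have := abs_nonneg (D.Fh p 0)
  linarith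

/-- for every `K' > 0` -/
lemma sum_Q2 (hD : D.Hyp) {r : ℝ} (h0 : 0 ≤ r) (h1 : r ≤ 1) (h : ι → ℝ) (hg : D.Good r h)
    (K' : ℝ) (hK : 0 < K') :
    ∑ w, D.Q2 w r h ≤ D.kbar * (Fintype.card ι : ℝ) ^ (1 / (D.m : ℝ)) / K' / D.et r *
      (D.Phi2 r h + K' ^ D.m) := by
  have hr := D.jsum_et_pos hD h0 h1
  have hJ := D.J_psd hD.sym hr h
  have hkb := D.jsum_kbar_nonneg hD
  have hm3 := hD.m3
  have e1 : ∑ w, D.Q2 w r h ≤ ∑ w, D.kbar * phi (D.J r h) (D.av r h w) (D.m - 2) := by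
    refine Finset.sum_le_sum fun w _ => ?_
    exact mul_le_mul_of_nonneg_right (hg.kB w) (phi_nonneg hJ _ _)
  have e2 := D.sum_phi hD.sym hr h (D.m - 2)
  have hm : D.m - 2 + 1 = D.m - 1 := by omega
  rw [hm] at e2
  rw [← Finset.mul_sum, e2] at e1
  have e3 := trace_interp hJ D.m (by omega) K' hK
  have e4 : (D.J r h ^ (D.m - 1)).trace ≤
      (Fintype.card ι : ℝ) ^ (1 / (D.m : ℝ)) * (D.Phi2 r h + K' ^ D.m) / K' := by
    rw [le_div_iff₀ hK]
    have : D.Phi2 r h = (D.J r h ^ D.m).trace := rfl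
    rw [this]
    linarith
  calc ∑ w, D.Q2 w r h ≤ D.kbar * ((D.J r h ^ (D.m - 1)).trace / D.et r) := e1
    _ ≤ D.kbar * (((Fintype.card ι : ℝ) ^ (1 / (D.m : ℝ)) * (D.Phi2 r h + K' ^ D.m) / K') /
          D.et r) := by
        refine mul_le_mul_of_nonneg_left ?_ hkb
        exact div_le_div_of_nonneg_right e4 hr.le
    _ = D.kbar * (Fintype.card ι : ℝ) ^ (1 / (D.m : ℝ)) / K' / D.et r *
      (D.Phi2 r h + K' ^ D.m) := by
        field_simp

lemma jsum_rJ (hD : D.Hyp) {r : ℝ} (hr : 0 < D.et r) (h : ι → ℝ) :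
    D.rJ r h = ∑ w, imr (-(2 * (r : ℂ) * (D.s : ℂ) * D.g0)) (D.av r h w) := by
  ext x y
  rw [Matrix.sum_apply]
  by_cases hxy : x ∈ D.B ∧ y ∈ D.B
  · have hs : ∀ w, D.G r h w y = D.G r h y w := fun w => by
      have hz : 0 < (D.zr r).im := by
        have : (D.zr r).im = D.et r := by
          simp only [zr, et, eta, Complex.add_im, Complex.im_ofReal_mul]
        rw [this]; exact hr
      exact res_symm hD.sym hz h w y
    simp only [rJ, hxy, and_self, if_true, imr, av]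
    simp only [rX, Matrix.smul_apply, Matrix.mul_apply, smul_eq_mul, Finset.mul_sum,
      Complex.im_sum, hs]
    refine Finset.sum_congr rfl fun w _ => ?_
    ring_nf
  · simp only [rJ, hxy, if_false]
    symm
    refine Finset.sum_eq_zero fun w _ => ?_
    simp only [imr, av]
    by_cases hx : x ∈ D.B
    · have hy : y ∉ D.B := fun hy => hxy ⟨hx, hy⟩
      simp [hy]
    · simp [hx]

/-- combined drift of the trace functional -/
lemma drift_J (hD : D.Hyp) {r : ℝ} (h0 : 0 ≤ r) (h1 : r ≤ 1) (h : ι → ℝ) (hg : D.Good r h) :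
    D.m * (D.J r h ^ (D.m - 1) * D.rJ r h).trace + D.s * r * ∑ w, D.D2 w r h ≤
      2 * r * (D.s / D.et r) * (D.m * (D.tau + D.dbar) * D.Phi2 r h) := by
  have hr := D.jsum_et_pos hD h0 h1
  have hJ := D.J_psd hD.sym hr h
  have hs : 0 ≤ D.s := mul_nonneg (sq_nonneg _) hD.sg0.le
  rw [D.jsum_rJ hD hr h, Matrix.mul_sum, Matrix.trace_sum]
  simp only [trace_imr]
  have key : (D.m : ℝ) * ∑ w, (-(2 * (r : ℂ) * (D.s : ℂ) * D.g0) *
        bil (D.J r h ^ (D.m - 1)) (D.av r h w) (D.av r h w)).im + D.s * r * ∑ w, D.D2 w r h =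
      2 * r * D.s * D.m * ∑ w, ((D.G r h w w - D.g0) *
        bil (D.J r h ^ (D.m - 1)) (D.av r h w) (D.av r h w)).im := by
    simp only [Finset.mul_sum, D2, ← Finset.sum_add_distrib]
    refine Finset.sum_congr rfl fun w _ => ?_
    generalize bil (D.J r h ^ (D.m - 1)) (D.av r h w) (D.av r h w) = b
    generalize D.G r h w w = g
    simp only [Complex.mul_im, Complex.neg_im, Complex.neg_re, Complex.mul_re, Complex.sub_re,
      Complex.sub_im, Complex.ofReal_re, Complex.ofReal_im, Complex.re_ofNat, Complex.im_ofNat]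
    ring
  rw [key]
  have hb : ∑ w, ((D.G r h w w - D.g0) *
        bil (D.J r h ^ (D.m - 1)) (D.av r h w) (D.av r h w)).im ≤
      ∑ w, (D.tau + D.dbar) * D.L2 w r h := by
    refine Finset.sum_le_sum fun w _ => ?_
    refine le_trans (le_abs_self _) (le_trans (Complex.abs_im_le_norm _) ?_)
    rw [norm_mul]
    have h1' : ‖D.G r h w w - D.g0‖ ≤ D.tau + D.dbar := by
      have e : D.G r h w w - D.g0 = D.X r h w w + (D.M w w - D.g0) := by
        simp only [X, Matrix.sub_apply]; ring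
      rw [e]
      exact le_trans (norm_add_le _ _) (add_le_add (hg.X w w) (hD.Mg w))
    have h2' : ‖bil (D.J r h ^ (D.m - 1)) (D.av r h w) (D.av r h w)‖ ≤ D.L2 w r h :=
      bil_le hJ _ _ _ _ (Or.inl rfl) (Or.inl rfl)
    exact mul_le_mul h1' h2' (norm_nonneg _) (le_trans (norm_nonneg _) h1')
  rw [← Finset.mul_sum, D.sum_L2 hD h0 h1 h] at hb
  have hc : 0 ≤ 2 * r * D.s * D.m := by positivity
  refine le_trans (mul_le_mul_of_nonneg_left hb hc) (le_of_eq ?_)
  ring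

end Dat

end Pool.Agent.Kin
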