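import Pool.Agent.Kin.QvS

/-! KIN LSUM: `λ ∑_w L_w` for `X` and `Z` (section A7 (v)). -/

open Matrix Finset

noncomputable section

namespace Pool.Agent.Kin

lemma LL_sum_le {ι κ : Type} [Fintype ι] [DecidableEq ι] [Fintype κ] (q : ℕ) (hq : 2 ≤ q)
    {e lam K : ℝ} (he : 0 < e) (hl : 0 ≤ lam) (hK : 0 ≤ K) (f : Matrix ι ι ℂ)
    (d : κ → Matrix ι ι ℝ) (hd : ∀ x y, ∑ w, d w x y ≤ K / e) :
    lam * ∑ w, LL q e f (d w) ≤ K / e * (NN q e f +
      ((Fintype.card ι : ℝ) ^ 2 + (Fintype.card ι : ℝ) / e) * lam ^ (2 * q)) := by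
  have hwt : ∀ x y : ι, 0 ≤ wt e x y := by
    intro x y
    unfold wt
    split_ifs
    · positivity
    · norm_num
  have h1 : lam * ∑ w, LL q e f (d w) =
      ∑ x, ∑ y, wt e x y * (‖f x y‖ ^ (2 * q - 1) * lam) * ∑ w, d w x y := by
    unfold LL
    rw [Finset.sum_comm, Finset.mul_sum]
    apply Finset.sum_congr rfl
    intro x _
    rw [Finset.sum_comm, Finset.mul_sum]
    apply Finset.sum_congr rfl
    intro y _
    rw [Finset.mul_sum, Finset.mul_sum]
    apply Finset.sum_congr rfl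
    intro w _
    ring
  rw [h1]
  calc ∑ x, ∑ y, wt e x y * (‖f x y‖ ^ (2 * q - 1) * lam) * ∑ w, d w x y
      ≤ ∑ x, ∑ y, wt e x y * (‖f x y‖ ^ (2 * q) + lam ^ (2 * q)) * (K / e) := by
        apply Finset.sum_le_sum
        intro x _
        apply Finset.sum_le_sum
        intro y _
        have h2 := young3 (norm_nonneg (f x y)) hl (show 1 ≤ q by omega)
        have h3 := hwt x y
        calc wt e x y * (‖f x y‖ ^ (2 * q - 1) * lam) * ∑ w, d w x y ≤
            wt e x y * (‖f x y‖ ^ (2 * q - 1) * lam) * (K / e) := by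
              apply mul_le_mul_of_nonneg_left (hd x y)
              positivity
          _ ≤ wt e x y * (‖f x y‖ ^ (2 * q) + lam ^ (2 * q)) * (K / e) := by
              gcongr
    _ = K / e * (NN q e f + ∑ x, ∑ y, wt e x y * lam ^ (2 * q)) := by
        unfold NN
        rw [← Finset.sum_add_distrib, Finset.mul_sum]
        apply Finset.sum_congr rfl
        intro x _
        rw [← Finset.sum_add_distrib, Finset.mul_sum]
        apply Finset.sum_congr rfl
        intro y _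
        ring
    _ = _ := by
        rw [wt_sum e (fun _ _ : ι => lam ^ (2 * q))]
        simp only [Finset.sum_const, Finset.card_univ, nsmul_eq_mul]
        ring

lemma amgm_sum {κ : Type} [Fintype κ] (u v : κ → ℝ) {K : ℝ} (hu : ∑ w, u w ^ 2 ≤ K)
    (hv : ∑ w, v w ^ 2 ≤ K) : ∑ w, u w * v w ≤ K := by
  calc ∑ w, u w * v w ≤ ∑ w, (u w ^ 2 / 2 + v w ^ 2 / 2) := by
        apply Finset.sum_le_sum
        intro w _
        nlinarith [sq_nonneg (u w - v w)]
    _ = (∑ w, u w ^ 2) / 2 + (∑ w, v w ^ 2) / 2 := by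
        rw [Finset.sum_add_distrib, Finset.sum_div, Finset.sum_div]
    _ ≤ K := by linarith

theorem lsX (q : ℕ) (hq : 2 ≤ q) (C1 : ℝ) (hC1 : 1 ≤ C1) : ∃ C : ℝ, 0 < C ∧
    ∀ (ι P : Type) [Fintype ι] [DecidableEq ι] [Fintype P] (D : Dat ι P), D.Hyp → D.q = q →
      D.C1 = C1 → ∀ r : ℝ, 0 ≤ r → r ≤ 1 → ∀ h : ι → ℝ, D.Good r h →
      D.lam * ∑ w, LL q (D.et r) (D.X r h) (D.sX w r h) ≤
        C / D.et r * (NN q (D.et r) (D.X r h) + D.NB * D.lam ^ (2 * q)) := by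
  refine ⟨2 * C1, by positivity, ?_⟩
  intro ι P _ _ _ D hD hDq hDC r h0 h1 h hg
  have het := D.etpos hD h0 h1
  have hlam := hD.lam0
  obtain ⟨hNB1, hNB2⟩ := D.NB_ge hD h0 h1
  obtain ⟨hG1, hG2, hG3⟩ := D.absG hD h0 h1 h hg
  rw [hDC] at hG1 hG2 hG3
  have hd : ∀ x y, ∑ w, D.sX w r h x y ≤ C1 / D.et r := by
    intro x y
    unfold Dat.sX
    exact amgm_sum _ _ (hG1 x) (hG2 y)
  have key := LL_sum_le q hq het hlam.le (by positivity : 0 ≤ C1) (D.X r h)
    (fun w => D.sX w r h) hd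
  refine key.trans ?_
  set e := D.et r with he
  have hN : 0 ≤ NN q e (D.X r h) := by
    rw [NN_eq]
    positivity
  have hl : 0 ≤ D.lam ^ (2 * q) := by positivity
  have h6 := mul_le_mul_of_nonneg_right hNB1 hl
  have h7 := mul_le_mul_of_nonneg_right hNB2 hl
  calc C1 / e * (NN q e (D.X r h) +
      ((Fintype.card ι : ℝ) ^ 2 + (Fintype.card ι : ℝ) / e) * D.lam ^ (2 * q)) ≤
      C1 / e * (2 * (NN q e (D.X r h) + D.NB * D.lam ^ (2 * q))) := by
        apply mul_le_mul_of_nonneg_left _ (by positivity)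
        rw [add_mul]
        linarith
    _ = _ := by ring

theorem lsZ (q : ℕ) (hq : 2 ≤ q) (C1 : ℝ) (hC1 : 1 ≤ C1) : ∃ C : ℝ, 0 < C ∧
    ∀ (ι P : Type) [Fintype ι] [DecidableEq ι] [Fintype P] (D : Dat ι P), D.Hyp → D.q = q →
      D.C1 = C1 → ∀ (p : P) (r : ℝ), 0 ≤ r → r ≤ 1 → ∀ h : ι → ℝ, D.Good r h →
      D.lam * ∑ w, LL q (D.et r) (D.Z p r h) (D.sZ p w r h) ≤
        C / D.et r * (NN q (D.et r) (D.Z p r h) + D.NB * D.lam ^ (2 * q)) := by
  refine ⟨6 * C1, by positivity, ?_⟩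
  intro ι P _ _ _ D hD hDq hDC p r h0 h1 h hg
  have het := D.etpos hD h0 h1
  have hlam := hD.lam0
  obtain ⟨hNB1, hNB2⟩ := D.NB_ge hD h0 h1
  obtain ⟨hG1, hG2, hG3⟩ := D.absG hD h0 h1 h hg
  have hFr := hg.Frow p
  have hFc := hg.Fcol p
  rw [hDC] at hG1 hG2 hG3 hFr hFc
  have hd : ∀ x y, ∑ w, D.sZ p w r h x y ≤ 3 * C1 / D.et r := by
    intro x y
    have a1 := amgm_sum (fun w => ‖D.G r h x w‖) (fun w => D.eta * ‖D.F p r h w y‖)
      (hG1 x) (hFc y)
    have a2 := amgm_sum (fun w => D.eta * ‖D.F p r h x w‖) (fun w => ‖D.G r h y w‖)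
      (hFr x) (hG1 y)
    have a3 := amgm_sum (fun w => ‖D.G r h x w‖) (fun w => ‖D.G r h y w‖) (hG1 x) (hG1 y)
    have a4 : ∑ w, D.sZ p w r h x y = ∑ w, ‖D.G r h x w‖ * (D.eta * ‖D.F p r h w y‖) +
        ∑ w, D.eta * ‖D.F p r h x w‖ * ‖D.G r h y w‖ + ∑ w, ‖D.G r h x w‖ * ‖D.G r h y w‖ := by
      rw [← Finset.sum_add_distrib, ← Finset.sum_add_distrib]
      apply Finset.sum_congr rfl
      intro w _
      unfold Dat.sZ
      ring
    rw [a4]
    have a5 : 3 * C1 / D.et r = C1 / D.et r + C1 / D.et r + C1 / D.et r := by ring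
    rw [a5]
    exact add_le_add (add_le_add a1 a2) a3
  have key := LL_sum_le q hq het hlam.le (by positivity : 0 ≤ 3 * C1) (D.Z p r h)
    (fun w => D.sZ p w r h) hd
  refine key.trans ?_
  set e := D.et r with he
  have hN : 0 ≤ NN q e (D.Z p r h) := by
    rw [NN_eq]
    positivity
  have hl : 0 ≤ D.lam ^ (2 * q) := by positivity
  have h6 := mul_le_mul_of_nonneg_right hNB1 hl
  have h7 := mul_le_mul_of_nonneg_right hNB2 hl
  calc 3 * C1 / e * (NN q e (D.Z p r h) +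
      ((Fintype.card ι : ℝ) ^ 2 + (Fintype.card ι : ℝ) / e) * D.lam ^ (2 * q)) ≤
      3 * C1 / e * (2 * (NN q e (D.Z p r h) + D.NB * D.lam ^ (2 * q))) := by
        apply mul_le_mul_of_nonneg_left _ (by positivity)
        rw [add_mul]
        linarith
    _ = _ := by ring

end Pool.Agent.Kin
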