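import Pool.Agent.Kin.QvCom

/-! KIN QVD: quadratic variation, diagonal part (section A7 (iv)). -/

open Matrix Finset

noncomputable section

namespace Pool.Agent.Kin

/-- `R` bounded -/
theorem qvd (q : ℕ) (hq : 2 ≤ q) (C1 C4 : ℝ) (hC1 : 1 ≤ C1) (hC4 : 1 ≤ C4) : ∃ C : ℝ, 0 < C ∧
    ∀ (ι P : Type) [Fintype ι] [DecidableEq ι] [Fintype P] (D : Dat ι P), D.Hyp →
      D.C1 = C1 → ∀ r : ℝ, 0 ≤ r → r ≤ 1 → ∀ h : ι → ℝ, D.Good r h →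
      ∀ (f : ι → ℂ) (R : Matrix ι ι ℝ), (∀ x y, 0 ≤ R x y) → (∀ x y, R x y ≤ C1) →
        (∀ y, ∑ x, R x y ^ 2 ≤ C1 / D.et r) → (∀ y, ∑ x, R x y ^ 4 ≤ C4 / D.et r) →
      ∑ w, ∑ x, 1 / D.et r * (‖f x‖ ^ (2 * q - 2) * (‖D.G r h x w‖ ^ 2 * R w x ^ 2)) ≤
        C / D.et r * (1 / D.et r * ∑ x, ‖f x‖ ^ (2 * q) +
          ∑ x, ∑ y, ‖D.X r h x y‖ ^ (2 * q) +
          (Fintype.card ι : ℝ) / D.et r * D.cv ^ q) := by
  refine ⟨2 * C1 ^ 2 + 2 * C4, by positivity, ?_⟩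
  intro ι P _ _ _ D hD hDC r h0 h1 h hg f R hR0 hR1 hRc hR4
  have het := D.etpos hD h0 h1
  have hq1 : 1 ≤ q := by omega
  have hcv := D.cv0
  set e := D.et r with he
  have hpt : ∀ w x, 1 / e * (‖f x‖ ^ (2 * q - 2) * (‖D.G r h x w‖ ^ 2 * R w x ^ 2)) ≤
      2 * (1 / e * (‖f x‖ ^ (2 * q) * R w x ^ 2)) +
        2 * (1 / e * (‖D.X r h x w‖ ^ (2 * q) * R w x ^ 2)) +
        2 * (1 / e * (‖f x‖ ^ (2 * q - 2) * (‖D.M x w‖ ^ 2 * R w x ^ 2))) := by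
    intro w x
    have h2 := D.G_le r h x w
    have h3 := young1 (norm_nonneg (f x)) (norm_nonneg (D.X r h x w)) hq1
    have h4 : 0 ≤ ‖f x‖ ^ (2 * q - 2) := pow_nonneg (norm_nonneg _) _
    have h5 : 0 ≤ R w x ^ 2 := sq_nonneg _
    calc 1 / e * (‖f x‖ ^ (2 * q - 2) * (‖D.G r h x w‖ ^ 2 * R w x ^ 2)) ≤
        1 / e * (‖f x‖ ^ (2 * q - 2) * ((2 * ‖D.X r h x w‖ ^ 2 + 2 * ‖D.M x w‖ ^ 2) *
          R w x ^ 2)) := by
          gcongr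
      _ = 2 * (1 / e * ((‖f x‖ ^ (2 * q - 2) * ‖D.X r h x w‖ ^ 2) * R w x ^ 2)) +
          2 * (1 / e * (‖f x‖ ^ (2 * q - 2) * (‖D.M x w‖ ^ 2 * R w x ^ 2))) := by ring
      _ ≤ 2 * (1 / e * ((‖f x‖ ^ (2 * q) + ‖D.X r h x w‖ ^ (2 * q)) * R w x ^ 2)) +
          2 * (1 / e * (‖f x‖ ^ (2 * q - 2) * (‖D.M x w‖ ^ 2 * R w x ^ 2))) := by
          gcongr
      _ = _ := by ring
  have hA : ∑ w, ∑ x, 1 / e * (‖f x‖ ^ (2 * q) * R w x ^ 2) ≤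
      C1 / e * (1 / e * ∑ x, ‖f x‖ ^ (2 * q)) := by
    calc ∑ w, ∑ x, 1 / e * (‖f x‖ ^ (2 * q) * R w x ^ 2)
        = ∑ x, 1 / e * (‖f x‖ ^ (2 * q) * ∑ w, R w x ^ 2) := by
          rw [Finset.sum_comm]
          apply Finset.sum_congr rfl
          intro x _
          rw [Finset.mul_sum, Finset.mul_sum]
      _ ≤ ∑ x, 1 / e * (‖f x‖ ^ (2 * q) * (C1 / e)) := by
          gcongr with x _
          exact hRc x
      _ = _ := by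
          rw [Finset.mul_sum, Finset.mul_sum]
          apply Finset.sum_congr rfl
          intro x _
          ring
  have hB : ∑ w, ∑ x, 1 / e * (‖D.X r h x w‖ ^ (2 * q) * R w x ^ 2) ≤
      C1 ^ 2 / e * ∑ x, ∑ y, ‖D.X r h x y‖ ^ (2 * q) := by
    calc ∑ w, ∑ x, 1 / e * (‖D.X r h x w‖ ^ (2 * q) * R w x ^ 2)
        ≤ ∑ w, ∑ x, 1 / e * (‖D.X r h x w‖ ^ (2 * q) * C1 ^ 2) := by
          gcongr with w _ x _
          · exact hR0 w x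
          · exact hR1 w x
      _ = _ := by
          rw [Finset.sum_comm, Finset.mul_sum]
          apply Finset.sum_congr rfl
          intro x _
          rw [Finset.mul_sum]
          apply Finset.sum_congr rfl
          intro y _
          ring
  have hC : ∑ w, ∑ x, 1 / e * (‖f x‖ ^ (2 * q - 2) * (‖D.M x w‖ ^ 2 * R w x ^ 2)) ≤
      C4 / e * (1 / e * ∑ x, ‖f x‖ ^ (2 * q) + (Fintype.card ι : ℝ) / e * D.cv ^ q) := by
    calc ∑ w, ∑ x, 1 / e * (‖f x‖ ^ (2 * q - 2) * (‖D.M x w‖ ^ 2 * R w x ^ 2))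
        = ∑ x, 1 / e * (‖f x‖ ^ (2 * q - 2) * ∑ w, ‖D.M x w‖ ^ 2 * R w x ^ 2) := by
          rw [Finset.sum_comm]
          apply Finset.sum_congr rfl
          intro x _
          rw [Finset.mul_sum, Finset.mul_sum]
      _ ≤ ∑ x, 1 / e * (‖f x‖ ^ (2 * q - 2) * (C4 / e * D.cv)) := by
          gcongr with x _
          exact cs4 het hC4 hcv _ _ (D.M4_le hD h0 h1 x) (hR4 x)
      _ = C4 / e * ∑ x, 1 / e * (‖f x‖ ^ (2 * q - 2) * D.cv) := by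
          rw [Finset.mul_sum]
          apply Finset.sum_congr rfl
          intro x _
          ring
      _ ≤ C4 / e * ∑ x, 1 / e * (‖f x‖ ^ (2 * q) + D.cv ^ q) := by
          gcongr with x _
          exact young2 (norm_nonneg _) hcv hq1
      _ = _ := by
          congr 1
          simp only [mul_add, Finset.sum_add_distrib, Finset.sum_const, Finset.card_univ,
            nsmul_eq_mul, Finset.mul_sum]
          ring
  have hX0 : 0 ≤ ∑ x, ∑ y, ‖D.X r h x y‖ ^ (2 * q) := by positivity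
  have hf0 : 0 ≤ 1 / e * ∑ x, ‖f x‖ ^ (2 * q) := by positivity
  have hN0 : 0 ≤ (Fintype.card ι : ℝ) / e * D.cv ^ q := by positivity
  calc ∑ w, ∑ x, 1 / e * (‖f x‖ ^ (2 * q - 2) * (‖D.G r h x w‖ ^ 2 * R w x ^ 2))
      ≤ ∑ w, ∑ x, (2 * (1 / e * (‖f x‖ ^ (2 * q) * R w x ^ 2)) +
        2 * (1 / e * (‖D.X r h x w‖ ^ (2 * q) * R w x ^ 2)) +
        2 * (1 / e * (‖f x‖ ^ (2 * q - 2) * (‖D.M x w‖ ^ 2 * R w x ^ 2)))) := by
        gcongr with w _ x _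
        exact hpt w x
    _ = 2 * (∑ w, ∑ x, 1 / e * (‖f x‖ ^ (2 * q) * R w x ^ 2)) +
        2 * (∑ w, ∑ x, 1 / e * (‖D.X r h x w‖ ^ (2 * q) * R w x ^ 2)) +
        2 * (∑ w, ∑ x, 1 / e * (‖f x‖ ^ (2 * q - 2) * (‖D.M x w‖ ^ 2 * R w x ^ 2))) := by
        simp only [Finset.sum_add_distrib, Finset.mul_sum]
    _ ≤ 2 * (C1 / e * (1 / e * ∑ x, ‖f x‖ ^ (2 * q))) +
        2 * (C1 ^ 2 / e * ∑ x, ∑ y, ‖D.X r h x y‖ ^ (2 * q)) +
        2 * (C4 / e * (1 / e * ∑ x, ‖f x‖ ^ (2 * q) +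
          (Fintype.card ι : ℝ) / e * D.cv ^ q)) := by
        gcongr
    _ ≤ _ := by
        have h5 : C1 ≤ C1 ^ 2 := by nlinarith
        have h6 : 0 ≤ C1 ^ 2 / e * ((Fintype.card ι : ℝ) / e * D.cv ^ q) := by positivity
        have h7 : 0 ≤ C4 / e * ∑ x, ∑ y, ‖D.X r h x y‖ ^ (2 * q) := by positivity
        have h9 : C1 / e * (1 / e * ∑ x, ‖f x‖ ^ (2 * q)) ≤
            C1 ^ 2 / e * (1 / e * ∑ x, ‖f x‖ ^ (2 * q)) := by gcongr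
        have h8 : (2 * C1 ^ 2 + 2 * C4) / e * (1 / e * ∑ x, ‖f x‖ ^ (2 * q) +
            ∑ x, ∑ y, ‖D.X r h x y‖ ^ (2 * q) + (Fintype.card ι : ℝ) / e * D.cv ^ q) =
          2 * (C1 ^ 2 / e * (1 / e * ∑ x, ‖f x‖ ^ (2 * q))) +
          2 * (C1 ^ 2 / e * ∑ x, ∑ y, ‖D.X r h x y‖ ^ (2 * q)) +
          2 * (C4 / e * (1 / e * ∑ x, ‖f x‖ ^ (2 * q) +
            (Fintype.card ι : ℝ) / e * D.cv ^ q)) +
          2 * (C1 ^ 2 / e * ((Fintype.card ι : ℝ) / e * D.cv ^ q)) +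
          2 * (C4 / e * ∑ x, ∑ y, ‖D.X r h x y‖ ^ (2 * q)) := by ring
        rw [h8]
        linarith

/-- `R = G` -/
theorem qvdG (q : ℕ) (hq : 2 ≤ q) (C1 : ℝ) (hC1 : 1 ≤ C1) : ∃ C : ℝ, 0 < C ∧
    ∀ (ι P : Type) [Fintype ι] [DecidableEq ι] [Fintype P] (D : Dat ι P), D.Hyp →
      D.C1 = C1 → ∀ r : ℝ, 0 ≤ r → r ≤ 1 → ∀ h : ι → ℝ, D.Good r h → ∀ (f : ι → ℂ),
      ∑ w, ∑ x, 1 / D.et r * (‖f x‖ ^ (2 * q - 2) * (‖D.G r h x w‖ ^ 2 * ‖D.G r h w x‖ ^ 2)) ≤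
        C / D.et r * (1 / D.et r * ∑ x, ‖f x‖ ^ (2 * q) +
          ∑ x, ∑ y, ‖D.X r h x y‖ ^ (2 * q) +
          (Fintype.card ι : ℝ) / D.et r * D.cv ^ q) := by
  refine ⟨8 + 32 * C1, by positivity, ?_⟩
  intro ι P _ _ _ D hD hDC r h0 h1 h hg f
  have het := D.etpos hD h0 h1
  have hq1 : 1 ≤ q := by omega
  have hcv := D.cv0
  have hcv1 := D.cv1 hD
  set e := D.et r with he
  have hX1 : ∀ x w, ‖D.X r h x w‖ ^ 2 ≤ 1 := by
    intro x w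
    exact pow_le_one₀ (norm_nonneg _) ((hg.X x w).trans hD.tau1)
  have hpt : ∀ w x, 1 / e * (‖f x‖ ^ (2 * q - 2) * (‖D.G r h x w‖ ^ 2 * ‖D.G r h w x‖ ^ 2)) ≤
      8 * (1 / e * (‖f x‖ ^ (2 * q) * ‖D.X r h x w‖ ^ 2)) +
        8 * (1 / e * (‖D.X r h x w‖ ^ (2 * q) * ‖D.X r h x w‖ ^ 2)) +
        8 * (1 / e * (‖f x‖ ^ (2 * q - 2) * ‖D.M x w‖ ^ 4)) := by
    intro w x
    rw [D.G_symm hD h0 h1 h w x]
    have h2 := D.G4_le r h x w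
    have h3 := young1 (norm_nonneg (f x)) (norm_nonneg (D.X r h x w)) hq1
    have h4 : 0 ≤ ‖f x‖ ^ (2 * q - 2) := pow_nonneg (norm_nonneg _) _
    calc 1 / e * (‖f x‖ ^ (2 * q - 2) * (‖D.G r h x w‖ ^ 2 * ‖D.G r h x w‖ ^ 2)) =
        1 / e * (‖f x‖ ^ (2 * q - 2) * ‖D.G r h x w‖ ^ 4) := by ring
      _ ≤ 1 / e * (‖f x‖ ^ (2 * q - 2) * (8 * ‖D.X r h x w‖ ^ 4 + 8 * ‖D.M x w‖ ^ 4)) := by
          gcongr
      _ = 8 * (1 / e * ((‖f x‖ ^ (2 * q - 2) * ‖D.X r h x w‖ ^ 2) * ‖D.X r h x w‖ ^ 2)) +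
          8 * (1 / e * (‖f x‖ ^ (2 * q - 2) * ‖D.M x w‖ ^ 4)) := by ring
      _ ≤ 8 * (1 / e * ((‖f x‖ ^ (2 * q) + ‖D.X r h x w‖ ^ (2 * q)) * ‖D.X r h x w‖ ^ 2)) +
          8 * (1 / e * (‖f x‖ ^ (2 * q - 2) * ‖D.M x w‖ ^ 4)) := by
          gcongr
      _ = _ := by ring
  have hA : ∑ w, ∑ x, 1 / e * (‖f x‖ ^ (2 * q) * ‖D.X r h x w‖ ^ 2) ≤
      4 * C1 / e * (1 / e * ∑ x, ‖f x‖ ^ (2 * q)) := by
    calc ∑ w, ∑ x, 1 / e * (‖f x‖ ^ (2 * q) * ‖D.X r h x w‖ ^ 2)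
        = ∑ x, 1 / e * (‖f x‖ ^ (2 * q) * ∑ w, ‖D.X r h x w‖ ^ 2) := by
          rw [Finset.sum_comm]
          apply Finset.sum_congr rfl
          intro x _
          rw [Finset.mul_sum, Finset.mul_sum]
      _ ≤ ∑ x, 1 / e * (‖f x‖ ^ (2 * q) * (4 * C1 / e)) := by
          gcongr with x _
          rw [← hDC]
          exact hg.Xrow x
      _ = _ := by
          rw [Finset.mul_sum, Finset.mul_sum]
          apply Finset.sum_congr rfl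
          intro x _
          ring
  have hB : ∑ w, ∑ x, 1 / e * (‖D.X r h x w‖ ^ (2 * q) * ‖D.X r h x w‖ ^ 2) ≤
      1 / e * ∑ x, ∑ y, ‖D.X r h x y‖ ^ (2 * q) := by
    calc ∑ w, ∑ x, 1 / e * (‖D.X r h x w‖ ^ (2 * q) * ‖D.X r h x w‖ ^ 2)
        ≤ ∑ w, ∑ x, 1 / e * (‖D.X r h x w‖ ^ (2 * q) * 1) := by
          gcongr with w _ x _
          exact hX1 x w
      _ = _ := by
          rw [Finset.sum_comm, Finset.mul_sum]
          apply Finset.sum_congr rfl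
          intro x _
          rw [Finset.mul_sum]
          apply Finset.sum_congr rfl
          intro y _
          ring
  have hM : ∀ x, ∑ w, ‖D.M x w‖ ^ 4 ≤ 1 / e * D.cv := by
    intro x
    refine (D.M4_le hD h0 h1 x).trans ?_
    rw [← he]
    have h5 : D.cv ^ 2 ≤ D.cv := by nlinarith
    calc D.cv ^ 2 / e ≤ D.cv / e := by gcongr
      _ = 1 / e * D.cv := by ring
  have hC : ∑ w, ∑ x, 1 / e * (‖f x‖ ^ (2 * q - 2) * ‖D.M x w‖ ^ 4) ≤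
      1 / e * (1 / e * ∑ x, ‖f x‖ ^ (2 * q) + (Fintype.card ι : ℝ) / e * D.cv ^ q) := by
    calc ∑ w, ∑ x, 1 / e * (‖f x‖ ^ (2 * q - 2) * ‖D.M x w‖ ^ 4)
        = ∑ x, 1 / e * (‖f x‖ ^ (2 * q - 2) * ∑ w, ‖D.M x w‖ ^ 4) := by
          rw [Finset.sum_comm]
          apply Finset.sum_congr rfl
          intro x _
          rw [Finset.mul_sum, Finset.mul_sum]
      _ ≤ ∑ x, 1 / e * (‖f x‖ ^ (2 * q - 2) * (1 / e * D.cv)) := by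
          gcongr with x _
          exact hM x
      _ = 1 / e * ∑ x, 1 / e * (‖f x‖ ^ (2 * q - 2) * D.cv) := by
          rw [Finset.mul_sum]
          apply Finset.sum_congr rfl
          intro x _
          ring
      _ ≤ 1 / e * ∑ x, 1 / e * (‖f x‖ ^ (2 * q) + D.cv ^ q) := by
          gcongr with x _
          exact young2 (norm_nonneg _) hcv hq1
      _ = _ := by
          congr 1
          simp only [mul_add, Finset.sum_add_distrib, Finset.sum_const, Finset.card_univ,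
            nsmul_eq_mul, Finset.mul_sum]
          ring
  have hX0 : 0 ≤ ∑ x, ∑ y, ‖D.X r h x y‖ ^ (2 * q) := by positivity
  have hf0 : 0 ≤ 1 / e * ∑ x, ‖f x‖ ^ (2 * q) := by positivity
  have hN0 : 0 ≤ (Fintype.card ι : ℝ) / e * D.cv ^ q := by positivity
  calc ∑ w, ∑ x, 1 / e * (‖f x‖ ^ (2 * q - 2) * (‖D.G r h x w‖ ^ 2 * ‖D.G r h w x‖ ^ 2))
      ≤ ∑ w, ∑ x, (8 * (1 / e * (‖f x‖ ^ (2 * q) * ‖D.X r h x w‖ ^ 2)) +
        8 * (1 / e * (‖D.X r h x w‖ ^ (2 * q) * ‖D.X r h x w‖ ^ 2)) +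
        8 * (1 / e * (‖f x‖ ^ (2 * q - 2) * ‖D.M x w‖ ^ 4))) := by
        gcongr with w _ x _
        exact hpt w x
    _ = 8 * (∑ w, ∑ x, 1 / e * (‖f x‖ ^ (2 * q) * ‖D.X r h x w‖ ^ 2)) +
        8 * (∑ w, ∑ x, 1 / e * (‖D.X r h x w‖ ^ (2 * q) * ‖D.X r h x w‖ ^ 2)) +
        8 * (∑ w, ∑ x, 1 / e * (‖f x‖ ^ (2 * q - 2) * ‖D.M x w‖ ^ 4)) := by
        simp only [Finset.sum_add_distrib, Finset.mul_sum]
    _ ≤ 8 * (4 * C1 / e * (1 / e * ∑ x, ‖f x‖ ^ (2 * q))) +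
        8 * (1 / e * ∑ x, ∑ y, ‖D.X r h x y‖ ^ (2 * q)) +
        8 * (1 / e * (1 / e * ∑ x, ‖f x‖ ^ (2 * q) +
          (Fintype.card ι : ℝ) / e * D.cv ^ q)) := by
        gcongr
    _ ≤ _ := by
        have h6 : 0 ≤ 32 * C1 / e * ((Fintype.card ι : ℝ) / e * D.cv ^ q) := by positivity
        have h7 : 0 ≤ 32 * C1 / e * ∑ x, ∑ y, ‖D.X r h x y‖ ^ (2 * q) := by positivity
        have h8 : (8 + 32 * C1) / e * (1 / e * ∑ x, ‖f x‖ ^ (2 * q) +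
            ∑ x, ∑ y, ‖D.X r h x y‖ ^ (2 * q) + (Fintype.card ι : ℝ) / e * D.cv ^ q) =
          8 * (4 * C1 / e * (1 / e * ∑ x, ‖f x‖ ^ (2 * q))) +
          8 * (1 / e * ∑ x, ∑ y, ‖D.X r h x y‖ ^ (2 * q)) +
          8 * (1 / e * (1 / e * ∑ x, ‖f x‖ ^ (2 * q) +
            (Fintype.card ι : ℝ) / e * D.cv ^ q)) +
          32 * C1 / e * ((Fintype.card ι : ℝ) / e * D.cv ^ q) +
          32 * C1 / e * ∑ x, ∑ y, ‖D.X r h x y‖ ^ (2 * q) := by ring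
        rw [h8]
        linarith

end Pool.Agent.Kin
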