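import Pool.Agent.Kin.QvO
import Pool.Agent.Kin.QvD

/-! KIN QVS: `∑_w Q_w` for `X` and `Z` (section A7 (iv)). -/

open Matrix Finset

noncomputable section

namespace Pool.Agent.Kin

lemma wt_sum {ι : Type} [Fintype ι] [DecidableEq ι] (e : ℝ) (g : ι → ι → ℝ) :
    ∑ x, ∑ y, wt e x y * g x y = ∑ x, ∑ y, g x y + ∑ x, 1 / e * g x x := by
  rw [← Finset.sum_add_distrib]
  apply Finset.sum_congr rfl
  intro x _
  have h1 : ∀ y, wt e x y * g x y = g x y + (if x = y then 1 / e * g x y else 0) := by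
    intro y
    unfold wt
    split_ifs <;> ring
  simp only [h1]
  rw [Finset.sum_add_distrib, Finset.sum_ite_eq]
  simp

lemma NN_eq {ι : Type} [Fintype ι] [DecidableEq ι] (q : ℕ) (e : ℝ) (f : Matrix ι ι ℂ) :
    NN q e f = ∑ x, ∑ y, ‖f x y‖ ^ (2 * q) + 1 / e * ∑ x, ‖f x x‖ ^ (2 * q) := by
  unfold NN
  rw [wt_sum e (fun x y => ‖f x y‖ ^ (2 * q)), Finset.mul_sum]

lemma QQ_eq {ι : Type} [Fintype ι] [DecidableEq ι] (q : ℕ) (e : ℝ) (f : Matrix ι ι ℂ)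
    (d : Matrix ι ι ℝ) :
    QQ q e f d = ∑ x, ∑ y, ‖f x y‖ ^ (2 * q - 2) * d x y ^ 2 +
      ∑ x, 1 / e * (‖f x x‖ ^ (2 * q - 2) * d x x ^ 2) := by
  unfold QQ
  rw [← wt_sum e (fun x y => ‖f x y‖ ^ (2 * q - 2) * d x y ^ 2)]
  apply Finset.sum_congr rfl
  intro x _
  apply Finset.sum_congr rfl
  intro y _
  ring

namespace Dat

variable {ι P : Type} [Fintype ι] [DecidableEq ι] [Fintype P] (D : Dat ι P)

lemma NB_ge (hD : D.Hyp) {r : ℝ} (h0 : 0 ≤ r) (h1 : r ≤ 1) :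
    (Fintype.card ι : ℝ) ^ 2 ≤ D.NB ∧ (Fintype.card ι : ℝ) / D.et r ≤ D.NB := by
  have h2 := D.etpos hD h0 h1
  have h3 := (D.et_pos hD h0 h1).1
  have h4 := hD.eta0
  have h5 : (0 : ℝ) ≤ (Fintype.card ι : ℝ) / D.eta := by positivity
  have h6 : (Fintype.card ι : ℝ) / D.et r ≤ (Fintype.card ι : ℝ) / D.eta :=
    div_le_div_of_nonneg_left (by positivity) h4 h3
  have h7 : (0 : ℝ) ≤ (Fintype.card ι : ℝ) ^ 2 := by positivity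
  unfold NB
  constructor <;> linarith

/-- rows, columns and fourth powers of `|G|` -/
lemma absG (hD : D.Hyp) {r : ℝ} (h0 : 0 ≤ r) (h1 : r ≤ 1) (h : ι → ℝ) (hg : D.Good r h) :
    (∀ x, ∑ y, ‖D.G r h x y‖ ^ 2 ≤ D.C1 / D.et r) ∧
    (∀ y, ∑ x, ‖D.G r h x y‖ ^ 2 ≤ D.C1 / D.et r) ∧
    (∀ y, ∑ x, ‖D.G r h x y‖ ^ 4 ≤ (8 + 32 * D.C1) / D.et r) := by
  refine ⟨hg.row, ?_, ?_⟩
  · intro y
    refine le_trans (le_of_eq ?_) (hg.row y)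
    apply Finset.sum_congr rfl
    intro x _
    rw [D.G_symm hD h0 h1]
  · intro y
    refine le_trans (le_of_eq ?_) (hg.G4 y)
    apply Finset.sum_congr rfl
    intro x _
    rw [D.G_symm hD h0 h1]

lemma etaF_le (hD : D.Hyp) {r : ℝ} (h0 : 0 ≤ r) (h1 : r ≤ 1) (h : ι → ℝ) (hg : D.Good r h)
    (p : P) (x y : ι) : D.eta * ‖D.F p r h x y‖ ≤ D.C1 := by
  have h2 := D.etpos hD h0 h1
  have h3 := (D.et_pos hD h0 h1).1
  have h4 := hD.eta0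
  have h5 := hD.C10
  calc D.eta * ‖D.F p r h x y‖ ≤ D.et r * (D.C1 / D.et r) := by
        gcongr
        exact hg.F p x y
    _ = D.C1 := by field_simp

lemma etaF4 (hD : D.Hyp) {r : ℝ} (h0 : 0 ≤ r) (h1 : r ≤ 1) (h : ι → ℝ) (hg : D.Good r h)
    (p : P) : (∀ y, ∑ x, (D.eta * ‖D.F p r h x y‖) ^ 4 ≤ D.C1 ^ 3 / D.et r) ∧
      (∀ x, ∑ y, (D.eta * ‖D.F p r h x y‖) ^ 4 ≤ D.C1 ^ 3 / D.et r) := by
  have h2 := D.etpos hD h0 h1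
  have h4 := hD.eta0
  have h5 := hD.C10
  have key : ∀ x y, (D.eta * ‖D.F p r h x y‖) ^ 4 ≤
      D.C1 ^ 2 * (D.eta * ‖D.F p r h x y‖) ^ 2 := by
    intro x y
    have h6 := D.etaF_le hD h0 h1 h hg p x y
    have h7 : 0 ≤ D.eta * ‖D.F p r h x y‖ := by positivity
    have h8 : (D.eta * ‖D.F p r h x y‖) ^ 2 ≤ D.C1 ^ 2 := pow_le_pow_left₀ h7 h6 2
    calc (D.eta * ‖D.F p r h x y‖) ^ 4 =
        (D.eta * ‖D.F p r h x y‖) ^ 2 * (D.eta * ‖D.F p r h x y‖) ^ 2 := by ring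
      _ ≤ _ := mul_le_mul_of_nonneg_right h8 (sq_nonneg _)
  constructor
  · intro y
    calc ∑ x, (D.eta * ‖D.F p r h x y‖) ^ 4 ≤
        ∑ x, D.C1 ^ 2 * (D.eta * ‖D.F p r h x y‖) ^ 2 :=
          Finset.sum_le_sum fun x _ => key x y
      _ = D.C1 ^ 2 * ∑ x, (D.eta * ‖D.F p r h x y‖) ^ 2 := by rw [Finset.mul_sum]
      _ ≤ D.C1 ^ 2 * (D.C1 / D.et r) := by
          gcongr
          exact hg.Fcol p y
      _ = D.C1 ^ 3 / D.et r := by ring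
  · intro x
    calc ∑ y, (D.eta * ‖D.F p r h x y‖) ^ 4 ≤
        ∑ y, D.C1 ^ 2 * (D.eta * ‖D.F p r h x y‖) ^ 2 :=
          Finset.sum_le_sum fun y _ => key x y
      _ = D.C1 ^ 2 * ∑ y, (D.eta * ‖D.F p r h x y‖) ^ 2 := by rw [Finset.mul_sum]
      _ ≤ D.C1 ^ 2 * (D.C1 / D.et r) := by
          gcongr
          exact hg.Frow p x
      _ = D.C1 ^ 3 / D.et r := by ring

end Dat

theorem qvX (q : ℕ) (hq : 2 ≤ q) (C1 : ℝ) (hC1 : 1 ≤ C1) : ∃ C : ℝ, 0 < C ∧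
    ∀ (ι P : Type) [Fintype ι] [DecidableEq ι] [Fintype P] (D : Dat ι P), D.Hyp → D.q = q →
      D.C1 = C1 → ∀ r : ℝ, 0 ≤ r → r ≤ 1 → ∀ h : ι → ℝ, D.Good r h →
      ∑ w, QQ q (D.et r) (D.X r h) (D.sX w r h) ≤
        C / D.et r * (NN q (D.et r) (D.X r h) + D.NB * D.cv ^ q) := by
  obtain ⟨Co, hCo, ho⟩ := qvo q hq C1 (8 + 32 * C1) hC1 (by linarith)
  obtain ⟨Cd, hCd, hd⟩ := qvdG q hq C1 hC1
  refine ⟨2 * Co + 2 * Cd, by positivity, ?_⟩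
  intro ι P _ _ _ D hD hDq hDC r h0 h1 h hg
  have het := D.etpos hD h0 h1
  have hcv := D.cv0
  obtain ⟨hNB1, hNB2⟩ := D.NB_ge hD h0 h1
  obtain ⟨hG1, hG2, hG3⟩ := D.absG hD h0 h1 h hg
  rw [hDC] at hG1 hG2 hG3
  have h3 := ho ι P D hD hDC r h0 h1 h hg (D.X r h) (fun x y => ‖D.G r h x y‖)
    (fun x y => norm_nonneg _) hG1 hG2 hG3
  have h4 := hd ι P D hD hDC r h0 h1 h hg (fun x => D.X r h x x)
  have h5 : ∑ w, QQ q (D.et r) (D.X r h) (D.sX w r h) =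
      ∑ w, ∑ x, ∑ y, ‖D.X r h x y‖ ^ (2 * q - 2) * (‖D.G r h x w‖ ^ 2 * ‖D.G r h w y‖ ^ 2) +
      ∑ w, ∑ x, 1 / D.et r * (‖D.X r h x x‖ ^ (2 * q - 2) *
        (‖D.G r h x w‖ ^ 2 * ‖D.G r h w x‖ ^ 2)) := by
    rw [← Finset.sum_add_distrib]
    apply Finset.sum_congr rfl
    intro w _
    rw [QQ_eq]
    simp only [Dat.sX, mul_pow]
  rw [h5, NN_eq]
  set e := D.et r with he
  have hX0 : 0 ≤ ∑ x, ∑ y, ‖D.X r h x y‖ ^ (2 * q) := by positivity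
  have hf0 : 0 ≤ 1 / e * ∑ x, ‖D.X r h x x‖ ^ (2 * q) := by positivity
  set SX := ∑ x, ∑ y, ‖D.X r h x y‖ ^ (2 * q) with hSX
  set DX := 1 / e * ∑ x, ‖D.X r h x x‖ ^ (2 * q) with hDX
  have hc : 0 ≤ D.cv ^ q := pow_nonneg hcv q
  have hNB0 : 0 ≤ D.NB := le_trans (by positivity) hNB1
  have hW1 : SX + SX + (Fintype.card ι : ℝ) ^ 2 * D.cv ^ q ≤
      2 * (SX + DX + D.NB * D.cv ^ q) := by
    have h6 := mul_le_mul_of_nonneg_right hNB1 hc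
    have h7 : 0 ≤ D.NB * D.cv ^ q := by positivity
    linarith
  have hW2 : DX + SX + (Fintype.card ι : ℝ) / e * D.cv ^ q ≤
      2 * (SX + DX + D.NB * D.cv ^ q) := by
    have h6 := mul_le_mul_of_nonneg_right hNB2 hc
    have h7 : 0 ≤ D.NB * D.cv ^ q := by positivity
    linarith
  calc _ ≤ Co / e * (SX + SX + (Fintype.card ι : ℝ) ^ 2 * D.cv ^ q) +
        Cd / e * (DX + SX + (Fintype.card ι : ℝ) / e * D.cv ^ q) := add_le_add h3 h4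
    _ ≤ Co / e * (2 * (SX + DX + D.NB * D.cv ^ q)) + Cd / e * (2 * (SX + DX + D.NB * D.cv ^ q)) := by
        gcongr
    _ = _ := by ring

theorem qvZ (q : ℕ) (hq : 2 ≤ q) (C1 : ℝ) (hC1 : 1 ≤ C1) : ∃ C : ℝ, 0 < C ∧
    ∀ (ι P : Type) [Fintype ι] [DecidableEq ι] [Fintype P] (D : Dat ι P), D.Hyp → D.q = q →
      D.C1 = C1 → ∀ (p : P) (r : ℝ), 0 ≤ r → r ≤ 1 → ∀ h : ι → ℝ, D.Good r h →
      ∑ w, QQ q (D.et r) (D.Z p r h) (D.sZ p w r h) ≤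
        C / D.et r * (NN q (D.et r) (D.Z p r h) + NN q (D.et r) (D.X r h) + D.NB * D.cv ^ q) := by
  have hC3 : 1 ≤ C1 ^ 3 := one_le_pow₀ hC1
  obtain ⟨Co, hCo, ho⟩ := qvo q hq C1 (8 + 32 * C1) hC1 (by linarith)
  obtain ⟨Cf, hCf, hf⟩ := qvo q hq C1 (C1 ^ 3) hC1 hC3
  obtain ⟨Cd, hCd, hd⟩ := qvd q hq C1 (C1 ^ 3) hC1 hC3
  obtain ⟨CG, hCG, hG⟩ := qvdG q hq C1 hC1
  refine ⟨3 * (Co + 2 * Cf + 2 * Cd + CG), by positivity, ?_⟩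
  intro ι P _ _ _ D hD hDq hDC p r h0 h1 h hg
  have het := D.etpos hD h0 h1
  have hcv := D.cv0
  have heta := hD.eta0
  obtain ⟨hNB1, hNB2⟩ := D.NB_ge hD h0 h1
  obtain ⟨hG1, hG2, hG3⟩ := D.absG hD h0 h1 h hg
  obtain ⟨hF3, hF4⟩ := D.etaF4 hD h0 h1 h hg p
  have hFr := hg.Frow p
  have hFc := hg.Fcol p
  have hFle := D.etaF_le hD h0 h1 h hg p
  rw [hDC] at hG1 hG2 hG3 hF3 hF4 hFr hFc hFle
  have hF0 : ∀ x y, 0 ≤ D.eta * ‖D.F p r h x y‖ := fun x y => by positivity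
  -- off-diagonal terms
  have oa := hf ι P D hD hDC r h0 h1 h hg (D.Z p r h) (fun x y => D.eta * ‖D.F p r h x y‖)
    hF0 hFr hFc hF3
  have ob := hf ι P D hD hDC r h0 h1 h hg (fun x y => D.Z p r h y x)
    (fun x y => D.eta * ‖D.F p r h y x‖) (fun x y => hF0 y x) hFc hFr hF4
  have oc := ho ι P D hD hDC r h0 h1 h hg (D.Z p r h) (fun x y => ‖D.G r h x y‖)
    (fun x y => norm_nonneg _) hG1 hG2 hG3
  -- diagonal terms
  have da := hd ι P D hD hDC r h0 h1 h hg (fun x => D.Z p r h x x)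
    (fun x y => D.eta * ‖D.F p r h x y‖) hF0 hFle hFc hF3
  have db := hd ι P D hD hDC r h0 h1 h hg (fun x => D.Z p r h x x)
    (fun x y => D.eta * ‖D.F p r h y x‖) (fun x y => hF0 y x) (fun x y => hFle y x) hFr hF4
  have dc := hG ι P D hD hDC r h0 h1 h hg (fun x => D.Z p r h x x)
  have hsZ : ∀ w x y, D.sZ p w r h x y ^ 2 ≤
      3 * (‖D.G r h x w‖ ^ 2 * (D.eta * ‖D.F p r h w y‖) ^ 2 +
        ‖D.G r h y w‖ ^ 2 * (D.eta * ‖D.F p r h x w‖) ^ 2 +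
        ‖D.G r h x w‖ ^ 2 * ‖D.G r h w y‖ ^ 2) := by
    intro w x y
    unfold Dat.sZ
    rw [D.G_symm hD h0 h1 h w y]
    nlinarith [sq_nonneg (D.eta * (‖D.G r h x w‖ * ‖D.F p r h w y‖) -
        D.eta * (‖D.F p r h x w‖ * ‖D.G r h y w‖)),
      sq_nonneg (D.eta * (‖D.G r h x w‖ * ‖D.F p r h w y‖) - ‖D.G r h x w‖ * ‖D.G r h y w‖),
      sq_nonneg (D.eta * (‖D.F p r h x w‖ * ‖D.G r h y w‖) - ‖D.G r h x w‖ * ‖D.G r h y w‖)]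
  set e := D.et r with he
  have hsum : ∑ w, QQ q e (D.Z p r h) (D.sZ p w r h) ≤
      3 * ((∑ w, ∑ x, ∑ y, ‖D.Z p r h x y‖ ^ (2 * q - 2) *
          (‖D.G r h x w‖ ^ 2 * (D.eta * ‖D.F p r h w y‖) ^ 2) +
        ∑ w, ∑ x, ∑ y, ‖D.Z p r h y x‖ ^ (2 * q - 2) *
          (‖D.G r h x w‖ ^ 2 * (D.eta * ‖D.F p r h y w‖) ^ 2) +
        ∑ w, ∑ x, ∑ y, ‖D.Z p r h x y‖ ^ (2 * q - 2) *
          (‖D.G r h x w‖ ^ 2 * ‖D.G r h w y‖ ^ 2)) +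
        (∑ w, ∑ x, 1 / e * (‖D.Z p r h x x‖ ^ (2 * q - 2) *
          (‖D.G r h x w‖ ^ 2 * (D.eta * ‖D.F p r h w x‖) ^ 2)) +
        ∑ w, ∑ x, 1 / e * (‖D.Z p r h x x‖ ^ (2 * q - 2) *
          (‖D.G r h x w‖ ^ 2 * (D.eta * ‖D.F p r h x w‖) ^ 2)) +
        ∑ w, ∑ x, 1 / e * (‖D.Z p r h x x‖ ^ (2 * q - 2) *
          (‖D.G r h x w‖ ^ 2 * ‖D.G r h w x‖ ^ 2)))) := by
    have hswap : ∑ w, ∑ x, ∑ y, ‖D.Z p r h y x‖ ^ (2 * q - 2) *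
          (‖D.G r h x w‖ ^ 2 * (D.eta * ‖D.F p r h y w‖) ^ 2) =
        ∑ w, ∑ x, ∑ y, ‖D.Z p r h x y‖ ^ (2 * q - 2) *
          (‖D.G r h y w‖ ^ 2 * (D.eta * ‖D.F p r h x w‖) ^ 2) := by
      apply Finset.sum_congr rfl
      intro w _
      rw [Finset.sum_comm]
    rw [hswap]
    simp only [← Finset.sum_add_distrib, Finset.mul_sum]
    apply Finset.sum_le_sum
    intro w _
    rw [QQ_eq, ← Finset.sum_add_distrib]
    apply Finset.sum_le_sum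
    intro x _
    rw [mul_add, Finset.mul_sum]
    apply add_le_add
    · apply Finset.sum_le_sum
      intro y _
      have h5 := mul_le_mul_of_nonneg_left (hsZ w x y)
        (pow_nonneg (norm_nonneg (D.Z p r h x y)) (2 * q - 2))
      refine h5.trans (le_of_eq ?_)
      ring
    · have h5 := mul_le_mul_of_nonneg_left (mul_le_mul_of_nonneg_left (hsZ w x x)
        (pow_nonneg (norm_nonneg (D.Z p r h x x)) (2 * q - 2))) (by positivity : 0 ≤ 1 / e)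
      refine h5.trans (le_of_eq ?_)
      ring
  refine hsum.trans ?_
  rw [NN_eq, NN_eq]
  have hTr : ∑ x, ∑ y, ‖D.Z p r h y x‖ ^ (2 * q) = ∑ x, ∑ y, ‖D.Z p r h x y‖ ^ (2 * q) := by
    rw [Finset.sum_comm]
  rw [hTr] at ob
  have hSZ0 : 0 ≤ ∑ x, ∑ y, ‖D.Z p r h x y‖ ^ (2 * q) := by positivity
  have hDZ0 : 0 ≤ 1 / e * ∑ x, ‖D.Z p r h x x‖ ^ (2 * q) := by positivity
  have hSX0 : 0 ≤ ∑ x, ∑ y, ‖D.X r h x y‖ ^ (2 * q) := by positivity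
  have hDX0 : 0 ≤ 1 / e * ∑ x, ‖D.X r h x x‖ ^ (2 * q) := by positivity
  set SZ := ∑ x, ∑ y, ‖D.Z p r h x y‖ ^ (2 * q) with hSZ
  set DZ := 1 / e * ∑ x, ‖D.Z p r h x x‖ ^ (2 * q) with hDZ
  set SX := ∑ x, ∑ y, ‖D.X r h x y‖ ^ (2 * q) with hSX
  set DX := 1 / e * ∑ x, ‖D.X r h x x‖ ^ (2 * q) with hDX
  have hc : 0 ≤ D.cv ^ q := pow_nonneg hcv q
  have h6 := mul_le_mul_of_nonneg_right hNB1 hc
  have h7 := mul_le_mul_of_nonneg_right hNB2 hc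
  set W := SZ + DZ + (SX + DX) + D.NB * D.cv ^ q with hW
  have hW1 : SZ + SX + (Fintype.card ι : ℝ) ^ 2 * D.cv ^ q ≤ W := by linarith
  have hW2 : DZ + SX + (Fintype.card ι : ℝ) / e * D.cv ^ q ≤ W := by linarith
  have b1 : ∀ c : ℝ, 0 < c → c / e * (SZ + SX + (Fintype.card ι : ℝ) ^ 2 * D.cv ^ q) ≤ c / e * W :=
    fun c hc => mul_le_mul_of_nonneg_left hW1 (by positivity)
  have b2 : ∀ c : ℝ, 0 < c → c / e * (DZ + SX + (Fintype.card ι : ℝ) / e * D.cv ^ q) ≤ c / e * W :=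
    fun c hc => mul_le_mul_of_nonneg_left hW2 (by positivity)
  have e1 := oa.trans (b1 Cf hCf)
  have e2 := ob.trans (b1 Cf hCf)
  have e3 := oc.trans (b1 Co hCo)
  have e4 := da.trans (b2 Cd hCd)
  have e5 := db.trans (b2 Cd hCd)
  have e6 := dc.trans (b2 CG hCG)
  have e7 : 3 * (Co + 2 * Cf + 2 * Cd + CG) / e * W =
    3 * ((Cf / e * W + Cf / e * W + Co / e * W) + (Cd / e * W + Cd / e * W + CG / e * W)) := by
    ring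
  rw [e7]
  linarith

end Pool.Agent.Kin
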