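import Pool.Agent.Kin.Good

/-! KIN TSUM: crude bounds for `T₁`, `T₂`, Cauchy-Schwarz for `L₁`, and nonnegativity. -/

open Matrix Finset

noncomputable section

namespace Pool.Agent.Kin

variable {ι P : Type} [Fintype ι] [DecidableEq ι] [Fintype P]

/-- Cauchy-Schwarz for one component. -/
lemma tsum_LL_sq {q : ℕ} (hq : 2 ≤ q) {et : ℝ} (he : 0 < et) (f : Matrix ι ι ℂ)
    (d : Matrix ι ι ℝ) : LL q et f d ^ 2 ≤ NN q et f * QQ q et f d := by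
  unfold LL NN QQ
  simp_rw [← sum_product']
  refine sum_sq_le_sum_mul_sum_of_sq_le_mul _ (fun i _ => ?_) (fun i _ => ?_)
    (fun i _ => le_of_eq ?_)
  · exact mul_nonneg (Dat.good_wt_nonneg he _ _) (by positivity)
  · exact mul_nonneg (mul_nonneg (Dat.good_wt_nonneg he _ _) (by positivity)) (sq_nonneg _)
  · obtain ⟨k, rfl⟩ : ∃ k, q = k + 2 := ⟨q - 2, by omega⟩
    have h1 : 2 * (k + 2) - 1 = 2 * k + 3 := by omega
    have h2 : 2 * (k + 2) - 2 = 2 * k + 2 := by omega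
    rw [h1, h2]
    ring

/-- Cauchy-Schwarz for a weighted sum of components. -/
lemma tsum_cs {α : Type} (s : Finset α) (c : ℝ) (hc : 0 ≤ c) (l n q : ℝ) (L N Q : α → ℝ)
    (hn : 0 ≤ n) (hq : 0 ≤ q) (hN : ∀ i ∈ s, 0 ≤ N i) (hQ : ∀ i ∈ s, 0 ≤ Q i)
    (h : l ^ 2 ≤ n * q) (hL : ∀ i ∈ s, L i ^ 2 ≤ N i * Q i) :
    (c * l + ∑ i ∈ s, L i) ^ 2 ≤ (c * n + ∑ i ∈ s, N i) * (c * q + ∑ i ∈ s, Q i) := by
  have h1 : (∑ i ∈ s, L i) ^ 2 ≤ (∑ i ∈ s, N i) * ∑ i ∈ s, Q i :=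
    sum_sq_le_sum_mul_sum_of_sq_le_mul s hN hQ hL
  have hSN : 0 ≤ ∑ i ∈ s, N i := sum_nonneg hN
  have hSQ : 0 ≤ ∑ i ∈ s, Q i := sum_nonneg hQ
  have h2 : (c * l) ^ 2 ≤ (c * n) * (c * q) := by nlinarith [sq_nonneg c]
  set a := c * l
  set b := ∑ i ∈ s, L i
  set A := c * n
  set B := c * q
  set E := ∑ i ∈ s, N i
  set F := ∑ i ∈ s, Q i
  have hA : 0 ≤ A := mul_nonneg hc hn
  have hB : 0 ≤ B := mul_nonneg hc hq
  have h3 : (a * b) ^ 2 ≤ (A * F) * (B * E) := by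
    have : (a * b) ^ 2 = a ^ 2 * b ^ 2 := by ring
    rw [this]
    calc a ^ 2 * b ^ 2 ≤ (A * B) * (E * F) :=
          mul_le_mul h2 h1 (sq_nonneg _) (mul_nonneg hA hB)
      _ = (A * F) * (B * E) := by ring
  have h4 : 2 * (a * b) ≤ A * F + B * E := by
    have h5 : 0 ≤ A * F := mul_nonneg hA hSQ
    have h6 : 0 ≤ B * E := mul_nonneg hB hSN
    have h7 : (2 * (a * b)) ^ 2 ≤ (A * F + B * E) ^ 2 := by
      nlinarith [sq_nonneg (A * F - B * E)]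
    exact le_of_sq_le_sq h7 (add_nonneg h5 h6)
  nlinarith

namespace Dat

variable (D : Dat ι P)

omit [Fintype P] in
lemma tsum_sX_nonneg (w : ι) (r : ℝ) (h : ι → ℝ) (x y : ι) : 0 ≤ D.sX w r h x y := by
  unfold sX
  positivity

lemma tsum_sZ_nonneg (hD : D.Hyp) (p : P) (w : ι) (r : ℝ) (h : ι → ℝ) (x y : ι) :
    0 ≤ D.sZ p w r h x y := by
  have := hD.eta0
  unfold sZ
  positivity

lemma parts_nonneg (hD : D.Hyp) {r : ℝ} (hr : 0 < D.et r) (h : ι → ℝ) (w : ι) :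
    0 ≤ D.Q1 w r h ∧ 0 ≤ D.L1 w r h ∧ 0 ≤ D.T1 w r h ∧ 0 ≤ D.Q2 w r h ∧ 0 ≤ D.L2 w r h ∧
      0 ≤ D.T2 w r h := by
  have hJ := D.J_psd hD.sym hr h
  have hphi : ∀ k, 0 ≤ phi (D.J r h) (D.av r h w) k := phi_nonneg hJ _
  have hsX := D.tsum_sX_nonneg w r h
  have hsZ := fun p => D.tsum_sZ_nonneg hD p w r h
  have hlam := hD.lam0
  have hQ : ∀ (f : Matrix ι ι ℂ) (d : Matrix ι ι ℝ), 0 ≤ QQ D.q (D.et r) f d := fun f d =>
    sum_nonneg fun x _ => sum_nonneg fun y _ =>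
      mul_nonneg (mul_nonneg (good_wt_nonneg hr _ _) (by positivity)) (sq_nonneg _)
  have hL : ∀ (f : Matrix ι ι ℂ) (d : Matrix ι ι ℝ), (∀ x y, 0 ≤ d x y) →
      0 ≤ LL D.q (D.et r) f d := fun f d hd =>
    sum_nonneg fun x _ => sum_nonneg fun y _ =>
      mul_nonneg (mul_nonneg (good_wt_nonneg hr _ _) (by positivity)) (hd x y)
  have hT : ∀ (d : Matrix ι ι ℝ), (∀ x y, 0 ≤ d x y) → 0 ≤ TT D.q (D.et r) D.lam d := fun d hd =>
    mul_nonneg (by positivity) (sum_nonneg fun x _ => sum_nonneg fun y _ =>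
      mul_nonneg (good_wt_nonneg hr _ _) (pow_nonneg (hd x y) _))
  refine ⟨?_, ?_, ?_, mul_nonneg (hphi _) (hphi _), hphi _,
    mul_nonneg (sq_nonneg _) (pow_nonneg (mul_nonneg hlam.le (hphi _)) _)⟩
  · exact add_nonneg (mul_nonneg (by positivity) (hQ _ _)) (sum_nonneg fun p _ => hQ _ _)
  · exact add_nonneg (mul_nonneg (by positivity) (hL _ _ hsX))
      (sum_nonneg fun p _ => hL _ _ (hsZ p))
  · exact add_nonneg (mul_nonneg (by positivity) (hT _ hsX)) (sum_nonneg fun p _ => hT _ (hsZ p))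

lemma tsum_wt_le (hD : D.Hyp) {r : ℝ} (h0 : 0 ≤ r) (h1 : r ≤ 1) :
    ∑ x : ι, ∑ y : ι, wt (D.et r) x y ≤ (Fintype.card ι : ℝ) ^ 2 + Fintype.card ι / D.eta := by
  have hr := D.good_et_pos hD h0 h1
  have he := (D.et_pos hD h0 h1).1
  have h2 : ∑ x : ι, ∑ y : ι, wt (D.et r) x y =
      (Fintype.card ι : ℝ) ^ 2 + Fintype.card ι / D.et r := by
    unfold wt
    simp only [sum_add_distrib, sum_ite_eq, mem_univ, if_true, sum_const, card_univ, nsmul_eq_mul,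
      mul_one]
    ring
  rw [h2]
  have h3 : (Fintype.card ι : ℝ) / D.et r ≤ Fintype.card ι / D.eta :=
    div_le_div_of_nonneg_left (by positivity) hD.eta0 he
  linarith

lemma tsum_TT_le (hD : D.Hyp) {r : ℝ} (h0 : 0 ≤ r) (h1 : r ≤ 1) (d : Matrix ι ι ℝ) (c : ℝ)
    (hd : ∀ x y, 0 ≤ d x y) (hd2 : ∀ x y, d x y ≤ c) :
    TT D.q (D.et r) D.lam d ≤ ((Fintype.card ι : ℝ) ^ 2 + Fintype.card ι / D.eta) *
      (D.lam ^ (2 * D.q - 2) * c ^ (2 * D.q)) := by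
  have hr := D.good_et_pos hD h0 h1
  have hlam := hD.lam0
  unfold TT
  have h2 : ∑ x, ∑ y, wt (D.et r) x y * d x y ^ (2 * D.q) ≤
      (∑ x : ι, ∑ y : ι, wt (D.et r) x y) * c ^ (2 * D.q) := by
    rw [sum_mul]
    refine sum_le_sum fun x _ => ?_
    rw [sum_mul]
    exact sum_le_sum fun y _ => mul_le_mul_of_nonneg_left
      (pow_le_pow_left₀ (hd x y) (hd2 x y) _) (good_wt_nonneg hr _ _)
  have h3 : 0 ≤ c ^ (2 * D.q) := by
    rw [pow_mul]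
    positivity
  calc D.lam ^ (2 * D.q - 2) * ∑ x, ∑ y, wt (D.et r) x y * d x y ^ (2 * D.q) ≤
      D.lam ^ (2 * D.q - 2) * (((Fintype.card ι : ℝ) ^ 2 + Fintype.card ι / D.eta) *
        c ^ (2 * D.q)) := by
        refine mul_le_mul_of_nonneg_left (h2.trans ?_) (by positivity)
        exact mul_le_mul_of_nonneg_right (D.tsum_wt_le hD h0 h1) h3
    _ = _ := by ring

lemma T1_le (hD : D.Hyp) {r : ℝ} (h0 : 0 ≤ r) (h1 : r ≤ 1) (h : ι → ℝ) (hg : D.Good r h) (w : ι) :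
    D.T1 w r h ≤ D.tb1 := by
  have hr := D.good_et_pos hD h0 h1
  have he := (D.et_pos hD h0 h1).1
  have hC := hD.C10
  have hLam : 1 ≤ D.Lam := by
    have := hD.hLam w w
    linarith [norm_nonneg (D.M w w)]
  have hL2 : D.Lam ≤ D.Lam ^ 2 := by nlinarith
  have hL3 : D.Lam ^ 2 ≤ D.C1 * D.Lam ^ 2 := le_mul_of_one_le_left (by positivity) hC
  have hX : ∀ x y, D.sX w r h x y ≤ 3 * D.C1 * D.Lam ^ 2 := by
    intro x y
    have h2 : ‖D.G r h x w‖ * ‖D.G r h w y‖ ≤ D.Lam * D.Lam :=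
      mul_le_mul (hg.Gb x w) (hg.Gb w y) (norm_nonneg _) (by linarith)
    unfold sX
    nlinarith
  have hF : ∀ p x y, D.eta * ‖D.F p r h x y‖ ≤ D.C1 := by
    intro p x y
    calc D.eta * ‖D.F p r h x y‖ ≤ D.et r * (D.C1 / D.et r) :=
          mul_le_mul he (hg.F p x y) (norm_nonneg _) hr.le
      _ = D.C1 := by field_simp
  have hZ : ∀ p x y, D.sZ p w r h x y ≤ 3 * D.C1 * D.Lam ^ 2 := by
    intro p x y
    have h2 : ‖D.G r h x w‖ * ‖D.G r h y w‖ ≤ D.Lam * D.Lam :=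
      mul_le_mul (hg.Gb x w) (hg.Gb y w) (norm_nonneg _) (by linarith)
    have h3 : D.eta * (‖D.G r h x w‖ * ‖D.F p r h w y‖) ≤ D.Lam * D.C1 := by
      calc D.eta * (‖D.G r h x w‖ * ‖D.F p r h w y‖) =
            ‖D.G r h x w‖ * (D.eta * ‖D.F p r h w y‖) := by ring
        _ ≤ D.Lam * D.C1 := mul_le_mul (hg.Gb x w) (hF p w y)
            (mul_nonneg hD.eta0.le (norm_nonneg _)) (by linarith)
    have h4 : D.eta * (‖D.F p r h x w‖ * ‖D.G r h y w‖) ≤ D.Lam * D.C1 := by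
      calc D.eta * (‖D.F p r h x w‖ * ‖D.G r h y w‖) =
            ‖D.G r h y w‖ * (D.eta * ‖D.F p r h x w‖) := by ring
        _ ≤ D.Lam * D.C1 := mul_le_mul (hg.Gb y w) (hF p x w)
            (mul_nonneg hD.eta0.le (norm_nonneg _)) (by linarith)
    unfold sZ
    nlinarith [mul_nonneg (zero_le_one.trans hC) (sub_nonneg.2 hL2)]
  have hTX := D.tsum_TT_le hD h0 h1 (D.sX w r h) _ (D.tsum_sX_nonneg w r h) hX
  have hTZ := fun p => D.tsum_TT_le hD h0 h1 (D.sZ p w r h) _ (D.tsum_sZ_nonneg hD p w r h) (hZ p)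
  unfold T1 tb1
  have h5 : ∑ p, TT D.q (D.et r) D.lam (D.sZ p w r h) ≤ (Fintype.card P : ℝ) *
      (((Fintype.card ι : ℝ) ^ 2 + Fintype.card ι / D.eta) *
      (D.lam ^ (2 * D.q - 2) * (3 * D.C1 * D.Lam ^ 2) ^ (2 * D.q))) := by
    refine (sum_le_sum fun p _ => hTZ p).trans (le_of_eq ?_)
    rw [sum_const, card_univ, nsmul_eq_mul]
  have h6 := mul_le_mul_of_nonneg_left hTX (Nat.cast_nonneg (α := ℝ) (Fintype.card P))
  linarith

lemma T2_le (hD : D.Hyp) {r : ℝ} (h0 : 0 ≤ r) (h1 : r ≤ 1) (h : ι → ℝ) (hg : D.Good r h) (w : ι) :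
    D.T2 w r h ≤ D.tb2 := by
  have hr := D.good_et_pos hD h0 h1
  have hphi : 0 ≤ phi (D.J r h) (D.av r h w) 0 := phi_nonneg (D.J_psd hD.sym hr h) _ _
  have hk := hg.kB w
  have hlam := hD.lam0
  unfold T2 tb2
  refine mul_le_mul (pow_le_pow_left₀ hphi hk 2) (pow_le_pow_left₀ (mul_nonneg hlam.le hphi)
    (mul_le_mul_of_nonneg_left hk hlam.le) _) (pow_nonneg (mul_nonneg hlam.le hphi) _)
    (sq_nonneg _)

lemma L1_sq_le (hD : D.Hyp) {r : ℝ} (hr : 0 < D.et r) (h : ι → ℝ) (w : ι) :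
    D.L1 w r h ^ 2 ≤ D.Gam1 r h * D.Q1 w r h := by
  have hQ : ∀ (f : Matrix ι ι ℂ) (d : Matrix ι ι ℝ), 0 ≤ QQ D.q (D.et r) f d := fun f d =>
    sum_nonneg fun x _ => sum_nonneg fun y _ =>
      mul_nonneg (mul_nonneg (good_wt_nonneg hr _ _) (by positivity)) (sq_nonneg _)
  unfold L1 Gam1 Q1
  exact tsum_cs univ _ (Nat.cast_nonneg _) _ _ _ _ _ _ (good_NN_nonneg hr _) (hQ _ _)
    (fun p _ => good_NN_nonneg hr _) (fun p _ => hQ _ _) (tsum_LL_sq hD.q2 hr _ _)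
    (fun p _ => tsum_LL_sq hD.q2 hr _ _)

/-- `L₂² ≤ Φ₂ Q₂`, `ε Q₂ ≤ 4 s0`. -/
lemma L2_sq_le (hD : D.Hyp) {r : ℝ} (h0 : 0 ≤ r) (h1 : r ≤ 1) (h : ι → ℝ) (w : ι) :
    D.L2 w r h ^ 2 ≤ D.Phi2 r h * D.Q2 w r h :=
  phi_sq_le (D.J_psd hD.sym (D.good_et_pos hD h0 h1) h) _ _ hD.m3

lemma epsQ2_le (hD : D.Hyp) {r : ℝ} (h0 : 0 ≤ r) (h1 : r ≤ 1) (h : ι → ℝ) (hg : D.Good r h)
    (w : ι) : D.eps * D.Q2 w r h ≤ 4 * D.s0 := by
  have hr := D.good_et_pos hD h0 h1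
  have hJ := D.J_psd hD.sym hr h
  have hphi : 0 ≤ phi (D.J r h) (D.av r h w) 0 := phi_nonneg hJ _ _
  have hk := hg.kB w
  have hKA := hD.KA0
  have hs0 := D.good_s0_pos hD
  have hm := hD.m3
  have hm0 : (0 : ℝ) < D.m := by exact_mod_cast (by omega : 0 < D.m)
  -- the m-th root of 4
  set c4 : ℝ := (4 : ℝ) ^ (1 / (D.m : ℝ)) with hc4
  have hc1 : 1 ≤ c4 := Real.one_le_rpow (by norm_num) (by positivity)
  have hcm : c4 ^ D.m = 4 := by
    rw [hc4, ← Real.rpow_natCast, ← Real.rpow_mul (by norm_num)]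
    rw [one_div, inv_mul_cancel₀ hm0.ne', Real.rpow_one]
  have hc0 : 0 ≤ c4 := zero_le_one.trans hc1
  have htr : (D.J r h ^ D.m).trace ≤ (c4 * D.KA) ^ D.m := by
    rw [mul_pow, hcm]
    exact hg.tr
  have h2 := phi_le_of_trace hJ (D.av r h w) D.m (by omega) (c4 * D.KA) (by positivity) htr
    (D.m - 2)
  have h3 : c4 ^ (D.m - 2) ≤ 4 := by
    rw [← hcm]
    exact pow_le_pow_right₀ hc1 (by omega)
  have hkK : phi (D.J r h) (D.av r h w) 0 ≤ D.KA := hk.trans hD.kbKA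
  have hpow : D.KA ^ D.m = D.KA ^ (D.m - 2) * (D.KA * D.KA) := by
    rw [← sq, ← pow_add]
    congr 1
    omega
  have h4 : D.Q2 w r h ≤ 4 * D.KA ^ D.m := by
    unfold Q2
    calc phi (D.J r h) (D.av r h w) 0 * phi (D.J r h) (D.av r h w) (D.m - 2) ≤
        phi (D.J r h) (D.av r h w) 0 * (phi (D.J r h) (D.av r h w) 0 *
          (c4 * D.KA) ^ (D.m - 2)) := mul_le_mul_of_nonneg_left h2 hphi
      _ ≤ D.KA * (D.KA * (4 * D.KA ^ (D.m - 2))) := by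
          refine mul_le_mul hkK (mul_le_mul hkK ?_ (by positivity) hKA.le)
            (by positivity) hKA.le
          rw [mul_pow]
          exact mul_le_mul_of_nonneg_right h3 (by positivity)
      _ = 4 * D.KA ^ D.m := by rw [hpow]; ring
  unfold eps
  have hK : 0 < D.KA ^ D.m := pow_pos hKA _
  rw [div_mul_eq_mul_div, div_le_iff₀ hK]
  nlinarith

end Dat

end Pool.Agent.Kin
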