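import Pool.Agent.Kin.DrZ
import Pool.Agent.Kin.QvS
import Pool.Agent.Kin.Lsum
import Pool.Agent.Kin.Jsum
import Pool.Agent.Kin.Tsum

/-! KIN H2: the sum over `w` (section A7, RESULT). `K'` is the intermediate scale. -/

open Matrix Finset

noncomputable section

namespace Pool.Agent.Kin

/-- `bb` -/
def Dat.bb {ι P : Type} [Fintype ι] [DecidableEq ι] [Fintype P] (D : Dat ι P) (C K' : ℝ) : ℝ :=
  (Fintype.card P : ℝ) * D.NB * (D.cv ^ D.q + D.dbar ^ (2 * D.q) + D.lam ^ (2 * D.q)) +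
    D.et 0 * Fintype.card ι * D.tb1 + D.eps * K' ^ D.m +
    C * (D.et 0 * Fintype.card ι * (D.eps * D.tb2))

namespace Dat

variable {ι P : Type} [Fintype ι] [DecidableEq ι] [Fintype P] (D : Dat ι P)

lemma kbar_nonneg (hD : D.Hyp) : 0 ≤ D.kbar := by
  refine le_trans ?_ (hD.kbar0 0 le_rfl zero_le_one)
  have h1 := hD.tau0
  have h2 := hD.eta0
  positivity

lemma s_pos (hD : D.Hyp) : 0 < D.s := by
  unfold s
  have h1 := hD.lam0
  have h2 := hD.sg0
  positivity

lemma s0_pos (hD : D.Hyp) : 0 < D.s0 := by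
  unfold s0
  have h1 := hD.tau0
  positivity

lemma eps_pos (hD : D.Hyp) : 0 < D.eps := by
  unfold eps
  have h1 := D.s0_pos hD
  have h2 := hD.KA0
  positivity

lemma tb1_nonneg (hD : D.Hyp) : 0 ≤ D.tb1 := by
  unfold tb1
  have h1 := hD.lam0
  have h2 := hD.C10
  have h3 := hD.eta0
  positivity

lemma tb2_nonneg (hD : D.Hyp) : 0 ≤ D.tb2 := by
  unfold tb2
  have h1 := hD.lam0
  have h2 := D.kbar_nonneg hD
  positivity

lemma drift_split (r : ℝ) (h : ι → ℝ) : D.Gar r h + D.s * r * ∑ w, D.Dtot w r h =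
    (Fintype.card P : ℝ) * (DD D.q (D.et r) (D.X r h) (D.rX r h) + D.rW r (D.X r h) +
        D.s * r * ∑ w, DD D.q (D.et r) (D.X r h) (D.ddX w r h)) +
      ∑ p, (DD D.q (D.et r) (D.Z p r h) (D.rZ p r h) + D.rW r (D.Z p r h) +
        D.s * r * ∑ w, DD D.q (D.et r) (D.Z p r h) (D.ddZ p w r h)) +
      D.eps * (D.m * (D.J r h ^ (D.m - 1) * D.rJ r h).trace + D.s * r * ∑ w, D.D2 w r h) := by
  unfold Gar Dtot
  have h1 : ∑ w, ∑ p, DD D.q (D.et r) (D.Z p r h) (D.ddZ p w r h) =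
      ∑ p, ∑ w, DD D.q (D.et r) (D.Z p r h) (D.ddZ p w r h) := Finset.sum_comm
  simp only [Finset.sum_add_distrib, ← Finset.mul_sum, h1]
  ring

end Dat

theorem H2 (q : ℕ) (hq : 2 ≤ q) (C1 Cq : ℝ) (hC1 : 1 ≤ C1) (hCq : 0 < Cq) :
    ∃ R : ℝ, 0 < R ∧ ∀ (m : ℕ) (Cm : ℝ), 3 ≤ m → 0 < Cm → ∃ Cn : ℝ, 0 < Cn ∧
    ∀ (ι P : Type) [Fintype ι] [DecidableEq ι] [Fintype P] (D : Dat ι P), D.Hyp → D.q = q →
      D.m = m → D.C1 = C1 → ∀ K' : ℝ, 0 < K' →
      Cn * (D.kbar * (Fintype.card ι : ℝ) ^ (1 / (D.m : ℝ)) / K' + D.tau + D.dbar + D.lam) ≤ 1 →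
      ∀ r : ℝ, 0 ≤ r → r ≤ 1 → ∀ h : ι → ℝ, D.Gam r h ≤ 4 * D.s0 →
      th1 D.s0 (D.Gam r h) * (D.Gar r h + D.s * r * ∑ w, D.Dtot w r h) +
        D.s * r * ∑ w, (Cq * D.Qa w r h + Cm * (D.eps * D.Qb w r h)) ≤
      2 * r * (D.s / D.et r) * (R * (D.Gam r h + D.bb Cn K')) := by
  obtain ⟨CX, hCX, dX⟩ := driftX q hq C1 hC1
  obtain ⟨CZ, hCZ, dZ⟩ := driftZ q hq C1 hC1
  obtain ⟨VX, hVX, vX⟩ := qvX q hq C1 hC1
  obtain ⟨VZ, hVZ, vZ⟩ := qvZ q hq C1 hC1
  obtain ⟨LX, hLX, lX⟩ := lsX q hq C1 hC1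
  obtain ⟨LZ, hLZ, lZ⟩ := lsZ q hq C1 hC1
  refine ⟨CX + CZ + Cq * (VX + VZ + LX + LZ + 1) + 1, by positivity, ?_⟩
  intro m Cm hm hCm
  refine ⟨m + Cm + 1, by positivity, ?_⟩
  intro ι P _ _ _ D hD hDq hDm hDC K' hK' hsmall r h0 h1 h hGam
  have hg := D.good_of hD h0 h1 h hGam
  have het := D.etpos hD h0 h1
  have het0 := (D.et_pos hD h0 h1).2
  have hs := D.s_pos hD
  have heps := D.eps_pos hD
  have htb1 := D.tb1_nonneg hD
  have htb2 := D.tb2_nonneg hD
  have hkb := D.kbar_nonneg hD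
  have hlam := hD.lam0
  have htau := hD.tau0
  have hcv := D.cv0
  have hPhi := D.Phi2_nonneg hD het h
  have hG1 := D.Gam1_nonneg hD het h
  obtain ⟨hNB1, hNB2⟩ := D.NB_ge hD h0 h1
  have hNB : 0 ≤ D.NB := le_trans (by positivity) hNB1
  -- the drift and quadratic variation bounds
  have h_dX := dX ι P D hD hDq hDC r h0 h1 h hg
  have h_dZ := fun p => dZ ι P D hD hDq hDC p r h0 h1 h hg
  have h_dJ := D.drift_J hD h0 h1 h hg
  have h_vX := vX ι P D hD hDq hDC r h0 h1 h hg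
  have h_vZ := fun p => vZ ι P D hD hDq hDC p r h0 h1 h hg
  have h_lX := lX ι P D hD hDq hDC r h0 h1 h hg
  have h_lZ := fun p => lZ ι P D hD hDq hDC p r h0 h1 h hg
  have h_Q2 := D.sum_Q2 hD h0 h1 h hg K' hK'
  have h_L2 := D.sum_L2 hD h0 h1 h
  have h_T1 : ∑ w, D.T1 w r h ≤ (Fintype.card ι : ℝ) * D.tb1 := by
    calc ∑ w, D.T1 w r h ≤ ∑ _w : ι, D.tb1 :=
          Finset.sum_le_sum fun w _ => D.T1_le hD h0 h1 h hg w
      _ = _ := by simp
  have h_T2 : ∑ w, D.T2 w r h ≤ (Fintype.card ι : ℝ) * D.tb2 := by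
    calc ∑ w, D.T2 w r h ≤ ∑ _w : ι, D.tb2 :=
          Finset.sum_le_sum fun w _ => D.T2_le hD h0 h1 h hg w
      _ = _ := by simp
  set e := D.et r with he
  -- abbreviations
  set Pn : ℝ := (Fintype.card P : ℝ) with hPn
  set n : ℝ := (Fintype.card ι : ℝ) with hn
  have hPn0 : 0 ≤ Pn := Nat.cast_nonneg _
  have hn0 : 0 ≤ n := Nat.cast_nonneg _
  set NX := NN q e (D.X r h) with hNX
  set a := Pn * NX with ha
  set b := ∑ p, NN q e (D.Z p r h) with hb
  have hNX0 : 0 ≤ NX := by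
    rw [hNX, NN_eq]
    positivity
  have ha0 : 0 ≤ a := by positivity
  have hb0 : 0 ≤ b := by
    apply Finset.sum_nonneg
    intro p _
    rw [NN_eq]
    positivity
  have hGam1 : D.Gam1 r h = a + b := by
    unfold Dat.Gam1
    rw [hDq]
  set n1 := Pn * (D.NB * D.cv ^ q) with hn1
  set n2 := Pn * (D.NB * D.dbar ^ (2 * q)) with hn2
  set n3 := Pn * (D.NB * D.lam ^ (2 * q)) with hn3
  have hdb : 0 ≤ D.dbar ^ (2 * q) := by
    rw [pow_mul]
    positivity
  have hn10 : 0 ≤ n1 := by positivity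
  have hn20 : 0 ≤ n2 := by positivity
  have hn30 : 0 ≤ n3 := by positivity
  set t1 := D.et 0 * n * D.tb1 with ht1
  set t2 := D.et 0 * n * (D.eps * D.tb2) with ht2
  have het00 : 0 < D.et 0 := lt_of_lt_of_le het het0
  have ht10 : 0 ≤ t1 := by positivity
  have ht20 : 0 ≤ t2 := by positivity
  set g2 := D.eps * D.Phi2 r h with hg2
  have hg20 : 0 ≤ g2 := by positivity
  set kk := D.eps * K' ^ D.m with hkk
  have hkk0 : 0 ≤ kk := by positivity
  set ρ := D.kbar * n ^ (1 / (D.m : ℝ)) / K' with hρ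
  have hρ0 : 0 ≤ ρ := by positivity
  have hmr : (3 : ℝ) ≤ D.m := by rw [hDm]; exact_mod_cast hm
  clear_value a b n1 n2 n3 t1 t2 g2 kk
  -- the three facts on small constants
  have hF : 0 ≤ D.m * (D.tau + D.dbar) * g2 ∧
      D.m * (D.tau + D.dbar) * g2 + Cm * (ρ * g2 + D.lam * g2) ≤ g2 ∧ Cm * ρ ≤ 1 := by
    rcases isEmpty_or_nonempty ι with hι | hι
    · have h2 : g2 = 0 := by
        rw [hg2]
        unfold Dat.Phi2 Matrix.trace
        simp
      have h3 : ρ = 0 := by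
        have h4 : n = 0 := by
          rw [hn]
          simp
        rw [hρ, h4, Real.zero_rpow (by positivity)]
        simp
      rw [h2, h3]
      simp
    · obtain ⟨x⟩ := hι
      have hd0 : 0 ≤ D.dbar := le_trans (norm_nonneg _) (hD.Mg x)
      have hm' : (m : ℝ) = D.m := by rw [hDm]
      have hsm : ((D.m : ℝ) + Cm + 1) * (ρ + D.tau + D.dbar + D.lam) ≤ 1 := by
        rw [← hm']
        exact hsmall
      have h5 : 0 ≤ (D.m : ℝ) * ρ := by positivity
      have h6 : 0 ≤ (D.m : ℝ) * D.lam := by positivity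
      have h7 : 0 ≤ Cm * (D.tau + D.dbar) := by positivity
      have h8 : D.m * (D.tau + D.dbar) + Cm * (ρ + D.lam) ≤ 1 := by nlinarith
      refine ⟨by positivity, ?_, ?_⟩
      · have h9 := mul_le_mul_of_nonneg_right h8 hg20
        linarith
      · have h10 : 0 ≤ Cm * D.lam := by positivity
        have h11 : 0 ≤ (D.m : ℝ) * (D.tau + D.dbar) := by positivity
        nlinarith
  obtain ⟨hF0, hF1, hF2⟩ := hF
  set md := D.m * (D.tau + D.dbar) * g2 with hmd
  clear_value md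
  set c := 2 * r * (D.s / e) with hc
  have hc0 : 0 ≤ c := by positivity
  clear_value c ρ NX e
  -- drift
  have hdrift : D.Gar r h + D.s * r * ∑ w, D.Dtot w r h ≤
      c * (CX * (a + n2) + CZ * (b + a + n2) + md) := by
    rw [D.drift_split r h, hDq, ← he]
    have i1 : Pn * (DD q e (D.X r h) (D.rX r h) + D.rW r (D.X r h) +
        D.s * r * ∑ w, DD q e (D.X r h) (D.ddX w r h)) ≤ c * (CX * (a + n2)) := by
      calc _ ≤ Pn * (c * (CX * (NX + D.NB * D.dbar ^ (2 * q)))) :=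
            mul_le_mul_of_nonneg_left h_dX hPn0
        _ = _ := by rw [ha, hn2]; ring
    have i2 : ∑ p, (DD q e (D.Z p r h) (D.rZ p r h) + D.rW r (D.Z p r h) +
        D.s * r * ∑ w, DD q e (D.Z p r h) (D.ddZ p w r h)) ≤ c * (CZ * (b + a + n2)) := by
      calc _ ≤ ∑ p, c * (CZ * (NN q e (D.Z p r h) + NX + D.NB * D.dbar ^ (2 * q))) :=
            Finset.sum_le_sum fun p _ => h_dZ p
        _ = _ := by
            rw [← Finset.mul_sum, ← Finset.mul_sum, Finset.sum_add_distrib,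
              Finset.sum_add_distrib]
            simp only [Finset.sum_const, Finset.card_univ, nsmul_eq_mul]
            rw [← hPn, ← hb, ← ha, ← hn2]
    have i3 : D.eps * (D.m * (D.J r h ^ (D.m - 1) * D.rJ r h).trace +
        D.s * r * ∑ w, D.D2 w r h) ≤ c * md := by
      calc _ ≤ D.eps * (c * (D.m * (D.tau + D.dbar) * D.Phi2 r h)) :=
            mul_le_mul_of_nonneg_left h_dJ heps.le
        _ = _ := by rw [hmd, hg2]; ring
    have i4 : c * (CX * (a + n2) + CZ * (b + a + n2) + md) =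
        c * (CX * (a + n2)) + c * (CZ * (b + a + n2)) + c * md := by ring
    rw [i4]
    exact add_le_add (add_le_add i1 i2) i3
  have hth : 0 ≤ th1 D.s0 (D.Gam r h) ∧ th1 D.s0 (D.Gam r h) ≤ 1 := by
    have hGamEq : D.Gam r h = D.Gam1 r h + g2 := by rw [hg2]; rfl
    have hGam0 : 0 ≤ D.Gam r h := by rw [hGamEq]; positivity
    have hs0 := D.s0_pos hD
    unfold th1
    constructor
    · positivity
    · apply pow_le_one₀ (le_max_right _ _)
      apply max_le _ zero_le_one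
      have : 0 ≤ D.Gam r h / (3 * D.s0) := by positivity
      linarith
  have hU0 : 0 ≤ c * (CX * (a + n2) + CZ * (b + a + n2) + md) := by positivity
  have hpart1 : th1 D.s0 (D.Gam r h) * (D.Gar r h + D.s * r * ∑ w, D.Dtot w r h) ≤
      c * (CX * (a + n2) + CZ * (b + a + n2) + md) := by
    calc _ ≤ th1 D.s0 (D.Gam r h) * (c * (CX * (a + n2) + CZ * (b + a + n2) + md)) :=
          mul_le_mul_of_nonneg_left hdrift hth.1
      _ ≤ 1 * (c * (CX * (a + n2) + CZ * (b + a + n2) + md)) :=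
          mul_le_mul_of_nonneg_right hth.2 hU0
      _ = _ := one_mul _
  -- quadratic variation
  have hQ1 : ∑ w, D.Q1 w r h ≤ 1 / e * (VX * (a + n1) + VZ * (b + a + n1)) := by
    have e1 : ∑ w, D.Q1 w r h = Pn * ∑ w, QQ q e (D.X r h) (D.sX w r h) +
        ∑ p, ∑ w, QQ q e (D.Z p r h) (D.sZ p w r h) := by
      unfold Dat.Q1
      have h1 : ∑ p, ∑ w, QQ q e (D.Z p r h) (D.sZ p w r h) =
        ∑ w, ∑ p, QQ q e (D.Z p r h) (D.sZ p w r h) := Finset.sum_comm
      rw [h1, Finset.sum_add_distrib, ← Finset.mul_sum, hDq, ← he]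
    rw [e1]
    have i1 : Pn * ∑ w, QQ q e (D.X r h) (D.sX w r h) ≤ 1 / e * (VX * (a + n1)) := by
      calc _ ≤ Pn * (VX / e * (NX + D.NB * D.cv ^ q)) := mul_le_mul_of_nonneg_left h_vX hPn0
        _ = _ := by rw [ha, hn1]; ring
    have i2 : ∑ p, ∑ w, QQ q e (D.Z p r h) (D.sZ p w r h) ≤ 1 / e * (VZ * (b + a + n1)) := by
      calc _ ≤ ∑ p, VZ / e * (NN q e (D.Z p r h) + NX + D.NB * D.cv ^ q) :=
            Finset.sum_le_sum fun p _ => h_vZ p
        _ = _ := by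
            rw [← Finset.mul_sum, Finset.sum_add_distrib, Finset.sum_add_distrib]
            simp only [Finset.sum_const, Finset.card_univ, nsmul_eq_mul]
            rw [← hPn, ← hb, ← ha, ← hn1]
            ring
    calc _ ≤ 1 / e * (VX * (a + n1)) + 1 / e * (VZ * (b + a + n1)) := add_le_add i1 i2
      _ = _ := by ring
  have hL1 : D.lam * ∑ w, D.L1 w r h ≤ 1 / e * (LX * (a + n3) + LZ * (b + n3)) := by
    have e1 : D.lam * ∑ w, D.L1 w r h = Pn * (D.lam * ∑ w, LL q e (D.X r h) (D.sX w r h)) +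
        ∑ p, D.lam * ∑ w, LL q e (D.Z p r h) (D.sZ p w r h) := by
      unfold Dat.L1
      have h1 : ∑ w, ∑ p, LL q e (D.Z p r h) (D.sZ p w r h) =
        ∑ p, ∑ w, LL q e (D.Z p r h) (D.sZ p w r h) := Finset.sum_comm
      rw [Finset.sum_add_distrib, ← Finset.mul_sum, hDq, ← he, h1, ← Finset.mul_sum]
      ring
    rw [e1]
    have i1 : Pn * (D.lam * ∑ w, LL q e (D.X r h) (D.sX w r h)) ≤ 1 / e * (LX * (a + n3)) := by
      calc _ ≤ Pn * (LX / e * (NX + D.NB * D.lam ^ (2 * q))) :=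
            mul_le_mul_of_nonneg_left h_lX hPn0
        _ = _ := by rw [ha, hn3]; ring
    have i2 : ∑ p, D.lam * ∑ w, LL q e (D.Z p r h) (D.sZ p w r h) ≤
        1 / e * (LZ * (b + n3)) := by
      calc _ ≤ ∑ p, LZ / e * (NN q e (D.Z p r h) + D.NB * D.lam ^ (2 * q)) :=
            Finset.sum_le_sum fun p _ => h_lZ p
        _ = _ := by
            rw [← Finset.mul_sum, Finset.sum_add_distrib]
            simp only [Finset.sum_const, Finset.card_univ, nsmul_eq_mul]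
            rw [← hPn, ← hb, ← hn3]
            ring
    calc _ ≤ 1 / e * (LX * (a + n3)) + 1 / e * (LZ * (b + n3)) := add_le_add i1 i2
      _ = _ := by ring
  have hT1 : ∑ w, D.T1 w r h ≤ 1 / e * t1 := by
    have i1 : n * D.tb1 ≤ 1 / e * t1 := by
      rw [ht1]
      have i2 : 1 ≤ D.et 0 / e := by rw [one_le_div het]; exact het0
      calc n * D.tb1 = 1 * (n * D.tb1) := (one_mul _).symm
        _ ≤ D.et 0 / e * (n * D.tb1) := mul_le_mul_of_nonneg_right i2 (by positivity)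
        _ = _ := by ring
    exact h_T1.trans i1
  have hT2 : D.eps * ∑ w, D.T2 w r h ≤ 1 / e * t2 := by
    have i1 : D.eps * (n * D.tb2) ≤ 1 / e * t2 := by
      rw [ht2]
      have i2 : 1 ≤ D.et 0 / e := by rw [one_le_div het]; exact het0
      calc D.eps * (n * D.tb2) = 1 * (n * (D.eps * D.tb2)) := by ring
        _ ≤ D.et 0 / e * (n * (D.eps * D.tb2)) := mul_le_mul_of_nonneg_right i2 (by positivity)
        _ = _ := by ring
    exact (mul_le_mul_of_nonneg_left h_T2 heps.le).trans i1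
  have hQ2 : D.eps * ∑ w, D.Q2 w r h ≤ 1 / e * (ρ * (g2 + kk)) := by
    calc _ ≤ D.eps * (ρ / e * (D.Phi2 r h + K' ^ D.m)) := mul_le_mul_of_nonneg_left h_Q2 heps.le
      _ = _ := by rw [hg2, hkk]; ring
  have hL2 : D.eps * (D.lam * ∑ w, D.L2 w r h) = 1 / e * (D.lam * g2) := by
    rw [h_L2, hg2]
    ring
  have hsumQ : ∑ w, (Cq * D.Qa w r h + Cm * (D.eps * D.Qb w r h)) ≤
      1 / e * (Cq * (VX * (a + n1) + VZ * (b + a + n1) + (LX * (a + n3) + LZ * (b + n3)) + t1) +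
        Cm * (ρ * (g2 + kk) + D.lam * g2 + t2)) := by
    have e1 : ∑ w, (Cq * D.Qa w r h + Cm * (D.eps * D.Qb w r h)) =
        Cq * (∑ w, D.Q1 w r h + D.lam * ∑ w, D.L1 w r h + ∑ w, D.T1 w r h) +
        Cm * (D.eps * ∑ w, D.Q2 w r h + D.eps * (D.lam * ∑ w, D.L2 w r h) +
          D.eps * ∑ w, D.T2 w r h) := by
      unfold Dat.Qa Dat.Qb
      simp only [Finset.sum_add_distrib, ← Finset.mul_sum]
      ring
    rw [e1, hL2]
    have i1 := mul_le_mul_of_nonneg_left (add_le_add (add_le_add hQ1 hL1) hT1) hCq.le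
    have i2 := mul_le_mul_of_nonneg_left (add_le_add (add_le_add hQ2 (le_refl
      (1 / e * (D.lam * g2)))) hT2) hCm.le
    calc _ ≤ _ := add_le_add i1 i2
      _ = _ := by ring
  have hpart2 : D.s * r * ∑ w, (Cq * D.Qa w r h + Cm * (D.eps * D.Qb w r h)) ≤
      c * (Cq * (VX * (a + n1) + VZ * (b + a + n1) + (LX * (a + n3) + LZ * (b + n3)) + t1) +
        Cm * (ρ * (g2 + kk) + D.lam * g2 + t2)) := by
    have hS0 : 0 ≤ Cq * (VX * (a + n1) + VZ * (b + a + n1) + (LX * (a + n3) + LZ * (b + n3)) +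
        t1) + Cm * (ρ * (g2 + kk) + D.lam * g2 + t2) := by positivity
    calc _ ≤ D.s * r * (1 / e * (Cq * (VX * (a + n1) + VZ * (b + a + n1) +
          (LX * (a + n3) + LZ * (b + n3)) + t1) + Cm * (ρ * (g2 + kk) + D.lam * g2 + t2))) :=
          mul_le_mul_of_nonneg_left hsumQ (by positivity)
      _ = c / 2 * (Cq * (VX * (a + n1) + VZ * (b + a + n1) +
          (LX * (a + n3) + LZ * (b + n3)) + t1) + Cm * (ρ * (g2 + kk) + D.lam * g2 + t2)) := by
          rw [hc]; ring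
      _ ≤ _ := mul_le_mul_of_nonneg_right (by linarith) hS0
  have hfinal : CX * (a + n2) + CZ * (b + a + n2) + md +
      (Cq * (VX * (a + n1) + VZ * (b + a + n1) + (LX * (a + n3) + LZ * (b + n3)) + t1) +
        Cm * (ρ * (g2 + kk) + D.lam * g2 + t2)) ≤
      (CX + CZ + Cq * (VX + VZ + LX + LZ + 1) + 1) * (D.Gam r h + D.bb (m + Cm + 1) K') := by
    have hGamEq : D.Gam r h = a + b + g2 := by
      rw [← hGam1, hg2]
      rfl
    have hbb : D.bb (m + Cm + 1) K' = n1 + n2 + n3 + t1 + kk + (m + Cm + 1) * t2 := by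
      unfold Dat.bb
      rw [hDq, hn1, hn2, hn3, ht1, ht2, hkk]
      ring
    rw [hGamEq, hbb]
    have hmm : (0 : ℝ) ≤ m := Nat.cast_nonneg m
    set U := a + b + n1 + n2 + n3 + t1 with hU
    clear_value U
    have hU1 : 0 ≤ U := by rw [hU]; positivity
    have j1 : CX * (a + n2) ≤ CX * U :=
      mul_le_mul_of_nonneg_left (by linarith only [hU, ha0, hb0, hn10, hn20, hn30, ht10]) hCX.le
    have j2 : CZ * (b + a + n2) ≤ CZ * U :=
      mul_le_mul_of_nonneg_left (by linarith only [hU, ha0, hb0, hn10, hn20, hn30, ht10]) hCZ.le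
    have j3 : VX * (a + n1) ≤ VX * U :=
      mul_le_mul_of_nonneg_left (by linarith only [hU, ha0, hb0, hn10, hn20, hn30, ht10]) hVX.le
    have j4 : VZ * (b + a + n1) ≤ VZ * U :=
      mul_le_mul_of_nonneg_left (by linarith only [hU, ha0, hb0, hn10, hn20, hn30, ht10]) hVZ.le
    have j5 : LX * (a + n3) ≤ LX * U :=
      mul_le_mul_of_nonneg_left (by linarith only [hU, ha0, hb0, hn10, hn20, hn30, ht10]) hLX.le
    have j6 : LZ * (b + n3) ≤ LZ * U :=
      mul_le_mul_of_nonneg_left (by linarith only [hU, ha0, hb0, hn10, hn20, hn30, ht10]) hLZ.le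
    have j7 : Cq * (VX * (a + n1) + VZ * (b + a + n1) + (LX * (a + n3) + LZ * (b + n3)) + t1) ≤
        Cq * ((VX + VZ + LX + LZ + 1) * U) := by
      apply mul_le_mul_of_nonneg_left _ hCq.le
      have j0 : t1 ≤ U := by linarith only [hU, ha0, hb0, hn10, hn20, hn30, ht10]
      calc _ ≤ VX * U + VZ * U + (LX * U + LZ * U) + U :=
            add_le_add (add_le_add (add_le_add j3 j4) (add_le_add j5 j6)) j0
        _ = _ := by ring
    have j8 : md + Cm * (ρ * (g2 + kk) + D.lam * g2 + t2) ≤ g2 + kk + (m + Cm + 1) * t2 := by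
      have k1 : Cm * ρ * kk ≤ 1 * kk := mul_le_mul_of_nonneg_right hF2 hkk0
      have k2 : Cm * t2 ≤ (m + Cm + 1) * t2 := mul_le_mul_of_nonneg_right (by linarith) ht20
      have k3 : md + Cm * (ρ * (g2 + kk) + D.lam * g2 + t2) =
        (md + Cm * (ρ * g2 + D.lam * g2)) + Cm * ρ * kk + Cm * t2 := by ring
      rw [one_mul] at k1
      rw [k3]
      exact add_le_add (add_le_add hF1 k1) k2
    have hR : 0 ≤ CX + CZ + Cq * (VX + VZ + LX + LZ + 1) := by positivity
    have hV : 0 ≤ g2 + kk + (m + Cm + 1) * t2 := by positivity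
    have j9 : 0 ≤ (CX + CZ + Cq * (VX + VZ + LX + LZ + 1)) *
        (g2 + kk + (m + Cm + 1) * t2) := mul_nonneg hR hV
    calc _ = CX * (a + n2) + CZ * (b + a + n2) +
          Cq * (VX * (a + n1) + VZ * (b + a + n1) + (LX * (a + n3) + LZ * (b + n3)) + t1) +
          (md + Cm * (ρ * (g2 + kk) + D.lam * g2 + t2)) := by ring
      _ ≤ CX * U + CZ * U + Cq * ((VX + VZ + LX + LZ + 1) * U) +
          (g2 + kk + (m + Cm + 1) * t2) := add_le_add (add_le_add (add_le_add j1 j2) j7) j8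
      _ ≤ (CX + CZ + Cq * (VX + VZ + LX + LZ + 1)) * U + U +
          (g2 + kk + (m + Cm + 1) * t2) + (CX + CZ + Cq * (VX + VZ + LX + LZ + 1)) *
        (g2 + kk + (m + Cm + 1) * t2) := by
          have j10 : CX * U + CZ * U + Cq * ((VX + VZ + LX + LZ + 1) * U) =
            (CX + CZ + Cq * (VX + VZ + LX + LZ + 1)) * U := by ring
          rw [j10]
          have j11 := add_nonneg hU1 j9
          linarith only [j11]
      _ = _ := by rw [hU]; ring
  calc _ ≤ c * (CX * (a + n2) + CZ * (b + a + n2) + md) +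
      c * (Cq * (VX * (a + n1) + VZ * (b + a + n1) + (LX * (a + n3) + LZ * (b + n3)) + t1) +
        Cm * (ρ * (g2 + kk) + D.lam * g2 + t2)) := add_le_add hpart1 hpart2
    _ = c * (CX * (a + n2) + CZ * (b + a + n2) + md +
      (Cq * (VX * (a + n1) + VZ * (b + a + n1) + (LX * (a + n3) + LZ * (b + n3)) + t1) +
        Cm * (ρ * (g2 + kk) + D.lam * g2 + t2))) := by ring
    _ ≤ _ := mul_le_mul_of_nonneg_left hfinal hc0

end Pool.Agent.Kin
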