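import Pool.Agent.Kin.H1
import Pool.Agent.Kin.H2
import Pool.Agent.Kin.GamDer
import Pool.Agent.Kin.GamCont
import Pool.Agent.Kin.ProbFlow
import Pool.Agent.Kin.Gronw

/-! KIN FLOWA: conclusion of Part A. -/

open MeasureTheory Matrix Finset

noncomputable section

namespace Pool.Agent.Kin

variable {ι P : Type} [Fintype ι] [DecidableEq ι] [Fintype P]

lemma Dat.Gam_nonneg (D : Dat ι P) (hD : D.Hyp) {r : ℝ} (hr : 0 < D.et r) (h : ι → ℝ) :
    0 ≤ D.Gam r h :=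
  add_nonneg (D.Gam1_nonneg hD hr h) (mul_nonneg (D.eps_pos hD).le (D.Phi2_nonneg hD hr h))

lemma Dat.NB_nonneg (D : Dat ι P) (hD : D.Hyp) : 0 ≤ D.NB := by
  have := hD.eta0
  unfold Dat.NB
  positivity

lemma Dat.et_zero_pos (D : Dat ι P) (hD : D.Hyp) : 0 < D.et 0 :=
  lt_of_lt_of_le hD.eta0 (D.et_pos hD le_rfl zero_le_one).1

lemma Dat.bb_nonneg (D : Dat ι P) (hD : D.Hyp) {C K' : ℝ} (hC : 0 ≤ C) (hK : 0 < K') :
    0 ≤ D.bb C K' := by
  have h0 := D.NB_nonneg hD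
  have h1 := D.tb1_nonneg hD
  have h2 := D.tb2_nonneg hD
  have h3 := (D.eps_pos hD).le
  have h4 := (D.et_zero_pos hD).le
  have h5 := hD.lam0
  have h6 : 0 ≤ D.dbar ^ (2 * D.q) := by rw [pow_mul]; positivity
  have h7 : 0 ≤ D.cv ^ D.q := pow_nonneg (Real.sqrt_nonneg _) _
  unfold Dat.bb
  positivity

lemma Dat.bb_mono (D : Dat ι P) (hD : D.Hyp) {C C' K' : ℝ} (hC : C ≤ C') :
    D.bb C K' ≤ D.bb C' K' := by
  have h2 := D.tb2_nonneg hD
  have h3 := (D.eps_pos hD).le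
  have h4 := (D.et_zero_pos hD).le
  unfold Dat.bb
  have : C * (D.et 0 * Fintype.card ι * (D.eps * D.tb2)) ≤
      C' * (D.et 0 * Fintype.card ι * (D.eps * D.tb2)) :=
    mul_le_mul_of_nonneg_right hC (by positivity)
  linarith

/-- the value at `r = 0` -/
theorem Gam_zero (D : Dat ι P)
    (hD : D.Hyp) : D.Gam 0 0 ≤ D.eps * (Fintype.card ι * (1 / D.et 0) ^ D.m) := by
  have het := D.et_zero_pos hD
  have hX : D.X 0 0 = 0 := by
    ext x y
    simp [Dat.X, Dat.M]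
  have hZ : ∀ p, D.Z p 0 0 = 0 := by
    intro p
    ext x y
    simp [Dat.Z, Dat.F, Dat.Fb, Dat.M]
  have hq : 2 * D.q ≠ 0 := by have := hD.q2; omega
  have hNN : NN D.q (D.et 0) (0 : Matrix ι ι ℂ) = 0 := by
    simp [NN, hq]
  have h1 : D.Gam1 0 0 = 0 := by
    simp [Dat.Gam1, hX, hZ, hNN]
  have h2 : D.Phi2 0 0 ≤ Fintype.card ι * (1 / D.et 0) ^ D.m := by
    refine trace_le_of_form (D.J_psd hD.sym het 0) D.m (1 / D.et 0) (by positivity) ?_
    intro u
    have hs : D.et 0 ≠ 0 := het.ne'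
    set uB : ι → ℂ := fun x => if x ∈ D.B then ((u x : ℝ) : ℂ) else 0 with huB
    have hzr : (D.zr 0).im = D.et 0 := by
      simp [Dat.zr, Dat.et, Dat.eta]
    have e1 : ∀ w, (D.G 0 0 *ᵥ uB) w = ∑ x, D.av 0 0 w x * ((u x : ℝ) : ℂ) := by
      intro w
      simp only [Matrix.mulVec, dotProduct, huB, Dat.av]
      refine Finset.sum_congr rfl fun x _ => ?_
      by_cases hx : x ∈ D.B
      · simp only [hx, if_true]
        rw [show D.G 0 0 w x = D.G 0 0 x w from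
          res_symm hD.sym (by rw [hzr]; exact het) _ w x]
      · simp [hx]
    have e2 : u ⬝ᵥ (D.J 0 0 *ᵥ u) = D.et 0 * ∑ w, ‖(D.G 0 0 *ᵥ uB) w‖ ^ 2 := by
      rw [D.J_eq hD.sym het 0]
      simp only [Matrix.smul_mulVec, dotProduct_smul, smul_eq_mul]
      congr 1
      rw [Matrix.sum_mulVec, dotProduct_sum]
      refine Finset.sum_congr rfl fun w _ => ?_
      rw [e1 w, Matrix.add_mulVec, dotProduct_add, ← Complex.normSq_eq_norm_sq,
        Complex.normSq_apply]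
      have hre : (∑ x, D.av 0 0 w x * ((u x : ℝ) : ℂ)).re =
          (fun x => (D.av 0 0 w x).re) ⬝ᵥ u := by
        simp [dotProduct, Complex.mul_re]
      have him : (∑ x, D.av 0 0 w x * ((u x : ℝ) : ℂ)).im =
          (fun x => (D.av 0 0 w x).im) ⬝ᵥ u := by
        simp [dotProduct, Complex.mul_im]
      rw [hre, him]
      have hv : ∀ a : ι → ℝ, u ⬝ᵥ (vecMulVec a a *ᵥ u) = (a ⬝ᵥ u) * (a ⬝ᵥ u) := by
        intro a
        simp only [dotProduct, Matrix.mulVec, Matrix.vecMulVec_apply]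
        rw [Finset.sum_mul_sum]
        refine Finset.sum_congr rfl fun x _ => ?_
        rw [Finset.mul_sum]
        refine Finset.sum_congr rfl fun y _ => ?_
        ring
      rw [hv, hv]
    have e3 := res_norm hD.sym (w := D.zr 0) (by rw [hzr]; exact het) 0 uB
    have e4 : ∑ x, ‖uB x‖ ^ 2 ≤ ∑ x, u x ^ 2 := by
      refine Finset.sum_le_sum fun x _ => ?_
      by_cases hx : x ∈ D.B
      · simp [huB, hx]
      · simp only [huB, hx, if_false, norm_zero]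
        nlinarith [sq_nonneg (u x)]
    rw [e2]
    calc D.et 0 * ∑ w, ‖(D.G 0 0 *ᵥ uB) w‖ ^ 2
        ≤ D.et 0 * ((1 / D.et 0) ^ 2 * ∑ x, u x ^ 2) := by
          refine mul_le_mul_of_nonneg_left ?_ het.le
          rw [← hzr]
          refine e3.trans ?_
          exact mul_le_mul_of_nonneg_left e4 (by positivity)
      _ = 1 / D.et 0 * ∑ x, u x ^ 2 := by
          field_simp
  unfold Dat.Gam
  rw [h1, zero_add]
  exact mul_le_mul_of_nonneg_left h2 (D.eps_pos hD).le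

theorem flowA (q : ℕ) (hq : 2 ≤ q) (bd C1 : ℝ) (hbd : 0 < bd) (hC1 : 1 ≤ C1) :
    ∃ R : ℝ, 0 < R ∧ ∀ m : ℕ, 3 ≤ m → ∃ C : ℝ, 0 < C ∧
    ∀ (ι P : Type) [Fintype ι] [DecidableEq ι] [Fintype P] (D : Dat ι P), D.Hyp → D.q = q →
      D.m = m → D.bd = bd → D.C1 = C1 → ∀ K' : ℝ, 0 < K' →
      C * D.tb1 ≤ D.s0 → C * (D.eps * D.tb2) ≤ D.s0 →
      C * (D.kbar * (Fintype.card ι : ℝ) ^ (1 / (D.m : ℝ)) / K' + D.tau + D.dbar + D.lam) ≤ 1 →
      ∀ (μ : Measure ℝ) [IsProbabilityMeasure μ], (∀ᵐ x ∂μ, |x| ≤ bd) → ∫ x, x ∂μ = 0 →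
      ∫ x, x ^ 2 ∂μ = D.sg →
      (Measure.pi fun _ : ι => μ) {v | 4 * D.s0 < D.Gam 1 (D.hv 1 v)} ≤
        ENNReal.ofReal ((D.eps * (Fintype.card ι * (1 / D.et 0) ^ D.m) + D.bb C K') / D.s0 *
          (D.et 0 / D.eta) ^ (R / D.g0.im)) := by
  obtain ⟨Cq, hCq, hH1⟩ := H1 q hq bd C1 hbd hC1
  obtain ⟨R, hR, hH2⟩ := H2 q hq C1 Cq hC1 hCq
  refine ⟨4 * R, by positivity, fun m hm => ?_⟩
  obtain ⟨Cm, hCm, hH1m⟩ := hH1 m hm
  obtain ⟨Cn, hCn, hH2m⟩ := hH2 m Cm hm hCm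
  refine ⟨max Cm Cn, lt_max_of_lt_left hCm, ?_⟩
  intro ι P _ _ _ D hD hDq hDm hDbd hDC1 K' hK' ht1 ht2 hsm μ _ hb hmean hvar
  have hs0 := D.s0_pos hD
  have heps := D.eps_pos hD
  have hs := D.s_pos hD
  have het0 := D.et_zero_pos hD
  have hIcc : Set.Icc (0 : ℝ) 1 ⊆ D.dom := D.Icc_subset_dom hD
  rcases isEmpty_or_nonempty ι with hemp | hne
  · -- empty index set: `Γ = 0`
    have hG : ∀ v : ι → ℝ, D.Gam 1 (D.hv 1 v) = 0 := by
      intro v
      simp [Dat.Gam, Dat.Gam1, Dat.Phi2, NN, Matrix.trace]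
    have : {v : ι → ℝ | 4 * D.s0 < D.Gam 1 (D.hv 1 v)} = ∅ := by
      ext v
      simp only [Set.mem_ofPred_eq, hG v, Set.mem_empty_iff_false, iff_false, not_lt]
      linarith
    rw [this]
    simp
  have hdb : 0 ≤ D.dbar := (norm_nonneg _).trans (hD.Mg (Classical.arbitrary ι))
  have hkb := D.kbar_nonneg hD
  have hX0 : 0 ≤ D.kbar * (Fintype.card ι : ℝ) ^ (1 / (D.m : ℝ)) / K' := by positivity
  have htau := hD.tau0
  have hlam := hD.lam0
  have hCmn : 0 < max Cm Cn := lt_max_of_lt_left hCm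
  have hsum : 0 ≤ D.kbar * (Fintype.card ι : ℝ) ^ (1 / (D.m : ℝ)) / K' + D.tau + D.dbar + D.lam := by
    positivity
  have hCmlam : Cm * D.lam ≤ 1 := by
    refine le_trans ?_ hsm
    refine mul_le_mul (le_max_left _ _) ?_ hlam.le hCmn.le
    linarith
  have ht1' : Cm * D.tb1 ≤ D.s0 :=
    (mul_le_mul_of_nonneg_right (le_max_left _ _) (D.tb1_nonneg hD)).trans ht1
  have ht2' : Cm * (D.eps * D.tb2) ≤ D.s0 :=
    (mul_le_mul_of_nonneg_right (le_max_left _ _)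
      (mul_nonneg heps.le (D.tb2_nonneg hD))).trans ht2
  have hsm' : Cn * (D.kbar * (Fintype.card ι : ℝ) ^ (1 / (D.m : ℝ)) / K' + D.tau + D.dbar +
      D.lam) ≤ 1 := (mul_le_mul_of_nonneg_right (le_max_right _ _) hsum).trans hsm
  have hbb := D.bb_nonneg hD hCn.le hK'
  set bb := D.bb Cn K' with hbbdef
  -- the probabilistic lemma
  have key := prob_deriv (ι := ι) μ bd D.sg D.lam hbd hb hmean hvar hlam D.s0 hs0 D.dom D.isOpen_dom
    D.Gam D.Gar D.Ga1 D.Ga2 (D.cont_Gam hD.sym) (D.cont_Gar hD.sym) (D.cont_Ga1 hD.sym)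
    (D.cont_Ga2 hD.sym)
    (fun r hr h w t => D.hasDerivAt_Gam hD hr.1 h w t)
    (fun r hr h w t => D.hasDerivAt_Ga1 hD hr.1 h w t)
    (fun r hr v => D.path_Gam hD hr.1 hr.2 v)
  set u : ℝ → ℝ := fun r => ∫ v, th D.s0 (D.Gam r (fun w => D.lam * r * v w))
    ∂(Measure.pi fun _ : ι => μ) with hu
  choose! u' hu'1 hu'2 using key
  have hder : ∀ r ∈ Set.Icc (0 : ℝ) 1,
      u' r ≤ 2 * r * (D.s / (D.eta + D.s * (1 - r ^ 2) * D.g0.im)) * R * (4 * u r + bb) := by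
    intro r hr
    have het : 0 < D.et r := (hIcc hr).1
    have hϕ0 : 0 ≤ 2 * r * (D.s / D.et r) * R := by
      have := hr.1
      positivity
    refine hu'2 r (hIcc hr) (2 * r * (D.s / D.et r) * R) bb hr.1 ?_
    intro v hv
    set h : ι → ℝ := fun w => D.lam * r * v w with hh
    have hG0 : 0 ≤ D.Gam r h := D.Gam_nonneg hD het h
    refine ⟨fun w => th1 D.s0 (D.Gam r h) * D.Dtot w r h +
      if D.Gam r h ≤ 4 * D.s0 then Cq * D.Qa w r h + Cm * (D.eps * D.Qb w r h) else 0, ?_, ?_⟩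
    · intro w t ht
      refine hH1m ι P D hD hDq hDm hDbd hDC1 hCmlam ht1' ht2' r hr.1 hr.2 h w t ?_
      have hhw : |h w| ≤ D.lam * bd := by
        rw [hh]
        simp only
        rw [abs_mul, abs_mul, abs_of_pos hlam, abs_of_nonneg hr.1]
        calc D.lam * r * |v w| ≤ D.lam * 1 * bd :=
              mul_le_mul (mul_le_mul_of_nonneg_left hr.2 hlam.le) (hv w) (abs_nonneg _)
                (by positivity)
          _ = D.lam * bd := by ring
      have ht' : |t| ≤ D.lam * bd := by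
        refine ht.trans ?_
        calc D.lam * r * bd ≤ D.lam * 1 * bd :=
              mul_le_mul_of_nonneg_right (mul_le_mul_of_nonneg_left hr.2 hlam.le) hbd.le
          _ = D.lam * bd := by ring
      calc |t - h w| ≤ |t| + |h w| := abs_sub _ _
        _ ≤ 2 * bd * D.lam := by linarith
    · by_cases hgood : D.Gam r h ≤ 4 * D.s0
      · have h2 := hH2m ι P D hD hDq hDm hDC1 K' hK' hsm' r hr.1 hr.2 h hgood
        have h4 := le_four_th D.s0 hs0 (D.Gam r h) hG0 hgood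
        simp only [hgood, if_true]
        have hE : th1 D.s0 (D.Gam r h) * D.Gar r h + D.lam ^ 2 * D.sg * r *
            ∑ w, (th1 D.s0 (D.Gam r h) * D.Dtot w r h +
              (Cq * D.Qa w r h + Cm * (D.eps * D.Qb w r h))) =
            th1 D.s0 (D.Gam r h) * (D.Gar r h + D.s * r * ∑ w, D.Dtot w r h) +
            D.s * r * ∑ w, (Cq * D.Qa w r h + Cm * (D.eps * D.Qb w r h)) := by
          rw [Finset.sum_add_distrib, ← Finset.mul_sum]
          simp only [Dat.s]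
          ring
        rw [hE]
        refine h2.trans ?_
        have : 2 * r * (D.s / D.et r) * (R * (D.Gam r h + bb)) =
            2 * r * (D.s / D.et r) * R * (D.Gam r h + bb) := by ring
        rw [this]
        exact mul_le_mul_of_nonneg_left (by linarith) hϕ0
      · rw [not_le] at hgood
        have h3 : th1 D.s0 (D.Gam r h) = 0 := th1_zero D.s0 hs0 _ (by linarith)
        have hth := th_nonneg D.s0 hs0 (D.Gam r h) hG0
        simp only [h3, zero_mul, not_le.2 hgood, if_false, add_zero, Finset.sum_const_zero,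
          mul_zero]
        exact mul_nonneg hϕ0 (by linarith)
  have hu0 : 0 ≤ u 0 := by
    refine integral_nonneg fun v => th_nonneg D.s0 hs0 _ (D.Gam_nonneg hD het0 _)
  have hgr := gronw D.eta D.s D.g0.im R bb hD.eta0 hs hD.g0im hR hbb u u'
    (fun r hr => hu'1 r (hIcc hr)) hder hu0
  have hu0' : u 0 ≤ D.eps * (Fintype.card ι * (1 / D.et 0) ^ D.m) := by
    have e1 : u 0 = th D.s0 (D.Gam 0 0) := by
      rw [hu]
      simp only [mul_zero, zero_mul]
      have : (fun _ : ι => (0 : ℝ)) = 0 := rfl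
      rw [this]
      simp
    rw [e1]
    exact (th_le D.s0 hs0 _ (D.Gam_nonneg hD het0 _)).trans (Gam_zero D hD)
  have hetr : D.eta + D.s * D.g0.im = D.et 0 := by
    simp [Dat.et]
  -- Markov
  have h1dom : (1 : ℝ) ∈ D.dom := hIcc ⟨zero_le_one, le_rfl⟩
  have hcont : Continuous fun v : ι → ℝ => th D.s0 (D.Gam 1 (fun w => D.lam * 1 * v w)) := by
    have hc := D.cont_Gam hD.sym
    have h1 : Continuous fun v : ι → ℝ => (((1 : ℝ), fun w => D.lam * 1 * v w) : ℝ × (ι → ℝ)) := by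
      fun_prop
    have h2 : Continuous ((fun p : ℝ × (ι → ℝ) => D.Gam p.1 p.2) ∘
        fun v : ι → ℝ => (((1 : ℝ), fun w => D.lam * 1 * v w) : ℝ × (ι → ℝ))) :=
      hc.comp_continuous h1 fun v => ⟨h1dom, Set.mem_univ _⟩
    exact (cont_th D.s0).comp h2
  have hint : Integrable (fun v : ι → ℝ => th D.s0 (D.Gam 1 (fun w => D.lam * 1 * v w)))
      (Measure.pi fun _ : ι => μ) := cont_integrable μ bd hb _ hcont
  have hnn : ∀ v : ι → ℝ, 0 ≤ th D.s0 (D.Gam 1 (fun w => D.lam * 1 * v w)) := fun v =>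
    th_nonneg D.s0 hs0 _ (D.Gam_nonneg hD h1dom.1 _)
  have hmk := mul_meas_ge_le_integral_of_nonneg (Filter.Eventually.of_forall hnn) hint D.s0
  have hsub : {v : ι → ℝ | 4 * D.s0 < D.Gam 1 (D.hv 1 v)} ⊆
      {v | D.s0 ≤ th D.s0 (D.Gam 1 (fun w => D.lam * 1 * v w))} := by
    intro v hv
    simp only [Set.mem_ofPred_eq] at hv ⊢
    have : D.hv 1 v = fun w => D.lam * 1 * v w := rfl
    rw [this] at hv
    rw [th_big D.s0 hs0 _ (by linarith)]
  refine (measure_mono hsub).trans ?_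
  rw [← ENNReal.ofReal_toReal (measure_ne_top (Measure.pi fun _ : ι => μ)
    {v | D.s0 ≤ th D.s0 (D.Gam 1 (fun w => D.lam * 1 * v w))})]
  apply ENNReal.ofReal_le_ofReal
  have hmk' : ((Measure.pi fun _ : ι => μ) {v | D.s0 ≤ th D.s0 (D.Gam 1
      (fun w => D.lam * 1 * v w))}).toReal ≤ u 1 / D.s0 := by
    rw [le_div_iff₀ hs0, mul_comm]
    exact hmk
  refine hmk'.trans ?_
  have hratio : 1 ≤ D.et 0 / D.eta := by
    rw [one_le_div hD.eta0]
    exact (D.et_pos hD le_rfl zero_le_one).1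
  have hpow : 0 ≤ (D.et 0 / D.eta) ^ (4 * R / D.g0.im) := by positivity
  rw [hetr] at hgr
  have : (D.eps * (Fintype.card ι * (1 / D.et 0) ^ D.m) + D.bb (max Cm Cn) K') / D.s0 *
      (D.et 0 / D.eta) ^ (4 * R / D.g0.im) =
      (D.eps * (Fintype.card ι * (1 / D.et 0) ^ D.m) + D.bb (max Cm Cn) K') *
      (D.et 0 / D.eta) ^ (4 * R / D.g0.im) / D.s0 := by ring
  rw [this]
  refine div_le_div_of_nonneg_right (hgr.trans ?_) hs0.le
  refine mul_le_mul_of_nonneg_right ?_ hpow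
  have := D.bb_mono hD (K' := K') (le_max_right Cm Cn)
  linarith

/-- on the good event: `1_B Im G 1_B ≤ 2 K_A`. -/
theorem form_le (D : Dat ι P) (hD : D.Hyp)
    {r : ℝ} (h0 : 0 ≤ r) (h1 : r ≤ 1) (h : ι → ℝ) (hg : D.Gam r h ≤ 4 * D.s0) (u : ι → ℝ) :
    u ⬝ᵥ (D.J r h *ᵥ u) ≤ 2 * D.KA * ∑ x, u x ^ 2 := by
  have het : 0 < D.et r := lt_of_lt_of_le hD.eta0 (D.et_pos hD h0 h1).1
  have hKA := hD.KA0
  refine form_le_of_trace (D.J_psd hD.sym het h) D.m (by have := hD.m3; omega) (2 * D.KA)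
    (by positivity) ?_ u
  refine (D.good_of hD h0 h1 h hg).tr.trans ?_
  rw [mul_pow]
  refine mul_le_mul_of_nonneg_right ?_ (by positivity)
  calc (4 : ℝ) = 2 ^ 2 := by norm_num
    _ ≤ 2 ^ D.m := pow_le_pow_right₀ (by norm_num) (by have := hD.m3; omega)

end Pool.Agent.Kin
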