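import Pool.Agent.Kin.JPsd

/-! KIN GOOD: consequences of `Γ ≤ 4 s0` (section A1, (G1)-(G7)). -/

open Matrix Finset

noncomputable section

namespace Pool.Agent.Kin

variable {ι P : Type} [Fintype ι] [DecidableEq ι] [Fintype P]

namespace Dat

variable (D : Dat ι P)

lemma good_s_pos (hD : D.Hyp) : 0 < D.s := mul_pos (pow_pos hD.lam0 2) hD.sg0

lemma et_pos (hD : D.Hyp) {r : ℝ} (h0 : 0 ≤ r) (h1 : r ≤ 1) : D.eta ≤ D.et r ∧ D.et r ≤ D.et 0 := by
  have hs := D.good_s_pos hD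
  have hg := hD.g0im
  have h2 : r ^ 2 ≤ 1 := by nlinarith
  have h3 : 0 ≤ r ^ 2 := sq_nonneg r
  have h4 : 0 ≤ D.s * D.g0.im := by positivity
  constructor
  · unfold et
    nlinarith [mul_nonneg h4 (sub_nonneg.2 h2)]
  · unfold et
    nlinarith [mul_nonneg h4 h3]

omit [Fintype ι] [DecidableEq ι] [Fintype P] in
lemma good_zr_im (r : ℝ) : (D.zr r).im = D.et r := by
  unfold zr et eta
  rw [Complex.add_im, Complex.im_ofReal_mul]

lemma good_et_pos (hD : D.Hyp) {r : ℝ} (h0 : 0 ≤ r) (h1 : r ≤ 1) : 0 < D.et r :=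
  lt_of_lt_of_le hD.eta0 (D.et_pos hD h0 h1).1

omit [Fintype ι] in
lemma good_wt_nonneg {et : ℝ} (h : 0 < et) (x y : ι) : 0 ≤ wt et x y := by
  unfold wt
  split_ifs <;> positivity

omit [Fintype ι] in
lemma good_one_le_wt {et : ℝ} (h : 0 < et) (x y : ι) : 1 ≤ wt et x y := by
  unfold wt
  have : 0 ≤ 1 / et := by positivity
  split_ifs
  · linarith
  · simp

lemma good_NN_nonneg {q : ℕ} {et : ℝ} (h : 0 < et) (f : Matrix ι ι ℂ) : 0 ≤ NN q et f := by
  unfold NN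
  exact sum_nonneg fun x _ => sum_nonneg fun y _ => mul_nonneg (good_wt_nonneg h x y) (by positivity)

lemma good_le_NN {q : ℕ} {et : ℝ} (h : 0 < et) (f : Matrix ι ι ℂ) (x y : ι) :
    ‖f x y‖ ^ (2 * q) ≤ NN q et f := by
  unfold NN
  have h1 : ∀ x ∈ univ, 0 ≤ ∑ y, wt et x y * ‖f x y‖ ^ (2 * q) := fun x _ =>
    sum_nonneg fun y _ => mul_nonneg (good_wt_nonneg h x y) (by positivity)
  have h2 : ∀ y ∈ univ, 0 ≤ wt et x y * ‖f x y‖ ^ (2 * q) := fun y _ =>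
    mul_nonneg (good_wt_nonneg h x y) (by positivity)
  calc ‖f x y‖ ^ (2 * q) ≤ wt et x y * ‖f x y‖ ^ (2 * q) :=
        le_mul_of_one_le_left (by positivity) (good_one_le_wt h x y)
    _ ≤ ∑ y, wt et x y * ‖f x y‖ ^ (2 * q) := single_le_sum h2 (mem_univ y)
    _ ≤ _ := single_le_sum h1 (mem_univ x)

lemma Gam1_nonneg (hD : D.Hyp) {r : ℝ} (hr : 0 < D.et r) (h : ι → ℝ) : 0 ≤ D.Gam1 r h := by
  unfold Gam1
  exact add_nonneg (mul_nonneg (by positivity) (good_NN_nonneg hr _))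
    (sum_nonneg fun p _ => good_NN_nonneg hr _)

lemma Phi2_nonneg (hD : D.Hyp) {r : ℝ} (hr : 0 < D.et r) (h : ι → ℝ) : 0 ≤ D.Phi2 r h :=
  trace_pow_nonneg (D.J_psd hD.sym hr h) D.m

/-- Ward for `G_r`. -/
lemma good_ward (hD : D.Hyp) {r : ℝ} (hr : 0 < D.et r) (h : ι → ℝ) (x : ι) :
    ∑ y, ‖D.G r h x y‖ ^ 2 = (D.G r h x x).im / D.et r := by
  have hz : 0 < (D.zr r).im := by rw [D.good_zr_im]; exact hr
  have := ward_row hD.sym hz h x
  rw [D.good_zr_im] at this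
  exact this

lemma good_symm (hD : D.Hyp) {r : ℝ} (hr : 0 < D.et r) (h : ι → ℝ) (x y : ι) :
    D.G r h x y = D.G r h y x := by
  have hz : 0 < (D.zr r).im := by rw [D.good_zr_im]; exact hr
  exact res_symm hD.sym hz h x y

lemma good_op (hD : D.Hyp) {r : ℝ} (hr : 0 < D.et r) (h : ι → ℝ) (u : ι → ℂ) :
    ∑ x, ‖(D.G r h *ᵥ u) x‖ ^ 2 ≤ (1 / D.et r) ^ 2 * ∑ x, ‖u x‖ ^ 2 := by
  have hz : 0 < (D.zr r).im := by rw [D.good_zr_im]; exact hr
  have := res_norm hD.sym hz h u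
  rw [D.good_zr_im] at this
  exact this

lemma good_opH (hD : D.Hyp) {r : ℝ} (hr : 0 < D.et r) (h : ι → ℝ) (u : ι → ℂ) :
    ∑ x, ‖((D.G r h)ᴴ *ᵥ u) x‖ ^ 2 ≤ (1 / D.et r) ^ 2 * ∑ x, ‖u x‖ ^ 2 := by
  have hz : 0 < (D.zr r).im := by rw [D.good_zr_im]; exact hr
  have := resH_norm hD.sym hz h u
  rw [D.good_zr_im] at this
  exact this

lemma good_row (hD : D.Hyp) {r : ℝ} (hr : 0 < D.et r) (h : ι → ℝ)
    (hG : ∀ x, ‖D.G r h x x‖ ≤ D.C1) (x : ι) : ∑ y, ‖D.G r h x y‖ ^ 2 ≤ D.C1 / D.et r := by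
  rw [D.good_ward hD hr]
  gcongr
  exact ((le_abs_self _).trans (Complex.abs_im_le_norm _)).trans (hG x)

omit [Fintype P] in
lemma good_F_apply (p : P) (r : ℝ) (h : ι → ℝ) (x y : ι) :
    D.F p r h x y = ∑ w, D.G r h x w * D.b p w * star (D.G r h y w) := by
  unfold F
  rw [Matrix.mul_apply]
  refine sum_congr rfl fun w _ => ?_
  rw [Matrix.mul_diagonal, conjTranspose_apply]

/-- rows and columns of `F`, general (no smallness needed except for the diagonal of `G`) -/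
lemma F_bounds (hD : D.Hyp) {r : ℝ} (hr : 0 < D.et r) (h : ι → ℝ) (p : P)
    (hG : ∀ x, ‖D.G r h x x‖ ≤ D.C1) : (∀ x y, ‖D.F p r h x y‖ ≤ D.C1 / D.et r) ∧
      (∀ x, ∑ y, ‖D.F p r h x y‖ ^ 2 ≤ D.C1 / D.et r ^ 3) ∧
      (∀ y, ∑ x, ‖D.F p r h x y‖ ^ 2 ≤ D.C1 / D.et r ^ 3) := by
  have hrow := D.good_row hD hr h hG
  have hC : 0 ≤ D.C1 := zero_le_one.trans hD.C10
  refine ⟨fun x y => ?_, fun x => ?_, fun y => ?_⟩
  · rw [good_F_apply]
    have h1 : ‖∑ w, D.G r h x w * D.b p w * star (D.G r h y w)‖ ≤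
        ∑ w, ‖D.G r h x w‖ * ‖D.G r h y w‖ := by
      refine (norm_sum_le _ _).trans (sum_le_sum fun w _ => ?_)
      rw [norm_mul, norm_mul, hD.uni, mul_one, norm_star]
    refine h1.trans ?_
    have h2 := sum_mul_sq_le_sq_mul_sq univ (fun w => ‖D.G r h x w‖) (fun w => ‖D.G r h y w‖)
    have h3 : (∑ w, ‖D.G r h x w‖ * ‖D.G r h y w‖) ^ 2 ≤ (D.C1 / D.et r) ^ 2 := by
      refine h2.trans ?_
      rw [sq (D.C1 / D.et r)]
      exact mul_le_mul (hrow x) (hrow y) (by positivity) (by positivity)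
    exact le_of_sq_le_sq h3 (by positivity)
  · have h1 : ∀ y, D.F p r h x y = star ((D.G r h *ᵥ fun w => star (D.b p w * D.G r h x w)) y) := by
      intro y
      rw [good_F_apply, mulVec, dotProduct, star_sum]
      refine sum_congr rfl fun w _ => ?_
      rw [star_mul', star_star]
      ring
    have h2 : ∑ y, ‖D.F p r h x y‖ ^ 2 ≤
        (1 / D.et r) ^ 2 * ∑ w, ‖star (D.b p w * D.G r h x w)‖ ^ 2 := by
      refine le_trans (le_of_eq ?_) (D.good_op hD hr h fun w => star (D.b p w * D.G r h x w))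
      exact sum_congr rfl fun y _ => by rw [h1 y, norm_star]
    have h3 : ∑ w, ‖star (D.b p w * D.G r h x w)‖ ^ 2 = ∑ w, ‖D.G r h x w‖ ^ 2 :=
      sum_congr rfl fun w _ => by rw [norm_star, norm_mul, hD.uni, one_mul]
    rw [h3] at h2
    refine h2.trans ((mul_le_mul_of_nonneg_left (hrow x) (by positivity)).trans (le_of_eq ?_))
    field_simp
  · have h1 : ∀ x, D.F p r h x y = (D.G r h *ᵥ fun w => D.b p w * star (D.G r h y w)) x := by
      intro x
      rw [good_F_apply, mulVec, dotProduct]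
      exact sum_congr rfl fun w _ => by ring
    have h2 : ∑ x, ‖D.F p r h x y‖ ^ 2 ≤
        (1 / D.et r) ^ 2 * ∑ w, ‖D.b p w * star (D.G r h y w)‖ ^ 2 := by
      refine le_trans (le_of_eq ?_) (D.good_op hD hr h fun w => D.b p w * star (D.G r h y w))
      exact sum_congr rfl fun x _ => by rw [h1 x]
    have h3 : ∑ w, ‖D.b p w * star (D.G r h y w)‖ ^ 2 = ∑ w, ‖D.G r h y w‖ ^ 2 :=
      sum_congr rfl fun w _ => by rw [norm_mul, hD.uni, one_mul, norm_star]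
    rw [h3] at h2
    refine h2.trans ((mul_le_mul_of_nonneg_left (hrow y) (by positivity)).trans (le_of_eq ?_))
    field_simp

lemma good_s0_pos (hD : D.Hyp) : 0 < D.s0 := by
  unfold s0
  have := hD.tau0
  positivity

lemma good_eps_pos (hD : D.Hyp) : 0 < D.eps := by
  unfold eps
  have := hD.KA0
  have := D.good_s0_pos hD
  positivity

lemma good_Fb_diag (hD : D.Hyp) (p : P) (r : ℝ) (w : ι) : ‖D.Fb p r w w‖ = |D.Fh p r| := by
  unfold Fb Fh
  rw [Matrix.smul_apply, hD.Sdiag, smul_eq_mul, norm_mul, norm_mul, hD.uni, mul_one,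
    Complex.norm_real, Complex.norm_real, Real.norm_eq_abs, Real.norm_eq_abs, div_eq_mul_inv,
    abs_mul, mul_comm]

theorem good_of (hD : D.Hyp) {r : ℝ} (h0 : 0 ≤ r) (h1 : r ≤ 1) (h : ι → ℝ)
    (hg : D.Gam r h ≤ 4 * D.s0) : D.Good r h := by
  have hr := D.good_et_pos hD h0 h1
  have hr0 : 0 < D.et 0 := D.good_et_pos hD le_rfl zero_le_one
  have ⟨he1, he2⟩ := D.et_pos hD h0 h1
  have hC : 0 ≤ D.C1 := zero_le_one.trans hD.C10
  have hP2 := D.Phi2_nonneg hD hr h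
  have heps := D.good_eps_pos hD
  have hs0 := D.good_s0_pos hD
  have htau := hD.tau0
  have hG1 : D.Gam1 r h ≤ D.tau ^ (2 * D.q) := by
    have : D.Gam1 r h + D.eps * D.Phi2 r h ≤ 4 * D.s0 := hg
    unfold s0 at this
    nlinarith [mul_nonneg heps.le hP2]
  have hcard : (1 : ℝ) ≤ Fintype.card P := by exact_mod_cast hD.cardP
  have hNX : NN D.q (D.et r) (D.X r h) ≤ D.tau ^ (2 * D.q) := by
    have h2 := good_NN_nonneg (q := D.q) hr (D.X r h)
    have h3 : 0 ≤ ∑ p, NN D.q (D.et r) (D.Z p r h) := sum_nonneg fun p _ => good_NN_nonneg hr _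
    unfold Gam1 at hG1
    nlinarith
  have hNZ : ∀ p, NN D.q (D.et r) (D.Z p r h) ≤ D.tau ^ (2 * D.q) := by
    intro p
    have h2 := good_NN_nonneg (q := D.q) hr (D.X r h)
    have h3 : NN D.q (D.et r) (D.Z p r h) ≤ ∑ p, NN D.q (D.et r) (D.Z p r h) :=
      single_le_sum (f := fun p => NN D.q (D.et r) (D.Z p r h))
        (fun p _ => good_NN_nonneg hr _) (mem_univ p)
    unfold Gam1 at hG1
    nlinarith
  have hq : 2 * D.q ≠ 0 := by have := hD.q2; omega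
  have hX : ∀ x y, ‖D.X r h x y‖ ≤ D.tau := fun x y =>
    le_of_pow_le_pow_left₀ hq htau.le ((good_le_NN hr _ x y).trans hNX)
  have hZ : ∀ p x y, ‖D.Z p r h x y‖ ≤ D.tau := fun p x y =>
    le_of_pow_le_pow_left₀ hq htau.le ((good_le_NN hr _ x y).trans (hNZ p))
  have hGM : ∀ x y, D.G r h x y = D.M x y + D.X r h x y := by
    intro x y
    simp [X]
  have hGd : ∀ x, ‖D.G r h x x‖ ≤ D.C1 := by
    intro x
    rw [hGM]
    have := norm_add_le (D.M x x) (D.X r h x x)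
    linarith [hX x x, hD.Mdiag x, hD.tau1]
  have hGb : ∀ x y, ‖D.G r h x y‖ ≤ D.Lam := by
    intro x y
    rw [hGM]
    have := norm_add_le (D.M x y) (D.X r h x y)
    linarith [hX x y, hD.hLam x y, hD.tau1]
  have hrow := D.good_row hD hr h hGd
  have hMrow : ∀ x, ∑ y, ‖D.M x y‖ ^ 2 ≤ D.C1 / D.et 0 :=
    D.good_row hD hr0 0 fun x => by
      have h2 : ‖D.G 0 0 x x‖ + 1 ≤ D.C1 := hD.Mdiag x
      linarith
  have hdiv : D.C1 / D.et 0 ≤ D.C1 / D.et r := div_le_div_of_nonneg_left hC hr he2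
  have hXrow : ∀ x, ∑ y, ‖D.X r h x y‖ ^ 2 ≤ 4 * D.C1 / D.et r := by
    intro x
    have h2 : ∀ y, ‖D.X r h x y‖ ^ 2 ≤ 2 * ‖D.G r h x y‖ ^ 2 + 2 * ‖D.M x y‖ ^ 2 := by
      intro y
      have h3 : ‖D.X r h x y‖ ≤ ‖D.G r h x y‖ + ‖D.M x y‖ := by
        have : D.X r h x y = D.G r h x y - D.M x y := by simp [X]
        rw [this]
        exact norm_sub_le _ _
      have h4 := norm_nonneg (D.X r h x y)
      nlinarith [sq_nonneg (‖D.G r h x y‖ - ‖D.M x y‖)]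
    calc ∑ y, ‖D.X r h x y‖ ^ 2 ≤ ∑ y, (2 * ‖D.G r h x y‖ ^ 2 + 2 * ‖D.M x y‖ ^ 2) :=
          sum_le_sum fun y _ => h2 y
      _ = 2 * ∑ y, ‖D.G r h x y‖ ^ 2 + 2 * ∑ y, ‖D.M x y‖ ^ 2 := by
          rw [sum_add_distrib, mul_sum, mul_sum]
      _ ≤ 2 * (D.C1 / D.et r) + 2 * (D.C1 / D.et r) := by
          linarith [hrow x, hMrow x]
      _ = 4 * D.C1 / D.et r := by ring
  have hG4 : ∀ x, ∑ y, ‖D.G r h x y‖ ^ 4 ≤ (8 + 32 * D.C1) / D.et r := by
    intro x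
    have h2 : ∀ y, ‖D.G r h x y‖ ^ 4 ≤ 8 * ‖D.M x y‖ ^ 4 + 8 * ‖D.X r h x y‖ ^ 2 := by
      intro y
      have h3 : ‖D.G r h x y‖ ≤ ‖D.M x y‖ + ‖D.X r h x y‖ := by
        rw [hGM]
        exact norm_add_le _ _
      have h5 := norm_nonneg (D.M x y)
      have h6 := norm_nonneg (D.X r h x y)
      have h7 : ‖D.G r h x y‖ ^ 4 ≤ (‖D.M x y‖ + ‖D.X r h x y‖) ^ 4 :=
        pow_le_pow_left₀ (norm_nonneg _) h3 4
      have h8 : (‖D.M x y‖ + ‖D.X r h x y‖) ^ 4 ≤ 8 * ‖D.M x y‖ ^ 4 + 8 * ‖D.X r h x y‖ ^ 4 := by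
        have := add_pow_le h5 h6 4
        norm_num at this
        linarith
      have h9 : ‖D.X r h x y‖ ^ 4 ≤ ‖D.X r h x y‖ ^ 2 :=
        pow_le_pow_of_le_one h6 ((hX x y).trans hD.tau1) (by norm_num)
      linarith
    have ha : D.a4 ≤ 1 / D.et r := by
      rw [le_div_iff₀ hr]
      have h2 := hD.ga4
      have ha0 : 0 ≤ D.a4 := le_trans (sum_nonneg fun y _ => by positivity) (hD.ha4 x)
      nlinarith
    calc ∑ y, ‖D.G r h x y‖ ^ 4 ≤ ∑ y, (8 * ‖D.M x y‖ ^ 4 + 8 * ‖D.X r h x y‖ ^ 2) :=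
          sum_le_sum fun y _ => h2 y
      _ = 8 * ∑ y, ‖D.M x y‖ ^ 4 + 8 * ∑ y, ‖D.X r h x y‖ ^ 2 := by
          rw [sum_add_distrib, mul_sum, mul_sum]
      _ ≤ 8 * (1 / D.et r) + 8 * (4 * D.C1 / D.et r) := by
          linarith [hD.ha4 x, hXrow x]
      _ = (8 + 32 * D.C1) / D.et r := by ring
  have hF : ∀ p x y, ‖D.F p r h x y‖ ≤ D.C1 / D.et r := fun p => (D.F_bounds hD hr h p hGd).1
  have hsq : ∀ S : ℝ, S ≤ D.C1 / D.et r ^ 3 → D.eta ^ 2 * S ≤ D.C1 / D.et r := by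
    intro S hS
    have h2 : D.eta ^ 2 ≤ D.et r ^ 2 := pow_le_pow_left₀ hD.eta0.le he1 2
    calc D.eta ^ 2 * S ≤ D.eta ^ 2 * (D.C1 / D.et r ^ 3) :=
          mul_le_mul_of_nonneg_left hS (by positivity)
      _ ≤ D.et r ^ 2 * (D.C1 / D.et r ^ 3) := mul_le_mul_of_nonneg_right h2 (by positivity)
      _ = D.C1 / D.et r := by field_simp
  refine ⟨hX, hZ, hGd, hGb, hrow, hXrow, hG4, hF, fun p x => ?_, fun p y => ?_, fun w => ?_, ?_⟩
  · have : ∑ y, (D.eta * ‖D.F p r h x y‖) ^ 2 = D.eta ^ 2 * ∑ y, ‖D.F p r h x y‖ ^ 2 := by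
      rw [mul_sum]
      exact sum_congr rfl fun y _ => by rw [mul_pow]
    rw [this]
    exact hsq _ ((D.F_bounds hD hr h p hGd).2.1 x)
  · have : ∑ x, (D.eta * ‖D.F p r h x y‖) ^ 2 = D.eta ^ 2 * ∑ x, ‖D.F p r h x y‖ ^ 2 := by
      rw [mul_sum]
      exact sum_congr rfl fun y _ => by rw [mul_pow]
    rw [this]
    exact hsq _ ((D.F_bounds hD hr h p hGd).2.2 y)
  · rw [phi_zero]
    have h2 : ∀ x, ‖D.av r h w x‖ ^ 2 ≤ ‖D.G r h w x‖ ^ 2 * (∑ p, D.be p * D.b p x).re := by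
      intro x
      unfold av
      split_ifs with hx
      · rw [D.good_symm hD hr h x w]
        exact le_mul_of_one_le_right (by positivity) (hD.bumpB x hx)
      · have h4 : 0 ≤ ‖D.G r h w x‖ ^ 2 * (∑ p, D.be p * D.b p x).re :=
          mul_nonneg (by positivity) (hD.bump0 x)
        simpa using h4
    have h3 : ∑ x, ‖D.G r h w x‖ ^ 2 * (∑ p, D.be p * D.b p x).re =
        (∑ p, D.be p * D.F p r h w w).re := by
      have h4 : ∀ x, ‖D.G r h w x‖ ^ 2 * (∑ p, D.be p * D.b p x).re =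
          (∑ p, D.be p * (D.G r h w x * D.b p x * star (D.G r h w x))).re := by
        intro x
        have h5 : ∑ p, D.be p * (D.G r h w x * D.b p x * star (D.G r h w x)) =
            ((‖D.G r h w x‖ ^ 2 : ℝ) : ℂ) * ∑ p, D.be p * D.b p x := by
          rw [mul_sum]
          refine sum_congr rfl fun p _ => ?_
          have h6 : ((‖D.G r h w x‖ ^ 2 : ℝ) : ℂ) = D.G r h w x * star (D.G r h w x) := by
            rw [Complex.star_def, Complex.mul_conj, Complex.normSq_eq_norm_sq]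
          rw [h6]
          ring
        rw [h5, Complex.re_ofReal_mul]
      simp_rw [h4]
      rw [← Complex.re_sum, sum_comm]
      congr 1
      refine sum_congr rfl fun p _ => ?_
      rw [good_F_apply, mul_sum]
    calc ∑ x, ‖D.av r h w x‖ ^ 2 ≤ ∑ x, ‖D.G r h w x‖ ^ 2 * (∑ p, D.be p * D.b p x).re :=
          sum_le_sum fun x _ => h2 x
      _ = (∑ p, D.be p * D.F p r h w w).re := h3
      _ ≤ ‖∑ p, D.be p * D.F p r h w w‖ := Complex.re_le_norm _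
      _ ≤ ∑ p, ‖D.be p‖ * ‖D.F p r h w w‖ :=
          (norm_sum_le _ _).trans (le_of_eq (sum_congr rfl fun p _ => norm_mul _ _))
      _ ≤ ∑ p, ‖D.be p‖ * (|D.Fh p r| + D.tau / D.eta) := by
          refine sum_le_sum fun p _ => mul_le_mul_of_nonneg_left ?_ (norm_nonneg _)
          have h4 : D.F p r h w w = D.Fb p r w w + ((D.eta : ℂ))⁻¹ * D.Z p r h w w := by
            have he : (D.eta : ℂ) ≠ 0 := by exact_mod_cast hD.eta0.ne'
            unfold Z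
            rw [Matrix.smul_apply, Matrix.sub_apply, smul_eq_mul, ← mul_assoc, inv_mul_cancel₀ he,
              one_mul]
            ring
          rw [h4]
          refine (norm_add_le _ _).trans ?_
          rw [D.good_Fb_diag hD, norm_mul, norm_inv, Complex.norm_real, Real.norm_eq_abs,
            abs_of_pos hD.eta0]
          have h5 := hZ p w w
          have h6 : (D.eta)⁻¹ * ‖D.Z p r h w w‖ ≤ D.tau / D.eta := by
            rw [div_eq_inv_mul]
            exact mul_le_mul_of_nonneg_left h5 (inv_nonneg.2 hD.eta0.le)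
          linarith
      _ ≤ D.kbar := hD.kbar0 r h0 h1
  · have h2 : D.eps * D.Phi2 r h ≤ 4 * D.s0 := by
      have h3 : D.Gam1 r h + D.eps * D.Phi2 r h ≤ 4 * D.s0 := hg
      linarith [D.Gam1_nonneg hD hr h]
    have hK : 0 < D.KA ^ D.m := pow_pos hD.KA0 _
    unfold eps at h2
    rw [div_mul_eq_mul_div, div_le_iff₀ hK] at h2
    nlinarith

end Dat

end Pool.Agent.Kin
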