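import Pool.Agent.Kin.H1a
import Pool.Agent.Kin.ThFun

/-! KIN H1: (H1), section A6. -/

open Matrix Finset

noncomputable section

namespace Pool.Agent.Kin

/-- The algebra of the product of the two error terms. -/
lemma h1_alg {c m lam s0 A B Q T EQ ET : ℝ} (hc : 0 < c) (hm : 0 < m) (hl : 0 < lam)
    (hl1 : lam ≤ 1) (hml : m * lam ≤ 1) (hs : 0 < s0) (hA : 0 ≤ A) (hB : 0 ≤ B) (hT : 0 ≤ T)
    (hEQ : 0 ≤ EQ) (hET : 0 ≤ ET) (hA2 : A ^ 2 ≤ 4 * s0 * Q) (hB2 : B ^ 2 ≤ 4 * s0 * EQ)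
    (hT1 : T ≤ s0) (hEQ1 : EQ ≤ 4 * s0) (hET1 : ET ≤ s0) :
    (c * (lam * A + lam ^ 2 * T) + m * (lam * B + lam ^ 2 * EQ + lam ^ 2 * ET)) *
      (c * A + m * B) ≤ s0 * ((6 * c ^ 2 + 6 * c) * (Q + T) +
        (9 * c + 5 * m + 4 * m ^ 2) * (EQ + ET)) := by
  have hQ : 0 ≤ Q := by
    by_contra hq
    push Not at hq
    have : 4 * s0 * Q < 0 := mul_neg_of_pos_of_neg (by linarith) hq
    nlinarith [sq_nonneg A]
  have hl2 : lam ^ 2 ≤ 1 := by nlinarith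
  have hl20 : 0 ≤ lam ^ 2 := sq_nonneg _
  have hmll : m * lam ^ 2 ≤ 1 := by
    have : m * lam ^ 2 = (m * lam) * lam := by ring
    rw [this]
    calc (m * lam) * lam ≤ 1 * 1 := mul_le_mul hml hl1 hl.le (by norm_num)
      _ = 1 := by norm_num
  have hE : 0 ≤ EQ + ET := add_nonneg hEQ hET
  have hE2 : (EQ + ET) ^ 2 ≤ 5 * s0 * (EQ + ET) := by
    have : EQ + ET ≤ 5 * s0 := by linarith
    nlinarith
  have hT2 : T ^ 2 ≤ s0 * T := by nlinarith
  have hAB : 2 * (A * B) ≤ A ^ 2 + B ^ 2 := by nlinarith [sq_nonneg (A - B)]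
  have hTA : 2 * (T * A) ≤ T ^ 2 + A ^ 2 := by nlinarith [sq_nonneg (T - A)]
  have hTB : 2 * (T * B) ≤ T ^ 2 + B ^ 2 := by nlinarith [sq_nonneg (T - B)]
  have hEA : 2 * ((EQ + ET) * A) ≤ (EQ + ET) ^ 2 + A ^ 2 := by
    nlinarith [sq_nonneg ((EQ + ET) - A)]
  have hEB : 2 * ((EQ + ET) * B) ≤ (EQ + ET) ^ 2 + B ^ 2 := by
    nlinarith [sq_nonneg ((EQ + ET) - B)]
  -- the seven terms
  have t1 : c ^ 2 * lam * A ^ 2 ≤ c ^ 2 * (4 * s0 * Q) := by
    have h1 : c ^ 2 * lam * A ^ 2 ≤ c ^ 2 * 1 * A ^ 2 := by gcongr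
    have h2 : c ^ 2 * A ^ 2 ≤ c ^ 2 * (4 * s0 * Q) := by gcongr
    linarith
  have t2 : 2 * c * m * lam * (A * B) ≤ c * (4 * s0 * Q + 4 * s0 * EQ) := by
    have h1 : 2 * c * m * lam * (A * B) = (m * lam) * (c * (2 * (A * B))) := by ring
    have h2 : (m * lam) * (c * (2 * (A * B))) ≤ 1 * (c * (2 * (A * B))) := by
      refine mul_le_mul_of_nonneg_right hml ?_
      positivity
    have h3 : c * (2 * (A * B)) ≤ c * (4 * s0 * Q + 4 * s0 * EQ) := by
      refine mul_le_mul_of_nonneg_left ?_ hc.le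
      linarith
    linarith
  have t3 : m ^ 2 * lam * B ^ 2 ≤ m ^ 2 * (4 * s0 * EQ) := by
    have h1 : m ^ 2 * lam * B ^ 2 ≤ m ^ 2 * 1 * B ^ 2 := by gcongr
    have h2 : m ^ 2 * B ^ 2 ≤ m ^ 2 * (4 * s0 * EQ) := by gcongr
    linarith
  have t4 : c ^ 2 * lam ^ 2 * (T * A) ≤ c ^ 2 * ((s0 * T + 4 * s0 * Q) / 2) := by
    have h1 : c ^ 2 * lam ^ 2 * (T * A) ≤ c ^ 2 * 1 * (T * A) := by gcongr
    have h2 : c ^ 2 * (T * A) ≤ c ^ 2 * ((s0 * T + 4 * s0 * Q) / 2) := by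
      refine mul_le_mul_of_nonneg_left ?_ (sq_nonneg _)
      linarith
    linarith
  have t5 : c * m * lam ^ 2 * (T * B) ≤ c * ((s0 * T + 4 * s0 * EQ) / 2) := by
    have h1 : c * m * lam ^ 2 * (T * B) = (m * lam ^ 2) * (c * (T * B)) := by ring
    have h2 : (m * lam ^ 2) * (c * (T * B)) ≤ 1 * (c * (T * B)) := by
      refine mul_le_mul_of_nonneg_right hmll ?_
      positivity
    have h3 : c * (T * B) ≤ c * ((s0 * T + 4 * s0 * EQ) / 2) := by
      refine mul_le_mul_of_nonneg_left ?_ hc.le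
      linarith
    linarith
  have t6 : m * c * lam ^ 2 * ((EQ + ET) * A) ≤ c * ((5 * s0 * (EQ + ET) + 4 * s0 * Q) / 2) := by
    have h1 : m * c * lam ^ 2 * ((EQ + ET) * A) = (m * lam ^ 2) * (c * ((EQ + ET) * A)) := by ring
    have h2 : (m * lam ^ 2) * (c * ((EQ + ET) * A)) ≤ 1 * (c * ((EQ + ET) * A)) := by
      refine mul_le_mul_of_nonneg_right hmll ?_
      positivity
    have h3 : c * ((EQ + ET) * A) ≤ c * ((5 * s0 * (EQ + ET) + 4 * s0 * Q) / 2) := by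
      refine mul_le_mul_of_nonneg_left ?_ hc.le
      linarith
    linarith
  have t7 : m ^ 2 * lam ^ 2 * ((EQ + ET) * B) ≤ m * ((5 * s0 * (EQ + ET) + 4 * s0 * EQ) / 2) := by
    have h1 : m ^ 2 * lam ^ 2 * ((EQ + ET) * B) = (m * lam ^ 2) * (m * ((EQ + ET) * B)) := by ring
    have h2 : (m * lam ^ 2) * (m * ((EQ + ET) * B)) ≤ 1 * (m * ((EQ + ET) * B)) := by
      refine mul_le_mul_of_nonneg_right hmll ?_
      positivity
    have h3 : m * ((EQ + ET) * B) ≤ m * ((5 * s0 * (EQ + ET) + 4 * s0 * EQ) / 2) := by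
      refine mul_le_mul_of_nonneg_left ?_ hm.le
      linarith
    linarith
  have e1 : (c * (lam * A + lam ^ 2 * T) + m * (lam * B + lam ^ 2 * EQ + lam ^ 2 * ET)) *
      (c * A + m * B) = c ^ 2 * lam * A ^ 2 + 2 * c * m * lam * (A * B) + m ^ 2 * lam * B ^ 2 +
        c ^ 2 * lam ^ 2 * (T * A) + c * m * lam ^ 2 * (T * B) +
        m * c * lam ^ 2 * ((EQ + ET) * A) + m ^ 2 * lam ^ 2 * ((EQ + ET) * B) := by ring
  rw [e1]
  have p1 : 0 ≤ c * s0 * T := by positivity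
  have p2 : 0 ≤ c ^ 2 * s0 * T := by positivity
  have p3 : 0 ≤ c * s0 * EQ := by positivity
  have p4 : 0 ≤ c * s0 * ET := by positivity
  have p5 : 0 ≤ m * s0 * EQ := by positivity
  have p6 : 0 ≤ m * s0 * ET := by positivity
  have p7 : 0 ≤ m ^ 2 * s0 * ET := by positivity
  have e2 : s0 * ((6 * c ^ 2 + 6 * c) * (Q + T) + (9 * c + 5 * m + 4 * m ^ 2) * (EQ + ET)) =
      6 * (c ^ 2 * s0 * Q) + 6 * (c * s0 * Q) + 6 * (c ^ 2 * s0 * T) + 6 * (c * s0 * T) +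
      9 * (c * s0 * EQ) + 5 * (m * s0 * EQ) + 4 * (m ^ 2 * s0 * EQ) +
      9 * (c * s0 * ET) + 5 * (m * s0 * ET) + 4 * (m ^ 2 * s0 * ET) := by ring
  rw [e2]
  have q7 : 0 ≤ c ^ 2 * s0 * Q := by positivity
  have q8 : 0 ≤ c * s0 * Q := by positivity
  linarith

namespace Dat

variable {ι P : Type} [Fintype ι] [DecidableEq ι] [Fintype P] (D : Dat ι P)

lemma h1_s0 (hD : D.Hyp) : 0 < D.s0 := by
  unfold s0
  have := hD.tau0
  positivity

lemma h1_eps (hD : D.Hyp) : 0 < D.eps := by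
  unfold eps
  have := hD.KA0
  have := D.h1_s0 hD
  positivity

lemma h1_et (hD : D.Hyp) {r : ℝ} (h0 : 0 ≤ r) (h1 : r ≤ 1) : 0 < D.et r :=
  lt_of_lt_of_le hD.eta0 (D.et_pos hD h0 h1).1

/-- The bounds for the error terms at a configuration with `Γ ≤ 4 s0`. -/
lemma h1_bounds (hD : D.Hyp) {r : ℝ} (h0 : 0 ≤ r) (h1 : r ≤ 1) (h : ι → ℝ) (w : ι)
    (hg : D.Gam r h ≤ 4 * D.s0) :
    D.L1 w r h ^ 2 ≤ 4 * D.s0 * D.Q1 w r h ∧
      (D.eps * D.L2 w r h) ^ 2 ≤ 4 * D.s0 * (D.eps * D.Q2 w r h) ∧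
      D.eps * D.Q2 w r h ≤ 4 * D.s0 ∧ D.T1 w r h ≤ D.tb1 ∧
      D.eps * D.T2 w r h ≤ D.eps * D.tb2 := by
  have hr := D.h1_et hD h0 h1
  have hgood := D.good_of hD h0 h1 h hg
  have hG1 := D.Gam1_nonneg hD hr h
  have hP := D.Phi2_nonneg hD hr h
  have he := D.h1_eps hD
  obtain ⟨q1, l1, t1, q2, l2, t2⟩ := D.parts_nonneg hD hr h w
  have hGam : D.Gam r h = D.Gam1 r h + D.eps * D.Phi2 r h := rfl
  have heP : 0 ≤ D.eps * D.Phi2 r h := mul_nonneg he.le hP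
  refine ⟨?_, ?_, D.epsQ2_le hD h0 h1 h hgood w, D.T1_le hD h0 h1 h hgood w, ?_⟩
  · refine (D.L1_sq_le hD hr h w).trans (mul_le_mul_of_nonneg_right ?_ q1)
    linarith
  · have h2 := D.L2_sq_le hD h0 h1 h w
    calc (D.eps * D.L2 w r h) ^ 2 = D.eps ^ 2 * D.L2 w r h ^ 2 := by ring
      _ ≤ D.eps ^ 2 * (D.Phi2 r h * D.Q2 w r h) := by gcongr
      _ = (D.eps * D.Phi2 r h) * (D.eps * D.Q2 w r h) := by ring
      _ ≤ (4 * D.s0) * (D.eps * D.Q2 w r h) := by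
          refine mul_le_mul_of_nonneg_right ?_ (mul_nonneg he.le q2)
          linarith
  · exact mul_le_mul_of_nonneg_left (D.T2_le hD h0 h1 h hgood w) he.le

end Dat

/-- `T₁`, `T₂` small, `λ` small: (H1). -/
theorem H1 (q : ℕ) (hq : 2 ≤ q) (bd C1 : ℝ) (hbd : 0 < bd) (hC1 : 1 ≤ C1) :
    ∃ Cq : ℝ, 0 < Cq ∧ ∀ m : ℕ, 3 ≤ m → ∃ Cm : ℝ, 0 < Cm ∧
    ∀ (ι P : Type) [Fintype ι] [DecidableEq ι] [Fintype P] (D : Dat ι P), D.Hyp → D.q = q →
      D.m = m → D.bd = bd → D.C1 = C1 → Cm * D.lam ≤ 1 → Cm * D.tb1 ≤ D.s0 →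
      Cm * (D.eps * D.tb2) ≤ D.s0 → ∀ r : ℝ, 0 ≤ r → r ≤ 1 → ∀ (h : ι → ℝ) (w : ι) (t : ℝ),
      |t - h w| ≤ 2 * bd * D.lam →
      th1 D.s0 (D.Gam r (Function.update h w t)) * D.Ga2 w r (Function.update h w t) ≤
        th1 D.s0 (D.Gam r h) * D.Dtot w r h +
          if D.Gam r h ≤ 4 * D.s0 then Cq * D.Qa w r h + Cm * (D.eps * D.Qb w r h) else 0 := by
  obtain ⟨c, hc, hparts⟩ := h1_parts q hq bd C1 hbd hC1
  refine ⟨6 * c + 4 * c ^ 2, by positivity, fun m hm => ?_⟩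
  obtain ⟨μ, hμ, hp⟩ := hparts m hm
  refine ⟨100 * (1 + c + μ + μ ^ 2), by positivity, ?_⟩
  intro ι P _ _ _ D hD hDq hDm hDb hDC hlam htb1 htb2 r h0 h1 h w t ht
  have hs := D.h1_s0 hD
  have he := D.h1_eps hD
  have hr := D.h1_et hD h0 h1
  have hl := hD.lam0
  have hl1 := hD.lam1
  have hCl : 0 < 100 * (1 + c + μ + μ ^ 2) := by positivity
  set K : ℝ := 100 * (1 + c + μ + μ ^ 2) with hK
  have hμ2 : 0 < μ ^ 2 := by positivity
  -- consequences for the size of `lam`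
  have hl100 : 100 * D.lam ≤ 1 := by
    nlinarith
  have hcl : 100 * (c * D.lam) ≤ 1 := by nlinarith
  have hμl : 100 * (μ * D.lam) ≤ 1 := by nlinarith
  have hμl1 : μ * D.lam ≤ 1 := by linarith
  set h' : ι → ℝ := Function.update h w t with hh'
  have hGam' : ∀ k : ι → ℝ, D.Gam r k = D.Gam1 r k + D.eps * D.Phi2 r k := fun _ => rfl
  have hGn : ∀ k : ι → ℝ, 0 ≤ D.Gam r k := fun k =>
    add_nonneg (D.Gam1_nonneg hD hr k) (mul_nonneg he.le (D.Phi2_nonneg hD hr k))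
  by_cases hg : D.Gam r h ≤ 4 * D.s0
  · -- `h` is good
    rw [if_pos hg]
    have hgood := D.good_of hD h0 h1 h hg
    obtain ⟨b1, b2, b3, b4, b5⟩ := D.h1_bounds hD h0 h1 h w hg
    obtain ⟨n1, n2, n3, n4, n5, n6⟩ := D.parts_nonneg hD hr h w
    obtain ⟨p1, p2, p3, p4, p5, _⟩ := hp ι P D hD hDq hDm hDb hDC r h0 h1 h w t ht hgood
    have m4 : 0 ≤ D.eps * D.Q2 w r h := mul_nonneg he.le n4
    have m5 : 0 ≤ D.eps * D.L2 w r h := mul_nonneg he.le n5
    have m6 : 0 ≤ D.eps * D.T2 w r h := mul_nonneg he.le n6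
    have hT1 : D.T1 w r h ≤ D.s0 := by
      have : 0 ≤ D.tb1 := n3.trans b4
      nlinarith
    have hT2 : D.eps * D.T2 w r h ≤ D.s0 := by
      have : 0 ≤ D.eps * D.tb2 := m6.trans b5
      nlinarith
    have hdiff : |D.Gam r h' - D.Gam r h| ≤
        c * (D.lam * D.L1 w r h + D.lam ^ 2 * D.T1 w r h) +
        μ * (D.lam * (D.eps * D.L2 w r h) + D.lam ^ 2 * (D.eps * D.Q2 w r h) +
          D.lam ^ 2 * (D.eps * D.T2 w r h)) := by
      have e1 : D.Gam r h' - D.Gam r h = (D.Gam1 r h' - D.Gam1 r h) +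
          (D.eps * D.Phi2 r h' - D.eps * D.Phi2 r h) := by
        rw [hGam', hGam']
        ring
      rw [e1]
      refine (abs_add_le _ _).trans ?_
      have e2 : μ * (D.eps * (D.lam * D.L2 w r h + D.lam ^ 2 * D.Q2 w r h +
          D.lam ^ 2 * D.T2 w r h)) = μ * (D.lam * (D.eps * D.L2 w r h) +
          D.lam ^ 2 * (D.eps * D.Q2 w r h) + D.lam ^ 2 * (D.eps * D.T2 w r h)) := by ring
      rw [← e2]
      exact add_le_add p2 p3
    have hD1 : |D.Dtot w r h| ≤ c * D.L1 w r h + μ * (D.eps * D.L2 w r h) := p1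
    have halg := h1_alg hc hμ hl hl1 hμl1 hs n2 m5 n3 m4 m6 b1 b2 hT1 b3 hT2
    have hprod : |D.Gam r h' - D.Gam r h| * |D.Dtot w r h| ≤ D.s0 *
        ((6 * c ^ 2 + 6 * c) * (D.Q1 w r h + D.T1 w r h) +
          (9 * c + 5 * μ + 4 * μ ^ 2) * (D.eps * D.Q2 w r h + D.eps * D.T2 w r h)) :=
      (mul_le_mul hdiff hD1 (abs_nonneg _) ((abs_nonneg _).trans hdiff)).trans halg
    have th := th1_mem D.s0 hs (D.Gam r h') (hGn h')
    have hlip := th1_lip D.s0 hs (D.Gam r h') (D.Gam r h) (hGn h') (hGn h)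
    -- the three terms
    have k1 : th1 D.s0 (D.Gam r h') * (D.Ga2 w r h' - D.Dtot w r h') ≤
        c * (D.Q1 w r h + D.T1 w r h) + μ * (D.eps * (D.Q2 w r h + D.T2 w r h)) := by
      have hn : 0 ≤ c * (D.Q1 w r h + D.T1 w r h) + μ * (D.eps * (D.Q2 w r h + D.T2 w r h)) := by
        positivity
      calc th1 D.s0 (D.Gam r h') * (D.Ga2 w r h' - D.Dtot w r h') ≤
          th1 D.s0 (D.Gam r h') * (c * (D.Q1 w r h + D.T1 w r h) +
            μ * (D.eps * (D.Q2 w r h + D.T2 w r h))) := mul_le_mul_of_nonneg_left p4 th.1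
        _ ≤ 1 * (c * (D.Q1 w r h + D.T1 w r h) + μ * (D.eps * (D.Q2 w r h + D.T2 w r h))) :=
            mul_le_mul_of_nonneg_right th.2 hn
        _ = _ := one_mul _
    have k2 : th1 D.s0 (D.Gam r h') * (D.Dtot w r h' - D.Dtot w r h) ≤
        c * (D.lam * D.L1 w r h + D.Q1 w r h + D.T1 w r h) +
        μ * (D.lam * (D.eps * D.L2 w r h) + D.eps * D.Q2 w r h + D.eps * D.T2 w r h) := by
      have e3 : th1 D.s0 (D.Gam r h') * (D.Dtot w r h' - D.Dtot w r h) ≤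
          1 * |D.Dtot w r h' - D.Dtot w r h| := by
        refine (mul_le_mul_of_nonneg_left (le_abs_self _) th.1).trans ?_
        exact mul_le_mul_of_nonneg_right th.2 (abs_nonneg _)
      rw [one_mul] at e3
      refine e3.trans (p5.trans ?_)
      have f1 : D.lam * D.Q1 w r h ≤ D.Q1 w r h := mul_le_of_le_one_left n1 hl1
      have f2 : D.lam * D.T1 w r h ≤ D.T1 w r h := mul_le_of_le_one_left n3 hl1
      have f3 : D.lam * (D.eps * D.Q2 w r h) ≤ D.eps * D.Q2 w r h := mul_le_of_le_one_left m4 hl1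
      have f4 : D.lam * (D.eps * D.T2 w r h) ≤ D.eps * D.T2 w r h := mul_le_of_le_one_left m6 hl1
      have g1 : c * (D.lam * D.L1 w r h + D.lam * D.Q1 w r h + D.lam * D.T1 w r h) ≤
          c * (D.lam * D.L1 w r h + D.Q1 w r h + D.T1 w r h) :=
        mul_le_mul_of_nonneg_left (by linarith) hc.le
      have g2 : μ * (D.eps * (D.lam * D.L2 w r h + D.lam * D.Q2 w r h + D.lam * D.T2 w r h)) ≤
          μ * (D.lam * (D.eps * D.L2 w r h) + D.eps * D.Q2 w r h + D.eps * D.T2 w r h) := by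
        refine mul_le_mul_of_nonneg_left ?_ hμ.le
        have e4 : D.eps * (D.lam * D.L2 w r h + D.lam * D.Q2 w r h + D.lam * D.T2 w r h) =
            D.lam * (D.eps * D.L2 w r h) + D.lam * (D.eps * D.Q2 w r h) +
              D.lam * (D.eps * D.T2 w r h) := by ring
        rw [e4]
        linarith
      exact add_le_add g1 g2
    have k3 : (th1 D.s0 (D.Gam r h') - th1 D.s0 (D.Gam r h)) * D.Dtot w r h ≤
        2 / 3 * ((6 * c ^ 2 + 6 * c) * (D.Q1 w r h + D.T1 w r h) +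
          (9 * c + 5 * μ + 4 * μ ^ 2) * (D.eps * D.Q2 w r h + D.eps * D.T2 w r h)) := by
      calc (th1 D.s0 (D.Gam r h') - th1 D.s0 (D.Gam r h)) * D.Dtot w r h ≤
          |th1 D.s0 (D.Gam r h') - th1 D.s0 (D.Gam r h)| * |D.Dtot w r h| := by
            rw [← abs_mul]
            exact le_abs_self _
        _ ≤ (2 / (3 * D.s0) * |D.Gam r h' - D.Gam r h|) * |D.Dtot w r h| :=
            mul_le_mul_of_nonneg_right hlip (abs_nonneg _)
        _ = 2 / (3 * D.s0) * (|D.Gam r h' - D.Gam r h| * |D.Dtot w r h|) := by ring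
        _ ≤ 2 / (3 * D.s0) * (D.s0 * ((6 * c ^ 2 + 6 * c) * (D.Q1 w r h + D.T1 w r h) +
          (9 * c + 5 * μ + 4 * μ ^ 2) * (D.eps * D.Q2 w r h + D.eps * D.T2 w r h))) :=
            mul_le_mul_of_nonneg_left hprod (by positivity)
        _ = _ := by
            field_simp
    have e5 : th1 D.s0 (D.Gam r h') * D.Ga2 w r h' = th1 D.s0 (D.Gam r h) * D.Dtot w r h +
        (th1 D.s0 (D.Gam r h') * (D.Ga2 w r h' - D.Dtot w r h') +
        th1 D.s0 (D.Gam r h') * (D.Dtot w r h' - D.Dtot w r h) +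
        (th1 D.s0 (D.Gam r h') - th1 D.s0 (D.Gam r h)) * D.Dtot w r h) := by ring
    rw [e5]
    refine add_le_add le_rfl ?_
    have eQa : D.Qa w r h = D.Q1 w r h + D.lam * D.L1 w r h + D.T1 w r h := rfl
    have eQb : D.eps * D.Qb w r h = D.eps * D.Q2 w r h + D.lam * (D.eps * D.L2 w r h) +
        D.eps * D.T2 w r h := by
      show D.eps * (D.Q2 w r h + D.lam * D.L2 w r h + D.T2 w r h) = _
      ring
    rw [eQa, eQb]
    have hLn : 0 ≤ D.lam * D.L1 w r h := mul_nonneg hl.le n2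
    have hLn2 : 0 ≤ D.lam * (D.eps * D.L2 w r h) := mul_nonneg hl.le m5
    have r1 : 0 ≤ c * (D.lam * D.L1 w r h) := mul_nonneg hc.le hLn
    have r2 : 0 ≤ c ^ 2 * (D.lam * D.L1 w r h) := mul_nonneg (sq_nonneg _) hLn
    have s1 : 0 ≤ c * (D.lam * (D.eps * D.L2 w r h)) := mul_nonneg hc.le hLn2
    have s2 : 0 ≤ μ * (D.lam * (D.eps * D.L2 w r h)) := mul_nonneg hμ.le hLn2
    have s3 : 0 ≤ μ ^ 2 * (D.lam * (D.eps * D.L2 w r h)) := mul_nonneg (sq_nonneg _) hLn2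
    have u1 : 0 ≤ c * (D.eps * D.Q2 w r h) := mul_nonneg hc.le m4
    have u2 : 0 ≤ μ * (D.eps * D.Q2 w r h) := mul_nonneg hμ.le m4
    have u3 : 0 ≤ μ ^ 2 * (D.eps * D.Q2 w r h) := mul_nonneg (sq_nonneg _) m4
    have v1 : 0 ≤ c * (D.eps * D.T2 w r h) := mul_nonneg hc.le m6
    have v2 : 0 ≤ μ * (D.eps * D.T2 w r h) := mul_nonneg hμ.le m6
    have v3 : 0 ≤ μ ^ 2 * (D.eps * D.T2 w r h) := mul_nonneg (sq_nonneg _) m6
    rw [hK]
    linarith [k1, k2, k3]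
  · -- `h` is bad: both cutoffs vanish
    rw [if_neg hg]
    push Not at hg
    have hth : th1 D.s0 (D.Gam r h) = 0 := th1_zero D.s0 hs _ (by linarith)
    rw [hth]
    have hg' : 3 * D.s0 ≤ D.Gam r h' := by
      by_contra hlt
      push Not at hlt
      have hg4 : D.Gam r h' ≤ 4 * D.s0 := by linarith
      have hgood := D.good_of hD h0 h1 h' hg4
      obtain ⟨b1, b2, b3, b4, b5⟩ := D.h1_bounds hD h0 h1 h' w hg4
      obtain ⟨n1, n2, n3, n4, n5, n6⟩ := D.parts_nonneg hD hr h' w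
      have hback : Function.update h' w (h w) = h := by
        rw [hh', Function.update_idem, Function.update_eq_self]
      have hw' : h' w = t := by rw [hh', Function.update_self]
      obtain ⟨_, _, p3, _, _, p6⟩ := hp ι P D hD hDq hDm hDb hDC r h0 h1 h' w (h w)
        (by rw [hw', abs_sub_comm]; exact ht) hgood
      simp only [hback] at p3 p6
      have m4 : 0 ≤ D.eps * D.Q2 w r h' := mul_nonneg he.le n4
      have m5 : 0 ≤ D.eps * D.L2 w r h' := mul_nonneg he.le n5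
      have m6 : 0 ≤ D.eps * D.T2 w r h' := mul_nonneg he.le n6
      have htb1n : 0 ≤ D.tb1 := n3.trans b4
      have htb2n : 0 ≤ D.eps * D.tb2 := m6.trans b5
      have hL2 : D.eps * D.L2 w r h' ≤ 4 * D.s0 := by
        refine abs_le_of_sq_le_sq' ?_ (by linarith) |>.2
        calc (D.eps * D.L2 w r h') ^ 2 ≤ 4 * D.s0 * (D.eps * D.Q2 w r h') := b2
          _ ≤ 4 * D.s0 * (4 * D.s0) := mul_le_mul_of_nonneg_left b3 (by linarith)
          _ = (4 * D.s0) ^ 2 := by ring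
      have hl2 : D.lam ^ 2 ≤ D.lam := by nlinarith
      have hl21 : D.lam ^ 2 ≤ 1 := by linarith
      -- `Γ₁`
      have q1 : c * (D.lam ^ 2 * D.T1 w r h') ≤ D.s0 / 100 := by
        have x1 : D.lam ^ 2 * D.T1 w r h' ≤ 1 * D.tb1 :=
          mul_le_mul hl21 b4 n3 (by norm_num)
        have x2 : c * (D.lam ^ 2 * D.T1 w r h') ≤ c * (1 * D.tb1) :=
          mul_le_mul_of_nonneg_left x1 hc.le
        have x3 : 100 * (c * D.tb1) ≤ K * D.tb1 := by
          rw [hK]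
          nlinarith [mul_nonneg hμ.le htb1n, mul_nonneg hμ2.le htb1n]
        linarith
      have hPP : D.eps * D.Phi2 r h - D.eps * D.Phi2 r h' ≤ D.s0 / 4 := by
        have x0 := (le_abs_self _).trans p3
        have x1 : D.eps * (D.lam * D.L2 w r h' + D.lam ^ 2 * D.Q2 w r h' +
            D.lam ^ 2 * D.T2 w r h') = D.lam * (D.eps * D.L2 w r h') +
            D.lam ^ 2 * (D.eps * D.Q2 w r h') + D.lam ^ 2 * (D.eps * D.T2 w r h') := by ring
        rw [x1] at x0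
        have x2 : D.lam * (D.eps * D.L2 w r h') ≤ D.lam * (4 * D.s0) :=
          mul_le_mul_of_nonneg_left hL2 hl.le
        have x3 : D.lam ^ 2 * (D.eps * D.Q2 w r h') ≤ D.lam * (4 * D.s0) :=
          mul_le_mul hl2 b3 m4 hl.le
        have x4 : D.lam ^ 2 * (D.eps * D.T2 w r h') ≤ 1 * (D.eps * D.tb2) :=
          mul_le_mul hl21 b5 m6 (by norm_num)
        have x5 : 100 * (μ * (D.eps * D.tb2)) ≤ K * (D.eps * D.tb2) := by
          rw [hK]
          nlinarith [mul_nonneg hc.le htb2n, mul_nonneg hμ2.le htb2n]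
        have x6 : μ * (D.lam * (D.eps * D.L2 w r h') + D.lam ^ 2 * (D.eps * D.Q2 w r h') +
            D.lam ^ 2 * (D.eps * D.T2 w r h')) ≤
            μ * (D.lam * (4 * D.s0) + D.lam * (4 * D.s0) + 1 * (D.eps * D.tb2)) :=
          mul_le_mul_of_nonneg_left (by linarith) hμ.le
        have x7 : μ * (D.lam * (4 * D.s0) + D.lam * (4 * D.s0) + 1 * (D.eps * D.tb2)) =
            8 * ((μ * D.lam) * D.s0) + μ * (D.eps * D.tb2) := by ring
        have x8 : 100 * ((μ * D.lam) * D.s0) ≤ 1 * D.s0 := by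
          have := mul_le_mul_of_nonneg_right hμl hs.le
          linarith
        linarith
      have y1 := hGam' h
      have y2 := hGam' h'
      have y3 := D.Gam1_nonneg hD hr h'
      have y4 : 0 ≤ D.eps * D.Phi2 r h' := mul_nonneg he.le (D.Phi2_nonneg hD hr h')
      linarith
    have hth' : th1 D.s0 (D.Gam r h') = 0 := th1_zero D.s0 hs _ hg'
    rw [hth']
    simp

end Pool.Agent.Kin
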