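import Pool.Agent.Kin.JWord

/-! KIN JCMP: comparison of `Tr J^m` under the replacement of one variable (section A5, (b)-(e)).
`a` is the old vector, `k1 • a` the new one, `J' = J - Im(c a aᵀ)` the new matrix. -/

open Matrix Finset

noncomputable section

namespace Pool.Agent.Kin

section
variable {ι : Type} [Fintype ι] [DecidableEq ι]

lemma jcmp_bil_symm (W : Matrix ι ι ℝ) (u v : ι → ℂ) : bil W u v = bil Wᵀ v u := by
  unfold bil
  rw [Finset.sum_comm]
  refine Finset.sum_congr rfl fun x _ => Finset.sum_congr rfl fun y _ => ?_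
  rw [Matrix.transpose_apply]
  ring

lemma jcmp_imr_symm (c : ℂ) (a : ι → ℂ) : (imr c a)ᵀ = imr c a := by
  ext x y
  simp only [Matrix.transpose_apply, imr]
  congr 1
  ring

lemma jcmp_psd_symm {J : Matrix ι ι ℝ} (hJ : J.PosSemidef) : Jᵀ = J := by
  have := hJ.isHermitian
  rwa [Matrix.IsHermitian, Matrix.conjTranspose_eq_transpose_of_trivial] at this

lemma jcmp_smul_bil (W : Matrix ι ι ℝ) (k : ℂ) (a : ι → ℂ) :
    bil W (fun x => k * a x) (fun x => k * a x) = k ^ 2 * bil W a a := by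
  unfold bil
  rw [Finset.mul_sum]
  refine Finset.sum_congr rfl fun x _ => ?_
  rw [Finset.mul_sum]
  refine Finset.sum_congr rfl fun y _ => ?_
  ring

lemma jcmp_imr_smul (k : ℂ) (a : ι → ℂ) : imr 1 (fun x => k * a x) = imr (k ^ 2) a := by
  ext x y
  simp only [imr]
  congr 1
  ring

/-- `φ₀² (x + e)^(m-2) ≤ C (Q₂ + T₂)` -/
lemma jcmp_S {p x bd lam cn : ℝ} {m : ℕ} (hp : 0 ≤ p) (hx : 0 ≤ x) (hc : 0 ≤ cn)
    (hbd : 0 < bd) (hlam : 0 < lam) (hcn : cn ≤ 4 * bd * lam) :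
    p ^ 2 * (x + cn * p) ^ (m - 2) ≤ (2 ^ (m - 2) * (1 + (4 * bd) ^ (m - 2))) *
      (p * (p * x ^ (m - 2)) + p ^ 2 * (lam * p) ^ (m - 2)) := by
  set n := m - 2
  have h1 : x + cn * p ≤ x + 4 * bd * (lam * p) := by nlinarith
  have h2 : (x + cn * p) ^ n ≤ (x + 4 * bd * (lam * p)) ^ n :=
    pow_le_pow_left₀ (by positivity) h1 n
  have h3 : (x + 4 * bd * (lam * p)) ^ n ≤ 2 ^ n * (x ^ n + (4 * bd * (lam * p)) ^ n) := by
    have h5 : x + 4 * bd * (lam * p) ≤ 2 * max x (4 * bd * (lam * p)) := by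
      have := le_max_left x (4 * bd * (lam * p))
      have := le_max_right x (4 * bd * (lam * p))
      linarith
    have h6 : (max x (4 * bd * (lam * p))) ^ n ≤ x ^ n + (4 * bd * (lam * p)) ^ n := by
      rcases max_cases x (4 * bd * (lam * p)) with ⟨h, -⟩ | ⟨h, -⟩ <;> rw [h]
      · have : 0 ≤ (4 * bd * (lam * p)) ^ n := by positivity
        linarith
      · have : 0 ≤ x ^ n := by positivity
        linarith
    calc (x + 4 * bd * (lam * p)) ^ n ≤ (2 * max x (4 * bd * (lam * p))) ^ n :=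
          pow_le_pow_left₀ (by positivity) h5 n
      _ = 2 ^ n * (max x (4 * bd * (lam * p))) ^ n := by rw [mul_pow]
      _ ≤ _ := mul_le_mul_of_nonneg_left h6 (by positivity)
  have h4 : (4 * bd * (lam * p)) ^ n = (4 * bd) ^ n * (lam * p) ^ n := by rw [mul_pow]
  rw [h4] at h3
  have h7 : p ^ 2 * (x + cn * p) ^ n ≤ p ^ 2 * (2 ^ n * (x ^ n + (4 * bd) ^ n * (lam * p) ^ n)) :=
    mul_le_mul_of_nonneg_left (h2.trans h3) (by positivity)
  refine h7.trans ?_
  have g1 : 0 ≤ p ^ 2 * (2 ^ n * x ^ n) := by positivity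
  have g2 : 0 ≤ p ^ 2 * (2 ^ n * (lam * p) ^ n) := by positivity
  have g3 : 0 ≤ (4 * bd) ^ n := by positivity
  have g4 := mul_nonneg g3 g1
  have e : (2 ^ n * (1 + (4 * bd) ^ n)) * (p * (p * x ^ n) + p ^ 2 * (lam * p) ^ n) =
      p ^ 2 * (2 ^ n * (x ^ n + (4 * bd) ^ n * (lam * p) ^ n)) + p ^ 2 * (2 ^ n * (lam * p) ^ n) +
        (4 * bd) ^ n * (p ^ 2 * (2 ^ n * x ^ n)) := by ring
  rw [e]
  linarith

end

theorem jcmp (m : ℕ) (hm : 3 ≤ m) (bd C1 C0 : ℝ) (hbd : 0 < bd) (hC1 : 1 ≤ C1) (hC0 : 0 ≤ C0) :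
    ∃ C : ℝ, 0 < C ∧
    ∀ (ι : Type) [Fintype ι] [DecidableEq ι] (J : Matrix ι ι ℝ) (a : ι → ℂ) (c k1 gw : ℂ)
      (lam : ℝ), J.PosSemidef → (J - imr c a).PosSemidef → 0 < lam → lam ≤ 1 →
      ‖c‖ ≤ 4 * bd * lam → ‖k1‖ ≤ 2 → ‖k1 ^ 3 - 1‖ ≤ C0 * lam → ‖gw‖ ≤ C1 →
      let Q2 := phi J a 0 * phi J a (m - 2)
      let L2 := phi J a (m - 1)
      let T2 := phi J a 0 ^ 2 * (lam * phi J a 0) ^ (m - 2)
      let D2 := 2 * m * (gw * bil (J ^ (m - 1)) a a).im
      let D2' := 2 * m * (k1 * gw * bil ((J - imr c a) ^ (m - 1)) (fun x => k1 * a x)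
        (fun x => k1 * a x)).im
      let QV2' := m * ∑ i ∈ range (m - 1), ((J - imr c a) ^ i * imr 1 (fun x => k1 * a x) *
        ((J - imr c a) ^ (m - 2 - i) * imr 1 (fun x => k1 * a x))).trace
      |D2| ≤ C * L2 ∧
      |((J - imr c a) ^ m).trace - (J ^ m).trace| ≤
        C * (lam * L2 + lam ^ 2 * Q2 + lam ^ 2 * T2) ∧
      QV2' ≤ C * (Q2 + T2) ∧
      |D2' - D2| ≤ C * (lam * L2 + lam * Q2 + lam * T2) := by
  -- constants
  set CS : ℝ := 2 ^ (m - 2) * (1 + (4 * bd) ^ (m - 2)) with hCS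
  have hCS0 : 0 ≤ CS := by positivity
  have hm0 : (3 : ℝ) ≤ m := by exact_mod_cast hm
  set K1 : ℝ := 2 * m * C1 with hK1
  set K2 : ℝ := m * (4 * bd) * (1 + m * (4 * bd) * CS) with hK2
  set K3 : ℝ := m * (m * 16 * CS) with hK3
  set K4 : ℝ := 2 * m * C1 * (C0 * (1 + m * (4 * bd) * CS) + m * (4 * bd) * CS) with hK4
  have hK10 : 0 ≤ K1 := by positivity
  have hK20 : 0 ≤ K2 := by positivity
  have hK30 : 0 ≤ K3 := by positivity
  have hK40 : 0 ≤ K4 := by positivity
  refine ⟨K1 + K2 + K3 + K4 + 1, by positivity, ?_⟩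
  intro ι _ _ J a c k1 gw lam hJ hJ' hlam hlam1 hc hk1 hk3 hgw Q2 L2 T2 D2 D2' QV2'
  have hp := phi_nonneg hJ a 0
  have hQ2 : 0 ≤ Q2 := mul_nonneg hp (phi_nonneg hJ a _)
  have hL2 : 0 ≤ L2 := phi_nonneg hJ a _
  have hT2 : 0 ≤ T2 := by positivity
  obtain ⟨x, hx, hx1, hx2⟩ := exists_mom hJ a (m - 2) (by omega)
  set e : ℝ := ‖c‖ * phi J a 0 with he
  have he0 : 0 ≤ e := by positivity
  set S : ℝ := phi J a 0 ^ 2 * (x + e) ^ (m - 2) with hSdef
  have hS0 : 0 ≤ S := by positivity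
  have hS : S ≤ CS * (Q2 + T2) := by
    have := jcmp_S (m := m) hp hx (norm_nonneg c) hbd hlam hc
    rw [← hx1] at this
    exact this
  have hsJ := jcmp_psd_symm hJ
  have hsJ' := jcmp_psd_symm hJ'
  -- words of length `m - 1`
  have wd : ∀ i j, i + j = m - 1 → ∀ u v : ι → ℂ, (u = a ∨ u = fun x => star (a x)) →
      (v = a ∨ v = fun x => star (a x)) →
      ‖bil (J ^ i * (J - imr c a) ^ j - J ^ (m - 1)) u v‖ ≤ (m - 1) * ‖c‖ * S := by
    intro i j hij u v hu hv
    refine (word_diff_le hJ a m hm c x hx hx2 i j hij u v hu hv).trans (le_of_eq ?_)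
    rw [hSdef]
    ring
  have wl : ∀ i j, i + j = m - 1 → ‖bil (J ^ i * (J - imr c a) ^ j) a a‖ ≤
      L2 + (m - 1) * ‖c‖ * S := by
    intro i j hij
    have h1 := wd i j hij a a (Or.inl rfl) (Or.inl rfl)
    rw [bil_sub] at h1
    have h2 := bil_le hJ a (m - 1) a a (Or.inl rfl) (Or.inl rfl)
    have h3 := norm_sub_norm_le (bil (J ^ i * (J - imr c a) ^ j) a a) (bil (J ^ (m - 1)) a a)
    linarith
  have hcS : ((m : ℝ) - 1) * ‖c‖ * S ≤ m * (4 * bd) * CS * (lam * (Q2 + T2)) := by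
    have h1 : ((m : ℝ) - 1) * ‖c‖ ≤ m * (4 * bd * lam) :=
      mul_le_mul (by linarith) hc (norm_nonneg _) (by positivity)
    calc ((m : ℝ) - 1) * ‖c‖ * S ≤ (m * (4 * bd * lam)) * (CS * (Q2 + T2)) :=
          mul_le_mul h1 hS hS0 (by positivity)
      _ = _ := by ring
  have hcS0 : 0 ≤ ((m : ℝ) - 1) * ‖c‖ * S := by
    have : 0 ≤ (m : ℝ) - 1 := by linarith
    positivity
  refine ⟨?_, ?_, ?_, ?_⟩
  · -- (b)
    have h2 := bil_le hJ a (m - 1) a a (Or.inl rfl) (Or.inl rfl)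
    have h3 : |(gw * bil (J ^ (m - 1)) a a).im| ≤ C1 * L2 := by
      refine (Complex.abs_im_le_norm _).trans ?_
      rw [norm_mul]
      exact mul_le_mul hgw h2 (norm_nonneg _) (by linarith)
    have h4 : |D2| ≤ K1 * L2 := by
      show |2 * (m : ℝ) * (gw * bil (J ^ (m - 1)) a a).im| ≤ _
      rw [abs_mul, abs_of_nonneg (by positivity : (0 : ℝ) ≤ 2 * m)]
      calc 2 * (m : ℝ) * |(gw * bil (J ^ (m - 1)) a a).im| ≤ 2 * m * (C1 * L2) :=
            mul_le_mul_of_nonneg_left h3 (by positivity)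
        _ = K1 * L2 := by rw [hK1]; ring
    exact h4.trans (mul_le_mul_of_nonneg_right (by linarith) hL2)
  · -- (c)
    have ht := jword_tele J (imr c a) 0 m
    simp only [zero_add, pow_zero, Matrix.one_mul] at ht
    have h1 : ((J - imr c a) ^ m).trace - (J ^ m).trace =
        -∑ l ∈ range m, (c * bil (J ^ l * (J - imr c a) ^ (m - 1 - l)) a a).im := by
      have h2 : ((J - imr c a) ^ m).trace - (J ^ m).trace =
          -(J ^ m - (J - imr c a) ^ m).trace := by
        rw [Matrix.trace_sub]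
        ring
      rw [h2, ht, Matrix.trace_sum]
      congr 1
      refine Finset.sum_congr rfl fun l _ => ?_
      rw [Matrix.trace_mul_comm, ← Matrix.mul_assoc, trace_imr]
      congr 2
      rw [jcmp_bil_symm, Matrix.transpose_mul, Matrix.transpose_pow, Matrix.transpose_pow, hsJ,
        hsJ']
    have h3 : ∀ l ∈ range m, |(c * bil (J ^ l * (J - imr c a) ^ (m - 1 - l)) a a).im| ≤
        (4 * bd * lam) * (L2 + (m - 1) * ‖c‖ * S) := by
      intro l hl
      have hl' := Finset.mem_range.1 hl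
      refine (Complex.abs_im_le_norm _).trans ?_
      rw [norm_mul]
      exact mul_le_mul hc (wl l (m - 1 - l) (by omega)) (norm_nonneg _) (by positivity)
    have h4 : |((J - imr c a) ^ m).trace - (J ^ m).trace| ≤
        m * ((4 * bd * lam) * (L2 + (m - 1) * ‖c‖ * S)) := by
      rw [h1, abs_neg]
      refine (Finset.abs_sum_le_sum_abs _ _).trans ((Finset.sum_le_sum h3).trans ?_)
      rw [Finset.sum_const, Finset.card_range, nsmul_eq_mul]
    have h5 : m * ((4 * bd * lam) * (L2 + (m - 1) * ‖c‖ * S)) ≤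
        K2 * (lam * L2 + lam ^ 2 * Q2 + lam ^ 2 * T2) := by
      have h6 : m * ((4 * bd * lam) * (L2 + (m - 1) * ‖c‖ * S)) ≤
          m * ((4 * bd * lam) * (L2 + m * (4 * bd) * CS * (lam * (Q2 + T2)))) := by
        refine mul_le_mul_of_nonneg_left (mul_le_mul_of_nonneg_left ?_ (by positivity))
          (by positivity)
        linarith
      refine h6.trans ?_
      have g1 : 0 ≤ (m * (4 * bd)) * (m * (4 * bd) * CS) * (lam * L2) := by positivity
      have g2 : 0 ≤ (m * (4 * bd)) * (lam ^ 2 * Q2 + lam ^ 2 * T2) := by positivity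
      have e1 : K2 * (lam * L2 + lam ^ 2 * Q2 + lam ^ 2 * T2) =
          m * ((4 * bd * lam) * (L2 + m * (4 * bd) * CS * (lam * (Q2 + T2)))) +
          (m * (4 * bd)) * (m * (4 * bd) * CS) * (lam * L2) +
          (m * (4 * bd)) * (lam ^ 2 * Q2 + lam ^ 2 * T2) := by
        rw [hK2]
        ring
      rw [e1]
      linarith
    have g : 0 ≤ lam * L2 + lam ^ 2 * Q2 + lam ^ 2 * T2 := by positivity
    exact (h4.trans h5).trans (mul_le_mul_of_nonneg_right (by linarith) g)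
  · -- (d)
    have h1 : ∀ i ∈ range (m - 1), ((J - imr c a) ^ i * imr 1 (fun x => k1 * a x) *
        ((J - imr c a) ^ (m - 2 - i) * imr 1 (fun x => k1 * a x))).trace ≤ 16 * S := by
      intro i hi
      have hi' := Finset.mem_range.1 hi
      rw [jcmp_imr_smul, ← Matrix.mul_assoc, trace_imr]
      refine (le_abs_self _).trans ((Complex.abs_im_le_norm _).trans ?_)
      rw [norm_mul]
      have w1 : ∀ u : ι → ℂ, (u = a ∨ u = fun x => star (a x)) →
          ‖bil ((J - imr c a) ^ i) a u‖ ≤ phi J a 0 * (x + e) ^ i := fun u hu =>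
        word_le hJ a m hm c x hx hx2 i (by omega) a u (Or.inl rfl) hu
      have w2 : ∀ u : ι → ℂ, (u = a ∨ u = fun x => star (a x)) →
          ‖bil ((J - imr c a) ^ (m - 2 - i)) u a‖ ≤ phi J a 0 * (x + e) ^ (m - 2 - i) :=
        fun u hu => word_le hJ a m hm c x hx hx2 (m - 2 - i) (by omega) u a hu (Or.inl rfl)
      have h2 := bil_sandwich_le ((J - imr c a) ^ i) ((J - imr c a) ^ (m - 2 - i)) (k1 ^ 2) a a a
        _ _ (w1 a (Or.inl rfl)) (w1 _ (Or.inr rfl)) (w2 a (Or.inl rfl)) (w2 _ (Or.inr rfl))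
      have h3 : phi J a 0 * (x + e) ^ i * (phi J a 0 * (x + e) ^ (m - 2 - i)) = S := by
        rw [hSdef]
        have : m - 2 = i + (m - 2 - i) := by omega
        conv_rhs => rw [this, pow_add]
        ring
      rw [h3] at h2
      have h4 : ‖k1 ^ 2‖ ≤ 4 := by
        rw [norm_pow]
        nlinarith [norm_nonneg k1]
      calc ‖k1 ^ 2‖ * ‖bil ((J - imr c a) ^ i * imr (k1 ^ 2) a * (J - imr c a) ^ (m - 2 - i)) a a‖
          ≤ 4 * (4 * S) := mul_le_mul h4 (h2.trans (mul_le_mul_of_nonneg_right h4 hS0))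
            (norm_nonneg _) (by norm_num)
        _ = 16 * S := by ring
    have h2 : QV2' ≤ m * ((m - 1 : ℕ) * (16 * S)) := by
      refine mul_le_mul_of_nonneg_left ?_ (by positivity)
      refine (Finset.sum_le_sum h1).trans ?_
      rw [Finset.sum_const, Finset.card_range, nsmul_eq_mul]
    have h3 : ((m - 1 : ℕ) : ℝ) ≤ m := by exact_mod_cast Nat.sub_le m 1
    have h4 : (m : ℝ) * ((m - 1 : ℕ) * (16 * S)) ≤ m * (m * (16 * (CS * (Q2 + T2)))) := by
      refine mul_le_mul_of_nonneg_left (mul_le_mul h3 ?_ (by positivity) (by positivity))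
        (by positivity)
      linarith
    have h5 : m * (m * (16 * (CS * (Q2 + T2)))) = K3 * (Q2 + T2) := by rw [hK3]; ring
    have := h2.trans h4
    rw [h5] at this
    exact this.trans (mul_le_mul_of_nonneg_right (by linarith) (by positivity))
  · -- (e)
    have hw0 := wd 0 (m - 1) (by omega) a a (Or.inl rfl) (Or.inl rfl)
    have hw1 := wl 0 (m - 1) (by omega)
    rw [pow_zero, Matrix.one_mul] at hw0 hw1
    rw [bil_sub] at hw0
    have e1 : D2' - D2 = 2 * m * (gw * ((k1 ^ 3 - 1) * bil ((J - imr c a) ^ (m - 1)) a a +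
        (bil ((J - imr c a) ^ (m - 1)) a a - bil (J ^ (m - 1)) a a))).im := by
      show 2 * (m : ℝ) * (k1 * gw * bil ((J - imr c a) ^ (m - 1)) (fun x => k1 * a x)
        (fun x => k1 * a x)).im - 2 * m * (gw * bil (J ^ (m - 1)) a a).im = _
      rw [jcmp_smul_bil, ← mul_sub, ← Complex.sub_im]
      congr 2
      ring
    have h3 : |(gw * ((k1 ^ 3 - 1) * bil ((J - imr c a) ^ (m - 1)) a a +
        (bil ((J - imr c a) ^ (m - 1)) a a - bil (J ^ (m - 1)) a a))).im| ≤
        C1 * ((C0 * lam) * (L2 + (m - 1) * ‖c‖ * S) + (m - 1) * ‖c‖ * S) := by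
      refine (Complex.abs_im_le_norm _).trans ?_
      rw [norm_mul]
      refine mul_le_mul hgw ?_ (norm_nonneg _) (by linarith)
      refine (norm_add_le _ _).trans (add_le_add ?_ hw0)
      rw [norm_mul]
      exact mul_le_mul hk3 hw1 (norm_nonneg _) (by positivity)
    have h4 : |D2' - D2| ≤ 2 * m * (C1 * ((C0 * lam) * (L2 + (m - 1) * ‖c‖ * S) +
        (m - 1) * ‖c‖ * S)) := by
      rw [e1, abs_mul, abs_of_nonneg (by positivity : (0 : ℝ) ≤ 2 * m)]
      exact mul_le_mul_of_nonneg_left h3 (by positivity)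
    have h5 : (C0 * lam) * (L2 + (m - 1) * ‖c‖ * S) + (m - 1) * ‖c‖ * S ≤
        (C0 * lam) * (L2 + m * (4 * bd) * CS * (Q2 + T2)) +
          m * (4 * bd) * CS * (lam * (Q2 + T2)) := by
      refine add_le_add (mul_le_mul_of_nonneg_left ?_ (by positivity)) hcS
      have h6 : m * (4 * bd) * CS * (lam * (Q2 + T2)) ≤ m * (4 * bd) * CS * (Q2 + T2) := by
        refine mul_le_mul_of_nonneg_left ?_ (by positivity)
        nlinarith
      linarith
    have h6 : 2 * m * (C1 * ((C0 * lam) * (L2 + m * (4 * bd) * CS * (Q2 + T2)) +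
          m * (4 * bd) * CS * (lam * (Q2 + T2)))) ≤
        K4 * (lam * L2 + lam * Q2 + lam * T2) := by
      have g1 : 0 ≤ 2 * m * C1 * (C0 * (m * (4 * bd) * CS) + m * (4 * bd) * CS) * (lam * L2) := by
        positivity
      have g2 : 0 ≤ 2 * m * C1 * C0 * (lam * Q2 + lam * T2) := by positivity
      have e2 : K4 * (lam * L2 + lam * Q2 + lam * T2) =
          2 * m * (C1 * ((C0 * lam) * (L2 + m * (4 * bd) * CS * (Q2 + T2)) +
          m * (4 * bd) * CS * (lam * (Q2 + T2)))) +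
          2 * m * C1 * (C0 * (m * (4 * bd) * CS) + m * (4 * bd) * CS) * (lam * L2) +
          2 * m * C1 * C0 * (lam * Q2 + lam * T2) := by
        rw [hK4]
        ring
      rw [e2]
      linarith
    have h7 : |D2' - D2| ≤ K4 * (lam * L2 + lam * Q2 + lam * T2) := by
      refine h4.trans (le_trans ?_ h6)
      refine mul_le_mul_of_nonneg_left (mul_le_mul_of_nonneg_left h5 (by linarith))
        (by positivity)
    have g : 0 ≤ lam * L2 + lam * Q2 + lam * T2 := by positivity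
    exact h7.trans (mul_le_mul_of_nonneg_right (by linarith) g)

end Pool.Agent.Kin
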