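import Pool.Agent.Kin.Defs

/-! KIN POWC: comparison of the power functional under the replacement of one variable
(section A4). -/

open Matrix Finset

noncomputable section

set_option maxHeartbeats 1000000

namespace Pool.Agent.Kin

private lemma wt_nonneg {ι : Type} [DecidableEq ι] {et : ℝ} (het : 0 < et) (x y : ι) :
    0 ≤ wt et x y := by
  unfold wt
  split_ifs <;> positivity

/-- (a) -/
lemma LL_sq_le {ι : Type} [Fintype ι] [DecidableEq ι] (q : ℕ) (hq : 2 ≤ q) (et : ℝ) (het : 0 < et)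
    (f : Matrix ι ι ℂ) (d : Matrix ι ι ℝ) :
    LL q et f d ^ 2 ≤ NN q et f * QQ q et f d := by
  have h1 := Finset.sum_mul_sq_le_sq_mul_sq (Finset.univ : Finset (ι × ι))
    (fun z => √(wt et z.1 z.2) * ‖f z.1 z.2‖ ^ q)
    (fun z => √(wt et z.1 z.2) * (‖f z.1 z.2‖ ^ (q - 1) * d z.1 z.2))
  have e1 : ∑ z : ι × ι, √(wt et z.1 z.2) * ‖f z.1 z.2‖ ^ q *
      (√(wt et z.1 z.2) * (‖f z.1 z.2‖ ^ (q - 1) * d z.1 z.2)) = LL q et f d := by
    unfold LL
    rw [Fintype.sum_prod_type]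
    refine Finset.sum_congr rfl fun x _ => Finset.sum_congr rfl fun y _ => ?_
    have h2 : √(wt et x y) * √(wt et x y) = wt et x y := Real.mul_self_sqrt (wt_nonneg het x y)
    have h3 : ‖f x y‖ ^ q * ‖f x y‖ ^ (q - 1) = ‖f x y‖ ^ (2 * q - 1) := by
      rw [← pow_add]; congr 1; omega
    calc √(wt et x y) * ‖f x y‖ ^ q * (√(wt et x y) * (‖f x y‖ ^ (q - 1) * d x y))
        = (√(wt et x y) * √(wt et x y)) * (‖f x y‖ ^ q * ‖f x y‖ ^ (q - 1)) * d x y := by ring
      _ = wt et x y * ‖f x y‖ ^ (2 * q - 1) * d x y := by rw [h2, h3]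
  have e2 : ∑ z : ι × ι, (√(wt et z.1 z.2) * ‖f z.1 z.2‖ ^ q) ^ 2 = NN q et f := by
    unfold NN
    rw [Fintype.sum_prod_type]
    refine Finset.sum_congr rfl fun x _ => Finset.sum_congr rfl fun y _ => ?_
    rw [mul_pow, Real.sq_sqrt (wt_nonneg het x y), ← pow_mul, mul_comm q 2]
  have e3 : ∑ z : ι × ι, (√(wt et z.1 z.2) * (‖f z.1 z.2‖ ^ (q - 1) * d z.1 z.2)) ^ 2 =
      QQ q et f d := by
    unfold QQ
    rw [Fintype.sum_prod_type]
    refine Finset.sum_congr rfl fun x _ => Finset.sum_congr rfl fun y _ => ?_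
    rw [mul_pow, Real.sq_sqrt (wt_nonneg het x y), mul_pow, ← pow_mul, ← mul_assoc]
    congr 3
    omega
  rw [e1, e2, e3] at h1
  exact h1

private lemma pow_diff {a b M δ : ℝ} (ha : 0 ≤ a) (hb : 0 ≤ b) (haM : a ≤ M) (hbM : b ≤ M)
    (hδ : |b - a| ≤ δ) : ∀ n : ℕ, |b ^ (n + 1) - a ^ (n + 1)| ≤ (n + 1) * δ * M ^ n := by
  have hM : 0 ≤ M := ha.trans haM
  have hδ0 : 0 ≤ δ := (abs_nonneg _).trans hδ
  intro n
  induction n with
  | zero => simpa using hδ
  | succ n ih =>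
    have h1 : b ^ (n + 1 + 1) - a ^ (n + 1 + 1) =
        (b - a) * b ^ (n + 1) + a * (b ^ (n + 1) - a ^ (n + 1)) := by ring
    rw [h1]
    have h2 : |(b - a) * b ^ (n + 1)| ≤ δ * M ^ (n + 1) := by
      rw [abs_mul, abs_of_nonneg (pow_nonneg hb _)]
      exact mul_le_mul hδ (pow_le_pow_left₀ hb hbM _) (pow_nonneg hb _) hδ0
    have h3 : |a * (b ^ (n + 1) - a ^ (n + 1))| ≤ M * ((n + 1) * δ * M ^ n) := by
      rw [abs_mul, abs_of_nonneg ha]
      exact mul_le_mul haM ih (abs_nonneg _) hM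
    calc |(b - a) * b ^ (n + 1) + a * (b ^ (n + 1) - a ^ (n + 1))|
        ≤ |(b - a) * b ^ (n + 1)| + |a * (b ^ (n + 1) - a ^ (n + 1))| := abs_add_le _ _
      _ ≤ δ * M ^ (n + 1) + M * ((n + 1) * δ * M ^ n) := add_le_add h2 h3
      _ = (((n + 1 : ℕ) : ℝ) + 1) * δ * M ^ (n + 1) := by push_cast; ring

private lemma pow_two_mul (a e : ℝ) (ha : 0 ≤ a) (he : 0 ≤ e) (n : ℕ) :
    (a + e) ^ n ≤ 2 ^ n * (a ^ n + e ^ n) := by
  refine (add_pow_le ha he n).trans ?_
  refine mul_le_mul_of_nonneg_right ?_ (by positivity)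
  exact pow_le_pow_right₀ (by norm_num) (by omega)

/-- the pointwise estimates -/
private lemma pw (q : ℕ) (hq : 2 ≤ q) (C : ℝ) (hC : 0 ≤ C) : ∃ K : ℝ, 0 < K ∧
    ∀ (a b d lam : ℝ), 0 ≤ a → 0 ≤ b → 0 ≤ d → 0 < lam → |b - a| ≤ C * (lam * d) →
      |b ^ (2 * q) - a ^ (2 * q)| ≤
        K * (lam * (a ^ (2 * q - 1) * d) + lam ^ 2 * (lam ^ (2 * q - 2) * d ^ (2 * q))) ∧
      b ^ (2 * q - 2) * d ^ 2 ≤ K * (a ^ (2 * q - 2) * d ^ 2 + lam ^ (2 * q - 2) * d ^ (2 * q)) ∧
      |b ^ (2 * q - 2) - a ^ (2 * q - 2)| * (b * d) ≤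
        K * lam * (a ^ (2 * q - 2) * d ^ 2 + lam ^ (2 * q - 2) * d ^ (2 * q)) ∧
      b ^ (2 * q) ≤ 8 / 7 * a ^ (2 * q) + K * (lam ^ 2 * (lam ^ (2 * q - 2) * d ^ (2 * q))) := by
  set n := 2 * q - 2 with hn
  have hn1 : 2 * q - 1 = n + 1 := by omega
  have hn2 : 2 * q = n + 2 := by omega
  set C1 := C + 1 with hC1
  have hC1' : 1 ≤ C1 := by linarith
  have hC10 : 0 < C1 := by linarith
  -- a common constant
  set K : ℝ := (2 * q + 1) * 2 ^ (2 * q) * C1 ^ (2 * q) + ((16 * q + 1) * C1) ^ (2 * q) with hK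
  have hA : (1 : ℝ) ≤ (2 * q + 1) * 2 ^ (2 * q) * C1 ^ (2 * q) := by
    have h1 : (1 : ℝ) ≤ 2 ^ (2 * q) := one_le_pow₀ (by norm_num)
    have h2 : (1 : ℝ) ≤ C1 ^ (2 * q) := one_le_pow₀ hC1'
    have h3 : (1 : ℝ) ≤ 2 * q + 1 := by
      have : (0 : ℝ) ≤ q := Nat.cast_nonneg q
      linarith
    calc (1 : ℝ) = 1 * 1 * 1 := by ring
      _ ≤ _ := by gcongr
  have hB : 0 ≤ ((16 * (q : ℝ) + 1) * C1) ^ (2 * q) := by positivity
  refine ⟨K, by linarith, ?_⟩
  intro a b d lam ha hb hd hlam hab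
  set e := lam * d with he
  have he0 : 0 ≤ e := mul_nonneg hlam.le hd
  have hCe : 0 ≤ C1 * e := mul_nonneg hC10.le he0
  have hab1 : |b - a| ≤ C1 * e := hab.trans (mul_le_mul_of_nonneg_right (by linarith) he0)
  have hbM : b ≤ a + C1 * e := by
    have := (abs_le.1 hab1).2; linarith
  have haM : a ≤ a + C1 * e := by linarith
  have hMb : ∀ k : ℕ, k ≤ 2 * q → (a + C1 * e) ^ k ≤ 2 ^ (2 * q) * C1 ^ (2 * q) *
      (a ^ k + e ^ k) := by
    intro k hk
    have h1 := pow_two_mul a (C1 * e) ha hCe k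
    refine h1.trans ?_
    have h2 : a ^ k + (C1 * e) ^ k ≤ C1 ^ (2 * q) * (a ^ k + e ^ k) := by
      rw [mul_pow, mul_add]
      have h3 : C1 ^ k ≤ C1 ^ (2 * q) := pow_le_pow_right₀ hC1' hk
      have h4 : (1 : ℝ) ≤ C1 ^ (2 * q) := one_le_pow₀ hC1'
      have h5 : 0 ≤ a ^ k := pow_nonneg ha k
      have h6 : 0 ≤ e ^ k := pow_nonneg he0 k
      nlinarith
    have h7 : (2 : ℝ) ^ k ≤ 2 ^ (2 * q) := pow_le_pow_right₀ (by norm_num) hk
    calc 2 ^ k * (a ^ k + (C1 * e) ^ k) ≤ 2 ^ (2 * q) * (C1 ^ (2 * q) * (a ^ k + e ^ k)) := by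
          gcongr
      _ = _ := by ring
  have hK1 : (2 * (q : ℝ) + 1) * 2 ^ (2 * q) * C1 ^ (2 * q) ≤ K := by linarith
  have hee : lam ^ n * d ^ (2 * q) = e ^ n * d ^ 2 := by
    rw [he, mul_pow, hn2, pow_add]; ring
  have hee2 : lam ^ 2 * (lam ^ n * d ^ (2 * q)) = e ^ (2 * q) := by
    rw [he, mul_pow, hn2, pow_add, pow_add]; ring
  have hq0 : (0 : ℝ) ≤ q := Nat.cast_nonneg q
  refine ⟨?_, ?_, ?_, ?_⟩
  · -- (c)
    rw [hn1, hee2, hn2]
    have h1 := pow_diff ha hb haM hbM hab1 (n + 1)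
    have h2 := hMb (n + 1) (by omega)
    have hcast : (((n + 1 : ℕ) : ℝ) + 1) ≤ 2 * q + 1 := by
      have : ((n + 1 : ℕ) : ℝ) + 1 = ((2 * q : ℕ) : ℝ) := by rw [hn2]; push_cast; ring
      rw [this]; push_cast; linarith
    have h3 : C1 * e * (a + C1 * e) ^ (n + 1) ≤ 2 ^ (2 * q) * C1 ^ (2 * q) * C1 *
        (e * a ^ (n + 1) + e ^ (n + 2)) := by
      calc C1 * e * (a + C1 * e) ^ (n + 1)
          ≤ C1 * e * (2 ^ (2 * q) * C1 ^ (2 * q) * (a ^ (n + 1) + e ^ (n + 1))) := by gcongr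
        _ = _ := by ring
    -- sharpen: the power of `C1` is at most `2q`
    have h4 : (a + C1 * e) ^ (n + 1) ≤ 2 ^ (2 * q) * C1 ^ (n + 1) * (a ^ (n + 1) + e ^ (n + 1)) := by
      have h5 := pow_two_mul a (C1 * e) ha hCe (n + 1)
      refine h5.trans ?_
      have h6 : a ^ (n + 1) + (C1 * e) ^ (n + 1) ≤ C1 ^ (n + 1) * (a ^ (n + 1) + e ^ (n + 1)) := by
        rw [mul_pow, mul_add]
        have h7 : (1 : ℝ) ≤ C1 ^ (n + 1) := one_le_pow₀ hC1'
        have h8 : 0 ≤ a ^ (n + 1) := pow_nonneg ha _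
        nlinarith
      have h7 : (2 : ℝ) ^ (n + 1) ≤ 2 ^ (2 * q) := pow_le_pow_right₀ (by norm_num) (by omega)
      calc 2 ^ (n + 1) * (a ^ (n + 1) + (C1 * e) ^ (n + 1))
          ≤ 2 ^ (2 * q) * (C1 ^ (n + 1) * (a ^ (n + 1) + e ^ (n + 1))) := by gcongr
        _ = _ := by ring
    calc |b ^ (n + 2) - a ^ (n + 2)| ≤ (((n + 1 : ℕ) : ℝ) + 1) * (C1 * e) * (a + C1 * e) ^ (n + 1) :=
          h1
      _ ≤ (2 * q + 1) * (C1 * e) * (2 ^ (2 * q) * C1 ^ (n + 1) * (a ^ (n + 1) + e ^ (n + 1))) := by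
          gcongr
      _ = (2 * q + 1) * 2 ^ (2 * q) * C1 ^ (n + 2) * (e * a ^ (n + 1) + e ^ (n + 2)) := by ring
      _ ≤ K * (e * a ^ (n + 1) + e ^ (n + 2)) := by
          rw [← hn2]
          exact mul_le_mul_of_nonneg_right hK1 (by positivity)
      _ = _ := by rw [he]; ring
  · -- (d)
    rw [hee]
    have h1 : b ^ n ≤ (a + C1 * e) ^ n := pow_le_pow_left₀ hb hbM n
    have h2 := hMb n (by omega)
    have h3 : (2 : ℝ) ^ (2 * q) * C1 ^ (2 * q) ≤ K := by
      have h4 : (2 : ℝ) ^ (2 * q) * C1 ^ (2 * q) ≤ (2 * (q : ℝ) + 1) * 2 ^ (2 * q) * C1 ^ (2 * q) := by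
        have h5 : (0 : ℝ) ≤ 2 ^ (2 * q) * C1 ^ (2 * q) := by positivity
        nlinarith
      linarith
    calc b ^ n * d ^ 2 ≤ (2 ^ (2 * q) * C1 ^ (2 * q) * (a ^ n + e ^ n)) * d ^ 2 := by
          gcongr
          exact h1.trans h2
      _ ≤ (K * (a ^ n + e ^ n)) * d ^ 2 := by gcongr
      _ = _ := by ring
  · -- (e)
    rw [hee]
    have hn3 : n = (n - 1) + 1 := by omega
    have h1 := pow_diff ha hb haM hbM hab1 (n - 1)
    rw [← hn3] at h1
    have hcast : (((n - 1 : ℕ) : ℝ) + 1) ≤ 2 * q + 1 := by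
      have : ((n - 1 : ℕ) : ℝ) + 1 = (n : ℝ) := by
        have : (n : ℝ) = (((n - 1) + 1 : ℕ) : ℝ) := by rw [← hn3]
        rw [this]; push_cast; ring
      rw [this]
      have h5 : (n : ℝ) ≤ ((2 * q : ℕ) : ℝ) := by exact_mod_cast (by omega : n ≤ 2 * q)
      push_cast at h5
      linarith
    have h4 : (a + C1 * e) ^ n ≤ 2 ^ (2 * q) * C1 ^ n * (a ^ n + e ^ n) := by
      have h5 := pow_two_mul a (C1 * e) ha hCe n
      refine h5.trans ?_
      have h6 : a ^ n + (C1 * e) ^ n ≤ C1 ^ n * (a ^ n + e ^ n) := by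
        rw [mul_pow, mul_add]
        have h7 : (1 : ℝ) ≤ C1 ^ n := one_le_pow₀ hC1'
        have h8 : 0 ≤ a ^ n := pow_nonneg ha _
        nlinarith
      have h7 : (2 : ℝ) ^ n ≤ 2 ^ (2 * q) := pow_le_pow_right₀ (by norm_num) (by omega)
      calc 2 ^ n * (a ^ n + (C1 * e) ^ n)
          ≤ 2 ^ (2 * q) * (C1 ^ n * (a ^ n + e ^ n)) := by gcongr
        _ = _ := by ring
    have hM0 : 0 ≤ a + C1 * e := by linarith
    calc |b ^ n - a ^ n| * (b * d)
        ≤ ((((n - 1 : ℕ) : ℝ) + 1) * (C1 * e) * (a + C1 * e) ^ (n - 1)) * ((a + C1 * e) * d) := by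
          gcongr
      _ = (((n - 1 : ℕ) : ℝ) + 1) * (C1 * e) * (a + C1 * e) ^ ((n - 1) + 1) * d := by
          rw [pow_succ]; ring
      _ = (((n - 1 : ℕ) : ℝ) + 1) * (C1 * e) * (a + C1 * e) ^ n * d := by rw [← hn3]
      _ ≤ (2 * q + 1) * (C1 * e) * (2 ^ (2 * q) * C1 ^ n * (a ^ n + e ^ n)) * d := by gcongr
      _ = ((2 * q + 1) * 2 ^ (2 * q) * C1 ^ (n + 1)) * lam * ((a ^ n + e ^ n) * d ^ 2) := by
          rw [he]; ring
      _ ≤ K * lam * ((a ^ n + e ^ n) * d ^ 2) := by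
          have h8 : (2 * (q : ℝ) + 1) * 2 ^ (2 * q) * C1 ^ (n + 1) ≤ K := by
            refine le_trans ?_ hK1
            have h9 : C1 ^ (n + 1) ≤ C1 ^ (2 * q) := pow_le_pow_right₀ hC1' (by omega)
            gcongr
          gcongr
      _ = _ := by ring
  · -- (f)
    rw [hee2]
    by_cases hcase : 16 * (q : ℝ) * (C1 * e) ≤ a
    · have hqpos : (0 : ℝ) < 16 * q := by
        have : (2 : ℝ) ≤ q := by exact_mod_cast hq
        linarith
      have h1 : b ≤ (1 + 1 / (16 * q)) * a := by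
        have h2 : C1 * e ≤ a / (16 * q) := by
          rw [le_div_iff₀ hqpos]; linarith
        calc b ≤ a + C1 * e := hbM
          _ ≤ a + a / (16 * q) := by linarith
          _ = _ := by ring
      have h3 : (1 + 1 / (16 * (q : ℝ))) ^ (2 * q) ≤ 8 / 7 := by
        set x : ℝ := 1 / (16 * q) with hx
        have hx0 : 0 < x := by positivity
        have hx1 : x ≤ 1 := by
          rw [hx, div_le_one hqpos]
          have : (2 : ℝ) ≤ q := by exact_mod_cast hq
          linarith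
        have h4 : (1 : ℝ) - ((2 * q : ℕ) : ℝ) * x ≤ (1 - x) ^ (2 * q) := by
          have := one_add_mul_le_pow (a := -x) (by linarith) (2 * q)
          calc (1 : ℝ) - ((2 * q : ℕ) : ℝ) * x = 1 + ((2 * q : ℕ) : ℝ) * -x := by ring
            _ ≤ (1 + -x) ^ (2 * q) := this
            _ = _ := by ring
        have h5 : ((2 * q : ℕ) : ℝ) * x = 1 / 8 := by
          rw [hx]; push_cast
          field_simp
          norm_num
        rw [h5] at h4
        have h6 : (1 + x) ^ (2 * q) * (1 - x) ^ (2 * q) ≤ 1 := by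
          rw [← mul_pow]
          have h61 : (1 + x) * (1 - x) = 1 - x ^ 2 := by ring
          rw [h61]
          have h62 : x ^ 2 ≤ 1 := pow_le_one₀ hx0.le hx1
          have h63 : 0 ≤ x ^ 2 := sq_nonneg x
          exact pow_le_one₀ (by linarith) (by linarith)
        have h7 : 0 ≤ (1 + x) ^ (2 * q) := pow_nonneg (by linarith) _
        have h8 := mul_le_mul_of_nonneg_left h4 h7
        linarith
      have h8 : 0 ≤ K * e ^ (2 * q) := by
        have : 0 ≤ K := by linarith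
        positivity
      calc b ^ (2 * q) ≤ ((1 + 1 / (16 * q)) * a) ^ (2 * q) := pow_le_pow_left₀ hb h1 _
        _ = (1 + 1 / (16 * (q : ℝ))) ^ (2 * q) * a ^ (2 * q) := mul_pow _ _ _
        _ ≤ 8 / 7 * a ^ (2 * q) := by gcongr
        _ ≤ _ := by linarith
    · push Not at hcase
      have h1 : b ≤ (16 * q + 1) * C1 * e := by
        calc b ≤ a + C1 * e := hbM
          _ ≤ 16 * (q : ℝ) * (C1 * e) + C1 * e := by linarith
          _ = _ := by ring
      have h2 : b ^ (2 * q) ≤ ((16 * q + 1) * C1) ^ (2 * q) * e ^ (2 * q) := by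
        rw [← mul_pow]
        exact pow_le_pow_left₀ hb h1 _
      have h3 : ((16 * (q : ℝ) + 1) * C1) ^ (2 * q) * e ^ (2 * q) ≤ K * e ^ (2 * q) := by
        have : ((16 * (q : ℝ) + 1) * C1) ^ (2 * q) ≤ K := by linarith
        gcongr
      have h4 : 0 ≤ 8 / 7 * a ^ (2 * q) := by positivity
      linarith

/-- (b)-(f) -/
theorem powc (q : ℕ) (hq : 2 ≤ q) (C : ℝ) (hC : 0 ≤ C) : ∃ C' : ℝ, 0 < C' ∧
    ∀ (ι : Type) [Fintype ι] [DecidableEq ι] (et lam : ℝ) (f f' g g' k k' : Matrix ι ι ℂ)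
      (d : Matrix ι ι ℝ), 0 < et → 0 < lam → lam ≤ 1 → Rep C lam f f' g g' k k' d →
      |DD q et f k| ≤ C' * LL q et f d ∧
      |NN q et f' - NN q et f| ≤ C' * (lam * LL q et f d + lam ^ 2 * TT q et lam d) ∧
      QV q et f' g' ≤ C' * (QQ q et f d + TT q et lam d) ∧
      |DD q et f' k' - DD q et f k| ≤
        C' * (lam * LL q et f d + lam * QQ q et f d + lam * TT q et lam d) ∧
      NN q et f' ≤ 8 / 7 * NN q et f + C' * (lam ^ 2 * TT q et lam d) := by
  obtain ⟨K, hK, hpw⟩ := pw q hq C hC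
  have hq0 : (0 : ℝ) ≤ q := Nat.cast_nonneg q
  have hq2 : (2 : ℝ) ≤ q := by exact_mod_cast hq
  set C' : ℝ := (4 * q ^ 2 + 2 * q + 1) * (C + 1) ^ 2 * (K + 1) with hC'
  have hCC : (1 : ℝ) ≤ (C + 1) ^ 2 := by nlinarith
  have hC1 : C ≤ (C + 1) ^ 2 := by nlinarith
  have hC2 : C ^ 2 ≤ (C + 1) ^ 2 := by nlinarith
  have hqq : (1 : ℝ) ≤ 4 * q ^ 2 + 2 * q + 1 := by nlinarith
  have hCp : 0 < C' := by positivity
  have hbase : (1 : ℝ) ≤ (4 * q ^ 2 + 2 * q + 1) * (C + 1) ^ 2 := by nlinarith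
  refine ⟨C', hCp, ?_⟩
  intro ι _ _ et lam f f' g g' k k' d het hlam hlam1 hR
  have hw := fun x y : ι => wt_nonneg (ι := ι) het x y
  have hdiff : ∀ x y, |‖f' x y‖ - ‖f x y‖| ≤ C * (lam * d x y) := by
    intro x y
    refine (abs_norm_sub_norm_le _ _).trans ((hR.df x y).trans (le_of_eq (by ring)))
  have hP := fun x y => hpw ‖f x y‖ ‖f' x y‖ (d x y) lam (norm_nonneg _) (norm_nonneg _)
    (hR.nn x y) hlam (hdiff x y)
  have hre : ∀ u v : ℂ, |(star u * v).re| ≤ ‖u‖ * ‖v‖ := by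
    intro u v
    refine (Complex.abs_re_le_norm _).trans ?_
    rw [norm_mul, norm_star]
  refine ⟨?_, ?_, ?_, ?_, ?_⟩
  · -- (b)
    unfold DD LL
    rw [Finset.mul_sum]
    refine (Finset.abs_sum_le_sum_abs _ _).trans (Finset.sum_le_sum fun x _ => ?_)
    rw [Finset.mul_sum]
    refine (Finset.abs_sum_le_sum_abs _ _).trans (Finset.sum_le_sum fun y _ => ?_)
    rw [abs_mul, abs_of_nonneg (hw x y), abs_mul, abs_of_nonneg (by positivity :
      (0 : ℝ) ≤ 2 * q * ‖f x y‖ ^ (2 * q - 2))]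
    have h1 : |(star (f x y) * k x y).re| ≤ ‖f x y‖ * (C * d x y) :=
      (hre _ _).trans (mul_le_mul_of_nonneg_left (hR.k1 x y) (norm_nonneg _))
    have h2 : ‖f x y‖ ^ (2 * q - 2) * ‖f x y‖ = ‖f x y‖ ^ (2 * q - 1) := by
      rw [← pow_succ]; congr 1; omega
    have hd0 := hR.nn x y
    have h3 : 2 * (q : ℝ) * C ≤ C' := by
      have h4 : 2 * (q : ℝ) * C ≤ (4 * q ^ 2 + 2 * q + 1) * (C + 1) ^ 2 := by
        have : 2 * (q : ℝ) ≤ 4 * q ^ 2 + 2 * q + 1 := by nlinarith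
        exact mul_le_mul this hC1 hC (by positivity)
      have h5 : (4 * (q : ℝ) ^ 2 + 2 * q + 1) * (C + 1) ^ 2 ≤ C' := by
        rw [hC']; exact le_mul_of_one_le_right (by positivity) (by linarith)
      linarith
    calc wt et x y * (2 * q * ‖f x y‖ ^ (2 * q - 2) * |(star (f x y) * k x y).re|)
        ≤ wt et x y * (2 * q * ‖f x y‖ ^ (2 * q - 2) * (‖f x y‖ * (C * d x y))) := by
          have := hw x y
          gcongr
      _ = (2 * q * C) * (wt et x y * (‖f x y‖ ^ (2 * q - 2) * ‖f x y‖) * d x y) := by ring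
      _ = (2 * q * C) * (wt et x y * ‖f x y‖ ^ (2 * q - 1) * d x y) := by rw [h2]
      _ ≤ C' * (wt et x y * ‖f x y‖ ^ (2 * q - 1) * d x y) := by
          have := hw x y
          gcongr
  · -- (c)
    have hKC : K ≤ C' := by
      rw [hC']
      nlinarith
    have h1 : |NN q et f' - NN q et f| ≤ ∑ x, ∑ y, wt et x y *
        (K * (lam * (‖f x y‖ ^ (2 * q - 1) * d x y) +
          lam ^ 2 * (lam ^ (2 * q - 2) * d x y ^ (2 * q)))) := by
      unfold NN
      rw [← Finset.sum_sub_distrib]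
      refine (Finset.abs_sum_le_sum_abs _ _).trans (Finset.sum_le_sum fun x _ => ?_)
      rw [← Finset.sum_sub_distrib]
      refine (Finset.abs_sum_le_sum_abs _ _).trans (Finset.sum_le_sum fun y _ => ?_)
      rw [← mul_sub, abs_mul, abs_of_nonneg (hw x y)]
      exact mul_le_mul_of_nonneg_left (hP x y).1 (hw x y)
    refine h1.trans ?_
    have h2 : ∑ x, ∑ y, wt et x y * (K * (lam * (‖f x y‖ ^ (2 * q - 1) * d x y) +
          lam ^ 2 * (lam ^ (2 * q - 2) * d x y ^ (2 * q)))) =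
        K * (lam * LL q et f d + lam ^ 2 * TT q et lam d) := by
      unfold LL TT
      simp only [Finset.mul_sum, ← Finset.sum_add_distrib]
      refine Finset.sum_congr rfl fun x _ => Finset.sum_congr rfl fun y _ => ?_
      ring
    rw [h2]
    have h3 : 0 ≤ lam * LL q et f d + lam ^ 2 * TT q et lam d := by
      have hL : 0 ≤ LL q et f d := Finset.sum_nonneg fun x _ => Finset.sum_nonneg fun y _ => by
        have := hw x y
        have := hR.nn x y
        positivity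
      have hT : 0 ≤ TT q et lam d := by
        unfold TT
        refine mul_nonneg (by positivity) (Finset.sum_nonneg fun x _ => Finset.sum_nonneg fun y _ => ?_)
        have := hw x y
        have := hR.nn x y
        positivity
      positivity
    exact mul_le_mul_of_nonneg_right hKC h3
  · -- (d)
    have h1 : QV q et f' g' ≤ ∑ x, ∑ y, wt et x y * ((4 * q ^ 2 + 2 * q) * C ^ 2 *
        (K * (‖f x y‖ ^ (2 * q - 2) * d x y ^ 2 + lam ^ (2 * q - 2) * d x y ^ (2 * q)))) := by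
      unfold QV
      refine Finset.sum_le_sum fun x _ => Finset.sum_le_sum fun y _ => ?_
      refine mul_le_mul_of_nonneg_left ?_ (hw x y)
      have hd0 := hR.nn x y
      have hg : ‖g' x y‖ ^ 2 ≤ C ^ 2 * d x y ^ 2 := by
        rw [← mul_pow]; exact pow_le_pow_left₀ (norm_nonneg _) (hR.g2 x y) 2
      have hre2 : (star (f' x y) * g' x y).re ^ 2 ≤ ‖f' x y‖ ^ 2 * (C ^ 2 * d x y ^ 2) := by
        rw [← sq_abs]
        calc |(star (f' x y) * g' x y).re| ^ 2 ≤ (‖f' x y‖ * ‖g' x y‖) ^ 2 :=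
              pow_le_pow_left₀ (abs_nonneg _) (hre _ _) 2
          _ = ‖f' x y‖ ^ 2 * ‖g' x y‖ ^ 2 := mul_pow _ _ _
          _ ≤ _ := by gcongr
      have h2 : ‖f' x y‖ ^ (2 * q - 4) * ‖f' x y‖ ^ 2 = ‖f' x y‖ ^ (2 * q - 2) := by
        rw [← pow_add]; congr 1; omega
      have hq1 : (0 : ℝ) ≤ (q : ℝ) - 1 := by linarith
      calc 2 * q * ‖f' x y‖ ^ (2 * q - 2) * ‖g' x y‖ ^ 2 +
            4 * q * (q - 1) * ‖f' x y‖ ^ (2 * q - 4) * (star (f' x y) * g' x y).re ^ 2
          ≤ 2 * q * ‖f' x y‖ ^ (2 * q - 2) * (C ^ 2 * d x y ^ 2) +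
            4 * q * (q - 1) * ‖f' x y‖ ^ (2 * q - 4) * (‖f' x y‖ ^ 2 * (C ^ 2 * d x y ^ 2)) := by
            gcongr
        _ = (2 * q + 4 * q * (q - 1)) * C ^ 2 * (‖f' x y‖ ^ (2 * q - 2) * d x y ^ 2) := by
            rw [← h2]; ring
        _ ≤ (4 * q ^ 2 + 2 * q) * C ^ 2 * (‖f' x y‖ ^ (2 * q - 2) * d x y ^ 2) := by
            have : 2 * (q : ℝ) + 4 * q * (q - 1) ≤ 4 * q ^ 2 + 2 * q := by nlinarith
            gcongr
        _ ≤ _ := by
            have := (hP x y).2.1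
            gcongr
    refine h1.trans ?_
    have h2 : ∑ x, ∑ y, wt et x y * ((4 * q ^ 2 + 2 * q) * C ^ 2 *
        (K * (‖f x y‖ ^ (2 * q - 2) * d x y ^ 2 + lam ^ (2 * q - 2) * d x y ^ (2 * q)))) =
        ((4 * q ^ 2 + 2 * q) * C ^ 2 * K) * (QQ q et f d + TT q et lam d) := by
      unfold QQ TT
      simp only [Finset.mul_sum, ← Finset.sum_add_distrib]
      refine Finset.sum_congr rfl fun x _ => Finset.sum_congr rfl fun y _ => ?_
      ring
    rw [h2]
    have h3 : 0 ≤ QQ q et f d + TT q et lam d := by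
      have hL : 0 ≤ QQ q et f d := Finset.sum_nonneg fun x _ => Finset.sum_nonneg fun y _ => by
        have := hw x y
        have := hR.nn x y
        positivity
      have hT : 0 ≤ TT q et lam d := by
        unfold TT
        refine mul_nonneg (by positivity) (Finset.sum_nonneg fun x _ => Finset.sum_nonneg fun y _ => ?_)
        have := hw x y
        have := hR.nn x y
        positivity
      positivity
    refine mul_le_mul_of_nonneg_right ?_ h3
    rw [hC']
    have h4 : (4 * (q : ℝ) ^ 2 + 2 * q) * C ^ 2 ≤ (4 * q ^ 2 + 2 * q + 1) * (C + 1) ^ 2 := by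
      have h5 : (4 * (q : ℝ) ^ 2 + 2 * q) ≤ 4 * q ^ 2 + 2 * q + 1 := by linarith
      exact mul_le_mul h5 hC2 (by positivity) (by positivity)
    exact mul_le_mul h4 (by linarith) hK.le (by positivity)
  · -- (e)
    have h1 : |DD q et f' k' - DD q et f k| ≤ ∑ x, ∑ y, wt et x y * (2 * q *
        (C * (K * lam * (‖f x y‖ ^ (2 * q - 2) * d x y ^ 2 + lam ^ (2 * q - 2) * d x y ^ (2 * q))) +
          C ^ 2 * lam * (‖f x y‖ ^ (2 * q - 2) * d x y ^ 2) +
          C * lam * (‖f x y‖ ^ (2 * q - 1) * d x y))) := by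
      unfold DD
      rw [← Finset.sum_sub_distrib]
      refine (Finset.abs_sum_le_sum_abs _ _).trans (Finset.sum_le_sum fun x _ => ?_)
      rw [← Finset.sum_sub_distrib]
      refine (Finset.abs_sum_le_sum_abs _ _).trans (Finset.sum_le_sum fun y _ => ?_)
      rw [← mul_sub, abs_mul, abs_of_nonneg (hw x y)]
      refine mul_le_mul_of_nonneg_left ?_ (hw x y)
      have hd0 := hR.nn x y
      have hsplit : 2 * q * ‖f' x y‖ ^ (2 * q - 2) * (star (f' x y) * k' x y).re -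
          2 * q * ‖f x y‖ ^ (2 * q - 2) * (star (f x y) * k x y).re =
          2 * q * ((‖f' x y‖ ^ (2 * q - 2) - ‖f x y‖ ^ (2 * q - 2)) * (star (f' x y) * k' x y).re +
            ‖f x y‖ ^ (2 * q - 2) * (star (f' x y - f x y) * k' x y).re +
            ‖f x y‖ ^ (2 * q - 2) * (star (f x y) * (k' x y - k x y)).re) := by
        have e1 : (star (f' x y - f x y) * k' x y).re =
            (star (f' x y) * k' x y).re - (star (f x y) * k' x y).re := by
          rw [star_sub, sub_mul, Complex.sub_re]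
        have e2 : (star (f x y) * (k' x y - k x y)).re =
            (star (f x y) * k' x y).re - (star (f x y) * k x y).re := by
          rw [mul_sub, Complex.sub_re]
        rw [e1, e2]; ring
      rw [hsplit, abs_mul, abs_of_nonneg (by positivity : (0 : ℝ) ≤ 2 * q)]
      refine mul_le_mul_of_nonneg_left ?_ (by positivity)
      refine (abs_add_three _ _ _).trans ?_
      have t1 : |(‖f' x y‖ ^ (2 * q - 2) - ‖f x y‖ ^ (2 * q - 2)) * (star (f' x y) * k' x y).re| ≤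
          C * (K * lam * (‖f x y‖ ^ (2 * q - 2) * d x y ^ 2 +
            lam ^ (2 * q - 2) * d x y ^ (2 * q))) := by
        rw [abs_mul]
        calc |‖f' x y‖ ^ (2 * q - 2) - ‖f x y‖ ^ (2 * q - 2)| * |(star (f' x y) * k' x y).re|
            ≤ |‖f' x y‖ ^ (2 * q - 2) - ‖f x y‖ ^ (2 * q - 2)| * (‖f' x y‖ * (C * d x y)) := by
              refine mul_le_mul_of_nonneg_left ?_ (abs_nonneg _)
              exact (hre _ _).trans (mul_le_mul_of_nonneg_left (hR.k2 x y) (norm_nonneg _))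
          _ = C * (|‖f' x y‖ ^ (2 * q - 2) - ‖f x y‖ ^ (2 * q - 2)| * (‖f' x y‖ * d x y)) := by ring
          _ ≤ _ := mul_le_mul_of_nonneg_left (hP x y).2.2.1 hC
      have t2 : |‖f x y‖ ^ (2 * q - 2) * (star (f' x y - f x y) * k' x y).re| ≤
          C ^ 2 * lam * (‖f x y‖ ^ (2 * q - 2) * d x y ^ 2) := by
        rw [abs_mul, abs_of_nonneg (pow_nonneg (norm_nonneg _) _)]
        calc ‖f x y‖ ^ (2 * q - 2) * |(star (f' x y - f x y) * k' x y).re|
            ≤ ‖f x y‖ ^ (2 * q - 2) * ((C * lam * d x y) * (C * d x y)) := by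
              refine mul_le_mul_of_nonneg_left ?_ (pow_nonneg (norm_nonneg _) _)
              exact (hre _ _).trans (mul_le_mul (hR.df x y) (hR.k2 x y) (norm_nonneg _)
                (by positivity))
          _ = _ := by ring
      have t3 : |‖f x y‖ ^ (2 * q - 2) * (star (f x y) * (k' x y - k x y)).re| ≤
          C * lam * (‖f x y‖ ^ (2 * q - 1) * d x y) := by
        rw [abs_mul, abs_of_nonneg (pow_nonneg (norm_nonneg _) _)]
        have h2 : ‖f x y‖ ^ (2 * q - 2) * ‖f x y‖ = ‖f x y‖ ^ (2 * q - 1) := by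
          rw [← pow_succ]; congr 1; omega
        calc ‖f x y‖ ^ (2 * q - 2) * |(star (f x y) * (k' x y - k x y)).re|
            ≤ ‖f x y‖ ^ (2 * q - 2) * (‖f x y‖ * (C * lam * d x y)) := by
              refine mul_le_mul_of_nonneg_left ?_ (pow_nonneg (norm_nonneg _) _)
              exact (hre _ _).trans (mul_le_mul_of_nonneg_left (hR.dk x y) (norm_nonneg _))
          _ = C * lam * ((‖f x y‖ ^ (2 * q - 2) * ‖f x y‖) * d x y) := by ring
          _ = _ := by rw [h2]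
      exact add_le_add (add_le_add t1 t2) t3
    refine h1.trans ?_
    have h2 : ∑ x, ∑ y, wt et x y * (2 * q *
        (C * (K * lam * (‖f x y‖ ^ (2 * q - 2) * d x y ^ 2 + lam ^ (2 * q - 2) * d x y ^ (2 * q))) +
          C ^ 2 * lam * (‖f x y‖ ^ (2 * q - 2) * d x y ^ 2) +
          C * lam * (‖f x y‖ ^ (2 * q - 1) * d x y))) =
        2 * q * C * (lam * LL q et f d) + 2 * q * (C * K + C ^ 2) * (lam * QQ q et f d) +
          2 * q * C * K * (lam * TT q et lam d) := by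
      unfold QQ TT LL
      simp only [Finset.mul_sum, ← Finset.sum_add_distrib]
      refine Finset.sum_congr rfl fun x _ => Finset.sum_congr rfl fun y _ => ?_
      ring
    rw [h2]
    have hL : 0 ≤ lam * LL q et f d := mul_nonneg hlam.le (Finset.sum_nonneg fun x _ =>
      Finset.sum_nonneg fun y _ => by
        have := hw x y
        have := hR.nn x y
        positivity)
    have hQ : 0 ≤ lam * QQ q et f d := mul_nonneg hlam.le (Finset.sum_nonneg fun x _ =>
      Finset.sum_nonneg fun y _ => by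
        have := hw x y
        have := hR.nn x y
        positivity)
    have hT : 0 ≤ lam * TT q et lam d := by
      unfold TT
      refine mul_nonneg hlam.le (mul_nonneg (by positivity) (Finset.sum_nonneg fun x _ =>
        Finset.sum_nonneg fun y _ => ?_))
      have := hw x y
      have := hR.nn x y
      positivity
    have hA : 2 * (q : ℝ) ≤ 4 * q ^ 2 + 2 * q + 1 := by nlinarith
    have c1 : 2 * (q : ℝ) * C ≤ C' := by
      calc 2 * (q : ℝ) * C ≤ (4 * q ^ 2 + 2 * q + 1) * (C + 1) ^ 2 :=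
            mul_le_mul hA hC1 hC (by positivity)
        _ ≤ C' := by rw [hC']; exact le_mul_of_one_le_right (by positivity) (by linarith)
    have c3 : 2 * (q : ℝ) * C * K ≤ C' := by
      rw [hC']
      refine mul_le_mul ?_ (by linarith) hK.le (by positivity)
      exact mul_le_mul hA hC1 hC (by positivity)
    have c2 : 2 * (q : ℝ) * (C * K + C ^ 2) ≤ C' := by
      have h3 : C * K + C ^ 2 ≤ (C + 1) ^ 2 * (K + 1) := by nlinarith
      calc 2 * (q : ℝ) * (C * K + C ^ 2) ≤ (4 * q ^ 2 + 2 * q + 1) * ((C + 1) ^ 2 * (K + 1)) :=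
            mul_le_mul hA h3 (by positivity) (by positivity)
        _ = C' := by rw [hC']; ring
    have e1 := mul_le_mul_of_nonneg_right c1 hL
    have e2 := mul_le_mul_of_nonneg_right c2 hQ
    have e3 := mul_le_mul_of_nonneg_right c3 hT
    calc 2 * q * C * (lam * LL q et f d) + 2 * q * (C * K + C ^ 2) * (lam * QQ q et f d) +
          2 * q * C * K * (lam * TT q et lam d)
        ≤ C' * (lam * LL q et f d) + C' * (lam * QQ q et f d) + C' * (lam * TT q et lam d) := by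
          linarith
      _ = _ := by ring
  · -- (f)
    have hKC : K ≤ C' := by
      rw [hC']
      nlinarith
    have h1 : NN q et f' ≤ ∑ x, ∑ y, wt et x y * (8 / 7 * ‖f x y‖ ^ (2 * q) +
        K * (lam ^ 2 * (lam ^ (2 * q - 2) * d x y ^ (2 * q)))) := by
      unfold NN
      refine Finset.sum_le_sum fun x _ => Finset.sum_le_sum fun y _ => ?_
      exact mul_le_mul_of_nonneg_left (hP x y).2.2.2 (hw x y)
    refine h1.trans ?_
    have h2 : ∑ x, ∑ y, wt et x y * (8 / 7 * ‖f x y‖ ^ (2 * q) +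
        K * (lam ^ 2 * (lam ^ (2 * q - 2) * d x y ^ (2 * q)))) =
        8 / 7 * NN q et f + K * (lam ^ 2 * TT q et lam d) := by
      unfold NN TT
      simp only [Finset.mul_sum, ← Finset.sum_add_distrib]
      refine Finset.sum_congr rfl fun x _ => Finset.sum_congr rfl fun y _ => ?_
      ring
    rw [h2]
    have hT : 0 ≤ lam ^ 2 * TT q et lam d := by
      unfold TT
      refine mul_nonneg (by positivity) (mul_nonneg (by positivity) (Finset.sum_nonneg fun x _ =>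
        Finset.sum_nonneg fun y _ => ?_))
      have := hw x y
      have := hR.nn x y
      positivity
    have := mul_le_mul_of_nonneg_right hKC hT
    linarith

end Pool.Agent.Kin
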