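import Pool.Agent.Kin.RepZ
import Pool.Agent.Kin.PowC
import Pool.Agent.Kin.JCmp
import Pool.Agent.Kin.Tsum

/-! KIN H1A: bounds for the components at a good configuration `h` and at
`h' = update h w t` (section A6, first half). -/

open Matrix Finset

noncomputable section

namespace Pool.Agent.Kin

lemma h1a_comb {P : Type} [Fintype P] {c a b Px Pz : ℝ} (hc : 0 ≤ c) (hPx : 0 ≤ Px)
    (hPz : 0 ≤ Pz) (hb : 0 ≤ b) (h : a ≤ Px * b) (A B : P → ℝ) (hB : ∀ p, 0 ≤ B p)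
    (hA : ∀ p, A p ≤ Pz * B p) :
    c * a + ∑ p, A p ≤ (Px + Pz) * (c * b + ∑ p, B p) := by
  have h1 : c * a ≤ (Px + Pz) * (c * b) := by
    have h2 : c * a ≤ c * (Px * b) := mul_le_mul_of_nonneg_left h hc
    have h3 : 0 ≤ Pz * (c * b) := by positivity
    linarith
  have h2 : ∑ p, A p ≤ (Px + Pz) * ∑ p, B p := by
    rw [Finset.mul_sum]
    refine Finset.sum_le_sum fun p _ => (hA p).trans ?_
    have h3 : 0 ≤ Px * B p := mul_nonneg hPx (hB p)
    linarith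
  linarith

lemma h1a_comb_abs {P : Type} [Fintype P] {c a b Px Pz : ℝ} (hc : 0 ≤ c) (hPx : 0 ≤ Px)
    (hPz : 0 ≤ Pz) (hb : 0 ≤ b) (h : |a| ≤ Px * b) (A B : P → ℝ) (hB : ∀ p, 0 ≤ B p)
    (hA : ∀ p, |A p| ≤ Pz * B p) :
    |c * a + ∑ p, A p| ≤ (Px + Pz) * (c * b + ∑ p, B p) := by
  refine le_trans ?_ (h1a_comb hc hPx hPz hb h (fun p => |A p|) B hB hA)
  refine (abs_add_le _ _).trans (add_le_add ?_ (Finset.abs_sum_le_sum_abs _ _))
  rw [abs_mul, abs_of_nonneg hc]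

lemma h1a_nonneg {ι : Type} [Fintype ι] [DecidableEq ι] (q : ℕ) {et lam : ℝ} (het : 0 < et)
    (hlam : 0 ≤ lam) (f : Matrix ι ι ℂ) {d : Matrix ι ι ℝ} (hd : ∀ x y, 0 ≤ d x y) :
    0 ≤ QQ q et f d ∧ 0 ≤ LL q et f d ∧ 0 ≤ TT q et lam d ∧ 0 ≤ NN q et f := by
  have hw : ∀ x y : ι, 0 ≤ wt et x y := by
    intro x y
    unfold wt
    split_ifs <;> positivity
  refine ⟨?_, ?_, ?_, ?_⟩
  · exact Finset.sum_nonneg fun x _ => Finset.sum_nonneg fun y _ =>
      mul_nonneg (mul_nonneg (hw x y) (by positivity)) (sq_nonneg _)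
  · exact Finset.sum_nonneg fun x _ => Finset.sum_nonneg fun y _ =>
      mul_nonneg (mul_nonneg (hw x y) (by positivity)) (hd x y)
  · exact mul_nonneg (by positivity) (Finset.sum_nonneg fun x _ => Finset.sum_nonneg fun y _ =>
      mul_nonneg (hw x y) (pow_nonneg (hd x y) _))
  · exact Finset.sum_nonneg fun x _ => Finset.sum_nonneg fun y _ =>
      mul_nonneg (hw x y) (by positivity)

lemma h1a_sum2 {P : Type} [Fintype P] (c u v : ℝ) (a b : ℝ) (A B : P → ℝ) :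
    c * (u * a + v * b) + ∑ p, (u * A p + v * B p) =
      u * (c * a + ∑ p, A p) + v * (c * b + ∑ p, B p) := by
  rw [Finset.sum_add_distrib, ← Finset.mul_sum, ← Finset.mul_sum]
  ring

lemma h1a_sum3 {P : Type} [Fintype P] (c u v x : ℝ) (a b e : ℝ) (A B E : P → ℝ) :
    c * (u * a + v * b + x * e) + ∑ p, (u * A p + v * B p + x * E p) =
      u * (c * a + ∑ p, A p) + v * (c * b + ∑ p, B p) + x * (c * e + ∑ p, E p) := by
  rw [Finset.sum_add_distrib, Finset.sum_add_distrib, ← Finset.mul_sum, ← Finset.mul_sum,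
    ← Finset.mul_sum]
  ring

/-- Comparison of `Γ` and of its derivatives at `h` (good) and `h' = update h w t`. `Cq` depends
on `q, bd, C1` only, `Cm` also on `m`. -/
theorem h1_parts (q : ℕ) (hq : 2 ≤ q) (bd C1 : ℝ) (hbd : 0 < bd) (hC1 : 1 ≤ C1) :
    ∃ Cq : ℝ, 0 < Cq ∧ ∀ m : ℕ, 3 ≤ m → ∃ Cm : ℝ, 0 < Cm ∧
    ∀ (ι P : Type) [Fintype ι] [DecidableEq ι] [Fintype P] (D : Dat ι P), D.Hyp → D.q = q →
      D.m = m → D.bd = bd → D.C1 = C1 → ∀ r : ℝ, 0 ≤ r → r ≤ 1 → ∀ (h : ι → ℝ) (w : ι) (t : ℝ),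
      |t - h w| ≤ 2 * bd * D.lam → D.Good r h →
      let h' := Function.update h w t
      |D.Dtot w r h| ≤ Cq * D.L1 w r h + Cm * (D.eps * D.L2 w r h) ∧
      |D.Gam1 r h' - D.Gam1 r h| ≤ Cq * (D.lam * D.L1 w r h + D.lam ^ 2 * D.T1 w r h) ∧
      |D.eps * D.Phi2 r h' - D.eps * D.Phi2 r h| ≤
        Cm * (D.eps * (D.lam * D.L2 w r h + D.lam ^ 2 * D.Q2 w r h + D.lam ^ 2 * D.T2 w r h)) ∧
      D.Ga2 w r h' - D.Dtot w r h' ≤ Cq * (D.Q1 w r h + D.T1 w r h) +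
        Cm * (D.eps * (D.Q2 w r h + D.T2 w r h)) ∧
      |D.Dtot w r h' - D.Dtot w r h| ≤
        Cq * (D.lam * D.L1 w r h + D.lam * D.Q1 w r h + D.lam * D.T1 w r h) +
        Cm * (D.eps * (D.lam * D.L2 w r h + D.lam * D.Q2 w r h + D.lam * D.T2 w r h)) ∧
      D.Gam1 r h' ≤ 8 / 7 * D.Gam1 r h + Cq * (D.lam ^ 2 * D.T1 w r h) := by
  obtain ⟨Cx, hCx, hrX⟩ := repX bd C1 hbd hC1
  obtain ⟨Cz, hCz, hrZ⟩ := repZ bd C1 hbd hC1
  obtain ⟨Px, hPx, hpx⟩ := powc q hq Cx hCx.le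
  obtain ⟨Pz, hPz, hpz⟩ := powc q hq Cz hCz.le
  obtain ⟨Ck, hCk, hk⟩ := kfac bd C1 hbd hC1
  refine ⟨Px + Pz, by positivity, fun m hm => ?_⟩
  obtain ⟨Cj, hCj, hj⟩ := jcmp m hm bd C1 Ck hbd hC1 hCk.le
  refine ⟨Cj, hCj, ?_⟩
  intro ι P _ _ _ D hD hDq hDm hDbd hDC1 r h0 h1 h w t ht hg
  have het := D.et_pos hD h0 h1
  have heta := hD.eta0
  have hr : 0 < D.et r := lt_of_lt_of_le heta het.1
  have hlam := hD.lam0
  have hlam1 := hD.lam1
  have hGd : ∀ x, ‖D.G r h x x‖ ≤ C1 := fun x => hDC1 ▸ hg.Gd x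
  have hsmall : 4 * bd * D.lam * C1 ≤ 1 := by
    have := hD.small
    rwa [hDbd, hDC1] at this
  have hc0 : (0 : ℝ) ≤ (Fintype.card P : ℝ) := Nat.cast_nonneg _
  have heps : 0 ≤ D.eps := by
    have h2 := hD.tau0
    have h3 := hD.KA0
    unfold Dat.eps Dat.s0
    positivity
  -- the components
  have RX := hrX ι P D hD hDbd hDC1 r hr h w t ht hGd
  have RZ := fun p => hrZ ι P D hD hDbd hDC1 p r hr het.1 h w t ht hGd
  obtain ⟨x1, x2, x3, x4, x5⟩ := hpx ι (D.et r) D.lam _ _ _ _ _ _ _ hr hlam hlam1 RX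
  have hz := fun p => hpz ι (D.et r) D.lam _ _ _ _ _ _ _ hr hlam hlam1 (RZ p)
  obtain ⟨xQ, xL, xT, xN⟩ := h1a_nonneg q hr hlam.le (D.X r h) RX.nn
  have hzn := fun p => h1a_nonneg q hr hlam.le (D.Z p r h) (RZ p).nn
  -- the matrix `J`
  have hgw : ‖D.G r h w w‖ ≤ C1 := hGd w
  obtain ⟨k1, k2, k3, k4⟩ := hk D.lam (t - h w) (D.G r h w w) hlam hsmall ht hgw
  have hH := hD.sym
  have hJ' := D.J_update hH hr h w t
  have hav : D.av r (Function.update h w t) w = fun x =>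
      (1 + ((t - h w : ℝ) : ℂ) * D.G r h w w)⁻¹ * D.av r h w x := by
    funext x
    exact D.av_update hH hr h w t x
  have hGw := D.Gww_update hH hr h w t
  have hpsd' := D.J_psd hH hr (Function.update h w t)
  rw [hJ'] at hpsd'
  obtain ⟨j1, j2, j3, j4⟩ := hj ι (D.J r h) (D.av r h w)
    (((t - h w : ℝ) : ℂ) / (1 + ((t - h w : ℝ) : ℂ) * D.G r h w w))
    (1 + ((t - h w : ℝ) : ℂ) * D.G r h w w)⁻¹ (D.G r h w w) D.lam (D.J_psd hH hr h) hpsd' hlam
    hlam1 k3 k2 (k4 3 (by norm_num)).1 hgw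
  have e1 : D.D2 w r h = 2 * m * (D.G r h w w * bil (D.J r h ^ (m - 1)) (D.av r h w)
      (D.av r h w)).im := by
    rw [Dat.D2, hDm]
  have e2 : D.L2 w r h = phi (D.J r h) (D.av r h w) (m - 1) := by rw [Dat.L2, hDm]
  have e3 : D.Q2 w r h = phi (D.J r h) (D.av r h w) 0 * phi (D.J r h) (D.av r h w) (m - 2) := by
    rw [Dat.Q2, hDm]
  have e4 : D.T2 w r h = phi (D.J r h) (D.av r h w) 0 ^ 2 *
      (D.lam * phi (D.J r h) (D.av r h w) 0) ^ (m - 2) := by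
    rw [Dat.T2, hDm]
  have e5 : D.Phi2 r h = (D.J r h ^ m).trace := by rw [Dat.Phi2, hDm]
  have e6 : D.Phi2 r (Function.update h w t) = ((D.J r h -
      imr (((t - h w : ℝ) : ℂ) / (1 + ((t - h w : ℝ) : ℂ) * D.G r h w w))
        (D.av r h w)) ^ m).trace := by
    rw [Dat.Phi2, hDm, hJ']
  have e7 : D.D2 w r (Function.update h w t) = 2 * m *
      ((1 + ((t - h w : ℝ) : ℂ) * D.G r h w w)⁻¹ * D.G r h w w * bil ((D.J r h -
      imr (((t - h w : ℝ) : ℂ) / (1 + ((t - h w : ℝ) : ℂ) * D.G r h w w))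
        (D.av r h w)) ^ (m - 1))
        (fun x => (1 + ((t - h w : ℝ) : ℂ) * D.G r h w w)⁻¹ * D.av r h w x)
        (fun x => (1 + ((t - h w : ℝ) : ℂ) * D.G r h w w)⁻¹ * D.av r h w x)).im := by
    rw [Dat.D2, hDm, hJ', hav, hGw]
  have e8 : D.QV2 w r (Function.update h w t) = m * ∑ i ∈ range (m - 1), ((D.J r h -
      imr (((t - h w : ℝ) : ℂ) / (1 + ((t - h w : ℝ) : ℂ) * D.G r h w w))
        (D.av r h w)) ^ i *
        imr 1 (fun x => (1 + ((t - h w : ℝ) : ℂ) * D.G r h w w)⁻¹ * D.av r h w x) *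
        ((D.J r h -
      imr (((t - h w : ℝ) : ℂ) / (1 + ((t - h w : ℝ) : ℂ) * D.G r h w w))
        (D.av r h w)) ^ (m - 2 - i) *
        imr 1 (fun x => (1 + ((t - h w : ℝ) : ℂ) * D.G r h w w)⁻¹ * D.av r h w x))).trace := by
    rw [Dat.QV2, hDm, hJ', hav]

  rw [← e1, ← e2] at j1
  rw [← e5, ← e6, ← e2, ← e3, ← e4] at j2
  rw [← e8, ← e3, ← e4] at j3
  rw [← e1, ← e7, ← e2, ← e3, ← e4] at j4
  intro h'
  refine ⟨?_, ?_, ?_, ?_, ?_, ?_⟩
  · -- (1)
    have c1 := h1a_comb_abs hc0 hPx.le hPz.le xL x1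
      (fun p => DD q (D.et r) (D.Z p r h) (D.ddZ p w r h))
      (fun p => LL q (D.et r) (D.Z p r h) (D.sZ p w r h)) (fun p => (hzn p).2.1)
      (fun p => (hz p).1)
    have e9 : D.Dtot w r h = ((Fintype.card P : ℝ) * DD q (D.et r) (D.X r h) (D.ddX w r h) +
        ∑ p, DD q (D.et r) (D.Z p r h) (D.ddZ p w r h)) + D.eps * D.D2 w r h := by
      rw [Dat.Dtot, hDq]
    have e10 : D.L1 w r h = (Fintype.card P : ℝ) * LL q (D.et r) (D.X r h) (D.sX w r h) +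
        ∑ p, LL q (D.et r) (D.Z p r h) (D.sZ p w r h) := by
      rw [Dat.L1, hDq]
    rw [e9, e10]
    refine (abs_add_le _ _).trans (add_le_add c1 ?_)
    rw [abs_mul, abs_of_nonneg heps]
    calc D.eps * |D.D2 w r h| ≤ D.eps * (Cj * D.L2 w r h) := mul_le_mul_of_nonneg_left j1 heps
      _ = _ := by ring
  · -- (2)
    have c1 := h1a_comb_abs hc0 hPx.le hPz.le (b := D.lam * LL q (D.et r) (D.X r h) (D.sX w r h) +
        D.lam ^ 2 * TT q (D.et r) D.lam (D.sX w r h)) (by positivity) x2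
      (fun p => NN q (D.et r) (D.Z p r h') - NN q (D.et r) (D.Z p r h))
      (fun p => D.lam * LL q (D.et r) (D.Z p r h) (D.sZ p w r h) +
        D.lam ^ 2 * TT q (D.et r) D.lam (D.sZ p w r h))
      (fun p => add_nonneg (mul_nonneg hlam.le (hzn p).2.1) (mul_nonneg (by positivity)
        (hzn p).2.2.1))
      (fun p => (hz p).2.1)
    rw [h1a_sum2] at c1
    have e9 : D.Gam1 r h' - D.Gam1 r h = (Fintype.card P : ℝ) * (NN q (D.et r) (D.X r h') -
        NN q (D.et r) (D.X r h)) + ∑ p, (NN q (D.et r) (D.Z p r h') -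
        NN q (D.et r) (D.Z p r h)) := by
      rw [Dat.Gam1, Dat.Gam1, hDq, Finset.sum_sub_distrib]
      ring
    have e10 : D.L1 w r h = (Fintype.card P : ℝ) * LL q (D.et r) (D.X r h) (D.sX w r h) +
        ∑ p, LL q (D.et r) (D.Z p r h) (D.sZ p w r h) := by
      rw [Dat.L1, hDq]
    have e11 : D.T1 w r h = (Fintype.card P : ℝ) * TT q (D.et r) D.lam (D.sX w r h) +
        ∑ p, TT q (D.et r) D.lam (D.sZ p w r h) := by
      rw [Dat.T1, hDq]
    rw [e9, e10, e11]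
    exact c1
  · -- (3)
    rw [← mul_sub, abs_mul, abs_of_nonneg heps]
    calc D.eps * |D.Phi2 r h' - D.Phi2 r h| ≤ D.eps * (Cj * (D.lam * D.L2 w r h +
          D.lam ^ 2 * D.Q2 w r h + D.lam ^ 2 * D.T2 w r h)) := mul_le_mul_of_nonneg_left j2 heps
      _ = _ := by ring
  · -- (4)
    have x3' : QV q (D.et r) (D.X r h') (D.dX w r h') ≤ Px *
        (1 * QQ q (D.et r) (D.X r h) (D.sX w r h) + 1 * TT q (D.et r) D.lam (D.sX w r h)) := by
      rw [one_mul, one_mul]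
      exact x3
    have c1 := h1a_comb hc0 hPx.le hPz.le (by positivity) x3'
      (fun p => QV q (D.et r) (D.Z p r h') (D.dZ p w r h'))
      (fun p => 1 * QQ q (D.et r) (D.Z p r h) (D.sZ p w r h) +
        1 * TT q (D.et r) D.lam (D.sZ p w r h))
      (fun p => add_nonneg (by rw [one_mul]; exact (hzn p).1) (by rw [one_mul]; exact (hzn p).2.2.1))
      (fun p => by
        simp only [one_mul]
        exact (hz p).2.2.1)
    rw [h1a_sum2] at c1
    have e9 : D.Ga2 w r h' - D.Dtot w r h' = ((Fintype.card P : ℝ) *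
        QV q (D.et r) (D.X r h') (D.dX w r h') + ∑ p, QV q (D.et r) (D.Z p r h')
          (D.dZ p w r h')) + D.eps * D.QV2 w r h' := by
      rw [Dat.Ga2, Dat.Dtot, hDq, Finset.sum_add_distrib]
      ring
    have e10 : D.Q1 w r h = (Fintype.card P : ℝ) * QQ q (D.et r) (D.X r h) (D.sX w r h) +
        ∑ p, QQ q (D.et r) (D.Z p r h) (D.sZ p w r h) := by
      rw [Dat.Q1, hDq]
    have e11 : D.T1 w r h = (Fintype.card P : ℝ) * TT q (D.et r) D.lam (D.sX w r h) +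
        ∑ p, TT q (D.et r) D.lam (D.sZ p w r h) := by
      rw [Dat.T1, hDq]
    rw [e9, e10, e11]
    refine add_le_add ?_ ?_
    · simpa only [one_mul] using c1
    · calc D.eps * D.QV2 w r h' ≤ D.eps * (Cj * (D.Q2 w r h + D.T2 w r h)) :=
            mul_le_mul_of_nonneg_left j3 heps
        _ = _ := by ring
  · -- (5)
    have c1 := h1a_comb_abs hc0 hPx.le hPz.le (b := D.lam * LL q (D.et r) (D.X r h) (D.sX w r h) +
        D.lam * QQ q (D.et r) (D.X r h) (D.sX w r h) +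
        D.lam * TT q (D.et r) D.lam (D.sX w r h)) (by positivity) x4
      (fun p => DD q (D.et r) (D.Z p r h') (D.ddZ p w r h') -
        DD q (D.et r) (D.Z p r h) (D.ddZ p w r h))
      (fun p => D.lam * LL q (D.et r) (D.Z p r h) (D.sZ p w r h) +
        D.lam * QQ q (D.et r) (D.Z p r h) (D.sZ p w r h) +
        D.lam * TT q (D.et r) D.lam (D.sZ p w r h))
      (fun p => add_nonneg (add_nonneg (mul_nonneg hlam.le (hzn p).2.1)
        (mul_nonneg hlam.le (hzn p).1)) (mul_nonneg hlam.le (hzn p).2.2.1))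
      (fun p => (hz p).2.2.2.1)
    rw [h1a_sum3] at c1
    have e9 : D.Dtot w r h' - D.Dtot w r h = ((Fintype.card P : ℝ) *
        (DD q (D.et r) (D.X r h') (D.ddX w r h') - DD q (D.et r) (D.X r h) (D.ddX w r h)) +
        ∑ p, (DD q (D.et r) (D.Z p r h') (D.ddZ p w r h') -
        DD q (D.et r) (D.Z p r h) (D.ddZ p w r h))) + D.eps * (D.D2 w r h' - D.D2 w r h) := by
      rw [Dat.Dtot, Dat.Dtot, hDq, Finset.sum_sub_distrib]
      ring
    have e10 : D.L1 w r h = (Fintype.card P : ℝ) * LL q (D.et r) (D.X r h) (D.sX w r h) +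
        ∑ p, LL q (D.et r) (D.Z p r h) (D.sZ p w r h) := by
      rw [Dat.L1, hDq]
    have e11 : D.T1 w r h = (Fintype.card P : ℝ) * TT q (D.et r) D.lam (D.sX w r h) +
        ∑ p, TT q (D.et r) D.lam (D.sZ p w r h) := by
      rw [Dat.T1, hDq]
    have e12 : D.Q1 w r h = (Fintype.card P : ℝ) * QQ q (D.et r) (D.X r h) (D.sX w r h) +
        ∑ p, QQ q (D.et r) (D.Z p r h) (D.sZ p w r h) := by
      rw [Dat.Q1, hDq]
    rw [e9, e10, e11, e12]
    refine (abs_add_le _ _).trans (add_le_add c1 ?_)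
    rw [abs_mul, abs_of_nonneg heps]
    calc D.eps * |D.D2 w r h' - D.D2 w r h| ≤ D.eps * (Cj * (D.lam * D.L2 w r h +
          D.lam * D.Q2 w r h + D.lam * D.T2 w r h)) := mul_le_mul_of_nonneg_left j4 heps
      _ = _ := by ring
  · -- (6)
    have x5' : NN q (D.et r) (D.X r h') - 8 / 7 * NN q (D.et r) (D.X r h) ≤
        Px * (D.lam ^ 2 * TT q (D.et r) D.lam (D.sX w r h)) := by
      linarith [x5]
    have c1 := h1a_comb hc0 hPx.le hPz.le (by positivity) x5'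
      (fun p => NN q (D.et r) (D.Z p r h') - 8 / 7 * NN q (D.et r) (D.Z p r h))
      (fun p => D.lam ^ 2 * TT q (D.et r) D.lam (D.sZ p w r h))
      (fun p => mul_nonneg (by positivity) (hzn p).2.2.1)
      (fun p => by linarith [(hz p).2.2.2.2])
    have e9 : D.Gam1 r h' - 8 / 7 * D.Gam1 r h = (Fintype.card P : ℝ) * (NN q (D.et r) (D.X r h') -
        8 / 7 * NN q (D.et r) (D.X r h)) + ∑ p, (NN q (D.et r) (D.Z p r h') -
        8 / 7 * NN q (D.et r) (D.Z p r h)) := by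
      rw [Dat.Gam1, Dat.Gam1, hDq, Finset.sum_sub_distrib, ← Finset.mul_sum]
      ring
    have e11 : D.lam ^ 2 * D.T1 w r h = (Fintype.card P : ℝ) *
        (D.lam ^ 2 * TT q (D.et r) D.lam (D.sX w r h)) +
        ∑ p, D.lam ^ 2 * TT q (D.et r) D.lam (D.sZ p w r h) := by
      rw [Dat.T1, hDq, ← Finset.mul_sum]
      ring
    rw [← e9, ← e11] at c1
    linarith

end Pool.Agent.Kin
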