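import Pool.Agent.Kin.JMom

/-! KIN JWORD: words in `J` and `J' = J - Im(c a aᵀ)` (section A5). -/

open Matrix Finset

noncomputable section

namespace Pool.Agent.Kin

variable {ι : Type} [Fintype ι] [DecidableEq ι]

lemma bil_sub (W W' : Matrix ι ι ℝ) (u v : ι → ℂ) : bil (W - W') u v = bil W u v - bil W' u v := by
  unfold bil
  rw [← Finset.sum_sub_distrib]
  refine Finset.sum_congr rfl fun x _ => ?_
  rw [← Finset.sum_sub_distrib]
  refine Finset.sum_congr rfl fun y _ => ?_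
  rw [Matrix.sub_apply]
  push_cast
  ring

lemma bil_neg (W : Matrix ι ι ℝ) (u v : ι → ℂ) : bil (-W) u v = -bil W u v := by
  unfold bil
  rw [← Finset.sum_neg_distrib]
  refine Finset.sum_congr rfl fun x _ => ?_
  rw [← Finset.sum_neg_distrib]
  refine Finset.sum_congr rfl fun y _ => ?_
  rw [Matrix.neg_apply]
  push_cast
  ring

lemma bil_sum {κ : Type} (s : Finset κ) (W : κ → Matrix ι ι ℝ) (u v : ι → ℂ) :
    bil (∑ i ∈ s, W i) u v = ∑ i ∈ s, bil (W i) u v := by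
  unfold bil
  rw [Finset.sum_comm (s := s)]
  refine Finset.sum_congr rfl fun x _ => ?_
  rw [Finset.sum_comm (s := s)]
  refine Finset.sum_congr rfl fun y _ => ?_
  rw [Matrix.sum_apply]
  push_cast
  rw [Finset.mul_sum, Finset.sum_mul]

lemma bil_eq_dot (W : Matrix ι ι ℝ) (u v : ι → ℂ) :
    bil W u v = u ⬝ᵥ (W.map (fun r : ℝ => (r : ℂ)) *ᵥ v) := by
  simp only [bil, dotProduct, Matrix.mulVec, Matrix.map_apply, Finset.mul_sum, mul_assoc]

/-- A rank two letter inside a word. -/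
lemma bil_sandwich (W₁ W₂ : Matrix ι ι ℝ) (c : ℂ) (a u v : ι → ℂ) :
    bil (W₁ * imr c a * W₂) u v = (1 / (2 * Complex.I)) *
      (c * (bil W₁ u a * bil W₂ a v) -
        star c * (bil W₁ u (fun x => star (a x)) * bil W₂ (fun x => star (a x)) v)) := by
  have hD : (imr c a).map (fun r : ℝ => (r : ℂ)) = (1 / (2 * Complex.I)) •
      (c • vecMulVec a a - star c • vecMulVec (fun x => star (a x)) (fun x => star (a x))) := by
    ext x y
    simp only [Matrix.map_apply, imr, Matrix.smul_apply, Matrix.sub_apply, vecMulVec_apply,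
      smul_eq_mul]
    have h : (c * a x * a y - star (c * a x * a y)) = 2 * Complex.I * ((c * a x * a y).im : ℂ) := by
      have := Complex.sub_conj (c * a x * a y)
      rw [← starRingEnd_apply, this]
      push_cast
      ring
    have h2 : star (c * a x * a y) = star c * (star (a x) * star (a y)) := by
      rw [StarMul.star_mul, StarMul.star_mul]
      ring
    rw [h2] at h
    have h3 : c * (a x * a y) - star c * (star (a x) * star (a y)) =
        2 * Complex.I * ((c * a x * a y).im : ℂ) := by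
      rw [← h]
      ring
    rw [h3]
    have hI : (2 * Complex.I) ≠ 0 := by simp
    field_simp
  have hm : (W₁ * imr c a * W₂).map (fun r : ℝ => (r : ℂ)) =
      W₁.map (fun r : ℝ => (r : ℂ)) * (imr c a).map (fun r : ℝ => (r : ℂ)) *
        W₂.map (fun r : ℝ => (r : ℂ)) := by
    have h1 : ∀ A B : Matrix ι ι ℝ, (A * B).map (fun r : ℝ => (r : ℂ)) =
        A.map (fun r : ℝ => (r : ℂ)) * B.map (fun r : ℝ => (r : ℂ)) := fun A B =>
      Matrix.map_mul (f := Complex.ofRealHom)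
    rw [h1, h1]
  rw [bil_eq_dot, hm, hD]
  simp only [bil_eq_dot]
  rw [← Matrix.mulVec_mulVec, ← Matrix.mulVec_mulVec, Matrix.dotProduct_mulVec]
  simp only [Matrix.smul_mulVec, Matrix.sub_mulVec, Matrix.vecMulVec_mulVec, dotProduct_smul,
    dotProduct_sub, smul_eq_mul, ← Matrix.dotProduct_mulVec]
  simp [Matrix.dotProduct_mulVec]

/-- Bound for a rank two letter inside a word. -/
lemma bil_sandwich_le (W₁ W₂ : Matrix ι ι ℝ) (c : ℂ) (a u v : ι → ℂ) (A B : ℝ)
    (h1 : ‖bil W₁ u a‖ ≤ A) (h2 : ‖bil W₁ u (fun x => star (a x))‖ ≤ A)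
    (h3 : ‖bil W₂ a v‖ ≤ B) (h4 : ‖bil W₂ (fun x => star (a x)) v‖ ≤ B) :
    ‖bil (W₁ * imr c a * W₂) u v‖ ≤ ‖c‖ * (A * B) := by
  have hA : 0 ≤ A := (norm_nonneg _).trans h1
  have k1 : ‖c * (bil W₁ u a * bil W₂ a v)‖ ≤ ‖c‖ * (A * B) := by
    rw [norm_mul, norm_mul]
    exact mul_le_mul_of_nonneg_left (mul_le_mul h1 h3 (norm_nonneg _) hA) (norm_nonneg _)
  have k2 : ‖star c * (bil W₁ u (fun x => star (a x)) * bil W₂ (fun x => star (a x)) v)‖ ≤
      ‖c‖ * (A * B) := by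
    rw [norm_mul, norm_mul, norm_star]
    exact mul_le_mul_of_nonneg_left (mul_le_mul h2 h4 (norm_nonneg _) hA) (norm_nonneg _)
  rw [bil_sandwich, norm_mul]
  have k3 : ‖(1 / (2 * Complex.I) : ℂ)‖ = 1 / 2 := by simp
  rw [k3]
  have k4 := norm_sub_le (c * (bil W₁ u a * bil W₂ a v))
    (star c * (bil W₁ u (fun x => star (a x)) * bil W₂ (fun x => star (a x)) v))
  linarith

/-- Telescoping. -/
lemma jword_tele (J D : Matrix ι ι ℝ) (i j : ℕ) :
    J ^ (i + j) - J ^ i * (J - D) ^ j =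
      ∑ l ∈ range j, J ^ (i + l) * D * (J - D) ^ (j - 1 - l) := by
  induction j with
  | zero => simp
  | succ j ih =>
    rw [Finset.sum_range_succ]
    have e1 : ∑ l ∈ range j, J ^ (i + l) * D * (J - D) ^ (j + 1 - 1 - l) =
        (∑ l ∈ range j, J ^ (i + l) * D * (J - D) ^ (j - 1 - l)) * (J - D) := by
      rw [Finset.sum_mul]
      refine Finset.sum_congr rfl fun l hl => ?_
      have := Finset.mem_range.1 hl
      rw [Matrix.mul_assoc (J ^ (i + l) * D) ((J - D) ^ (j - 1 - l)), ← pow_succ]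
      congr 2
      omega
    rw [e1, ← ih, Nat.add_sub_cancel, Nat.sub_self, pow_zero, Matrix.mul_one, Matrix.sub_mul,
      Matrix.mul_sub, Matrix.mul_assoc (J ^ i), ← pow_succ, ← pow_succ]
    rw [← add_assoc]
    abel

/-- The bound for words. -/
lemma word_le {J : Matrix ι ι ℝ} (hJ : J.PosSemidef) (a : ι → ℂ) (m : ℕ) (hm : 3 ≤ m) (c : ℂ)
    (x : ℝ) (hx : 0 ≤ x) (hk : ∀ k ≤ m - 2, phi J a k ≤ phi J a 0 * x ^ k) (k : ℕ)
    (hkm : k ≤ m - 2) (u v : ι → ℂ)
    (hu : u = a ∨ u = fun x => star (a x)) (hv : v = a ∨ v = fun x => star (a x)) :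
    ‖bil ((J - imr c a) ^ k) u v‖ ≤ phi J a 0 * (x + ‖c‖ * phi J a 0) ^ k := by
  induction k using Nat.strong_induction_on generalizing u v with
  | _ k ih =>
  have hp := phi_nonneg hJ a 0
  have he : 0 ≤ ‖c‖ * phi J a 0 := mul_nonneg (norm_nonneg _) hp
  have ht := jword_tele J (imr c a) 0 k
  simp only [zero_add, pow_zero, Matrix.one_mul] at ht
  have e1 : (J - imr c a) ^ k = J ^ k -
      ∑ l ∈ range k, J ^ l * imr c a * (J - imr c a) ^ (k - 1 - l) := by
    rw [← ht]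
    abel
  rw [e1, bil_sub, bil_sum]
  refine (norm_sub_le _ _).trans ?_
  have h1 : ‖bil (J ^ k) u v‖ ≤ phi J a 0 * x ^ k :=
    (bil_le hJ a k u v hu hv).trans (hk k hkm)
  have h2 : ‖∑ l ∈ range k, bil (J ^ l * imr c a * (J - imr c a) ^ (k - 1 - l)) u v‖ ≤
      ∑ l ∈ range k, ‖c‖ * ((phi J a 0 * x ^ l) *
        (phi J a 0 * (x + ‖c‖ * phi J a 0) ^ (k - 1 - l))) := by
    refine (norm_sum_le _ _).trans (Finset.sum_le_sum fun l hl => ?_)
    have hl' := Finset.mem_range.1 hl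
    refine bil_sandwich_le _ _ c a u v _ _ ?_ ?_ ?_ ?_
    · exact (bil_le hJ a l u a hu (Or.inl rfl)).trans (hk l (by omega))
    · exact (bil_le hJ a l u _ hu (Or.inr rfl)).trans (hk l (by omega))
    · exact ih (k - 1 - l) (by omega) (by omega) a v (Or.inl rfl) hv
    · exact ih (k - 1 - l) (by omega) (by omega) _ v (Or.inr rfl) hv
  have h3 : phi J a 0 * x ^ k + ∑ l ∈ range k, ‖c‖ * ((phi J a 0 * x ^ l) *
        (phi J a 0 * (x + ‖c‖ * phi J a 0) ^ (k - 1 - l))) =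
      phi J a 0 * (x + ‖c‖ * phi J a 0) ^ k := by
    have h4 : ∑ l ∈ range k, ‖c‖ * ((phi J a 0 * x ^ l) *
        (phi J a 0 * (x + ‖c‖ * phi J a 0) ^ (k - 1 - l))) =
        phi J a 0 * ((∑ l ∈ range k, x ^ l * (x + ‖c‖ * phi J a 0) ^ (k - 1 - l)) *
          (‖c‖ * phi J a 0)) := by
      rw [Finset.sum_mul, Finset.mul_sum]
      refine Finset.sum_congr rfl fun l _ => ?_
      ring
    have h5 := (Commute.all x (x + ‖c‖ * phi J a 0)).geom_sum₂_mul k
    have h6 : (∑ l ∈ range k, x ^ l * (x + ‖c‖ * phi J a 0) ^ (k - 1 - l)) *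
        (‖c‖ * phi J a 0) = (x + ‖c‖ * phi J a 0) ^ k - x ^ k := by
      linear_combination (-1 : ℝ) * h5
    rw [h4, h6]
    ring
  linarith

lemma word_diff_le {J : Matrix ι ι ℝ} (hJ : J.PosSemidef) (a : ι → ℂ) (m : ℕ) (hm : 3 ≤ m)
    (c : ℂ) (x : ℝ) (hx : 0 ≤ x) (hk : ∀ k ≤ m - 2, phi J a k ≤ phi J a 0 * x ^ k) (i j : ℕ)
    (hij : i + j = m - 1) (u v : ι → ℂ)
    (hu : u = a ∨ u = fun x => star (a x)) (hv : v = a ∨ v = fun x => star (a x)) :
    ‖bil (J ^ i * (J - imr c a) ^ j - J ^ (m - 1)) u v‖ ≤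
      (m - 1) * (‖c‖ * phi J a 0 ^ 2) * (x + ‖c‖ * phi J a 0) ^ (m - 2) := by
  have hp := phi_nonneg hJ a 0
  have he : 0 ≤ ‖c‖ * phi J a 0 := mul_nonneg (norm_nonneg _) hp
  have hy : 0 ≤ x + ‖c‖ * phi J a 0 := by linarith
  have e1 : J ^ i * (J - imr c a) ^ j - J ^ (m - 1) =
      -∑ l ∈ range j, J ^ (i + l) * imr c a * (J - imr c a) ^ (j - 1 - l) := by
    rw [← jword_tele J (imr c a) i j, hij]
    abel
  rw [e1, bil_neg, norm_neg, bil_sum]
  have h2 : ∀ l ∈ range j, ‖bil (J ^ (i + l) * imr c a * (J - imr c a) ^ (j - 1 - l)) u v‖ ≤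
      (‖c‖ * phi J a 0 ^ 2) * (x + ‖c‖ * phi J a 0) ^ (m - 2) := by
    intro l hl
    have hl' := Finset.mem_range.1 hl
    have h3 : ∀ w : ι → ℂ, (w = a ∨ w = fun x => star (a x)) →
        ‖bil (J ^ (i + l)) u w‖ ≤ phi J a 0 * (x + ‖c‖ * phi J a 0) ^ (i + l) := by
      intro w hw
      refine ((bil_le hJ a (i + l) u w hu hw).trans (hk (i + l) (by omega))).trans ?_
      exact mul_le_mul_of_nonneg_left (pow_le_pow_left₀ hx (by linarith) _) hp
    refine (bil_sandwich_le _ _ c a u v _ _ (h3 a (Or.inl rfl)) (h3 _ (Or.inr rfl))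
      (word_le hJ a m hm c x hx hk (j - 1 - l) (by omega) a v (Or.inl rfl) hv)
      (word_le hJ a m hm c x hx hk (j - 1 - l) (by omega) _ v (Or.inr rfl) hv)).trans
      (le_of_eq ?_)
    have h4 : m - 2 = (i + l) + (j - 1 - l) := by omega
    rw [h4, pow_add]
    ring
  refine (norm_sum_le _ _).trans ((Finset.sum_le_sum h2).trans ?_)
  rw [Finset.sum_const, Finset.card_range, nsmul_eq_mul, mul_assoc ((m : ℝ) - 1)]
  refine mul_le_mul_of_nonneg_right ?_ (by positivity)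
  have h5 : (j : ℝ) ≤ ((m - 1 : ℕ) : ℝ) := by exact_mod_cast (by omega : j ≤ m - 1)
  rw [Nat.cast_sub (by omega)] at h5
  exact_mod_cast h5

/-- the moments of `J'` -/
lemma phi_word_le {J : Matrix ι ι ℝ} (hJ : J.PosSemidef) (a : ι → ℂ) (m : ℕ) (hm : 3 ≤ m) (c : ℂ)
    (x : ℝ) (hx : 0 ≤ x) (hk : ∀ k ≤ m - 2, phi J a k ≤ phi J a 0 * x ^ k) (k : ℕ)
    (hkm : k ≤ m - 2) :
    phi (J - imr c a) a k ≤ phi J a 0 * (x + ‖c‖ * phi J a 0) ^ k := by
  have h1 : phi (J - imr c a) a k =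
      (bil ((J - imr c a) ^ k) a (fun x => star (a x))).re := by
    unfold phi bil dotProduct Matrix.mulVec dotProduct
    rw [Complex.re_sum, ← Finset.sum_add_distrib]
    refine Finset.sum_congr rfl fun y _ => ?_
    rw [Complex.re_sum, Finset.mul_sum, Finset.mul_sum, ← Finset.sum_add_distrib]
    refine Finset.sum_congr rfl fun z _ => ?_
    simp
    ring
  rw [h1]
  exact (Complex.re_le_norm _).trans
    (word_le hJ a m hm c x hx hk k hkm a _ (Or.inl rfl) (Or.inr rfl))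

end Pool.Agent.Kin
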