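import Pool.Agent.Kin.Gap
import Pool.Agent.Kin.FHat
import Pool.Agent.Kin.Fejer
import Pool.Agent.Kin.CntQ

/-! KIN KHAT: `∑ fej |Fhat_r| ≤ C λ^(κ/4)/η` (section B9). -/

open Matrix Finset

noncomputable section

namespace Pool.Agent.Kin

/-- `η = λ^(2+kap)`, `s = λ² sg`, `ζ` with `Im ζ = η + s g`, `g = Im g0`. -/
theorem khat (d : ℕ) (hd : 3 ≤ d) (c0 C0 v V kap : ℝ) (hc0 : 0 < c0) (hC0 : 0 < C0) (hv : 0 < v)
    (hk : 0 < kap) (hk1 : kap ≤ 1 / 8) :
    ∃ C lam0 : ℝ, 0 < C ∧ 0 < lam0 ∧ ∀ (L : ℕ) [NeZero L] (ζ : ℂ) (lam sg g dbar : ℝ) (R : ℕ),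
    0 < lam → lam ≤ lam0 → lam ^ (-10 : ℝ) ≤ L → v ≤ sg → sg ≤ V → c0 ≤ g → g ≤ C0 →
    ζ.im = lam ^ (2 + kap) + lam ^ 2 * sg * g → c0 ≤ (Mx ζ (0 : Tor d L)).im →
    (Mx ζ (0 : Tor d L)).im ≤ C0 → |(Mx ζ (0 : Tor d L)).im - g| ≤ dbar →
    lam ^ 2 * sg * dbar ≤ lam ^ (2 + kap) / 2 → (R : ℝ) ≤ 2 * lam ^ (-(2 + kap / 8)) →
    ∀ r : ℝ, 0 ≤ r → r ≤ 1 →
    ∑ q : Tor d L, fej (2 * R + 1) q *
      |ST ζ q / (1 - lam ^ 2 * sg * r ^ 2 * ST ζ q)| ≤ C * lam ^ (kap / 4) / lam ^ (2 + kap) := by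
  obtain ⟨c, γ0, hc, hγ0, hgap⟩ := ST_gap d hd (kap / 16) c0 (by positivity) (by linarith) hc0
  set W : ℝ := 1 + |V| * C0 with hW
  have hW1 : 1 ≤ W := by
    have : 0 ≤ |V| * C0 := by positivity
    linarith
  have hW0 : 0 < W := by linarith
  set c1 : ℝ := min c 1 with hc1
  have hc10 : 0 < c1 := lt_min hc one_pos
  have hc11 : c1 ≤ 1 := min_le_right _ _
  have hc1c : c1 ≤ c := min_le_left _ _
  set B2 : ℝ := (2 + 2 * C0 / c0) * W ^ 2 / (v * c1) with hB2
  have hB20 : 0 < B2 := by positivity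
  set lam0 : ℝ := min (min (1 / 5) (γ0 / W)) ((v * c0) ^ 3 / 8) with hlam0
  have hl0 : 0 < lam0 := lt_min (lt_min (by norm_num) (by positivity)) (by positivity)
  refine ⟨10 ^ d * (2 * C0) + B2, lam0, by positivity, hl0, ?_⟩
  intro L _ ζ lam sg g dbar R hlam hlamle hLlam hsg1 hsg2 hg1 hg2 hζ hA1 hA2 hAg hsd hR r hr0 hr1
  have hl5 : lam ≤ 1 / 5 := hlamle.trans ((min_le_left _ _).trans (min_le_left _ _))
  have hlγ : lam ≤ γ0 / W := hlamle.trans ((min_le_left _ _).trans (min_le_right _ _))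
  have hl8 : lam ≤ (v * c0) ^ 3 / 8 := hlamle.trans (min_le_right _ _)
  have hl1 : lam ≤ 1 := by linarith
  have hL0 : (0 : ℝ) < L := Nat.cast_pos.2 (Nat.pos_of_ne_zero (NeZero.ne L))
  have hsg : 0 < sg := by linarith
  have hg : 0 < g := by linarith
  have hV : sg ≤ |V| := hsg2.trans (le_abs_self V)
  set A : ℝ := (Mx ζ (0 : Tor d L)).im with hA
  have hA0 : 0 < A := by linarith
  set η : ℝ := lam ^ (2 + kap) with hη
  have hη0 : 0 < η := Real.rpow_pos_of_pos hlam _
  set s : ℝ := lam ^ 2 * sg with hs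
  have hs0 : 0 < s := by positivity
  have hγpos : 0 < ζ.im := by
    rw [hζ]
    positivity
  -- powers of lam
  have hpow : ∀ a b : ℝ, b ≤ a → lam ^ a ≤ lam ^ b := fun a b h =>
    Real.rpow_le_rpow_of_exponent_ge hlam hl1 h
  have hpow1 : ∀ a : ℝ, 0 ≤ a → lam ^ a ≤ 1 := fun a h => Real.rpow_le_one hlam.le hl1 h
  have hadd : ∀ a b : ℝ, lam ^ a * lam ^ b = lam ^ (a + b) := fun a b =>
    (Real.rpow_add hlam a b).symm
  have hpp : ∀ a : ℝ, 0 < lam ^ a := fun a => Real.rpow_pos_of_pos hlam a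
  have h2 : lam ^ (2 : ℝ) = lam ^ 2 := by
    rw [← Real.rpow_natCast]
    norm_num
  have hη2 : η ≤ lam ^ 2 := by
    rw [← h2]
    exact hpow _ _ (by linarith)
  -- upper and lower bound of the imaginary part
  have hγu : ζ.im ≤ lam ^ 2 * W := by
    rw [hζ]
    have h3 : lam ^ 2 * sg * g ≤ lam ^ 2 * |V| * C0 := by
      have : sg * g ≤ |V| * C0 := mul_le_mul hV hg2 hg.le (abs_nonneg _)
      have h4 : 0 ≤ lam ^ 2 := by positivity
      nlinarith
    rw [hW]
    nlinarith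
  have hγl : lam ^ 2 * (v * c0) ≤ ζ.im := by
    rw [hζ]
    have h3 : v * c0 ≤ sg * g := mul_le_mul hsg1 hg1 hc0.le hsg.le
    have h4 : 0 ≤ lam ^ 2 := by positivity
    nlinarith
  have hγ0' : ζ.im ≤ γ0 := by
    refine hγu.trans ?_
    rw [le_div_iff₀ hW0] at hlγ
    have : lam ^ 2 ≤ lam := by nlinarith
    nlinarith
  have hLγ : 8 / ζ.im ^ 3 ≤ L := by
    refine le_trans ?_ hLlam
    have h10 : lam ^ (-10 : ℝ) = (lam ^ 10)⁻¹ := by
      rw [Real.rpow_neg hlam.le]
      congr 1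
      rw [← Real.rpow_natCast]
      norm_num
    rw [h10]
    have h3 : (lam ^ 2 * (v * c0)) ^ 3 ≤ ζ.im ^ 3 := pow_le_pow_left₀ (by positivity) hγl 3
    have h4 : 8 * lam ^ 10 ≤ ζ.im ^ 3 := by
      refine le_trans ?_ h3
      have h5 : lam ^ 4 ≤ lam := by
        calc lam ^ 4 = lam * lam ^ 3 := by ring
          _ ≤ lam * 1 := mul_le_mul_of_nonneg_left (pow_le_one₀ hlam.le hl1) hlam.le
          _ = lam := mul_one _
      have h6 : 8 * lam ^ 4 ≤ (v * c0) ^ 3 := by linarith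
      have h7 : 8 * lam ^ 10 = lam ^ 6 * (8 * lam ^ 4) := by ring
      have h8 : (lam ^ 2 * (v * c0)) ^ 3 = lam ^ 6 * (v * c0) ^ 3 := by ring
      rw [h7, h8]
      exact mul_le_mul_of_nonneg_left h6 (by positivity)
    rw [div_le_iff₀ (by positivity), inv_mul_eq_div, le_div_iff₀ (by positivity)]
    exact h4
  have hST0 : ST ζ (0 : Tor d L) = A / (η + s * g) := by
    rw [ST_zero ζ hγpos, hζ]
  have hγeq : ζ.im = η + s * g := hζ
  have hSle : ∀ q : Tor d L, |ST ζ q| ≤ A / (η + s * g) := by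
    intro q
    rw [← hST0]
    exact abs_ST_le ζ q
  -- first bound
  have hF1 : ∀ q : Tor d L, |ST ζ q / (1 - s * r ^ 2 * ST ζ q)| ≤ 2 * C0 / η := by
    intro q
    refine (fhat_bounds η s g A dbar (ST ζ q) r hη0 hs0 hg hA0 hAg hsd (hSle q) hr0 hr1).2.1.trans ?_
    have h3 : 0 ≤ s * (1 - r ^ 2) * g := by
      have : r ^ 2 ≤ 1 := pow_le_one₀ hr0 hr1
      exact mul_nonneg (mul_nonneg hs0.le (by linarith)) hg.le
    apply div_le_div₀ (by positivity) (by linarith) hη0 (by linarith)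
  -- second bound
  set p0 : ℝ := lam ^ (2 + kap / 4) with hp0
  have hp00 : 0 < p0 := hpp _
  have hF2 : ∀ q : Tor d L, p0 < rh q → |ST ζ q / (1 - s * r ^ 2 * ST ζ q)| ≤
      B2 * lam ^ (kap / 4) / η := by
    intro q hq
    set κ : ℝ := c1 * (lam ^ (3 * kap / 4) / W ^ 2) with hκ
    have hκ0 : 0 < κ := mul_pos hc10 (div_pos (hpp _) (by positivity))
    have hle1 : lam ^ (3 * kap / 4) / W ^ 2 ≤ 1 := by
      rw [div_le_one (by positivity)]
      exact (hpow1 _ (by positivity)).trans (one_le_pow₀ hW1)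
    have hκ1 : κ ≤ 1 := by
      have h3 : 0 ≤ lam ^ (3 * kap / 4) / W ^ 2 := by
        have := hpp (3 * kap / 4)
        positivity
      calc κ ≤ 1 * 1 := mul_le_mul hc11 hle1 h3 zero_le_one
        _ = 1 := one_mul 1
    have hγe : ζ.im ^ (1 - kap / 16) ≤ lam ^ (2 - kap / 8) * W := by
      calc ζ.im ^ (1 - kap / 16) ≤ (lam ^ 2 * W) ^ (1 - kap / 16) :=
            Real.rpow_le_rpow hγpos.le hγu (by linarith)
        _ = (lam ^ 2) ^ (1 - kap / 16) * W ^ (1 - kap / 16) :=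
            Real.mul_rpow (by positivity) hW0.le
        _ ≤ lam ^ (2 - kap / 8) * W := by
            apply mul_le_mul _ _ (by positivity) (hpp _).le
            · rw [← h2, ← Real.rpow_mul hlam.le]
              apply le_of_eq
              congr 1
              ring
            · calc W ^ (1 - kap / 16) ≤ W ^ (1 : ℝ) :=
                    Real.rpow_le_rpow_of_exponent_le hW1 (by linarith)
                _ = W := Real.rpow_one W
    have hγe0 : 0 < ζ.im ^ (1 - kap / 16) := Real.rpow_pos_of_pos hγpos _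
    have hratio : lam ^ (3 * kap / 8) / W ≤ rh q / ζ.im ^ (1 - kap / 16) := by
      rw [div_le_div_iff₀ hW0 hγe0]
      calc lam ^ (3 * kap / 8) * ζ.im ^ (1 - kap / 16) ≤
            lam ^ (3 * kap / 8) * (lam ^ (2 - kap / 8) * W) :=
            mul_le_mul_of_nonneg_left hγe (hpp _).le
        _ = p0 * W := by
            rw [← mul_assoc, hadd, hp0]
            congr 2
            ring
        _ ≤ rh q * W := mul_le_mul_of_nonneg_right hq.le hW0.le
    have hmin : lam ^ (3 * kap / 4) / W ^ 2 ≤ min 1 ((rh q / ζ.im ^ (1 - kap / 16)) ^ 2) := by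
      apply le_min hle1
      have h3 := pow_le_pow_left₀ (div_nonneg (hpp _).le hW0.le) hratio 2
      refine le_trans (le_of_eq ?_) h3
      rw [div_pow, sq (lam ^ (3 * kap / 8)), hadd]
      congr 2
      ring
    have hgapq := hgap L ζ hγpos hγ0' hLγ hA1 q
    have hST00 : 0 ≤ ST ζ (0 : Tor d L) := by
      rw [hST0]
      positivity
    have hκS : κ * (A / (η + s * g)) ≤ A / (η + s * g) - ST ζ q := by
      rw [← hST0]
      refine le_trans ?_ hgapq
      calc κ * ST ζ (0 : Tor d L) = c1 * (lam ^ (3 * kap / 4) / W ^ 2) * ST ζ (0 : Tor d L) := rfl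
        _ ≤ c * (min 1 ((rh q / ζ.im ^ (1 - kap / 16)) ^ 2)) * ST ζ (0 : Tor d L) := by
            apply mul_le_mul_of_nonneg_right _ hST00
            exact mul_le_mul hc1c hmin (div_nonneg (hpp _).le (by positivity)) hc.le
        _ = _ := by ring
    refine ((fhat_bounds η s g A dbar (ST ζ q) r hη0 hs0 hg hA0 hAg hsd (hSle q) hr0 hr1).2.2 κ
      hκ0 hκ1 hκS).trans ?_
    have h3 : 2 + 2 * A / g ≤ 2 + 2 * C0 / c0 := by
      have : 2 * A / g ≤ 2 * C0 / c0 := by
        apply div_le_div₀ (by positivity) (by linarith) hc0 hg1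
      linarith
    have h4 : lam ^ 2 * v * κ ≤ s * κ := by
      apply mul_le_mul_of_nonneg_right _ hκ0.le
      rw [hs]
      exact mul_le_mul_of_nonneg_left hsg1 (by positivity)
    calc (2 + 2 * A / g) / (s * κ) ≤ (2 + 2 * C0 / c0) / (lam ^ 2 * v * κ) := by
          apply div_le_div₀ (by positivity) h3 (by positivity) h4
      _ = B2 * (1 / (lam ^ 2 * lam ^ (3 * kap / 4))) := by
          rw [hB2, hκ]
          have := (hpp (3 * kap / 4)).ne'
          field_simp
      _ = B2 * lam ^ (kap / 4) / η := by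
          rw [mul_div_assoc B2]
          congr 1
          rw [div_eq_div_iff (by have := hpp (3 * kap / 4); positivity) hη0.ne', one_mul,
            ← h2, hadd, hadd, hη]
          congr 1
          ring
  -- the sum
  set n : ℕ := 2 * R + 1 with hn
  have hnle : (n : ℝ) ≤ 5 * lam ^ (-(2 + kap / 8)) := by
    have h3 : 1 ≤ lam ^ (-(2 + kap / 8)) :=
      Real.one_le_rpow_of_pos_of_le_one_of_nonpos hlam hl1 (by linarith)
    rw [hn]
    push_cast
    linarith
  have hnL : n ≤ L := by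
    have h3 : (n : ℝ) ≤ L := by
      refine hnle.trans (le_trans ?_ hLlam)
      have h4 : lam ^ (-(2 + kap / 8)) ≤ lam ^ (-9 : ℝ) := hpow _ _ (by linarith)
      have h5 : lam ^ (-10 : ℝ) = lam ^ (-9 : ℝ) * lam⁻¹ := by
        rw [← Real.rpow_neg_one lam, hadd]
        norm_num
      have h6 : 5 ≤ lam⁻¹ := by
        rw [le_inv_comm₀ (by norm_num) hlam]
        linarith
      rw [h5]
      have := hpp (-9)
      nlinarith
    exact_mod_cast h3
  have hn0 : (0 : ℝ) ≤ n := Nat.cast_nonneg n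
  have hbase : (1 + p0 * L) * ((n : ℝ) / L) ≤ 10 * lam ^ (kap / 8) := by
    have e1 : (1 + p0 * L) * ((n : ℝ) / L) = (n : ℝ) * (L : ℝ)⁻¹ + p0 * n := by
      field_simp
    have e2 : p0 * n ≤ 5 * lam ^ (kap / 8) := by
      calc p0 * n ≤ p0 * (5 * lam ^ (-(2 + kap / 8))) :=
            mul_le_mul_of_nonneg_left hnle hp00.le
        _ = 5 * (lam ^ (2 + kap / 4) * lam ^ (-(2 + kap / 8))) := by ring
        _ = _ := by
            rw [hadd]
            congr 2
            ring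
    have e3 : (L : ℝ)⁻¹ ≤ lam ^ (10 : ℝ) := by
      have h3 : lam ^ (-10 : ℝ) = (lam ^ (10 : ℝ))⁻¹ := Real.rpow_neg hlam.le 10
      rw [h3] at hLlam
      exact inv_le_of_inv_le₀ (hpp _) hLlam
    have e4 : (n : ℝ) * (L : ℝ)⁻¹ ≤ 5 * lam ^ (kap / 8) := by
      calc (n : ℝ) * (L : ℝ)⁻¹ ≤ (5 * lam ^ (-(2 + kap / 8))) * lam ^ (10 : ℝ) :=
            mul_le_mul hnle e3 (by positivity) (by have := hpp (-(2 + kap / 8)); positivity)
        _ = 5 * lam ^ (-(2 + kap / 8) + 10) := by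
            rw [mul_assoc, hadd]
        _ ≤ 5 * lam ^ (kap / 8) := by
            apply mul_le_mul_of_nonneg_left (hpow _ _ (by linarith)) (by norm_num)
    rw [e1]
    linarith
  have hbase0 : 0 ≤ (1 + p0 * L) * ((n : ℝ) / L) := by positivity
  have hpart1 : ∑ q ∈ (univ : Finset (Tor d L)).filter (fun q => rh q ≤ p0), fej n q *
      |ST ζ q / (1 - s * r ^ 2 * ST ζ q)| ≤ 10 ^ d * (2 * C0) * lam ^ (kap / 4) / η := by
    calc ∑ q ∈ (univ : Finset (Tor d L)).filter (fun q => rh q ≤ p0), fej n q *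
        |ST ζ q / (1 - s * r ^ 2 * ST ζ q)| ≤
          ∑ q ∈ (univ : Finset (Tor d L)).filter (fun q => rh q ≤ p0),
            ((n : ℝ) / L) ^ d * (2 * C0 / η) := by
          apply sum_le_sum
          intro q _
          exact mul_le_mul (fej_le n q) (hF1 q) (abs_nonneg _) (by positivity)
      _ = (((univ : Finset (Tor d L)).filter fun q => rh q ≤ p0).card : ℝ) *
            (((n : ℝ) / L) ^ d * (2 * C0 / η)) := by rw [sum_const, nsmul_eq_mul]
      _ ≤ (1 + p0 * L) ^ d * (((n : ℝ) / L) ^ d * (2 * C0 / η)) :=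
          mul_le_mul_of_nonneg_right (count_rh d L p0 hp00.le) (by positivity)
      _ = ((1 + p0 * L) * ((n : ℝ) / L)) ^ d * (2 * C0 / η) := by
          rw [mul_pow, mul_assoc]
      _ ≤ (10 * lam ^ (kap / 8)) ^ d * (2 * C0 / η) := by
          apply mul_le_mul_of_nonneg_right (pow_le_pow_left₀ hbase0 hbase d) (by positivity)
      _ = 10 ^ d * (lam ^ (kap / 8)) ^ d * (2 * C0 / η) := by rw [mul_pow]
      _ ≤ 10 ^ d * (lam ^ (kap / 8)) ^ 2 * (2 * C0 / η) := by
          apply mul_le_mul_of_nonneg_right _ (by positivity)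
          apply mul_le_mul_of_nonneg_left _ (by positivity)
          exact pow_le_pow_of_le_one (hpp _).le (hpow1 _ (by positivity)) (by omega)
      _ = 10 ^ d * (2 * C0) * lam ^ (kap / 4) / η := by
          rw [sq, hadd]
          have e : kap / 8 + kap / 8 = kap / 4 := by ring
          rw [e]
          ring
  have hpart2 : ∑ q ∈ (univ : Finset (Tor d L)).filter (fun q => ¬ rh q ≤ p0), fej n q *
      |ST ζ q / (1 - s * r ^ 2 * ST ζ q)| ≤ B2 * lam ^ (kap / 4) / η := by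
    have hB0 : 0 ≤ B2 * lam ^ (kap / 4) / η := by
      have := hpp (kap / 4)
      positivity
    calc ∑ q ∈ (univ : Finset (Tor d L)).filter (fun q => ¬ rh q ≤ p0), fej n q *
        |ST ζ q / (1 - s * r ^ 2 * ST ζ q)| ≤
          ∑ q ∈ (univ : Finset (Tor d L)).filter (fun q => ¬ rh q ≤ p0),
            fej n q * (B2 * lam ^ (kap / 4) / η) := by
          apply sum_le_sum
          intro q hq
          apply mul_le_mul_of_nonneg_left _ (fej_nonneg n q)
          exact hF2 q (not_le.1 (mem_filter.1 hq).2)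
      _ ≤ ∑ q : Tor d L, fej n q * (B2 * lam ^ (kap / 4) / η) := by
          apply sum_le_sum_of_subset_of_nonneg (filter_subset _ _)
          intro q _ _
          exact mul_nonneg (fej_nonneg n q) hB0
      _ = B2 * lam ^ (kap / 4) / η := by
          rw [← sum_mul, sum_fej n (by omega) hnL, one_mul]
  have hsplit := sum_filter_add_sum_filter_not (univ : Finset (Tor d L)) (fun q => rh q ≤ p0)
    (fun q => fej n q * |ST ζ q / (1 - s * r ^ 2 * ST ζ q)|)
  rw [← hsplit]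
  refine (add_le_add hpart1 hpart2).trans (le_of_eq ?_)
  ring

end Pool.Agent.Kin
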