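import Pool.Agent.Kin.Intp

/-! KIN NICEP: `P diag(x) R` for nice `P`, `R` (section A7 (ii)). -/

open Matrix Finset

noncomputable section

namespace Pool.Agent.Kin

variable {ι : Type} [Fintype ι] [DecidableEq ι]

/-- the entries of `A diag(x) R` -/
theorem nice_entry (A R : Matrix ι ι ℂ) (x : ι → ℂ) (i j : ι) :
    (A * Matrix.diagonal x * R) i j = ∑ w, A i w * x w * R w j := by
  rw [Matrix.mul_apply]
  refine Finset.sum_congr rfl fun w _ => ?_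
  rw [Matrix.mul_diagonal]

theorem nice_cs {c : ℝ} (a b : ι → ℂ) (ha : ∑ w, ‖a w‖ ^ 2 ≤ c) (hb : ∑ w, ‖b w‖ ^ 2 ≤ c) :
    ∑ w, ‖a w‖ * ‖b w‖ ≤ c := by
  have h : ∑ w, ‖a w‖ * ‖b w‖ ≤ ∑ w, (‖a w‖ ^ 2 + ‖b w‖ ^ 2) / 2 :=
    Finset.sum_le_sum fun w _ => by nlinarith [sq_nonneg (‖a w‖ - ‖b w‖)]
  rw [← Finset.sum_div, Finset.sum_add_distrib] at h
  linarith

/-- the square sum of all entries -/
theorem nice_l2 {et C1 : ℝ} {A R : Matrix ι ι ℂ} (hA : Nice et C1 A) (hR : Nice et C1 R)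
    (x : ι → ℂ) : ∑ i, ∑ j, ‖(A * Matrix.diagonal x * R) i j‖ ^ 2 ≤
      (1 / et) ^ 2 * (C1 / et) * ∑ w, ‖x w‖ ^ 2 := by
  rw [Finset.sum_comm]
  have h1 : ∀ j, ∑ i, ‖(A * Matrix.diagonal x * R) i j‖ ^ 2 ≤
      (1 / et) ^ 2 * ∑ w, ‖x w * R w j‖ ^ 2 := by
    intro j
    refine le_trans (le_of_eq ?_) (hA.op fun w => x w * R w j)
    refine Finset.sum_congr rfl fun i _ => ?_
    rw [nice_entry]
    congr 2
    simp only [Matrix.mulVec, dotProduct]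
    exact Finset.sum_congr rfl fun w _ => by ring
  refine (Finset.sum_le_sum fun j _ => h1 j).trans ?_
  rw [← Finset.mul_sum, mul_assoc]
  refine mul_le_mul_of_nonneg_left ?_ (by positivity)
  rw [Finset.sum_comm, Finset.mul_sum]
  refine Finset.sum_le_sum fun w _ => ?_
  have h2 : ∑ j, ‖x w * R w j‖ ^ 2 = ‖x w‖ ^ 2 * ∑ j, ‖R w j‖ ^ 2 := by
    rw [Finset.mul_sum]
    exact Finset.sum_congr rfl fun j _ => by rw [norm_mul, mul_pow]
  rw [h2, mul_comm (C1 / et)]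
  exact mul_le_mul_of_nonneg_left (hR.row w) (by positivity)

/-- bound for one entry -/
theorem nice_sup {et C1 c : ℝ} {A R : Matrix ι ι ℂ} (hA : Nice et C1 A) (hR : Nice et C1 R)
    (x : ι → ℂ) (hx : ∀ w, ‖x w‖ ≤ c) (hc : 0 ≤ c) (i j : ι) :
    ‖(A * Matrix.diagonal x * R) i j‖ ≤ C1 / et * c := by
  rw [nice_entry]
  refine (norm_sum_le _ _).trans ?_
  have h1 : ∀ w ∈ (univ : Finset ι), ‖A i w * x w * R w j‖ ≤ ‖A i w‖ * ‖R w j‖ * c := by
    intro w _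
    rw [norm_mul, norm_mul]
    have := hx w
    have h3 := mul_nonneg (norm_nonneg (A i w)) (norm_nonneg (R w j))
    nlinarith
  refine (Finset.sum_le_sum h1).trans ?_
  rw [← Finset.sum_mul]
  exact mul_le_mul_of_nonneg_right
    (nice_cs (fun w => A i w) (fun w => R w j) (hA.row i) (hR.col j)) hc

/-- the square sum of the diagonal -/
theorem nice_l2_diag {et C1 : ℝ} (het : 0 < et) (hC1 : 1 ≤ C1) {A R : Matrix ι ι ℂ}
    (hA : Nice et C1 A) (hR : Nice et C1 R) (x : ι → ℂ) :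
    ∑ i, ‖(A * Matrix.diagonal x * R) i i‖ ^ 2 ≤ (C1 / et) ^ 2 * ∑ w, ‖x w‖ ^ 2 := by
  have hce : 0 ≤ C1 / et := by positivity
  have h1 : ∀ i, ‖(A * Matrix.diagonal x * R) i i‖ ^ 2 ≤
      C1 / et * ∑ w, ‖A i w‖ * ‖R w i‖ * ‖x w‖ ^ 2 := by
    intro i
    have h2 : ‖(A * Matrix.diagonal x * R) i i‖ ≤ ∑ w, ‖A i w‖ * ‖R w i‖ * ‖x w‖ := by
      rw [nice_entry]
      refine (norm_sum_le _ _).trans (le_of_eq ?_)
      refine Finset.sum_congr rfl fun w _ => ?_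
      rw [norm_mul, norm_mul]; ring
    have h3 : (∑ w, ‖A i w‖ * ‖R w i‖ * ‖x w‖) ^ 2 ≤
        (∑ w, ‖A i w‖ * ‖R w i‖) * ∑ w, ‖A i w‖ * ‖R w i‖ * ‖x w‖ ^ 2 :=
      Finset.sum_sq_le_sum_mul_sum_of_sq_eq_mul _ (fun w _ => by positivity)
        (fun w _ => by positivity) (fun w _ => by ring)
    have h4 : ∑ w, ‖A i w‖ * ‖R w i‖ ≤ C1 / et :=
      nice_cs (fun w => A i w) (fun w => R w i) (hA.row i) (hR.col i)
    calc ‖(A * Matrix.diagonal x * R) i i‖ ^ 2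
        ≤ (∑ w, ‖A i w‖ * ‖R w i‖ * ‖x w‖) ^ 2 := pow_le_pow_left₀ (norm_nonneg _) h2 2
      _ ≤ _ := h3
      _ ≤ _ := mul_le_mul_of_nonneg_right h4 (Finset.sum_nonneg fun w _ => by positivity)
  refine (Finset.sum_le_sum fun i _ => h1 i).trans ?_
  rw [← Finset.mul_sum, sq, mul_assoc]
  refine mul_le_mul_of_nonneg_left ?_ hce
  rw [Finset.sum_comm, Finset.mul_sum]
  refine Finset.sum_le_sum fun w _ => ?_
  rw [← Finset.sum_mul]
  exact mul_le_mul_of_nonneg_right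
    (nice_cs (fun i => A i w) (fun i => R w i) (hA.col w) (hR.row w)) (by positivity)

/-- the entries as a linear map -/
def niceT (et : ℝ) (A R : Matrix ι ι ℂ) {κ : Type} (e : κ → ι × ι) :
    (ι → ℂ) →ₗ[ℂ] (κ → ℂ) where
  toFun x k := (et : ℂ) * (A * Matrix.diagonal x * R) (e k).1 (e k).2
  map_add' x y := by
    funext k
    simp only [Pi.add_apply, nice_entry]
    rw [← mul_add, ← Finset.sum_add_distrib]
    congr 1
    exact Finset.sum_congr rfl fun w _ => by ring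
  map_smul' c x := by
    funext k
    simp only [Pi.smul_apply, nice_entry, smul_eq_mul, RingHom.id_apply]
    rw [mul_left_comm, Finset.mul_sum (a := c)]
    congr 1
    exact Finset.sum_congr rfl fun w _ => by ring

theorem niceT_norm {et : ℝ} (het : 0 < et) (A R : Matrix ι ι ℂ) {κ : Type} (e : κ → ι × ι)
    (x : ι → ℂ) (k : κ) :
    ‖niceT et A R e x k‖ = et * ‖(A * Matrix.diagonal x * R) (e k).1 (e k).2‖ := by
  change ‖(et : ℂ) * (A * Matrix.diagonal x * R) (e k).1 (e k).2‖ = _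
  rw [norm_mul, Complex.norm_real, Real.norm_eq_abs, abs_of_pos het]

theorem nice_power {et C1 : ℝ} (het : 0 < et) (hC1 : 1 ≤ C1) {A R : Matrix ι ι ℂ}
    (hA : Nice et C1 A) (hR : Nice et C1 R) (q : ℕ) (hq : 2 ≤ q) (x : ι → ℂ) :
    ∑ i, ∑ j, wt et i j * (et * ‖(A * Matrix.diagonal x * R) i j‖) ^ (2 * q) ≤
      2 * 4 ^ q * C1 ^ (2 * q) * ((1 / et) * ∑ w, ‖x w‖ ^ (2 * q)) := by
  have hC0 : 0 < C1 := by linarith
  have hsup : ∀ {κ : Type} (e : κ → ι × ι) (x : ι → ℂ) (c : ℝ), (∀ i, ‖x i‖ ≤ c) → ∀ k,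
      ‖niceT et A R e x k‖ ≤ C1 * c := by
    intro κ e x c hx k
    rw [niceT_norm het]
    have hc : 0 ≤ c := (norm_nonneg _).trans (hx (e k).1)
    have := mul_le_mul_of_nonneg_left (nice_sup hA hR x hx hc (e k).1 (e k).2) het.le
    refine this.trans (le_of_eq ?_)
    field_simp
  -- all entries
  have h1 := interp (niceT et A R (fun p : ι × ι => p)) (C1 / et) C1 (by positivity) hC0
    (fun x => by
      simp_rw [niceT_norm het]
      rw [Fintype.sum_prod_type]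
      have := mul_le_mul_of_nonneg_left (nice_l2 hA hR x) (sq_nonneg et)
      simp_rw [mul_pow, ← Finset.mul_sum]
      refine this.trans (le_of_eq ?_)
      field_simp) (hsup _) q hq x
  simp_rw [niceT_norm het] at h1
  rw [Fintype.sum_prod_type] at h1
  -- the diagonal
  have h2 := interp (niceT et A R (fun i : ι => (i, i))) (C1 ^ 2) C1 (by positivity) hC0
    (fun x => by
      simp_rw [niceT_norm het]
      have := mul_le_mul_of_nonneg_left (nice_l2_diag het hC1 hA hR x) (sq_nonneg et)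
      simp_rw [mul_pow, ← Finset.mul_sum]
      refine this.trans (le_of_eq ?_)
      field_simp) (hsup _) q hq x
  simp_rw [niceT_norm het] at h2
  have e1 : ∀ i, ∑ j, wt et i j * (et * ‖(A * Matrix.diagonal x * R) i j‖) ^ (2 * q)
      = ∑ j, (et * ‖(A * Matrix.diagonal x * R) i j‖) ^ (2 * q)
        + 1 / et * (et * ‖(A * Matrix.diagonal x * R) i i‖) ^ (2 * q) := by
    intro i
    simp only [wt, add_mul, one_mul, Finset.sum_add_distrib, ite_mul, zero_mul,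
      Finset.sum_ite_eq, Finset.mem_univ, if_true]
  simp_rw [e1]
  rw [Finset.sum_add_distrib, ← Finset.mul_sum]
  have hS : 0 ≤ ∑ w, ‖x w‖ ^ (2 * q) := Finset.sum_nonneg fun w _ => by positivity
  have h3 : 4 ^ q * C1 ^ (2 * q - 2) * (C1 / et) * ∑ w, ‖x w‖ ^ (2 * q) ≤
      4 ^ q * C1 ^ (2 * q) * (1 / et * ∑ w, ‖x w‖ ^ (2 * q)) := by
    have h4 : C1 ^ (2 * q - 2) * C1 ≤ C1 ^ (2 * q) := by
      rw [← pow_succ]
      exact pow_le_pow_right₀ hC1 (by omega)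
    have h5 : 0 ≤ 4 ^ q * (1 / et * ∑ w, ‖x w‖ ^ (2 * q)) := by positivity
    calc 4 ^ q * C1 ^ (2 * q - 2) * (C1 / et) * ∑ w, ‖x w‖ ^ (2 * q)
        = (C1 ^ (2 * q - 2) * C1) * (4 ^ q * (1 / et * ∑ w, ‖x w‖ ^ (2 * q))) := by ring
      _ ≤ C1 ^ (2 * q) * (4 ^ q * (1 / et * ∑ w, ‖x w‖ ^ (2 * q))) :=
        mul_le_mul_of_nonneg_right h4 h5
      _ = _ := by ring
  have h6 : 1 / et * (4 ^ q * C1 ^ (2 * q - 2) * C1 ^ 2 * ∑ w, ‖x w‖ ^ (2 * q)) =
      4 ^ q * C1 ^ (2 * q) * (1 / et * ∑ w, ‖x w‖ ^ (2 * q)) := by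
    have : C1 ^ (2 * q) = C1 ^ (2 * q - 2) * C1 ^ 2 := by
      rw [← pow_add]; congr 1; omega
    rw [this]; ring
  have h7 := mul_le_mul_of_nonneg_left h2 (by positivity : 0 ≤ 1 / et)
  rw [h6] at h7
  calc _ ≤ 4 ^ q * C1 ^ (2 * q) * (1 / et * ∑ w, ‖x w‖ ^ (2 * q)) +
        4 ^ q * C1 ^ (2 * q) * (1 / et * ∑ w, ‖x w‖ ^ (2 * q)) := add_le_add (h1.trans h3) h7
    _ = _ := by ring

end Pool.Agent.Kin
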