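import Mathlib

/-! KIN OSCI: `|∫_0^{2π} exp(i ρ cos θ) dθ| ≤ C (1+ρ)^(-1/2)`. -/

open MeasureTheory intervalIntegral

noncomputable section

namespace Pool.Agent.Kin

/-- the integrand -/
def oscF (ρ θ : ℝ) : ℂ := Complex.exp (((ρ * Real.cos θ : ℝ) : ℂ) * Complex.I)

lemma norm_oscF (ρ θ : ℝ) : ‖oscF ρ θ‖ = 1 := by
  unfold oscF
  exact Complex.norm_exp_ofReal_mul_I _

lemma continuous_oscF (ρ : ℝ) : Continuous (oscF ρ) := by
  unfold oscF
  fun_prop

lemma oscF_hasDerivAt (ρ θ : ℝ) :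
    HasDerivAt (oscF ρ) (-(ρ * Real.sin θ : ℝ) * Complex.I * oscF ρ θ) θ := by
  have h1 : HasDerivAt (fun θ : ℝ => ρ * Real.cos θ) (ρ * -Real.sin θ) θ :=
    (Real.hasDerivAt_cos θ).const_mul ρ
  have h2 := (h1.ofReal_comp.mul_const Complex.I).cexp
  refine h2.congr_deriv ?_
  unfold oscF
  push_cast
  ring

lemma osc_away {ρ δ : ℝ} (hρ : ρ ≠ 0) (h0 : 0 < δ) (h1 : δ ≤ Real.pi / 2) :
    |ρ| * ‖∫ θ in δ..(Real.pi / 2), oscF ρ θ‖ ≤ 2 / Real.sin δ := by
  have hs : ∀ θ ∈ Set.uIcc δ (Real.pi / 2), 0 < Real.sin θ := by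
    intro θ hθ
    rw [Set.uIcc_of_le h1] at hθ
    apply Real.sin_pos_of_pos_of_lt_pi (by linarith [hθ.1])
    have := Real.pi_pos
    linarith [hθ.2]
  have hsd : 0 < Real.sin δ := hs δ (by rw [Set.uIcc_of_le h1]; exact ⟨le_rfl, h1⟩)
  have hc : ContinuousOn (fun θ : ℝ => Real.cos θ / Real.sin θ ^ 2)
      (Set.uIcc δ (Real.pi / 2)) := by
    apply ContinuousOn.div (by fun_prop) (by fun_prop)
    intro θ hθ
    have := hs θ hθ
    positivity
  have hi1 : IntervalIntegrable (fun θ : ℝ => Real.cos θ / Real.sin θ ^ 2) volume δ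
      (Real.pi / 2) := hc.intervalIntegrable
  have hi2 : IntervalIntegrable (fun θ : ℝ => oscF ρ θ) volume δ (Real.pi / 2) :=
    (continuous_oscF ρ).intervalIntegrable _ _
  have hi3 : IntervalIntegrable
      (fun θ : ℝ => oscF ρ θ * ((Real.cos θ / Real.sin θ ^ 2 : ℝ) : ℂ)) volume δ
      (Real.pi / 2) := by
    apply ContinuousOn.intervalIntegrable
    exact (continuous_oscF ρ).continuousOn.mul
      (Complex.continuous_ofReal.comp_continuousOn hc)
  -- the real integral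
  have hreal : ∫ θ in δ..(Real.pi / 2), Real.cos θ / Real.sin θ ^ 2 = 1 / Real.sin δ - 1 := by
    have hd : ∀ θ ∈ Set.uIcc δ (Real.pi / 2), HasDerivAt (fun θ : ℝ => -(Real.sin θ)⁻¹)
        (Real.cos θ / Real.sin θ ^ 2) θ := by
      intro θ hθ
      have := ((Real.hasDerivAt_sin θ).inv (hs θ hθ).ne').neg
      refine this.congr_deriv ?_
      ring
    rw [integral_eq_sub_of_hasDerivAt hd hi1, Real.sin_pi_div_two]
    ring
  -- integration by parts
  have hG : ∀ θ ∈ Set.uIcc δ (Real.pi / 2),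
      HasDerivAt (fun θ : ℝ => oscF ρ θ * (((Real.sin θ)⁻¹ : ℝ) : ℂ))
        (-(((ρ : ℝ) : ℂ) * Complex.I * oscF ρ θ) -
          oscF ρ θ * ((Real.cos θ / Real.sin θ ^ 2 : ℝ) : ℂ)) θ := by
    intro θ hθ
    have h2 := (Real.hasDerivAt_sin θ).inv (hs θ hθ).ne'
    have h3 := (oscF_hasDerivAt ρ θ).mul h2.ofReal_comp
    refine h3.congr_deriv ?_
    have hne : ((Real.sin θ : ℝ) : ℂ) ≠ 0 := by
      exact_mod_cast (hs θ hθ).ne'
    have e1 : (-(ρ * Real.sin θ : ℝ) : ℂ) * Complex.I * oscF ρ θ * (((Real.sin θ)⁻¹ : ℝ) : ℂ) =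
        -(((ρ : ℝ) : ℂ) * Complex.I * oscF ρ θ) := by
      push_cast at hne ⊢
      field_simp
    simp only [Pi.inv_apply] at e1 ⊢
    rw [e1]
    push_cast
    ring
  have hint := integral_eq_sub_of_hasDerivAt hG
    (((hi2.const_mul (((ρ : ℝ) : ℂ) * Complex.I)).neg).sub hi3)
  have hint2 : ∫ θ in δ..(Real.pi / 2), (-(((ρ : ℝ) : ℂ) * Complex.I * oscF ρ θ) -
      oscF ρ θ * ((Real.cos θ / Real.sin θ ^ 2 : ℝ) : ℂ)) =
      -(((ρ : ℝ) : ℂ) * Complex.I * ∫ θ in δ..(Real.pi / 2), oscF ρ θ) -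
      ∫ θ in δ..(Real.pi / 2), oscF ρ θ * ((Real.cos θ / Real.sin θ ^ 2 : ℝ) : ℂ) := by
    have hi4 : IntervalIntegrable (fun θ : ℝ => -(((ρ : ℝ) : ℂ) * Complex.I * oscF ρ θ)) volume δ
        (Real.pi / 2) := (hi2.const_mul (((ρ : ℝ) : ℂ) * Complex.I)).neg
    rw [intervalIntegral.integral_sub hi4 hi3, intervalIntegral.integral_neg,
      intervalIntegral.integral_const_mul]
  rw [hint2] at hint
  have key : ((ρ : ℝ) : ℂ) * Complex.I * ∫ θ in δ..(Real.pi / 2), oscF ρ θ =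
      oscF ρ δ * (((Real.sin δ)⁻¹ : ℝ) : ℂ) -
      oscF ρ (Real.pi / 2) * (((Real.sin (Real.pi / 2))⁻¹ : ℝ) : ℂ) -
      ∫ θ in δ..(Real.pi / 2), oscF ρ θ * ((Real.cos θ / Real.sin θ ^ 2 : ℝ) : ℂ) := by
    linear_combination -hint
  have n1 : ‖((ρ : ℝ) : ℂ) * Complex.I * ∫ θ in δ..(Real.pi / 2), oscF ρ θ‖ =
      |ρ| * ‖∫ θ in δ..(Real.pi / 2), oscF ρ θ‖ := by
    rw [norm_mul, norm_mul, Complex.norm_I, mul_one, Complex.norm_real, Real.norm_eq_abs]
  have n2 : ‖∫ θ in δ..(Real.pi / 2), oscF ρ θ * ((Real.cos θ / Real.sin θ ^ 2 : ℝ) : ℂ)‖ ≤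
      1 / Real.sin δ - 1 := by
    rw [← hreal]
    apply norm_integral_le_of_norm_le h1 _ hi1
    apply Filter.Eventually.of_forall
    intro θ hθ
    rw [norm_mul, norm_oscF, one_mul, Complex.norm_real, Real.norm_eq_abs, abs_of_nonneg]
    apply div_nonneg _ (sq_nonneg _)
    apply Real.cos_nonneg_of_mem_Icc
    exact ⟨by linarith [hθ.1, Real.pi_pos], hθ.2⟩
  have n3 : ‖oscF ρ δ * (((Real.sin δ)⁻¹ : ℝ) : ℂ)‖ = 1 / Real.sin δ := by
    rw [norm_mul, norm_oscF, one_mul, Complex.norm_real, Real.norm_eq_abs,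
      abs_of_pos (inv_pos.2 hsd), one_div]
  have n4 : ‖oscF ρ (Real.pi / 2) * (((Real.sin (Real.pi / 2))⁻¹ : ℝ) : ℂ)‖ = 1 := by
    rw [norm_mul, norm_oscF, one_mul, Real.sin_pi_div_two]
    simp
  rw [← n1, key]
  refine (norm_sub_le _ _).trans ?_
  have := norm_sub_le (oscF ρ δ * (((Real.sin δ)⁻¹ : ℝ) : ℂ))
    (oscF ρ (Real.pi / 2) * (((Real.sin (Real.pi / 2))⁻¹ : ℝ) : ℂ))
  rw [n3, n4] at this
  have e : 2 / Real.sin δ = 1 / Real.sin δ + 1 / Real.sin δ := by ring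
  rw [e]
  linarith

lemma osc_quarter {ρ : ℝ} (hρ : 1 ≤ |ρ|) :
    ‖∫ θ in (0 : ℝ)..(Real.pi / 2), oscF ρ θ‖ ≤ 5 / √|ρ| := by
  have hρ0 : 0 < |ρ| := by linarith
  set s := √|ρ| with hs
  have hs1 : 1 ≤ s := by
    rw [hs]
    exact Real.one_le_sqrt.2 hρ
  have hs0 : 0 < s := by linarith
  have hss : s * s = |ρ| := Real.mul_self_sqrt hρ0.le
  have hpi := Real.pi_gt_three
  have hpi4 := Real.pi_le_four
  have hd0 : 0 < 1 / s := by positivity
  have hd1 : 1 / s ≤ 1 := by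
    rw [div_le_one hs0]
    exact hs1
  have hd2 : 1 / s ≤ Real.pi / 2 := by linarith
  have h1 := osc_away (ρ := ρ) (abs_pos.1 hρ0) hd0 hd2
  have h2 : ‖∫ θ in (0 : ℝ)..(1 / s), oscF ρ θ‖ ≤ 1 / s := by
    have := norm_integral_le_of_norm_le_const (a := (0 : ℝ)) (b := 1 / s) (f := oscF ρ) (C := 1)
      (fun θ _ => (norm_oscF ρ θ).le)
    rwa [sub_zero, one_mul, abs_of_pos hd0] at this
  have h3 : 2 / Real.pi * (1 / s) ≤ Real.sin (1 / s) := Real.mul_le_sin hd0.le hd2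
  have h4 : 2 / Real.sin (1 / s) ≤ Real.pi * s := by
    have : 0 < 2 / Real.pi * (1 / s) := by positivity
    calc 2 / Real.sin (1 / s) ≤ 2 / (2 / Real.pi * (1 / s)) := by
          apply div_le_div_of_nonneg_left (by norm_num) this h3
      _ = Real.pi * s := by
          field_simp
  have h5 : ‖∫ θ in (1 / s)..(Real.pi / 2), oscF ρ θ‖ ≤ Real.pi / s := by
    rw [le_div_iff₀ hs0]
    have h6 : s * (s * ‖∫ θ in (1 / s)..(Real.pi / 2), oscF ρ θ‖) ≤ s * Real.pi := by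
      rw [← mul_assoc, hss]
      linarith
    have := le_of_mul_le_mul_left h6 hs0
    linarith
  rw [← integral_add_adjacent_intervals ((continuous_oscF ρ).intervalIntegrable 0 (1 / s))
    ((continuous_oscF ρ).intervalIntegrable (1 / s) (Real.pi / 2))]
  refine (norm_add_le _ _).trans ?_
  calc _ ≤ 1 / s + Real.pi / s := add_le_add h2 h5
    _ = (1 + Real.pi) / s := by ring
    _ ≤ 5 / s := by
        apply div_le_div_of_nonneg_right _ hs0.le
        linarith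

theorem osc_int : ∃ C : ℝ, 0 < C ∧ ∀ ρ : ℝ, 0 ≤ ρ →
    ‖∫ θ in (0 : ℝ)..(2 * Real.pi), Complex.exp (((ρ * Real.cos θ : ℝ) : ℂ) * Complex.I)‖ ≤
      C / √(1 + ρ) := by
  refine ⟨40, by norm_num, ?_⟩
  intro ρ hρ0
  change ‖∫ θ in (0 : ℝ)..(2 * Real.pi), oscF ρ θ‖ ≤ 40 / √(1 + ρ)
  have hpi4 := Real.pi_le_four
  have hpi0 := Real.pi_pos
  rcases le_or_gt 1 ρ with h | h
  · have hi : ∀ a b, IntervalIntegrable (oscF ρ) volume a b :=
      fun a b => (continuous_oscF ρ).intervalIntegrable a b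
    have q1 := osc_quarter (ρ := ρ) (by rwa [abs_of_nonneg hρ0])
    have q2 := osc_quarter (ρ := -ρ) (by rwa [abs_neg, abs_of_nonneg hρ0])
    rw [abs_neg] at q2
    rw [abs_of_nonneg hρ0] at q1 q2
    have e1 : ∫ θ in Real.pi..(2 * Real.pi), oscF ρ θ = ∫ θ in (0 : ℝ)..Real.pi, oscF ρ θ := by
      have := integral_comp_sub_left (a := (0 : ℝ)) (b := Real.pi) (oscF ρ) (2 * Real.pi)
      rw [sub_zero, show 2 * Real.pi - Real.pi = Real.pi by ring] at this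
      rw [← this]
      apply integral_congr
      intro θ _
      simp only [oscF]
      rw [Real.cos_two_pi_sub]
    have e2 : ∫ θ in (Real.pi / 2)..Real.pi, oscF ρ θ =
        ∫ θ in (0 : ℝ)..(Real.pi / 2), oscF (-ρ) θ := by
      have := integral_comp_sub_left (a := (0 : ℝ)) (b := Real.pi / 2) (oscF ρ) Real.pi
      rw [sub_zero, show Real.pi - Real.pi / 2 = Real.pi / 2 by ring] at this
      rw [← this]
      apply integral_congr
      intro θ _
      simp only [oscF]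
      rw [Real.cos_pi_sub]
      congr 3
      ring
    have e3 : ‖∫ θ in (0 : ℝ)..Real.pi, oscF ρ θ‖ ≤ 10 / √ρ := by
      rw [← integral_add_adjacent_intervals (hi 0 (Real.pi / 2)) (hi (Real.pi / 2) Real.pi), e2]
      refine (norm_add_le _ _).trans ?_
      have : 10 / √ρ = 5 / √ρ + 5 / √ρ := by ring
      rw [this]
      exact add_le_add q1 q2
    rw [← integral_add_adjacent_intervals (hi 0 Real.pi) (hi Real.pi (2 * Real.pi)), e1]
    refine (norm_add_le _ _).trans ?_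
    have hs : 0 < √ρ := Real.sqrt_pos.2 (by linarith)
    have hs1 : 0 < √(1 + ρ) := Real.sqrt_pos.2 (by linarith)
    have h6 : √(1 + ρ) ≤ 2 * √ρ := by
      rw [Real.sqrt_le_left (by positivity), mul_pow, Real.sq_sqrt hρ0]
      linarith
    have h7 : 20 / √ρ ≤ 40 / √(1 + ρ) := by
      rw [div_le_div_iff₀ hs hs1]
      linarith
    have h8 : 20 / √ρ = 10 / √ρ + 10 / √ρ := by ring
    linarith
  · have h1 : ‖∫ θ in (0 : ℝ)..(2 * Real.pi), oscF ρ θ‖ ≤ 2 * Real.pi := by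
      have := norm_integral_le_of_norm_le_const (a := (0 : ℝ)) (b := 2 * Real.pi)
        (f := oscF ρ) (C := 1) (fun θ _ => (norm_oscF ρ θ).le)
      rwa [sub_zero, one_mul, abs_of_pos (by positivity)] at this
    have hs1 : 0 < √(1 + ρ) := Real.sqrt_pos.2 (by linarith)
    have h2 : √(1 + ρ) ≤ 2 := by
      rw [Real.sqrt_le_left (by norm_num)]
      linarith
    refine h1.trans ?_
    rw [le_div_iff₀ hs1]
    nlinarith

end Pool.Agent.Kin
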