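import Pool.Agent.Kin.OscI
import Pool.Agent.Kin.Char

/-! KIN OSCS: the Riemann sum version. -/

open Matrix Finset

noncomputable section

namespace Pool.Agent.Kin

private lemma oscs_exp_lip (x y : ℝ) :
    ‖Complex.exp ((x : ℂ) * Complex.I) - Complex.exp ((y : ℂ) * Complex.I)‖ ≤ |x - y| := by
  have h : Complex.exp ((x : ℂ) * Complex.I) - Complex.exp ((y : ℂ) * Complex.I) =
      Complex.exp ((y : ℂ) * Complex.I) * (Complex.exp (Complex.I * ((x - y : ℝ) : ℂ)) - 1) := by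
    rw [mul_sub, mul_one, ← Complex.exp_add]
    congr 2
    push_cast
    ring
  rw [h, norm_mul, Complex.norm_exp_ofReal_mul_I, one_mul]
  exact Real.norm_exp_I_mul_ofReal_sub_one_le

private lemma oscs_cos_lip (x y : ℝ) : |Real.cos x - Real.cos y| ≤ |x - y| := by
  have := Real.abs_cos_sub_cos_le x y
  exact this

private lemma oscs_sum (L : ℕ) [NeZero L] (F : ℕ → ℂ) :
    ∑ a : ZMod L, F a.val = ∑ a ∈ range L, F a := by
  obtain ⟨n, rfl⟩ : ∃ n, L = n + 1 := Nat.exists_eq_succ_of_ne_zero (NeZero.ne L)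
  exact Fin.sum_univ_eq_sum_range F (n + 1)

theorem osc_sum : ∃ C : ℝ, 0 < C ∧ ∀ (L : ℕ) [NeZero L] (ρ α : ℝ), 0 ≤ ρ →
    ‖(1 / (L : ℂ)) * ∑ a : ZMod L,
      Complex.exp (((ρ * Real.cos (ang a - α) : ℝ) : ℂ) * Complex.I)‖ ≤
      C * (1 / √(1 + ρ) + ρ / L) := by
  obtain ⟨C₀, hC₀, hosc⟩ := osc_int
  have hπ := Real.pi_pos
  refine ⟨C₀ + 2 * Real.pi, by positivity, fun L _ ρ α hρ => ?_⟩
  have hL : (0 : ℝ) < L := by exact_mod_cast Nat.pos_of_ne_zero (NeZero.ne L)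
  set g : ℝ → ℂ := fun θ => Complex.exp (((ρ * Real.cos (θ - α) : ℝ) : ℂ) * Complex.I) with hg
  have hgc : Continuous g := by
    rw [hg]
    fun_prop
  have hgint : ∀ a b : ℝ, IntervalIntegrable g MeasureTheory.volume a b :=
    fun a b => hgc.intervalIntegrable a b
  have hlip : ∀ x y, ‖g x - g y‖ ≤ ρ * |x - y| := by
    intro x y
    refine (oscs_exp_lip _ _).trans ?_
    rw [← mul_sub, abs_mul, abs_of_nonneg hρ]
    refine mul_le_mul_of_nonneg_left ?_ hρ
    refine (oscs_cos_lip _ _).trans (le_of_eq ?_)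
    congr 1
    ring
  set t : ℕ → ℝ := fun a => 2 * Real.pi * (a : ℝ) / L with ht
  have hstep : ∀ a, t (a + 1) - t a = 2 * Real.pi / L := by
    intro a
    simp only [ht]
    push_cast
    ring
  have hS : ∑ a : ZMod L, Complex.exp (((ρ * Real.cos (ang a - α) : ℝ) : ℂ) * Complex.I) =
      ∑ a ∈ range L, g (t a) := by
    rw [← oscs_sum L fun a => g (t a)]
    rfl
  -- the integral
  have hI : ∫ θ in (0 : ℝ)..(2 * Real.pi), g θ = ∑ a ∈ range L, ∫ θ in (t a)..(t (a + 1)), g θ := by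
    rw [intervalIntegral.sum_integral_adjacent_intervals fun k _ => hgint _ _]
    congr 1
    · simp [ht]
    · simp only [ht]
      field_simp
  have hper : ∫ θ in (0 : ℝ)..(2 * Real.pi), g θ =
      ∫ θ in (0 : ℝ)..(2 * Real.pi), Complex.exp (((ρ * Real.cos θ : ℝ) : ℂ) * Complex.I) := by
    have hp : Function.Periodic
        (fun θ : ℝ => Complex.exp (((ρ * Real.cos θ : ℝ) : ℂ) * Complex.I)) (2 * Real.pi) := by
      intro θ
      simp only [Real.cos_add_two_pi]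
    have h1 := intervalIntegral.integral_comp_sub_right (a := 0) (b := 2 * Real.pi)
      (fun θ : ℝ => Complex.exp (((ρ * Real.cos θ : ℝ) : ℂ) * Complex.I)) α
    rw [hg, h1]
    have h2 := hp.intervalIntegral_add_eq (0 - α) 0
    rw [zero_add] at h2
    rw [← h2]
    congr 1
    ring
  have hdiff : ‖((2 * Real.pi / L : ℝ) : ℂ) * ∑ a ∈ range L, g (t a) -
      ∫ θ in (0 : ℝ)..(2 * Real.pi), g θ‖ ≤ L * (ρ * (2 * Real.pi / L) * (2 * Real.pi / L)) := by
    rw [hI, Finset.mul_sum, ← Finset.sum_sub_distrib]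
    refine (norm_sum_le _ _).trans ?_
    have h1 : ∀ a ∈ range L, ‖((2 * Real.pi / L : ℝ) : ℂ) * g (t a) -
        ∫ θ in (t a)..(t (a + 1)), g θ‖ ≤ ρ * (2 * Real.pi / L) * (2 * Real.pi / L) := by
      intro a _
      have h2 : ((2 * Real.pi / L : ℝ) : ℂ) * g (t a) = ∫ _θ in (t a)..(t (a + 1)), g (t a) := by
        rw [intervalIntegral.integral_const, hstep, Complex.real_smul]
      rw [h2, ← intervalIntegral.integral_sub (by simp) (hgint _ _)]
      have h3 := intervalIntegral.norm_integral_le_of_norm_le_const (a := t a) (b := t (a + 1))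
        (f := fun θ => g (t a) - g θ) (C := ρ * (2 * Real.pi / L)) (by
          intro θ hθ
          refine (hlip _ _).trans (mul_le_mul_of_nonneg_left ?_ hρ)
          have h4 : t a ≤ t (a + 1) := by
            have := hstep a
            have : 0 < 2 * Real.pi / L := by positivity
            linarith
          rw [Set.uIoc_of_le h4] at hθ
          rw [abs_sub_comm, abs_of_nonneg (by linarith [hθ.1])]
          have := hstep a
          linarith [hθ.2])
      rw [hstep, abs_of_pos (by positivity : 0 < 2 * Real.pi / L)] at h3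
      exact h3
    refine (Finset.sum_le_sum h1).trans (le_of_eq ?_)
    rw [Finset.sum_const, Finset.card_range, nsmul_eq_mul]
  have hosc' := hosc ρ hρ
  rw [← hper] at hosc'
  rw [hS]
  have e1 : (1 / (L : ℂ)) * ∑ a ∈ range L, g (t a) = ((1 / (2 * Real.pi) : ℝ) : ℂ) *
      (((2 * Real.pi / L : ℝ) : ℂ) * ∑ a ∈ range L, g (t a)) := by
    rw [← mul_assoc]
    congr 1
    push_cast
    have : (Real.pi : ℂ) ≠ 0 := by exact_mod_cast hπ.ne'
    have : (L : ℂ) ≠ 0 := by exact_mod_cast hL.ne'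
    field_simp
  rw [e1, norm_mul, Complex.norm_real, Real.norm_eq_abs, abs_of_pos (by positivity)]
  have h5 : ‖((2 * Real.pi / L : ℝ) : ℂ) * ∑ a ∈ range L, g (t a)‖ ≤
      C₀ / √(1 + ρ) + L * (ρ * (2 * Real.pi / L) * (2 * Real.pi / L)) := by
    have := norm_sub_norm_le (((2 * Real.pi / L : ℝ) : ℂ) * ∑ a ∈ range L, g (t a))
      (∫ θ in (0 : ℝ)..(2 * Real.pi), g θ)
    linarith
  have hs : 0 < √(1 + ρ) := Real.sqrt_pos.2 (by linarith)
  calc 1 / (2 * Real.pi) * ‖((2 * Real.pi / L : ℝ) : ℂ) * ∑ a ∈ range L, g (t a)‖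
      ≤ 1 / (2 * Real.pi) * (C₀ / √(1 + ρ) + L * (ρ * (2 * Real.pi / L) * (2 * Real.pi / L))) := by
        gcongr
    _ = (1 / (2 * Real.pi)) * (C₀ / √(1 + ρ)) + 2 * Real.pi * (ρ / L) := by
        field_simp
    _ ≤ 1 * (C₀ / √(1 + ρ)) + (C₀ + 2 * Real.pi) * (ρ / L) := by
        gcongr
        · rw [div_le_one (by positivity)]
          linarith [Real.pi_gt_three]
        · linarith
    _ ≤ (C₀ + 2 * Real.pi) * (1 / √(1 + ρ) + ρ / L) := by
        have : 0 ≤ 2 * Real.pi * (1 / √(1 + ρ)) := by positivity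
        have e : 1 * (C₀ / √(1 + ρ)) = C₀ * (1 / √(1 + ρ)) := by ring
        rw [e]
        linarith

/-- for `ρ³ ≤ L²` the Riemann sum error is absorbed -/
theorem osc_sum' : ∃ C : ℝ, 0 < C ∧ ∀ (L : ℕ) [NeZero L] (ρ α : ℝ), 0 ≤ ρ →
    ρ ^ 3 ≤ (L : ℝ) ^ 2 →
    ‖(1 / (L : ℂ)) * ∑ a : ZMod L,
      Complex.exp (((ρ * Real.cos (ang a - α) : ℝ) : ℂ) * Complex.I)‖ ≤ C / √(1 + ρ) := by
  obtain ⟨C, hC, h⟩ := osc_sum
  refine ⟨C * 3, by positivity, fun L _ ρ α hρ hρL => (h L ρ α hρ).trans ?_⟩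
  have hL : (1 : ℝ) ≤ L := by exact_mod_cast Nat.one_le_iff_ne_zero.2 (NeZero.ne L)
  have hs : 0 < √(1 + ρ) := Real.sqrt_pos.2 (by linarith)
  have h1 : ρ / L ≤ 2 / √(1 + ρ) := by
    rw [div_le_div_iff₀ (by linarith) hs]
    have h2 : (ρ * √(1 + ρ)) ^ 2 ≤ (2 * (L : ℝ)) ^ 2 := by
      rw [mul_pow, Real.sq_sqrt (by linarith)]
      rcases le_total ρ 1 with h3 | h3
      · have : ρ ^ 2 ≤ 1 := pow_le_one₀ hρ h3
        nlinarith
      · have : ρ ^ 2 ≤ ρ ^ 3 := pow_le_pow_right₀ h3 (by norm_num)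
        nlinarith
    exact le_of_sq_le_sq h2 (by positivity)
  calc C * (1 / √(1 + ρ) + ρ / L) ≤ C * (1 / √(1 + ρ) + 2 / √(1 + ρ)) := by gcongr
    _ = _ := by ring

end Pool.Agent.Kin
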