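import Pool.Agent.Kin.OscS

/-! KIN PONE: the time evolution `L^{-d} ∑_k exp(-i t en k)`. -/

open Matrix Finset

noncomputable section

namespace Pool.Agent.Kin

/-- `L^{-d} ∑_k exp(-i t en(k) + i u en(k+q))` -/
def PT {d L : ℕ} [NeZero L] (t u : ℝ) (q : Tor d L) : ℂ :=
  (1 / (L : ℂ) ^ d) * ∑ k : Tor d L,
    Complex.exp (((-t * en k + u * en (k + q) : ℝ) : ℂ) * Complex.I)

lemma PT_le_one {d L : ℕ} [NeZero L] (t u : ℝ) (q : Tor d L) : ‖PT t u q‖ ≤ 1 := by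
  have hL : (0 : ℝ) < L := by
    have := Nat.pos_of_ne_zero (NeZero.ne L)
    exact_mod_cast this
  unfold PT
  rw [norm_mul, norm_div, norm_one, norm_pow, Complex.norm_natCast]
  have h1 : ‖∑ k : Tor d L, Complex.exp (((-t * en k + u * en (k + q) : ℝ) : ℂ) * Complex.I)‖ ≤
      (L : ℝ) ^ d := by
    refine (norm_sum_le _ _).trans ?_
    rw [Finset.sum_congr rfl (fun k _ => Complex.norm_exp_ofReal_mul_I _), Finset.sum_const,
      Finset.card_univ, Fintype.card_fun, ZMod.card, Fintype.card_fin]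
    simp
  calc 1 / (L : ℝ) ^ d * _ ≤ 1 / (L : ℝ) ^ d * (L : ℝ) ^ d :=
        mul_le_mul_of_nonneg_left h1 (by positivity)
    _ = 1 := by
        field_simp

lemma cos_ang_add {L : ℕ} [NeZero L] (a b : ZMod L) :
    Real.cos (ang (a + b)) = Real.cos (ang a + ang b) := by
  have h := congrArg Complex.re (ch1_add a b)
  unfold ch1 at h
  rw [← Complex.exp_add, ← add_mul, ← Complex.ofReal_add, Complex.exp_ofReal_mul_I_re,
    Complex.exp_ofReal_mul_I_re] at h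
  exact h

lemma exists_polar (t u φ : ℝ) : ∃ α : ℝ, ∀ θ : ℝ,
    t * Real.cos θ - u * Real.cos (θ + φ) =
      √((t - u) ^ 2 + 4 * t * u * Real.sin (φ / 2) ^ 2) * Real.cos (θ - α) := by
  set z : ℂ := ⟨t - u * Real.cos φ, -(u * Real.sin φ)⟩ with hz
  refine ⟨-z.arg, ?_⟩
  intro θ
  have h1 : ‖z‖ = √((t - u) ^ 2 + 4 * t * u * Real.sin (φ / 2) ^ 2) := by
    rw [Complex.norm_def, Complex.normSq_apply]
    congr 1
    simp only [hz]
    have h2 : Real.cos φ = 1 - 2 * Real.sin (φ / 2) ^ 2 := by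
      have := Real.cos_two_mul' (φ / 2)
      rw [mul_div_cancel₀ φ two_ne_zero] at this
      have h3 := Real.sin_sq_add_cos_sq (φ / 2)
      linarith
    have h4 := Real.sin_sq_add_cos_sq φ
    have h5 : (t - u * Real.cos φ) * (t - u * Real.cos φ) +
        -(u * Real.sin φ) * -(u * Real.sin φ) =
        t ^ 2 - 2 * t * u * Real.cos φ + u ^ 2 * (Real.sin φ ^ 2 + Real.cos φ ^ 2) := by ring
    rw [h5, h4, h2]
    ring
  rw [← h1, sub_neg_eq_add, Real.cos_add θ z.arg, mul_sub ‖z‖]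
  have h6 := Complex.norm_mul_cos_arg z
  have h7 := Complex.norm_mul_sin_arg z
  have e1 : ‖z‖ * (Real.cos θ * Real.cos z.arg) - ‖z‖ * (Real.sin θ * Real.sin z.arg) =
      Real.cos θ * (‖z‖ * Real.cos z.arg) - Real.sin θ * (‖z‖ * Real.sin z.arg) := by ring
  rw [e1, h6, h7, Real.cos_add]
  simp only [hz]
  ring

/-- one coordinate -/
def P1 {L : ℕ} [NeZero L] (t u : ℝ) (b : ZMod L) : ℂ :=
  (1 / (L : ℂ)) * ∑ a : ZMod L, Complex.exp (((-t * (2 - 2 * Real.cos (ang a)) +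
    u * (2 - 2 * Real.cos (ang (a + b))) : ℝ) : ℂ) * Complex.I)

lemma PT_eq {d L : ℕ} [NeZero L] (t u : ℝ) (q : Tor d L) : PT t u q = ∏ j, P1 t u (q j) := by
  unfold PT P1
  rw [Finset.prod_mul_distrib, Finset.prod_const, Finset.card_univ, Fintype.card_fin,
    _root_.one_div_pow]
  congr 1
  rw [Fintype.prod_sum]
  apply Finset.sum_congr rfl
  intro k _
  rw [← Complex.exp_sum, ← Finset.sum_mul, ← Complex.ofReal_sum]
  congr 3
  unfold en
  rw [Finset.sum_add_distrib, Finset.mul_sum, Finset.mul_sum]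
  rfl

lemma P1_bound {C : ℝ} (hC : ∀ (L : ℕ) [NeZero L] (ρ α : ℝ), 0 ≤ ρ → ρ ^ 3 ≤ (L : ℝ) ^ 2 →
    ‖(1 / (L : ℂ)) * ∑ a : ZMod L,
      Complex.exp (((ρ * Real.cos (ang a - α) : ℝ) : ℂ) * Complex.I)‖ ≤ C / √(1 + ρ))
    {L : ℕ} [NeZero L] {t u : ℝ} (b : ZMod L) (ht : 0 ≤ t) (hu : 0 ≤ u)
    (htu : (2 * (t + u)) ^ 3 ≤ (L : ℝ) ^ 2) :
    ‖P1 t u b‖ ≤ C / √(1 + 2 * √((t - u) ^ 2 + 4 * t * u * Real.sin (ang b / 2) ^ 2)) := by
  obtain ⟨α, hα⟩ := exists_polar t u (ang b)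
  set R := √((t - u) ^ 2 + 4 * t * u * Real.sin (ang b / 2) ^ 2) with hR
  have hR0 : 0 ≤ R := Real.sqrt_nonneg _
  have hRtu : R ≤ t + u := by
    rw [hR]
    apply Real.sqrt_le_iff.2
    refine ⟨by linarith, ?_⟩
    have h1 : Real.sin (ang b / 2) ^ 2 ≤ 1 := Real.sin_sq_le_one _
    nlinarith [mul_nonneg ht hu, mul_le_mul_of_nonneg_left h1 (mul_nonneg ht hu)]
  have h3 : (2 * R) ^ 3 ≤ (L : ℝ) ^ 2 := by
    refine le_trans ?_ htu
    gcongr
  have h4 := hC L (2 * R) α (by positivity) h3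
  have h5 : P1 t u b = Complex.exp (((2 * (u - t) : ℝ) : ℂ) * Complex.I) *
      ((1 / (L : ℂ)) * ∑ a : ZMod L,
        Complex.exp (((2 * R * Real.cos (ang a - α) : ℝ) : ℂ) * Complex.I)) := by
    unfold P1
    rw [mul_left_comm]
    congr 1
    rw [Finset.mul_sum]
    apply Finset.sum_congr rfl
    intro a _
    rw [← Complex.exp_add, ← add_mul, ← Complex.ofReal_add]
    congr 3
    rw [cos_ang_add]
    have := hα (ang a)
    linear_combination 2 * this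
  rw [h5, norm_mul, Complex.norm_exp_ofReal_mul_I, one_mul]
  exact h4

/-- product formula: each coordinate gives a factor bounded by the oscillatory sum with
`ρ_j = 2 |t - u exp(i ang q_j)|`. -/
theorem PT_prod : ∃ C : ℝ, 0 < C ∧ ∀ (d L : ℕ) [NeZero L] (t u : ℝ) (q : Tor d L), 0 ≤ t →
    0 ≤ u → (2 * (t + u)) ^ 3 ≤ (L : ℝ) ^ 2 →
    ‖PT t u q‖ ≤ ∏ j, (C / √(1 + 2 * √((t - u) ^ 2 + 4 * t * u *
      Real.sin (ang (q j) / 2) ^ 2))) := by
  obtain ⟨C, hC0, hC⟩ := osc_sum'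
  refine ⟨C, hC0, ?_⟩
  intro d L _ t u q ht hu htu
  rw [PT_eq, norm_prod]
  apply Finset.prod_le_prod
  · intro j _
    exact norm_nonneg _
  · intro j _
    exact P1_bound hC (q j) ht hu htu

lemma one_le_sqrt_one_add {x : ℝ} (hx : 0 ≤ x) : 1 ≤ √(1 + x) :=
  Real.one_le_sqrt.2 (by linarith)

/-- `d ≥ 3`, one time -/
theorem PT_one (d : ℕ) (hd : 3 ≤ d) : ∃ C : ℝ, 0 < C ∧ ∀ (L : ℕ) [NeZero L] (t : ℝ), 0 ≤ t →
    (2 * t) ^ 3 ≤ (L : ℝ) ^ 2 → ‖PT t 0 (0 : Tor d L)‖ ≤ C / ((1 + t) * √(1 + t)) := by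
  obtain ⟨C, hC0, hC⟩ := PT_prod
  refine ⟨C ^ d, by positivity, ?_⟩
  intro L _ t ht hL
  have h1 := hC d L t 0 (0 : Tor d L) ht le_rfl (by rwa [add_zero])
  refine h1.trans ?_
  have h2 : ∀ j : Fin d, C / √(1 + 2 * √((t - 0) ^ 2 + 4 * t * 0 *
      Real.sin (ang ((0 : Tor d L) j) / 2) ^ 2)) = C / √(1 + 2 * t) := by
    intro j
    rw [sub_zero, mul_zero, zero_mul, add_zero, Real.sqrt_sq ht]
  rw [Finset.prod_congr rfl (fun j _ => h2 j), Finset.prod_const, Finset.card_univ,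
    Fintype.card_fin, div_pow]
  have hs : 1 ≤ √(1 + 2 * t) := one_le_sqrt_one_add (by positivity)
  apply div_le_div_of_nonneg_left (by positivity) (by positivity)
  have hs2 : √(1 + t) ≤ √(1 + 2 * t) := Real.sqrt_le_sqrt (by linarith)
  calc (1 + t) * √(1 + t) ≤ (1 + 2 * t) * √(1 + 2 * t) := by
        apply mul_le_mul (by linarith) hs2 (Real.sqrt_nonneg _) (by positivity)
    _ = √(1 + 2 * t) ^ 3 := by
        rw [pow_succ, Real.sq_sqrt (by positivity)]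
    _ ≤ √(1 + 2 * t) ^ d := pow_le_pow_right₀ hs hd

/-- `d ≥ 3`, two times -/
theorem PT_two (d : ℕ) (hd : 3 ≤ d) : ∃ C : ℝ, 0 < C ∧ ∀ (L : ℕ) [NeZero L] (t u : ℝ)
    (q : Tor d L), 0 < t → 0 < u → 0 < rh q → (2 * (t + u)) ^ 3 ≤ (L : ℝ) ^ 2 →
    ‖PT t u q‖ ≤ C / ((1 + |t - u|) * √(√(t * u) * rh q)) := by
  obtain ⟨C, hC0, hC⟩ := PT_prod
  refine ⟨C ^ d, by positivity, ?_⟩
  intro L _ t u q ht hu hq hL
  have h1 := hC d L t u q ht.le hu.le hL
  refine h1.trans ?_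
  set s : Fin d → ℝ := fun j => √(1 + 2 * √((t - u) ^ 2 + 4 * t * u *
      Real.sin (ang (q j) / 2) ^ 2)) with hs
  have hprod : ∏ j, (C / √(1 + 2 * √((t - u) ^ 2 + 4 * t * u *
      Real.sin (ang (q j) / 2) ^ 2))) = C ^ d / ∏ j, s j := by
    rw [Finset.prod_div_distrib, Finset.prod_const, Finset.card_univ, Fintype.card_fin]
  rw [hprod]
  have htu0 : 0 < t * u := mul_pos ht hu
  have hden : 0 < (1 + |t - u|) * √(√(t * u) * rh q) := by positivity
  apply div_le_div_of_nonneg_left (by positivity) hden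
  -- the maximal coordinate
  have : Nonempty (Fin d) := ⟨⟨0, by omega⟩⟩
  obtain ⟨j0, hj0⟩ := exists_eq_ciSup_of_finite (f := fun j => |Real.sin (ang (q j) / 2)|)
  have hj1 : |Real.sin (ang (q j0) / 2)| = rh q := hj0
  have hge : ∀ j, √(1 + |t - u|) ≤ s j := by
    intro j
    apply Real.sqrt_le_sqrt
    have h3 : |t - u| ≤ √((t - u) ^ 2 + 4 * t * u * Real.sin (ang (q j) / 2) ^ 2) := by
      rw [← Real.sqrt_sq_eq_abs]
      apply Real.sqrt_le_sqrt
      have : 0 ≤ 4 * t * u * Real.sin (ang (q j) / 2) ^ 2 := by positivity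
      linarith
    have := abs_nonneg (t - u)
    linarith
  have hj0ge : √(√(t * u) * rh q) ≤ s j0 := by
    apply Real.sqrt_le_sqrt
    have h3 : √(t * u) * rh q ≤ √((t - u) ^ 2 + 4 * t * u * Real.sin (ang (q j0) / 2) ^ 2) := by
      have h4 : √(t * u) * rh q = √(t * u * Real.sin (ang (q j0) / 2) ^ 2) := by
        rw [Real.sqrt_mul htu0.le, Real.sqrt_sq_eq_abs, hj1]
      rw [h4]
      apply Real.sqrt_le_sqrt
      have h5 : 0 ≤ t * u * Real.sin (ang (q j0) / 2) ^ 2 := by positivity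
      nlinarith [sq_nonneg (t - u)]
    have := Real.sqrt_nonneg ((t - u) ^ 2 + 4 * t * u * Real.sin (ang (q j0) / 2) ^ 2)
    linarith
  rw [← Finset.mul_prod_erase Finset.univ s (Finset.mem_univ j0), mul_comm (1 + |t - u|)]
  apply mul_le_mul hj0ge _ (by positivity) (Real.sqrt_nonneg _)
  have ha : 0 ≤ |t - u| := abs_nonneg _
  have h6 : √(1 + |t - u|) ^ (d - 1) ≤ ∏ j ∈ Finset.univ.erase j0, s j := by
    have := Finset.prod_le_prod (s := Finset.univ.erase j0) (f := fun _ => √(1 + |t - u|))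
      (g := s) (fun _ _ => Real.sqrt_nonneg _) (fun j _ => hge j)
    rwa [Finset.prod_const, Finset.card_erase_of_mem (Finset.mem_univ _), Finset.card_univ,
      Fintype.card_fin] at this
  refine le_trans ?_ h6
  calc 1 + |t - u| = √(1 + |t - u|) ^ 2 := (Real.sq_sqrt (by positivity)).symm
    _ ≤ √(1 + |t - u|) ^ (d - 1) := pow_le_pow_right₀ (one_le_sqrt_one_add ha) (by omega)

end Pool.Agent.Kin
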