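import Pool.Agent.Kin.FlowA
import Pool.Agent.Kin.TDefs

/-! KIN PARAMS: choice of the parameters (section C0). -/

open Matrix Finset MeasureTheory Filter Topology

noncomputable section

namespace Pool.Agent.Kin

private lemma ev_small (B c e : ℝ) (he : 0 < e) (hc : 0 < c) :
    ∀ᶠ l : ℝ in 𝓝[>] 0, B * l ^ e ≤ c := by
  have h1 : Tendsto (fun l : ℝ => B * l ^ e) (𝓝 0) (𝓝 (B * 0 ^ e)) :=
    ((Real.continuous_rpow_const he.le).tendsto 0).const_mul B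
  rw [Real.zero_rpow he.ne', mul_zero] at h1
  exact (h1.mono_left nhdsWithin_le_nhds).eventually_le_const hc

private lemma ev_exists {p : ℝ → Prop} (h : ∀ᶠ l : ℝ in 𝓝[>] 0, p l) :
    ∃ l0 : ℝ, 0 < l0 ∧ ∀ l : ℝ, 0 < l → l ≤ l0 → p l := by
  rw [eventually_nhdsWithin_iff, Metric.eventually_nhds_iff] at h
  obtain ⟨e, he, h⟩ := h
  refine ⟨e / 2, by positivity, fun l h0 h1 => h ?_ h0⟩
  rw [Real.dist_eq, sub_zero, abs_of_pos h0]
  linarith

private lemma rp_anti {l a b : ℝ} (h0 : 0 < l) (h1 : l ≤ 1) (h : a ≤ b) : l ^ b ≤ l ^ a :=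
  Real.rpow_le_rpow_of_exponent_ge h0 h1 h

private lemma rp_pow {l : ℝ} (h0 : 0 < l) (a : ℝ) (n : ℕ) : (l ^ a) ^ n = l ^ (a * n) := by
  rw [Real.rpow_mul h0.le, Real.rpow_natCast]

/-- the numbers `N`, `N^2 + N/η` -/
private lemma NB_le {d : ℕ} {l kap A N : ℝ} (h0 : 0 < l) (h1 : l ≤ 1)
    (hk1 : kap ≤ 1 / 8) (hA : 1 ≤ A) (hN0 : 0 ≤ N) (hN : N ≤ A * l ^ (-(10 * d) : ℝ)) :
    N ^ 2 + N / l ^ (2 + kap) ≤ 2 * A ^ 2 * l ^ (-(20 * d + 3) : ℝ) := by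
  have hd : (0 : ℝ) ≤ d := Nat.cast_nonneg d
  have e1 : N ^ 2 ≤ A ^ 2 * l ^ (-(20 * d + 3) : ℝ) := by
    calc N ^ 2 ≤ (A * l ^ (-(10 * d) : ℝ)) ^ 2 := pow_le_pow_left₀ hN0 hN 2
      _ = A ^ 2 * l ^ (-(20 * d) : ℝ) := by
        rw [mul_pow, rp_pow h0]
        congr 2
        push_cast
        ring
      _ ≤ A ^ 2 * l ^ (-(20 * d + 3) : ℝ) := by
        apply mul_le_mul_of_nonneg_left _ (by positivity)
        exact rp_anti h0 h1 (by linarith)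
  have e2 : N / l ^ (2 + kap) ≤ A ^ 2 * l ^ (-(20 * d + 3) : ℝ) := by
    rw [div_le_iff₀ (Real.rpow_pos_of_pos h0 _)]
    calc N ≤ A * l ^ (-(10 * d) : ℝ) := hN
      _ ≤ A ^ 2 * l ^ (-(20 * d + 3) + (2 + kap) : ℝ) := by
        apply mul_le_mul
        · nlinarith
        · exact rp_anti h0 h1 (by linarith)
        · positivity
        · positivity
      _ = A ^ 2 * l ^ (-(20 * d + 3) : ℝ) * l ^ (2 + kap) := by
        rw [Real.rpow_add h0]; ring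
  linarith

private lemma tb1_le {d q : ℕ} {l kap A C1 N : ℝ} (h0 : 0 < l) (h1 : l ≤ 1)
    (hk1 : kap ≤ 1 / 8) (hA : 1 ≤ A) (hC1 : 1 ≤ C1) (hN0 : 0 ≤ N) (hq : 2 ≤ q)
    (hN : N ≤ A * l ^ (-(10 * d) : ℝ)) :
    2 * N * (N ^ 2 + N / l ^ (2 + kap)) *
      (l ^ (2 * q - 2) * (3 * C1 * (l ^ (-(1 / 8) : ℝ)) ^ 2) ^ (2 * q)) ≤
    4 * A ^ 3 * (3 * C1) ^ (2 * q) * l ^ (3 * q / 2 - 30 * d - 5 : ℝ) := by
  have hNB := NB_le h0 h1 hk1 hA hN0 hN
  have hNB0 : 0 ≤ N ^ 2 + N / l ^ (2 + kap) := by positivity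
  have e1 : l ^ (2 * q - 2) * (3 * C1 * (l ^ (-(1 / 8) : ℝ)) ^ 2) ^ (2 * q) =
      (3 * C1) ^ (2 * q) * l ^ (3 * q / 2 - 2 : ℝ) := by
    rw [mul_pow, rp_pow h0, rp_pow h0, ← Real.rpow_natCast l (2 * q - 2)]
    have : ((2 * q - 2 : ℕ) : ℝ) = 2 * q - 2 := by
      rw [Nat.cast_sub (by omega)]
      push_cast
      ring
    rw [this]
    rw [show (3 * (q : ℝ) / 2 - 2) = (2 * q - 2) + (-(1 / 8) * ((2 : ℕ) : ℝ) * ((2 * q : ℕ) : ℝ))
      by push_cast; ring, Real.rpow_add h0]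
    ring
  rw [e1]
  calc 2 * N * (N ^ 2 + N / l ^ (2 + kap)) * ((3 * C1) ^ (2 * q) * l ^ (3 * q / 2 - 2 : ℝ))
      ≤ 2 * (A * l ^ (-(10 * d) : ℝ)) * (2 * A ^ 2 * l ^ (-(20 * d + 3) : ℝ)) *
        ((3 * C1) ^ (2 * q) * l ^ (3 * q / 2 - 2 : ℝ)) := by
        apply mul_le_mul_of_nonneg_right _ (by positivity)
        apply mul_le_mul _ hNB hNB0 (by positivity)
        linarith
    _ = 4 * A ^ 3 * (3 * C1) ^ (2 * q) *
        (l ^ (-(10 * d) : ℝ) * l ^ (-(20 * d + 3) : ℝ) * l ^ (3 * q / 2 - 2 : ℝ)) := by ring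
    _ = 4 * A ^ 3 * (3 * C1) ^ (2 * q) * l ^ (3 * q / 2 - 30 * d - 5 : ℝ) := by
        rw [← Real.rpow_add h0, ← Real.rpow_add h0]
        congr 2
        ring

/-- `eps tb2 / s0` -/
private lemma tb2_eq {m : ℕ} {l kap Ck : ℝ} (h0 : 0 < l) (hm : 3 ≤ m) :
    (Ck * l ^ (kap / 4) / l ^ (2 + kap)) ^ 2 *
      (l * (Ck * l ^ (kap / 4) / l ^ (2 + kap))) ^ (m - 2) / (l ^ (kap / 16) / l ^ (2 + kap)) ^ m =
    Ck ^ m * l ^ (3 * kap * m / 16) * l ^ (m - 2) := by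
  have hx : 0 < l ^ (2 + kap) := Real.rpow_pos_of_pos h0 _
  have hy : 0 < l ^ (kap / 16) := Real.rpow_pos_of_pos h0 _
  have e1 : l ^ (kap / 4) = l ^ (kap / 16) * l ^ (3 * kap / 16) := by
    rw [← Real.rpow_add h0]
    congr 1
    ring
  have e2 : l ^ (3 * kap * m / 16) = (l ^ (3 * kap / 16)) ^ m := by
    rw [rp_pow h0]
    congr 1
    ring
  obtain ⟨k, rfl⟩ : ∃ k, m = k + 2 := ⟨m - 2, by omega⟩
  rw [e1, e2]
  simp only [Nat.add_sub_cancel]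
  generalize l ^ (2 + kap) = x at *
  generalize l ^ (kap / 16) = y at *
  generalize l ^ (3 * kap / 16) = z at *
  have hx' := hx.ne'
  have hy' := hy.ne'
  rw [mul_pow l, div_pow y, div_pow, div_pow, pow_add y, pow_add x, pow_add Ck, pow_add z]
  field_simp
  rw [mul_pow, mul_pow]
  ring

private lemma KA_pow {m : ℕ} {l kap : ℝ} (h0 : 0 < l) :
    (l ^ (kap / 8) / l ^ (2 + kap)) ^ m / (l ^ (kap / 16) / l ^ (2 + kap)) ^ m =
      l ^ (kap * m / 16) := by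
  have hx : 0 < l ^ (2 + kap) := Real.rpow_pos_of_pos h0 _
  have hy : 0 < l ^ (kap / 16) := Real.rpow_pos_of_pos h0 _
  have e1 : l ^ (kap / 8) = l ^ (kap / 16) * l ^ (kap / 16) := by
    rw [← Real.rpow_add h0]
    congr 1
    ring
  have e2 : l ^ (kap * m / 16) = (l ^ (kap / 16)) ^ m := by
    rw [rp_pow h0]
    congr 1
    ring
  rw [e1, e2, ← div_pow]
  congr 1
  field_simp

private lemma first_le {d m K : ℕ} {l kap A N γ c : ℝ} (h0 : 0 < l) (h1 : l ≤ 1)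
    (hk0 : 0 < kap) (hA : 1 ≤ A)
    (hN : N ≤ A * l ^ (-(10 * d) : ℝ)) (hc : 0 < c) (hγ : c * l ^ 2 ≤ γ)
    (hm : 10 * d + K + 3 ≤ kap * m / 16) :
    N * (1 / γ) ^ m / (l ^ (kap / 16) / l ^ (2 + kap)) ^ m ≤
      A * (1 / c) ^ m * l ^ (K + 2 : ℝ) := by
  have hx : 0 < l ^ (2 + kap) := Real.rpow_pos_of_pos h0 _
  have hy : 0 < l ^ (kap / 16) := Real.rpow_pos_of_pos h0 _
  have hγ0 : 0 < γ := lt_of_lt_of_le (by positivity) hγ
  have e1 : (1 / γ) ^ m / (l ^ (kap / 16) / l ^ (2 + kap)) ^ m =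
      (l ^ (2 + kap) / (γ * l ^ (kap / 16))) ^ m := by
    rw [← div_pow]
    congr 1
    field_simp
  have e2 : l ^ (2 + kap) / (γ * l ^ (kap / 16)) ≤ (1 / c) * l ^ (15 * kap / 16) := by
    rw [div_le_iff₀ (by positivity)]
    have e3 : l ^ (2 + kap) = (1 / c) * l ^ (15 * kap / 16) * ((c * l ^ 2) * l ^ (kap / 16)) := by
      have : l ^ (2 + kap) = l ^ 2 * (l ^ (15 * kap / 16) * l ^ (kap / 16)) := by
        rw [← Real.rpow_natCast l 2, ← Real.rpow_add h0, ← Real.rpow_add h0]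
        congr 1
        push_cast
        ring
      rw [this]
      field_simp
    rw [e3]
    have : (c * l ^ 2) * l ^ (kap / 16) ≤ γ * l ^ (kap / 16) :=
      mul_le_mul_of_nonneg_right hγ hy.le
    exact mul_le_mul_of_nonneg_left this (by positivity)
  rw [mul_div_assoc, e1]
  calc N * (l ^ (2 + kap) / (γ * l ^ (kap / 16))) ^ m
      ≤ (A * l ^ (-(10 * d) : ℝ)) * ((1 / c) * l ^ (15 * kap / 16)) ^ m := by
        apply mul_le_mul hN _ (by positivity) (by positivity)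
        exact pow_le_pow_left₀ (by positivity) e2 m
    _ = A * (1 / c) ^ m * l ^ (-(10 * d) + 15 * kap / 16 * m : ℝ) := by
        rw [mul_pow, rp_pow h0, Real.rpow_add h0]
        ring
    _ ≤ A * (1 / c) ^ m * l ^ (K + 2 : ℝ) := by
        apply mul_le_mul_of_nonneg_left _ (by positivity)
        apply rp_anti h0 h1
        have : 0 ≤ kap * m := by positivity
        linarith

private lemma flow_factor {l kap γ g R cg Cg : ℝ} (h0 : 0 < l) (h1 : l ≤ 1) (hR : 0 < R)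
    (hcg : 0 < cg) (hg : cg ≤ g) (hCg : 1 ≤ Cg) (hγ1 : l ^ (2 + kap) ≤ γ) (hγ2 : γ ≤ Cg * l ^ 2)
    (hk : kap * (R / cg) ≤ 1) :
    (γ / l ^ (2 + kap)) ^ (R / g) ≤ Cg ^ (R / cg) * l ^ (-1 : ℝ) := by
  have hx : 0 < l ^ (2 + kap) := Real.rpow_pos_of_pos h0 _
  have h2 : 1 ≤ γ / l ^ (2 + kap) := by
    rw [le_div_iff₀ hx]
    linarith
  have h3 : γ / l ^ (2 + kap) ≤ Cg * l ^ (-kap) := by
    rw [div_le_iff₀ hx]
    have : Cg * l ^ (-kap) * l ^ (2 + kap) = Cg * l ^ 2 := by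
      rw [mul_assoc, ← Real.rpow_add h0, ← Real.rpow_natCast l 2]
      congr 2
      push_cast
      ring
    rw [this]
    exact hγ2
  calc (γ / l ^ (2 + kap)) ^ (R / g) ≤ (γ / l ^ (2 + kap)) ^ (R / cg) := by
        apply Real.rpow_le_rpow_of_exponent_le h2
        exact div_le_div_of_nonneg_left hR.le hcg hg
    _ ≤ (Cg * l ^ (-kap)) ^ (R / cg) := by
        apply Real.rpow_le_rpow (by positivity) h3 (by positivity)
    _ = Cg ^ (R / cg) * l ^ (-kap * (R / cg)) := by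
        rw [Real.mul_rpow (by positivity) (by positivity), ← Real.rpow_mul h0.le]
    _ ≤ Cg ^ (R / cg) * l ^ (-1 : ℝ) := by
        apply mul_le_mul_of_nonneg_left _ (by positivity)
        exact rp_anti h0 h1 (by linarith)

private lemma cv_le {q : ℕ} {l C0 Cg γ : ℝ} (h0 : 0 < l) (hC0 : 0 < C0) (hCg : 1 ≤ Cg)
    (hγ2 : γ ≤ Cg * l ^ 2) :
    √(γ * (C0 * l ^ (-(3 / 2) : ℝ))) ^ q ≤ √(Cg * C0) ^ q * l ^ ((q : ℝ) / 4) := by
  have h1 : √(γ * (C0 * l ^ (-(3 / 2) : ℝ))) ≤ √(Cg * C0) * l ^ (1 / 4 : ℝ) := by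
    rw [Real.sqrt_le_left (by positivity), mul_pow, Real.sq_sqrt (by positivity), rp_pow h0]
    calc γ * (C0 * l ^ (-(3 / 2) : ℝ)) ≤ (Cg * l ^ 2) * (C0 * l ^ (-(3 / 2) : ℝ)) :=
          mul_le_mul_of_nonneg_right hγ2 (by positivity)
      _ = Cg * C0 * l ^ (1 / 4 * ((2 : ℕ) : ℝ) : ℝ) := by
          have : l ^ (1 / 4 * ((2 : ℕ) : ℝ) : ℝ) = l ^ 2 * l ^ (-(3 / 2) : ℝ) := by
            rw [← Real.rpow_natCast l 2, ← Real.rpow_add h0]
            congr 1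
            push_cast
            ring
          rw [this]
          ring
  calc √(γ * (C0 * l ^ (-(3 / 2) : ℝ))) ^ q ≤ (√(Cg * C0) * l ^ (1 / 4 : ℝ)) ^ q :=
        pow_le_pow_left₀ (Real.sqrt_nonneg _) h1 q
    _ = √(Cg * C0) ^ q * l ^ ((q : ℝ) / 4) := by
        rw [mul_pow, rp_pow h0]
        congr 2
        ring

private lemma s0_eq {q : ℕ} {l : ℝ} (h0 : 0 < l) :
    (l ^ (1 / 16 : ℝ)) ^ (2 * q) / 4 = l ^ ((q : ℝ) / 8) / 4 := by
  rw [rp_pow h0]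
  congr 2
  push_cast
  ring

/-- the numerical inequalities of section C0, abstract form -/
private lemma params_num (d q m K : ℕ) (l kap A C1 C0 Cg cg c R C Ck N g γ : ℝ)
    (h0 : 0 < l) (h1 : l ≤ 1) (hk0 : 0 < kap) (hk1 : kap ≤ 1 / 8) (hA : 1 ≤ A) (hC1 : 1 ≤ C1)
    (hC0 : 0 < C0) (hCg : 1 ≤ Cg) (hcg : 0 < cg) (hc : 0 < c) (hR : 0 < R) (hC : 0 < C)
    (hCk : 0 < Ck) (hN0 : 0 ≤ N) (hN : N ≤ A * l ^ (-(10 * d) : ℝ)) (hg : cg ≤ g)
    (hγ1 : l ^ (2 + kap) ≤ γ) (hγ2 : γ ≤ Cg * l ^ 2) (hγ3 : c * l ^ 2 ≤ γ)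
    (hkR : kap * (R / cg) ≤ 1) (hq : q = 8 * (30 * d + K + 10)) (hm3 : 3 ≤ m)
    (hm : 10 * d + K + 3 ≤ kap * m / 16)
    (c1 : 4 * C * (4 * A ^ 3 * (3 * C1) ^ (2 * q)) * l ≤ 1)
    (c2 : C * Ck ^ m * l ≤ 1)
    (c3 : C * (Ck * A + C0 + 2) * l ^ (kap / 16) ≤ 1)
    (c4 : (A * (1 / c) ^ m + 8 * A ^ 3 * (√(Cg * C0) ^ q + C0 ^ (2 * q) + 1) +
      4 * Cg * A * (4 * A ^ 3 * (3 * C1) ^ (2 * q)) + 1 + C * Cg * A * Ck ^ m) *
      Cg ^ (R / cg) * l ≤ 1) :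
    C * (2 * N * (N ^ 2 + N / l ^ (2 + kap)) *
      (l ^ (2 * q - 2) * (3 * C1 * (l ^ (-(1 / 8) : ℝ)) ^ 2) ^ (2 * q))) ≤
        (l ^ (1 / 16 : ℝ)) ^ (2 * q) / 4 ∧
    C * ((l ^ (1 / 16 : ℝ)) ^ (2 * q) / 4 / (l ^ (kap / 16) / l ^ (2 + kap)) ^ m *
      ((Ck * l ^ (kap / 4) / l ^ (2 + kap)) ^ 2 *
        (l * (Ck * l ^ (kap / 4) / l ^ (2 + kap))) ^ (m - 2))) ≤
        (l ^ (1 / 16 : ℝ)) ^ (2 * q) / 4 ∧
    C * (Ck * l ^ (kap / 4) / l ^ (2 + kap) * N ^ (1 / (m : ℝ)) /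
      (l ^ (kap / 8) / l ^ (2 + kap)) + l ^ (1 / 16 : ℝ) + C0 * l + l) ≤ 1 ∧
    ((l ^ (1 / 16 : ℝ)) ^ (2 * q) / 4 / (l ^ (kap / 16) / l ^ (2 + kap)) ^ m *
        (N * (1 / γ) ^ m) +
      (N * (N ^ 2 + N / l ^ (2 + kap)) *
          (√(γ * (C0 * l ^ (-(3 / 2) : ℝ))) ^ q + (C0 * l) ^ (2 * q) + l ^ (2 * q)) +
        γ * N * (2 * N * (N ^ 2 + N / l ^ (2 + kap)) *
          (l ^ (2 * q - 2) * (3 * C1 * (l ^ (-(1 / 8) : ℝ)) ^ 2) ^ (2 * q))) +
        (l ^ (1 / 16 : ℝ)) ^ (2 * q) / 4 / (l ^ (kap / 16) / l ^ (2 + kap)) ^ m *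
          (l ^ (kap / 8) / l ^ (2 + kap)) ^ m +
        C * (γ * N * ((l ^ (1 / 16 : ℝ)) ^ (2 * q) / 4 / (l ^ (kap / 16) / l ^ (2 + kap)) ^ m *
      ((Ck * l ^ (kap / 4) / l ^ (2 + kap)) ^ 2 *
        (l * (Ck * l ^ (kap / 4) / l ^ (2 + kap))) ^ (m - 2)))))) /
      ((l ^ (1 / 16 : ℝ)) ^ (2 * q) / 4) * (γ / l ^ (2 + kap)) ^ (R / g) ≤ l ^ K := by
  have hd0 : (0 : ℝ) ≤ d := Nat.cast_nonneg d
  have hK0 : (0 : ℝ) ≤ K := Nat.cast_nonneg K
  have hqR : (q : ℝ) = 8 * (30 * d + K + 10) := by rw [hq]; push_cast; ring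
  have hx : 0 < l ^ (2 + kap) := Real.rpow_pos_of_pos h0 _
  have hγ0 : 0 < γ := lt_of_lt_of_le (by positivity) hγ1
  have htb1 := tb1_le (d := d) (q := q) h0 h1 hk1 hA hC1 hN0 (by omega) hN
  have hNB := NB_le h0 h1 hk1 hA hN0 hN
  have hNB0 : 0 ≤ N ^ 2 + N / l ^ (2 + kap) := by positivity
  have hfirst := first_le h0 h1 hk0 hA hN hc hγ3 hm
  have hcv := cv_le (q := q) h0 hC0 hCg hγ2
  have hfl := flow_factor h0 h1 hR hcg hg hCg hγ1 hγ2 hkR
  have hKA := KA_pow (m := m) (kap := kap) h0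
  have htb2 := tb2_eq (Ck := Ck) (kap := kap) h0 hm3
  have hNB' : 0 ≤ 2 * N * (N ^ 2 + N / l ^ (2 + kap)) *
      (l ^ (2 * q - 2) * (3 * C1 * (l ^ (-(1 / 8) : ℝ)) ^ 2) ^ (2 * q)) := by positivity
  rw [s0_eq h0]
  set s0 : ℝ := l ^ ((q : ℝ) / 8) / 4 with hs0
  have hs00 : 0 < s0 := by positivity
  set B1 : ℝ := 4 * A ^ 3 * (3 * C1) ^ (2 * q) with hB1
  have hB10 : 0 < B1 := by positivity
  set T1 : ℝ := 2 * N * (N ^ 2 + N / l ^ (2 + kap)) *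
      (l ^ (2 * q - 2) * (3 * C1 * (l ^ (-(1 / 8) : ℝ)) ^ 2) ^ (2 * q)) with hT1
  set KAm : ℝ := (l ^ (kap / 16) / l ^ (2 + kap)) ^ m with hKAm
  have hKAm0 : 0 < KAm := by positivity
  set T2 : ℝ := (Ck * l ^ (kap / 4) / l ^ (2 + kap)) ^ 2 *
        (l * (Ck * l ^ (kap / 4) / l ^ (2 + kap))) ^ (m - 2) with hT2
  -- `T1 / s0`
  have hT1s : T1 ≤ s0 * (4 * B1 * l ^ (11 * q / 8 - 30 * d - 5 : ℝ)) := by
    have : s0 * (4 * B1 * l ^ (11 * q / 8 - 30 * d - 5 : ℝ)) =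
        B1 * l ^ (3 * q / 2 - 30 * d - 5 : ℝ) := by
      rw [hs0]
      have : l ^ (3 * q / 2 - 30 * d - 5 : ℝ) =
          l ^ ((q : ℝ) / 8) * l ^ (11 * q / 8 - 30 * d - 5 : ℝ) := by
        rw [← Real.rpow_add h0]
        congr 1
        ring
      rw [this]
      ring
    rw [this]
    exact htb1
  -- `eps T2`
  have hT2s : s0 / KAm * T2 = s0 * (Ck ^ m * l ^ (3 * kap * m / 16) * l ^ (m - 2)) := by
    rw [← htb2]
    ring
  have hlm : l ^ (m - 2) ≤ 1 := pow_le_one₀ h0.le h1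
  have hlm1 : l ^ (m - 2) ≤ l := by
    calc l ^ (m - 2) ≤ l ^ 1 := pow_le_pow_of_le_one h0.le h1 (by omega)
      _ = l := pow_one l
  have hl3 : l ^ (3 * kap * m / 16) ≤ 1 := Real.rpow_le_one h0.le h1 (by positivity)
  refine ⟨?_, ?_, ?_, ?_⟩
  · calc C * T1 ≤ C * (s0 * (4 * B1 * l ^ (11 * q / 8 - 30 * d - 5 : ℝ))) :=
          mul_le_mul_of_nonneg_left hT1s hC.le
      _ = s0 * (4 * C * B1 * l ^ (11 * q / 8 - 30 * d - 5 : ℝ)) := by ring
      _ ≤ s0 * 1 := by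
          apply mul_le_mul_of_nonneg_left _ hs00.le
          refine le_trans ?_ c1
          apply mul_le_mul_of_nonneg_left _ (by positivity)
          calc l ^ (11 * q / 8 - 30 * d - 5 : ℝ) ≤ l ^ (1 : ℝ) := by
                apply rp_anti h0 h1
                rw [hqR]
                linarith
            _ = l := Real.rpow_one l
      _ = s0 := mul_one _
  · rw [hT2s]
    calc C * (s0 * (Ck ^ m * l ^ (3 * kap * m / 16) * l ^ (m - 2))) =
        s0 * (C * Ck ^ m * (l ^ (3 * kap * m / 16) * l ^ (m - 2))) := by ring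
      _ ≤ s0 * 1 := by
          apply mul_le_mul_of_nonneg_left _ hs00.le
          refine le_trans ?_ c2
          apply mul_le_mul_of_nonneg_left _ (by positivity)
          calc l ^ (3 * kap * m / 16) * l ^ (m - 2) ≤ 1 * l :=
                mul_le_mul hl3 hlm1 (by positivity) (by norm_num)
            _ = l := one_mul l
      _ = s0 := mul_one _
  · have hm0 : (0 : ℝ) < m := by
      have : 0 < m := by omega
      exact_mod_cast this
    have e1 : N ^ (1 / (m : ℝ)) ≤ A * l ^ (-(kap / 16)) := by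
      calc N ^ (1 / (m : ℝ)) ≤ (A * l ^ (-(10 * d) : ℝ)) ^ (1 / (m : ℝ)) :=
            Real.rpow_le_rpow hN0 hN (by positivity)
        _ = A ^ (1 / (m : ℝ)) * l ^ (-(10 * d) * (1 / (m : ℝ)) : ℝ) := by
            rw [Real.mul_rpow (by positivity) (by positivity), ← Real.rpow_mul h0.le]
        _ ≤ A ^ (1 : ℝ) * l ^ (-(kap / 16)) := by
            apply mul_le_mul _ _ (by positivity) (by positivity)
            · apply Real.rpow_le_rpow_of_exponent_le hA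
              rw [div_le_one hm0]
              have : 1 ≤ m := by omega
              exact_mod_cast this
            · apply rp_anti h0 h1
              rw [mul_one_div, neg_div, neg_le_neg_iff, div_le_iff₀ hm0]
              linarith
        _ = A * l ^ (-(kap / 16)) := by rw [Real.rpow_one]
    have e2 : Ck * l ^ (kap / 4) / l ^ (2 + kap) * N ^ (1 / (m : ℝ)) /
      (l ^ (kap / 8) / l ^ (2 + kap)) = Ck * l ^ (kap / 8) * N ^ (1 / (m : ℝ)) := by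
      have e3 : l ^ (kap / 4) = l ^ (kap / 8) * l ^ (kap / 8) := by
        rw [← Real.rpow_add h0]
        congr 1
        ring
      rw [e3]
      have hy : 0 < l ^ (kap / 8) := Real.rpow_pos_of_pos h0 _
      field_simp
    have e4 : Ck * l ^ (kap / 8) * N ^ (1 / (m : ℝ)) ≤ Ck * A * l ^ (kap / 16) := by
      calc Ck * l ^ (kap / 8) * N ^ (1 / (m : ℝ)) ≤
          Ck * l ^ (kap / 8) * (A * l ^ (-(kap / 16))) :=
            mul_le_mul_of_nonneg_left e1 (by positivity)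
        _ = Ck * A * (l ^ (kap / 8) * l ^ (-(kap / 16))) := by ring
        _ = Ck * A * l ^ (kap / 16) := by
            rw [← Real.rpow_add h0]
            congr 2
            ring
    have e5 : l ^ (1 / 16 : ℝ) ≤ l ^ (kap / 16) := rp_anti h0 h1 (by linarith)
    have e6 : l ≤ l ^ (kap / 16) := by
      calc l = l ^ (1 : ℝ) := (Real.rpow_one l).symm
        _ ≤ l ^ (kap / 16) := rp_anti h0 h1 (by linarith)
    rw [e2]
    refine le_trans ?_ c3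
    rw [mul_assoc C]
    apply mul_le_mul_of_nonneg_left _ hC.le
    have e7 : C0 * l ≤ C0 * l ^ (kap / 16) := mul_le_mul_of_nonneg_left e6 hC0.le
    linarith
  · -- the five pieces
    set P : ℝ := l ^ (K + 2 : ℝ) with hP
    have hP0 : 0 < P := Real.rpow_pos_of_pos h0 _
    have pa : s0 / KAm * (N * (1 / γ) ^ m) ≤ s0 * (A * (1 / c) ^ m * P) := by
      have : s0 / KAm * (N * (1 / γ) ^ m) = s0 * (N * (1 / γ) ^ m / KAm) := by ring
      rw [this]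
      exact mul_le_mul_of_nonneg_left hfirst hs00.le
    have pb : N * (N ^ 2 + N / l ^ (2 + kap)) *
          (√(γ * (C0 * l ^ (-(3 / 2) : ℝ))) ^ q + (C0 * l) ^ (2 * q) + l ^ (2 * q)) ≤
        s0 * (8 * A ^ 3 * (√(Cg * C0) ^ q + C0 ^ (2 * q) + 1) * P) := by
      have f1 : l ^ (2 * q) ≤ l ^ ((q : ℝ) / 4) := by
        rw [← Real.rpow_natCast l (2 * q)]
        apply rp_anti h0 h1
        push_cast
        rw [hqR]
        linarith
      have f2 : (C0 * l) ^ (2 * q) ≤ C0 ^ (2 * q) * l ^ ((q : ℝ) / 4) := by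
        rw [mul_pow]
        exact mul_le_mul_of_nonneg_left f1 (by positivity)
      have f3 : √(γ * (C0 * l ^ (-(3 / 2) : ℝ))) ^ q + (C0 * l) ^ (2 * q) + l ^ (2 * q) ≤
          (√(Cg * C0) ^ q + C0 ^ (2 * q) + 1) * l ^ ((q : ℝ) / 4) := by
        linarith
      have f4 : N * (N ^ 2 + N / l ^ (2 + kap)) ≤
          (A * l ^ (-(10 * d) : ℝ)) * (2 * A ^ 2 * l ^ (-(20 * d + 3) : ℝ)) :=
        mul_le_mul hN hNB hNB0 (by positivity)
      calc N * (N ^ 2 + N / l ^ (2 + kap)) *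
          (√(γ * (C0 * l ^ (-(3 / 2) : ℝ))) ^ q + (C0 * l) ^ (2 * q) + l ^ (2 * q)) ≤
          ((A * l ^ (-(10 * d) : ℝ)) * (2 * A ^ 2 * l ^ (-(20 * d + 3) : ℝ))) *
          ((√(Cg * C0) ^ q + C0 ^ (2 * q) + 1) * l ^ ((q : ℝ) / 4)) := by
            apply mul_le_mul f4 f3 (by positivity) (by positivity)
        _ = 2 * A ^ 3 * (√(Cg * C0) ^ q + C0 ^ (2 * q) + 1) *
            (l ^ (-(10 * d) : ℝ) * l ^ (-(20 * d + 3) : ℝ) * l ^ ((q : ℝ) / 4)) := by ring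
        _ = 2 * A ^ 3 * (√(Cg * C0) ^ q + C0 ^ (2 * q) + 1) *
            (l ^ ((q : ℝ) / 8) * l ^ ((q : ℝ) / 8 - 30 * d - 3)) := by
            congr 1
            rw [← Real.rpow_add h0, ← Real.rpow_add h0, ← Real.rpow_add h0]
            congr 1
            ring
        _ = s0 * (8 * A ^ 3 * (√(Cg * C0) ^ q + C0 ^ (2 * q) + 1) *
            l ^ ((q : ℝ) / 8 - 30 * d - 3)) := by rw [hs0]; ring
        _ ≤ _ := by
            apply mul_le_mul_of_nonneg_left _ hs00.le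
            apply mul_le_mul_of_nonneg_left _ (by positivity)
            apply rp_anti h0 h1
            rw [hqR]
            linarith
    have hγN : γ * N ≤ Cg * A * l ^ (-(10 * d) : ℝ) := by
      calc γ * N ≤ (Cg * l ^ 2) * (A * l ^ (-(10 * d) : ℝ)) :=
            mul_le_mul hγ2 hN hN0 (by positivity)
        _ = l ^ 2 * (Cg * A * l ^ (-(10 * d) : ℝ)) := by ring
        _ ≤ 1 * (Cg * A * l ^ (-(10 * d) : ℝ)) := by
            apply mul_le_mul_of_nonneg_right (pow_le_one₀ h0.le h1) (by positivity)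
        _ = _ := one_mul _
    have pc : γ * N * T1 ≤ s0 * (4 * Cg * A * B1 * P) := by
      calc γ * N * T1 ≤ (Cg * A * l ^ (-(10 * d) : ℝ)) *
          (s0 * (4 * B1 * l ^ (11 * q / 8 - 30 * d - 5 : ℝ))) :=
            mul_le_mul hγN hT1s hNB' (by positivity)
        _ = s0 * (4 * Cg * A * B1 * (l ^ (-(10 * d) : ℝ) *
            l ^ (11 * q / 8 - 30 * d - 5 : ℝ))) := by ring
        _ ≤ _ := by
            apply mul_le_mul_of_nonneg_left _ hs00.le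
            apply mul_le_mul_of_nonneg_left _ (by positivity)
            rw [← Real.rpow_add h0]
            apply rp_anti h0 h1
            rw [hqR]
            linarith
    have pd : s0 / KAm * (l ^ (kap / 8) / l ^ (2 + kap)) ^ m ≤ s0 * (1 * P) := by
      have : s0 / KAm * (l ^ (kap / 8) / l ^ (2 + kap)) ^ m = s0 * l ^ (kap * m / 16) := by
        rw [← hKA]
        ring
      rw [this, one_mul]
      apply mul_le_mul_of_nonneg_left _ hs00.le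
      apply rp_anti h0 h1
      linarith
    have pe : C * (γ * N * (s0 / KAm * T2)) ≤ s0 * (C * Cg * A * Ck ^ m * P) := by
      rw [hT2s]
      calc C * (γ * N * (s0 * (Ck ^ m * l ^ (3 * kap * m / 16) * l ^ (m - 2)))) ≤
          C * ((Cg * A * l ^ (-(10 * d) : ℝ)) *
            (s0 * (Ck ^ m * l ^ (3 * kap * m / 16) * 1))) := by
            apply mul_le_mul_of_nonneg_left _ hC.le
            apply mul_le_mul hγN _ (by positivity) (by positivity)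
            apply mul_le_mul_of_nonneg_left _ hs00.le
            apply mul_le_mul_of_nonneg_left hlm (by positivity)
        _ = s0 * (C * Cg * A * Ck ^ m * (l ^ (-(10 * d) : ℝ) * l ^ (3 * kap * m / 16))) := by
            ring
        _ ≤ _ := by
            apply mul_le_mul_of_nonneg_left _ hs00.le
            apply mul_le_mul_of_nonneg_left _ (by positivity)
            rw [← Real.rpow_add h0]
            apply rp_anti h0 h1
            have : 0 ≤ kap * m := by positivity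
            linarith
    set W : ℝ := A * (1 / c) ^ m + 8 * A ^ 3 * (√(Cg * C0) ^ q + C0 ^ (2 * q) + 1) +
      4 * Cg * A * B1 + 1 + C * Cg * A * Ck ^ m with hW
    have hsum : (s0 / KAm * (N * (1 / γ) ^ m) + (N * (N ^ 2 + N / l ^ (2 + kap)) *
          (√(γ * (C0 * l ^ (-(3 / 2) : ℝ))) ^ q + (C0 * l) ^ (2 * q) + l ^ (2 * q)) +
        γ * N * T1 + s0 / KAm * (l ^ (kap / 8) / l ^ (2 + kap)) ^ m +
        C * (γ * N * (s0 / KAm * T2)))) / s0 ≤ W * P := by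
      rw [div_le_iff₀ hs00]
      have : W * P * s0 = s0 * (A * (1 / c) ^ m * P) +
        (s0 * (8 * A ^ 3 * (√(Cg * C0) ^ q + C0 ^ (2 * q) + 1) * P) + s0 * (4 * Cg * A * B1 * P) +
          s0 * (1 * P) + s0 * (C * Cg * A * Ck ^ m * P)) := by
        rw [hW]
        ring
      rw [this]
      linarith
    have hW0 : 0 ≤ W := by positivity
    calc _ ≤ (W * P) * (Cg ^ (R / cg) * l ^ (-1 : ℝ)) := by
          apply mul_le_mul hsum hfl (by positivity) (by positivity)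
      _ = (W * Cg ^ (R / cg)) * (l ^ (K + 2 : ℝ) * l ^ (-1 : ℝ)) := by rw [hP]; ring
      _ = (W * Cg ^ (R / cg)) * (l * l ^ K) := by
          rw [← Real.rpow_add h0]
          congr 1
          rw [← Real.rpow_natCast l K]
          nth_rewrite 2 [← Real.rpow_one l]
          rw [← Real.rpow_add h0]
          congr 1
          ring
      _ = (W * Cg ^ (R / cg) * l) * l ^ K := by ring
      _ ≤ 1 * l ^ K := mul_le_mul_of_nonneg_right c4 (by positivity)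
      _ = l ^ K := one_mul _

/-- the numerical inequalities of section C0 -/
theorem params (d : ℕ) (bd C1 C0 cg v : ℝ) (hbd : 0 < bd) (hC1 : 1 ≤ C1) (hC0 : 0 < C0)
    (hcg : 0 < cg) (hv : 0 < v) (K : ℕ) : ∃ q : ℕ, 2 ≤ q ∧ ∀ R : ℝ, 0 < R → ∃ kap : ℝ, 0 < kap ∧
    kap ≤ 1 / 8 ∧ ∃ m : ℕ, 3 ≤ m ∧ ∀ C Ck : ℝ, 0 < C → 0 < Ck → ∃ lam0 : ℝ, 0 < lam0 ∧
    ∀ (L : ℕ) [NeZero L] (E lam sg : ℝ) (R' : ℕ), 0 < lam → lam ≤ lam0 →
      lam ^ (-10 : ℝ) ≤ L → (L : ℝ) ≤ 2 * lam ^ (-10 : ℝ) → v ≤ sg → sg ≤ bd ^ 2 →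
      let D := torusDat d L E lam kap sg bd C1 C0 Ck q m R'
      cg ≤ D.g0.im → ‖D.g0‖ ≤ C1 →
      C * D.tb1 ≤ D.s0 ∧ C * (D.eps * D.tb2) ≤ D.s0 ∧
      C * (D.kbar * (Fintype.card (Tor d L) : ℝ) ^ (1 / (D.m : ℝ)) /
        (lam ^ (kap / 8) / lam ^ (2 + kap)) + D.tau + D.dbar + D.lam) ≤ 1 ∧
      (D.eps * (Fintype.card (Tor d L) * (1 / D.et 0) ^ D.m) +
        D.bb C (lam ^ (kap / 8) / lam ^ (2 + kap))) / D.s0 *
          (D.et 0 / D.eta) ^ (R / D.g0.im) ≤ lam ^ K := by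
  refine ⟨8 * (30 * d + K + 10), by omega, fun R hR => ?_⟩
  set q := 8 * (30 * d + K + 10) with hq
  have hRcg : 0 < cg / R := by positivity
  set kap : ℝ := min (1 / 8) (cg / R) with hkap
  have hk0 : 0 < kap := lt_min (by norm_num) hRcg
  have hk1 : kap ≤ 1 / 8 := min_le_left _ _
  have hkR : kap * (R / cg) ≤ 1 := by
    calc kap * (R / cg) ≤ (cg / R) * (R / cg) :=
          mul_le_mul_of_nonneg_right (min_le_right _ _) (by positivity)
      _ = 1 := by field_simp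
  refine ⟨kap, hk0, hk1, ⌈16 * (10 * (d : ℝ) + K + 3) / kap⌉₊ + 3, by omega, ?_⟩
  set m := ⌈16 * (10 * (d : ℝ) + K + 3) / kap⌉₊ + 3 with hm
  have hm3 : 3 ≤ m := by omega
  have hmk : 10 * (d : ℝ) + K + 3 ≤ kap * m / 16 := by
    have h1 : 16 * (10 * (d : ℝ) + K + 3) / kap ≤ m := by
      refine le_trans (Nat.le_ceil _) ?_
      rw [hm]
      push_cast
      linarith
    rw [div_le_iff₀ hk0] at h1
    linarith
  intro C Ck hC hCk
  set A : ℝ := 2 ^ d with hA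
  have hA1 : 1 ≤ A := one_le_pow₀ (by norm_num)
  set Cg : ℝ := 1 + bd ^ 2 * C1 with hCg
  have hCg1 : 1 ≤ Cg := by
    have : 0 ≤ bd ^ 2 * C1 := by positivity
    linarith
  set c : ℝ := v * cg with hc
  have hc0 : 0 < c := by positivity
  have hev := ((ev_small 1 1 1 one_pos one_pos).and
    ((ev_small (4 * C * (4 * A ^ 3 * (3 * C1) ^ (2 * q))) 1 1 one_pos one_pos).and
    ((ev_small (C * Ck ^ m) 1 1 one_pos one_pos).and
    ((ev_small (C * (Ck * A + C0 + 2)) 1 (kap / 16) (by positivity) one_pos).and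
    (ev_small ((A * (1 / c) ^ m + 8 * A ^ 3 * (√(Cg * C0) ^ q + C0 ^ (2 * q) + 1) +
      4 * Cg * A * (4 * A ^ 3 * (3 * C1) ^ (2 * q)) + 1 + C * Cg * A * Ck ^ m) *
      Cg ^ (R / cg)) 1 1 one_pos one_pos)))))
  obtain ⟨lam0, hlam0, H⟩ := ev_exists hev
  refine ⟨lam0, hlam0, ?_⟩
  intro L _ E l sg R' h0 hl hL1 hL2 hsg1 hsg2 D hg1 hg2
  obtain ⟨c0, c1, c2, c3, c4⟩ := H l h0 hl
  rw [Real.rpow_one] at c0 c1 c2 c4
  rw [one_mul] at c0
  have hcard : (Fintype.card (Tor d L) : ℝ) = (L : ℝ) ^ d := by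
    simp [Tor]
  have hN0 : (0 : ℝ) ≤ (L : ℝ) ^ d := by positivity
  have hN : (L : ℝ) ^ d ≤ A * l ^ (-(10 * d) : ℝ) := by
    calc (L : ℝ) ^ d ≤ (2 * l ^ (-10 : ℝ)) ^ d := pow_le_pow_left₀ (Nat.cast_nonneg L) hL2 d
      _ = A * l ^ (-(10 * d) : ℝ) := by
        rw [mul_pow, rp_pow h0, hA]
        congr 2
        ring
  have heta : D.eta = l ^ (2 + kap) := by
    simp only [D, Dat.eta, torusDat, Complex.add_im, Complex.ofReal_im, Complex.im_ofReal_mul,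
      Complex.I_im, mul_one, zero_add]
  have hs : D.s = l ^ 2 * sg := rfl
  have het : D.et 0 = l ^ (2 + kap) + l ^ 2 * sg * D.g0.im := by
    rw [Dat.et, heta, hs]
    ring
  have hg0 : 0 < D.g0.im := lt_of_lt_of_le hcg hg1
  have hgC : D.g0.im ≤ C1 := le_trans (le_trans (le_abs_self _) (Complex.abs_im_le_norm _)) hg2
  have hsg0 : 0 < sg := lt_of_lt_of_le hv hsg1
  have hγ1 : l ^ (2 + kap) ≤ D.et 0 := by
    rw [het]
    have : 0 ≤ l ^ 2 * sg * D.g0.im := by positivity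
    linarith
  have hγ2 : D.et 0 ≤ Cg * l ^ 2 := by
    rw [het, hCg]
    have h3 : l ^ (2 + kap) ≤ l ^ 2 := by
      rw [← Real.rpow_natCast l 2]
      exact rp_anti h0 c0 (by push_cast; linarith)
    have h4 : sg * D.g0.im ≤ bd ^ 2 * C1 := mul_le_mul hsg2 hgC hg0.le (by positivity)
    have h5 : l ^ 2 * (sg * D.g0.im) ≤ l ^ 2 * (bd ^ 2 * C1) :=
      mul_le_mul_of_nonneg_left h4 (by positivity)
    linarith
  have hγ3 : c * l ^ 2 ≤ D.et 0 := by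
    rw [het, hc]
    have h3 : 0 < l ^ (2 + kap) := Real.rpow_pos_of_pos h0 _
    have h4 : v * cg ≤ sg * D.g0.im := mul_le_mul hsg1 hg1 hcg.le hsg0.le
    have h5 : l ^ 2 * (v * cg) ≤ l ^ 2 * (sg * D.g0.im) :=
      mul_le_mul_of_nonneg_left h4 (by positivity)
    linarith
  have key := params_num d q m K l kap A C1 C0 Cg cg c R C Ck ((L : ℝ) ^ d) D.g0.im (D.et 0)
    h0 c0 hk0 hk1 hA1 hC1 hC0 hCg1 hcg hc0 hR hC hCk hN0 hN hg1 hγ1 hγ2 hγ3 hkR hq hm3 hmk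
    c1 c2 c3 c4
  have htb1 : D.tb1 = 2 * (L : ℝ) ^ d * (((L : ℝ) ^ d) ^ 2 + (L : ℝ) ^ d / l ^ (2 + kap)) *
      (l ^ (2 * q - 2) * (3 * C1 * (l ^ (-(1 / 8) : ℝ)) ^ 2) ^ (2 * q)) := by
    rw [Dat.tb1, heta, hcard]
    rfl
  have htb2 : D.tb2 = (Ck * l ^ (kap / 4) / l ^ (2 + kap)) ^ 2 *
        (l * (Ck * l ^ (kap / 4) / l ^ (2 + kap))) ^ (m - 2) := rfl
  have hs0 : D.s0 = (l ^ (1 / 16 : ℝ)) ^ (2 * q) / 4 := rfl
  have heps : D.eps = (l ^ (1 / 16 : ℝ)) ^ (2 * q) / 4 / (l ^ (kap / 16) / l ^ (2 + kap)) ^ m :=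
    rfl
  have hNB : D.NB = ((L : ℝ) ^ d) ^ 2 + (L : ℝ) ^ d / l ^ (2 + kap) := by
    rw [Dat.NB, heta, hcard]
  have hcv : D.cv = √(D.et 0 * (C0 * l ^ (-(3 / 2) : ℝ))) := rfl
  rw [Dat.bb, heta, hNB, hcv, hcard, htb1, htb2, heps, hs0]
  exact key

end Pool.Agent.Kin
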