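import Pool.Agent.Kin.NiceG

/-! KIN: common lemmas for QVO, QVD, QVS, LSUM. -/

open Matrix Finset

noncomputable section

namespace Pool.Agent.Kin

lemma young1 {a b : ℝ} (ha : 0 ≤ a) (hb : 0 ≤ b) {q : ℕ} (hq : 1 ≤ q) :
    a ^ (2 * q - 2) * b ^ 2 ≤ a ^ (2 * q) + b ^ (2 * q) := by
  have h2 : 2 * q - 2 + 2 = 2 * q := by omega
  have ha' : 0 ≤ a ^ (2 * q) := pow_nonneg ha _
  have hb' : 0 ≤ b ^ (2 * q) := pow_nonneg hb _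
  rcases le_total a b with h | h
  · calc a ^ (2 * q - 2) * b ^ 2 ≤ b ^ (2 * q - 2) * b ^ 2 :=
          mul_le_mul_of_nonneg_right (pow_le_pow_left₀ ha h _) (sq_nonneg b)
      _ = b ^ (2 * q) := by rw [← pow_add, h2]
      _ ≤ _ := by linarith
  · calc a ^ (2 * q - 2) * b ^ 2 ≤ a ^ (2 * q - 2) * a ^ 2 :=
          mul_le_mul_of_nonneg_left (pow_le_pow_left₀ hb h _) (pow_nonneg ha _)
      _ = a ^ (2 * q) := by rw [← pow_add, h2]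
      _ ≤ _ := by linarith

lemma young2 {a v : ℝ} (ha : 0 ≤ a) (hv : 0 ≤ v) {q : ℕ} (hq : 1 ≤ q) :
    a ^ (2 * q - 2) * v ≤ a ^ (2 * q) + v ^ q := by
  have h := young1 ha (Real.sqrt_nonneg v) hq
  rwa [Real.sq_sqrt hv, pow_mul (Real.sqrt v), Real.sq_sqrt hv] at h

lemma young3 {a b : ℝ} (ha : 0 ≤ a) (hb : 0 ≤ b) {q : ℕ} (hq : 1 ≤ q) :
    a ^ (2 * q - 1) * b ≤ a ^ (2 * q) + b ^ (2 * q) := by
  have h2 : 2 * q - 1 + 1 = 2 * q := by omega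
  have ha' : 0 ≤ a ^ (2 * q) := pow_nonneg ha _
  have hb' : 0 ≤ b ^ (2 * q) := pow_nonneg hb _
  rcases le_total a b with h | h
  · calc a ^ (2 * q - 1) * b ≤ b ^ (2 * q - 1) * b :=
          mul_le_mul_of_nonneg_right (pow_le_pow_left₀ ha h _) hb
      _ = b ^ (2 * q) := by rw [← pow_succ, h2]
      _ ≤ _ := by linarith
  · calc a ^ (2 * q - 1) * b ≤ a ^ (2 * q - 1) * a :=
          mul_le_mul_of_nonneg_left h (pow_nonneg ha _)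
      _ = a ^ (2 * q) := by rw [← pow_succ, h2]
      _ ≤ _ := by linarith

variable {ι P : Type} [Fintype ι] [DecidableEq ι] [Fintype P]

lemma cs4 {et C4 v : ℝ} (het : 0 < et) (hC4 : 1 ≤ C4) (hv : 0 ≤ v)
    (u t : ι → ℝ) (hu : ∑ w, u w ^ 4 ≤ v ^ 2 / et)
    (ht : ∑ w, t w ^ 4 ≤ C4 / et) :
    ∑ w, u w ^ 2 * t w ^ 2 ≤ C4 / et * v := by
  have h1 : (∑ w, u w ^ 2 * t w ^ 2) ^ 2 ≤ (∑ w, (u w ^ 2) ^ 2) * ∑ w, (t w ^ 2) ^ 2 :=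
    Finset.sum_mul_sq_le_sq_mul_sq _ _ _
  have h2 : ∀ u : ι → ℝ, ∑ w, (u w ^ 2) ^ 2 = ∑ w, u w ^ 4 := by
    intro u
    apply Finset.sum_congr rfl
    intro w _
    ring
  rw [h2, h2] at h1
  have h3 : (∑ w, u w ^ 2 * t w ^ 2) ^ 2 ≤ (C4 / et * v) ^ 2 := by
    calc (∑ w, u w ^ 2 * t w ^ 2) ^ 2 ≤ (∑ w, u w ^ 4) * ∑ w, t w ^ 4 := h1
      _ ≤ (v ^ 2 / et) * (C4 / et) :=
          mul_le_mul hu ht (by positivity) (by positivity)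
      _ = (v / et) ^ 2 * C4 := by ring
      _ ≤ (v / et) ^ 2 * C4 ^ 2 := by
          apply mul_le_mul_of_nonneg_left _ (sq_nonneg _)
          nlinarith
      _ = (C4 / et * v) ^ 2 := by ring
  have h4 : 0 ≤ C4 / et * v := by positivity
  exact le_of_sq_le_sq h3 h4

namespace Dat

variable (D : Dat ι P)

lemma qv_zr_im (r : ℝ) : (D.zr r).im = D.et r := by
  simp only [zr, et, eta, Complex.add_im, Complex.mul_im, Complex.ofReal_re, Complex.ofReal_im,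
    zero_mul, add_zero]

lemma etpos (hD : D.Hyp) {r : ℝ} (h0 : 0 ≤ r) (h1 : r ≤ 1) : 0 < D.et r :=
  lt_of_lt_of_le hD.eta0 (D.et_pos hD h0 h1).1

lemma G_symm (hD : D.Hyp) {r : ℝ} (h0 : 0 ≤ r) (h1 : r ≤ 1) (h : ι → ℝ) (x y : ι) :
    D.G r h x y = D.G r h y x := by
  unfold G
  exact res_symm hD.sym (by rw [qv_zr_im]; exact D.etpos hD h0 h1) h x y

lemma X_symm (hD : D.Hyp) {r : ℝ} (h0 : 0 ≤ r) (h1 : r ≤ 1) (h : ι → ℝ) (x y : ι) :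
    D.X r h x y = D.X r h y x := by
  unfold X M
  rw [Matrix.sub_apply, Matrix.sub_apply, D.G_symm hD h0 h1 h x y,
    D.G_symm hD le_rfl zero_le_one 0 x y]

lemma a4_eq (hD : D.Hyp) (x : ι) : D.a4 = D.cv ^ 2 / D.et 0 := by
  have h0 := D.etpos hD le_rfl zero_le_one
  have ha : 0 ≤ D.a4 := le_trans (Finset.sum_nonneg fun y _ => by positivity) (hD.ha4 x)
  unfold cv
  rw [Real.sq_sqrt (by positivity)]
  field_simp

lemma cv0 : 0 ≤ D.cv := Real.sqrt_nonneg _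

lemma cv1 (hD : D.Hyp) : D.cv ≤ 1 := by
  unfold cv
  exact Real.sqrt_le_one.2 hD.ga4

lemma M4_le (hD : D.Hyp) {r : ℝ} (h0 : 0 ≤ r) (h1 : r ≤ 1) (x : ι) :
    ∑ y, ‖D.M x y‖ ^ 4 ≤ D.cv ^ 2 / D.et r := by
  refine (hD.ha4 x).trans ?_
  rw [D.a4_eq hD x]
  have := D.etpos hD h0 h1
  exact div_le_div_of_nonneg_left (sq_nonneg _) this (D.et_pos hD h0 h1).2

lemma G_le (r : ℝ) (h : ι → ℝ) (x y : ι) :
    ‖D.G r h x y‖ ^ 2 ≤ 2 * ‖D.X r h x y‖ ^ 2 + 2 * ‖D.M x y‖ ^ 2 := by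
  have h1 : D.G r h x y = D.X r h x y + D.M x y := by
    unfold X
    rw [Matrix.sub_apply]
    ring
  have h2 : ‖D.G r h x y‖ ≤ ‖D.X r h x y‖ + ‖D.M x y‖ := by
    rw [h1]
    exact norm_add_le _ _
  have h3 := norm_nonneg (D.X r h x y)
  have h4 := norm_nonneg (D.M x y)
  have h5 : ‖D.G r h x y‖ ^ 2 ≤ (‖D.X r h x y‖ + ‖D.M x y‖) ^ 2 :=
    pow_le_pow_left₀ (norm_nonneg _) h2 2
  nlinarith [sq_nonneg (‖D.X r h x y‖ - ‖D.M x y‖)]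

lemma G4_le (r : ℝ) (h : ι → ℝ) (x y : ι) :
    ‖D.G r h x y‖ ^ 4 ≤ 8 * ‖D.X r h x y‖ ^ 4 + 8 * ‖D.M x y‖ ^ 4 := by
  have h1 := D.G_le r h x y
  have h2 : (‖D.G r h x y‖ ^ 2) ^ 2 ≤ (2 * ‖D.X r h x y‖ ^ 2 + 2 * ‖D.M x y‖ ^ 2) ^ 2 :=
    pow_le_pow_left₀ (sq_nonneg _) h1 2
  nlinarith [sq_nonneg (‖D.X r h x y‖ ^ 2 - ‖D.M x y‖ ^ 2)]

end Dat

end Pool.Agent.Kin
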