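import Pool.Agent.Kin.QvCom

/-! KIN QVO: quadratic variation, off-diagonal part (section A7 (iv)). -/

open Matrix Finset

noncomputable section

namespace Pool.Agent.Kin

theorem qvo (q : ℕ) (hq : 2 ≤ q) (C1 C4 : ℝ) (hC1 : 1 ≤ C1) (hC4 : 1 ≤ C4) : ∃ C : ℝ, 0 < C ∧
    ∀ (ι P : Type) [Fintype ι] [DecidableEq ι] [Fintype P] (D : Dat ι P), D.Hyp →
      D.C1 = C1 → ∀ r : ℝ, 0 ≤ r → r ≤ 1 → ∀ h : ι → ℝ, D.Good r h →
      ∀ (f : Matrix ι ι ℂ) (R : Matrix ι ι ℝ), (∀ x y, 0 ≤ R x y) →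
        (∀ x, ∑ y, R x y ^ 2 ≤ C1 / D.et r) → (∀ y, ∑ x, R x y ^ 2 ≤ C1 / D.et r) →
        (∀ y, ∑ x, R x y ^ 4 ≤ C4 / D.et r) →
      ∑ w, ∑ x, ∑ y, ‖f x y‖ ^ (2 * q - 2) * (‖D.G r h x w‖ ^ 2 * R w y ^ 2) ≤
        C / D.et r * (∑ x, ∑ y, ‖f x y‖ ^ (2 * q) + ∑ x, ∑ y, ‖D.X r h x y‖ ^ (2 * q) +
          (Fintype.card ι : ℝ) ^ 2 * D.cv ^ q) := by
  refine ⟨2 * C1 + 2 * C4, by positivity, ?_⟩
  intro ι P _ _ _ D hD hDC r h0 h1 h hg f R hR0 hRr hRc hR4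
  have het := D.etpos hD h0 h1
  have hq1 : 1 ≤ q := by omega
  have hcv := D.cv0
  set e := D.et r with he
  -- pointwise bound
  have hpt : ∀ w x y, ‖f x y‖ ^ (2 * q - 2) * (‖D.G r h x w‖ ^ 2 * R w y ^ 2) ≤
      2 * (‖f x y‖ ^ (2 * q) * R w y ^ 2) + 2 * (‖D.X r h x w‖ ^ (2 * q) * R w y ^ 2) +
        2 * (‖f x y‖ ^ (2 * q - 2) * (‖D.M x w‖ ^ 2 * R w y ^ 2)) := by
    intro w x y
    have h2 := D.G_le r h x w
    have h3 := young1 (norm_nonneg (f x y)) (norm_nonneg (D.X r h x w)) hq1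
    have h4 : 0 ≤ ‖f x y‖ ^ (2 * q - 2) := pow_nonneg (norm_nonneg _) _
    have h5 : 0 ≤ R w y ^ 2 := sq_nonneg _
    calc ‖f x y‖ ^ (2 * q - 2) * (‖D.G r h x w‖ ^ 2 * R w y ^ 2) ≤
        ‖f x y‖ ^ (2 * q - 2) * ((2 * ‖D.X r h x w‖ ^ 2 + 2 * ‖D.M x w‖ ^ 2) * R w y ^ 2) := by
          gcongr
      _ = 2 * ((‖f x y‖ ^ (2 * q - 2) * ‖D.X r h x w‖ ^ 2) * R w y ^ 2) +
          2 * (‖f x y‖ ^ (2 * q - 2) * (‖D.M x w‖ ^ 2 * R w y ^ 2)) := by ring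
      _ ≤ 2 * ((‖f x y‖ ^ (2 * q) + ‖D.X r h x w‖ ^ (2 * q)) * R w y ^ 2) +
          2 * (‖f x y‖ ^ (2 * q - 2) * (‖D.M x w‖ ^ 2 * R w y ^ 2)) := by
          gcongr
      _ = _ := by ring
  have hA : ∑ w, ∑ x, ∑ y, ‖f x y‖ ^ (2 * q) * R w y ^ 2 ≤
      C1 / e * ∑ x, ∑ y, ‖f x y‖ ^ (2 * q) := by
    calc ∑ w, ∑ x, ∑ y, ‖f x y‖ ^ (2 * q) * R w y ^ 2
        = ∑ x, ∑ y, ‖f x y‖ ^ (2 * q) * ∑ w, R w y ^ 2 := by
          rw [Finset.sum_comm]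
          apply Finset.sum_congr rfl
          intro x _
          rw [Finset.sum_comm]
          apply Finset.sum_congr rfl
          intro y _
          rw [Finset.mul_sum]
      _ ≤ ∑ x, ∑ y, ‖f x y‖ ^ (2 * q) * (C1 / e) := by
          gcongr with x _ y _
          exact hRc y
      _ = _ := by
          rw [Finset.mul_sum]
          apply Finset.sum_congr rfl
          intro x _
          rw [Finset.mul_sum]
          apply Finset.sum_congr rfl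
          intro y _
          ring
  have hB : ∑ w, ∑ x, ∑ y, ‖D.X r h x w‖ ^ (2 * q) * R w y ^ 2 ≤
      C1 / e * ∑ x, ∑ y, ‖D.X r h x y‖ ^ (2 * q) := by
    calc ∑ w, ∑ x, ∑ y, ‖D.X r h x w‖ ^ (2 * q) * R w y ^ 2
        = ∑ x, ∑ w, ‖D.X r h x w‖ ^ (2 * q) * ∑ y, R w y ^ 2 := by
          rw [Finset.sum_comm]
          apply Finset.sum_congr rfl
          intro x _
          apply Finset.sum_congr rfl
          intro y _
          rw [Finset.mul_sum]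
      _ ≤ ∑ x, ∑ w, ‖D.X r h x w‖ ^ (2 * q) * (C1 / e) := by
          gcongr with x _ w _
          exact hRr w
      _ = _ := by
          rw [Finset.mul_sum]
          apply Finset.sum_congr rfl
          intro x _
          rw [Finset.mul_sum]
          apply Finset.sum_congr rfl
          intro y _
          ring
  have hC : ∑ w, ∑ x, ∑ y, ‖f x y‖ ^ (2 * q - 2) * (‖D.M x w‖ ^ 2 * R w y ^ 2) ≤
      C4 / e * (∑ x, ∑ y, ‖f x y‖ ^ (2 * q) + (Fintype.card ι : ℝ) ^ 2 * D.cv ^ q) := by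
    calc ∑ w, ∑ x, ∑ y, ‖f x y‖ ^ (2 * q - 2) * (‖D.M x w‖ ^ 2 * R w y ^ 2)
        = ∑ x, ∑ y, ‖f x y‖ ^ (2 * q - 2) * ∑ w, ‖D.M x w‖ ^ 2 * R w y ^ 2 := by
          rw [Finset.sum_comm]
          apply Finset.sum_congr rfl
          intro x _
          rw [Finset.sum_comm]
          apply Finset.sum_congr rfl
          intro y _
          rw [Finset.mul_sum]
      _ ≤ ∑ x, ∑ y, ‖f x y‖ ^ (2 * q - 2) * (C4 / e * D.cv) := by
          gcongr with x _ y _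
          exact cs4 het hC4 hcv _ _ (D.M4_le hD h0 h1 x) (hR4 y)
      _ = C4 / e * ∑ x, ∑ y, ‖f x y‖ ^ (2 * q - 2) * D.cv := by
          rw [Finset.mul_sum]
          apply Finset.sum_congr rfl
          intro x _
          rw [Finset.mul_sum]
          apply Finset.sum_congr rfl
          intro y _
          ring
      _ ≤ C4 / e * ∑ x, ∑ y, (‖f x y‖ ^ (2 * q) + D.cv ^ q) := by
          gcongr with x _ y _
          exact young2 (norm_nonneg _) hcv hq1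
      _ = _ := by
          congr 1
          simp only [Finset.sum_add_distrib, Finset.sum_const, Finset.card_univ, nsmul_eq_mul]
          ring
  have hX0 : 0 ≤ ∑ x, ∑ y, ‖D.X r h x y‖ ^ (2 * q) := by positivity
  have hf0 : 0 ≤ ∑ x, ∑ y, ‖f x y‖ ^ (2 * q) := by positivity
  have hN0 : 0 ≤ (Fintype.card ι : ℝ) ^ 2 * D.cv ^ q := by positivity
  calc ∑ w, ∑ x, ∑ y, ‖f x y‖ ^ (2 * q - 2) * (‖D.G r h x w‖ ^ 2 * R w y ^ 2)
      ≤ ∑ w, ∑ x, ∑ y, (2 * (‖f x y‖ ^ (2 * q) * R w y ^ 2) +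
        2 * (‖D.X r h x w‖ ^ (2 * q) * R w y ^ 2) +
        2 * (‖f x y‖ ^ (2 * q - 2) * (‖D.M x w‖ ^ 2 * R w y ^ 2))) := by
        gcongr with w _ x _ y _
        exact hpt w x y
    _ = 2 * (∑ w, ∑ x, ∑ y, ‖f x y‖ ^ (2 * q) * R w y ^ 2) +
        2 * (∑ w, ∑ x, ∑ y, ‖D.X r h x w‖ ^ (2 * q) * R w y ^ 2) +
        2 * (∑ w, ∑ x, ∑ y, ‖f x y‖ ^ (2 * q - 2) * (‖D.M x w‖ ^ 2 * R w y ^ 2)) := by
        simp only [Finset.sum_add_distrib, Finset.mul_sum]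
    _ ≤ 2 * (C1 / e * ∑ x, ∑ y, ‖f x y‖ ^ (2 * q)) +
        2 * (C1 / e * ∑ x, ∑ y, ‖D.X r h x y‖ ^ (2 * q)) +
        2 * (C4 / e * (∑ x, ∑ y, ‖f x y‖ ^ (2 * q) + (Fintype.card ι : ℝ) ^ 2 * D.cv ^ q)) := by
        gcongr
    _ ≤ _ := by
        have h6 : 0 ≤ C1 / e * ((Fintype.card ι : ℝ) ^ 2 * D.cv ^ q) := by positivity
        have h7 : 0 ≤ C4 / e * ∑ x, ∑ y, ‖D.X r h x y‖ ^ (2 * q) := by positivity
        have h8 : (2 * C1 + 2 * C4) / e * (∑ x, ∑ y, ‖f x y‖ ^ (2 * q) +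
            ∑ x, ∑ y, ‖D.X r h x y‖ ^ (2 * q) + (Fintype.card ι : ℝ) ^ 2 * D.cv ^ q) =
          2 * (C1 / e * ∑ x, ∑ y, ‖f x y‖ ^ (2 * q)) +
          2 * (C1 / e * ∑ x, ∑ y, ‖D.X r h x y‖ ^ (2 * q)) +
          2 * (C4 / e * (∑ x, ∑ y, ‖f x y‖ ^ (2 * q) + (Fintype.card ι : ℝ) ^ 2 * D.cv ^ q)) +
          2 * (C1 / e * ((Fintype.card ι : ℝ) ^ 2 * D.cv ^ q)) +
          2 * (C4 / e * ∑ x, ∑ y, ‖D.X r h x y‖ ^ (2 * q)) := by ring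
        rw [h8]
        linarith

end Pool.Agent.Kin
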