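import Pool.Agent.Kin.Rep1

/-! KIN REPX: Lemma R for `X`. -/

open Matrix Finset

noncomputable section

namespace Pool.Agent.Kin

/-- the factors `1/(1 + δ G_ww)`. -/
lemma kfac (bd C1 : ℝ) (hbd : 0 < bd) (hC1 : 1 ≤ C1) : ∃ C : ℝ, 0 < C ∧
    ∀ (lam δ : ℝ) (g : ℂ), 0 < lam → 4 * bd * lam * C1 ≤ 1 → |δ| ≤ 2 * bd * lam → ‖g‖ ≤ C1 →
      1 + (δ : ℂ) * g ≠ 0 ∧ ‖(1 + (δ : ℂ) * g)⁻¹‖ ≤ 2 ∧
      ‖(δ : ℂ) / (1 + (δ : ℂ) * g)‖ ≤ 4 * bd * lam ∧
      ∀ j : ℕ, j ≤ 4 → ‖((1 + (δ : ℂ) * g)⁻¹) ^ j - 1‖ ≤ C * lam ∧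
        ‖((1 + (δ : ℂ) * g)⁻¹) ^ j * star ((1 + (δ : ℂ) * g)⁻¹) - 1‖ ≤ C * lam := by
  have hC10 : 0 < C1 := by linarith
  refine ⟨124 * bd * C1, by positivity, ?_⟩
  intro lam δ g hlam hsm hδ hg
  have h1 : ‖(δ : ℂ) * g‖ ≤ 2 * bd * lam * C1 := by
    rw [norm_mul, Complex.norm_real, Real.norm_eq_abs]
    exact mul_le_mul hδ hg (norm_nonneg _) (by positivity)
  have h2 : ‖(δ : ℂ) * g‖ ≤ 1 / 2 := by linarith
  have h3 : 1 / 2 ≤ ‖1 + (δ : ℂ) * g‖ := by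
    have h4 : ‖(1 : ℂ)‖ ≤ ‖1 + (δ : ℂ) * g‖ + ‖(δ : ℂ) * g‖ := by
      have := norm_sub_le (1 + (δ : ℂ) * g) ((δ : ℂ) * g)
      simpa using this
    rw [norm_one] at h4
    linarith
  have hne : 1 + (δ : ℂ) * g ≠ 0 := by
    intro h
    rw [h, norm_zero] at h3
    linarith
  set k : ℂ := (1 + (δ : ℂ) * g)⁻¹ with hk
  have hk2 : ‖k‖ ≤ 2 := by
    rw [hk, norm_inv]
    rw [inv_le_comm₀ (by linarith) (by norm_num)]
    linarith
  have hk1 : ‖k - 1‖ ≤ 4 * bd * C1 * lam := by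
    have h5 : k - 1 = -((δ : ℂ) * g * k) := by
      rw [hk]; field_simp; ring
    rw [h5, norm_neg, norm_mul]
    calc ‖(δ : ℂ) * g‖ * ‖k‖ ≤ (2 * bd * lam * C1) * 2 :=
          mul_le_mul h1 hk2 (norm_nonneg _) (by positivity)
      _ = _ := by ring
  have hpow : ∀ j : ℕ, j ≤ 4 → ‖k ^ j - 1‖ ≤ 15 * (4 * bd * C1 * lam) := by
    intro j hj
    have h6 : k ^ j - 1 = (k - 1) * ∑ i ∈ Finset.range j, k ^ i := (mul_geom_sum k j).symm
    rw [h6, norm_mul]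
    have h7 : ‖∑ i ∈ Finset.range j, k ^ i‖ ≤ 15 := by
      calc ‖∑ i ∈ Finset.range j, k ^ i‖ ≤ ∑ i ∈ Finset.range j, ‖k ^ i‖ := norm_sum_le _ _
        _ ≤ ∑ i ∈ Finset.range 4, (2 : ℝ) ^ i := by
            calc ∑ i ∈ Finset.range j, ‖k ^ i‖ ≤ ∑ i ∈ Finset.range j, (2 : ℝ) ^ i := by
                  refine Finset.sum_le_sum fun i _ => ?_
                  rw [norm_pow]
                  exact pow_le_pow_left₀ (norm_nonneg _) hk2 i
              _ ≤ _ := Finset.sum_le_sum_of_subset_of_nonneg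
                  (Finset.range_subset_range.2 hj) (fun _ _ _ => by positivity)
        _ = 15 := by norm_num [Finset.sum_range_succ]
    calc ‖k - 1‖ * ‖∑ i ∈ Finset.range j, k ^ i‖ ≤ (4 * bd * C1 * lam) * 15 :=
          mul_le_mul hk1 h7 (norm_nonneg _) (by positivity)
      _ = _ := by ring
  refine ⟨hne, hk2, ?_, fun j hj => ⟨?_, ?_⟩⟩
  · rw [div_eq_mul_inv, norm_mul, Complex.norm_real, Real.norm_eq_abs]
    calc |δ| * ‖(1 + (δ : ℂ) * g)⁻¹‖ ≤ (2 * bd * lam) * 2 :=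
          mul_le_mul hδ hk2 (norm_nonneg _) (by positivity)
      _ = _ := by ring
  · refine (hpow j hj).trans ?_
    have : 0 < bd * C1 * lam := by positivity
    nlinarith
  · have h8 : k ^ j * star k - 1 = (k ^ j - 1) * star k + star (k - 1) := by
      rw [star_sub, star_one]; ring
    rw [h8]
    calc ‖(k ^ j - 1) * star k + star (k - 1)‖ ≤ ‖(k ^ j - 1) * star k‖ + ‖star (k - 1)‖ :=
          norm_add_le _ _
      _ = ‖k ^ j - 1‖ * ‖k‖ + ‖k - 1‖ := by rw [norm_mul, norm_star, norm_star]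
      _ ≤ (15 * (4 * bd * C1 * lam)) * 2 + 4 * bd * C1 * lam := by
          have := hpow j hj
          gcongr
      _ = _ := by ring

/-- Lemma R for `X`. -/
theorem repX (bd C1 : ℝ) (hbd : 0 < bd) (hC1 : 1 ≤ C1) : ∃ C : ℝ, 0 < C ∧
    ∀ (ι P : Type) [Fintype ι] [DecidableEq ι] [Fintype P] (D : Dat ι P), D.Hyp → D.bd = bd →
      D.C1 = C1 → ∀ (r : ℝ), 0 < D.et r → ∀ (h : ι → ℝ) (w : ι) (t : ℝ),
      |t - h w| ≤ 2 * bd * D.lam → (∀ x, ‖D.G r h x x‖ ≤ C1) →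
      Rep C D.lam (D.X r h) (D.X r (Function.update h w t)) (D.dX w r h)
        (D.dX w r (Function.update h w t)) (D.ddX w r h) (D.ddX w r (Function.update h w t))
        (D.sX w r h) := by
  obtain ⟨Ck, hCk, hkf⟩ := kfac bd C1 hbd hC1
  have hC10 : 0 < C1 := by linarith
  refine ⟨4 * bd + 4 + 16 * C1 + 2 * Ck * C1, by positivity, ?_⟩
  intro ι P _ _ _ D hD hDbd hDC1 r hr h w t ht hdiag
  have hlam := hD.lam0
  have hsm : 4 * bd * D.lam * C1 ≤ 1 := by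
    have := hD.small
    rwa [hDbd, hDC1] at this
  obtain ⟨hne, hk2, hd', hpow⟩ := hkf D.lam (t - h w) (D.G r h w w) hlam hsm ht (hdiag w)
  have him : 0 < (D.zr r).im := by
    have : (D.zr r).im = D.et r := by
      simp only [Dat.zr, Dat.et, Dat.eta, Complex.add_im, Complex.im_ofReal_mul]
    rw [this]; exact hr
  have hup : ∀ x y, D.G r (Function.update h w t) x y = D.G r h x y -
      ((t - h w : ℝ) : ℂ) / (1 + ((t - h w : ℝ) : ℂ) * D.G r h w w) *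
        (D.G r h x w * D.G r h w y) := fun x y => res_update hD.sym him h w t x y
  set g := D.G r h w w with hg
  set k : ℂ := (1 + ((t - h w : ℝ) : ℂ) * g)⁻¹ with hk
  have hxw : ∀ x, D.G r (Function.update h w t) x w = k * D.G r h x w := by
    intro x
    rw [hup, ← hg, hk]; field_simp; ring
  have hwy : ∀ y, D.G r (Function.update h w t) w y = k * D.G r h w y := by
    intro y
    rw [hup, ← hg, hk]; field_simp; ring
  have hgn : ‖g‖ ≤ C1 := hdiag w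
  have hs0 : ∀ x y, 0 ≤ D.sX w r h x y := fun x y => by unfold Dat.sX; positivity
  have hbig : ∀ x y (c : ℝ), c ≤ 4 * bd + 4 + 16 * C1 + 2 * Ck * C1 →
      c * D.sX w r h x y ≤ (4 * bd + 4 + 16 * C1 + 2 * Ck * C1) * D.sX w r h x y :=
    fun x y c hc => mul_le_mul_of_nonneg_right hc (hs0 x y)
  have hpos : 0 ≤ 2 * Ck * C1 := by positivity
  refine ⟨hs0, fun x y => ?_, fun x y => ?_, fun x y => ?_, fun x y => ?_, fun x y => ?_,
    fun x y => ?_⟩
  · have h1 : D.X r (Function.update h w t) x y - D.X r h x y =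
        -(((t - h w : ℝ) : ℂ) / (1 + ((t - h w : ℝ) : ℂ) * g) *
          (D.G r h x w * D.G r h w y)) := by
      simp only [Dat.X, Matrix.sub_apply, hup x y]; ring
    rw [h1, norm_neg, norm_mul, norm_mul]
    calc ‖((t - h w : ℝ) : ℂ) / (1 + ((t - h w : ℝ) : ℂ) * g)‖ * (‖D.G r h x w‖ * ‖D.G r h w y‖)
        ≤ (4 * bd * D.lam) * (‖D.G r h x w‖ * ‖D.G r h w y‖) := by gcongr
      _ = (4 * bd) * D.lam * D.sX w r h x y := rfl
      _ ≤ (4 * bd + 4 + 16 * C1 + 2 * Ck * C1) * D.lam * D.sX w r h x y := by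
          have := hs0 x y
          gcongr
          linarith
  · have h1 : ‖D.dX w r h x y‖ = 1 * D.sX w r h x y := by
      simp only [Dat.dX, Dat.sX, norm_neg, norm_mul, one_mul]
    rw [h1]; exact hbig x y 1 (by linarith)
  · have h1 : ‖D.dX w r (Function.update h w t) x y‖ ≤ 4 * D.sX w r h x y := by
      simp only [Dat.dX, Dat.sX, norm_neg, norm_mul, hxw, hwy]
      calc ‖k‖ * ‖D.G r h x w‖ * (‖k‖ * ‖D.G r h w y‖)
          = (‖k‖ * ‖k‖) * (‖D.G r h x w‖ * ‖D.G r h w y‖) := by ring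
        _ ≤ (2 * 2) * (‖D.G r h x w‖ * ‖D.G r h w y‖) := by gcongr
        _ = _ := by ring
    exact h1.trans (hbig x y 4 (by linarith))
  · have h1 : ‖D.ddX w r h x y‖ ≤ 2 * C1 * D.sX w r h x y := by
      simp only [Dat.ddX, Dat.sX, norm_mul, Complex.norm_ofNat]
      calc 2 * (‖D.G r h x w‖ * ‖D.G r h w w‖ * ‖D.G r h w y‖)
          ≤ 2 * (‖D.G r h x w‖ * C1 * ‖D.G r h w y‖) := by gcongr
        _ = _ := by ring
    exact h1.trans (hbig x y _ (by linarith))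
  · have h1 : ‖D.ddX w r (Function.update h w t) x y‖ ≤ 16 * C1 * D.sX w r h x y := by
      simp only [Dat.ddX, Dat.sX, norm_mul, Complex.norm_ofNat, hxw, hwy]
      calc 2 * (‖k‖ * ‖D.G r h x w‖ * (‖k‖ * ‖D.G r h w w‖) * (‖k‖ * ‖D.G r h w y‖))
          ≤ 2 * (2 * ‖D.G r h x w‖ * (2 * C1) * (2 * ‖D.G r h w y‖)) := by
            gcongr
        _ = _ := by ring
    exact h1.trans (hbig x y _ (by linarith))
  · have h1 : D.ddX w r (Function.update h w t) x y - D.ddX w r h x y =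
        2 * ((k ^ 3 - 1) * g) * (D.G r h x w * D.G r h w y) := by
      simp only [Dat.ddX, hxw, hwy, ← hg]; ring
    rw [h1]
    simp only [norm_mul, Complex.norm_ofNat]
    have h3 := (hpow 3 (by norm_num)).1
    calc 2 * (‖k ^ 3 - 1‖ * ‖g‖) * (‖D.G r h x w‖ * ‖D.G r h w y‖)
        ≤ 2 * ((Ck * D.lam) * C1) * (‖D.G r h x w‖ * ‖D.G r h w y‖) := by gcongr
      _ = (2 * Ck * C1) * D.lam * D.sX w r h x y := by simp only [Dat.sX]; ring
      _ ≤ (4 * bd + 4 + 16 * C1 + 2 * Ck * C1) * D.lam * D.sX w r h x y := by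
          have := hs0 x y
          gcongr
          linarith

end Pool.Agent.Kin
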