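import Pool.Agent.Kin.RepX

/-! KIN REPZ: Lemma R for `Z`. -/

open Matrix Finset

noncomputable section

set_option linter.unusedSectionVars false
set_option maxHeartbeats 1000000

namespace Pool.Agent.Kin

namespace Dat

variable {ι P : Type} [Fintype ι] [DecidableEq ι] [Fintype P] (D : Dat ι P)

private lemma rz_F (p : P) (r : ℝ) (h : ι → ℝ) (x y : ι) :
    D.F p r h x y = ∑ u, D.G r h x u * D.b p u * star (D.G r h y u) := by
  unfold F
  rw [Matrix.mul_apply]
  refine Finset.sum_congr rfl fun u _ => ?_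
  rw [Matrix.mul_diagonal, Matrix.conjTranspose_apply]

/-- the update of `F` -/
private lemma rz_up (p : P) (r : ℝ) (h h' : ι → ℝ) (w : ι) (c : ℂ)
    (hup : ∀ x y, D.G r h' x y = D.G r h x y - c * (D.G r h x w * D.G r h w y)) (x y : ι) :
    D.F p r h' x y = D.F p r h x y - c * D.G r h x w * D.F p r h w y -
      star (c * D.G r h y w) * D.F p r h x w +
      c * star c * D.G r h x w * star (D.G r h y w) * D.F p r h w w := by
  simp only [D.rz_F, hup, Finset.mul_sum, ← Finset.sum_sub_distrib, ← Finset.sum_add_distrib]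
  refine Finset.sum_congr rfl fun u _ => ?_
  simp only [star_sub, star_mul']
  ring

/-- bound of the diagonal entries of `F` by Ward's identity -/
private lemma rz_diag (hD : D.Hyp) (p : P) {r : ℝ} (hr : 0 < D.et r) (h : ι → ℝ) (w : ι) :
    ‖D.F p r h w w‖ ≤ ‖D.G r h w w‖ / D.et r := by
  have him : (D.zr r).im = D.et r := by
    simp only [Dat.zr, Dat.et, Dat.eta, Complex.add_im, Complex.im_ofReal_mul]
  have hw := ward_row hD.sym (w := D.zr r) (by rw [him]; exact hr) h w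
  rw [D.rz_F]
  calc ‖∑ u, D.G r h w u * D.b p u * star (D.G r h w u)‖
      ≤ ∑ u, ‖D.G r h w u * D.b p u * star (D.G r h w u)‖ := norm_sum_le _ _
    _ = ∑ u, ‖D.G r h w u‖ ^ 2 := by
        refine Finset.sum_congr rfl fun u _ => ?_
        rw [norm_mul, norm_mul, norm_star, hD.uni p u]; ring
    _ = (D.G r h w w).im / D.et r := by
        rw [← him]; exact hw
    _ ≤ ‖D.G r h w w‖ / D.et r := by
        gcongr
        exact (le_abs_self _).trans (Complex.abs_im_le_norm _)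

end Dat

/-- the estimates for complex numbers; `a = G_xw`, `b = G_yw`, `c = F_wy`, `e = F_xw`,
`f = F_ww`, `g = G_ww` -/
private lemma rz_alg (bd C1 Ck : ℝ) (hbd : 0 < bd) (hC1 : 1 ≤ C1) (hCk : 0 < Ck) (lam et : ℝ)
    (hlam : 0 < lam) (het : 0 < et) (hsm : 4 * bd * lam * C1 ≤ 1) (a b c e f g k dd : ℂ)
    (hk : ‖k‖ ≤ 2) (hdd : ‖dd‖ ≤ 4 * bd * lam) (hg : ‖g‖ ≤ C1) (hf : et * ‖f‖ ≤ C1)
    (hk2 : ‖k ^ 2 - 1‖ ≤ Ck * lam) (hk3 : ‖k ^ 3 - 1‖ ≤ Ck * lam) (S : ℝ)
    (hS : S = et * (‖a‖ * ‖c‖) + et * (‖e‖ * ‖b‖) + ‖a‖ * ‖b‖) :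
    ‖(et : ℂ) * (-(dd * a * c) - star (dd * b) * e + dd * star dd * a * star b * f)‖ ≤
      8 * bd * lam * S ∧
    ‖(et : ℂ) * (a * c + e * star b)‖ ≤ S ∧
    ‖(et : ℂ) * (k * a * (k * (c - star (dd * b) * f)) +
      star k * (e - dd * a * f) * star (k * b))‖ ≤ 8 * S ∧
    ‖2 * (et : ℂ) * (a * g * c + a * f * star b + e * star g * star b)‖ ≤ 2 * C1 * S ∧
    ‖2 * (et : ℂ) * (k * a * (k * g) * (k * (c - star (dd * b) * f)) +
      k * a * (k * star k * f) * star (k * b) +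
      star k * (e - dd * a * f) * star (k * g) * star (k * b))‖ ≤ 64 * C1 * S ∧
    ‖2 * (et : ℂ) * (k * a * (k * g) * (k * (c - star (dd * b) * f)) +
      k * a * (k * star k * f) * star (k * b) +
      star k * (e - dd * a * f) * star (k * g) * star (k * b)) -
      2 * (et : ℂ) * (a * g * c + a * f * star b + e * star g * star b)‖ ≤
      (2 * Ck * C1 + 128 * bd * C1 ^ 2 + 10 * Ck * C1) * lam * S := by
  have hC10 : 0 < C1 := by linarith
  have hetn : ‖(et : ℂ)‖ = et := by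
    rw [Complex.norm_real, Real.norm_eq_abs, abs_of_pos het]
  set A := ‖a‖ with hA
  set B := ‖b‖ with hB
  set f1 := et * ‖c‖ with hf1
  set f2 := et * ‖e‖ with hf2
  set f0 := et * ‖f‖ with hf0
  have hA0 : 0 ≤ A := norm_nonneg _
  have hB0 : 0 ≤ B := norm_nonneg _
  have hf10 : 0 ≤ f1 := by positivity
  have hf20 : 0 ≤ f2 := by positivity
  have hf00 : 0 ≤ f0 := by positivity
  have hd0 : 0 ≤ ‖dd‖ := norm_nonneg _
  have hk0 : 0 ≤ ‖k‖ := norm_nonneg _
  have hS' : S = A * f1 + f2 * B + A * B := by rw [hS, hf1, hf2]; ring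
  have hS0 : 0 ≤ S := by rw [hS']; positivity
  have hdf : ‖dd‖ * f0 ≤ 4 * bd * lam * C1 :=
    mul_le_mul hdd hf hf00 (by positivity)
  have hdf1 : ‖dd‖ * f0 ≤ 1 := hdf.trans hsm
  have hAf : 0 ≤ A * f1 := by positivity
  have hBf : 0 ≤ f2 * B := by positivity
  have hAB : 0 ≤ A * B := by positivity
  have hk8 : ‖k‖ ^ 2 ≤ 4 := by nlinarith
  have hk83 : ‖k‖ ^ 3 ≤ 8 := by
    calc ‖k‖ ^ 3 ≤ 2 ^ 3 := pow_le_pow_left₀ hk0 hk 3
      _ = 8 := by norm_num
  have hk84 : ‖k‖ ^ 4 ≤ 16 := by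
    calc ‖k‖ ^ 4 ≤ 2 ^ 4 := pow_le_pow_left₀ hk0 hk 4
      _ = 16 := by norm_num
  refine ⟨?_, ?_, ?_, ?_, ?_, ?_⟩
  · rw [norm_mul, hetn]
    have h1 : ‖-(dd * a * c) - star (dd * b) * e + dd * star dd * a * star b * f‖ ≤
        ‖dd‖ * A * ‖c‖ + ‖dd‖ * B * ‖e‖ + ‖dd‖ * ‖dd‖ * A * B * ‖f‖ := by
      refine (norm_add_le _ _).trans (add_le_add ((norm_sub_le _ _).trans (add_le_add ?_ ?_)) ?_)
      · rw [norm_neg, norm_mul, norm_mul]
      · rw [norm_mul, norm_star, norm_mul]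
      · simp only [norm_mul, norm_star]; exact le_rfl
    calc et * ‖-(dd * a * c) - star (dd * b) * e + dd * star dd * a * star b * f‖
        ≤ et * (‖dd‖ * A * ‖c‖ + ‖dd‖ * B * ‖e‖ + ‖dd‖ * ‖dd‖ * A * B * ‖f‖) := by gcongr
      _ = ‖dd‖ * (A * f1 + f2 * B + (‖dd‖ * f0) * (A * B)) := by rw [hf1, hf2, hf0]; ring
      _ ≤ (4 * bd * lam) * (A * f1 + f2 * B + 1 * (A * B)) := by gcongr
      _ ≤ 8 * bd * lam * S := by
          rw [hS', one_mul]
          have : 0 ≤ bd * lam * (A * f1 + f2 * B + A * B) := by positivity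
          linarith
  · rw [norm_mul, hetn]
    have h1 : ‖a * c + e * star b‖ ≤ A * ‖c‖ + ‖e‖ * B := by
      refine (norm_add_le _ _).trans (add_le_add ?_ ?_)
      · rw [norm_mul]
      · rw [norm_mul, norm_star]
    calc et * ‖a * c + e * star b‖ ≤ et * (A * ‖c‖ + ‖e‖ * B) := by gcongr
      _ = A * f1 + f2 * B := by rw [hf1, hf2]; ring
      _ ≤ S := by rw [hS']; linarith
  · rw [norm_mul, hetn]
    have h1 : ‖k * a * (k * (c - star (dd * b) * f)) +
        star k * (e - dd * a * f) * star (k * b)‖ ≤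
        ‖k‖ * A * (‖k‖ * (‖c‖ + ‖dd‖ * B * ‖f‖)) + ‖k‖ * (‖e‖ + ‖dd‖ * A * ‖f‖) * (‖k‖ * B) := by
      refine (norm_add_le _ _).trans (add_le_add ?_ ?_)
      · simp only [norm_mul]
        gcongr
        refine (norm_sub_le _ _).trans (add_le_add le_rfl ?_)
        simp only [norm_mul, norm_star]; exact le_rfl
      · simp only [norm_mul, norm_star]
        gcongr
        refine (norm_sub_le _ _).trans (add_le_add le_rfl ?_)
        simp only [norm_mul]; exact le_rfl
    calc et * ‖k * a * (k * (c - star (dd * b) * f)) + star k * (e - dd * a * f) * star (k * b)‖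
        ≤ et * (‖k‖ * A * (‖k‖ * (‖c‖ + ‖dd‖ * B * ‖f‖)) +
            ‖k‖ * (‖e‖ + ‖dd‖ * A * ‖f‖) * (‖k‖ * B)) := by gcongr
      _ = ‖k‖ ^ 2 * (A * f1 + f2 * B + 2 * (‖dd‖ * f0) * (A * B)) := by
          rw [hf1, hf2, hf0]; ring
      _ ≤ 4 * (A * f1 + f2 * B + 2 * 1 * (A * B)) := by gcongr
      _ ≤ 8 * S := by rw [hS']; linarith
  · rw [norm_mul, norm_mul, hetn, Complex.norm_ofNat]
    have h1 : ‖a * g * c + a * f * star b + e * star g * star b‖ ≤
        A * ‖g‖ * ‖c‖ + A * ‖f‖ * B + ‖e‖ * ‖g‖ * B := by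
      refine (norm_add_le _ _).trans (add_le_add ((norm_add_le _ _).trans (add_le_add ?_ ?_)) ?_)
      · simp only [norm_mul]; exact le_rfl
      · simp only [norm_mul, norm_star]; exact le_rfl
      · simp only [norm_mul, norm_star]; exact le_rfl
    calc 2 * et * ‖a * g * c + a * f * star b + e * star g * star b‖
        ≤ 2 * et * (A * ‖g‖ * ‖c‖ + A * ‖f‖ * B + ‖e‖ * ‖g‖ * B) := by gcongr
      _ = 2 * (‖g‖ * (A * f1) + f0 * (A * B) + ‖g‖ * (f2 * B)) := by rw [hf1, hf2, hf0]; ring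
      _ ≤ 2 * (C1 * (A * f1) + C1 * (A * B) + C1 * (f2 * B)) := by gcongr
      _ = _ := by rw [hS']; ring
  · rw [norm_mul, norm_mul, hetn, Complex.norm_ofNat]
    have h1 : ‖k * a * (k * g) * (k * (c - star (dd * b) * f)) +
        k * a * (k * star k * f) * star (k * b) +
        star k * (e - dd * a * f) * star (k * g) * star (k * b)‖ ≤
        ‖k‖ * A * (‖k‖ * ‖g‖) * (‖k‖ * (‖c‖ + ‖dd‖ * B * ‖f‖)) +
        ‖k‖ * A * (‖k‖ * ‖k‖ * ‖f‖) * (‖k‖ * B) +
        ‖k‖ * (‖e‖ + ‖dd‖ * A * ‖f‖) * (‖k‖ * ‖g‖) * (‖k‖ * B) := by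
      refine (norm_add_le _ _).trans (add_le_add ((norm_add_le _ _).trans (add_le_add ?_ ?_)) ?_)
      · simp only [norm_mul]
        gcongr
        refine (norm_sub_le _ _).trans (add_le_add le_rfl ?_)
        simp only [norm_mul, norm_star]; exact le_rfl
      · simp only [norm_mul, norm_star]; exact le_rfl
      · simp only [norm_mul, norm_star]
        gcongr
        refine (norm_sub_le _ _).trans (add_le_add le_rfl ?_)
        simp only [norm_mul]; exact le_rfl
    calc 2 * et * ‖k * a * (k * g) * (k * (c - star (dd * b) * f)) +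
          k * a * (k * star k * f) * star (k * b) +
          star k * (e - dd * a * f) * star (k * g) * star (k * b)‖
        ≤ 2 * et * (‖k‖ * A * (‖k‖ * ‖g‖) * (‖k‖ * (‖c‖ + ‖dd‖ * B * ‖f‖)) +
        ‖k‖ * A * (‖k‖ * ‖k‖ * ‖f‖) * (‖k‖ * B) +
        ‖k‖ * (‖e‖ + ‖dd‖ * A * ‖f‖) * (‖k‖ * ‖g‖) * (‖k‖ * B)) := by gcongr
      _ = 2 * (‖k‖ ^ 3 * ‖g‖ * (A * f1 + f2 * B + 2 * (‖dd‖ * f0) * (A * B)) +
            ‖k‖ ^ 4 * f0 * (A * B)) := by rw [hf1, hf2, hf0]; ring
      _ ≤ 2 * (8 * C1 * (A * f1 + f2 * B + 2 * 1 * (A * B)) + 16 * C1 * (A * B)) := by gcongr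
      _ ≤ 64 * C1 * S := by
          rw [hS']
          have h2 : 0 ≤ C1 * (A * f1) := by positivity
          have h3 : 0 ≤ C1 * (f2 * B) := by positivity
          have h4 : 0 ≤ C1 * (A * B) := by positivity
          linarith
  · have hsplit : 2 * (et : ℂ) * (k * a * (k * g) * (k * (c - star (dd * b) * f)) +
        k * a * (k * star k * f) * star (k * b) +
        star k * (e - dd * a * f) * star (k * g) * star (k * b)) -
        2 * (et : ℂ) * (a * g * c + a * f * star b + e * star g * star b) =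
        2 * (et : ℂ) * ((k ^ 3 - 1) * a * g * c - k ^ 3 * a * g * (star (dd * b) * f) +
          ((k ^ 2 - 1) * star (k ^ 2) + star (k ^ 2 - 1)) * a * f * star b +
          star (k ^ 3 - 1) * e * star g * star b -
          star (k ^ 3) * (dd * a * f) * star g * star b) := by
      simp only [star_mul', star_sub, star_pow, star_one]
      ring
    rw [hsplit, norm_mul, norm_mul, hetn, Complex.norm_ofNat]
    have hk4 : ‖(k ^ 2 - 1) * star (k ^ 2) + star (k ^ 2 - 1)‖ ≤ 5 * (Ck * lam) := by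
      calc ‖(k ^ 2 - 1) * star (k ^ 2) + star (k ^ 2 - 1)‖
          ≤ ‖(k ^ 2 - 1) * star (k ^ 2)‖ + ‖star (k ^ 2 - 1)‖ := norm_add_le _ _
        _ = ‖k ^ 2 - 1‖ * ‖k‖ ^ 2 + ‖k ^ 2 - 1‖ := by
            rw [norm_mul, norm_star, norm_star, norm_pow]
        _ ≤ (Ck * lam) * 4 + Ck * lam := by gcongr
        _ = _ := by ring
    have h1 : ‖(k ^ 3 - 1) * a * g * c - k ^ 3 * a * g * (star (dd * b) * f) +
          ((k ^ 2 - 1) * star (k ^ 2) + star (k ^ 2 - 1)) * a * f * star b +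
          star (k ^ 3 - 1) * e * star g * star b -
          star (k ^ 3) * (dd * a * f) * star g * star b‖ ≤
        ‖k ^ 3 - 1‖ * A * ‖g‖ * ‖c‖ + ‖k‖ ^ 3 * A * ‖g‖ * (‖dd‖ * B * ‖f‖) +
          ‖(k ^ 2 - 1) * star (k ^ 2) + star (k ^ 2 - 1)‖ * A * ‖f‖ * B +
          ‖k ^ 3 - 1‖ * ‖e‖ * ‖g‖ * B + ‖k‖ ^ 3 * (‖dd‖ * A * ‖f‖) * ‖g‖ * B := by
      refine (norm_sub_le _ _).trans (add_le_add ((norm_add_le _ _).trans (add_le_add
        ((norm_add_le _ _).trans (add_le_add ((norm_sub_le _ _).trans (add_le_add ?_ ?_)) ?_)) ?_))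
          ?_)
      · simp only [norm_mul]; exact le_rfl
      · simp only [norm_mul, norm_star, norm_pow]; exact le_rfl
      · simp only [norm_mul, norm_star]; exact le_rfl
      · simp only [norm_mul, norm_star]; exact le_rfl
      · simp only [norm_mul, norm_star, norm_pow]; exact le_rfl
    calc 2 * et * ‖(k ^ 3 - 1) * a * g * c - k ^ 3 * a * g * (star (dd * b) * f) +
          ((k ^ 2 - 1) * star (k ^ 2) + star (k ^ 2 - 1)) * a * f * star b +
          star (k ^ 3 - 1) * e * star g * star b -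
          star (k ^ 3) * (dd * a * f) * star g * star b‖
        ≤ 2 * et * (‖k ^ 3 - 1‖ * A * ‖g‖ * ‖c‖ + ‖k‖ ^ 3 * A * ‖g‖ * (‖dd‖ * B * ‖f‖) +
          ‖(k ^ 2 - 1) * star (k ^ 2) + star (k ^ 2 - 1)‖ * A * ‖f‖ * B +
          ‖k ^ 3 - 1‖ * ‖e‖ * ‖g‖ * B + ‖k‖ ^ 3 * (‖dd‖ * A * ‖f‖) * ‖g‖ * B) := by gcongr
      _ = 2 * (‖k ^ 3 - 1‖ * ‖g‖ * (A * f1 + f2 * B) +
          2 * (‖k‖ ^ 3 * ‖g‖ * (‖dd‖ * f0)) * (A * B) +
          ‖(k ^ 2 - 1) * star (k ^ 2) + star (k ^ 2 - 1)‖ * f0 * (A * B)) := by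
          rw [hf1, hf2, hf0]; ring
      _ ≤ 2 * ((Ck * lam) * C1 * (A * f1 + f2 * B) +
          2 * (8 * C1 * (4 * bd * lam * C1)) * (A * B) +
          (5 * (Ck * lam)) * C1 * (A * B)) := by gcongr
      _ ≤ (2 * Ck * C1 + 128 * bd * C1 ^ 2 + 10 * Ck * C1) * lam * S := by
          rw [hS']
          have h2 : 0 ≤ bd * C1 ^ 2 * lam * (A * f1 + f2 * B) := by positivity
          have h3 : 0 ≤ Ck * C1 * lam * (A * f1 + f2 * B) := by positivity
          have h4 : 0 ≤ Ck * C1 * lam * (A * B) := by positivity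
          linarith

/-- Lemma R for `Z`. -/
theorem repZ (bd C1 : ℝ) (hbd : 0 < bd) (hC1 : 1 ≤ C1) : ∃ C : ℝ, 0 < C ∧
    ∀ (ι P : Type) [Fintype ι] [DecidableEq ι] [Fintype P] (D : Dat ι P), D.Hyp → D.bd = bd →
      D.C1 = C1 → ∀ (p : P) (r : ℝ), 0 < D.et r → D.eta ≤ D.et r →
      ∀ (h : ι → ℝ) (w : ι) (t : ℝ),
      |t - h w| ≤ 2 * bd * D.lam → (∀ x, ‖D.G r h x x‖ ≤ C1) →
      Rep C D.lam (D.Z p r h) (D.Z p r (Function.update h w t)) (D.dZ p w r h)
        (D.dZ p w r (Function.update h w t)) (D.ddZ p w r h) (D.ddZ p w r (Function.update h w t))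
        (D.sZ p w r h) := by
  obtain ⟨Ck, hCk, hkf⟩ := kfac bd C1 hbd hC1
  have hC10 : 0 < C1 := by linarith
  set K : ℝ := 8 * bd + 8 + 64 * C1 + (2 * Ck * C1 + 128 * bd * C1 ^ 2 + 10 * Ck * C1) with hK
  have hK0 : 0 < K := by positivity
  refine ⟨K, hK0, ?_⟩
  intro ι P _ _ _ D hD hDbd hDC1 p r hr hre h w t ht hdiag
  have hlam := hD.lam0
  have het := hD.eta0
  have hsm : 4 * bd * D.lam * C1 ≤ 1 := by
    have := hD.small
    rwa [hDbd, hDC1] at this
  obtain ⟨hne, hk2, hd', hpow⟩ := hkf D.lam (t - h w) (D.G r h w w) hlam hsm ht (hdiag w)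
  have him : 0 < (D.zr r).im := by
    have : (D.zr r).im = D.et r := by
      simp only [Dat.zr, Dat.et, Dat.eta, Complex.add_im, Complex.im_ofReal_mul]
    rw [this]; exact hr
  have hup : ∀ x y, D.G r (Function.update h w t) x y = D.G r h x y -
      ((t - h w : ℝ) : ℂ) / (1 + ((t - h w : ℝ) : ℂ) * D.G r h w w) *
        (D.G r h x w * D.G r h w y) := fun x y => res_update hD.sym him h w t x y
  have hFup := D.rz_up p r h (Function.update h w t) w _ hup
  set g := D.G r h w w with hg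
  set k : ℂ := (1 + ((t - h w : ℝ) : ℂ) * g)⁻¹ with hk
  set dd : ℂ := ((t - h w : ℝ) : ℂ) / (1 + ((t - h w : ℝ) : ℂ) * g) with hdd
  have h1d : 1 - dd * g = k := by
    rw [hdd, hk]; field_simp; ring
  have hxw : ∀ x, D.G r (Function.update h w t) x w = k * D.G r h x w := by
    intro x
    rw [hup, ← h1d]; ring
  have hFwy : ∀ y, D.F p r (Function.update h w t) w y =
      k * (D.F p r h w y - star (dd * D.G r h y w) * D.F p r h w w) := by
    intro y
    rw [hFup, ← h1d, star_mul']; ring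
  have hFxw : ∀ x, D.F p r (Function.update h w t) x w =
      star k * (D.F p r h x w - dd * D.G r h x w * D.F p r h w w) := by
    intro x
    rw [hFup, ← h1d, star_sub, star_mul', star_one, ← hg]; ring
  have hFww : D.F p r (Function.update h w t) w w = k * star k * D.F p r h w w := by
    rw [hFwy, ← h1d, star_sub, star_mul', star_one, ← hg]; ring
  have hf : D.eta * ‖D.F p r h w w‖ ≤ C1 := by
    have h1 := D.rz_diag hD p hr h w
    calc D.eta * ‖D.F p r h w w‖ ≤ D.et r * (‖D.G r h w w‖ / D.et r) := by gcongr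
      _ = ‖D.G r h w w‖ := by field_simp
      _ ≤ C1 := hdiag w
  have hs0 : ∀ x y, 0 ≤ D.sZ p w r h x y := fun x y => by
    unfold Dat.sZ
    have := het.le
    positivity
  have key := fun x y => rz_alg bd C1 Ck hbd hC1 hCk D.lam D.eta hlam het hsm (D.G r h x w)
    (D.G r h y w) (D.F p r h w y) (D.F p r h x w) (D.F p r h w w) g k dd hk2 hd' (hdiag w) hf
    (hpow 2 (by norm_num)).1 (hpow 3 (by norm_num)).1 (D.sZ p w r h x y) rfl
  have c1 : 8 * bd ≤ K := by rw [hK]; nlinarith [mul_pos hCk hC10, mul_pos hbd (pow_pos hC10 2)]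
  have c2 : 1 ≤ K := by rw [hK]; nlinarith [mul_pos hCk hC10, mul_pos hbd (pow_pos hC10 2)]
  have c3 : 8 ≤ K := by rw [hK]; nlinarith [mul_pos hCk hC10, mul_pos hbd (pow_pos hC10 2)]
  have c4 : 2 * C1 ≤ K := by rw [hK]; nlinarith [mul_pos hCk hC10, mul_pos hbd (pow_pos hC10 2)]
  have c5 : 64 * C1 ≤ K := by rw [hK]; nlinarith [mul_pos hCk hC10, mul_pos hbd (pow_pos hC10 2)]
  have c6 : 2 * Ck * C1 + 128 * bd * C1 ^ 2 + 10 * Ck * C1 ≤ K := by rw [hK]; nlinarith
  refine ⟨hs0, fun x y => ?_, fun x y => ?_, fun x y => ?_, fun x y => ?_, fun x y => ?_,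
    fun x y => ?_⟩
  · have h1 : D.Z p r (Function.update h w t) x y - D.Z p r h x y =
        (D.eta : ℂ) * (-(dd * D.G r h x w * D.F p r h w y) -
          star (dd * D.G r h y w) * D.F p r h x w +
          dd * star dd * D.G r h x w * star (D.G r h y w) * D.F p r h w w) := by
      simp only [Dat.Z, Matrix.smul_apply, Matrix.sub_apply, smul_eq_mul]
      rw [hFup x y]; ring
    rw [h1]
    refine (key x y).1.trans ?_
    have := hs0 x y
    gcongr
  · have h1 : ‖D.dZ p w r h x y‖ = ‖(D.eta : ℂ) * (D.G r h x w * D.F p r h w y +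
        D.F p r h x w * star (D.G r h y w))‖ := by
      simp only [Dat.dZ, norm_neg]
    rw [h1]
    refine (key x y).2.1.trans ?_
    exact le_mul_of_one_le_left (hs0 x y) c2
  · have h1 : ‖D.dZ p w r (Function.update h w t) x y‖ =
        ‖(D.eta : ℂ) * (k * D.G r h x w * (k * (D.F p r h w y -
          star (dd * D.G r h y w) * D.F p r h w w)) +
          star k * (D.F p r h x w - dd * D.G r h x w * D.F p r h w w) *
            star (k * D.G r h y w))‖ := by
      simp only [Dat.dZ, norm_neg, hxw, hFwy, hFxw]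
    rw [h1]
    exact (key x y).2.2.1.trans (mul_le_mul_of_nonneg_right c3 (hs0 x y))
  · have h1 : D.ddZ p w r h x y = 2 * (D.eta : ℂ) * (D.G r h x w * g * D.F p r h w y +
        D.G r h x w * D.F p r h w w * star (D.G r h y w) +
        D.F p r h x w * star g * star (D.G r h y w)) := rfl
    rw [h1]
    exact (key x y).2.2.2.1.trans (mul_le_mul_of_nonneg_right c4 (hs0 x y))
  · have h1 : D.ddZ p w r (Function.update h w t) x y =
        2 * (D.eta : ℂ) * (k * D.G r h x w * (k * g) * (k * (D.F p r h w y -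
          star (dd * D.G r h y w) * D.F p r h w w)) +
        k * D.G r h x w * (k * star k * D.F p r h w w) * star (k * D.G r h y w) +
        star k * (D.F p r h x w - dd * D.G r h x w * D.F p r h w w) * star (k * g) *
          star (k * D.G r h y w)) := by
      simp only [Dat.ddZ, hxw, hFww]
      rw [hFwy y, hFxw x]
    rw [h1]
    exact (key x y).2.2.2.2.1.trans (mul_le_mul_of_nonneg_right c5 (hs0 x y))
  · have h1 : D.ddZ p w r (Function.update h w t) x y =
        2 * (D.eta : ℂ) * (k * D.G r h x w * (k * g) * (k * (D.F p r h w y -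
          star (dd * D.G r h y w) * D.F p r h w w)) +
        k * D.G r h x w * (k * star k * D.F p r h w w) * star (k * D.G r h y w) +
        star k * (D.F p r h x w - dd * D.G r h x w * D.F p r h w w) * star (k * g) *
          star (k * D.G r h y w)) := by
      simp only [Dat.ddZ, hxw, hFww]
      rw [hFwy y, hFxw x]
    have h2 : D.ddZ p w r h x y = 2 * (D.eta : ℂ) * (D.G r h x w * g * D.F p r h w y +
        D.G r h x w * D.F p r h w w * star (D.G r h y w) +
        D.F p r h x w * star g * star (D.G r h y w)) := rfl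
    rw [h1, h2]
    refine (key x y).2.2.2.2.2.trans ?_
    have := hs0 x y
    gcongr

end Pool.Agent.Kin
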