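import Pool.Agent.Kin.FinalK
import Pool.Agent.Helper2.AM.LocalMassThm

/-! KIN SCALES: the theorem at all scales up to `λ^(-(2+κ))`. -/

open Real MeasureTheory ProbabilityTheory Pool.Agent.Helper2.AM

noncomputable section

namespace Pool.Agent.Kin

lemma massZ_mono {d : ℕ} (x : Fin d → ℤ) {r r' : ℕ} (h : r ≤ r') (ψ : (Fin d → ℤ) → ℂ) :
    massZ x r ψ ≤ massZ x r' ψ := by
  unfold massZ
  refine Finset.sum_le_sum_of_subset_of_nonneg ?_ (fun _ _ _ => by positivity)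
  refine Fintype.piFinset_subset _ _ fun j => ?_
  refine Finset.Icc_subset_Icc ?_ ?_
  · have : (r : ℤ) ≤ r' := by exact_mod_cast h
    linarith
  · have : (r : ℤ) ≤ r' := by exact_mod_cast h
    linarith

/-- `λ^a log(1/λ)^3` is small -/
lemma log_small (a B : ℝ) (ha : 0 < a) (hB : 0 < B) : ∃ lam0 : ℝ, 0 < lam0 ∧
    ∀ lam : ℝ, 0 < lam → lam ≤ lam0 → B * (lam ^ a * log (1 / lam) ^ 3) ≤ 1 := by
  have hc : 0 < B * (6 / a) ^ 3 := by positivity
  refine ⟨min 1 ((1 / (B * (6 / a) ^ 3)) ^ (2 / a)), by positivity, ?_⟩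
  intro lam h0 h1
  have h2 : lam ≤ 1 := h1.trans (min_le_left _ _)
  have h3 : lam ≤ (1 / (B * (6 / a) ^ 3)) ^ (2 / a) := h1.trans (min_le_right _ _)
  have h4 : log (1 / lam) ≤ (1 / lam) ^ (a / 6) / (a / 6) :=
    Real.log_le_rpow_div (by positivity) (by positivity)
  have h5 : 0 ≤ log (1 / lam) := Real.log_nonneg (by rw [le_div_iff₀ h0]; linarith)
  have h6 : log (1 / lam) ^ 3 ≤ (6 / a) ^ 3 * (1 / lam) ^ (a / 2) := by
    calc log (1 / lam) ^ 3 ≤ ((1 / lam) ^ (a / 6) / (a / 6)) ^ 3 := pow_le_pow_left₀ h5 h4 3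
      _ = (6 / a) ^ 3 * ((1 / lam) ^ (a / 6)) ^ 3 := by
          field_simp
      _ = (6 / a) ^ 3 * (1 / lam) ^ (a / 2) := by
          rw [← Real.rpow_natCast ((1 / lam) ^ (a / 6)) 3, ← Real.rpow_mul (by positivity)]
          congr 2
          push_cast
          ring
  have h7 : lam ^ a * (1 / lam) ^ (a / 2) = lam ^ (a / 2) := by
    rw [one_div, Real.inv_rpow h0.le, ← Real.rpow_neg h0.le, ← Real.rpow_add h0]
    congr 1
    ring
  have h8 : lam ^ (a / 2) ≤ 1 / (B * (6 / a) ^ 3) := by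
    calc lam ^ (a / 2) ≤ ((1 / (B * (6 / a) ^ 3)) ^ (2 / a)) ^ (a / 2) :=
          Real.rpow_le_rpow h0.le h3 (by positivity)
      _ = 1 / (B * (6 / a) ^ 3) := by
          rw [← Real.rpow_mul (by positivity)]
          have : 2 / a * (a / 2) = 1 := by field_simp
          rw [this, Real.rpow_one]
  calc B * (lam ^ a * log (1 / lam) ^ 3)
      ≤ B * (lam ^ a * ((6 / a) ^ 3 * (1 / lam) ^ (a / 2))) := by gcongr
    _ = B * (6 / a) ^ 3 * (lam ^ a * (1 / lam) ^ (a / 2)) := by ring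
    _ = B * (6 / a) ^ 3 * lam ^ (a / 2) := by rw [h7]
    _ ≤ B * (6 / a) ^ 3 * (1 / (B * (6 / a) ^ 3)) := by gcongr
    _ = 1 := by field_simp

/-- the far field -/
def farZ {d : ℕ} (lam : ℝ) (v : (Fin d → ℤ) → ℝ) (E : ℝ) (x : Fin d → ℤ)
    (ψ : (Fin d → ℤ) → ℂ) : ℝ :=
  massZ x ⌈(1 / lam) ^ 10⌉₊ ψ +
    (1 / lam) ^ 6 * massZ x ⌈(1 / lam) ^ 10⌉₊ (fun y => hamZ lam v ψ y - (E : ℂ) * ψ y)

theorem scalesK (d : ℕ) (hd : 3 ≤ d) (δ M v : ℝ) (hδ : 0 < δ) (hv : 0 < v) (K : ℕ) :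
    ∃ κ lam0 : ℝ, 0 < κ ∧ 0 < lam0 ∧ ∀ (Ω : Type) [MeasurableSpace Ω] (P : Measure Ω)
      [IsProbabilityMeasure P] (ω : (Fin d → ℤ) → Ω → ℝ), iIndepFun ω P →
      (∀ x, IdentDistrib (ω x) (ω 0) P P) → (∀ x, ∀ᵐ s ∂P, |ω x s| ≤ M) →
      v ≤ ∫ s, (ω 0 s - ∫ s', ω 0 s' ∂P) ^ 2 ∂P →
      ∀ lam : ℝ, 0 < lam → lam ≤ lam0 →
      ∃ G : Set Ω, MeasurableSet G ∧ P Gᶜ ≤ ENNReal.ofReal (lam ^ K) ∧
      ∀ s ∈ G, ∀ x : Fin d → ℤ, (∀ j, |(x j : ℝ)| ≤ (1 / lam) ^ K) →
        ∀ E : ℝ, δ ≤ E → E ≤ 4 * d - δ → ∀ r : ℕ, 1 ≤ r → (r : ℝ) ≤ (1 / lam) ^ (2 + κ) →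
        ∀ ψ : (Fin d → ℤ) → ℂ,
        massZ x r ψ ≤ lam ^ κ * min 1 (lam ^ 2 * LM.growth d δ E r) *
          farZ lam (fun z => ω z s) E x ψ := by
  obtain ⟨κ0, lam1, hκ0, hlam1, h1⟩ := finalK d hd δ M v hδ hv (K + 1)
  obtain ⟨C, hC, h2⟩ := LM.local_mass d hd δ hδ M (K + 1)
  set κ : ℝ := min (κ0 / 2) 1 with hκdef
  have hκ : 0 < κ := by positivity
  have hκ1 : κ ≤ κ0 / 2 := min_le_left _ _
  have hκ2 : κ ≤ 1 := min_le_right _ _
  obtain ⟨lam2, hlam2, h3⟩ := log_small κ (2 * (C * (K + 3))) hκ (by positivity)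
  refine ⟨κ, min (min lam1 (1 / 2)) (min lam2 (1 / (4 * C))), hκ, by positivity, ?_⟩
  intro Ω _ P _ ω hi hid hM hvar lam h0 hle
  have hle1 : lam ≤ lam1 := hle.trans ((min_le_left _ _).trans (min_le_left _ _))
  have hle2 : lam ≤ 1 / 2 := hle.trans ((min_le_left _ _).trans (min_le_right _ _))
  have hle3 : lam ≤ lam2 := hle.trans ((min_le_right _ _).trans (min_le_left _ _))
  have hle4 : lam ≤ 1 / (4 * C) := hle.trans ((min_le_right _ _).trans (min_le_right _ _))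
  obtain ⟨G, hG1, hG2, hG3⟩ := h1 Ω P ω hi hid hM hvar lam h0 hle1
  obtain ⟨G', hG1', hG2', hG3'⟩ := h2 Ω P ω ⟨hi, hid, hM⟩ lam 1 h0 hle2 le_rfl
  have h3' := h3 lam h0 hle3
  have hinv : (1 : ℝ) ≤ 1 / lam := by rw [le_div_iff₀ h0]; linarith
  have hinv2 : (2 : ℝ) ≤ 1 / lam := by rw [le_div_iff₀ h0]; linarith
  refine ⟨G ∩ G', hG1.inter hG1', ?_, ?_⟩
  · rw [div_one] at hG2'
    rw [Set.compl_inter]
    refine (measure_union_le _ _).trans ((add_le_add hG2 hG2').trans ?_)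
    rw [← ENNReal.ofReal_add (by positivity) (by positivity)]
    apply ENNReal.ofReal_le_ofReal
    rw [pow_succ]
    nlinarith [pow_nonneg h0.le K]
  · intro s hs x hx E hE1 hE2 r hr1 hr2 ψ
    have hx' : ∀ j, (|x j| : ℝ) ≤ (1 / lam) ^ (K + 1) := fun j =>
      (hx j).trans (pow_le_pow_right₀ hinv (Nat.le_succ K))
    have hA := hG3 s hs.1 x hx' E hE1 hE2 ψ
    set X : ℝ := farZ lam (fun z => ω z s) E x ψ with hX
    have hX0 : 0 ≤ X := by
      have a1 := massZ_nonneg' x ⌈(1 / lam) ^ 10⌉₊ ψ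
      have a2 := massZ_nonneg' x ⌈(1 / lam) ^ 10⌉₊
        (fun y => hamZ lam (fun z => ω z s) ψ y - (E : ℂ) * ψ y)
      rw [hX]
      unfold farZ
      positivity
    have hA1 : massZ x ⌊(1 / lam) ^ (2 + κ0)⌋₊ ψ ≤ lam ^ κ0 * X := hA.1
    -- the first bound
    have hB1 : massZ x r ψ ≤ lam ^ κ * 1 * X := by
      have e1 : r ≤ ⌊(1 / lam) ^ (2 + κ0)⌋₊ := by
        apply Nat.le_floor
        exact hr2.trans (Real.rpow_le_rpow_of_exponent_le hinv (by linarith))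
      have e2 : lam ^ κ0 ≤ lam ^ κ :=
        Real.rpow_le_rpow_of_exponent_ge h0 (by linarith) (by linarith)
      rw [mul_one]
      exact (massZ_mono x e1 ψ).trans (hA1.trans (mul_le_mul_of_nonneg_right e2 hX0))
    have hg : (r : ℝ) ≤ LM.growth d δ E r := by
      unfold LM.growth
      have : (1 : ℝ) ≤ r := by exact_mod_cast hr1
      split_ifs
      · exact le_rfl
      · nlinarith
    have hg0 : 0 < LM.growth d δ E r := by
      have : (1 : ℝ) ≤ r := by exact_mod_cast hr1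
      linarith
    rcases le_total 1 (lam ^ 2 * LM.growth d δ E r) with hc | hc
    · rw [min_eq_left hc]
      exact hB1
    · rw [min_eq_right hc]
      have hr3 : (r : ℝ) ≤ (1 / lam) ^ 2 := by
        rw [one_div, inv_pow, ← one_div, le_div_iff₀ (by positivity)]
        calc (r : ℝ) * lam ^ 2 ≤ LM.growth d δ E r * lam ^ 2 :=
              mul_le_mul_of_nonneg_right hg (by positivity)
          _ ≤ 1 := by linarith
      set n : ℕ := ⌈(1 / lam) ^ K⌉₊ with hn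
      have hxn : ∀ j, |x j| ≤ (n : ℤ) := by
        intro j
        have : (|x j| : ℝ) ≤ (n : ℝ) := (hx j).trans (Nat.le_ceil _)
        exact_mod_cast this
      have hL := hG3' s hs.2 n r x hxn hr1 hr3 E ψ
      rw [mul_one] at hL
      set l : ℝ := log (1 / lam) with hl
      have hl0 : (69 / 100 : ℝ) ≤ l := by
        have e1 : log 2 ≤ l := Real.log_le_log (by norm_num) hinv2
        have e2 := Real.log_two_gt_d9
        linarith
      have hlpos : 0 < l := by linarith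
      set l' : ℝ := log ((n + 2) / lam) with hl'
      have hn1 : (n : ℝ) ≤ (1 / lam) ^ K + 1 := (Nat.ceil_lt_add_one (by positivity)).le
      have hpK : (1 : ℝ) ≤ (1 / lam) ^ K := one_le_pow₀ hinv
      have hl1 : l ≤ l' := by
        apply Real.log_le_log (by positivity)
        apply div_le_div_of_nonneg_right _ h0.le
        have : (0 : ℝ) ≤ n := Nat.cast_nonneg n
        linarith
      have hl2 : l' ≤ (K + 3) * l := by
        have e1 : ((n : ℝ) + 2) / lam ≤ (1 / lam) ^ (K + 3) := by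
          calc ((n : ℝ) + 2) / lam = (n + 2) * (1 / lam) := by ring
            _ ≤ (4 * (1 / lam) ^ K) * (1 / lam) :=
                mul_le_mul_of_nonneg_right (by linarith) (by positivity)
            _ ≤ ((1 / lam) ^ 2 * (1 / lam) ^ K) * (1 / lam) := by
                have : (4 : ℝ) ≤ (1 / lam) ^ 2 := by
                  calc (4 : ℝ) = 2 ^ 2 := by norm_num
                    _ ≤ (1 / lam) ^ 2 := pow_le_pow_left₀ (by norm_num) hinv2 2
                gcongr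
            _ = (1 / lam) ^ (K + 3) := by ring
        calc l' ≤ log ((1 / lam) ^ (K + 3)) := Real.log_le_log (by positivity) e1
          _ = (K + 3) * l := by
              rw [Real.log_pow, hl]
              push_cast
              ring
      have hl'pos : 0 < l' := by linarith
      have hR : ⌊(1 / lam) ^ 2⌋₊ ≤ ⌊(1 / lam) ^ (2 + κ0)⌋₊ := by
        apply Nat.floor_le_floor
        rw [← Real.rpow_natCast (1 / lam) 2]
        exact Real.rpow_le_rpow_of_exponent_le hinv (by push_cast; linarith)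
      have hQ : ⌊(1 / lam) ^ 2⌋₊ ≤ ⌈(1 / lam) ^ 10⌉₊ := by
        calc ⌊(1 / lam) ^ 2⌋₊ ≤ ⌊(1 / lam) ^ 10⌋₊ :=
              Nat.floor_le_floor (pow_le_pow_right₀ hinv (by norm_num))
          _ ≤ ⌈(1 / lam) ^ 10⌉₊ := Nat.floor_le_ceil _
      have m1 : massZ x ⌊(1 / lam) ^ 2⌋₊ ψ ≤ lam ^ κ0 * X := (massZ_mono x hR ψ).trans hA1
      have m2 : massZ x ⌊(1 / lam) ^ 2⌋₊
          (fun y => hamZ lam (fun z => ω z s) ψ y - (E : ℂ) * ψ y) ≤ lam ^ 6 * X := by
        refine (massZ_mono x hQ _).trans ?_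
        have a1 := massZ_nonneg' x ⌈(1 / lam) ^ 10⌉₊ ψ
        have a2 : (1 / lam) ^ 6 * massZ x ⌈(1 / lam) ^ 10⌉₊
          (fun y => hamZ lam (fun z => ω z s) ψ y - (E : ℂ) * ψ y) ≤ X := by
          rw [hX]
          unfold farZ
          linarith
        set m := massZ x ⌈(1 / lam) ^ 10⌉₊
          (fun y => hamZ lam (fun z => ω z s) ψ y - (E : ℂ) * ψ y)
        calc m = lam ^ 6 * ((1 / lam) ^ 6 * m) := by
              field_simp
          _ ≤ lam ^ 6 * X := mul_le_mul_of_nonneg_left a2 (by positivity)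
      have hL' : massZ x r ψ ≤ C * LM.growth d δ E r * (lam ^ 2 * l ^ 2 * l' *
          massZ x ⌊(1 / lam) ^ 2⌋₊ ψ + massZ x ⌊(1 / lam) ^ 2⌋₊
            (fun y => hamZ lam (fun z => ω z s) ψ y - (E : ℂ) * ψ y) / (lam ^ 2 * l')) := hL
      have hκκ : lam ^ κ0 ≤ lam ^ κ * lam ^ κ := by
        rw [← Real.rpow_add h0]
        exact Real.rpow_le_rpow_of_exponent_ge h0 (by linarith) (by linarith)
      have hlamκ : lam ≤ lam ^ κ := by
        calc lam = lam ^ (1 : ℝ) := (Real.rpow_one _).symm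
          _ ≤ lam ^ κ := Real.rpow_le_rpow_of_exponent_ge h0 (by linarith) hκ2
      have hκ0' : 0 < lam ^ κ := by positivity
      have hCl : C * lam ≤ 1 / 4 := by
        rw [le_div_iff₀ (by positivity)] at hle4
        linarith
      have t1 : lam ^ 2 * l ^ 2 * l' * massZ x ⌊(1 / lam) ^ 2⌋₊ ψ ≤
          lam ^ 2 * ((K + 3) * l ^ 3) * (lam ^ κ * lam ^ κ * X) := by
        calc lam ^ 2 * l ^ 2 * l' * massZ x ⌊(1 / lam) ^ 2⌋₊ ψ
            ≤ lam ^ 2 * l ^ 2 * ((K + 3) * l) * (lam ^ κ0 * X) :=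
              mul_le_mul (mul_le_mul_of_nonneg_left hl2 (by positivity)) m1
                (massZ_nonneg' _ _ _) (by positivity)
          _ ≤ lam ^ 2 * l ^ 2 * ((K + 3) * l) * (lam ^ κ * lam ^ κ * X) :=
              mul_le_mul_of_nonneg_left (mul_le_mul_of_nonneg_right hκκ hX0) (by positivity)
          _ = _ := by ring
      have t2 : massZ x ⌊(1 / lam) ^ 2⌋₊
            (fun y => hamZ lam (fun z => ω z s) ψ y - (E : ℂ) * ψ y) / (lam ^ 2 * l') ≤
          2 * (lam ^ 2 * (lam * lam ^ κ)) * X := by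
        rw [div_le_iff₀ (by positivity)]
        have e1 : lam ^ 6 * X ≤ lam ^ 4 * (lam * lam ^ κ) * X := by
          apply mul_le_mul_of_nonneg_right _ hX0
          calc lam ^ 6 = lam ^ 4 * (lam * lam) := by ring
            _ ≤ lam ^ 4 * (lam * lam ^ κ) := by gcongr
        have e2 : lam ^ 4 * (lam * lam ^ κ) * X ≤
            2 * (lam ^ 2 * (lam * lam ^ κ)) * X * (lam ^ 2 * l') := by
          have e3 : 2 * (lam ^ 2 * (lam * lam ^ κ)) * X * (lam ^ 2 * l') =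
              lam ^ 4 * (lam * lam ^ κ) * X * (2 * l') := by ring
          rw [e3]
          exact le_mul_of_one_le_right (by positivity) (by linarith)
        linarith
      calc massZ x r ψ ≤ C * LM.growth d δ E r * (lam ^ 2 * l ^ 2 * l' *
          massZ x ⌊(1 / lam) ^ 2⌋₊ ψ + massZ x ⌊(1 / lam) ^ 2⌋₊
            (fun y => hamZ lam (fun z => ω z s) ψ y - (E : ℂ) * ψ y) / (lam ^ 2 * l')) := hL'
        _ ≤ C * LM.growth d δ E r * (lam ^ 2 * ((K + 3) * l ^ 3) * (lam ^ κ * lam ^ κ * X) +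
            2 * (lam ^ 2 * (lam * lam ^ κ)) * X) :=
            mul_le_mul_of_nonneg_left (add_le_add t1 t2) (by positivity)
        _ = (C * (K + 3) * (lam ^ κ * l ^ 3) + 2 * (C * lam)) *
            (lam ^ κ * (lam ^ 2 * LM.growth d δ E r) * X) := by ring
        _ ≤ 1 * (lam ^ κ * (lam ^ 2 * LM.growth d δ E r) * X) := by
            apply mul_le_mul_of_nonneg_right _ (by positivity)
            linarith
        _ = _ := one_mul _

end Pool.Agent.Kin
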