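import Pool.Agent.Kin.KHat
import Pool.Agent.Kin.AFour
import Pool.Agent.Kin.LowC

/-! KIN THYP: the torus data satisfy the assumptions of Part A. -/

open Matrix Finset

noncomputable section

namespace Pool.Agent.Kin

private lemma thyp_eta (d L : ℕ) [NeZero L] (E lam kap sg bd C1 C0 Ck : ℝ) (q m R : ℕ) :
    (torusDat d L E lam kap sg bd C1 C0 Ck q m R).eta = lam ^ (2 + kap) := by
  simp [Dat.eta, torusDat]

private lemma thyp_zr (d L : ℕ) [NeZero L] (E lam kap sg bd C1 C0 Ck : ℝ) (q m R : ℕ) :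
    (torusDat d L E lam kap sg bd C1 C0 Ck q m R).zr 0 =
      (E : ℂ) + ((lam ^ (2 + kap) : ℝ) : ℂ) * Complex.I +
      ((lam ^ 2 * sg : ℝ) : ℂ) * Mx ((E : ℂ) + ((lam ^ 2 : ℝ) : ℂ) * Complex.I) (0 : Tor d L) := by
  simp only [Dat.zr, Dat.s, torusDat]
  norm_num

/-- `C (1 + log(1/γ)) + 1 ≤ lam^(-1/8)` for small `lam` -/
private lemma thyp_log (Cl w lam γ : ℝ) (hCl : 0 < Cl) (hw : 0 < w) (hw1 : w ≤ 1) (hlam : 0 < lam)
    (hlam1 : lam ≤ 1) (hγ : lam ^ 2 * w ≤ γ)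
    (hK : (Cl * (1 + Real.log (1 / w) + 32) + 1) * lam ^ (1 / 16 : ℝ) ≤ 1) :
    Cl * (1 + Real.log (1 / γ)) + 1 ≤ lam ^ (-(1 / 8) : ℝ) := by
  have hw2 : 0 < lam ^ 2 * w := by positivity
  have h1 : Real.log (1 / γ) ≤ Real.log (1 / w) + 2 * Real.log (1 / lam) := by
    have h2 : Real.log (1 / γ) ≤ Real.log (1 / (lam ^ 2 * w)) :=
      Real.log_le_log (by have := hw2.trans_le hγ; positivity)
        (one_div_le_one_div_of_le hw2 hγ)
    have h3 : Real.log (1 / (lam ^ 2 * w)) = Real.log (1 / w) + 2 * Real.log (1 / lam) := by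
      rw [one_div, one_div, one_div, Real.log_inv, Real.log_inv, Real.log_inv,
        Real.log_mul (by positivity) (by positivity), Real.log_pow]
      push_cast
      ring
    linarith
  set u : ℝ := lam ^ (1 / 16 : ℝ) with hu
  have hu0 : 0 < u := by positivity
  have hu1 : u ≤ 1 := Real.rpow_le_one hlam.le hlam1 (by norm_num)
  have h4 : Real.log (1 / lam) ≤ 16 / u := by
    have h5 := Real.log_le_rpow_div (show 0 ≤ 1 / lam by positivity) (show (0 : ℝ) < 1 / 16 by norm_num)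
    have h6 : (1 / lam) ^ (1 / 16 : ℝ) = 1 / u := by
      rw [hu, Real.div_rpow zero_le_one hlam.le, Real.one_rpow]
    rw [h6] at h5
    calc Real.log (1 / lam) ≤ 1 / u / (1 / 16) := h5
      _ = 16 / u := by field_simp
  have h7 : lam ^ (-(1 / 8) : ℝ) = (1 / u) * (1 / u) := by
    have h71 : 1 / u = lam ^ (-(1 / 16) : ℝ) := by rw [hu, Real.rpow_neg hlam.le, ← one_div]
    rw [h71, ← Real.rpow_add hlam]
    norm_num
  have h8 : 1 ≤ 1 / u := by rw [le_div_iff₀ hu0]; linarith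
  have h9 : 0 ≤ Real.log (1 / w) := Real.log_nonneg (by rw [le_div_iff₀ hw]; linarith)
  have h10 : Cl * (1 + Real.log (1 / w) + 32) + 1 ≤ 1 / u := by
    rw [le_div_iff₀ hu0]; exact hK
  rw [h7]
  have h11 : 16 / u = 16 * (1 / u) := by ring
  rw [h11] at h4
  calc Cl * (1 + Real.log (1 / γ)) + 1
      ≤ Cl * (1 + (Real.log (1 / w) + 2 * (16 * (1 / u)))) + 1 := by
        have : Real.log (1 / γ) ≤ Real.log (1 / w) + 2 * (16 * (1 / u)) := by linarith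
        have := mul_le_mul_of_nonneg_left this hCl.le
        linarith
    _ ≤ (Cl * (1 + Real.log (1 / w) + 32) + 1) * (1 / u) := by
        have h12 : (1 + Real.log (1 / w)) * 1 ≤ (1 + Real.log (1 / w)) * (1 / u) :=
          mul_le_mul_of_nonneg_left h8 (by linarith)
        have h13 := mul_le_mul_of_nonneg_left h12 hCl.le
        nlinarith
    _ ≤ (1 / u) * (1 / u) := mul_le_mul_of_nonneg_right h10 (by positivity)

/-- all facts about the free Green function at `ζ = z + s g0` -/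
private lemma thyp_facts (d : ℕ) (hd : 3 ≤ d) (δ bd v : ℝ) (hδ : 0 < δ) (hbd : 0 < bd)
    (hv : 0 < v) : ∃ Cd C0 c1 K : ℝ, 0 < Cd ∧ 0 < C0 ∧ 0 < c1 ∧ 1 ≤ K ∧
    ∀ (L : ℕ) [NeZero L] (E lam kap sg : ℝ), 0 < kap → kap ≤ 1 / 8 → 0 < lam →
      K * lam ^ (1 / 16 : ℝ) ≤ 1 → lam ^ (-10 : ℝ) ≤ L → δ ≤ E → E ≤ 4 * d - δ → v ≤ sg →
      sg ≤ bd ^ 2 → ∀ g0 ζ : ℂ,
      g0 = Mx ((E : ℂ) + ((lam ^ 2 : ℝ) : ℂ) * Complex.I) (0 : Tor d L) →
      ζ = (E : ℂ) + ((lam ^ (2 + kap) : ℝ) : ℂ) * Complex.I + ((lam ^ 2 * sg : ℝ) : ℂ) * g0 →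
      ‖g0‖ ≤ Cd ∧ c1 ≤ g0.im ∧ ζ.im = lam ^ (2 + kap) + lam ^ 2 * sg * g0.im ∧ 0 < ζ.im ∧
      ‖Mx ζ (0 : Tor d L)‖ ≤ Cd ∧ ‖Mx ζ (0 : Tor d L) - g0‖ ≤ C0 * lam ∧
      c1 ≤ (Mx ζ (0 : Tor d L)).im ∧ (∀ x : Tor d L, ‖Mx ζ x‖ + 1 ≤ lam ^ (-(1 / 8) : ℝ)) ∧
      ∑ x : Tor d L, ‖Mx ζ x‖ ^ 4 ≤ C0 * lam ^ (-(3 / 2) : ℝ) ∧
      (lam ^ (2 + kap) + lam ^ 2 * sg * g0.im) * (C0 * lam ^ (-(3 / 2) : ℝ)) ≤ 1 ∧
      C0 * lam ≤ 1 ∧ 4 * bd * lam * (Cd + 1) ≤ 1 ∧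
      lam ^ 2 * sg * (C0 * lam) ≤ lam ^ (2 + kap) / 2 ∧ 10 * lam ≤ 1 := by
  obtain ⟨Cd, hCd, hmd⟩ := mdiag d hd
  obtain ⟨c1, t1, K1, hc1, ht1, hK1, him⟩ := im_lower d (by omega) (δ / 2) (by positivity)
  obtain ⟨Cl, hCl, hlog⟩ := log_average d hd
  obtain ⟨C4, hC4, hfour⟩ := a_four d hd
  obtain ⟨w, hw⟩ : ∃ w : ℝ, w = min 1 (v * c1) := ⟨_, rfl⟩
  have hw0 : 0 < w := by rw [hw]; exact lt_min one_pos (by positivity)
  have hw1 : w ≤ 1 := by rw [hw]; exact min_le_left _ _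
  have hwv : w ≤ v * c1 := by rw [hw]; exact min_le_right _ _
  obtain ⟨C0, hC0⟩ : ∃ C0 : ℝ, C0 = C4 * w ^ (-(3 / 4) : ℝ) + Cd * (2 + bd ^ 2 * Cd) / √w :=
    ⟨_, rfl⟩
  have hC01 : C4 * w ^ (-(3 / 4) : ℝ) ≤ C0 := by
    have : 0 ≤ Cd * (2 + bd ^ 2 * Cd) / √w := by positivity
    linarith
  have hC02 : Cd * (2 + bd ^ 2 * Cd) / √w ≤ C0 := by
    have : 0 ≤ C4 * w ^ (-(3 / 4) : ℝ) := by positivity
    linarith
  have hC00 : 0 < C0 := lt_of_lt_of_le (by positivity) hC01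
  obtain ⟨A, hA⟩ : ∃ A : ℝ, A = 1 + bd ^ 2 * Cd := ⟨_, rfl⟩
  have hA1 : 1 ≤ A := by
    have : 0 ≤ bd ^ 2 * Cd := by positivity
    linarith
  have hA0 : 0 < A := by linarith
  have hlw : 0 ≤ Real.log (1 / w) := Real.log_nonneg (by rw [le_div_iff₀ hw0]; linarith)
  obtain ⟨a1, ha1⟩ : ∃ a : ℝ, a = 4 * bd * (Cd + 1) := ⟨_, rfl⟩
  obtain ⟨a2, ha2⟩ : ∃ a : ℝ, a = A * C0 := ⟨_, rfl⟩
  obtain ⟨a3, ha3⟩ : ∃ a : ℝ, a = Cl * (1 + Real.log (1 / w) + 32) + 1 := ⟨_, rfl⟩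
  obtain ⟨a5, ha5⟩ : ∃ a : ℝ, a = 8 / w ^ 3 := ⟨_, rfl⟩
  obtain ⟨a6, ha6⟩ : ∃ a : ℝ, a = A / t1 := ⟨_, rfl⟩
  obtain ⟨a7, ha7⟩ : ∃ a : ℝ, a = K1 / w := ⟨_, rfl⟩
  obtain ⟨a8, ha8⟩ : ∃ a : ℝ, a = 2 * bd ^ 2 * Cd / δ := ⟨_, rfl⟩
  obtain ⟨a9, ha9⟩ : ∃ a : ℝ, a = 2 * bd ^ 2 * C0 := ⟨_, rfl⟩
  have p1 : 0 ≤ a1 := by rw [ha1]; positivity
  have p2 : 0 ≤ a2 := by rw [ha2]; positivity
  have p3 : 0 ≤ a3 := by rw [ha3]; positivity
  have p5 : 0 ≤ a5 := by rw [ha5]; positivity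
  have p6 : 0 ≤ a6 := by rw [ha6]; positivity
  have p7 : 0 ≤ a7 := by rw [ha7]; positivity
  have p8 : 0 ≤ a8 := by rw [ha8]; positivity
  have p9 : 0 ≤ a9 := by rw [ha9]; positivity
  obtain ⟨K, hK⟩ : ∃ K : ℝ, K = 10 + A + C0 + a1 + a2 + a3 + a5 + a6 + a7 + a8 + a9 := ⟨_, rfl⟩
  refine ⟨Cd, C0, c1, K, hCd, hC00, hc1, by linarith, ?_⟩
  intro L _ E lam kap sg hk hk1 hlam hKu hLlam hE1 hE2 hsg1 hsg2 g0 ζ hg0 hζ
  obtain ⟨u, hu⟩ : ∃ u : ℝ, u = lam ^ (1 / 16 : ℝ) := ⟨_, rfl⟩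
  rw [← hu] at hKu
  have hu0 : 0 < u := by rw [hu]; positivity
  have hsm : ∀ c : ℝ, c ≤ K → c * u ≤ 1 := fun c hc =>
    (mul_le_mul_of_nonneg_right hc hu0.le).trans hKu
  have hu1 : u ≤ 1 := by
    have := hsm 1 (by linarith)
    linarith
  have hlamu : lam = u ^ 16 := by
    rw [hu, ← Real.rpow_natCast, ← Real.rpow_mul hlam.le]
    norm_num
  have hlam1 : lam ≤ 1 := by rw [hlamu]; exact pow_le_one₀ hu0.le hu1
  have hlu : lam ≤ u := by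
    rw [hlamu]
    calc u ^ 16 ≤ u ^ 1 := pow_le_pow_of_le_one hu0.le hu1 (by norm_num)
      _ = u := pow_one u
  have hlpow : ∀ n : ℕ, 1 ≤ n → lam ^ n ≤ u := fun n hn =>
    ((pow_le_pow_of_le_one hlam.le hlam1 hn).trans (le_of_eq (pow_one lam))).trans hlu
  have hsmp : ∀ (c : ℝ) (n : ℕ), 0 ≤ c → c ≤ K → 1 ≤ n → c * lam ^ n ≤ 1 := fun c n h0 hc hn =>
    (mul_le_mul_of_nonneg_left (hlpow n hn) h0).trans (hsm c hc)
  have hsg0 : 0 < sg := hv.trans_le hsg1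
  have hL0 : (0 : ℝ) < L := Nat.cast_pos.2 (Nat.pos_of_ne_zero (NeZero.ne L))
  -- `lam^10 L ≥ 1`
  have hL10 : 1 ≤ lam ^ 10 * L := by
    have h1 : lam ^ (-10 : ℝ) = (lam ^ 10)⁻¹ := by
      rw [Real.rpow_neg hlam.le]
      norm_cast
    rw [h1, inv_le_iff_one_le_mul₀ (by positivity)] at hLlam
    linarith
  -- the number `γ0 = lam² w`
  obtain ⟨γ0, hγ0⟩ : ∃ γ0 : ℝ, γ0 = lam ^ 2 * w := ⟨_, rfl⟩
  have hγ00 : 0 < γ0 := by rw [hγ0]; positivity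
  have hl2 : lam ^ 2 ≤ 1 := pow_le_one₀ hlam.le hlam1
  have hγ0l : γ0 ≤ lam ^ 2 := by
    rw [hγ0]
    nlinarith [sq_nonneg lam]
  have hγ01 : γ0 ≤ 1 := hγ0l.trans hl2
  have hγ0L : 8 / γ0 ^ 3 ≤ L := by
    rw [div_le_iff₀ (by positivity)]
    have h1 : a5 * lam ^ 4 ≤ 1 := hsmp a5 4 p5 (by linarith) (by norm_num)
    rw [ha5, div_mul_eq_mul_div, div_le_iff₀ (by positivity), one_mul] at h1
    calc (8 : ℝ) = 8 * 1 := by ring
      _ ≤ 8 * (lam ^ 10 * L) := mul_le_mul_of_nonneg_left hL10 (by norm_num)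
      _ = L * (lam ^ 6 * (8 * lam ^ 4)) := by ring
      _ ≤ L * (lam ^ 6 * w ^ 3) := by gcongr
      _ = L * γ0 ^ 3 := by rw [hγ0]; ring
  have hKL : K1 ≤ γ0 * L := by
    have h1 : a7 * lam ^ 8 ≤ 1 := hsmp a7 8 p7 (by linarith) (by norm_num)
    rw [ha7, div_mul_eq_mul_div, div_le_iff₀ hw0, one_mul] at h1
    calc K1 = K1 * 1 := by ring
      _ ≤ K1 * (lam ^ 10 * L) := mul_le_mul_of_nonneg_left hL10 hK1.le
      _ = (K1 * lam ^ 8) * (lam ^ 2 * L) := by ring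
      _ ≤ w * (lam ^ 2 * L) := by gcongr
      _ = γ0 * L := by rw [hγ0]; ring
  have hzi : ((E : ℂ) + ((lam ^ 2 : ℝ) : ℂ) * Complex.I).im = lam ^ 2 := by
    generalize lam ^ 2 = t
    simp
  -- `g0`
  have hg0n : ‖g0‖ ≤ Cd := by
    rw [hg0]
    exact (hmd L γ0 hγ00 hγ01 hγ0L _ _ (by rw [hzi]; exact hγ0l) (by rw [hzi]; exact hγ0l)).1
  have hA6 : A * lam ^ 2 ≤ t1 := by
    have h1 : a6 * lam ^ 2 ≤ 1 := hsmp a6 2 p6 (by linarith) (by norm_num)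
    rw [ha6, div_mul_eq_mul_div, div_le_iff₀ ht1, one_mul] at h1
    exact h1
  have hg0i : c1 ≤ g0.im := by
    rw [hg0]
    refine him L E (lam ^ 2) (by linarith) (by linarith) (by positivity) ?_ ?_
    · have : lam ^ 2 ≤ A * lam ^ 2 := by nlinarith [sq_nonneg lam]
      linarith
    · have : γ0 * L ≤ lam ^ 2 * L := mul_le_mul_of_nonneg_right hγ0l hL0.le
      linarith
  have hg0i0 : 0 < g0.im := hc1.trans_le hg0i
  have hg0ile : g0.im ≤ Cd := ((le_abs_self _).trans (Complex.abs_im_le_norm g0)).trans hg0n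
  have hg0re : |g0.re| ≤ Cd := (Complex.abs_re_le_norm g0).trans hg0n
  have hη0 : 0 < lam ^ (2 + kap) := by positivity
  have hη2 : lam ^ (2 + kap) ≤ lam ^ 2 := by
    rw [← Real.rpow_natCast lam 2]
    exact Real.rpow_le_rpow_of_exponent_ge hlam hlam1 (by push_cast; linarith)
  have hζim : ζ.im = lam ^ (2 + kap) + lam ^ 2 * sg * g0.im := by
    rw [hζ]
    generalize lam ^ (2 + kap) = η
    generalize lam ^ 2 * sg = s
    simp
  have hζre : ζ.re = E + lam ^ 2 * sg * g0.re := by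
    rw [hζ]
    generalize lam ^ (2 + kap) = η
    generalize lam ^ 2 * sg = s
    simp
  have hγlow : γ0 ≤ ζ.im := by
    rw [hζim, hγ0]
    have h1 : w ≤ sg * g0.im := hwv.trans (mul_le_mul hsg1 hg0i hc1.le hsg0.le)
    have h2 := mul_le_mul_of_nonneg_left h1 (sq_nonneg lam)
    nlinarith
  have hγup : ζ.im ≤ A * lam ^ 2 := by
    rw [hζim, hA]
    have h1 : sg * g0.im ≤ bd ^ 2 * Cd := mul_le_mul hsg2 hg0ile hg0i0.le (sq_nonneg bd)
    have h2 := mul_le_mul_of_nonneg_left h1 (sq_nonneg lam)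
    nlinarith
  have hζ0 : 0 < ζ.im := hγ00.trans_le hγlow
  have hζ1 : ζ.im ≤ 1 := by
    have := hsmp A 2 hA0.le (by linarith) (by norm_num)
    linarith
  have hζL : 8 / ζ.im ^ 3 ≤ L := by
    refine le_trans ?_ hγ0L
    gcongr
  have hM := (hmd L γ0 hγ00 hγ01 hγ0L ζ ζ hγlow hγlow).1
  have hMdiff : ‖Mx ζ (0 : Tor d L) - g0‖ ≤ C0 * lam := by
    have h1 := (hmd L γ0 hγ00 hγ01 hγ0L ζ ((E : ℂ) + ((lam ^ 2 : ℝ) : ℂ) * Complex.I) hγlow
      (by rw [hzi]; exact hγ0l)).2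
    rw [← hg0] at h1
    have h2 : ‖ζ - ((E : ℂ) + ((lam ^ 2 : ℝ) : ℂ) * Complex.I)‖ ≤ (2 + bd ^ 2 * Cd) * lam ^ 2 := by
      have h3 : ζ - ((E : ℂ) + ((lam ^ 2 : ℝ) : ℂ) * Complex.I) =
          ((lam ^ (2 + kap) : ℝ) : ℂ) * Complex.I + ((lam ^ 2 * sg : ℝ) : ℂ) * g0 -
            ((lam ^ 2 : ℝ) : ℂ) * Complex.I := by
        rw [hζ]
        ring
      rw [h3]
      have n1 : ‖((lam ^ (2 + kap) : ℝ) : ℂ) * Complex.I‖ ≤ lam ^ 2 := by
        rw [norm_mul, Complex.norm_I, mul_one, Complex.norm_real, Real.norm_eq_abs,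
          abs_of_pos hη0]
        exact hη2
      have n2 : ‖((lam ^ 2 * sg : ℝ) : ℂ) * g0‖ ≤ lam ^ 2 * (bd ^ 2 * Cd) := by
        rw [norm_mul, Complex.norm_real, Real.norm_eq_abs, abs_of_pos (by positivity), mul_assoc]
        exact mul_le_mul_of_nonneg_left
          (mul_le_mul hsg2 hg0n (norm_nonneg _) (sq_nonneg bd)) (sq_nonneg lam)
      have n3 : ‖((lam ^ 2 : ℝ) : ℂ) * Complex.I‖ = lam ^ 2 := by
        rw [norm_mul, Complex.norm_I, mul_one, Complex.norm_real, Real.norm_eq_abs,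
          abs_of_pos (by positivity)]
      have n4 := norm_sub_le (((lam ^ (2 + kap) : ℝ) : ℂ) * Complex.I +
        ((lam ^ 2 * sg : ℝ) : ℂ) * g0) (((lam ^ 2 : ℝ) : ℂ) * Complex.I)
      have n5 := norm_add_le (((lam ^ (2 + kap) : ℝ) : ℂ) * Complex.I)
        (((lam ^ 2 * sg : ℝ) : ℂ) * g0)
      linarith
    have h3 : √γ0 = lam * √w := by
      rw [hγ0, Real.sqrt_mul (by positivity), Real.sqrt_sq hlam.le]
    have hsw : 0 < √w := Real.sqrt_pos.2 hw0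
    rw [h3] at h1
    calc ‖Mx ζ (0 : Tor d L) - g0‖
        ≤ Cd * ‖ζ - ((E : ℂ) + ((lam ^ 2 : ℝ) : ℂ) * Complex.I)‖ / (lam * √w) := h1
      _ ≤ Cd * ((2 + bd ^ 2 * Cd) * lam ^ 2) / (lam * √w) := by gcongr
      _ = (Cd * (2 + bd ^ 2 * Cd) / √w) * lam := by field_simp
      _ ≤ C0 * lam := mul_le_mul_of_nonneg_right hC02 hlam.le
  have hMi : c1 ≤ (Mx ζ (0 : Tor d L)).im := by
    have h1 : |lam ^ 2 * sg * g0.re| ≤ δ / 2 := by
      rw [abs_mul, abs_of_pos (by positivity : 0 < lam ^ 2 * sg)]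
      have h2 : a8 * lam ^ 2 ≤ 1 := hsmp a8 2 p8 (by linarith) (by norm_num)
      rw [ha8, div_mul_eq_mul_div, div_le_iff₀ hδ, one_mul] at h2
      have h3 : lam ^ 2 * sg * |g0.re| ≤ lam ^ 2 * bd ^ 2 * Cd :=
        mul_le_mul (mul_le_mul_of_nonneg_left hsg2 (sq_nonneg _)) hg0re (abs_nonneg _)
          (by positivity)
      linarith
    have h4 := abs_le.1 h1
    have h5 := him L ζ.re ζ.im (by rw [hζre]; linarith) (by rw [hζre]; linarith) hζ0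
      (hγup.trans hA6) (hKL.trans (mul_le_mul_of_nonneg_right hγlow hL0.le))
    rwa [Complex.re_add_im] at h5
  have hMall : ∀ x : Tor d L, ‖Mx ζ x‖ + 1 ≤ lam ^ (-(1 / 8) : ℝ) := by
    intro x
    have h1 : 1 ≤ ζ.im * L := by
      have h2 : ζ.im * (8 / ζ.im ^ 3) ≤ ζ.im * L := mul_le_mul_of_nonneg_left hζL hζ0.le
      have h3 : (1 : ℝ) ≤ ζ.im * (8 / ζ.im ^ 3) := by
        rw [mul_div_assoc', le_div_iff₀ (by positivity)]
        nlinarith [sq_nonneg ζ.im]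
      linarith
    have h2 := (Mx_le ζ x).trans (hlog L ζ hζ0 hζ1 h1)
    have h3 := thyp_log Cl w lam ζ.im hCl hw0 hw1 hlam hlam1 (by rw [← hγ0]; exact hγlow)
      (by rw [← ha3, ← hu]; exact hsm a3 (by linarith))
    linarith
  have hM4 : ∑ x : Tor d L, ‖Mx ζ x‖ ^ 4 ≤ C0 * lam ^ (-(3 / 2) : ℝ) := by
    refine (hfour L ζ hζ0 hζ1 hζL).trans ?_
    have h1 : ζ.im ^ (-(3 / 4) : ℝ) ≤ γ0 ^ (-(3 / 4) : ℝ) :=
      Real.rpow_le_rpow_of_nonpos hγ00 hγlow (by norm_num)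
    have h2 : γ0 ^ (-(3 / 4) : ℝ) = lam ^ (-(3 / 2) : ℝ) * w ^ (-(3 / 4) : ℝ) := by
      rw [hγ0, Real.mul_rpow (by positivity) hw0.le, ← Real.rpow_natCast lam 2,
        ← Real.rpow_mul hlam.le]
      norm_num
    rw [h2] at h1
    calc C4 * ζ.im ^ (-(3 / 4) : ℝ) ≤ C4 * (lam ^ (-(3 / 2) : ℝ) * w ^ (-(3 / 4) : ℝ)) := by gcongr
      _ = (C4 * w ^ (-(3 / 4) : ℝ)) * lam ^ (-(3 / 2) : ℝ) := by ring
      _ ≤ C0 * lam ^ (-(3 / 2) : ℝ) := by gcongr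
  have hga4 : (lam ^ (2 + kap) + lam ^ 2 * sg * g0.im) * (C0 * lam ^ (-(3 / 2) : ℝ)) ≤ 1 := by
    rw [← hζim]
    have h1 : lam ^ 2 * lam ^ (-(3 / 2) : ℝ) = u ^ 8 := by
      rw [hu, ← Real.rpow_natCast lam 2, ← Real.rpow_add hlam, ← Real.rpow_natCast,
        ← Real.rpow_mul hlam.le]
      norm_num
    calc ζ.im * (C0 * lam ^ (-(3 / 2) : ℝ)) ≤ (A * lam ^ 2) * (C0 * lam ^ (-(3 / 2) : ℝ)) := by
          gcongr
      _ = a2 * u ^ 8 := by rw [ha2, ← h1]; ring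
      _ ≤ a2 * u := by
          refine mul_le_mul_of_nonneg_left ?_ p2
          calc u ^ 8 ≤ u ^ 1 := pow_le_pow_of_le_one hu0.le hu1 (by norm_num)
            _ = u := pow_one u
      _ ≤ 1 := hsm a2 (by linarith)
  have hC0l : C0 * lam ≤ 1 := by
    have := hsmp C0 1 hC00.le (by linarith) le_rfl
    rwa [pow_one] at this
  have hsml : 4 * bd * lam * (Cd + 1) ≤ 1 := by
    have := hsmp a1 1 p1 (by linarith) le_rfl
    rw [pow_one, ha1] at this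
    linarith
  have h10 : 10 * lam ≤ 1 := by
    have := hsmp 10 1 (by norm_num) (by linarith) le_rfl
    rwa [pow_one] at this
  have hsd : lam ^ 2 * sg * (C0 * lam) ≤ lam ^ (2 + kap) / 2 := by
    have h1 : lam ^ 3 ≤ lam ^ (2 + kap) * u := by
      rw [hu, ← Real.rpow_add hlam, ← Real.rpow_natCast lam 3]
      exact Real.rpow_le_rpow_of_exponent_ge hlam hlam1 (by push_cast; linarith)
    have h2 : a9 * u ≤ 1 := hsm a9 (by linarith)
    calc lam ^ 2 * sg * (C0 * lam) = (sg * C0) * lam ^ 3 := by ring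
      _ ≤ (bd ^ 2 * C0) * (lam ^ (2 + kap) * u) := by gcongr
      _ = (a9 * u) * (lam ^ (2 + kap) / 2) := by rw [ha9]; ring
      _ ≤ 1 * (lam ^ (2 + kap) / 2) := mul_le_mul_of_nonneg_right h2 (by positivity)
      _ = lam ^ (2 + kap) / 2 := one_mul _
  exact ⟨hg0n, hg0i, hζim, hζ0, hM, hMdiff, hMi, hMall, hM4, hga4, hC0l, hsml, hsd, h10⟩

theorem torus_hyp (d : ℕ) (hd : 3 ≤ d) (δ bd v : ℝ) (hδ : 0 < δ) (hbd : 0 < bd) (hv : 0 < v) :
    ∃ C1 C0 cg : ℝ, 1 ≤ C1 ∧ 0 < C0 ∧ 0 < cg ∧ ∀ kap : ℝ, 0 < kap → kap ≤ 1 / 8 →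
    ∃ Ck lam0 : ℝ, 0 < Ck ∧ 0 < lam0 ∧
    ∀ (L : ℕ) [NeZero L] (E lam sg : ℝ) (q m R : ℕ), 0 < lam → lam ≤ lam0 →
      lam ^ (-10 : ℝ) ≤ L → (L : ℝ) ≤ 2 * lam ^ (-10 : ℝ) → δ ≤ E → E ≤ 4 * d - δ → v ≤ sg →
      sg ≤ bd ^ 2 → (R : ℝ) ≤ 2 * lam ^ (-(2 + kap / 8)) → 2 ≤ q → 3 ≤ m →
      (torusDat d L E lam kap sg bd C1 C0 Ck q m R).Hyp ∧
        cg ≤ (torusDat d L E lam kap sg bd C1 C0 Ck q m R).g0.im := by
  obtain ⟨Cd, C0, c1, K, hCd, hC0, hc1, hK, hfacts⟩ := thyp_facts d hd δ bd v hδ hbd hv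
  refine ⟨Cd + 1, C0, c1, by linarith, hC0, hc1, ?_⟩
  intro kap hk hk1
  obtain ⟨Ch, lamh, hCh, hlamh, hkh⟩ := khat d hd c1 Cd v (bd ^ 2) kap hc1 hCd hv hk hk1
  obtain ⟨Ck, hCk⟩ : ∃ Ck : ℝ, Ck = 2 ^ d * (Ch + 1) := ⟨_, rfl⟩
  have hCk0 : 0 < Ck := by rw [hCk]; positivity
  have hK0 : 0 < K := by linarith
  refine ⟨Ck, min (min lamh ((1 / K) ^ 16)) ((1 / Ck) ^ (16 / (3 * kap) : ℝ)), hCk0,
    lt_min (lt_min hlamh (by positivity)) (by positivity), ?_⟩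
  intro L _ E lam sg q m R hlam hlam0 hL1 hL2 hE1 hE2 hsg1 hsg2 hR hq hm
  have hl1 : lam ≤ lamh := hlam0.trans ((min_le_left _ _).trans (min_le_left _ _))
  have hl2 : lam ≤ (1 / K) ^ 16 := hlam0.trans ((min_le_left _ _).trans (min_le_right _ _))
  have hl3 : lam ≤ (1 / Ck) ^ (16 / (3 * kap) : ℝ) := hlam0.trans (min_le_right _ _)
  have hKu : K * lam ^ (1 / 16 : ℝ) ≤ 1 := by
    have h1 : lam ^ (1 / 16 : ℝ) ≤ ((1 / K) ^ 16) ^ (1 / 16 : ℝ) :=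
      Real.rpow_le_rpow hlam.le hl2 (by norm_num)
    have h2 : ((1 / K) ^ 16) ^ (1 / 16 : ℝ) = 1 / K := by
      rw [← Real.rpow_natCast (1 / K) 16, ← Real.rpow_mul (by positivity)]
      norm_num
    rw [h2, le_div_iff₀ hK0] at h1
    linarith
  have hCku : Ck * lam ^ (3 * kap / 16 : ℝ) ≤ 1 := by
    have h1 : lam ^ (3 * kap / 16 : ℝ) ≤ ((1 / Ck) ^ (16 / (3 * kap) : ℝ)) ^ (3 * kap / 16 : ℝ) :=
      Real.rpow_le_rpow hlam.le hl3 (by positivity)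
    have h2 : ((1 / Ck) ^ (16 / (3 * kap) : ℝ)) ^ (3 * kap / 16 : ℝ) = 1 / Ck := by
      rw [← Real.rpow_mul (by positivity)]
      have : 16 / (3 * kap) * (3 * kap / 16) = 1 := by field_simp
      rw [this, Real.rpow_one]
    rw [h2, le_div_iff₀ hCk0] at h1
    linarith
  obtain ⟨g0, hg0⟩ : ∃ g0 : ℂ, g0 = Mx ((E : ℂ) + ((lam ^ 2 : ℝ) : ℂ) * Complex.I) (0 : Tor d L) :=
    ⟨_, rfl⟩
  obtain ⟨ζ, hζ⟩ : ∃ ζ : ℂ, ζ = (E : ℂ) + ((lam ^ (2 + kap) : ℝ) : ℂ) * Complex.I +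
      ((lam ^ 2 * sg : ℝ) : ℂ) * g0 := ⟨_, rfl⟩
  obtain ⟨f1, f2, f3, f4, f5, f6, f7, f8, f9, f10, f11, f12, f13, f14⟩ :=
    hfacts L E lam kap sg hk hk1 hlam hKu hL1 hE1 hE2 hsg1 hsg2 g0 ζ hg0 hζ
  have hlam1 : lam ≤ 1 := by linarith
  have hsg0 : 0 < sg := hv.trans_le hsg1
  have hL0 : (0 : ℝ) < L := Nat.cast_pos.2 (Nat.pos_of_ne_zero (NeZero.ne L))
  have hη0 : 0 < lam ^ (2 + kap) := by positivity
  have hg00 : 0 < g0.im := hc1.trans_le f2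
  have hg0ile : g0.im ≤ Cd := ((le_abs_self _).trans (Complex.abs_im_le_norm g0)).trans f1
  have hA0 : 0 < (Mx ζ (0 : Tor d L)).im := hc1.trans_le f7
  have hAle : (Mx ζ (0 : Tor d L)).im ≤ Cd :=
    ((le_abs_self _).trans (Complex.abs_im_le_norm _)).trans f5
  have hAg : |(Mx ζ (0 : Tor d L)).im - g0.im| ≤ C0 * lam := by
    rw [← Complex.sub_im]
    exact (Complex.abs_im_le_norm _).trans f6
  obtain ⟨D, hD⟩ : ∃ D, D = torusDat d L E lam kap sg bd (Cd + 1) C0 Ck q m R := ⟨_, rfl⟩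
  rw [← hD]
  have dg : D.g0 = g0 := by rw [hD, hg0]; rfl
  have dz : D.zr 0 = ζ := by rw [hD, thyp_zr, hζ, hg0]
  have deta : D.eta = lam ^ (2 + kap) := by rw [hD]; exact thyp_eta _ _ _ _ _ _ _ _ _ _ _ _ _
  have ds : D.s = lam ^ 2 * sg := by rw [hD]; rfl
  have dM : ∀ x y, D.M x y = Mx ζ (x - y) := by
    intro x y
    have h1 := res_H0T ζ f4 x y
    rw [← h1, ← dz, hD]
    rfl
  have det : ∀ r, D.et r = lam ^ (2 + kap) + lam ^ 2 * sg * (1 - r ^ 2) * g0.im := by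
    intro r
    unfold Dat.et
    rw [deta, ds, dg]
  have dS : ∀ p, D.S p = ST ζ p := by
    intro p
    rw [hD, hζ, hg0]
    rfl
  have hSle : ∀ p : Tor d L, |ST ζ p| ≤ (Mx ζ (0 : Tor d L)).im / (lam ^ (2 + kap) + lam ^ 2 * sg * g0.im) := by
    intro p
    rw [← f3, ← ST_zero ζ f4]
    exact abs_ST_le ζ p
  have hfb : ∀ p (r : ℝ), 0 ≤ r → r ≤ 1 → 0 < 1 - D.s * r ^ 2 * D.S p ∧
      |D.Fh p r| ≤ 2 * (Mx ζ (0 : Tor d L)).im / D.et r := by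
    intro p r h0 h1
    have h2 := fhat_bounds (lam ^ (2 + kap)) (lam ^ 2 * sg) g0.im (Mx ζ (0 : Tor d L)).im
      (C0 * lam) (ST ζ p) r hη0 (by positivity) hg00 hA0 hAg f13 (hSle p) h0 h1
    rw [det r]
    unfold Dat.Fh
    rw [ds, dS p]
    exact ⟨h2.1, h2.2.1⟩
  have dlam : D.lam = lam := by rw [hD]; rfl
  have dsg : D.sg = sg := by rw [hD]; rfl
  have dbd : D.bd = bd := by rw [hD]; rfl
  have dC1 : D.C1 = Cd + 1 := by rw [hD]; rfl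
  have ddb : D.dbar = C0 * lam := by rw [hD]; rfl
  have da4 : D.a4 = C0 * lam ^ (-(3 / 2) : ℝ) := by rw [hD]; rfl
  have dLam : D.Lam = lam ^ (-(1 / 8) : ℝ) := by rw [hD]; rfl
  have dbe : ∀ p, D.be p = (((2 : ℝ) ^ d * fej (2 * R + 1) p : ℝ) : ℂ) := by
    intro p; rw [hD]; rfl
  have db : ∀ p, D.b p = fun x => ch p x := by intro p; rw [hD]; rfl
  have dB : D.B = ballT d R := by rw [hD]; rfl
  have dtau : D.tau = lam ^ (1 / 16 : ℝ) := by rw [hD]; rfl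
  have dKA : D.KA = lam ^ (kap / 16) / lam ^ (2 + kap) := by rw [hD]; rfl
  have dkb : D.kbar = Ck * lam ^ (kap / 4) / lam ^ (2 + kap) := by rw [hD]; rfl
  have dq : D.q = q := by rw [hD]; rfl
  have dm : D.m = m := by rw [hD]; rfl
  have dH : D.H0 = H0T d L := by rw [hD]; rfl
  have hRL : 2 * (2 * R + 1) ≤ L := by
    obtain ⟨X, hX⟩ : ∃ X : ℝ, X = lam⁻¹ := ⟨_, rfl⟩
    have hX10 : 10 ≤ X := by
      rw [hX, le_inv_comm₀ (by norm_num) hlam]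
      linarith
    have h3 : lam ^ (-(2 + kap / 8)) ≤ X ^ 3 := by
      have h4 : X ^ 3 = lam ^ (-3 : ℝ) := by
        rw [hX, Real.rpow_neg hlam.le, inv_pow]
        norm_cast
      rw [h4]
      exact Real.rpow_le_rpow_of_exponent_ge hlam hlam1 (by linarith)
    have h5 : lam ^ (-10 : ℝ) = X ^ 10 := by
      rw [hX, Real.rpow_neg hlam.le, inv_pow]
      norm_cast
    have h6 : X ^ 4 ≤ X ^ 10 := pow_le_pow_right₀ (by linarith) (by norm_num)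
    have h7 : 1 ≤ X ^ 3 := one_le_pow₀ (by linarith)
    have h8 : 10 * X ^ 3 ≤ X ^ 4 := by
      have := mul_le_mul_of_nonneg_right hX10 (by positivity : 0 ≤ X ^ 3)
      nlinarith
    have h9 : (2 * (2 * R + 1) : ℝ) ≤ L := by linarith
    exact_mod_cast h9
  have hbe : ∀ p, ‖D.be p‖ = 2 ^ d * fej (2 * R + 1) p := by
    intro p
    have : 0 ≤ fej (2 * R + 1) p := fej_nonneg _ _
    rw [dbe p, Complex.norm_real, Real.norm_eq_abs, abs_of_nonneg (by positivity)]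
  have hHyp : D.Hyp := {
    sym := by rw [dH]; exact H0T_realSym
    q2 := by rw [dq]; exact hq
    m3 := by rw [dm]; exact hm
    lam0 := by rw [dlam]; exact hlam
    lam1 := by rw [dlam]; exact hlam1
    sg0 := by rw [dsg]; exact hsg0
    sgb := by rw [dsg, dbd]; exact hsg2
    bd0 := by rw [dbd]; exact hbd
    eta0 := by rw [deta]; exact hη0
    g0im := by rw [dg]; exact hg00
    C10 := by rw [dC1]; linarith
    g0C := by rw [dg, dC1]; linarith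
    Mdiag := by
      intro x
      rw [dM, sub_self, dC1]
      linarith
    Mg := by
      intro x
      rw [dM, sub_self, dg, ddb]
      exact f6
    dbar1 := by rw [ddb]; exact f11
    small := by rw [dbd, dlam, dC1]; exact f12
    ha4 := by
      intro x
      simp only [dM]
      rw [da4]
      have h1 := Equiv.sum_comp (Equiv.subLeft x) (fun y => ‖Mx ζ y‖ ^ 4)
      simp only [Equiv.subLeft_apply] at h1
      rw [h1]
      exact f9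
    ga4 := by
      rw [det, da4, show (1 : ℝ) - 0 ^ 2 = 1 by norm_num, mul_one]
      exact f10
    hLam := by
      intro x y
      rw [dM, dLam]
      exact f8 _
    cardP := Fintype.card_pos
    uni := by
      intro p x
      rw [db p]
      exact ch_norm p x
    Sdiag := by
      intro p x
      rw [db p, dS p]
      exact ST_diag ζ D.M dM p x
    Spos := fun p r h0 h1 => (hfb p r h0 h1).1
    Fhb := by
      intro p r h0 h1
      refine (hfb p r h0 h1).2.trans ?_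
      rw [dC1]
      have h2 : 0 < D.et r := by
        rw [det r]
        have h3 : 0 ≤ 1 - r ^ 2 := by nlinarith
        have h4 : 0 ≤ lam ^ 2 * sg * (1 - r ^ 2) * g0.im := by positivity
        linarith
      gcongr
      linarith
    bump0 := by
      intro y
      simp only [dbe, db]
      have h1 : ∑ p, (((2 : ℝ) ^ d * fej (2 * R + 1) p : ℝ) : ℂ) * ch p y =
          (((2 : ℝ) ^ d : ℝ) : ℂ) * ∑ p, ((fej (2 * R + 1) p : ℝ) : ℂ) * ch p y := by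
        rw [Finset.mul_sum]
        refine Finset.sum_congr rfl fun p _ => ?_
        push_cast
        ring
      rw [h1, Complex.re_ofReal_mul]
      exact mul_nonneg (by positivity) (bump_nonneg _ _)
    bumpB := by
      intro y hy
      simp only [dbe, db]
      rw [dB] at hy
      exact bump_ge R hRL y hy
    kbar0 := by
      intro r h0 h1
      have e2 := hkh L ζ lam sg g0.im (C0 * lam) R hlam hl1 hL1 hsg1 hsg2 f2 hg0ile f3 f7 hAle hAg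
        f13 hR r h0 h1
      have e3 : ∑ p : Tor d L, fej (2 * R + 1) p = 1 := sum_fej _ (by omega) (by omega)
      have e4 : ∀ p, D.Fh p r = ST ζ p / (1 - lam ^ 2 * sg * r ^ 2 * ST ζ p) := by
        intro p
        unfold Dat.Fh
        rw [ds, dS p]
      simp only [← e4] at e2
      have e5 : lam ^ (1 / 16 : ℝ) ≤ lam ^ (kap / 4) :=
        Real.rpow_le_rpow_of_exponent_ge hlam hlam1 (by linarith)
      rw [dtau, deta, dkb]
      have e6 : ∑ p, ‖D.be p‖ * (|D.Fh p r| + lam ^ (1 / 16 : ℝ) / lam ^ (2 + kap)) =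
          2 ^ d * (∑ p, fej (2 * R + 1) p * |D.Fh p r|) +
            2 ^ d * (lam ^ (1 / 16 : ℝ) / lam ^ (2 + kap)) * ∑ p : Tor d L, fej (2 * R + 1) p := by
        rw [Finset.mul_sum, Finset.mul_sum, ← Finset.sum_add_distrib]
        refine Finset.sum_congr rfl fun p _ => ?_
        rw [hbe p]
        ring
      rw [e6, e3, mul_one, hCk]
      have e7 : lam ^ (1 / 16 : ℝ) / lam ^ (2 + kap) ≤ lam ^ (kap / 4) / lam ^ (2 + kap) :=
        div_le_div_of_nonneg_right e5 hη0.le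
      calc 2 ^ d * (∑ p, fej (2 * R + 1) p * |D.Fh p r|) +
            2 ^ d * (lam ^ (1 / 16 : ℝ) / lam ^ (2 + kap))
          ≤ 2 ^ d * (Ch * lam ^ (kap / 4) / lam ^ (2 + kap)) +
            2 ^ d * (lam ^ (kap / 4) / lam ^ (2 + kap)) := by gcongr
        _ = 2 ^ d * (Ch + 1) * lam ^ (kap / 4) / lam ^ (2 + kap) := by ring
    tau0 := by rw [dtau]; positivity
    tau1 := by rw [dtau]; exact Real.rpow_le_one hlam.le hlam1 (by norm_num)
    KA0 := by rw [dKA]; positivity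
    kbKA := by
      rw [dkb, dKA]
      refine div_le_div_of_nonneg_right ?_ hη0.le
      have h1 : lam ^ (kap / 4) = lam ^ (3 * kap / 16 : ℝ) * lam ^ (kap / 16) := by
        rw [← Real.rpow_add hlam]
        congr 1
        ring
      rw [h1, ← mul_assoc]
      have h2 : 0 ≤ lam ^ (kap / 16) := by positivity
      calc Ck * lam ^ (3 * kap / 16 : ℝ) * lam ^ (kap / 16) ≤ 1 * lam ^ (kap / 16) :=
            mul_le_mul_of_nonneg_right hCku h2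
        _ = lam ^ (kap / 16) := one_mul _ }
  exact ⟨hHyp, by rw [dg]; exact f2⟩

end Pool.Agent.Kin
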