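import Pool.Agent.Kin.FlowA
import Pool.Agent.Kin.THyp
import Pool.Agent.Kin.Params

/-! KIN TPROB: the probability bound on the torus. -/

open Matrix Finset MeasureTheory

noncomputable section

namespace Pool.Agent.Kin

theorem torus_prob (d : ℕ) (hd : 3 ≤ d) (δ bd v : ℝ) (hδ : 0 < δ) (hbd : 0 < bd) (hv : 0 < v)
    (K : ℕ) : ∃ kap lam0 C1 : ℝ, 0 < kap ∧ kap ≤ 1 / 8 ∧ 0 < lam0 ∧ 0 < C1 ∧
    ∀ (L : ℕ) [NeZero L] (E lam : ℝ) (R : ℕ) (μ : Measure ℝ) [IsProbabilityMeasure μ], 0 < lam →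
      lam ≤ lam0 → lam ^ (-10 : ℝ) ≤ L → (L : ℝ) ≤ 2 * lam ^ (-10 : ℝ) → δ ≤ E →
      E ≤ 4 * d - δ → (R : ℝ) ≤ 2 * lam ^ (-(2 + kap / 8)) → (∀ᵐ x ∂μ, |x| ≤ bd) →
      ∫ x, x ∂μ = 0 → v ≤ ∫ x, x ^ 2 ∂μ →
      (Measure.pi fun _ : Tor d L => μ) {h | ¬ ((∀ u : Tor d L → ℝ,
        u ⬝ᵥ (JT d L R E (lam ^ (2 + kap)) (fun w => lam * h w) *ᵥ u) ≤
          2 * lam ^ (kap / 16) / lam ^ (2 + kap) * ∑ x, u x ^ 2) ∧
        ∀ x, ‖res (H0T d L) ((E : ℂ) + ((lam ^ (2 + kap) : ℝ) : ℂ) * Complex.I)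
          (fun w => lam * h w) x x‖ ≤ C1)} ≤ ENNReal.ofReal (lam ^ K) := by
  obtain ⟨C1, C0, cg, hC1, hC0, hcg, hyp⟩ := torus_hyp d hd δ bd v hδ hbd hv
  obtain ⟨q, hq, hpar⟩ := params d bd C1 C0 cg v hbd hC1 hC0 hcg hv K
  obtain ⟨R, hR, hfl⟩ := flowA q hq bd C1 hbd hC1
  obtain ⟨kap, hk0, hk1, m, hm, hpar⟩ := hpar R hR
  obtain ⟨C, hC, hfl⟩ := hfl m hm
  obtain ⟨Ck, lam1, hCk, hlam1, hyp⟩ := hyp kap hk0 hk1
  obtain ⟨lam2, hlam2, hpar⟩ := hpar C Ck hC hCk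
  refine ⟨kap, min lam1 lam2, C1, hk0, hk1, lt_min hlam1 hlam2, by linarith, ?_⟩
  intro L _ E lam R' μ _ h0 h1 hL1 hL2 hE1 hE2 hR' hb hm0 hvar
  have hsgb : ∫ x, x ^ 2 ∂μ ≤ bd ^ 2 := by
    have : ∀ᵐ x ∂μ, x ^ 2 ≤ bd ^ 2 := by
      filter_upwards [hb] with x hx
      exact sq_le_sq' (by linarith [(abs_le.1 hx).1]) (abs_le.1 hx).2
    calc ∫ x, x ^ 2 ∂μ ≤ ∫ _, bd ^ 2 ∂μ := by
          refine integral_mono_of_nonneg (Filter.Eventually.of_forall fun x => sq_nonneg x)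
            (integrable_const _) this
      _ = bd ^ 2 := by simp
  obtain ⟨hD, hg⟩ := hyp L E lam (∫ x, x ^ 2 ∂μ) q m R' h0 (h1.trans (min_le_left _ _)) hL1 hL2
    hE1 hE2 hvar hsgb hR' hq hm
  obtain ⟨p1, p2, p3, p4⟩ := hpar L E lam (∫ x, x ^ 2 ∂μ) R' h0 (h1.trans (min_le_right _ _))
    hL1 hL2 hvar hsgb hg hD.g0C
  set D := torusDat d L E lam kap (∫ x, x ^ 2 ∂μ) bd C1 C0 Ck q m R' with hDdef
  have hK' : 0 < lam ^ (kap / 8) / lam ^ (2 + kap) := by positivity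
  have hfin := hfl (Tor d L) (Tor d L) D hD rfl rfl rfl rfl _ hK' p1 p2 p3 μ hb hm0 rfl
  refine (measure_mono ?_).trans (hfin.trans (ENNReal.ofReal_le_ofReal p4))
  intro h hh
  simp only [Set.mem_ofPred_eq] at hh ⊢
  by_contra hlt
  rw [not_lt] at hlt
  have hGG : D.G 1 (D.hv 1 h) = res (H0T d L) ((E : ℂ) + ((lam ^ (2 + kap) : ℝ) : ℂ) *
      Complex.I) (fun w => lam * h w) := by
    have hz : D.zr 1 = (E : ℂ) + ((lam ^ (2 + kap) : ℝ) : ℂ) * Complex.I := by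
      simp [Dat.zr, hDdef, torusDat]
    have hh : D.hv 1 h = fun w => lam * h w := by
      funext w
      simp [Dat.hv, hDdef, torusDat]
    simp only [Dat.G, hz, hh]
    rfl
  refine hh ⟨fun u => ?_, fun x => ?_⟩
  rotate_left
  · rw [← hGG]
    exact (D.good_of hD zero_le_one le_rfl (D.hv 1 h) hlt).Gd x
  have hJ : JT d L R' E (lam ^ (2 + kap)) (fun w => lam * h w) = D.J 1 (D.hv 1 h) := by
    ext x y
    have hz : D.zr 1 = (E : ℂ) + ((lam ^ (2 + kap) : ℝ) : ℂ) * Complex.I := by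
      simp [Dat.zr, hDdef, torusDat]
    have hh : D.hv 1 h = fun w => lam * h w := by
      funext w
      simp [Dat.hv, hDdef, torusDat]
    simp only [JT, Dat.J, Dat.G, hz, hh]
    rfl
  rw [hJ]
  have := form_le D hD zero_le_one le_rfl (D.hv 1 h) hlt u
  calc u ⬝ᵥ (D.J 1 (D.hv 1 h) *ᵥ u) ≤ 2 * D.KA * ∑ x, u x ^ 2 := this
    _ = 2 * lam ^ (kap / 16) / lam ^ (2 + kap) * ∑ x, u x ^ 2 := by
      have : D.KA = lam ^ (kap / 16) / lam ^ (2 + kap) := rfl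
      rw [this]
      ring

end Pool.Agent.Kin
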