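import Pool.Agent.Kin.TDefs

/-! # KIN: definitions on `ℤ^d` (Part C) -/

open Matrix Finset

noncomputable section

namespace Pool.Agent.Kin

variable {d : ℕ}

/-- The Anderson Hamiltonian `-Δ + λ v` acting on functions on `ℤ^d`. -/
def hamZ (lam : ℝ) (v : (Fin d → ℤ) → ℝ) (ψ : (Fin d → ℤ) → ℂ) (x : Fin d → ℤ) : ℂ :=
  ∑ j : Fin d, (2 * ψ x - ψ (x + Pi.single j 1) - ψ (x - Pi.single j 1)) +
    ((lam * v x : ℝ) : ℂ) * ψ x

/-- The mass of `ψ` in the cube of radius `r` around `x`. -/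
def massZ (x : Fin d → ℤ) (r : ℕ) (ψ : (Fin d → ℤ) → ℂ) : ℝ :=
  ∑ y ∈ Fintype.piFinset fun j => Finset.Icc (x j - r) (x j + r), ‖ψ y‖ ^ 2

/-- the cutoff function: `1` at `0`, Lipschitz with constant `4/L`, zero for `|y| ≥ L/4` -/
def chi (L : ℕ) (y : Fin d → ℤ) : ℝ := max 0 (1 - 4 * ‖y‖ / L)

/-- `ψ` cut off and transported to the torus -/
def phiT (L : ℕ) (x : Fin d → ℤ) (ψ : (Fin d → ℤ) → ℂ) (w : Tor d L) : ℂ :=
  ((chi L (rep w) : ℝ) : ℂ) * ψ (x + rep w)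

end Pool.Agent.Kin
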