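import Pool.Agent.Kin.DerH
import Pool.Agent.Kin.DerR

/-! KIN ZDER: derivatives of `Z^p = η (G b G* - Fbar)` in `h_w` and along the path. -/

open Matrix Finset

noncomputable section

set_option linter.unusedSectionVars false

namespace Pool.Agent.Kin

variable {ι P : Type} [Fintype ι] [DecidableEq ι] [Fintype P]

namespace Dat

variable (D : Dat ι P)

private lemma F_apply (p : P) (r : ℝ) (h : ι → ℝ) (x y : ι) :
    D.F p r h x y = ∑ u, D.G r h x u * D.b p u * star (D.G r h y u) := by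
  unfold F
  rw [Matrix.mul_apply]
  refine Finset.sum_congr rfl fun u _ => ?_
  rw [Matrix.mul_diagonal, Matrix.conjTranspose_apply]

/-- derivative of `G b G*` from the derivative of `G` -/
private lemma hasDerivAt_F_gen (p : P) (G : ℝ → Matrix ι ι ℂ) (G' : Matrix ι ι ℂ) (t : ℝ)
    (hG : ∀ x y, HasDerivAt (fun t => G t x y) (G' x y) t) (x y : ι) :
    HasDerivAt (fun t => ∑ u, G t x u * D.b p u * star (G t y u))
      (∑ u, (G' x u * D.b p u * star (G t y u) + G t x u * D.b p u * star (G' y u))) t := by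
  apply HasDerivAt.fun_sum
  intro u _
  have h1 := (hG x u).mul_const (D.b p u)
  have h2 := (hG y u).star
  have h3 := h1.fun_mul h2
  exact h3

private lemma zr_im (r : ℝ) : (D.zr r).im = D.et r := by
  simp only [zr, et, eta, Complex.add_im, Complex.im_ofReal_mul]

private lemma hasDerivAt_G (hH : RealSym D.H0) {r : ℝ} (hr : 0 < D.et r) (h : ι → ℝ) (w : ι) (t : ℝ)
    (x y : ι) : HasDerivAt (fun t : ℝ => D.G r (Function.update h w t) x y)
      (-(D.G r (Function.update h w t) x w * D.G r (Function.update h w t) w y)) t :=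
  hasDerivAt_res hH (by rw [zr_im]; exact hr) h w t x y

private lemma hasDerivAt_F (hH : RealSym D.H0) {r : ℝ} (hr : 0 < D.et r) (p : P) (h : ι → ℝ) (w : ι)
    (t : ℝ) (x y : ι) : HasDerivAt (fun t : ℝ => D.F p r (Function.update h w t) x y)
      (-(D.G r (Function.update h w t) x w * D.F p r (Function.update h w t) w y +
        D.F p r (Function.update h w t) x w * star (D.G r (Function.update h w t) y w))) t := by
  have h1 := D.hasDerivAt_F_gen p (fun t => D.G r (Function.update h w t))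
    (fun x y => -(D.G r (Function.update h w t) x w * D.G r (Function.update h w t) w y)) t
    (fun x y => D.hasDerivAt_G hH hr h w t x y) x y
  have h2 : (fun t : ℝ => D.F p r (Function.update h w t) x y) =
      fun t => ∑ u, D.G r (Function.update h w t) x u * D.b p u *
        star (D.G r (Function.update h w t) y u) := by
    funext t; exact D.F_apply p r _ x y
  rw [h2]
  refine h1.congr_deriv ?_
  rw [D.F_apply, D.F_apply, Finset.sum_add_distrib, neg_add, Finset.mul_sum, Finset.sum_mul,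
    ← Finset.sum_neg_distrib, ← Finset.sum_neg_distrib]
  congr 1
  · refine Finset.sum_congr rfl fun u _ => ?_
    ring
  · refine Finset.sum_congr rfl fun u _ => ?_
    rw [star_neg, star_mul']
    ring

private lemma Z_apply (p : P) (r : ℝ) (h : ι → ℝ) (x y : ι) :
    D.Z p r h x y = (D.eta : ℂ) * (D.F p r h x y - D.Fb p r x y) := by
  simp [Z]

lemma hasDerivAt_Z (hH : RealSym D.H0) {r : ℝ} (hr : 0 < D.et r) (p : P) (h : ι → ℝ) (w : ι)
    (t : ℝ) (x y : ι) : HasDerivAt (fun t : ℝ => D.Z p r (Function.update h w t) x y)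
      (D.dZ p w r (Function.update h w t) x y) t := by
  have h1 := ((D.hasDerivAt_F hH hr p h w t x y).sub_const (D.Fb p r x y)).const_mul (D.eta : ℂ)
  have h2 : (fun t : ℝ => D.Z p r (Function.update h w t) x y) =
      fun t => (D.eta : ℂ) * (D.F p r (Function.update h w t) x y - D.Fb p r x y) := by
    funext t; exact D.Z_apply p r _ x y
  rw [h2]
  refine h1.congr_deriv ?_
  simp only [dZ]
  ring

lemma hasDerivAt_dZ (hH : RealSym D.H0) {r : ℝ} (hr : 0 < D.et r) (p : P) (h : ι → ℝ) (w : ι)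
    (t : ℝ) (x y : ι) : HasDerivAt (fun t : ℝ => D.dZ p w r (Function.update h w t) x y)
      (D.ddZ p w r (Function.update h w t) x y) t := by
  have hG1 := D.hasDerivAt_G hH hr h w t x w
  have hG2 := (D.hasDerivAt_G hH hr h w t y w).star
  have hF1 := D.hasDerivAt_F hH hr p h w t w y
  have hF2 := D.hasDerivAt_F hH hr p h w t x w
  have h1 := (((hG1.fun_mul hF1).fun_add (hF2.fun_mul hG2)).const_mul (D.eta : ℂ)).fun_neg
  have h2 : (fun t : ℝ => D.dZ p w r (Function.update h w t) x y) =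
      fun t => -((D.eta : ℂ) * (D.G r (Function.update h w t) x w *
        D.F p r (Function.update h w t) w y + D.F p r (Function.update h w t) x w *
          star (D.G r (Function.update h w t) y w))) := rfl
  rw [h2]
  refine h1.congr_deriv ?_
  simp only [ddZ, star_neg, star_mul']
  ring

/-- needs `1 - s r² S_p ≠ 0` at `r`. -/
lemma path_Z (hH : RealSym D.H0) {r : ℝ} (hr : 0 < D.et r) (p : P)
    (hS : 1 - D.s * r ^ 2 * D.S p ≠ 0) (v : ι → ℝ) (x y : ι) :
    HasDerivAt (fun r : ℝ => D.Z p r (D.hv r v) x y)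
      (D.rZ p r (D.hv r v) x y + ∑ w, ((D.lam * v w : ℝ) : ℂ) * D.dZ p w r (D.hv r v) x y) r := by
  set G := D.G r (D.hv r v) with hGdef
  set G' : Matrix ι ι ℂ := fun x y => D.rX r (D.hv r v) x y +
    ∑ w, ((D.lam * v w : ℝ) : ℂ) * (-(G x w * G w y)) with hG'
  have h1 := D.hasDerivAt_F_gen p (fun r => D.G r (D.hv r v)) G' r
    (fun x y => D.path_G hH hr v x y) x y
  -- derivative of the coefficient of `Fb`
  have h2 : HasDerivAt (fun r : ℝ => (1 - D.s * r ^ 2 * D.S p)⁻¹)
      (2 * r * D.s * D.S p / (1 - D.s * r ^ 2 * D.S p) ^ 2) r := by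
    have h3 : HasDerivAt (fun r : ℝ => 1 - D.s * r ^ 2 * D.S p) (-(2 * r * D.s * D.S p)) r := by
      have h4 := (((hasDerivAt_pow 2 r).const_mul D.s).mul_const (D.S p)).const_sub 1
      refine h4.congr_deriv ?_
      have h21 : (2 : ℕ) - 1 = 1 := rfl
      rw [h21, pow_one]
      push_cast
      ring
    have h5 := h3.fun_inv hS
    refine h5.congr_deriv ?_
    rw [neg_neg]
  have h3 : HasDerivAt (fun r : ℝ => D.Fb p r x y)
      (((2 * r * D.s * D.S p / (1 - D.s * r ^ 2 * D.S p) ^ 2 : ℝ) : ℂ) *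
        (D.M * Matrix.diagonal (D.b p) * D.Mᴴ) x y) r := by
    have h4 := h2.ofReal_comp.mul_const ((D.M * Matrix.diagonal (D.b p) * D.Mᴴ) x y)
    exact h4
  have h4 : (fun r : ℝ => D.Z p r (D.hv r v) x y) = fun r =>
      (D.eta : ℂ) * ((∑ u, D.G r (D.hv r v) x u * D.b p u * star (D.G r (D.hv r v) y u)) -
        D.Fb p r x y) := by
    funext r
    rw [D.Z_apply, D.F_apply]
  rw [h4]
  refine ((h1.fun_sub h3).const_mul (D.eta : ℂ)).congr_deriv ?_
  -- the algebra
  have hFb : ((2 * r * D.s * D.S p / (1 - D.s * r ^ 2 * D.S p) ^ 2 : ℝ) : ℂ) *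
        (D.M * Matrix.diagonal (D.b p) * D.Mᴴ) x y =
      ((2 * r * D.s * D.Fh p r : ℝ) : ℂ) * D.Fb p r x y := by
    have h5 : D.Fb p r x y = (((1 - D.s * r ^ 2 * D.S p)⁻¹ : ℝ) : ℂ) *
        (D.M * Matrix.diagonal (D.b p) * D.Mᴴ) x y := rfl
    rw [h5, ← mul_assoc, ← Complex.ofReal_mul]
    congr 2
    unfold Fh
    field_simp
  have hA : ∑ u, (D.rX r (D.hv r v) x u * D.b p u * star (G y u)) =
      (-(2 * (r : ℂ) * (D.s : ℂ) * D.g0)) * (G * D.F p r (D.hv r v)) x y := by
    rw [Matrix.mul_apply, Finset.mul_sum]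
    have h5 : ∀ u, D.rX r (D.hv r v) x u = (-(2 * (r : ℂ) * (D.s : ℂ) * D.g0)) *
        ∑ k, G x k * G k u := by
      intro u
      simp only [rX, Matrix.smul_apply, Matrix.mul_apply, smul_eq_mul, ← hGdef]
    simp only [h5, D.F_apply, ← hGdef, Finset.mul_sum, Finset.sum_mul]
    rw [Finset.sum_comm]
    refine Finset.sum_congr rfl fun k _ => Finset.sum_congr rfl fun u _ => ?_
    ring
  have hB : ∑ u, (G x u * D.b p u * star (D.rX r (D.hv r v) y u)) =
      (-(2 * (r : ℂ) * (D.s : ℂ) * star D.g0)) * (D.F p r (D.hv r v) * Gᴴ) x y := by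
    rw [Matrix.mul_apply, Finset.mul_sum]
    have h5 : ∀ u, star (D.rX r (D.hv r v) y u) = (-(2 * (r : ℂ) * (D.s : ℂ) * star D.g0)) *
        ∑ k, star (G y k) * star (G k u) := by
      intro u
      simp only [rX, Matrix.smul_apply, Matrix.mul_apply, smul_eq_mul, ← hGdef, star_mul',
        star_sum, star_neg]
      simp
    simp only [h5, D.F_apply, ← hGdef, Finset.mul_sum, Finset.sum_mul, conjTranspose_apply]
    rw [Finset.sum_comm]
    refine Finset.sum_congr rfl fun k _ => Finset.sum_congr rfl fun u _ => ?_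
    ring
  have hC : ∑ u, ((∑ w, ((D.lam * v w : ℝ) : ℂ) * (-(G x w * G w u))) * D.b p u * star (G y u)) =
      ∑ w, ((D.lam * v w : ℝ) : ℂ) * (-(G x w * D.F p r (D.hv r v) w y)) := by
    simp only [D.F_apply, ← hGdef, Finset.mul_sum, Finset.sum_mul, ← Finset.sum_neg_distrib]
    rw [Finset.sum_comm]
    refine Finset.sum_congr rfl fun k _ => Finset.sum_congr rfl fun u _ => ?_
    ring
  have hE : ∑ u, (G x u * D.b p u * star (∑ w, ((D.lam * v w : ℝ) : ℂ) * (-(G y w * G w u)))) =
      ∑ w, ((D.lam * v w : ℝ) : ℂ) * (-(D.F p r (D.hv r v) x w * star (G y w))) := by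
    simp only [D.F_apply, ← hGdef, Finset.mul_sum, Finset.sum_mul, ← Finset.sum_neg_distrib,
      star_sum, star_mul', star_neg]
    rw [Finset.sum_comm]
    refine Finset.sum_congr rfl fun k _ => Finset.sum_congr rfl fun u _ => ?_
    have h5 : star (((D.lam * v k : ℝ) : ℂ)) = ((D.lam * v k : ℝ) : ℂ) :=
      Complex.conj_ofReal _
    rw [h5]
    ring
  have hsum : ∑ u, (G' x u * D.b p u * star (G y u) + G x u * D.b p u * star (G' y u)) =
      (-(2 * (r : ℂ) * (D.s : ℂ) * D.g0)) * (G * D.F p r (D.hv r v)) x y +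
      (-(2 * (r : ℂ) * (D.s : ℂ) * star D.g0)) * (D.F p r (D.hv r v) * Gᴴ) x y +
      (∑ w, ((D.lam * v w : ℝ) : ℂ) * (-(G x w * D.F p r (D.hv r v) w y)) +
      ∑ w, ((D.lam * v w : ℝ) : ℂ) * (-(D.F p r (D.hv r v) x w * star (G y w)))) := by
    rw [← hA, ← hB, ← hC, ← hE, ← Finset.sum_add_distrib, ← Finset.sum_add_distrib,
      ← Finset.sum_add_distrib]
    refine Finset.sum_congr rfl fun u _ => ?_
    simp only [hG', star_add]
    ring
  rw [hsum, hFb]
  have hdZ : ∑ w, ((D.lam * v w : ℝ) : ℂ) * D.dZ p w r (D.hv r v) x y =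
      (D.eta : ℂ) * (∑ w, ((D.lam * v w : ℝ) : ℂ) * (-(G x w * D.F p r (D.hv r v) w y)) +
      ∑ w, ((D.lam * v w : ℝ) : ℂ) * (-(D.F p r (D.hv r v) x w * star (G y w)))) := by
    rw [← Finset.sum_add_distrib, Finset.mul_sum]
    refine Finset.sum_congr rfl fun w _ => ?_
    simp only [dZ, ← hGdef]
    ring
  rw [hdZ]
  simp only [rZ, Matrix.smul_apply, Matrix.sub_apply, Matrix.add_apply, smul_eq_mul, ← hGdef]
  ring

end Dat

end Pool.Agent.Kin
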